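import Pool.Agent.R427.TW21

/-!
Finiteness of the set of ramified places.
-/

set_option autoImplicit false
set_option linter.all false
set_option maxHeartbeats 4000000

open FF Module Polynomial

namespace Pool.Agent.R427.AQ

open Pool.Agent.W343.BSD Pool.Agent.H123R3.ZT Pool.Agent.H525R3.FFp
open Pool.Agent.R427.TW

section lift

variable {k K : Type} [Field k] [Finite k] [Field K] [Algebra k K] [FF.IsFF k K]

/-- the places where a coefficient is not a unit -/
def badP (k : Type) {K : Type} [Field k] [Field K] [Algebra k K] (f : K[X]) : Set (Place k K) :=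
  ⋃ n ∈ f.support, {v : Place k K | v.ord (f.coeff n) ≠ 0}

theorem badP_finite (f : K[X]) : (badP k f).Finite :=
  Set.Finite.biUnion f.support.finite_toSet fun n _ => finite_support (k := k) (f.coeff n)

theorem lift_poly {v : Place k K} {f : K[X]} (h : v ∉ badP k f) :
    ∃ F : v.O[X], F.map v.O.subtype = f := by
  have h1 : f ∈ Polynomial.lifts v.O.subtype := by
    rw [Polynomial.lifts_iff_coeff_lifts]
    intro n
    have h2 : v.Reg (f.coeff n) := by
      by_cases h0 : f.coeff n = 0
      · exact Or.inl h0
      · right
        by_contra h3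
        apply h
        refine Set.mem_biUnion (mem_support_iff.2 h0) ?_
        show v.ord (f.coeff n) ≠ 0
        omega
    exact ⟨⟨f.coeff n, h2⟩, rfl⟩
  obtain ⟨F, hF⟩ := (Polynomial.mem_lifts f).1 h1
  exact ⟨F, hF⟩

end lift

section ram

variable {k K L : Type} [Field k] [Finite k] [Field K] [Algebra k K] [FF.IsFF k K]
  [Field L] [Algebra k L] [Algebra K L] [IsScalarTower k K L] [FF.IsFF k L]
  [FiniteDimensional K L] [Algebra.IsSeparable K L]

/-- finitely many places are ramified in a separable extension -/
theorem fin_ram' : {v : Place k K | Ram L v}.Finite := by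
  obtain ⟨θ, hθ⟩ := Field.exists_primitive_element K L
  have hsep : (minpoly K θ).Separable := Algebra.IsSeparable.isSeparable K θ
  have hmon : (minpoly K θ).Monic := minpoly.monic (Algebra.IsIntegral.isIntegral θ)
  obtain ⟨a, b, hab⟩ := hsep
  refine (((badP_finite (k := k) (minpoly K θ)).union (badP_finite (k := k) a)).union
    (badP_finite (k := k) b)).subset ?_
  rintro v ⟨w, e, hov, he⟩
  by_contra hv
  rw [Set.mem_union, Set.mem_union] at hv
  push Not at hv
  obtain ⟨⟨h1, h2⟩, h3⟩ := hv
  obtain ⟨F, hF⟩ := lift_poly h1
  obtain ⟨A, hA⟩ := lift_poly h2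
  obtain ⟨B, hB⟩ := lift_poly h3
  have hinj : Function.Injective (v.O.subtype : v.O →+* K) := Subtype.val_injective
  apply he
  refine Pool.Agent.Y701.R2.unram_of_root hθ v (F := F) ?_ ?_ ?_ hov
  · exact Polynomial.monic_of_injective hinj (by rw [hF]; exact hmon)
  · rw [hF]
    exact minpoly.aeval K θ
  · have e1 : A * F + B * derivative F = 1 := by
      apply Polynomial.map_injective v.O.subtype hinj
      rw [Polynomial.map_add, Polynomial.map_mul, Polynomial.map_mul, ← Polynomial.derivative_map,
        hF, hA, hB, Polynomial.map_one]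
      exact hab
    have e2 := congrArg (Polynomial.map v.resHom) e1
    rw [Polynomial.map_add, Polynomial.map_mul, Polynomial.map_mul, ← Polynomial.derivative_map,
      Polynomial.map_one] at e2
    exact ⟨_, _, e2⟩

end ram

end Pool.Agent.R427.AQ
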