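import Pool.Agent.R427.AQ1

/-!
Quadratic characters over Galois extensions of prime power degree: two values of the numerator.
-/

set_option autoImplicit false
set_option linter.all false
set_option maxHeartbeats 4000000

open PowerSeries FF Module

namespace Pool.Agent.R427.AQ

open Pool.Agent.W343.BSD Pool.Agent.H123R3.ZT Pool.Agent.W313.Gr Pool.Agent.W313.Hyp
open Pool.Agent.TH639.B3 Pool.Agent.H525R3.FFp
open Pool.Agent.R427.TW
open Pool.Agent.Y701.R2 (over_trans)

section defs

/-- the relation modulo `l` with a left factor which vanishes neither at `1` nor at `1 / q` -/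
def NR2 (l : ℕ) (k : Type) {K : Type} [Field k] [Field K] [Algebra k K] (u : K) : Prop :=
  ∃ P Q : Polynomial (ZMod l), P ≠ 0 ∧ Q.eval 1 ≠ 0 ∧ Q.eval ((Nat.card k : ℕ) : ZMod l)⁻¹ ≠ 0 ∧
    (Q : PowerSeries (ZMod l)) * eulerProd (fun v : Place k K => v.deg)
      (fun v => (chF l (fun v => chi v u) v : PowerSeries (ZMod l))) = (P : PowerSeries (ZMod l))

end defs

section ext

variable {k K L : Type} [Field k] [Finite k] [Field K] [Algebra k K] [FF.IsFF k K] [Field L]
  [Algebra k L] [Algebra K L] [IsScalarTower k K L] [FF.IsFF k L] [FiniteDimensional K L]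
  [IsGalois K L] {l : ℕ}

theorem one_ne_neg [hlf : Fact l.Prime] (hlo : Odd l) : (1 : ZMod l) + 1 ≠ 0 := by
  intro h4
  have h5 : ((2 : ℕ) : ZMod l) = 0 := by
    push_cast
    linear_combination h4
  rw [ZMod.natCast_eq_zero_iff] at h5
  have h6 := Nat.le_of_dvd (by norm_num) h5
  have h7 := hlf.out.two_le
  have h8 : l = 2 := by omega
  rw [h8] at hlo
  exact absurd hlo (by decide)

/-- one step -/
theorem rel_step2 [hlf : Fact l.Prime] (hlo : Odd l) (h6 : (6 : k) ≠ 0) (hlk : ((l : ℕ) : k) ≠ 0)
    (hn : finrank K L = l) {u : K} (hu : u ≠ 0)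
    (hr : ∀ v : Place k K, Ram L v → chi v u ≠ 1 ∧ ((Nat.card k : ℕ) : ZMod l) ^ v.deg ≠ -1)
    (h : NR2 l k u) : NR2 l k (algebraMap K L u) := by
  classical
  have hl := hlf.out
  have hq := card_ne_zero_mod (k := k) hlk
  obtain ⟨P, Q, hP, hQ, hQ2, hrel⟩ := h
  have hex := fun v : Place k K => exists_galoisFiber (L := L) v
  choose S e f G using hex
  have hram : ∀ v, e v ≠ 1 → Ram L v := by
    intro v hv
    obtain ⟨w, hw⟩ := (G v).nonempty
    exact ⟨w, e v, (G v).isOver w hw, hv⟩
  have hfin : {v : Place k K | e v ≠ 1}.Finite :=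
    (fin_ram' (k := k) (K := K) (L := L)).subset fun v hv => hram v hv
  set B : Finset (Place k K) := hfin.toFinset with hB
  have hBm : ∀ v, e v = 1 ↔ v ∉ B := by
    intro v
    rw [hB, Set.Finite.mem_toFinset, Set.mem_setOf_eq, not_not]
  have key := chi_tower (L := L) hlo h6 hn hu G B hBm hrel
  refine ⟨P ^ l, _, pow_ne_zero _ hP, ?_, ?_, key⟩
  · rw [Polynomial.eval_mul, Polynomial.eval_pow, Polynomial.eval_prod]
    refine mul_ne_zero (pow_ne_zero _ hQ) (Finset.prod_ne_zero_iff.2 fun v hv => ?_)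
    have h1 : e v ≠ 1 := fun h => (hBm v).1 h hv
    have h2 := (hr v (hram v h1)).1
    rw [Polynomial.eval_pow]
    apply pow_ne_zero
    unfold chF
    rw [Polynomial.eval_sub, Polynomial.eval_mul, Polynomial.eval_pow, Polynomial.eval_X,
      Polynomial.eval_one, Polynomial.eval_C, one_pow, mul_one]
    show 1 - ((chi v u : ℤ) : ZMod l) ≠ 0
    rcases chi_vals v u with h3 | h3 | h3
    · rw [h3, Int.cast_zero, sub_zero]; exact one_ne_zero
    · exact absurd h3 h2
    · rw [h3, Int.cast_neg, Int.cast_one, sub_neg_eq_add]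
      exact one_ne_neg hlo
  · rw [Polynomial.eval_mul, Polynomial.eval_pow, Polynomial.eval_prod]
    refine mul_ne_zero (pow_ne_zero _ hQ2) (Finset.prod_ne_zero_iff.2 fun v hv => ?_)
    have h1 : e v ≠ 1 := fun h => (hBm v).1 h hv
    obtain ⟨h2, h2'⟩ := hr v (hram v h1)
    rw [Polynomial.eval_pow]
    apply pow_ne_zero
    unfold chF
    rw [Polynomial.eval_sub, Polynomial.eval_mul, Polynomial.eval_pow, Polynomial.eval_X,
      Polynomial.eval_one, Polynomial.eval_C]
    show 1 - ((chi v u : ℤ) : ZMod l) * _ ≠ 0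
    rcases chi_vals v u with h3 | h3 | h3
    · rw [h3, Int.cast_zero, zero_mul, sub_zero]; exact one_ne_zero
    · exact absurd h3 h2
    · rw [h3, Int.cast_neg, Int.cast_one, neg_one_mul, sub_neg_eq_add]
      intro h4
      apply h2'
      have h5 : ((Nat.card k : ℕ) : ZMod l) ^ v.deg * ((Nat.card k : ℕ) : ZMod l)⁻¹ ^ v.deg = 1 := by
        rw [← mul_pow, mul_inv_cancel₀ hq, one_pow]
      linear_combination ((Nat.card k : ℕ) : ZMod l) ^ v.deg * h4 - h5

/-- extensions of degree one -/
theorem rel_one2 [hlf : Fact l.Prime] (h6 : (6 : k) ≠ 0) (hn : finrank K L = 1) {u : K}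
    (hu : u ≠ 0) (h : NR2 l k u) : NR2 l k (algebraMap K L u) := by
  classical
  obtain ⟨P, Q, hP, hQ, hQ2, hrel⟩ := h
  refine ⟨P, Q, hP, hQ, hQ2, ?_⟩
  rw [← hrel]
  congr 1
  have hex := fun v : Place k K => exists_galoisFiber (L := L) v
  choose S e f G using hex
  have hFL : ∀ w : Place k L, (X : PowerSeries (ZMod l)) ^ w.deg ∣
      (chF l (fun w => chi w (algebraMap K L u)) w : PowerSeries (ZMod l)) - 1 :=
    fun w => key_mod _ _
  rw [← euler_fiber G hFL]
  congr 1
  funext v
  have h1 := (G v).mul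
  rw [hn] at h1
  have h2 := Nat.eq_one_of_mul_eq_one_right h1
  have h3 := Nat.eq_one_of_mul_eq_one_left h1
  have h4 := Nat.eq_one_of_mul_eq_one_left h3
  obtain ⟨w, hw⟩ := Finset.card_eq_one.1 h2
  have hwS : w ∈ S v := by rw [hw]; exact Finset.mem_singleton_self w
  rw [hw, Finset.prod_singleton]
  have h5 := chi_galois (L := L) h6 (by rw [hn]; exact odd_one) hu ((G v).isOver w hwS)
  have h6 := (G v).deg w hwS
  rw [h4, mul_one] at h6
  unfold chF
  simp only
  rw [h5, h6]

/-- the degree over a place in a Galois extension of degree `l` -/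
theorem card_pow_over [hlf : Fact l.Prime] {N : ℕ} (hn : finrank K L = l ^ N) {w : Place k L}
    {v : Place k K} {e : ℕ} (hov : Over w v e) :
    ((Nat.card k : ℕ) : ZMod l) ^ w.deg = ((Nat.card k : ℕ) : ZMod l) ^ v.deg := by
  obtain ⟨S, e', f, G⟩ := exists_galoisFiber (L := L) v
  have hw := G.mem w e hov
  have h1 : f ∣ l ^ N := ⟨S.card * e', by rw [← hn, ← G.mul]; ring⟩
  obtain ⟨j, -, hj⟩ := (Nat.dvd_prime_pow hlf.out).1 h1
  rw [G.deg w hw, hj, pow_mul, ZMod.pow_card_pow]

end ext

section one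

variable {k : Type} [Field k] [Finite k] {l : ℕ}

/-- subextensions of Galois extensions of degree a power of `l` -/
theorem rel_sub2 [hlf : Fact l.Prime] (hlo : Odd l) (h6 : (6 : k) ≠ 0)
    (hlk : ((l : ℕ) : k) ≠ 0) (n : ℕ) :
    ∀ (K L L' : Type) [Field K] [Algebra k K] [FF.IsFF k K] [Field L] [Algebra k L] [Algebra K L]
      [IsScalarTower k K L] [Field L'] [Algebra k L'] [Algebra K L'] [Algebra L L']
      [IsScalarTower k K L'] [IsScalarTower K L L'] [FiniteDimensional K L'] [IsGalois K L'] (N : ℕ),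
      finrank K L' = l ^ N → finrank K L = l ^ n →
      ∀ u : K, u ≠ 0 → (∀ v : Place k K, Ram L' v →
        chi v u ≠ 1 ∧ ((Nat.card k : ℕ) : ZMod l) ^ v.deg ≠ -1) → NR2 l k u →
        NR2 l k (algebraMap K L u) := by
  have hl := hlf.out
  induction n with
  | zero =>
    intro K L L' _ _ _ _ _ _ _ _ _ _ _ _ _ _ _ N hN hn u hu _ h
    have hfd : FiniteDimensional K L := Module.finite_of_finrank_pos (by
      rw [hn]; exact pow_pos hl.pos _)
    have hFF : FF.IsFF k L := isFF_of_finite (K := K)
    rw [pow_zero] at hn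
    have hgal : IsGalois K L := galois_one hn
    exact rel_one2 h6 hn hu h
  | succ n ih =>
    intro K L L' _ _ _ _ _ _ _ _ _ _ _ _ _ _ _ N hN hn u hu hr h
    have hfd : FiniteDimensional K L := Module.finite_of_finrank_pos (by
      rw [hn]; exact pow_pos hl.pos _)
    have hfdL : FiniteDimensional L L' := Module.Finite.of_restrictScalars_finite K L L'
    have hFFL : FF.IsFF k L := isFF_of_finite (K := K)
    have hFFL' : FF.IsFF k L' := isFF_of_finite (K := K)
    -- the degrees
    have hdeg : finrank K L * finrank L L' = l ^ N := by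
      rw [Module.finrank_mul_finrank, hN]
    have hnN : n + 1 ≤ N := by
      have h1 : l ^ (n + 1) ∣ l ^ N := ⟨finrank L L', by rw [← hdeg, hn]⟩
      exact (Nat.pow_dvd_pow_iff_le_right hl.one_lt).1 h1
    have hLL' : finrank L L' = l ^ (N - (n + 1)) := by
      apply Nat.eq_of_mul_eq_mul_left (pow_pos hl.pos (n + 1))
      rw [← hn, hdeg, hn, ← pow_add, Nat.add_sub_cancel' hnN]
    have hcard : Nat.card (L' ≃ₐ[K] L') = l ^ N := by
      rw [IsGalois.card_aut_eq_finrank, hN]
    have hfinG : Finite (L' ≃ₐ[K] L') := Nat.finite_of_card_ne_zero (by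
      rw [hcard]; exact pow_ne_zero _ hl.ne_zero)
    -- the subgroup fixing `L`
    set φ : L →ₐ[K] L' := IsScalarTower.toAlgHom K L L' with hφ
    set R : IntermediateField K L' := φ.fieldRange with hR
    have hφinj : Function.Injective φ := φ.toRingHom.injective
    have hKR : finrank K R = l ^ (n + 1) := by
      rw [← hn]
      exact ((AlgEquiv.ofInjectiveField φ).toLinearEquiv.finrank_eq).symm
    have hRL : finrank R L' = l ^ (N - (n + 1)) := by
      have h1 := Module.finrank_mul_finrank K R L'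
      apply Nat.eq_of_mul_eq_mul_left (pow_pos hl.pos (n + 1))
      rw [← hKR, h1, hN, hKR, ← pow_add, Nat.add_sub_cancel' hnN]
    set H : Subgroup (L' ≃ₐ[K] L') := R.fixingSubgroup with hH
    have hHc : Nat.card H = l ^ (N - (n + 1)) := by
      rw [hH, IsGalois.card_fixingSubgroup_eq_finrank, hRL]
    obtain ⟨Q, hQ, hHQ⟩ := Sylow.exists_subgroup_card_pow_prime_le l (m := N - 1)
      (by rw [hcard]; exact pow_dvd_pow l (Nat.sub_le N 1)) H hHc (by omega)
    have hidx : Q.index = l := by
      have h1 := Q.card_mul_index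
      rw [hQ, hcard] at h1
      have e : l ^ N = l ^ (N - 1) * l := by
        rw [← pow_succ]
        congr 1
        omega
      rw [e] at h1
      exact Nat.eq_of_mul_eq_mul_left (pow_pos hl.pos _) h1
    have hnorm : Q.Normal := by
      apply Subgroup.normal_of_index_eq_minFac_card
      rw [hidx, hcard, hl.pow_minFac (by omega)]
    set M : IntermediateField K L' := IntermediateField.fixedField Q with hM
    have hML : finrank M L' = l ^ (N - 1) := by
      rw [hM, IntermediateField.finrank_fixedField_eq_card, hQ]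
    have hKM : finrank K M = l := by
      have h1 := Module.finrank_mul_finrank K M L'
      rw [hML, hN] at h1
      have e : l ^ N = l * l ^ (N - 1) := by
        rw [← pow_succ']
        congr 1
        omega
      rw [e] at h1
      exact Nat.eq_of_mul_eq_mul_right (pow_pos hl.pos _) h1
    have hgal : IsGalois K M := IsGalois.of_fixedField_normal_subgroup Q
    have hT : IsScalarTower k M L' := by
      refine IsScalarTower.of_algebraMap_eq fun c => ?_
      rw [IsScalarTower.algebraMap_apply k K L', IsScalarTower.algebraMap_apply k K M]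
      rfl
    have hFFM : FF.IsFF k M := isFF_of_finite (K := K)
    have huM : algebraMap K M u ≠ 0 := (_root_.map_ne_zero _).2 hu
    have h1 : NR2 l k (algebraMap K M u) := by
      refine rel_step2 hlo h6 hlk hKM hu ?_ h
      rintro v ⟨z, e, hov, he⟩
      apply hr v
      obtain ⟨S, e', f, G⟩ := exists_galoisFiber (L := L') z
      obtain ⟨w, hw⟩ := G.nonempty
      refine ⟨w, e' * e, over_trans (G.isOver w hw) hov, ?_⟩
      intro h2
      exact he (Nat.eq_one_of_mul_eq_one_left h2)
    -- the embedding of `M` in `L`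
    have hMR : M ≤ R := by
      rw [hM, ← IsGalois.fixedField_fixingSubgroup R]
      exact IntermediateField.fixedField_antitone hHQ
    have hmem : ∀ x : M, M.val x ∈ φ.range := fun x => by
      obtain ⟨y, hy⟩ := AlgHom.mem_fieldRange.1 (hMR x.2)
      exact ⟨y, hy⟩
    let ι : M →ₐ[K] L :=
      ((AlgEquiv.ofInjectiveField φ).symm : φ.range →ₐ[K] L).comp
        (M.val.codRestrict φ.range hmem)
    have hι : ∀ x : M, φ (ι x) = (x : L') := by
      intro x
      have h2 := AlgEquiv.apply_symm_apply (AlgEquiv.ofInjectiveField φ)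
        (M.val.codRestrict φ.range hmem x)
      exact congrArg Subtype.val h2
    let iA : Algebra M L := ι.toRingHom.toAlgebra
    have t1 : IsScalarTower K M L := IsScalarTower.of_algebraMap_eq fun c => (ι.commutes c).symm
    have t2 : IsScalarTower M L L' := IsScalarTower.of_algebraMap_eq fun x => (hι x).symm
    have t3 : IsScalarTower k M L := by
      refine IsScalarTower.of_algebraMap_eq fun c => ?_
      rw [IsScalarTower.algebraMap_apply k K L, IsScalarTower.algebraMap_apply K M L,
        IsScalarTower.algebraMap_apply k K M]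
    have hMLd : finrank M L = l ^ n := by
      have h2 := Module.finrank_mul_finrank K M L
      rw [hKM, hn, pow_succ'] at h2
      exact Nat.eq_of_mul_eq_mul_left hl.pos h2
    have h2 := ih M L L' (N - 1) hML hMLd (algebraMap K M u) huM ?_ h1
    · rw [← IsScalarTower.algebraMap_apply K M L] at h2
      exact h2
    · rintro z ⟨w, e, hov, he⟩
      obtain ⟨e', v, hv⟩ := exists_below (K := K) z
      rw [chi_galois h6 (by rw [hKM]; exact hlo) hu hv,
        card_pow_over (N := 1) (by rw [hKM, pow_one]) hv]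
      apply hr v
      exact ⟨w, e * e', over_trans hov hv, fun h2 => he (Nat.eq_one_of_mul_eq_one_right h2)⟩

end one

section value

variable {k F : Type} [Field k] [Finite k] [Field F] [Algebra k F] [FF.IsFF k F] {l : ℕ}

/-- the telescoping sums -/
theorem sum_tele (P : Polynomial ℤ) (Q : PowerSeries ℤ) (q : ℤ)
    (hP : (P : PowerSeries ℤ) = (1 - C q * X) * Q) (n : ℕ) :
    ∑ i ∈ Finset.range (n + 1), P.coeff i * q ^ (n - i) = coeff n Q := by
  induction n with
  | zero =>
    have := congrArg (coeff 0) hP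
    rw [Polynomial.coeff_coe] at this
    rw [Finset.sum_range_one, this, sub_mul, one_mul, map_sub, mul_assoc, coeff_C_mul,
      coeff_zero_X_mul, mul_zero, sub_zero, Nat.sub_zero, pow_zero, mul_one]
  | succ n ih =>
    have := congrArg (coeff (n + 1)) hP
    rw [Polynomial.coeff_coe] at this
    rw [Finset.sum_range_succ, this, sub_mul, one_mul, map_sub, mul_assoc, coeff_C_mul,
      coeff_succ_X_mul, ← ih, Nat.sub_self, pow_zero, mul_one, Finset.mul_sum]
    have e : ∀ i ∈ Finset.range (n + 1), P.coeff i * q ^ (n + 1 - i) =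
        q * (P.coeff i * q ^ (n - i)) := by
      intro i hi
      have h1 : n + 1 - i = (n - i) + 1 := by
        have := Finset.mem_range.1 hi
        omega
      rw [h1, pow_succ]
      ring
    rw [Finset.sum_congr rfl e]
    ring

/-- the value of the numerator at `1 / q` -/
theorem inv_value (hconst : ∀ a : F, IsAlgebraic k a → a ∈ (algebraMap k F).range)
    {P : Polynomial ℤ} (hP : IsZetaNum k F P) :
    ∃ (n N : ℕ), P.natDegree ≤ n ∧
      ∑ i ∈ Finset.range (n + 1), P.coeff i * (Nat.card k : ℤ) ^ (n - i) =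
        classNumber k F * (Nat.card k : ℤ) ^ N := by
  obtain ⟨m0, γ, hex⟩ := exact_count k F hconst
  have hq : 2 ≤ Nat.card k := by
    have := Finite.one_lt_card (α := k)
    omega
  set q : ℤ := (Nat.card k : ℤ) with hqdef
  set B : PowerSeries ℤ := PowerSeries.mk (fun m => (H387R3.ZT.bnum k F m : ℤ)) with hB
  have hb : ∀ m, m0 ≤ m → ((H387R3.ZT.bnum k F m : ℤ)) * (q - 1) =
      classNumber k F * (q ^ (m - γ).toNat - 1) := by
    intro m hm
    have h1 := congrArg (Nat.cast (R := ℤ)) (hex m hm).2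
    rw [Nat.cast_mul, Nat.cast_mul, Nat.cast_sub (by omega), Nat.cast_sub (Nat.one_le_pow _ _ (by omega)),
      Nat.cast_pow, Nat.cast_one] at h1
    exact h1
  have hq1 : q - 1 ≠ 0 := by omega
  have hE := euler_mul_count (fun v : FF.Place k F => v.deg)
    (fun v => (deg_pos v).ne') (fun n => H107R3.ZT.places_finite n)
  have hB' : B = PowerSeries.mk (fun m => (Nat.card {D : FF.Place k F →₀ ℕ //
      (D.sum fun v n => n * v.deg) = m} : ℤ)) := rfl
  rw [← hB'] at hE
  have hPB : (P : PowerSeries ℤ) = (1 - C q * X) * ((1 - X) * B) := by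
    unfold IsZetaNum at hP
    linear_combination B * hP - (P : PowerSeries ℤ) * hE
  set n := max P.natDegree (m0 + 1) with hn
  have hn1 : P.natDegree ≤ n := le_max_left _ _
  have hn2 : m0 + 1 ≤ n := le_max_right _ _
  obtain ⟨i, hi⟩ : ∃ i, n = i + 1 := ⟨n - 1, by omega⟩
  refine ⟨n, ((i : ℤ) - γ).toNat, hn1, ?_⟩
  rw [sum_tele P _ q hPB n, hi]
  have e1 : coeff (i + 1) ((1 - X) * B) = (H387R3.ZT.bnum k F (i + 1) : ℤ) -
      H387R3.ZT.bnum k F i := by
    rw [sub_mul, one_mul, map_sub, coeff_succ_X_mul, hB, coeff_mk, coeff_mk]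
  rw [e1]
  apply mul_right_cancel₀ hq1
  have n0 : 0 ≤ (i : ℤ) - γ := (hex i (by omega)).1
  have a0 := hb i (by omega)
  have a1 := hb (i + 1) (by omega)
  have t1 : (((i + 1 : ℕ) : ℤ) - γ).toNat = ((i : ℤ) - γ).toNat + 1 := by omega
  rw [t1] at a1
  linear_combination a1 - a0

/-- the value modulo `l` -/
theorem eval_inv_ne [hlf : Fact l.Prime] (hlk : ((l : ℕ) : k) ≠ 0)
    (hconst : ∀ a : F, IsAlgebraic k a → a ∈ (algebraMap k F).range)
    {P : Polynomial ℤ} (hP : IsZetaNum k F P) (hcl : ¬ l ∣ classNumber k F) :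
    (P.map (Int.castRingHom (ZMod l))).eval ((Nat.card k : ℕ) : ZMod l)⁻¹ ≠ 0 := by
  have hq := card_ne_zero_mod (k := k) hlk
  obtain ⟨n, N, hn, h⟩ := inv_value hconst hP
  set q : ZMod l := ((Nat.card k : ℕ) : ZMod l) with hqdef
  intro h0
  have h1 := congrArg (Int.cast (R := ZMod l)) h
  push_cast at h1
  have h2 : (P.map (Int.castRingHom (ZMod l))).natDegree < n + 1 :=
    lt_of_le_of_lt Polynomial.natDegree_map_le (by omega)
  rw [Polynomial.eval_eq_sum_range' h2] at h0
  have h3 : ∑ i ∈ Finset.range (n + 1), ((P.coeff i : ℤ) : ZMod l) * q ^ (n - i) =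
      q ^ n * ∑ i ∈ Finset.range (n + 1),
        (P.map (Int.castRingHom (ZMod l))).coeff i * q⁻¹ ^ i := by
    rw [Finset.mul_sum]
    refine Finset.sum_congr rfl fun i hi => ?_
    have hi' := Finset.mem_range.1 hi
    have e : q ^ n = q ^ (n - i) * q ^ i := by
      rw [← pow_add]
      congr 1
      omega
    have e2 : q ^ i * q⁻¹ ^ i = 1 := by rw [← mul_pow, mul_inv_cancel₀ hq, one_pow]
    rw [Polynomial.coeff_map, e, eq_intCast]
    linear_combination -(((P.coeff i : ℤ) : ZMod l) * q ^ (n - i)) * e2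
  rw [h3, h0, mul_zero] at h1
  have h4 : ((classNumber k F : ℕ) : ZMod l) ≠ 0 := by
    intro h5
    exact hcl ((ZMod.natCast_eq_zero_iff _ _).1 h5)
  exact mul_ne_zero h4 (pow_ne_zero N hq) h1.symm

end value

end Pool.Agent.R427.AQ
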