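import Pool.Agent.R427.AQ2

/-!
The value of the `L`-function at `1 / q` modulo `l`.
-/

set_option autoImplicit false
set_option linter.all false
set_option maxHeartbeats 4000000

open PowerSeries FF Module

namespace Pool.Agent.R427.AQ

open Pool.Agent.W343.BSD Pool.Agent.H123R3.ZT Pool.Agent.W313.Gr Pool.Agent.W313.Hyp
open Pool.Agent.TH639.B3 Pool.Agent.H525R3.FFp
open Pool.Agent.R427.TW
open Pool.Agent.Y701.R2 (over_trans)
open Pool.Agent.W309.T3 (rescale_eulerProd rescale_poly rm_comp binom_ne rm_binom card_char)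

section cls

variable {k K L : Type} [Field k] [Finite k] [Field K] [Algebra k K] [FF.IsFF k K] [Field L]
  [Algebra k L] [Algebra K L] [IsScalarTower k K L] [FF.IsFF k L] {l : ℕ}

/-- the relation from the class number -/
theorem nr2_of_class [hlf : Fact l.Prime] (h6 : (6 : k) ≠ 0) (hlk : ((l : ℕ) : k) ≠ 0) {u : K}
    (hu : u ≠ 0) (hns : ∀ s : K, u ≠ s ^ 2) {θ : L} (hθ : θ ^ 2 = algebraMap K L u)
    (htop : IntermediateField.adjoin K {θ} = ⊤) (hcK : constDeg k K = 1)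
    (hcL : constDeg k L = 1) (hconst : ∀ a : L, IsAlgebraic k a → a ∈ (algebraMap k L).range)
    (hcl : ¬ l ∣ S.classNumber k L) : NR2 l k u := by
  have h2 : (2 : k) ≠ 0 := by
    intro h; apply h6
    have : (6 : k) = 2 * 3 := by norm_num
    rw [this, h, zero_mul]
  have h2K : (2 : K) ≠ 0 := by
    have : algebraMap k K 2 ≠ 0 := by simpa using h2
    rwa [map_ofNat] at this
  obtain ⟨q1, q2, q3⟩ := quad_data h2K hθ hns htop
  obtain ⟨P, hP, -⟩ := exists_num_rel (k := k) (F := K)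
  obtain ⟨Q, hQ', hQ1⟩ := exists_num k L hconst
  have hQ : IsZetaNumRel k L Q := by
    unfold IsZetaNumRel
    unfold IsZetaNum at hQ'
    rw [hcL, pow_one, pow_one]
    exact hQ'
  have hrel := zeta_rel h6 q3 hu hθ hns hP hQ hcK hcL
  have h3 := rel_mod (l := l) hrel
  rw [S.classNumber_eq] at hcl
  refine ⟨_, _, ?_, ?_, eval_inv_ne hlk hconst hQ' hcl, h3⟩
  · intro h0
    have h4 := hP
    unfold IsZetaNumRel at h4
    have h5 := congrArg (redL l) h4
    rw [hcK, map_mul, redL_poly, h0, Polynomial.coe_zero, zero_mul] at h5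
    have h7 := congrArg (PowerSeries.constantCoeff (R := ZMod l)) h5
    simp [redL] at h7
  · rw [eval_map_one, hQ1]
    intro h0
    rw [ZMod.intCast_zmod_eq_zero_iff_dvd] at h0
    exact hcl (by exact_mod_cast h0)

end cls

section unit

variable {l : ℕ} [Fact l.Prime]
variable {k K : Type} [Field k] [Finite k] [Field K] [Algebra k K] [FF.IsFF k K]

/-- the bound for the multiplicity of `1 / q` as a root modulo `l` -/
theorem bound_poly (hlk : ((l : ℕ) : k) ≠ 0) {a b : K} (hΔ : 4 * a ^ 3 + 27 * b ^ 2 ≠ 0)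
    {χ : Place k K → ℤ} {P Q : Polynomial (ZMod l)} (hP : P ≠ 0) (hQ : Q ≠ 0)
    (hrel : (Q : PowerSeries (ZMod l)) * eulerProd (fun v : Place k K => v.deg)
      (fun v => (chF l χ v : PowerSeries (ZMod l))) = (P : PowerSeries (ZMod l)))
    (hgood : ∀ v : Place k K, v.red (minDisc v a b) ≠ 0 →
      locML l v a b = pairL l ((Nat.card k : ℕ) : ZMod l) (χ v) v.deg)
    {wt : Place k K → ℕ}
    (hbad : ∀ v : Place k K, v.red (minDisc v a b) = 0 →
      (pairL l ((Nat.card k : ℕ) : ZMod l) (χ v) v.deg).rootMultiplicity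
        ((Nat.card k : ℕ) : ZMod l)⁻¹ ≤
      (locML l v a b).rootMultiplicity ((Nat.card k : ℕ) : ZMod l)⁻¹ + wt v)
    (hwt : ∀ v : Place k K, v.red (minDisc v a b) ≠ 0 → wt v = 0) {G : Polynomial ℤ}
    (hG : S.Lfun k a b = (G : PowerSeries ℤ)) :
    G.map (Int.castRingHom (ZMod l)) ≠ 0 ∧
    (G.map (Int.castRingHom (ZMod l))).rootMultiplicity ((Nat.card k : ℕ) : ZMod l)⁻¹ +
      rs l (Nat.card k) P ≤ rs l (Nat.card k) Q + ∑ᶠ v : Place k K, wt v := by
  classical
  have hq := card_ne_zero_mod (k := k) hlk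
  have h2 := pairL_identity (k := k) (K := K) hrel
  set q : ZMod l := ((Nat.card k : ℕ) : ZMod l) with hqdef
  set x : ZMod l := q⁻¹ with hx
  have hfin := fun n => places_fin (k := k) (K := K) n
  set B : Finset (Place k K) := (bad_finite (k := k) hΔ).toFinset with hBdef
  have hB : ∀ v, v ∈ B ↔ v.red (minDisc v a b) = 0 := by
    intro v
    rw [hBdef, Set.Finite.mem_toFinset]
    rfl
  have hgood' : ∀ v, v ∉ B → (pairL l q (χ v) v.deg : PowerSeries (ZMod l)) =
      (locML l v a b : PowerSeries (ZMod l)) := by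
    intro v hv
    have h1 : v.red (minDisc v a b) ≠ 0 := fun h => hv ((hB v).2 h)
    rw [hgood v h1]
  have h1 := fin_factor' hfin (fun v => pairL_mod q (χ v) v.deg)
    (fun v => const_locML l v a b) B hgood'
  have h3 := lfun_modL (k := k) l a b
  have hPc0 := comp_ne hP hq
  have hQc0 := comp_ne hQ hq
  have hloc : ∀ v ∈ B, locML l v a b ≠ 0 := fun v _ => locML_ne l v a b
  have hpair : ∀ v ∈ B, pairL l q (χ v) v.deg ≠ 0 := fun v _ => pairL_ne _ _ (deg_pos' v)
  set GG : Polynomial (ZMod l) := G.map (Int.castRingHom (ZMod l)) with hGG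
  have hred : redL l (G : PowerSeries ℤ) = (GG : PowerSeries (ZMod l)) := by
    rw [redL_poly]
  rw [← S.lfun_eq hΔ, hG, hred] at h3
  -- the polynomial identity
  have h5 : (P * P.comp (Polynomial.C q * Polynomial.X)) *
      ((∏ v ∈ B, locML l v a b) * GG) =
      (Q * Q.comp (Polynomial.C q * Polynomial.X)) * ∏ v ∈ B, pairL l q (χ v) v.deg := by
    apply Polynomial.coe_injective
    rw [Polynomial.coe_mul, Polynomial.coe_mul (∏ v ∈ B, locML l v a b), Polynomial.coe_mul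
      (Q * Q.comp (Polynomial.C q * Polynomial.X)), ← h2, coe_prod', coe_prod']
    linear_combination ((Q * Q.comp (Polynomial.C q * Polynomial.X) : Polynomial (ZMod l)) :
      PowerSeries (ZMod l)) * (GG : PowerSeries (ZMod l)) * h1 +
      ((Q * Q.comp (Polynomial.C q * Polynomial.X) : Polynomial (ZMod l)) :
      PowerSeries (ZMod l)) * (∏ v ∈ B, (pairL l q (χ v) v.deg : PowerSeries (ZMod l))) * h3
  have hR0 : (Q * Q.comp (Polynomial.C q * Polynomial.X)) *
      ∏ v ∈ B, pairL l q (χ v) v.deg ≠ 0 :=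
    mul_ne_zero (mul_ne_zero hQ hQc0) (Finset.prod_ne_zero_iff.2 hpair)
  have hm0 : GG ≠ 0 := by
    intro h
    rw [h, mul_zero, mul_zero] at h5
    exact hR0 h5.symm
  have hprodL := Finset.prod_ne_zero_iff.2 hloc
  have h7 := congrArg (Polynomial.rootMultiplicity x) h5
  rw [rm_mul x (mul_ne_zero hP hPc0) (mul_ne_zero hprodL hm0), rm_mul x hP hPc0,
    rm_comp hq hP, rm_mul x hprodL hm0, rm_prod _ _ _ hloc,
    rm_mul x (mul_ne_zero hQ hQc0) (Finset.prod_ne_zero_iff.2 hpair), rm_mul x hQ hQc0,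
    rm_comp hq hQ, rm_prod _ _ _ hpair, hx, mul_inv_cancel₀ hq] at h7
  have hsum : ∑ᶠ v : Place k K, wt v = ∑ v ∈ B, wt v := by
    apply finsum_eq_sum_of_support_subset
    intro v hv
    rw [Function.mem_support] at hv
    rw [Finset.mem_coe, hB]
    by_contra h
    exact hv (hwt v h)
  have h8 : ∑ v ∈ B, (pairL l q (χ v) v.deg).rootMultiplicity q⁻¹ ≤
      ∑ v ∈ B, (locML l v a b).rootMultiplicity q⁻¹ + ∑ v ∈ B, wt v := by
    rw [← Finset.sum_add_distrib]
    exact Finset.sum_le_sum fun v hv => hbad v ((hB v).1 hv)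
  refine ⟨hm0, ?_⟩
  rw [hsum]
  show GG.rootMultiplicity q⁻¹ + (P.rootMultiplicity q⁻¹ + P.rootMultiplicity 1) ≤
    (Q.rootMultiplicity q⁻¹ + Q.rootMultiplicity 1) + ∑ v ∈ B, wt v
  omega

/-- the value at `1 / q` as a rational number -/
theorem rat_value (hlk : ((l : ℕ) : k) ≠ 0) {G : Polynomial ℤ}
    (h : (G.map (Int.castRingHom (ZMod l))).eval ((Nat.card k : ℕ) : ZMod l)⁻¹ ≠ 0) :
    (G.map (Int.castRingHom ℚ)).eval ((Nat.card k : ℕ) : ℚ)⁻¹ ≠ 0 ∧
      padicValRat l ((G.map (Int.castRingHom ℚ)).eval ((Nat.card k : ℕ) : ℚ)⁻¹) = 0 := by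
  have hq := card_ne_zero_mod (k := k) hlk
  have hqn : Nat.card k ≠ 0 := Nat.card_pos.ne'
  have hqQ : ((Nat.card k : ℕ) : ℚ) ≠ 0 := by exact_mod_cast hqn
  set n := G.natDegree with hn
  set N : ℤ := ∑ i ∈ Finset.range (n + 1), G.coeff i * (Nat.card k : ℤ) ^ (n - i) with hN
  have gen : ∀ {R : Type} [Field R] (f : ℤ →+* R) (_ : ((Nat.card k : ℕ) : R) ≠ 0),
      ((Nat.card k : ℕ) : R) ^ n * (G.map f).eval ((Nat.card k : ℕ) : R)⁻¹ = f N := by
    intro R _ f hqR
    have h2 : (G.map f).natDegree < n + 1 := lt_of_le_of_lt Polynomial.natDegree_map_le (by omega)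
    rw [Polynomial.eval_eq_sum_range' h2, hN, map_sum, Finset.mul_sum]
    refine Finset.sum_congr rfl fun i hi => ?_
    have hi' := Finset.mem_range.1 hi
    have e : ((Nat.card k : ℕ) : R) ^ n = ((Nat.card k : ℕ) : R) ^ (n - i) *
        ((Nat.card k : ℕ) : R) ^ i := by
      rw [← pow_add]
      congr 1
      omega
    have e2 : ((Nat.card k : ℕ) : R) ^ i * ((Nat.card k : ℕ) : R)⁻¹ ^ i = 1 := by
      rw [← mul_pow, mul_inv_cancel₀ hqR, one_pow]
    rw [Polynomial.coeff_map, e, map_mul, map_pow, map_natCast]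
    linear_combination (f (G.coeff i) * ((Nat.card k : ℕ) : R) ^ (n - i)) * e2
  have h1 := gen (Int.castRingHom (ZMod l)) hq
  have h2 := gen (Int.castRingHom ℚ) hqQ
  rw [eq_intCast] at h1 h2
  have hNl : ¬ (l : ℤ) ∣ N := by
    intro hd
    rw [← ZMod.intCast_zmod_eq_zero_iff_dvd] at hd
    rw [hd] at h1
    exact mul_ne_zero (pow_ne_zero n hq) h h1
  have hN0 : N ≠ 0 := by
    intro h0
    exact hNl (h0 ▸ dvd_zero _)
  have hNQ : (N : ℚ) ≠ 0 := by exact_mod_cast hN0
  have hxne : (G.map (Int.castRingHom ℚ)).eval ((Nat.card k : ℕ) : ℚ)⁻¹ ≠ 0 := by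
    intro h0
    rw [h0, mul_zero] at h2
    exact hNQ h2.symm
  refine ⟨hxne, ?_⟩
  have h3 := congrArg (padicValRat l) h2
  rw [padicValRat.mul (pow_ne_zero n hqQ) hxne, padicValRat.pow] at h3
  have h4 : padicValRat l ((N : ℤ) : ℚ) = 0 := by
    rw [padicValRat.of_int, padicValInt.eq_zero_of_not_dvd hNl, Nat.cast_zero]
  have h5 : padicValRat l ((Nat.card k : ℕ) : ℚ) = 0 := by
    rw [padicValRat.of_nat]
    have : ¬ l ∣ Nat.card k := by
      intro hd
      exact hq ((ZMod.natCast_eq_zero_iff _ _).2 hd)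
    rw [padicValNat.eq_zero_of_not_dvd this, Nat.cast_zero]
  rw [h4, h5, mul_zero, zero_add] at h3
  exact h3

end unit

section node

variable {k K : Type} [Field k] [Field K] [Algebra k K]

/-- the condition at the places of bad reduction -/
def NodeAt (l : ℕ) {k K : Type} [Field k] [Field K] [Algebra k K] (v : Place k K) (a b : K) :
    Prop :=
  v.ord (minDisc v a b) ≠ 0 → S.trace v a b = 1 ∨ (l : ℤ) ∣ (Nat.card (S.Res v) : ℤ) + 1

variable [Finite k] [FF.IsFF k K] {l : ℕ}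

/-- the trace at the places of bad semistable reduction -/
theorem semi_pm (h6 : (6 : k) ≠ 0) {v : Place k K} {a b : K} (hΔ : 4 * a ^ 3 + 27 * b ^ 2 ≠ 0)
    (hS : SemiAt v a b) (hv : v.ord (minDisc v a b) ≠ 0) :
    S.trace v a b = 1 ∨ S.trace v a b = -1 := by
  obtain ⟨h1, h2⟩ := hS.resolve_left hv
  have hD : v.red (minDisc v a b) = 0 := by
    by_contra h5
    exact hv ((S.ord_disc_iff v hΔ).2 h5)
  rw [S.trace_eq]
  exact TH943.TT.trace_pm h6 hΔ hD (v.red_ne_zero h1 h2)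

theorem semi_of (h6 : (6 : k) ≠ 0) {v : Place k K} {a b : K} (hΔ : 4 * a ^ 3 + 27 * b ^ 2 ≠ 0)
    (hS : SemiAt v a b) (hn : NodeAt l v a b) : Semi l v a b := by
  refine ⟨⟨minScale v a b, minScale_spec v (ab_of_disc hΔ), semi_red hΔ hS⟩, fun hbad => ?_⟩
  have hv : v.ord (minDisc v a b) ≠ 0 := fun h => (S.ord_disc_iff v hΔ).1 h hbad
  rcases hn hv with h | h
  · exact Or.inl h
  · rcases semi_pm h6 hΔ hS hv with h1 | h1
    · exact Or.inl h1
    · refine Or.inr ⟨Or.inl h1, ?_⟩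
      rw [h1, sub_neg_eq_add]
      exact_mod_cast h

/-- the order of vanishing and the value modulo `l` -/
theorem twist_unit [Fact l.Prime] (h6 : (6 : k) ≠ 0) (hlk : ((l : ℕ) : k) ≠ 0) (hl : 2 < l)
    {a b u : K} (hN : PointsDvd l k a b) (hS : ∀ v : Place k K, SemiAt v a b)
    (hM : ∀ v : Place k K, NodeAt l v a b) (hΔ : 4 * a ^ 3 + 27 * b ^ 2 ≠ 0) (hu : u ≠ 0)
    (hrel : NR2 l k u) :
    (∀ m : ℕ, S.VanishesTo k (u ^ 2 * a) (u ^ 3 * b) m →
      m ≤ ∑ᶠ v : Place k K, splitW l v (u ^ 2 * a) (u ^ 3 * b)) ∧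
    ((∀ v : Place k K, splitW l v (u ^ 2 * a) (u ^ 3 * b) = 0) → ∀ G : Polynomial ℤ,
      S.Lfun k (u ^ 2 * a) (u ^ 3 * b) = (G : PowerSeries ℤ) →
      (G.map (Int.castRingHom ℚ)).eval ((Nat.card k : ℕ) : ℚ)⁻¹ ≠ 0 ∧
        padicValRat l ((G.map (Int.castRingHom ℚ)).eval ((Nat.card k : ℕ) : ℚ)⁻¹) = 0) := by
  obtain ⟨P, Q, hP, hQ1, hQ2, hr⟩ := hrel
  have hQ : Q ≠ 0 := by
    rintro rfl
    exact hQ1 (Polynomial.eval_zero)
  have hΔ' := tw_ne hΔ hu
  have hSm := fun v => semi_of h6 hΔ (hS v) (hM v)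
  have hrs : rs l (Nat.card k) Q = 0 := by
    unfold rs
    rw [Polynomial.rootMultiplicity_eq_zero hQ1, Polynomial.rootMultiplicity_eq_zero hQ2]
  constructor
  · intro m hm
    have h1 := twist_le (l := l) h6 hlk hl hN hSm hΔ hu hP hQ hr hm
    rw [hrs, zero_add] at h1
    exact Nat.le_of_add_right_le h1
  · intro hz G hG
    apply rat_value hlk
    obtain ⟨h0, h1⟩ := bound_poly (l := l) hlk hΔ' hP hQ hr
      (fun v hv => tw_good h6 hN hΔ hu (hSm v) hv)
      (fun v hv => tw_bad h6 hlk hl hΔ hu (hSm v) hv) (fun v hv => hz v) hG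
    rw [hrs, zero_add, finsum_congr hz, finsum_zero] at h1
    intro h2
    have h3 := (Polynomial.rootMultiplicity_pos h0).2 h2
    omega

end node

section sub

variable {k K L : Type} [Field k] [Finite k] [Field K] [Algebra k K] [FF.IsFF k K]
  [Field L] [Algebra k L] [Algebra K L] [IsScalarTower k K L] {l : ℕ} [Fact l.Prime]

/-- the condition at the places of bad reduction over extensions -/
theorem node_up (L' : Type) [Field L'] [Algebra k L'] [Algebra K L'] [Algebra L L']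
    [IsScalarTower k K L'] [IsScalarTower K L L'] [FiniteDimensional K L'] [IsGalois K L']
    {N : ℕ} (hN : finrank K L' = l ^ N) (h6 : (6 : k) ≠ 0) (hl : 2 < l) {a b : K}
    (hΔ : 4 * a ^ 3 + 27 * b ^ 2 ≠ 0)
    (hP : PointsDvd l k a b) (hS : ∀ v : Place k K, SemiAt v a b)
    (hM : ∀ v : Place k K, NodeAt l v a b) (w : Place k L) :
    NodeAt l w (algebraMap K L a) (algebraMap K L b) := by
  have hfdL : FiniteDimensional L L' := Module.Finite.of_restrictScalars_finite K L L'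
  have hfd : FiniteDimensional K L := Module.Finite.left K L L'
  have hFFL : FF.IsFF k L := isFF_of_finite (K := K)
  have hΔ' : 4 * algebraMap K L a ^ 3 + 27 * algebraMap K L b ^ 2 ≠ 0 := by
    rw [disc_map']
    exact (_root_.map_ne_zero _).2 hΔ
  obtain ⟨-, hS'⟩ := gen_up (l := l) (L := L) L' hN hΔ hP hS
  intro hw
  obtain ⟨e, v, hov⟩ := exists_below (K := K) w
  obtain ⟨j, hj⟩ := deg_pow (l := l) L' hN hov
  have hc := semi_case hΔ (hS v)
  have hv : v.ord (minDisc v a b) ≠ 0 := by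
    intro h1
    exact hw ((S.ord_disc_iff w hΔ').2 ((disc_over hov hΔ (Or.inr hc)).2
      ((S.ord_disc_iff v hΔ).1 h1)))
  have h2 : ((S.trace w (algebraMap K L a) (algebraMap K L b) : ℤ) : ZMod l) =
      ((S.trace v a b : ℤ) : ZMod l) := trace_over hov hj rfl hΔ (Or.inr hc)
  rcases hM v hv with h | h
  · left
    rw [h] at h2
    exact (pm_eq hl (semi_pm h6 hΔ' (hS' w) hw) (Or.inl rfl)).1 h2
  · right
    have h3 := (ZMod.intCast_zmod_eq_zero_iff_dvd _ _).2 h
    rw [← ZMod.intCast_zmod_eq_zero_iff_dvd]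
    push_cast at h3 ⊢
    have h4 : ((Nat.card (S.Res w) : ℕ) : ZMod l) = ((Nat.card (S.Res v) : ℕ) : ZMod l) := by
      rw [show ((Nat.card (S.Res w) : ℕ) : ZMod l) = ((Nat.card k : ℕ) : ZMod l) ^ w.deg from
        card_RFl w, show ((Nat.card (S.Res v) : ℕ) : ZMod l) =
        ((Nat.card k : ℕ) : ZMod l) ^ v.deg from card_RFl v, hj, pow_mul, ZMod.pow_card_pow]
    rw [h4]
    exact h3

/-- no place of split multiplicative reduction -/
theorem split_up (L' : Type) [Field L'] [Algebra k L'] [Algebra K L'] [Algebra L L']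
    [IsScalarTower k K L'] [IsScalarTower K L L'] [FiniteDimensional K L'] [IsGalois K L']
    {N : ℕ} (hN : finrank K L' = l ^ N) (h6 : (6 : k) ≠ 0) (hl : 2 < l) {a b u : K}
    (hΔ : 4 * a ^ 3 + 27 * b ^ 2 ≠ 0) (hu : u ≠ 0)
    (hP : PointsDvd l k a b) (hS : ∀ v : Place k K, SemiAt v a b)
    (hns : ∀ v : Place k K, v.ord (minDisc v (u ^ 2 * a) (u ^ 3 * b)) ≠ 0 →
      S.trace v (u ^ 2 * a) (u ^ 3 * b) ≠ 1) (w : Place k L) :
    splitW l w (algebraMap K L u ^ 2 * algebraMap K L a)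
      (algebraMap K L u ^ 3 * algebraMap K L b) = 0 := by
  have hfdL : FiniteDimensional L L' := Module.Finite.of_restrictScalars_finite K L L'
  have hfd : FiniteDimensional K L := Module.Finite.left K L L'
  have hFFL : FF.IsFF k L := isFF_of_finite (K := K)
  have hΔ' : 4 * algebraMap K L a ^ 3 + 27 * algebraMap K L b ^ 2 ≠ 0 := by
    rw [disc_map']
    exact (_root_.map_ne_zero _).2 hΔ
  have huL : algebraMap K L u ≠ 0 := (_root_.map_ne_zero _).2 hu
  obtain ⟨-, hS'⟩ := gen_up (l := l) (L := L) L' hN hΔ hP hS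
  unfold splitW
  rw [if_neg]
  rintro ⟨hw, ht⟩
  obtain ⟨e, v, hov⟩ := exists_below (K := K) w
  have hodd' : Odd (finrank K L') := by
    rw [hN]
    exact (Nat.Prime.odd_of_ne_two Fact.out (by omega)).pow
  have hχ := chi_sub (L' := L') h6 hodd' hu hov
  by_cases hodd : Odd (w.ord (algebraMap K L u))
  · rw [(add_semi (minScale_spec w (ab_of_disc hΔ')) (semi_red hΔ' (hS' w)) hΔ' huL hodd).1] at ht
    norm_num at ht
  have hχw : chi w (algebraMap K L u) ≠ 0 := by
    rcases chi_pm hodd with ⟨h3, -⟩ | ⟨h3, -⟩ <;> rw [h3] <;> norm_num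
  have hoddv : ¬ Odd (v.ord u) := by
    intro h
    rw [hχ] at hχw
    exact hχw (chi_odd h)
  have hww : w.ord (minDisc w (algebraMap K L a) (algebraMap K L b)) ≠ 0 := by
    rw [← disc_twist hΔ' huL hodd]; exact hw
  have hc := semi_case hΔ (hS v)
  have hv : v.ord (minDisc v a b) ≠ 0 := by
    intro h1
    exact hww ((S.ord_disc_iff w hΔ').2 ((disc_over hov hΔ (Or.inr hc)).2
      ((S.ord_disc_iff v hΔ).1 h1)))
  obtain ⟨j, hj⟩ := deg_pow (l := l) L' hN hov
  have h2 : ((S.trace w (algebraMap K L a) (algebraMap K L b) : ℤ) : ZMod l) =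
      ((S.trace v a b : ℤ) : ZMod l) := trace_over hov hj rfl hΔ (Or.inr hc)
  have h3 := (pm_eq hl (semi_pm h6 hΔ' (hS' w) hww) (semi_pm h6 hΔ (hS v) hv)).1 h2
  apply hns v
  · rw [disc_twist hΔ hu hoddv]; exact hv
  · rw [trace_twist h6 (v := v) (ab_of_disc hΔ) hu hoddv, ← hχ, ← h3,
      ← trace_twist h6 (v := w) (ab_of_disc hΔ') huL hodd]
    exact ht

end sub

end Pool.Agent.R427.AQ
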