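import Pool.Agent.R427.SV3

/-!
The relation for linear polynomials, and the final forms.
-/

set_option autoImplicit false
set_option linter.all false
set_option maxHeartbeats 4000000

open FF Module Polynomial

namespace Pool.Agent.R427.AQ

open Pool.Agent.W343.BSD Pool.Agent.H123R3.ZT Pool.Agent.W309.RF Pool.Agent.H525R3.FFp
open Pool.Agent.TH639.B3
open Pool.Agent.W313.Gr (PointsDvd)
open Pool.Agent.R427.TW

section base

variable {k : Type} [Field k] [Finite k] {l : ℕ}

theorem nr2_base [Fact l.Prime] (h6 : (6 : k) ≠ 0) {c : k} (hc : c ≠ 0) (a : k) :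
    NR2 l k (A (C c * X + C a) : RatFunc k) := by
  have h2 : (2 : k) ≠ 0 := by
    intro h; apply h6
    have : (6 : k) = 2 * 3 := by norm_num
    rw [this, h, zero_mul]
  have hdeg : (C c⁻¹ * (X ^ 2 - C a) : k[X]).natDegree = 2 := by
    rw [natDegree_C_mul (inv_ne_zero hc), natDegree_X_pow_sub_C]
  have htr : Transcendental k (A (C c⁻¹ * (X ^ 2 - C a) : k[X])) := by
    intro halg
    obtain ⟨b, hb⟩ := const_rat _ halg
    have h1 : C b = (C c⁻¹ * (X ^ 2 - C a) : k[X]) := RatFunc.algebraMap_injective k hb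
    rw [← h1, natDegree_C] at hdeg
    norm_num at hdeg
  obtain ⟨Φ, hΦ⟩ := Pool.Agent.TH180.R4.exists_lift htr
  have hp := fun p => lift_A hΦ p
  set u : RatFunc k := A (C c * X + C a) with hu
  have hd1 : (C c * X + C a : k[X]).natDegree = 1 := natDegree_linear hc
  have hne : (C c * X + C a : k[X]) ≠ 0 := by
    intro h
    rw [h, natDegree_zero] at hd1
    norm_num at hd1
  have hu0 : u ≠ 0 := A_ne hne
  have hθ : gn Φ ^ 2 = algebraMap (RatFunc k) (Cov Φ) u := by
    rw [cov_map, hu, hp]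
    have e : (C c * X + C a : k[X]).comp (C c⁻¹ * (X ^ 2 - C a)) = X ^ 2 := by
      rw [add_comp, mul_comp, C_comp, C_comp, X_comp, ← mul_assoc, ← C_mul, mul_inv_cancel₀ hc,
        C_1, one_mul, sub_add_cancel]
    rw [e]
    show (RatFunc.X : RatFunc k) ^ 2 = algebraMap k[X] (RatFunc k) (X ^ 2)
    rw [map_pow, RatFunc.algebraMap_X]
    rfl
  have hns : ∀ s : RatFunc k, u ≠ s ^ 2 := by
    intro s h
    have h1 := congrArg (infty k).ord h
    rw [Place.ord_pow, hu, inf_ord' infty_X hne, hd1] at h1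
    push_cast at h1
    omega
  have h2K : (2 : RatFunc k) ≠ 0 := by
    have : algebraMap k (RatFunc k) 2 ≠ 0 := by simpa using h2
    rwa [map_ofNat] at this
  obtain ⟨q1, q2, q3⟩ := quad_data h2K hθ hns adjoin_gn
  have hz : IsZetaNumRel k (RatFunc k) 1 := (S.isZetaNum_iff 1).1 isZetaNum_rat
  have hz' : IsZetaNumRel k (Cov Φ) 1 := hz
  have hrel := zeta_rel h6 q3 hu0 hθ hns hz hz' constDeg_rat constDeg_rat
  have h3 := rel_mod (l := l) hrel
  rw [Polynomial.map_one] at h3
  exact ⟨1, 1, one_ne_zero, by rw [eval_one]; exact one_ne_zero,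
    by rw [eval_one]; exact one_ne_zero, h3⟩

end base

end Pool.Agent.R427.AQ
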