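import Pool.Agent.R427.AQ4

/-!
The Euler factors of the symmetric powers modulo `l`.
-/

set_option autoImplicit false
set_option linter.all false
set_option maxHeartbeats 4000000

open Polynomial

namespace Pool.Agent.R427.AR

section defs

/-- `α ^ j + β ^ j`, where `α`, `β` are the roots of `X ^ 2 - a X + q` -/
def powSum (a q : ℤ) : ℕ → ℤ
  | 0 => 2
  | 1 => a
  | (j + 2) => a * powSum a q (j + 1) - q * powSum a q j

/-- `∏ (1 - α ^ i β ^ (n - i) X)`, the product over `0 ≤ i ≤ n`, where `α`, `β` are the roots of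
`X ^ 2 - a X + q` -/
noncomputable def symPoly (n : ℕ) (a q : ℤ) : ℤ[X] :=
  (∏ i ∈ Finset.range ((n + 1) / 2),
    (1 - C (q ^ i * powSum a q (n - 2 * i)) * X + C (q ^ n) * X ^ 2)) *
    if Even n then 1 - C (q ^ (n / 2)) * X else 1

end defs

section alg

variable {R : Type} [CommRing R]

/-- pairing the factors -/
theorem prod_pair (f : ℕ → R) (n : ℕ) : ∏ i ∈ Finset.range (n + 1), f i =
    (∏ i ∈ Finset.range ((n + 1) / 2), f i * f (n - i)) * if Even n then f (n / 2) else 1 := by
  have key : ∀ m : ℕ, ∀ g : ℕ → R, ∏ i ∈ Finset.range (m + m), g i =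
      ∏ i ∈ Finset.range m, g i * g (m + m - 1 - i) := by
    intro m g
    rw [Finset.prod_range_add, Finset.prod_mul_distrib]
    congr 1
    rw [← Finset.prod_range_reflect]
    refine Finset.prod_congr rfl fun i hi => ?_
    have := Finset.mem_range.1 hi
    congr 1
    omega
  rcases Nat.even_or_odd n with h | h
  · obtain ⟨m, hm⟩ := h
    have hne : Even n := ⟨m, hm⟩
    rw [if_pos hne]
    have e1 : (n + 1) / 2 = m := by omega
    have e2 : n / 2 = m := by omega
    rw [e1, e2]
    -- split off the middle term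
    have e3 : ∏ i ∈ Finset.range (n + 1), f i =
        (∏ i ∈ Finset.range m, f i) * (f m * ∏ i ∈ Finset.range m, f (m + 1 + i)) := by
      rw [show n + 1 = m + (m + 1) by omega, Finset.prod_range_add, Finset.prod_range_succ']
      congr 1
      rw [mul_comm]
      congr 1
      exact Finset.prod_congr rfl fun i _ => by rw [show m + (i + 1) = m + 1 + i by omega]
    rw [e3, Finset.prod_mul_distrib]
    have e4 : ∏ i ∈ Finset.range m, f (n - i) = ∏ i ∈ Finset.range m, f (m + 1 + i) := by
      rw [← Finset.prod_range_reflect]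
      refine Finset.prod_congr rfl fun i hi => ?_
      have := Finset.mem_range.1 hi
      congr 1
      omega
    rw [e4]
    ring
  · obtain ⟨m, hm⟩ := h
    have hne : ¬ Even n := by
      rw [Nat.not_even_iff_odd]
      exact ⟨m, hm⟩
    rw [if_neg hne, mul_one]
    have e1 : (n + 1) / 2 = m + 1 := by omega
    rw [e1, show n + 1 = (m + 1) + (m + 1) by omega, key]
    refine Finset.prod_congr rfl fun i hi => ?_
    congr 2
    omega

variable {l : ℕ}

theorem powSum_mod {a q : ℤ} (h : ((a : ℤ) : ZMod l) = 1 + ((q : ℤ) : ZMod l)) (j : ℕ) :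
    ((powSum a q j : ℤ) : ZMod l) = 1 + ((q : ℤ) : ZMod l) ^ j := by
  induction j using Nat.strong_induction_on with
  | _ j ih =>
    match j with
    | 0 => unfold powSum; norm_num
    | 1 => unfold powSum; rw [h, pow_one]
    | (j + 2) =>
      unfold powSum
      push_cast
      rw [ih (j + 1) (by omega), ih j (by omega), h]
      ring

/-- the symmetric powers modulo `l` -/
theorem symPoly_mod (n : ℕ) {a q : ℤ} (h : ((a : ℤ) : ZMod l) = 1 + ((q : ℤ) : ZMod l)) :
    (symPoly n a q).map (Int.castRingHom (ZMod l)) =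
      ∏ i ∈ Finset.range (n + 1), (1 - C (((q : ℤ) : ZMod l) ^ i) * X) := by
  rw [prod_pair]
  unfold symPoly
  rw [Polynomial.map_mul, Polynomial.map_prod]
  congr 1
  · refine Finset.prod_congr rfl fun i hi => ?_
    have hi' := Finset.mem_range.1 hi
    rw [Polynomial.map_add, Polynomial.map_sub, Polynomial.map_one, Polynomial.map_mul,
      Polynomial.map_mul, Polynomial.map_pow, Polynomial.map_X, Polynomial.map_C,
      Polynomial.map_C, eq_intCast, eq_intCast]
    push_cast
    rw [powSum_mod h]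
    have e1 : ((q : ℤ) : ZMod l) ^ i * (1 + ((q : ℤ) : ZMod l) ^ (n - 2 * i)) =
        ((q : ℤ) : ZMod l) ^ i + ((q : ℤ) : ZMod l) ^ (n - i) := by
      rw [mul_add, mul_one, ← pow_add]
      congr 2
      omega
    have e2 : ((q : ℤ) : ZMod l) ^ n = ((q : ℤ) : ZMod l) ^ i * ((q : ℤ) : ZMod l) ^ (n - i) := by
      rw [← pow_add]
      congr 1
      omega
    rw [e1, e2, C_add, C_mul]
    ring
  · split_ifs
    · rw [Polynomial.map_sub, Polynomial.map_one, Polynomial.map_mul, Polynomial.map_X,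
        Polynomial.map_C, eq_intCast]
      push_cast
      rfl
    · rw [Polynomial.map_one]

end alg

section value

variable {l : ℕ} [Fact l.Prime]

/-- values at powers of `N` as rational numbers -/
theorem int_value {N : ℕ} (hN : ((N : ℕ) : ZMod l) ≠ 0) {G : ℤ[X]} (j : ℤ)
    (h : (G.map (Int.castRingHom (ZMod l))).eval (((N : ℕ) : ZMod l) ^ j) ≠ 0) :
    (G.map (Int.castRingHom ℚ)).eval (((N : ℕ) : ℚ) ^ j) ≠ 0 ∧
      padicValRat l ((G.map (Int.castRingHom ℚ)).eval (((N : ℕ) : ℚ) ^ j)) = 0 := by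
  have hN0 : N ≠ 0 := by
    rintro rfl
    exact hN Nat.cast_zero
  have hNQ : ((N : ℕ) : ℚ) ≠ 0 := by exact_mod_cast hN0
  have hNl : padicValRat l ((N : ℕ) : ℚ) = 0 := by
    rw [padicValRat.of_nat]
    have : ¬ l ∣ N := by
      intro hd
      exact hN ((ZMod.natCast_eq_zero_iff _ _).2 hd)
    rw [padicValNat.eq_zero_of_not_dvd this, Nat.cast_zero]
  -- the integral multiple of the value
  obtain ⟨e, M, gen⟩ : ∃ (e : ℕ) (M : ℤ), ∀ {R : Type} [Field R] (f : ℤ →+* R)
      (_ : ((N : ℕ) : R) ≠ 0), ((N : ℕ) : R) ^ e * (G.map f).eval (((N : ℕ) : R) ^ j) = f M := by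
    rcases Int.eq_nat_or_neg j with ⟨m, hm | hm⟩
    · refine ⟨0, G.eval ((N : ℤ) ^ m), ?_⟩
      intro R _ f hR
      rw [pow_zero, one_mul, hm, zpow_natCast]
      have e1 : ((N : ℕ) : R) ^ m = f ((N : ℤ) ^ m) := by rw [map_pow, map_natCast]
      rw [e1, eval_map_apply]
    · refine ⟨m * G.natDegree, ∑ i ∈ Finset.range (G.natDegree + 1),
        G.coeff i * (N : ℤ) ^ (m * (G.natDegree - i)), ?_⟩
      intro R _ f hR
      have h2 : (G.map f).natDegree < G.natDegree + 1 :=
        lt_of_le_of_lt Polynomial.natDegree_map_le (by omega)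
      rw [Polynomial.eval_eq_sum_range' h2, map_sum, Finset.mul_sum]
      refine Finset.sum_congr rfl fun i hi => ?_
      have hi' := Finset.mem_range.1 hi
      have e : ((N : ℕ) : R) ^ (m * G.natDegree) = ((N : ℕ) : R) ^ (m * (G.natDegree - i)) *
          (((N : ℕ) : R) ^ m) ^ i := by
        rw [← pow_mul, ← pow_add, ← mul_add]
        congr 2
        omega
      have e2 : (((N : ℕ) : R) ^ m) ^ i * ((((N : ℕ) : R) ^ j)) ^ i = 1 := by
        rw [← mul_pow, hm, zpow_neg, zpow_natCast, mul_inv_cancel₀ (pow_ne_zero m hR), one_pow]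
      rw [Polynomial.coeff_map, e, map_mul, map_pow, map_natCast]
      linear_combination (f (G.coeff i) * ((N : ℕ) : R) ^ (m * (G.natDegree - i))) * e2
  have h1 := gen (Int.castRingHom (ZMod l)) hN
  have h2 := gen (Int.castRingHom ℚ) hNQ
  rw [eq_intCast] at h1 h2
  have hMl : ¬ (l : ℤ) ∣ M := by
    intro hd
    rw [← ZMod.intCast_zmod_eq_zero_iff_dvd] at hd
    rw [hd] at h1
    exact mul_ne_zero (pow_ne_zero e hN) h h1
  have hM0 : M ≠ 0 := by
    intro h0
    exact hMl (h0 ▸ dvd_zero _)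
  have hMQ : (M : ℚ) ≠ 0 := by exact_mod_cast hM0
  have hxne : (G.map (Int.castRingHom ℚ)).eval (((N : ℕ) : ℚ) ^ j) ≠ 0 := by
    intro h0
    rw [h0, mul_zero] at h2
    exact hMQ h2.symm
  refine ⟨hxne, ?_⟩
  have h3 := congrArg (padicValRat l) h2
  rw [padicValRat.mul (pow_ne_zero e hNQ) hxne, padicValRat.pow] at h3
  have h4 : padicValRat l ((M : ℤ) : ℚ) = 0 := by
    rw [padicValRat.of_int, padicValInt.eq_zero_of_not_dvd hMl, Nat.cast_zero]
  rw [h4, hNl, mul_zero, zero_add] at h3
  exact h3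

end value

end Pool.Agent.R427.AR
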