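import Pool.Agent.R427.AR1

/-!
The values of the `L`-functions of the twisted symmetric powers modulo `l`.
-/

set_option autoImplicit false
set_option linter.all false
set_option maxHeartbeats 4000000

open PowerSeries FF Module

namespace Pool.Agent.R427.AR

open Pool.Agent.W343.BSD Pool.Agent.H123R3.ZT Pool.Agent.W313.Gr Pool.Agent.W313.Hyp
open Pool.Agent.TH639.B3 Pool.Agent.H525R3.FFp
open Pool.Agent.R427.TW Pool.Agent.R427.AQ
open Pool.Agent.Y701.R2 (over_trans)
open Pool.Agent.W309.T3 (rescale_eulerProd rescale_poly rm_comp binom_ne rm_binom card_char)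

section defs

variable {k K : Type} [Field k] [Field K] [Algebra k K]

open Classical in
/-- the Euler factor at `v` of `Sym ^ n E ⊗ χ`, where `E` is semistable -/
noncomputable def symLoc (n : ℕ) (v : Place k K) (a b u : K) : Polynomial ℤ :=
  if v.ord (minDisc v a b) = 0 then
    (symPoly n (S.trace v a b) (Nat.card (S.Res v))).comp
      (Polynomial.C (chi v u) * Polynomial.X ^ S.deg v)
  else 1 - Polynomial.C (chi v u * S.trace v a b ^ n) * Polynomial.X ^ S.deg v

end defs

section main

variable {l : ℕ} [Fact l.Prime]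
variable {k K : Type} [Field k] [Finite k] [Field K] [Algebra k K] [FF.IsFF k K]

/-- the factor of the powers of the cyclotomic character -/
noncomputable def pairN (l : ℕ) (q : ZMod l) (n : ℕ) (x : ℤ) (d : ℕ) : Polynomial (ZMod l) :=
  ∏ i ∈ Finset.range (n + 1), (1 - Polynomial.C (((x : ℤ) : ZMod l) * (q ^ i) ^ d) *
    Polynomial.X ^ d)

theorem resc {χ : Place k K → ℤ} {P Q : Polynomial (ZMod l)}
    (hrel : (Q : PowerSeries (ZMod l)) * eulerProd (fun v : Place k K => v.deg)
      (fun v => (chF l χ v : PowerSeries (ZMod l))) = (P : PowerSeries (ZMod l))) (c : ZMod l) :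
    ((Q.comp (Polynomial.C c * Polynomial.X) : Polynomial (ZMod l)) : PowerSeries (ZMod l)) *
      eulerProd (fun v : Place k K => v.deg)
        (fun v => ((1 - Polynomial.C (((χ v : ℤ) : ZMod l) * c ^ v.deg) * Polynomial.X ^ v.deg :
          Polynomial (ZMod l)) : PowerSeries (ZMod l))) =
    ((P.comp (Polynomial.C c * Polynomial.X) : Polynomial (ZMod l)) : PowerSeries (ZMod l)) := by
  have hfin := fun n => places_fin (k := k) (K := K) n
  have h2 := congrArg (rescale c) hrel
  rw [map_mul, rescale_poly, rescale_poly, rescale_eulerProd hfin] at h2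
  rw [← h2]
  congr 2
  funext v
  rw [rescale_poly]
  congr 1
  unfold chF
  rw [Polynomial.sub_comp, Polynomial.one_comp, Polynomial.mul_comp, Polynomial.C_comp,
    Polynomial.pow_comp, Polynomial.X_comp, mul_pow, ← Polynomial.C_pow, ← mul_assoc,
    ← Polynomial.C_mul]

theorem pairN_mod (q : ZMod l) (n : ℕ) (x : ℤ) (d : ℕ) : (X : PowerSeries (ZMod l)) ^ d ∣
    (pairN l q n x d : PowerSeries (ZMod l)) - 1 := by
  unfold pairN
  rw [coe_prod']
  have h := prod_congr_mod (Finset.range (n + 1))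
    (fun i => ((1 - Polynomial.C (((x : ℤ) : ZMod l) * (q ^ i) ^ d) * Polynomial.X ^ d :
      Polynomial (ZMod l)) : PowerSeries (ZMod l))) (fun _ => 1) d (fun i _ => key_mod _ _)
  rwa [Finset.prod_const_one] at h

theorem sym_identity {χ : Place k K → ℤ} {P Q : Polynomial (ZMod l)}
    (hrel : (Q : PowerSeries (ZMod l)) * eulerProd (fun v : Place k K => v.deg)
      (fun v => (chF l χ v : PowerSeries (ZMod l))) = (P : PowerSeries (ZMod l))) (q : ZMod l)
    (n : ℕ) :
    ((∏ i ∈ Finset.range (n + 1), Q.comp (Polynomial.C (q ^ i) * Polynomial.X) :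
      Polynomial (ZMod l)) : PowerSeries (ZMod l)) *
      eulerProd (fun v : Place k K => v.deg)
        (fun v => (pairN l q n (χ v) v.deg : PowerSeries (ZMod l))) =
    ((∏ i ∈ Finset.range (n + 1), P.comp (Polynomial.C (q ^ i) * Polynomial.X) :
      Polynomial (ZMod l)) : PowerSeries (ZMod l)) := by
  have hfin := fun n => places_fin (k := k) (K := K) n
  have e1 : (fun v : Place k K => (pairN l q n (χ v) v.deg : PowerSeries (ZMod l))) =
      fun v => ∏ i ∈ Finset.range (n + 1),
        ((1 - Polynomial.C (((χ v : ℤ) : ZMod l) * (q ^ i) ^ v.deg) * Polynomial.X ^ v.deg :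
          Polynomial (ZMod l)) : PowerSeries (ZMod l)) := by
    funext v
    unfold pairN
    rw [coe_prod']
  rw [e1, eulerProd_prod hfin (Finset.range (n + 1)) (fun i (v : Place k K) =>
      ((1 - Polynomial.C (((χ v : ℤ) : ZMod l) * (q ^ i) ^ v.deg) * Polynomial.X ^ v.deg :
          Polynomial (ZMod l)) : PowerSeries (ZMod l))) (fun i v => key_mod _ _), coe_prod',
    coe_prod', ← Finset.prod_mul_distrib]
  exact Finset.prod_congr rfl fun i _ => resc hrel (q ^ i)

/-- the factors at the good places -/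
theorem sym_good (n : ℕ) {a b : K} (hN : PointsDvd l k a b) (u : K) {v : Place k K}
    (hv : v.ord (minDisc v a b) = 0) :
    (symLoc n v a b u).map (Int.castRingHom (ZMod l)) =
      pairN l ((Nat.card k : ℕ) : ZMod l) n (chi v u) v.deg := by
  have hqc : ((Nat.card (S.Res v) : ℕ) : ZMod l) = ((Nat.card k : ℕ) : ZMod l) ^ v.deg :=
    card_RFl v
  have h1 : ((S.trace v a b : ℤ) : ZMod l) = 1 + (((Nat.card (S.Res v) : ℕ) : ℤ) : ZMod l) := by
    have h2 := (ZMod.intCast_zmod_eq_zero_iff_dvd _ _).2 (hN v hv)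
    push_cast at h2 ⊢
    linear_combination -h2
  unfold symLoc
  rw [if_pos hv, Polynomial.map_comp, symPoly_mod n h1, Polynomial.prod_comp]
  unfold pairN
  refine Finset.prod_congr rfl fun i _ => ?_
  rw [Polynomial.sub_comp, Polynomial.one_comp, Polynomial.mul_comp, Polynomial.C_comp,
    Polynomial.X_comp, Polynomial.map_mul, Polynomial.map_C, Polynomial.map_pow,
    Polynomial.map_X, eq_intCast, S.deg_eq, ← mul_assoc, ← Polynomial.C_mul]
  congr 3
  rw [Int.cast_natCast, hqc, ← pow_mul, ← pow_mul, mul_comm v.deg i]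
  ring

theorem sym_bad (n : ℕ) (a b u : K) {v : Place k K} (hv : v.ord (minDisc v a b) ≠ 0) :
    (symLoc n v a b u).map (Int.castRingHom (ZMod l)) =
      1 - Polynomial.C ((chi v u * S.trace v a b ^ n : ℤ) : ZMod l) * Polynomial.X ^ v.deg := by
  unfold symLoc
  rw [if_neg hv, Polynomial.map_sub, Polynomial.map_one, Polynomial.map_mul, Polynomial.map_C,
    Polynomial.map_pow, Polynomial.map_X, eq_intCast, S.deg_eq]

/-- powers of `q` -/
theorem pm_mul {q t : ZMod l} (hq0 : q ≠ 0) (hq2 : q ^ 2 = 1) (ht : t = 1 ∨ t = q⁻¹) (i : ℕ) :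
    q ^ i * t = 1 ∨ q ^ i * t = q⁻¹ := by
  have hinv : q⁻¹ = q := by
    rw [inv_eq_iff_eq_inv, eq_comm]
    exact inv_eq_of_mul_eq_one_left (by rw [← sq]; exact hq2)
  rw [hinv] at ht ⊢
  induction i with
  | zero => rw [pow_zero, one_mul]; exact ht
  | succ i ih =>
    rcases ih with h | h
    · right
      rw [pow_succ]
      linear_combination q * h
    · left
      rw [pow_succ]
      linear_combination q * h + hq2

theorem zpow_pm {q : ZMod l} (hq0 : q ≠ 0) (hq2 : q ^ 2 = 1) (j : ℤ) :
    q ^ j = 1 ∨ q ^ j = q⁻¹ := by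
  rcases Int.even_or_odd j with ⟨m, hm⟩ | ⟨m, hm⟩
  · left
    rw [hm, ← two_mul, zpow_mul]
    have : q ^ (2 : ℤ) = 1 := by exact_mod_cast hq2
    rw [this, one_zpow]
  · right
    have h2 : q ^ (2 : ℤ) = 1 := by exact_mod_cast hq2
    rw [hm, zpow_add₀ hq0, zpow_mul, h2, one_zpow, one_mul, zpow_one]
    exact (inv_eq_of_mul_eq_one_left (by rw [← sq]; exact hq2)).symm

/-- the values modulo `l` -/
theorem sym_value (hlk : ((l : ℕ) : k) ≠ 0) (hlo : Odd l)
    (hq2 : ((Nat.card k : ℕ) : ZMod l) ^ 2 = 1) {a b u : K} (hN : PointsDvd l k a b)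
    (hΔ : 4 * a ^ 3 + 27 * b ^ 2 ≠ 0)
    (hbad : ∀ v : Place k K, v.ord (minDisc v a b) ≠ 0 → chi v u = 0 ∨
      (chi v u = -1 ∧ ((Nat.card k : ℕ) : ZMod l) ^ v.deg = 1)) (hrel : NR2 l k u) (n : ℕ)
    {G : Polynomial ℤ} (hG : (G : PowerSeries ℤ) * eulerProd (fun v : Place k K => v.deg)
      (fun v => (symLoc n v a b u : PowerSeries ℤ)) = 1) {t : ZMod l}
    (ht : t = 1 ∨ t = ((Nat.card k : ℕ) : ZMod l)⁻¹) :
    (G.map (Int.castRingHom (ZMod l))).eval t ≠ 0 := by
  classical
  have hq := card_ne_zero_mod (k := k) hlk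
  obtain ⟨P, Q, hP, hQ1, hQ2, hr⟩ := hrel
  set q : ZMod l := ((Nat.card k : ℕ) : ZMod l) with hqdef
  have hfin := fun n => places_fin (k := k) (K := K) n
  have h2 := sym_identity (k := k) (K := K) hr q n
  set B : Finset (Place k K) := (bad_finite (k := k) hΔ).toFinset with hBdef
  have hB : ∀ v, v ∈ B ↔ v.ord (minDisc v a b) ≠ 0 := by
    intro v
    rw [hBdef, Set.Finite.mem_toFinset]
    show v.red (minDisc v a b) = 0 ↔ _
    rw [Ne, S.ord_disc_iff v hΔ, not_not]
  set sl : Place k K → Polynomial (ZMod l) := fun v =>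
    (symLoc n v a b u).map (Int.castRingHom (ZMod l)) with hsl
  have hgood : ∀ v, v ∉ B → sl v = pairN l q n (chi v u) v.deg := by
    intro v hv
    refine sym_good n hN u ?_
    by_contra h
    exact hv ((hB v).2 h)
  have hslm : ∀ v, (X : PowerSeries (ZMod l)) ^ v.deg ∣ (sl v : PowerSeries (ZMod l)) - 1 := by
    intro v
    by_cases hv : v ∈ B
    · have e := sym_bad (l := l) n a b u ((hB v).1 hv)
      rw [hsl]
      simp only
      rw [e]
      exact key_mod _ _
    · rw [hgood v hv]
      exact pairN_mod _ _ _ _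
  have h1 := fin_factor' hfin (fun v : Place k K => pairN_mod q n (chi v u) v.deg) hslm B
    (fun v hv => by rw [hgood v hv])
  have h3 := congrArg (redL l) hG
  rw [map_mul, map_one, redL_poly, map_eulerProd hfin] at h3
  have e3 : (fun v : Place k K => redL l (symLoc n v a b u : PowerSeries ℤ)) =
      fun v => (sl v : PowerSeries (ZMod l)) := by
    funext v
    rw [redL_poly]
  rw [e3] at h3
  set GG : Polynomial (ZMod l) := G.map (Int.castRingHom (ZMod l)) with hGG
  have h5 : (∏ i ∈ Finset.range (n + 1), P.comp (Polynomial.C (q ^ i) * Polynomial.X)) *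
      ((∏ v ∈ B, sl v) * GG) =
      (∏ i ∈ Finset.range (n + 1), Q.comp (Polynomial.C (q ^ i) * Polynomial.X)) *
        ∏ v ∈ B, pairN l q n (chi v u) v.deg := by
    apply Polynomial.coe_injective
    rw [Polynomial.coe_mul, ← h2, Polynomial.coe_mul (∏ v ∈ B, sl v), Polynomial.coe_mul
      (∏ i ∈ Finset.range (n + 1), Q.comp (Polynomial.C (q ^ i) * Polynomial.X)), coe_prod' B sl,
      coe_prod' B (fun v => pairN l q n (chi v u) v.deg)]
    set A := ((∏ i ∈ Finset.range (n + 1), Q.comp (Polynomial.C (q ^ i) * Polynomial.X) :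
      Polynomial (ZMod l)) : PowerSeries (ZMod l))
    linear_combination A * (GG : PowerSeries (ZMod l)) * h1 +
      A * (∏ v ∈ B, (pairN l q n (chi v u) v.deg : PowerSeries (ZMod l))) * h3
  have h6 := congrArg (Polynomial.eval t) h5
  intro h0
  rw [Polynomial.eval_mul, Polynomial.eval_mul, h0, mul_zero, mul_zero, Polynomial.eval_mul] at h6
  refine mul_ne_zero ?_ ?_ h6.symm
  · rw [Polynomial.eval_prod]
    refine Finset.prod_ne_zero_iff.2 fun i _ => ?_
    rw [Polynomial.eval_comp, Polynomial.eval_mul, Polynomial.eval_C, Polynomial.eval_X]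
    rcases pm_mul hq hq2 ht i with h | h
    · rw [h]; exact hQ1
    · rw [h]; exact hQ2
  · rw [Polynomial.eval_prod]
    refine Finset.prod_ne_zero_iff.2 fun v hv => ?_
    unfold pairN
    rw [Polynomial.eval_prod]
    refine Finset.prod_ne_zero_iff.2 fun i _ => ?_
    rw [Polynomial.eval_sub, Polynomial.eval_one, Polynomial.eval_mul, Polynomial.eval_C,
      Polynomial.eval_pow, Polynomial.eval_X]
    rcases hbad v ((hB v).1 hv) with h | ⟨h, hd⟩
    · rw [h, Int.cast_zero, zero_mul, zero_mul, sub_zero]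
      exact one_ne_zero
    · have ht1 : t ^ v.deg = 1 := by
        rcases ht with h' | h'
        · rw [h', one_pow]
        · rw [h', inv_pow, hd, inv_one]
      rw [h, ht1, ← pow_mul, mul_comm i, pow_mul, hd, one_pow, Int.cast_neg, Int.cast_one, mul_one,
        mul_one, sub_neg_eq_add]
      exact one_ne_neg hlo

end main

end Pool.Agent.R427.AR
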