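import Pool.Agent.R427.AR2

/-!
Twisted symmetric powers over the extensions of degree a power of `l`.
-/

set_option autoImplicit false
set_option linter.all false
set_option maxHeartbeats 4000000

open PowerSeries FF Module

namespace Pool.Agent.R427.AR

open Pool.Agent.W343.BSD Pool.Agent.H123R3.ZT Pool.Agent.W313.Gr Pool.Agent.W313.Hyp
open Pool.Agent.TH639.B3 Pool.Agent.H525R3.FFp
open Pool.Agent.R427.TW Pool.Agent.R427.AQ

section defs

variable {k K : Type} [Field k] [Field K] [Algebra k K]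

/-- the condition at the places of bad reduction -/
def InertBad (l : ℕ) (k : Type) {K : Type} [Field k] [Field K] [Algebra k K] (a b u : K) : Prop :=
  ∀ v : Place k K, v.ord (minDisc v a b) ≠ 0 → Odd (v.ord u) ∨
    (¬ LocSq v u ∧ ¬ l ∣ Nat.card (S.Res v) + 1)

end defs

section conv

variable {k K : Type} [Field k] [Finite k] [Field K] [Algebra k K] [FF.IsFF k K] {l : ℕ}
  [Fact l.Prime]

theorem card_sq (h : l ∣ Nat.card k ^ 2 - 1) : ((Nat.card k : ℕ) : ZMod l) ^ 2 = 1 := by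
  have hpos : 1 ≤ Nat.card k ^ 2 := Nat.one_le_pow _ _ Nat.card_pos
  rw [← sub_eq_zero]
  have e : ((Nat.card k ^ 2 - 1 : ℕ) : ZMod l) = ((Nat.card k : ℕ) : ZMod l) ^ 2 - 1 := by
    rw [Nat.cast_sub hpos]
    push_cast
    rfl
  rw [← e]
  exact (ZMod.natCast_eq_zero_iff _ _).2 h

theorem pow_pm {x : ZMod l} (hx : x ^ 2 = 1) (d : ℕ) : x ^ d = 1 ∨ x ^ d = -1 := by
  have h1 : (x ^ d - 1) * (x ^ d + 1) = 0 := by
    have e : (x ^ d - 1) * (x ^ d + 1) = (x ^ 2) ^ d - 1 := by ring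
    rw [e, hx, one_pow, sub_self]
  rcases mul_eq_zero.1 h1 with h | h
  · exact Or.inl (sub_eq_zero.1 h)
  · exact Or.inr (eq_neg_of_add_eq_zero_left h)

theorem inert_conv (hq2 : ((Nat.card k : ℕ) : ZMod l) ^ 2 = 1) {a b u : K}
    (h : InertBad l k a b u) (v : Place k K) (hv : v.ord (minDisc v a b) ≠ 0) :
    chi v u = 0 ∨ (chi v u = -1 ∧ ((Nat.card k : ℕ) : ZMod l) ^ v.deg = 1) := by
  by_cases hodd : Odd (v.ord u)
  · exact Or.inl (chi_odd hodd)
  · right
    obtain ⟨h1, h2⟩ := (h v hv).resolve_left hodd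
    rcases chi_pm hodd with ⟨-, h3⟩ | ⟨h3, -⟩
    · exact absurd h3 h1
    · refine ⟨h3, (pow_pm hq2 v.deg).resolve_right fun h4 => h2 ?_⟩
      rw [← ZMod.natCast_eq_zero_iff]
      push_cast
      rw [show ((Nat.card (S.Res v) : ℕ) : ZMod l) = ((Nat.card k : ℕ) : ZMod l) ^ v.deg from
        card_RFl v, h4]
      ring

end conv

section sub

variable {k K L : Type} [Field k] [Finite k] [Field K] [Algebra k K] [FF.IsFF k K]
  [Field L] [Algebra k L] [Algebra K L] [IsScalarTower k K L] {l : ℕ} [Fact l.Prime]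

theorem inert_up (L' : Type) [Field L'] [Algebra k L'] [Algebra K L'] [Algebra L L']
    [IsScalarTower k K L'] [IsScalarTower K L L'] [FiniteDimensional K L'] [IsGalois K L']
    {N : ℕ} (hN : finrank K L' = l ^ N) (h6 : (6 : k) ≠ 0) (hl : 2 < l) {a b u : K}
    (hΔ : 4 * a ^ 3 + 27 * b ^ 2 ≠ 0) (hu : u ≠ 0) (hS : ∀ v : Place k K, SemiAt v a b)
    (hbad : ∀ v : Place k K, v.ord (minDisc v a b) ≠ 0 → chi v u = 0 ∨
      (chi v u = -1 ∧ ((Nat.card k : ℕ) : ZMod l) ^ v.deg = 1)) (w : Place k L)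
    (hw : w.ord (minDisc w (algebraMap K L a) (algebraMap K L b)) ≠ 0) :
    chi w (algebraMap K L u) = 0 ∨ (chi w (algebraMap K L u) = -1 ∧
      ((Nat.card k : ℕ) : ZMod l) ^ w.deg = 1) := by
  have hfdL : FiniteDimensional L L' := Module.Finite.of_restrictScalars_finite K L L'
  have hfd : FiniteDimensional K L := Module.Finite.left K L L'
  have hFFL : FF.IsFF k L := isFF_of_finite (K := K)
  have hΔ' : 4 * algebraMap K L a ^ 3 + 27 * algebraMap K L b ^ 2 ≠ 0 := by
    rw [disc_map']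
    exact (_root_.map_ne_zero _).2 hΔ
  obtain ⟨e, v, hov⟩ := exists_below (K := K) w
  have hodd' : Odd (finrank K L') := by
    rw [hN]
    exact (Nat.Prime.odd_of_ne_two Fact.out (by omega)).pow
  have hχ := chi_sub (L' := L') h6 hodd' hu hov
  have hv : v.ord (minDisc v a b) ≠ 0 := by
    intro h1
    exact hw ((S.ord_disc_iff w hΔ').2 ((disc_over hov hΔ (Or.inr (semi_case hΔ (hS v)))).2
      ((S.ord_disc_iff v hΔ).1 h1)))
  obtain ⟨j, hj⟩ := deg_pow (l := l) L' hN hov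
  rw [hχ, hj, pow_mul, ZMod.pow_card_pow]
  exact hbad v hv

end sub

end Pool.Agent.R427.AR
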