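import Pool.Agent.R427.SC2
import Pool.Agent.TH639.B3.Bd

/-!
Curves with a point of order five over a finite field.
-/

set_option autoImplicit false
set_option linter.all false
set_option maxHeartbeats 4000000

open WeierstrassCurve WeierstrassCurve.Affine

namespace Pool.Agent.R427.FT

open Pool.Agent.W343.BSD
open Pool.Agent.W313.Gr (curve)

/-- the first coefficient of the short form of `y ^ 2 + (1 - b) x y - b y = x ^ 3 - b x ^ 2` -/
def fA {R : Type} [CommRing R] (b : R) : R := -27 * (b ^ 4 - 12 * b ^ 3 + 14 * b ^ 2 + 12 * b + 1)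

/-- the second coefficient -/
def fB {R : Type} [CommRing R] (b : R) : R :=
  54 * (b ^ 6 - 18 * b ^ 5 + 75 * b ^ 4 + 75 * b ^ 2 + 18 * b + 1)

theorem f_disc {R : Type} [CommRing R] (b : R) : 4 * fA b ^ 3 + 27 * fB b ^ 2 =
    -(2 ^ 8 * 3 ^ 12 * (b ^ 5 * (b ^ 2 - 11 * b - 1))) := by
  unfold fA fB
  ring

section pts

variable {F : Type} [Field F]

theorem eqn (a b x y : F) : (curve a b).toAffine.Equation x y ↔ y ^ 2 = x ^ 3 + a * x + b := by
  rw [equation_iff]
  show y ^ 2 + 0 * x * y + 0 * y = x ^ 3 + 0 * x ^ 2 + a * x + b ↔ _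
  constructor <;> intro h <;> linear_combination h

theorem negY_eq (a b x y : F) : (curve a b).toAffine.negY x y = -y := by
  show -y - 0 * x - 0 = -y
  ring

theorem addX_eq (a b x₁ x₂ l : F) : (curve a b).toAffine.addX x₁ x₂ l = l ^ 2 - x₁ - x₂ := by
  show l ^ 2 + 0 * l - 0 - x₁ - x₂ = _
  ring

theorem addY_eq (a b x₁ x₂ y₁ l : F) : (curve a b).toAffine.addY x₁ x₂ y₁ l =
    -(l * (l ^ 2 - x₁ - x₂ - x₁) + y₁) := by
  unfold addY negAddY
  rw [negY_eq, addX_eq]

theorem ns_iff (a b x y : F) : (curve a b).toAffine.Nonsingular x y ↔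
    y ^ 2 = x ^ 3 + a * x + b ∧ (3 * x ^ 2 + a ≠ 0 ∨ 2 * y ≠ 0) := by
  rw [nonsingular_iff, eqn]
  apply and_congr_right
  intro _
  show (0 * y ≠ 3 * x ^ 2 + 2 * 0 * x + a ∨ y ≠ -y - 0 * x - 0) ↔ _
  apply or_congr
  · constructor
    · intro h h1; apply h; linear_combination -h1
    · intro h h1; apply h; linear_combination -h1
  · constructor
    · intro h h1; apply h; linear_combination h1
    · intro h h1; apply h; linear_combination h1

/-- doubling -/
theorem dbl (h2 : (2 : F) ≠ 0) {a b x y l x' y' : F} (h : (curve a b).toAffine.Nonsingular x y)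
    (hy : y ≠ 0) (hl : l * (2 * y) = 3 * x ^ 2 + a) (hx' : x' = l ^ 2 - 2 * x)
    (hy' : y' = -(l * (x' - x) + y)) (h' : (curve a b).toAffine.Nonsingular x' y') :
    letI := Classical.decEq F
    Point.some x y h + Point.some x y h = Point.some x' y' h' := by
  letI := Classical.decEq F
  have hY : y ≠ (curve a b).toAffine.negY x y := by
    rw [negY_eq]
    intro h1
    apply mul_ne_zero h2 hy
    linear_combination h1
  have hsl : (curve a b).toAffine.slope x x y y = l := by
    rw [slope_of_Y_ne rfl hY, negY_eq]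
    show (3 * x ^ 2 + 2 * 0 * x + a - 0 * y) / (y - -y) = _
    have e1 : 3 * x ^ 2 + 2 * 0 * x + a - 0 * y = 3 * x ^ 2 + a := by ring
    have e2 : y - -y = 2 * y := by ring
    rw [e1, e2, ← hl]
    exact mul_div_cancel_right₀ _ (mul_ne_zero h2 hy)
  rw [Point.add_self_of_Y_ne hY]
  have e1 : (curve a b).toAffine.addX x x ((curve a b).toAffine.slope x x y y) = x' := by
    rw [hsl, addX_eq, hx']; ring
  have e2 : (curve a b).toAffine.addY x x y ((curve a b).toAffine.slope x x y y) = y' := by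
    rw [hsl, addY_eq, hy', hx']; ring
  simp only [e1, e2]

/-- the order of the group of non-singular points is divisible by five -/
theorem five_dvd [Finite F] (h2 : (2 : F) ≠ 0) (h3 : (3 : F) ≠ 0) {b : F} (hb : b ≠ 0) :
    5 ∣ Nat.card {P : F × F // (curve (fA b) (fB b)).toAffine.Nonsingular P.1 P.2} + 1 := by
  classical
  have h108 : (108 : F) ≠ 0 := by
    have : (108 : F) = 2 ^ 2 * 3 ^ 3 := by norm_num
    rw [this]
    exact mul_ne_zero (pow_ne_zero _ h2) (pow_ne_zero _ h3)
  have hyP : -108 * b ≠ 0 := mul_ne_zero (neg_ne_zero.2 h108) hb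
  have hyQ : 108 * b ^ 2 ≠ 0 := mul_ne_zero h108 (pow_ne_zero 2 hb)
  have hyR : 108 * b ≠ 0 := mul_ne_zero h108 hb
  have hP : (curve (fA b) (fB b)).toAffine.Nonsingular (3 * (b ^ 2 - 6 * b + 1)) (-108 * b) := by
    rw [ns_iff]
    refine ⟨?_, Or.inr (mul_ne_zero h2 hyP)⟩
    unfold fA fB
    ring
  have hQ : (curve (fA b) (fB b)).toAffine.Nonsingular (3 * (b ^ 2 + 6 * b + 1)) (108 * b ^ 2) := by
    rw [ns_iff]
    refine ⟨?_, Or.inr (mul_ne_zero h2 hyQ)⟩
    unfold fA fB
    ring
  have hR : (curve (fA b) (fB b)).toAffine.Nonsingular (3 * (b ^ 2 - 6 * b + 1)) (108 * b) := by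
    rw [ns_iff]
    refine ⟨?_, Or.inr (mul_ne_zero h2 hyR)⟩
    unfold fA fB
    ring
  have hcard : Nat.card (curve (fA b) (fB b)).toAffine.Point =
      Nat.card {P : F × F // (curve (fA b) (fB b)).toAffine.Nonsingular P.1 P.2} + 1 := by
    have e := (curve (fA b) (fB b)).toAffine.nonsingularPointEquiv
    rw [Nat.card_congr e]
    exact Finite.card_option
  rw [← hcard]
  set P : (curve (fA b) (fB b)).toAffine.Point := Point.some _ _ hP with hPd
  set Q : (curve (fA b) (fB b)).toAffine.Point := Point.some _ _ hQ with hQd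
  have h2P : P + P = Q := by
    have := dbl h2 hP hyP (l := 3 * (1 - b)) (by unfold fA; ring) (by ring) (by ring) hQ
    convert this
  have h4P : Q + Q = -P := by
    have h5 := dbl h2 hQ hyQ (l := 3 * (b + 1)) (by unfold fA; ring) (by ring) (by ring) hR
    have e : -P = Point.some _ _ hR := by
      rw [hPd, Point.neg_some]
      have e2 : (curve (fA b) (fB b)).toAffine.negY (3 * (b ^ 2 - 6 * b + 1)) (-108 * b) =
          108 * b := by
        rw [negY_eq]; ring
      simp only [e2]
    rw [e]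
    convert h5
  have h5P : (5 : ℕ) • P = 0 := by
    have e : (5 : ℕ) • P = (P + P) + (P + P) + P := by
      rw [show (5 : ℕ) = 1 + 1 + 1 + 1 + 1 from rfl]
      simp only [add_smul, one_smul]
      abel
    rw [e, h2P, h4P, neg_add_cancel]
  have hP0 : P ≠ 0 := by
    rw [hPd]
    exact Point.some_ne_zero _
  have ho : addOrderOf P = 5 := by
    have : Fact (Nat.Prime 5) := ⟨Nat.prime_five⟩
    exact addOrderOf_eq_prime h5P hP0
  have hfin : Finite (curve (fA b) (fB b)).toAffine.Point := by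
    have e := (curve (fA b) (fB b)).toAffine.nonsingularPointEquiv
    have : Finite (WithZero {xy : F × F //
        (curve (fA b) (fB b)).toAffine.Nonsingular xy.1 xy.2}) :=
      inferInstanceAs (Finite (Option {xy : F × F //
        (curve (fA b) (fB b)).toAffine.Nonsingular xy.1 xy.2}))
    exact Finite.of_equiv _ e.symm
  rw [← ho]
  exact addOrderOf_dvd_natCard P

/-- good reduction -/
theorem count_good [Finite F] (h2 : (2 : F) ≠ 0) (h3 : (3 : F) ≠ 0) {b : F} (hb : b ≠ 0)
    (hd : 4 * fA b ^ 3 + 27 * fB b ^ 2 ≠ 0) : 5 ∣ Nat.card (Sol F (fA b) (fB b)) + 1 := by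
  have h := five_dvd h2 h3 hb
  have e : Nat.card (Sol F (fA b) (fB b)) =
      Nat.card {P : F × F // (curve (fA b) (fB b)).toAffine.Nonsingular P.1 P.2} := by
    refine Nat.card_congr (Equiv.subtypeEquivRight fun P => ?_)
    rw [ns_iff]
    refine ⟨fun h1 => ⟨h1, ?_⟩, fun h1 => h1.1⟩
    by_contra h4
    push Not at h4
    obtain ⟨h4, h5⟩ := h4
    apply hd
    have hy : P.2 = 0 := (mul_eq_zero.1 h5).resolve_left h2
    have h1' : P.2 ^ 2 = P.1 ^ 3 + fA b * P.1 + fB b := h1
    rw [hy] at h1'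
    have hA : fA b = -3 * P.1 ^ 2 := by linear_combination h4
    have hB : fB b = 2 * P.1 ^ 3 := by linear_combination -h1' - P.1 * h4
    rw [hA, hB]
    ring
  rw [e]
  exact h

/-- the points of a nodal curve -/
theorem card_sol_node [Finite F] (h2 : (2 : F) ≠ 0) (h3 : (3 : F) ≠ 0) {a b : F}
    (hd : 4 * a ^ 3 + 27 * b ^ 2 = 0) (ha : a ≠ 0) : Nat.card (Sol F a b) =
      Nat.card {P : F × F // (curve a b).toAffine.Nonsingular P.1 P.2} + 1 := by
  classical
  obtain ⟨r, hr⟩ : ∃ r : F, 2 * a * r = -(3 * b) :=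
    ⟨-(3 * b) / (2 * a), by field_simp⟩
  have hA1 : a = -3 * r ^ 2 := by
    have h4 : 12 * a ^ 2 * (a + 3 * r ^ 2) = 0 := by
      linear_combination 3 * hd + (18 * a * r - 27 * b) * hr
    have h12 : (12 : F) ≠ 0 := by
      have : (12 : F) = 2 * 2 * 3 := by norm_num
      rw [this]
      exact mul_ne_zero (mul_ne_zero h2 h2) h3
    have h5 := (mul_eq_zero.1 h4).resolve_left (mul_ne_zero h12 (pow_ne_zero 2 ha))
    linear_combination h5
  have hr0 : r ≠ 0 := by
    rintro rfl
    apply ha
    rw [hA1]; ring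
  have hB1 : b = 2 * r ^ 3 := by
    have h4 : 3 * (b - 2 * r ^ 3) = 0 := by
      rw [hA1] at hr
      linear_combination hr
    have h5 := (mul_eq_zero.1 h4).resolve_left h3
    linear_combination h5
  have key : ∀ P : F × F, P.2 ^ 2 = P.1 ^ 3 + a * P.1 + b ↔
      (P = (r, 0) ∨ (curve a b).toAffine.Nonsingular P.1 P.2) := by
    rintro ⟨x, y⟩
    rw [ns_iff]
    show y ^ 2 = x ^ 3 + a * x + b ↔ _ ∨ (y ^ 2 = x ^ 3 + a * x + b ∧ _)
    constructor
    · intro h1
      by_cases hs : 3 * x ^ 2 + a ≠ 0 ∨ 2 * y ≠ 0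
      · exact Or.inr ⟨h1, hs⟩
      · left
        push Not at hs
        obtain ⟨hs1, hs2⟩ := hs
        have hy : y = 0 := (mul_eq_zero.1 hs2).resolve_left h2
        rw [hy, hA1, hB1] at h1
        rw [hA1] at hs1
        have e1 : 3 * ((x - r) * (x + r)) = 0 := by linear_combination hs1
        have e2 := (mul_eq_zero.1 e1).resolve_left h3
        rcases mul_eq_zero.1 e2 with h5 | h5
        · exact Prod.ext (sub_eq_zero.1 h5) hy
        · exfalso
          have hx : x = -r := eq_neg_of_add_eq_zero_left h5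
          rw [hx] at h1
          have h4 : 4 * r ^ 3 = 0 := by linear_combination -h1
          have h44 : (4 : F) ≠ 0 := by
            have : (4 : F) = 2 * 2 := by norm_num
            rw [this]; exact mul_ne_zero h2 h2
          exact mul_ne_zero h44 (pow_ne_zero 3 hr0) h4
    · rintro (h1 | h1)
      · have hx : x = r := congrArg Prod.fst h1
        have hy : y = 0 := congrArg Prod.snd h1
        rw [hx, hy, hA1, hB1]
        ring
      · exact h1.1
  have hnot : ¬ (curve a b).toAffine.Nonsingular r 0 := by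
    rw [ns_iff]
    rintro ⟨-, h1 | h1⟩
    · apply h1
      rw [hA1]; ring
    · exact h1 (mul_zero 2)
  have e1 : Nat.card (Sol F a b) = Nat.card (Option
      {P : F × F // (curve a b).toAffine.Nonsingular P.1 P.2}) := by
    refine Nat.card_congr
      { toFun := fun P => if h : P.1 = (r, 0) then none else
          some ⟨P.1, ((key P.1).1 P.2).resolve_left h⟩
        invFun := fun o => match o with
          | none => ⟨(r, 0), (key _).2 (Or.inl rfl)⟩
          | some Q => ⟨Q.1, (key _).2 (Or.inr Q.2)⟩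
        left_inv := ?_
        right_inv := ?_ }
    · intro P
      by_cases h : P.1 = (r, 0)
      · simp only [dif_pos h]
        exact Subtype.ext h.symm
      · simp only [dif_neg h]
    · rintro (_ | Q)
      · simp
      · have h : ¬ Q.1 = (r, 0) := by
          intro h
          apply hnot
          have := Q.2
          rw [h] at this
          exact this
        simp only [dif_neg h]
  rw [e1]
  exact Finite.card_option

/-- the node away from the point of order five -/
theorem count_node [Finite F] (h2 : (2 : F) ≠ 0) (h3 : (3 : F) ≠ 0) (h5 : (5 : F) ≠ 0) {b : F}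
    (hb : b ≠ 0) (hd : b ^ 2 - 11 * b - 1 = 0) :
    fA b ≠ 0 ∧ 5 ∣ Nat.card (Sol F (fA b) (fB b)) := by
  have hA : fA b = -27 * (5 * b ^ 2) := by
    unfold fA
    linear_combination (-27 * (b ^ 2 - b - 1)) * hd
  have h27 : (-27 : F) ≠ 0 := by
    have : (-27 : F) = -(3 ^ 3) := by norm_num
    rw [this]
    exact neg_ne_zero.2 (pow_ne_zero 3 h3)
  have hA0 : fA b ≠ 0 := by
    rw [hA]
    exact mul_ne_zero h27 (mul_ne_zero h5 (pow_ne_zero 2 hb))
  refine ⟨hA0, ?_⟩
  rw [card_sol_node h2 h3 (by rw [f_disc, hd]; ring) hA0]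
  exact five_dvd h2 h3 hb

/-- the nodes at which the point of order five is singular -/
theorem count_cusp [Finite F] (h2 : (2 : F) ≠ 0) (h3 : (3 : F) ≠ 0) :
    (Nat.card F : ℤ) - Nat.card (Sol F (-27) 54) = 1 := by
  classical
  letI : Fintype F := Fintype.ofFinite F
  have h27 : (-27 : F) ≠ 0 := by
    have : (-27 : F) = -(3 ^ 3) := by norm_num
    rw [this]
    exact neg_ne_zero.2 (pow_ne_zero 3 h3)
  rw [Pool.Agent.W313.Gr.card_node h2 h3 (by norm_num) h27]
  have e : (-2 * -27 * 54 : F) = (2 * 3 ^ 3) ^ 2 := by norm_num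
  rw [e]
  exact quadraticChar_sq_one' (mul_ne_zero h2 (pow_ne_zero 3 h3))

end pts

end Pool.Agent.R427.FT
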