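import Pool.Agent.R427.SC2

/-!
The upper bound for the order of vanishing over arbitrary constant fields.
-/

set_option autoImplicit false
set_option linter.all false
set_option maxHeartbeats 4000000

open WeierstrassCurve WeierstrassCurve.Affine Polynomial FF
open scoped Classical

namespace Pool.Agent.R427.SC

open Pool.Agent.W343.BSD Pool.Agent.W309.RK Pool.Agent.TH639.B3
open Pool.Agent.W313.Gr (curve rootSum)
open Pool.Agent.TH958.T3 (TD IsMul)
open Pool.Agent.TH958.T4 (ord_shift ne_of_pos ord_nonneg_sub ord_one_sub ord_one_sub' six_ne)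
open Pool.Agent.TH958.T6 (OneZero bet aS bS isT3 td disc_eq rootSum_zero reg_of locTerm_node
  locTerm_two cop3 term_pole sum_insert_le psi psi_mul psi_const psi_zero)

section

variable {k K : Type} [Field k] [Finite k] [Field K] [Algebra k K] [FF.IsFF k K]

theorem bet_fac {d : ℕ} (hd : (d : k) ≠ 0) (h : K) :
    bet d h = -(4 * ∏ Φ ∈ fac k d, aeval h Φ) := by
  have h1 := congrArg (aeval h) (prod_fac (k := k) hd)
  rw [map_prod, map_sub, map_pow, aeval_X, map_one] at h1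
  rw [h1]
  unfold bet
  ring

/-- the basic facts on `h` -/
theorem facts (h6 : (6 : k) ≠ 0) {d : ℕ} (hd : 0 < d) {h : K} (hA : Adm k d h) :
    (2 : K) ≠ 0 ∧ (3 : K) ≠ 0 ∧ (4 : K) ≠ 0 ∧ h ≠ 0 ∧ (∀ c : k, h ≠ algebraMap k K c) ∧
      bet d h ≠ 0 ∧ (∀ v : Place k K, v.ord h < 0 → v.ord (bet d h) = d * v.ord h) ∧
      4 * aS d h ^ 3 + 27 * bS d h ^ 2 ≠ 0 := by
  have h2 : (2 : k) ≠ 0 := fun e => h6 (by linear_combination 3 * e)
  have h3 : (3 : k) ≠ 0 := fun e => h6 (by linear_combination 2 * e)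
  have h2K : (2 : K) ≠ 0 := by
    have : algebraMap k K 2 ≠ 0 := by simpa using h2
    rwa [map_ofNat] at this
  have h3K : (3 : K) ≠ 0 := by
    have : algebraMap k K 3 ≠ 0 := by simpa using h3
    rwa [map_ofNat] at this
  have h4k : (4 : k) ≠ 0 := by
    have : (4 : k) = 2 * 2 := by norm_num
    rw [this]
    exact mul_ne_zero h2 h2
  have h4K : (4 : K) ≠ 0 := by
    have : (4 : K) = 2 * 2 := by norm_num
    rw [this]
    exact mul_ne_zero h2K h2K
  obtain ⟨vi, hvi, -, -, -, -⟩ := hA.pole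
  have hh0 : h ≠ 0 := ne_of_pos vi hvi.ne
  have hpow : ∀ v : Place k K, v.ord h < 0 → v.ord (h ^ d) < 0 := by
    intro v hv
    rw [v.ord_pow]
    exact mul_neg_of_pos_of_neg (by exact_mod_cast hd) hv
  have o4 : ∀ v : Place k K, v.ord (4 : K) = 0 := by
    intro v
    have := v.ord_const h4k
    rwa [map_ofNat] at this
  have hb : ∀ v : Place k K, v.ord h < 0 → bet d h ≠ 0 ∧ v.ord (bet d h) = d * v.ord h := by
    intro v hv
    obtain ⟨g1, g2⟩ := ord_one_sub v (hpow v hv)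
    unfold bet
    refine ⟨mul_ne_zero h4K g1, ?_⟩
    rw [v.ord_mul h4K g1, o4, zero_add, g2, v.ord_pow]
  refine ⟨h2K, h3K, h4K, hh0, ?_, (hb vi hvi).1, fun v hv => (hb v hv).2, ?_⟩
  · intro c e
    rw [e] at hvi
    by_cases hc : c = 0
    · rw [hc, map_zero, vi.ord_zero] at hvi
      exact lt_irrefl _ hvi
    · rw [vi.ord_const hc] at hvi
      exact lt_irrefl _ hvi
  · rw [TH958.T6.disc_eq h3K]
    have h108 : (108 : K) ≠ 0 := by
      have : (108 : K) = 4 * 3 ^ 3 := by norm_num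
      rw [this]
      exact mul_ne_zero h4K (pow_ne_zero 3 h3K)
    exact neg_ne_zero.2 (mul_ne_zero (pow_ne_zero 3 (hb vi hvi).1)
      (mul_ne_zero h108 (pow_ne_zero _ hh0)))

theorem card_Res (v : Place k K) : Nat.card (S.Res v) = Nat.card k ^ S.deg v := by
  rw [S.deg_eq]
  exact Pool.Agent.H107R3.ZT.card_RF v

/-- the contribution of a node, if `q_v` is `2` modulo `3` -/
theorem locTerm_nonsplit (h6 : (6 : k) ≠ 0) {v : Place k K} {a b α β c : K} (h : Sc v a b α β c)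
    (hΔ : 4 * a ^ 3 + 27 * b ^ 2 ≠ 0) (hb : v.red (c ^ 3 * β) ≠ 0)
    (hq : Nat.card (S.Res v) % 3 = 2) : locTerm v a b = 0 := by
  by_cases hg : v.ord (minDisc v a b) = 0
  · exact locTerm_good v hg
  have h3 := h3_of h6
  have hmin := h.isMin h3 (Or.inr hb)
  have hn : 4 * v.red (c * α) ^ 3 = 27 * v.red (c ^ 3 * β) := by
    by_contra h1
    exact hg ((h.disc h3 hΔ hmin).2 ⟨hb, h1⟩)
  have h5 := h.node h6 (ab_of_disc hΔ) hmin hb hn
  rcases h.node_pm h6 hΔ hmin hb hn with ht | ht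
  · exfalso
    rw [ht] at h5
    omega
  · unfold locTerm
    rw [if_pos (Or.inr ht)]

/-- the contribution of an additive place, if `q_v` is `2` modulo `3` -/
theorem locTerm_le_one {v : Place k K} (a b : K) (hq : Nat.card (S.Res v) % 3 = 2) :
    locTerm v a b ≤ 1 := by
  refine (locTerm_le v a b).trans ?_
  rw [if_neg]
  omega

theorem card_mod {q : ℕ} (h3 : ¬ 3 ∣ q) (h1 : ¬ 3 ∣ q - 1) {n : ℕ} (hn : Odd n) :
    q ^ n % 3 = 2 := by
  have hq : q % 3 = 2 := by omega
  obtain ⟨m, rfl⟩ := hn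
  rw [pow_succ, pow_mul, Nat.mul_mod, Nat.pow_mod, Nat.pow_mod q 2, hq]
  norm_num

theorem rm_zero {P : Polynomial ℤ} {c : ℤ} (hP : ¬ (3 : ℤ) ∣ P.eval c) :
    (P.map (Int.castRingHom (ZMod 3))).rootMultiplicity (c : ZMod 3) = 0 := by
  apply rootMultiplicity_eq_zero
  intro h
  rw [IsRoot.def] at h
  have e : (c : ZMod 3) = Int.castRingHom (ZMod 3) c := by simp
  rw [e, eval_map, eval₂_at_apply] at h
  exact hP ((ZMod.intCast_zmod_eq_zero_iff_dvd _ 3).1 h)

theorem rootSum_zero2 (h1 : ¬ 3 ∣ Nat.card k - 1) (h3 : ¬ 3 ∣ Nat.card k) {P : Polynomial ℤ}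
    (hP : ¬ (3 : ℤ) ∣ P.eval 1) (hP' : ¬ (3 : ℤ) ∣ P.eval (-1)) : rootSum 3 k P = 0 := by
  have hq : ((Nat.card k : ℕ) : ZMod 3) = -1 := by
    have h5 : Nat.card k % 3 = 2 := by omega
    have : ((Nat.card k : ℕ) : ZMod 3) = ((Nat.card k % 3 : ℕ) : ZMod 3) := by
      rw [ZMod.natCast_mod]
    rw [this, h5]
    rfl
  have e1 := rm_zero hP
  have e2 := rm_zero hP'
  unfold rootSum
  rw [hq]
  have e3 : ((-1 : ZMod 3))⁻¹ = ((-1 : ℤ) : ZMod 3) := by
    haveI : Fact (Nat.Prime 3) := ⟨Nat.prime_three⟩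
    rw [inv_neg, inv_one, Int.cast_neg, Int.cast_one]
  have e4 : (1 : ZMod 3) = ((1 : ℤ) : ZMod 3) := by decide
  rw [e3, e2, e4, e1]

/-- `3` divides neither the class number nor, if it does not divide `q - 1`, the value at `-1` of
the numerator of the zeta function. -/
def PrimeToThree (k K : Type) [Field k] [Field K] [Algebra k K] : Prop :=
  ¬ 3 ∣ S.classNumber k K ∧ (¬ 3 ∣ Nat.card k - 1 →
    ∀ P : Polynomial ℤ, S.IsZetaNum k K P → ¬ (3 : ℤ) ∣ P.eval (-1))

theorem upper (h6 : (6 : k) ≠ 0) (hc : constDeg k K = 1) (hcl : PrimeToThree k K) {d : ℕ}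
    (hdk : (d : k) ≠ 0) {h : K} (hA : Adm k d h) (M : ℕ)
    (hM : S.VanishesTo k (aS d h) (bS d h) M) : M ≤ numFac k d - 1 := by
  classical
  have hd0 : 0 < d := by
    rcases Nat.eq_zero_or_pos d with h | h
    · rw [h, Nat.cast_zero] at hdk
      exact absurd rfl hdk
    · exact h
  obtain ⟨h2K, h3K, h4K, hh0, hhc, hβ0, hpole, hΔ⟩ := facts h6 hd0 hA
  have h3 : (3 : k) ≠ 0 := h3_of h6
  have h4k : (4 : k) ≠ 0 := by
    have h2 : (2 : k) ≠ 0 := fun e => h6 (by linear_combination 3 * e)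
    have : (4 : k) = 2 * 2 := by norm_num
    rw [this]
    exact mul_ne_zero h2 h2
  have h3q : ¬ 3 ∣ Nat.card k := by
    intro h5
    haveI := Fintype.ofFinite k
    have h7 : ((Nat.card k : ℕ) : k) = 0 := by
      rw [Nat.card_eq_fintype_card]
      exact FiniteField.cast_card_eq_zero k
    obtain ⟨p, hp⟩ := CharP.exists k
    haveI : Fact p.Prime := ⟨CharP.char_is_prime k p⟩
    obtain ⟨n, -, hn⟩ := FiniteField.card k p
    rw [Nat.card_eq_fintype_card, hn] at h5
    have h9 := (Nat.Prime.dvd_of_dvd_pow Nat.prime_three h5)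
    have h11 := (Nat.prime_dvd_prime_iff_eq Nat.prime_three (Fact.out : p.Prime)).1 h9
    subst h11
    exact h3 (by exact_mod_cast CharP.cast_eq_zero k 3)
  obtain ⟨P, hP, hP1⟩ := exists_num_rel k K
  have hbd := bound h6 (isT3 d h) hΔ hP hc hM
  have hP1' : ¬ (3 : ℤ) ∣ P.eval 1 := by
    rw [hP1]
    have := hcl.1
    rw [S.classNumber_eq] at this
    exact_mod_cast this
  have hroot : rootSum 3 k P = 0 := by
    by_cases hq : 3 ∣ Nat.card k - 1
    · exact rootSum_zero hq hP1 (by have := hcl.1; rwa [S.classNumber_eq] at this)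
    · exact rootSum_zero2 hq h3q hP1' (hcl.2 hq P ((S.isZetaNum_iff P).2 hP))
  rw [hroot, zero_add] at hbd
  obtain ⟨vi, hvi, hvio, hvid, hvi2, hviu⟩ := hA.pole
  set S0 := fac k d with hS0
  have hS0' : ∀ Φ : k[X], Φ ∈ S0 ↔ Φ.Monic ∧ Irreducible Φ ∧ Φ ∣ X ^ d - 1 := mem_fac hd0
  have hch : ∀ Φ : k[X], ∃ v : Place k K, Φ ∈ S0 → (0 < v.ord (aeval h Φ) ∧
      ¬ (3 : ℤ) ∣ v.ord (aeval h Φ) ∧ ¬ 3 ∣ S.deg v ∧
      ∀ w : Place k K, 0 < w.ord (aeval h Φ) → w = v) := by
    intro Φ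
    by_cases hΦ : Φ ∈ S0
    · obtain ⟨g1, g2, g3⟩ := (hS0' Φ).1 hΦ
      obtain ⟨v, hv⟩ := hA.factor Φ g1 g2 g3
      exact ⟨v, fun _ => hv⟩
    · exact ⟨vi, fun h => absurd h hΦ⟩
  choose V hV using hch
  have hΦ0 : ∀ Φ ∈ S0, aeval h Φ ≠ 0 := by
    intro Φ hΦ h0
    have := (hV Φ hΦ).1
    rw [h0, (V Φ).ord_zero] at this
    exact lt_irrefl _ this
  have hfac : bet d h = -(4 * ∏ Φ ∈ S0, aeval h Φ) := bet_fac hdk h
  have o4 : ∀ v : Place k K, v.ord (4 : K) = 0 := by
    intro v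
    have := v.ord_const h4k
    rwa [map_ofNat] at this
  have hprod0 : ∏ Φ ∈ S0, aeval h Φ ≠ 0 := Finset.prod_ne_zero_iff.2 hΦ0
  have hordb : ∀ v : Place k K, v.ord (bet d h) = ∑ Φ ∈ S0, v.ord (aeval h Φ) := by
    intro v
    rw [hfac, v.ord_neg, v.ord_mul h4K hprod0, o4, zero_add, TH958.T4.ord_prod v _ _ hΦ0]
  have hregb : ∀ v : Place k K, 0 ≤ v.ord h → 0 ≤ v.ord (bet d h) := by
    intro v hv
    rw [hordb]
    exact Finset.sum_nonneg fun Φ _ => ord_nonneg v hv Φ
  have o3 : ∀ v : Place k K, v.ord (3 : K) = 0 := by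
    intro v
    have := v.ord_const h3
    rwa [map_ofNat] at this
  have hsc : ∀ v : Place k K, 0 ≤ v.ord h → Sc v (aS d h) (bS d h) 3 (bet d h) 1 := by
    intro v hv
    refine ⟨isT3 d h, one_ne_zero, ?_, ?_⟩
    · rw [one_mul]
      exact Or.inr (by rw [o3])
    · rw [one_pow, one_mul]
      exact Or.inr (hregb v hv)
  have hab := ab_of_disc hΔ
  have hred3 : ∀ v : Place k K, v.red (1 * 3 : K) ≠ 0 := by
    intro v
    rw [one_mul]
    exact v.red_ne_zero h3K (o3 v)
  -- at the zeros of `h` the reduction is nodal away from the point of order three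
  have hnode : ∀ v : Place k K, 0 < v.ord h → v.red (1 ^ 3 * bet d h) ≠ 0 := by
    intro v hv
    have hp : 0 < v.ord (h ^ d) := by
      rw [v.ord_pow]
      exact mul_pos (by exact_mod_cast hd0) hv
    have e1 := ord_one_sub' v hp
    have e2 : v.ord (bet d h) = 0 := by
      unfold bet
      rw [v.ord_mul h4K e1.1, o4, zero_add, e1.2]
    rw [one_pow, one_mul]
    exact v.red_ne_zero hβ0 e2
  -- the exceptional zero of `h`
  obtain ⟨v0, hv0d, hv0i, hv0u⟩ : ∃ v0 : Place k K,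
      (3 ∣ Nat.card k - 1 → ¬ 3 ∣ S.deg v0 ∧ 0 < v0.ord h) ∧ (¬ 3 ∣ Nat.card k - 1 → v0 = vi) ∧
      ∀ w : Place k K, 0 < w.ord h → w ≠ v0 → locTerm w (aS d h) (bS d h) = 0 := by
    by_cases hq : 3 ∣ Nat.card k - 1
    · obtain ⟨v, hv, hvu⟩ := hA.zero_one hq
      refine ⟨v, fun _ => ⟨hv, ?_⟩, fun h => absurd hq h, fun w hw hne => absurd (hvu w hw) hne⟩
      obtain ⟨w, hw⟩ := exists_zero hvi
      rw [← hvu w hw]
      exact hw
    · refine ⟨vi, fun h => absurd h hq, fun _ => rfl, fun w hw _ => ?_⟩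
      refine locTerm_nonsplit h6 (hsc w hw.le) hΔ (hnode w hw) ?_
      rw [card_Res]
      exact card_mod h3q hq (hA.zero_odd hq w hw)
  set B : Finset (Place k K) := insert vi (insert v0 (S0.image V)) with hB
  have hnot : ∀ v : Place k K, v ∉ B → v ≠ vi ∧ v ≠ v0 ∧ ∀ Φ ∈ S0, v ≠ V Φ := by
    intro v hv
    rw [hB, Finset.mem_insert, Finset.mem_insert, Finset.mem_image] at hv
    push Not at hv
    exact ⟨hv.1, hv.2.1, fun Φ hΦ e => hv.2.2 Φ hΦ e.symm⟩
  -- places where `h` is a unit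
  have hgood : ∀ v : Place k K, v ∉ B → locTerm v (aS d h) (bS d h) = 0 := by
    intro v hv
    obtain ⟨g1, g2, g3⟩ := hnot v hv
    rcases lt_trichotomy (v.ord h) 0 with hneg | hzero | hposv
    · have hdv : (3 : ℤ) ∣ v.ord h := by
        by_contra hcon
        exact g1 (hviu v hneg hcon)
      obtain ⟨e, he⟩ := hdv
      refine term_pole h6 (isT3 d h) hΔ hβ0 (e := -(d * e)) ?_ ?_
      · have : e < 0 := by omega
        have := mul_neg_of_pos_of_neg (by exact_mod_cast hd0 : (0 : ℤ) < d) this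
        omega
      · rw [hpole v hneg, he]
        ring
    · have hs := hsc v hzero.ge
      have e1 : v.ord (bet d h) = 0 := by
        rw [hordb]
        refine Finset.sum_eq_zero fun Φ hΦ => ?_
        have h1 := ord_nonneg v hzero.ge Φ
        have h3 : ¬ 0 < v.ord (aeval h Φ) := fun h5 => g3 Φ hΦ ((hV Φ hΦ).2.2.2 v h5)
        omega
      have hb : v.red (1 ^ 3 * bet d h) ≠ 0 := by
        rw [one_pow, one_mul]
        exact v.red_ne_zero hβ0 e1
      apply locTerm_good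
      rw [hs.disc h3 hΔ (hs.isMin h3 (Or.inr hb))]
      refine ⟨hb, fun heq => ?_⟩
      have hreg : v.Reg (bet d h) := Or.inr e1.ge
      have hs0 : v.ord (h ^ d) = 0 := by rw [v.ord_pow, hzero, mul_zero]
      have hrs : v.Reg (h ^ d) := Or.inr hs0.ge
      have e2 : v.red (bet d h) = 4 - 4 * v.red (h ^ d) := by
        have e3 : bet d h = ((4 : ℕ) : K) - ((4 : ℕ) : K) * h ^ d := by
          unfold bet
          push_cast
          ring
        rw [e3, v.red_sub (reg_nat 4) (v.reg_mul (reg_nat 4) hrs), v.red_mul (reg_nat 4) hrs,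
          red_nat]
        push_cast
        ring
      have e4 : v.red (3 : K) = 3 := by
        have : (3 : K) = ((3 : ℕ) : K) := by push_cast; ring
        rw [this, red_nat]
        push_cast
        rfl
      rw [one_pow, one_mul, one_mul, e4, e2] at heq
      have h108 : (108 : v.RF) * v.red (h ^ d) = 0 := by linear_combination heq
      rcases mul_eq_zero.1 h108 with h5 | h5
      · have h2' := n2' h6 v
        have h3' := n3 h3 v
        have : (108 : v.RF) = 2 * 2 * 3 ^ 3 := by norm_num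
        rw [this] at h5
        exact mul_ne_zero (mul_ne_zero h2' h2') (pow_ne_zero 3 h3') h5
      · exact v.red_ne_zero (pow_ne_zero _ hh0) hs0 h5
    · exact hv0u v hposv g2
  have hts : termSum k (aS d h) (bS d h) =
      ∑ v ∈ B, locTerm v (aS d h) (bS d h) * 3 ^ padicValNat 3 (S.deg v) := by
    unfold termSum
    apply finsum_eq_sum_of_support_subset
    intro v hv
    rw [Function.mem_support] at hv
    rw [Finset.mem_coe]
    by_contra hcon
    apply hv
    rw [hgood v hcon, zero_mul]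
  set F : Place k K → ℕ := fun v =>
    locTerm v (aS d h) (bS d h) * 3 ^ padicValNat 3 (S.deg v) with hF
  have f3 : ∀ Φ ∈ S0, F (V Φ) ≤ 1 := by
    intro Φ hΦ
    obtain ⟨g1, g2, g3, g4⟩ := hV Φ hΦ
    have e0 := nonneg_of_zero (V Φ) ((hS0' Φ).1 hΦ).1 g1
    rw [hF]
    simp only
    rw [cop3 g3, mul_one]
    have hb : (V Φ).red (1 ^ 3 * bet d h) = 0 := by
      rw [one_pow, one_mul, (V Φ).red_eq_zero_iff (Or.inr (hregb _ e0))]
      right
      rw [hordb]
      refine lt_of_lt_of_le g1 (Finset.single_le_sum (f := fun Ψ => (V Φ).ord (aeval h Ψ))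
        (fun Ψ _ => ord_nonneg (V Φ) e0 Ψ) hΦ)
    exact locTerm_split _ ((hsc (V Φ) e0).split h6 hab hb (hred3 _))
  have f4 : ∑ v ∈ S0.image V, F v ≤ S0.card := by
    calc ∑ v ∈ S0.image V, F v ≤ ∑ v ∈ S0.image V, 1 := by
          refine Finset.sum_le_sum fun v hv => ?_
          obtain ⟨Φ, hΦ, rfl⟩ := Finset.mem_image.1 hv
          exact f3 Φ hΦ
      _ = (S0.image V).card := by rw [Finset.sum_const, smul_eq_mul, mul_one]
      _ ≤ S0.card := Finset.card_image_le
  rw [numFac_eq hd0, ← hS0]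
  by_cases hq : 3 ∣ Nat.card k - 1
  · rw [if_pos hq] at hbd
    have f1 : F vi ≤ 2 := by
      rw [hF]
      simp only
      rw [cop3 hvid, mul_one]
      exact locTerm_two _ _ _
    obtain ⟨g1, g2⟩ := hv0d hq
    have f2 : F v0 ≤ 1 := by
      rw [hF]
      simp only
      rw [cop3 g1, mul_one]
      exact locTerm_node h6 (hsc v0 g2.le) hΔ (hnode v0 g2)
    have f5 : ∑ v ∈ B, F v ≤ F vi + (F v0 + ∑ v ∈ S0.image V, F v) :=
      (sum_insert_le _ _ _).trans (Nat.add_le_add_left (sum_insert_le _ _ _) _)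
    have f6 : M + 4 ≤ ∑ v ∈ B, F v := by rw [← hts]; exact hbd
    omega
  · rw [if_neg hq] at hbd
    have f1 : F vi ≤ 1 := by
      rw [hF]
      simp only
      rw [cop3 hvid, mul_one]
      refine locTerm_le_one _ _ ?_
      rw [card_Res]
      exact card_mod h3q hq (hvi2 hq)
    have hB2 : B = insert vi (S0.image V) := by
      rw [hB, hv0i hq, Finset.insert_idem]
    have f5 : ∑ v ∈ B, F v ≤ F vi + ∑ v ∈ S0.image V, F v := by
      rw [hB2]
      exact sum_insert_le _ _ _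
    have f6 : M + 2 ≤ ∑ v ∈ B, F v := by rw [← hts]; exact hbd
    omega

end

end Pool.Agent.R427.SC
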