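import Pool.Agent.R427.FT1
import Pool.Agent.R427.SC3

/-!
Curves with a point of order five: the places.
-/

set_option autoImplicit false
set_option linter.all false
set_option maxHeartbeats 4000000

open Polynomial FF
open scoped Classical

namespace Pool.Agent.R427.FT

open Pool.Agent.W343.BSD
open Pool.Agent.W313.Gr (curve PointsDvd weight weightSum)
open Pool.Agent.TH639.B3 (ord_disc_zero_iff)

section maps

theorem map_fA {R S : Type} [CommRing R] [CommRing S] (φ : R →+* S) (b : R) :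
    φ (fA b) = fA (φ b) := by
  unfold fA
  simp only [map_mul, map_add, map_sub, map_pow, map_neg, map_one, map_ofNat]

theorem map_fB {R S : Type} [CommRing R] [CommRing S] (φ : R →+* S) (b : R) :
    φ (fB b) = fB (φ b) := by
  unfold fB
  simp only [map_mul, map_add, map_sub, map_pow, map_neg, map_one, map_ofNat]

theorem aeval_fA {k F : Type} [Field k] [Field F] [Algebra k F] (b : F) :
    aeval b (fA (X : k[X])) = fA b := by
  have := map_fA (aeval b : k[X] →ₐ[k] F).toRingHom X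
  simpa using this

theorem aeval_fB {k F : Type} [Field k] [Field F] [Algebra k F] (b : F) :
    aeval b (fB (X : k[X])) = fB b := by
  have := map_fB (aeval b : k[X] →ₐ[k] F).toRingHom X
  simpa using this

theorem aeval_quad {k F : Type} [Field k] [Field F] [Algebra k F] (b : F) :
    aeval b (X ^ 2 - 11 * X - 1 : k[X]) = b ^ 2 - 11 * b - 1 := by
  simp only [map_sub, map_mul, map_pow, aeval_X, map_one, map_ofNat]

theorem fA_inv {F : Type} [Field F] {g : F} (hg : g ≠ 0) : g⁻¹ ^ 4 * fA g = fA (-g⁻¹) := by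
  unfold fA
  field_simp
  ring

theorem fB_inv {F : Type} [Field F] {g : F} (hg : g ≠ 0) : g⁻¹ ^ 6 * fB g = fB (-g⁻¹) := by
  unfold fB
  field_simp
  ring

theorem pow_ne' {F : Type} [Field F] (h2 : (2 : F) ≠ 0) (h3 : (3 : F) ≠ 0) :
    (2 ^ 8 * 3 ^ 12 : F) ≠ 0 := mul_ne_zero (pow_ne_zero _ h2) (pow_ne_zero _ h3)

/-- the discriminant vanishes only at the cusps -/
theorem disc_zero_iff {F : Type} [Field F] (h2 : (2 : F) ≠ 0) (h3 : (3 : F) ≠ 0) (b : F) :
    4 * fA b ^ 3 + 27 * fB b ^ 2 = 0 ↔ b = 0 ∨ b ^ 2 - 11 * b - 1 = 0 := by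
  rw [f_disc, neg_eq_zero, mul_eq_zero, mul_eq_zero (a := b ^ 5)]
  constructor
  · rintro (h | h | h)
    · exact absurd h (pow_ne' h2 h3)
    · exact Or.inl (pow_eq_zero_iff (by norm_num) |>.1 h)
    · exact Or.inr h
  · rintro (h | h)
    · right; left; rw [h]; exact zero_pow (by norm_num)
    · exact Or.inr (Or.inr h)

theorem fA_ne_or {F : Type} [Field F] (h2 : (2 : F) ≠ 0) (h3 : (3 : F) ≠ 0) (h5 : (5 : F) ≠ 0)
    (b : F) : fA b ≠ 0 ∨ fB b ≠ 0 := by
  by_contra hcon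
  push Not at hcon
  obtain ⟨hA, hB⟩ := hcon
  have hd : 4 * fA b ^ 3 + 27 * fB b ^ 2 = 0 := by rw [hA, hB]; ring
  rcases (disc_zero_iff h2 h3 b).1 hd with h | h
  · rw [h] at hA
    unfold fA at hA
    apply pow_ne_zero 3 h3
    linear_combination -hA
  · have hb : b ≠ 0 := by
      rintro rfl
      apply one_ne_zero (α := F)
      linear_combination -h
    have hA' : fA b = -27 * (5 * b ^ 2) := by
      unfold fA
      linear_combination (-27 * (b ^ 2 - b - 1)) * h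
    rw [hA'] at hA
    have h27 : (-27 : F) ≠ 0 := by
      have : (-27 : F) = -(3 ^ 3) := by norm_num
      rw [this]
      exact neg_ne_zero.2 (pow_ne_zero 3 h3)
    exact mul_ne_zero h27 (mul_ne_zero h5 (pow_ne_zero 2 hb)) hA

end maps

section loc

variable {k K : Type} [Field k] [Finite k] [Field K] [Algebra k K] [FF.IsFF k K] {v : Place k K}

theorem red_fA {z : K} (hz : v.Reg z) : v.Reg (fA z) ∧ v.red (fA z) = fA (v.red z) := by
  have e := aeval_fA (k := k) z
  rw [← e]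
  refine ⟨Pool.Agent.H675R3.ZT.reg_aeval v hz _, ?_⟩
  rw [Pool.Agent.H675R3.ZT.red_aeval v hz, aeval_fA]

theorem red_fB {z : K} (hz : v.Reg z) : v.Reg (fB z) ∧ v.red (fB z) = fB (v.red z) := by
  have e := aeval_fB (k := k) z
  rw [← e]
  refine ⟨Pool.Agent.H675R3.ZT.reg_aeval v hz _, ?_⟩
  rw [Pool.Agent.H675R3.ZT.red_aeval v hz, aeval_fB]

/-- the residue characteristic -/
theorem nRF (h2 : (2 : k) ≠ 0) (h3 : (3 : k) ≠ 0) (h5 : (5 : k) ≠ 0) (v : Place k K) :
    (2 : v.RF) ≠ 0 ∧ (3 : v.RF) ≠ 0 ∧ (5 : v.RF) ≠ 0 := by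
  refine ⟨?_, ?_, ?_⟩
  · have := ne_RF v (n := 2) (by exact_mod_cast h2)
    exact_mod_cast this
  · have := ne_RF v (n := 3) (by exact_mod_cast h3)
    exact_mod_cast this
  · have := ne_RF v (n := 5) (by exact_mod_cast h5)
    exact_mod_cast this

/-- `c` scales the curve of parameter `g` to that of the regular parameter `z` -/
structure Norm (v : Place k K) (g c z : K) : Prop where
  c0 : c ≠ 0
  rz : v.Reg z
  eA : c ^ 4 * fA g = fA z
  eB : c ^ 6 * fB g = fB z

theorem Norm.min (h2 : (2 : k) ≠ 0) (h3 : (3 : k) ≠ 0) (h5 : (5 : k) ≠ 0) {g c z : K}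
    (h : Norm v g c z) : IsMinScale v (fA g) (fB g) c := by
  obtain ⟨n2, n3, n5⟩ := nRF h2 h3 h5 v
  obtain ⟨rA, eA⟩ := red_fA h.rz
  obtain ⟨rB, eB⟩ := red_fB h.rz
  refine ⟨h.c0, by rw [h.eA]; exact rA, by rw [h.eB]; exact rB, ?_⟩
  rintro ⟨h4, h6⟩
  rcases fA_ne_or n2 n3 n5 (v.red z) with h7 | h7
  · rw [← eA, Ne, v.red_eq_zero_iff rA] at h7
    push Not at h7
    rcases h4 with h4 | h4
    · apply h7.1
      rw [← h.eA, h4, mul_zero]
    · rw [h.eA] at h4
      omega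
  · rw [← eB, Ne, v.red_eq_zero_iff rB] at h7
    push Not at h7
    rcases h6 with h6 | h6
    · apply h7.1
      rw [← h.eB, h6, mul_zero]
    · rw [h.eB] at h6
      omega

/-- every parameter has a normalization -/
theorem exists_norm (v : Place k K) {g : K} (hg : g ≠ 0) :
    ∃ c z : K, Norm v g c z ∧ (z = 0 ∨ 0 < v.ord z ↔ v.ord g ≠ 0) ∧
      (v.ord g = 0 → z = g) := by
  rcases lt_or_ge (v.ord g) 0 with h | h
  · refine ⟨g⁻¹, -g⁻¹, ⟨inv_ne_zero hg, Or.inr ?_, fA_inv hg, fB_inv hg⟩, ?_, ?_⟩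
    · rw [v.ord_neg, v.ord_inv]; omega
    · rw [v.ord_neg, v.ord_inv]
      constructor
      · intro _; omega
      · intro _; right; omega
    · intro h0; omega
  · refine ⟨1, g, ⟨one_ne_zero, Or.inr h, by ring, by ring⟩, ?_, fun _ => rfl⟩
    constructor
    · rintro (h1 | h1)
      · exact absurd h1 hg
      · omega
    · intro h1
      right; omega

theorem dvd_good (h2 : (2 : k) ≠ 0) (h3 : (3 : k) ≠ 0) (h5 : (5 : k) ≠ 0) {g : K} (hg : g ≠ 0)
    (hΔ : 4 * fA g ^ 3 + 27 * fB g ^ 2 ≠ 0) : PointsDvd 5 k (fA g) (fB g) := by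
  intro v hv
  obtain ⟨n2, n3, n5⟩ := nRF h2 h3 h5 v
  have hab := ab_of_disc hΔ
  obtain ⟨c, z, hn, -, -⟩ := exists_norm v hg
  have hm := hn.min h2 h3 h5
  rw [ord_disc_zero_iff hΔ hm, hn.eA, hn.eB, (red_fA hn.rz).2, (red_fB hn.rz).2] at hv
  have hz0 : v.red z ≠ 0 := fun h => hv ((disc_zero_iff n2 n3 _).2 (Or.inl h))
  rw [S.trace_eq, trace_of_min v hab hm, hn.eA, hn.eB, (red_fA hn.rz).2, (red_fB hn.rz).2]
  have h := count_good n2 n3 hz0 hv
  have e : (Nat.card (S.Res v) : ℤ) + 1 - ((Nat.card v.RF : ℤ) -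
      Nat.card (Sol v.RF (fA (v.red z)) (fB (v.red z)))) =
      ((Nat.card (Sol v.RF (fA (v.red z)) (fB (v.red z))) + 1 : ℕ) : ℤ) := by
    have : Nat.card (S.Res v) = Nat.card v.RF := rfl
    rw [this]
    push_cast
    ring
  rw [e]
  exact_mod_cast h

/-- the bound for the weights -/
noncomputable def wt (v : Place k K) (g : K) : ℕ :=
  (if v.ord g ≠ 0 then 1
    else if 0 < v.ord (g ^ 2 - 11 * g - 1) ∧ 5 ∣ Nat.card k ^ S.deg v - 1 then 1 else 0) *
      5 ^ padicValNat 5 (S.deg v)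

theorem weight_le (h2 : (2 : k) ≠ 0) (h3 : (3 : k) ≠ 0) (h5 : (5 : k) ≠ 0) {g : K} (hg : g ≠ 0)
    (hg2 : g ^ 2 - 11 * g - 1 ≠ 0) (hΔ : 4 * fA g ^ 3 + 27 * fB g ^ 2 ≠ 0) (v : Place k K) :
    weight 5 v (fA g) (fB g) ≤ wt v g := by
  obtain ⟨n2, n3, n5⟩ := nRF h2 h3 h5 v
  have hab := ab_of_disc hΔ
  obtain ⟨c, z, hn, hz, hz'⟩ := exists_norm v hg
  have hm := hn.min h2 h3 h5
  have hdz := ord_disc_zero_iff hΔ hm
  rw [hn.eA, hn.eB, (red_fA hn.rz).2, (red_fB hn.rz).2] at hdz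
  have htr : S.trace v (fA g) (fB g) = _ := trace_of_min v hab hm
  rw [hn.eA, hn.eB, (red_fA hn.rz).2, (red_fB hn.rz).2] at htr
  have hcast : (((5 : ℕ) : ℤ) ∣ (Nat.card (S.Res v) : ℤ) - 1) ↔
      5 ∣ Nat.card k ^ S.deg v - 1 := by
    rw [SC.card_Res v]
    have hpos : 1 ≤ Nat.card k ^ S.deg v := Nat.one_le_pow _ _ Nat.card_pos
    rw [← Int.natCast_dvd_natCast, Nat.cast_sub hpos]
    push_cast
    rfl
  unfold weight wt
  by_cases hbad : v.ord (minDisc v (fA g) (fB g)) = 0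
  · rw [if_pos hbad]
    exact Nat.zero_le _
  rw [if_neg hbad]
  apply Nat.mul_le_mul_right
  have hbad' : v.red z = 0 ∨ (v.red z) ^ 2 - 11 * v.red z - 1 = 0 := by
    rw [← disc_zero_iff n2 n3]
    by_contra h
    exact hbad (hdz.2 h)
  by_cases hz0 : v.red z = 0
  · have ho : v.ord g ≠ 0 := hz.1 ((v.red_eq_zero_iff hn.rz).1 hz0)
    rw [if_pos ho]
    have hA0 : fA (v.red z) = -27 := by rw [hz0]; unfold fA; ring
    have hB0 : fB (v.red z) = 54 := by rw [hz0]; unfold fB; ring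
    have ht1 : S.trace v (fA g) (fB g) = 1 := by
      rw [htr, hA0, hB0]
      exact count_cusp n2 n3
    rw [ht1]
    split_ifs <;> omega
  · have hnode := hbad'.resolve_left hz0
    have ho : v.ord g = 0 := by
      by_contra h
      exact hz0 ((v.red_eq_zero_iff hn.rz).2 (hz.2 h))
    have hzg := hz' ho
    have hreg : v.Reg (g ^ 2 - 11 * g - 1) := by
      rw [hzg] at hn
      rw [← aeval_quad (k := k) g]
      exact Pool.Agent.H675R3.ZT.reg_aeval v hn.rz _
    have hord : 0 < v.ord (g ^ 2 - 11 * g - 1) := by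
      have hrz : v.Reg g := Or.inr ho.ge
      have e : v.red (g ^ 2 - 11 * g - 1) = 0 := by
        rw [← aeval_quad (k := k) g, Pool.Agent.H675R3.ZT.red_aeval v hrz, aeval_quad]
        rw [hzg] at hnode
        exact hnode
      exact ((v.red_eq_zero_iff hreg).1 e).resolve_left hg2
    rw [if_neg (not_not.2 ho)]
    have hd5 : ((5 : ℕ) : ℤ) ∣ (Nat.card (S.Res v) : ℤ) - S.trace v (fA g) (fB g) := by
      rw [htr]
      have e : (Nat.card (S.Res v) : ℤ) - ((Nat.card v.RF : ℤ) -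
          Nat.card (Sol v.RF (fA (v.red z)) (fB (v.red z)))) =
          ((Nat.card (Sol v.RF (fA (v.red z)) (fB (v.red z))) : ℕ) : ℤ) := by
        have : Nat.card (S.Res v) = Nat.card v.RF := rfl
        rw [this]
        ring
      rw [e]
      have := (count_node n2 n3 n5 hz0 hnode).2
      exact_mod_cast this
    rw [if_pos hd5]
    by_cases hq : 5 ∣ Nat.card k ^ S.deg v - 1
    · rw [if_pos (hcast.2 hq), if_pos ⟨hord, hq⟩]
    · rw [if_neg (fun h => hq (hcast.1 h)), if_neg (fun h => hq h.2)]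

end loc

end Pool.Agent.R427.FT
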