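import Pool.Agent.R427.QC4

/-!
Pull-backs; the rational function field.
-/

set_option autoImplicit false
set_option linter.all false
set_option maxHeartbeats 4000000

open FF Polynomial
open scoped IntermediateField

namespace Pool.Agent.R427.QC

open Pool.Agent.W343.BSD Pool.Agent.W309.RF Pool.Agent.H525R3.FFp
open Pool.Agent.W313.Gr (rank rank_mono)
open Pool.Agent.R427.PC (gen_of_not_mem)
open Pool.Agent.TH180.R4 (exists_lift transc_X aeval_ne)

section pull

variable {k K : Type} [Field k] [Finite k] [Field K] [Algebra k K] [FF.IsFF k K]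

/-- the rank of the pull-back -/
theorem rank_pull (α β : k[X]) {f : K} (hf : Transcendental k f) :
    rank (qA (A α) (A β) (RatFunc.X : RatFunc k)) (qB (A α) (A β) (RatFunc.X : RatFunc k)) ≤
    rank (qA (aeval f α) (aeval f β) f) (qB (aeval f α) (aeval f β) f) := by
  obtain ⟨Φ, hX⟩ := exists_lift hf
  letI : Algebra (RatFunc k) K := Φ.toRingHom.toAlgebra
  have hΦa : ∀ x : RatFunc k, algebraMap (RatFunc k) K x = Φ x := fun _ => rfl
  have hp : ∀ p : k[X], Φ (A p) = aeval f p := by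
    intro p
    rw [A_aeval, ← hX]
    exact (Polynomial.aeval_algHom_apply Φ RatFunc.X p).symm
  have h := rank_mono (K' := K) (qA (A α) (A β) (RatFunc.X : RatFunc k))
    (qB (A α) (A β) (RatFunc.X : RatFunc k))
  have e1 : algebraMap (RatFunc k) K (qA (A α) (A β) (RatFunc.X : RatFunc k)) =
      qA (aeval f α) (aeval f β) f := by
    rw [hΦa]
    unfold qA
    rw [map_neg, map_mul, map_mul, map_mul, map_ofNat, hX, hp, hp]
  have e2 : algebraMap (RatFunc k) K (qB (A α) (A β) (RatFunc.X : RatFunc k)) =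
      qB (aeval f α) (aeval f β) f := by
    rw [hΦa]
    unfold qB
    rw [map_neg, map_mul, map_add, map_mul, map_pow, map_pow, hX, hp, hp]
  rwa [e1, e2] at h

/-- the degree of the discriminant -/
theorem natDegree_disc {α β : k[X]} (h : Nice α β) :
    (α ^ 3 - X * β ^ 3).natDegree = max (3 * α.natDegree) (3 * β.natDegree + 1) := by
  have h1 : (α ^ 3).natDegree = 3 * α.natDegree := natDegree_pow _ _
  have h2 : (X * β ^ 3).natDegree = 3 * β.natDegree + 1 := by
    rw [natDegree_X_mul (pow_ne_zero 3 h.b0), natDegree_pow]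
  rcases lt_or_gt_of_ne (show 3 * α.natDegree ≠ 3 * β.natDegree + 1 by omega) with h3 | h3
  · rw [natDegree_sub_eq_right_of_natDegree_lt (by rw [h1, h2]; exact h3), h2, max_eq_right h3.le]
  · rw [natDegree_sub_eq_left_of_natDegree_lt (by rw [h1, h2]; exact h3), h1, max_eq_left h3.le]

/-- the `j`-invariant is not constant -/
theorem noniso (h6 : (6 : k) ≠ 0) {α β : k[X]} (h : Nice α β) {f : K}
    (hf : Transcendental k f) (c : k) : 6912 * qA (aeval f α) (aeval f β) f ^ 3 ≠
      algebraMap k K c * (4 * qA (aeval f α) (aeval f β) f ^ 3 +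
        27 * qB (aeval f α) (aeval f β) f ^ 2) := by
  intro h0
  have k2 : (2 : k) ≠ 0 := fun e => h6 (by linear_combination 3 * e)
  have k3 : (3 : k) ≠ 0 := fun e => h6 (by linear_combination 2 * e)
  have h27K : (27 : K) ≠ 0 := by
    have h27 : (27 : k) ≠ 0 := by
      have : (27 : k) = 3 ^ 3 := by norm_num
      rw [this]
      exact pow_ne_zero 3 k3
    have : algebraMap k K 27 ≠ 0 := by simpa using h27
    rwa [map_ofNat] at this
  have hf0 : f ≠ 0 := by
    rintro rfl
    exact hf isAlgebraic_zero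
  rw [disc_eq] at h0
  have h1 : aeval f (C 6912 * (α ^ 3 * β ^ 3) * X + C c * (α ^ 3 - X * β ^ 3) ^ 2) = 0 := by
    simp only [map_add, map_mul, map_pow, map_sub, aeval_C, aeval_X, map_ofNat]
    unfold qA at h0
    have h2 : 27 * f ^ 2 * (6912 * (aeval f α ^ 3 * aeval f β ^ 3) * f +
        algebraMap k K c * (aeval f α ^ 3 - f * aeval f β ^ 3) ^ 2) = 0 := by
      linear_combination -h0
    exact (mul_eq_zero.1 h2).resolve_left (mul_ne_zero h27K (pow_ne_zero 2 hf0))
  have h2 : C 6912 * (α ^ 3 * β ^ 3) * X + C c * (α ^ 3 - X * β ^ 3) ^ 2 = 0 := by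
    by_contra hne
    exact hf ⟨_, hne, h1⟩
  have k6912 : (6912 : k) ≠ 0 := by
    have : (6912 : k) = 2 ^ 8 * 3 ^ 3 := by norm_num
    rw [this]
    exact mul_ne_zero (pow_ne_zero _ k2) (pow_ne_zero _ k3)
  have hab : α ^ 3 * β ^ 3 ≠ 0 := mul_ne_zero (pow_ne_zero 3 h.alpha) (pow_ne_zero 3 h.b0)
  have h3 : C 6912 * (α ^ 3 * β ^ 3) * X = -(C c * (α ^ 3 - X * β ^ 3) ^ 2) :=
    eq_neg_of_add_eq_zero_left h2
  have h5 := congrArg natDegree h3
  have hl : (C 6912 * (α ^ 3 * β ^ 3) * X : k[X]).natDegree =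
      3 * α.natDegree + 3 * β.natDegree + 1 := by
    rw [natDegree_mul_X (mul_ne_zero (C_ne_zero.2 k6912) hab), natDegree_C_mul k6912,
      natDegree_mul (pow_ne_zero 3 h.alpha) (pow_ne_zero 3 h.b0), natDegree_pow, natDegree_pow]
  rw [hl, natDegree_neg] at h5
  by_cases hc : c = 0
  · rw [hc, C_0, zero_mul, natDegree_zero] at h5
    omega
  · rw [natDegree_C_mul hc, natDegree_pow, natDegree_disc h] at h5
    rcases le_total (3 * α.natDegree) (3 * β.natDegree + 1) with h7 | h7
    · rw [max_eq_right h7] at h5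
      omega
    · rw [max_eq_left h7] at h5
      omega

end pull

section cub

/-- the field `k(w)` as an extension of `k(t)` with `t = w ^ 3` -/
def Cub (k : Type) [Field k] : Type := RatFunc k

noncomputable instance (k : Type) [Field k] : Field (Cub k) := inferInstanceAs (Field (RatFunc k))

noncomputable instance (k : Type) [Field k] : Algebra k (Cub k) :=
  inferInstanceAs (Algebra k (RatFunc k))

variable (k : Type) [Field k] [Finite k]

/-- the homomorphism with `t ↦ w ^ 3` -/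
noncomputable def cubHom : RatFunc k →ₐ[k] Cub k :=
  (exists_lift (k := k) (K := RatFunc k) (transc_X.pow (show 0 < 3 by norm_num))).choose

theorem cubHom_X : cubHom k RatFunc.X = ((RatFunc.X : RatFunc k) ^ 3 : RatFunc k) :=
  (exists_lift (k := k) (K := RatFunc k) (transc_X.pow (show 0 < 3 by norm_num))).choose_spec

noncomputable instance : Algebra (RatFunc k) (Cub k) := (cubHom k).toRingHom.toAlgebra

instance : IsScalarTower k (RatFunc k) (Cub k) :=
  IsScalarTower.of_algebraMap_eq fun x => ((cubHom k).commutes x).symm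

/-- the generator -/
noncomputable def ww : Cub k := (RatFunc.X : RatFunc k)

theorem ww_cube : ww k ^ 3 = algebraMap (RatFunc k) (Cub k) RatFunc.X := (cubHom_X k).symm

theorem ww_gen : (RatFunc k)⟮ww k⟯ = ⊤ := by
  have h1 : k⟮ww k⟯ = ⊤ := RatFunc.adjoin_X
  have h2 : k⟮ww k⟯ ≤ ((RatFunc k)⟮ww k⟯).restrictScalars k := by
    rw [IntermediateField.adjoin_simple_le_iff, IntermediateField.mem_restrictScalars]
    exact IntermediateField.mem_adjoin_simple_self _ _
  rw [h1, top_le_iff] at h2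
  rw [eq_top_iff]
  intro x _
  have : x ∈ ((RatFunc k)⟮ww k⟯).restrictScalars k := by
    rw [h2]
    exact IntermediateField.mem_top
  exact this

variable {k}

theorem ord_X_cases (v : Place k (RatFunc k)) : v.ord (RatFunc.X : RatFunc k) = 0 ∨
    ¬ (3 : ℤ) ∣ v.ord (RatFunc.X : RatFunc k) := by
  rcases lt_trichotomy (v.ord (RatFunc.X : RatFunc k)) 0 with h | h | h
  · right
    rw [inf_X h]
    norm_num
  · exact Or.inl h
  · right
    obtain ⟨v0, hv0, hv3, -, hu⟩ := TH958.T6.oneZero_irr (k := k) irreducible_X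
      (by rw [natDegree_X]; norm_num)
    have e : A (X : k[X]) = RatFunc.X := A_X
    rw [e] at hv0 hv3 hu
    rw [hu v h]
    exact hv3

theorem exists_zero : ∃ v : Place k (RatFunc k), ¬ (3 : ℤ) ∣ v.ord (RatFunc.X : RatFunc k) := by
  refine ⟨infty k, ?_⟩
  rw [TH180.R4.infty_ord]
  norm_num

theorem not_cube {m : ℕ} (hm : ¬ 3 ∣ m) {g : RatFunc k} (hg : g ≠ 0) (b : RatFunc k) :
    b ^ 3 ≠ RatFunc.X ^ m * g ^ 6 := by
  intro h
  obtain ⟨v, hv⟩ := exists_zero (k := k)
  have hX0 : (RatFunc.X : RatFunc k) ≠ 0 := RatFunc.X_ne_zero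
  have h1 := congrArg v.ord h
  rw [v.ord_pow, v.ord_mul (pow_ne_zero _ hX0) (pow_ne_zero _ hg), v.ord_pow, v.ord_pow] at h1
  push_cast at h1
  have h2 : (3 : ℤ) ∣ (m : ℤ) * v.ord (RatFunc.X : RatFunc k) :=
    ⟨v.ord b - 2 * v.ord g, by linarith⟩
  rcases Int.prime_three.dvd_mul.1 h2 with h3 | h3
  · exact hm (by exact_mod_cast h3)
  · exact hv h3

theorem finrank_cub : Module.finrank (RatFunc k) (Cub k) = 3 := by
  have hi : IsIntegral (RatFunc k) (ww k) := isIntegral_s (ww_cube k)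
  have h1 : Irreducible (X ^ 3 - C (RatFunc.X : RatFunc k)) := by
    apply X_pow_sub_C_irreducible_of_prime Nat.prime_three
    intro b hb
    apply not_cube (k := k) (m := 1) (by norm_num) one_ne_zero b
    rw [hb]
    ring
  have h2 : aeval (ww k) (X ^ 3 - C (RatFunc.X : RatFunc k)) = 0 := by
    rw [map_sub, map_pow, aeval_X, aeval_C, ww_cube, sub_self]
  have h3 := minpoly.eq_of_irreducible_of_monic h1 h2 (monic_X_pow_sub_C _ three_ne_zero)
  rw [← natDegree_of_gen hi (ww_gen k), ← h3, natDegree_X_pow_sub_C]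

/-- the cube root of `t ^ m g ^ 6` -/
theorem exists_root {m : ℕ} (hm : ¬ 3 ∣ m) {g : RatFunc k} (hg : g ≠ 0) : ∃ s : Cub k,
    s ^ 3 = algebraMap (RatFunc k) (Cub k) (RatFunc.X ^ m * g ^ 6) ∧ (RatFunc k)⟮s⟯ = ⊤ := by
  have hi : IsIntegral (RatFunc k) (ww k) := isIntegral_s (ww_cube k)
  have hfd : FiniteDimensional (RatFunc k) (Cub k) := fd_of_gen hi (ww_gen k)
  have hs : (ww k ^ m * algebraMap (RatFunc k) (Cub k) g ^ 2) ^ 3 =
      algebraMap (RatFunc k) (Cub k) (RatFunc.X ^ m * g ^ 6) := by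
    rw [map_mul, map_pow, map_pow, ← ww_cube]
    ring
  refine ⟨_, hs, gen_of_not_mem finrank_cub ?_⟩
  rintro ⟨b, hb⟩
  apply not_cube hm hg b
  apply (algebraMap (RatFunc k) (Cub k)).injective
  rw [map_pow, hb, hs]

theorem orders {m : ℕ} (hm : ¬ 3 ∣ m) {g : RatFunc k} (hg : g ≠ 0) (v : Place k (RatFunc k)) :
    (3 : ℤ) ∣ v.ord (RatFunc.X ^ m * g ^ 6) → (6 : ℤ) ∣ v.ord (RatFunc.X ^ m * g ^ 6) := by
  have hX0 : (RatFunc.X : RatFunc k) ≠ 0 := RatFunc.X_ne_zero
  rw [v.ord_mul (pow_ne_zero _ hX0) (pow_ne_zero _ hg), v.ord_pow, v.ord_pow]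
  push_cast
  intro h1
  rcases ord_X_cases v with h | h
  · rw [h, mul_zero, zero_add]
    exact dvd_mul_right _ _
  · exfalso
    have h2 : (3 : ℤ) ∣ (m : ℤ) * v.ord (RatFunc.X : RatFunc k) := by
      obtain ⟨z, hz⟩ := h1
      exact ⟨z - 2 * v.ord g, by linarith⟩
    rcases Int.prime_three.dvd_mul.1 h2 with h3 | h3
    · exact hm (by exact_mod_cast h3)
    · exact h h3

end cub

section exi

variable {k : Type} [Field k] [Finite k]

theorem exists_nonpower' {l : ℕ} (hl : l.Prime) (hl5 : 5 ≤ l) (hd : l ∣ Nat.card k - 1) :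
    ∃ u : k, u ≠ 0 ∧ ∀ b : k, b ^ l ≠ u ^ 6 := by
  obtain ⟨u, hu0, hu⟩ := TH180.R2.exists_nonpower hl hd
  refine ⟨u, hu0, fun b hb => TH180.R4.pow_nonpower hl hu0 hu (N := 6) ?_ b hb⟩
  intro h6
  have : l ≤ 6 := Nat.le_of_dvd (by norm_num) h6
  interval_cases l
  · norm_num at h6
  · norm_num at hl

/-- existence of the substitution -/
theorem exists_c {g : k[X]} (h0 : g.coeff 0 ≠ 0) {l : ℕ} (hl : l.Prime) (hl5 : 5 ≤ l)
    (hg : g.natDegree < l) (hd : l ∣ Nat.card k - 1) : ∃ c : k, c ≠ 0 ∧ ∀ j : ℕ, ∀ π : k[X],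
      Irreducible π → π ∣ g → Irreducible (π.comp (C (c ^ 6) * X ^ l ^ j)) := by
  classical
  have hl2 : l ≠ 2 := by omega
  obtain ⟨u₀, hu00, hu⟩ := exists_nonpower' hl hl5 hd
  obtain ⟨u, hu6⟩ : ∃ u : k, u = u₀ ^ 6 := ⟨_, rfl⟩
  rw [← hu6] at hu
  have hu0 : u ≠ 0 := by rw [hu6]; exact pow_ne_zero 6 hu00
  have hgne : g ≠ 0 := by
    rintro rfl
    exact h0 (coeff_zero 0)
  by_contra hcon
  push Not at hcon
  -- a bad monic factor for each exponent
  have hbad : ∀ i : ℕ, ∃ p : k[X], p.Monic ∧ Irreducible p ∧ p ∣ g ∧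
      ∃ z : k, z ^ l = (-1) ^ p.natDegree * (p.coeff 0 / (u ^ i) ^ p.natDegree) := by
    intro i
    obtain ⟨j, π, hπ, hdv, hirr⟩ := hcon (u₀ ^ i) (pow_ne_zero i hu00)
    have e6 : (u₀ ^ i) ^ 6 = u ^ i := by rw [hu6, ← pow_mul, ← pow_mul, mul_comm]
    rw [e6] at hirr
    have hlc : π.leadingCoeff ≠ 0 := leadingCoeff_ne_zero.2 hπ.ne_zero
    refine ⟨C (π.leadingCoeff⁻¹) * π, ?_, ?_, ?_, ?_⟩
    · unfold Polynomial.Monic
      rw [leadingCoeff_mul, leadingCoeff_C, inv_mul_cancel₀ hlc]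
    · exact (irreducible_isUnit_mul (isUnit_C.2 (inv_ne_zero hlc).isUnit)).2 hπ
    · exact ((isUnit_C.2 (inv_ne_zero hlc).isUnit).mul_left_dvd).2 hdv
    · by_contra hz
      push Not at hz
      apply hirr
      have h1 := TH180.R4.irr_comp hl hl2 j (pow_ne_zero i hu0)
        (p := C (π.leadingCoeff⁻¹) * π) (by
        unfold Polynomial.Monic
        rw [leadingCoeff_mul, leadingCoeff_C, inv_mul_cancel₀ hlc])
        ((irreducible_isUnit_mul (isUnit_C.2 (inv_ne_zero hlc).isUnit)).2 hπ) hz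
      rw [mul_comp, C_comp] at h1
      exact (irreducible_isUnit_mul (isUnit_C.2 (inv_ne_zero hlc).isUnit)).1 h1
  choose p hpm hpi hpd z hz using hbad
  have hne : ∀ i j : ℕ, i < j → j < l → p i ≠ p j := by
    intro i j hij hjl heq
    have h1 := hz i
    have h2 := hz j
    rw [← heq] at h2
    set d := (p i).natDegree with hdd
    have hc0 : (p i).coeff 0 ≠ 0 := by
      intro h3
      obtain ⟨q, hq⟩ := hpd i
      apply h0
      rw [hq, mul_coeff_zero, h3, zero_mul]
    have hdl : d < l := lt_of_le_of_lt (natDegree_le_of_dvd (hpd i) hgne) hg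
    have hd0 : 0 < d := (hpi i).natDegree_pos
    have hpow : (u ^ j) ^ d = (u ^ i) ^ d * u ^ ((j - i) * d) := by
      rw [← pow_mul, ← pow_mul, ← pow_add]
      congr 1
      have : j = i + (j - i) := by omega
      conv_lhs => rw [this]
      ring
    have hui : (u ^ i) ^ d ≠ 0 := pow_ne_zero _ (pow_ne_zero _ hu0)
    have huj : (u ^ j) ^ d ≠ 0 := pow_ne_zero _ (pow_ne_zero _ hu0)
    have hz2 : z j ≠ 0 := by
      intro h3
      rw [h3, zero_pow hl.ne_zero] at h2
      exact mul_ne_zero (pow_ne_zero _ (neg_ne_zero.2 one_ne_zero)) (div_ne_zero hc0 huj) h2.symm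
    refine TH180.R4.pow_nonpower hl hu0 hu (N := (j - i) * d) ?_ (z i / z j) ?_
    · intro h3
      rcases (Nat.Prime.dvd_mul hl).1 h3 with h4 | h4
      · have := Nat.le_of_dvd (by omega) h4
        omega
      · have := Nat.le_of_dvd hd0 h4
        omega
    · have hm1 : ((-1 : k)) ^ d ≠ 0 := pow_ne_zero _ (neg_ne_zero.2 one_ne_zero)
      rw [div_pow, h1, h2, div_eq_iff (mul_ne_zero hm1 (div_ne_zero hc0 huj)), hpow]
      have hx : u ^ ((j - i) * d) ≠ 0 := pow_ne_zero _ hu0
      field_simp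
  have hprod : ∏ i ∈ Finset.range l, p i ∣ g := by
    apply Finset.prod_dvd_of_coprime
    · intro i hi j hj hij
      have hi' : i < l := by simpa using hi
      have hj' : j < l := by simpa using hj
      have hne' : p i ≠ p j := by
        rcases lt_or_gt_of_ne hij with h | h
        · exact hne i j h hj'
        · exact (hne j i h hi').symm
      have h5 : ¬ p i ∣ p j := by
        intro h6
        exact hne' (eq_of_monic_of_associated (hpm i) (hpm j) ((hpi i).associated_of_dvd (hpi j) h6))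
      exact ((hpi i).coprime_iff_not_dvd).2 h5
    · exact fun i _ => hpd i
  have h7 := natDegree_le_of_dvd hprod hgne
  rw [natDegree_prod_of_monic _ _ (fun i _ => hpm i)] at h7
  have h8 : l ≤ ∑ i ∈ Finset.range l, (p i).natDegree := by
    calc l = ∑ i ∈ Finset.range l, 1 := by simp
      _ ≤ _ := Finset.sum_le_sum fun i _ => (hpi i).natDegree_pos
  omega

end exi

end Pool.Agent.R427.QC
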