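import Pool.Agent.R427.FT2
import Pool.Agent.R427.QC5

/-!
Curves with a point of order five: the bound for the order of vanishing, and weighted numbers of zeros.
-/

set_option autoImplicit false
set_option linter.all false
set_option maxHeartbeats 4000000

open Polynomial FF
open scoped Classical

namespace Pool.Agent.R427.FT

open Pool.Agent.W343.BSD Pool.Agent.H525R3.FFp
open Pool.Agent.W313.Gr (curve PointsDvd weight weightSum rootSum)
open Pool.Agent.TH639.B3 (ord_disc_zero_iff den_rm)
open Pool.Agent.TH180.R2 (zero_finite supp_finite)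
open Pool.Agent.TH180.R4 (one_zero' aeval_ne)
open Pool.Agent.W309.RF

section sum

variable {k K : Type} [Field k] [Field K] [Algebra k K]

/-- the weighted number of zeros -/
noncomputable def wSum (k : Type) {K : Type} [Field k] [Field K] [Algebra k K] (φ : ℕ → ℕ)
    (g : K) : ℕ := ∑ᶠ v : Place k K, if 0 < v.ord g then φ (S.deg v) else 0

/-- the weight of the fibres with five components -/
noncomputable def f1 (n : ℕ) : ℕ := 5 ^ padicValNat 5 n

/-- the weight of the nodes -/
noncomputable def f2 (q n : ℕ) : ℕ := if 5 ∣ q ^ n - 1 then 5 ^ padicValNat 5 n else 0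

/-- the total weight -/
noncomputable def W (k : Type) {K : Type} [Field k] [Field K] [Algebra k K] (g : K) : ℕ :=
  wSum k f1 g + wSum k f1 g⁻¹ + wSum k (f2 (Nat.card k)) (g ^ 2 - 11 * g - 1)

variable [Finite k] [FF.IsFF k K]

theorem wtSum_le {g : K} (hg : g ≠ 0) : ∑ᶠ v : Place k K, wt v g ≤ W k g := by
  unfold W wSum
  have s1 := supp_finite (k := k) g (fun v => f1 (S.deg v))
  have s2 := supp_finite (k := k) g⁻¹ (fun v => f1 (S.deg v))
  have s3 := supp_finite (k := k) (g ^ 2 - 11 * g - 1) (fun v => f2 (Nat.card k) (S.deg v))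
  have s12 : (Function.support fun v : Place k K => (if 0 < v.ord g then f1 (S.deg v) else 0) +
      (if 0 < v.ord g⁻¹ then f1 (S.deg v) else 0)).Finite := by
    refine (s1.union s2).subset ?_
    intro v hv
    rw [Function.mem_support] at hv
    by_contra h
    rw [Set.mem_union, not_or, Function.notMem_support, Function.notMem_support] at h
    exact hv (by rw [h.1, h.2, add_zero])
  have s123 : (Function.support fun v : Place k K => (if 0 < v.ord g then f1 (S.deg v) else 0) +
      (if 0 < v.ord g⁻¹ then f1 (S.deg v) else 0) +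
      (if 0 < v.ord (g ^ 2 - 11 * g - 1) then f2 (Nat.card k) (S.deg v) else 0)).Finite := by
    refine (s12.union s3).subset ?_
    intro v hv
    rw [Function.mem_support] at hv
    by_contra h
    rw [Set.mem_union, not_or, Function.notMem_support, Function.notMem_support] at h
    exact hv (by rw [h.1, h.2, add_zero])
  rw [← finsum_add_distrib s1 s2, ← finsum_add_distrib s12 s3]
  have hle : ∀ v : Place k K, wt v g ≤ (if 0 < v.ord g then f1 (S.deg v) else 0) +
      (if 0 < v.ord g⁻¹ then f1 (S.deg v) else 0) +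
      (if 0 < v.ord (g ^ 2 - 11 * g - 1) then f2 (Nat.card k) (S.deg v) else 0) := by
    intro v
    unfold wt f1 f2
    rw [v.ord_inv]
    generalize 5 ^ padicValNat 5 (S.deg v) = w
    by_cases h : v.ord g ≠ 0
    · rw [if_pos h, one_mul]
      rcases lt_or_gt_of_ne h with h1 | h1
      · rw [if_pos (show 0 < -v.ord g by omega)]
        omega
      · rw [if_pos h1]
        omega
    · rw [if_neg h]
      split_ifs with h1 h2 h3 h4 <;> first | omega | (exfalso; tauto)
  refine finsum_le_finsum' ?_ s123 hle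
  refine s123.subset ?_
  intro v hv
  rw [Function.mem_support] at hv ⊢
  have := hle v
  omega

/-- the bound -/
theorem bound (h2 : (2 : k) ≠ 0) (h3 : (3 : k) ≠ 0) (h5 : (5 : k) ≠ 0) {g : K} (hg : g ≠ 0)
    (hg2 : g ^ 2 - 11 * g - 1 ≠ 0) {P : Polynomial ℤ} (hP : IsZetaNumRel k K P)
    (hr : constDeg k K = 1) {m : ℕ} (hm : S.VanishesTo k (fA g) (fB g) m) :
    m + (if 5 ∣ Nat.card k - 1 then 4 else 2) ≤ rootSum 5 k P + W k g := by
  have : Fact (Nat.Prime 5) := ⟨Nat.prime_five⟩
  have h2K : (2 : K) ≠ 0 := by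
    have : algebraMap k K 2 ≠ 0 := by simpa using h2
    rwa [map_ofNat] at this
  have h3K : (3 : K) ≠ 0 := by
    have : algebraMap k K 3 ≠ 0 := by simpa using h3
    rwa [map_ofNat] at this
  have hΔ : 4 * fA g ^ 3 + 27 * fB g ^ 2 ≠ 0 := by
    intro h
    rcases (disc_zero_iff h2K h3K g).1 h with h | h
    · exact hg h
    · exact hg2 h
  have h5' : ((5 : ℕ) : k) ≠ 0 := by exact_mod_cast h5
  have h1 := TH943.TT.vanish_le (l := 5) h5' hΔ (dvd_good h2 h3 h5 hg hΔ) hP hr hm
  have hq := card_ne_zero_mod (k := k) h5'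
  rw [den_rm hq] at h1
  have h4 : (((Nat.card k : ℕ) : ZMod 5) = 1) ↔ 5 ∣ Nat.card k - 1 := by
    have hpos : 1 ≤ Nat.card k := Nat.card_pos
    rw [← ZMod.natCast_eq_zero_iff, Nat.cast_sub hpos, Nat.cast_one, sub_eq_zero]
  have h6 : weightSum 5 k (fA g) (fB g) ≤ W k g := by
    refine le_trans ?_ (wtSum_le (k := k) hg)
    unfold weightSum
    set B : Finset (Place k K) := (bad_finite (k := k) hΔ).toFinset with hBdef
    have hB : ∀ v, v ∈ B ↔ v.red (minDisc v (fA g) (fB g)) = 0 := by
      intro v
      rw [hBdef, Set.Finite.mem_toFinset]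
      rfl
    have hs1 : (Function.support fun v : Place k K => weight 5 v (fA g) (fB g)).Finite := by
      refine B.finite_toSet.subset ?_
      intro v hv
      rw [Function.mem_support] at hv
      rw [Finset.mem_coe, hB]
      by_contra h
      apply hv
      unfold weight
      rw [if_pos ((S.ord_disc_iff v hΔ).2 h)]
    have hs2 : (Function.support fun v : Place k K => wt v g).Finite := by
      refine ((finite_support (k := k) g).union (zero_finite (k := k) (g ^ 2 - 11 * g - 1))).subset ?_
      intro v hv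
      rw [Function.mem_support] at hv
      by_contra h
      rw [Set.mem_union, not_or] at h
      apply hv
      have e1 : ¬ v.ord g ≠ 0 := h.1
      have e2 : ¬ 0 < v.ord (g ^ 2 - 11 * g - 1) := h.2
      unfold wt
      rw [if_neg e1, if_neg (fun h => e2 h.1), zero_mul]
    exact finsum_le_finsum' hs1 hs2 (weight_le h2 h3 h5 hg hg2 hΔ)
  simp only [h4] at h1
  split_ifs at h1 ⊢ <;> omega

end sum

section mul

variable {k K : Type} [Field k] [Finite k] [Field K] [Algebra k K] [FF.IsFF k K] (φ : ℕ → ℕ)

theorem wSum_mul_le {g h : K} (hg : g ≠ 0) (hh : h ≠ 0) :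
    wSum k φ (g * h) ≤ wSum k φ g + wSum k φ h := by
  unfold wSum
  have s1 := supp_finite (k := k) g (fun v => φ (S.deg v))
  have s2 := supp_finite (k := k) h (fun v => φ (S.deg v))
  rw [← finsum_add_distrib s1 s2]
  have hle : ∀ v : Place k K, (if 0 < v.ord (g * h) then φ (S.deg v) else 0) ≤
      (if 0 < v.ord g then φ (S.deg v) else 0) + (if 0 < v.ord h then φ (S.deg v) else 0) := by
    intro v
    rw [v.ord_mul hg hh]
    generalize φ (S.deg v) = w
    split_ifs <;> omega
  have hfin : (Function.support fun v : Place k K => (if 0 < v.ord g then φ (S.deg v) else 0) +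
      (if 0 < v.ord h then φ (S.deg v) else 0)).Finite := by
    refine (s1.union s2).subset ?_
    intro v hv
    rw [Function.mem_support] at hv
    by_contra h
    rw [Set.mem_union, not_or, Function.notMem_support, Function.notMem_support] at h
    exact hv (by rw [h.1, h.2, add_zero])
  exact finsum_le_finsum' (supp_finite (k := k) _ _) hfin hle

theorem wSum_zero {g : K} (h : ∀ v : Place k K, 0 < v.ord g → φ (S.deg v) = 0) :
    wSum k φ g = 0 := by
  unfold wSum
  apply finsum_eq_zero_of_forall_eq_zero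
  intro v
  split_ifs with h1
  · exact h v h1
  · rfl

/-- a function with a single zero -/
theorem wSum_single {g : K} (w : Place k K) (h : ∀ v : Place k K, 0 < v.ord g → v = w) :
    wSum k φ g ≤ φ (S.deg w) := by
  unfold wSum
  rw [finsum_eq_single _ w]
  · split_ifs
    · exact le_refl _
    · exact Nat.zero_le _
  · intro v hv
    rw [if_neg]
    intro h1
    exact hv (h v h1)

end mul

section rat

variable {k : Type} [Field k] [Finite k] (φ : ℕ → ℕ)

theorem wSum_irr {P : k[X]} (hP : Irreducible P) : wSum k φ (A P) ≤ φ P.natDegree := by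
  obtain ⟨v, h1, h2, h3⟩ := one_zero' hP
  rw [← h2]
  exact wSum_single φ v h3

theorem wSum_unit {P : k[X]} (hP : IsUnit P) : wSum k φ (A P) = 0 := by
  obtain ⟨c, hc, rfl⟩ := Polynomial.isUnit_iff.1 hP
  apply wSum_zero
  intro v hv
  have e : A (C c) = algebraMap k (RatFunc k) c := rfl
  rw [e, v.ord_const hc.ne_zero] at hv
  exact absurd hv (lt_irrefl 0)

/-- the zeros of a substituted polynomial -/
theorem wSum_comp {m : k[X]} (hm : 0 < m.natDegree) (N : ℕ) (g : k[X]) : g ≠ 0 →
    (∀ π : k[X], Irreducible π → π ∣ g → Irreducible (π.comp m) ∧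
      N * φ (π.natDegree * m.natDegree) ≤ π.natDegree) →
    N * wSum k φ (A (g.comp m)) ≤ g.natDegree := by
  have hcn : ∀ g : k[X], g ≠ 0 → g.comp m ≠ 0 := by
    intro g hg h
    rcases comp_eq_zero_iff.1 h with h | ⟨-, h⟩
    · exact hg h
    · rw [h, natDegree_C] at hm
      exact absurd hm (lt_irrefl 0)
  induction g using UniqueFactorizationMonoid.induction_on_prime with
  | h₁ => exact fun h => absurd rfl h
  | h₂ x hx =>
    intro _ _
    obtain ⟨c, hc, rfl⟩ := Polynomial.isUnit_iff.1 hx
    rw [C_comp, wSum_unit _ (Polynomial.isUnit_C.2 hc), mul_zero]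
    exact Nat.zero_le _
  | h₃ a p ha hp ih =>
    intro h0 h
    obtain ⟨hi, hN⟩ := h p hp.irreducible (dvd_mul_right _ _)
    have h1 := ih ha (fun π h1 h2 => h π h1 (h2.mul_left p))
    have e : A ((p * a).comp m) = A (p.comp m) * A (a.comp m) := by
      rw [mul_comp]
      exact map_mul _ _ _
    rw [e, natDegree_mul hp.ne_zero ha]
    have h2 := wSum_mul_le (k := k) φ (A_ne (hcn p hp.ne_zero)) (A_ne (hcn a ha))
    have h3 := wSum_irr φ hi
    rw [natDegree_comp] at h3
    calc N * wSum k φ (A (p.comp m) * A (a.comp m)) ≤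
        N * (wSum k φ (A (p.comp m)) + wSum k φ (A (a.comp m))) := Nat.mul_le_mul_left _ h2
      _ = N * wSum k φ (A (p.comp m)) + N * wSum k φ (A (a.comp m)) := by ring
      _ ≤ N * φ (p.natDegree * m.natDegree) + a.natDegree :=
          add_le_add (Nat.mul_le_mul_left _ h3) h1
      _ ≤ _ := by omega

/-- the poles of a polynomial -/
theorem wSum_pole (m : k[X]) : wSum k φ (A m)⁻¹ ≤ φ 1 := by
  have h1 : S.deg (infty k) = 1 := by rw [S.deg_eq, inf_deg infty_X]
  rw [← h1]
  apply wSum_single
  intro v hv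
  by_contra h
  have h0 := fin_of_ne h
  by_cases hm : m = 0
  · rw [hm] at hv
    have e : A (0 : k[X]) = 0 := map_zero _
    rw [e, inv_zero, v.ord_zero] at hv
    exact lt_irrefl _ hv
  · have := (v.reg_iff (A_ne hm)).1 (fin_reg h0 m)
    rw [v.ord_inv] at hv
    omega

/-- the zeros of a monomial -/
theorem wSum_mono {c : k} (hc : c ≠ 0) (n : ℕ) : wSum k φ (A (C c * X ^ n)) ≤ φ 1 := by
  obtain ⟨w, h1, h2, h3⟩ := one_zero' (irreducible_X (R := k))
  rw [natDegree_X] at h2
  rw [← h2]
  apply wSum_single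
  intro v hv
  apply h3
  have e : A (C c * X ^ n) = algebraMap k (RatFunc k) c * A (X : k[X]) ^ n := by
    show algebraMap k[X] (RatFunc k) (C c * X ^ n) = _
    rw [map_mul, map_pow]
    rfl
  rw [e, v.ord_mul ((_root_.map_ne_zero _).2 hc) (pow_ne_zero _ (A_ne X_ne_zero)), v.ord_const hc,
    v.ord_pow, zero_add] at hv
  by_contra h
  push Not at h
  have : (n : ℤ) * v.ord (A (X : k[X])) ≤ 0 := mul_nonpos_of_nonneg_of_nonpos (by positivity) h
  omega

end rat

end Pool.Agent.R427.FT
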