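import Pool.Agent.R427.FT3

/-!
Curves with a point of order five: the nodes of the pull-backs by monomials.
-/

set_option autoImplicit false
set_option linter.all false
set_option maxHeartbeats 4000000

open Polynomial FF
open scoped Classical

namespace Pool.Agent.R427.FT

open Pool.Agent.W343.BSD Pool.Agent.H525R3.FFp
open Pool.Agent.W309.RF

section frob

/-- the roots of `x ^ 2 - 11 x - 1` are fixed by a Frobenius which is `-1` modulo five -/
theorem frob_fix {L : Type} [Field L] {p M : ℕ} [Fact p.Prime] [CharP L p] (h5 : (5 : L) ≠ 0)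
    (hQ : 5 ∣ p ^ M + 1) {β : L} (hβ : β ^ 2 - 11 * β - 1 = 0) : β ^ p ^ M = β := by
  set Ω := AlgebraicClosure L
  haveI : CharP Ω p := charP_of_injective_algebraMap (algebraMap L Ω).injective p
  have h5' : ((5 : ℕ) : Ω) ≠ 0 := by
    have := (_root_.map_ne_zero (algebraMap L Ω)).2 h5
    rw [map_ofNat] at this
    exact_mod_cast this
  haveI : NeZero ((5 : ℕ) : Ω) := ⟨h5'⟩
  obtain ⟨ζ, hζ⟩ := HasEnoughRootsOfUnity.exists_primitiveRoot Ω 5
  have hz5 : ζ ^ 5 = 1 := hζ.pow_eq_one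
  have hz1 : ζ ≠ 1 := hζ.ne_one (by norm_num)
  have hsum : ζ ^ 4 + ζ ^ 3 + ζ ^ 2 + ζ + 1 = 0 := by
    have h1 : (ζ - 1) * (ζ ^ 4 + ζ ^ 3 + ζ ^ 2 + ζ + 1) = 0 := by linear_combination hz5
    exact (mul_eq_zero.1 h1).resolve_left (sub_ne_zero.2 hz1)
  obtain ⟨s, hs⟩ : ∃ s : Ω, s = ζ + ζ ^ 4 := ⟨_, rfl⟩
  have hs2 : s ^ 2 + s - 1 = 0 := by
    rw [hs]
    linear_combination hsum + (2 + ζ ^ 3) * hz5
  have hsQ : s ^ p ^ M = s := by
    rw [hs, add_pow_char_pow]
    obtain ⟨a, ha⟩ := hQ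
    have ha1 : 1 ≤ a := by
      by_contra h
      have : a = 0 := by omega
      omega
    obtain ⟨a, rfl⟩ : ∃ a', a = a' + 1 := ⟨a - 1, by omega⟩
    have e : p ^ M = 5 * a + 4 := by omega
    have e1 : ζ ^ p ^ M = ζ ^ 4 := by
      rw [e, pow_add, pow_mul, hz5, one_pow, one_mul]
    have e2 : (ζ ^ 4) ^ p ^ M = ζ := by
      rw [← pow_mul, mul_comm, pow_mul, e1, ← pow_mul]
      calc ζ ^ (4 * 4) = (ζ ^ 5) ^ 3 * ζ := by ring
        _ = ζ := by rw [hz5, one_pow, one_mul]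
    rw [e1, e2]
    ring
  apply (algebraMap L Ω).injective
  rw [map_pow]
  set b := algebraMap L Ω β with hb
  have hb2 : b ^ 2 - 11 * b - 1 = 0 := by
    have := congrArg (algebraMap L Ω) hβ
    rw [map_sub, map_sub, map_mul, map_pow, map_one, map_zero, map_ofNat] at this
    exact this
  have hσ : ∀ x : Ω, iterateFrobenius Ω p M x = x ^ p ^ M := fun x => by
    rw [iterateFrobenius_def]
  have h1 : (b - (3 - 5 * s)) * (b - (8 + 5 * s)) = 0 := by
    linear_combination hb2 - 25 * hs2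
  rw [← hσ] at hsQ ⊢
  rcases mul_eq_zero.1 h1 with h | h
  · have e : b = 3 - 5 * s := sub_eq_zero.1 h
    rw [e, map_sub, map_mul, hsQ, map_ofNat, map_ofNat]
  · have e : b = 8 + 5 * s := sub_eq_zero.1 h
    rw [e, map_add, map_mul, hsQ, map_ofNat, map_ofNat]

theorem geom_dvd {Q m : ℕ} (hQ : 1 ≤ Q) (h : m ∣ Q - 1) : m * (Q - 1) ∣ Q ^ m - 1 := by
  have e : Q ^ m - 1 = (∑ i ∈ Finset.range m, Q ^ i) * (Q - 1) := by
    have h1 := Nat.geomSum_eq (m := Q)
    zify [hQ, Nat.one_le_pow m Q hQ]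
    rw [geom_sum_mul]
  rw [e]
  apply Nat.mul_dvd_mul_right
  have hmod : Q ≡ 1 [MOD m] := ((Nat.modEq_iff_dvd' hQ).2 h).symm
  have : ∑ i ∈ Finset.range m, Q ^ i ≡ m [MOD m] := by
    calc ∑ i ∈ Finset.range m, Q ^ i ≡ ∑ i ∈ Finset.range m, 1 [MOD m] := by
          apply Nat.ModEq.sum
          intro i _
          have := hmod.pow i
          rwa [one_pow] at this
      _ = m := by simp
  exact (Nat.modEq_zero_iff_dvd).1 (this.trans (Nat.modEq_zero_iff_dvd.2 (dvd_refl m)))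

end frob

section node

variable {k : Type} [Field k] [Finite k]

/-- the degrees of the nodes -/
theorem node_deg (h5 : (5 : k) ≠ 0) {c : k} (hc : c ≠ 0) {m N : ℕ} (hm : Odd m)
    (hN : m ∣ Nat.card k ^ N - 1) (hN5 : 5 ∣ Nat.card k ^ N + 1) {π : k[X]} (hπ : Irreducible π)
    (hd : π ∣ (X ^ 2 - 11 * X - 1 : k[X]).comp (C c * X ^ m)) :
    ¬ 5 ∣ Nat.card k ^ π.natDegree - 1 := by
  have hm0 : 0 < m := hm.pos
  have hQ1 : 1 ≤ Nat.card k ^ N := Nat.one_le_pow _ _ Nat.card_pos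
  haveI : Fact (Irreducible π) := ⟨hπ⟩
  set L := AdjoinRoot π
  set τ : L := AdjoinRoot.root π with hτ
  have hroot : ∀ P : k[X], π ∣ P → aeval τ P = 0 := by
    intro P hP
    rw [hτ, AdjoinRoot.aeval_eq]
    exact AdjoinRoot.mk_eq_zero.2 hP
  have h1 := hroot _ hd
  rw [aeval_comp, aeval_quad, map_mul, map_pow, aeval_C, aeval_X] at h1
  obtain ⟨p, hp⟩ := CharP.exists k
  have hpp : p.Prime := by
    rcases CharP.char_is_prime_or_zero k p with h | h
    · exact h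
    · subst h
      exact absurd (CharP.cast_eq_zero_iff k 0) (by
        haveI := hp
        haveI : CharZero k := CharP.charP_to_charZero k
        exact (not_finite k).elim)
  haveI : Fact p.Prime := ⟨hpp⟩
  haveI : CharP L p := charP_of_injective_algebraMap (algebraMap k L).injective p
  letI : Fintype k := Fintype.ofFinite k
  obtain ⟨n, -, hn⟩ := FiniteField.card k p
  have hcard : Nat.card k = p ^ (n : ℕ) := by rw [Nat.card_eq_fintype_card, hn]
  have hQ : Nat.card k ^ N = p ^ (n * N) := by rw [hcard, ← pow_mul]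
  have h5L : (5 : L) ≠ 0 := by
    have := (_root_.map_ne_zero (algebraMap k L)).2 h5
    rwa [map_ofNat] at this
  have hβQ : (algebraMap k L c * τ ^ m) ^ (Nat.card k ^ N) = algebraMap k L c * τ ^ m := by
    rw [hQ]
    exact frob_fix h5L (by rw [← hQ]; exact hN5) h1
  have hcQ : (algebraMap k L c) ^ (Nat.card k ^ N) = algebraMap k L c := by
    rw [← map_pow, Nat.card_eq_fintype_card, FiniteField.pow_card_pow]
  have hc' : algebraMap k L c ≠ 0 := (_root_.map_ne_zero _).2 hc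
  have hτ0 : τ ≠ 0 := by
    intro h0
    rw [h0, zero_pow hm0.ne', mul_zero] at h1
    apply one_ne_zero (α := L)
    linear_combination -h1
  have hτm : (τ ^ m) ^ (Nat.card k ^ N) = τ ^ m := by
    rw [mul_pow, hcQ] at hβQ
    exact mul_left_cancel₀ hc' hβQ
  have hτ1 : τ ^ (m * (Nat.card k ^ N - 1)) = 1 := by
    have h2 : τ ^ m * τ ^ (m * (Nat.card k ^ N - 1)) = τ ^ m * 1 := by
      rw [← pow_add, mul_one]
      have e : m + m * (Nat.card k ^ N - 1) = m * Nat.card k ^ N := by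
        obtain ⟨r, hr⟩ : ∃ r, Nat.card k ^ N = r + 1 := ⟨_, (Nat.sub_add_cancel hQ1).symm⟩
        rw [hr, Nat.add_sub_cancel]
        ring
      rw [e, pow_mul]
      exact hτm
    exact mul_left_cancel₀ (pow_ne_zero m hτ0) h2
  have hfin : τ ^ (Nat.card k ^ (N * m)) = τ := by
    have h3 : τ ^ ((Nat.card k ^ N) ^ m - 1) = 1 := by
      obtain ⟨e, he⟩ := geom_dvd hQ1 hN
      rw [he, pow_mul, hτ1, one_pow]
    have hc1 : 1 ≤ (Nat.card k ^ N) ^ m := Nat.one_le_pow _ _ hQ1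
    rw [pow_mul]
    calc τ ^ ((Nat.card k ^ N) ^ m) = τ ^ ((Nat.card k ^ N) ^ m - 1 + 1) := by
          rw [Nat.sub_add_cancel hc1]
      _ = τ := by rw [pow_succ, h3, one_mul]
  have hdeg : π.natDegree ∣ N * m := by
    apply hπ.natDegree_dvd_of_dvd_X_pow_card_pow_sub_X
    have h4 : aeval τ (X ^ Nat.card k ^ (N * m) - X : k[X]) = 0 := by
      rw [map_sub, map_pow, aeval_X, hfin, sub_self]
    rw [hτ, AdjoinRoot.aeval_eq] at h4
    exact AdjoinRoot.mk_eq_zero.1 h4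
  intro h
  obtain ⟨e, he⟩ := hdeg
  have hc2 : 1 ≤ Nat.card k ^ π.natDegree := Nat.one_le_pow _ _ Nat.card_pos
  have m1 : Nat.card k ^ π.natDegree ≡ 1 [MOD 5] := ((Nat.modEq_iff_dvd' hc2).2 h).symm
  have m2 : Nat.card k ^ (N * m) ≡ 1 [MOD 5] := by
    rw [he, pow_mul]
    have := m1.pow e
    rwa [one_pow] at this
  have m3 : Nat.card k ^ N ≡ 4 [MOD 5] := by
    unfold Nat.ModEq
    omega
  have m4 : Nat.card k ^ (N * m) ≡ 4 [MOD 5] := by
    rw [pow_mul]
    refine (m3.pow m).trans ?_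
    obtain ⟨r, rfl⟩ := hm
    rw [pow_succ, pow_mul]
    have : (4 ^ 2 : ℕ) ≡ 1 [MOD 5] := by decide
    have h6 := (this.pow r).mul_right 4
    rwa [one_pow, one_mul] at h6
  have := m2.symm.trans m4
  revert this
  decide

/-- no node counts -/
theorem nodes_zero (h5 : (5 : k) ≠ 0) {c : k} (hc : c ≠ 0) {m N : ℕ} (hm : Odd m)
    (hN : m ∣ Nat.card k ^ N - 1) (hN5 : 5 ∣ Nat.card k ^ N + 1) :
    wSum k (f2 (Nat.card k)) (A ((X ^ 2 - 11 * X - 1 : k[X]).comp (C c * X ^ m))) = 0 := by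
  apply wSum_zero
  intro v hv
  have hm0 : 0 < m := hm.pos
  have hP : (X ^ 2 - 11 * X - 1 : k[X]).comp (C c * X ^ m) ≠ 0 := by
    intro h
    rw [h] at hv
    have e : A (0 : k[X]) = 0 := map_zero _
    rw [e, v.ord_zero] at hv
    exact lt_irrefl _ hv
  have hfin : 0 ≤ v.ord RatFunc.X := by
    by_contra h
    push Not at h
    rw [inf_ord' h hP] at hv
    omega
  obtain ⟨π, hmon, hirr, -, -, hdvd, hdeg⟩ := fin_exists hfin
  have h1 := node_deg h5 hc hm hN hN5 hirr ((hdvd _ hP).1 hv)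
  unfold f2
  rw [S.deg_eq, hdeg, if_neg h1]

theorem A_comp_quad (m : k[X]) : A ((X ^ 2 - 11 * X - 1 : k[X]).comp m) =
    A m ^ 2 - 11 * A m - 1 := by
  show algebraMap k[X] (RatFunc k) _ = algebraMap k[X] (RatFunc k) m ^ 2 -
    11 * algebraMap k[X] (RatFunc k) m - 1
  have e : (X ^ 2 - 11 * X - 1 : k[X]).comp m = m ^ 2 - 11 * m - 1 := by
    simp only [sub_comp, mul_comp, pow_comp, X_comp, one_comp, ofNat_comp]
    norm_num
  rw [e]
  simp only [map_sub, map_mul, map_pow, map_one, map_ofNat]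

theorem f1_one : f1 1 = 1 := by
  unfold f1
  rw [padicValNat.one, pow_zero]

/-- the weight of the pull-back by a monomial, for `q` not congruent to `1` modulo five -/
theorem W_mono (h5 : (5 : k) ≠ 0) {c : k} (hc : c ≠ 0) {m N : ℕ} (hm : Odd m)
    (hN : m ∣ Nat.card k ^ N - 1) (hN5 : 5 ∣ Nat.card k ^ N + 1) :
    W k (A (C c * X ^ m)) ≤ 2 := by
  unfold W
  have h1 := wSum_mono (k := k) f1 hc m
  have h2 := wSum_pole (k := k) f1 (C c * X ^ m)
  have h3 := nodes_zero h5 hc hm hN hN5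
  rw [A_comp_quad] at h3
  rw [f1_one] at h1 h2
  omega

theorem padic_mul {a l j : ℕ} (ha : a ≠ 0) (hl : l.Prime) (hl5 : l ≠ 5) :
    padicValNat 5 (a * l ^ j) = padicValNat 5 a := by
  haveI : Fact (Nat.Prime 5) := ⟨Nat.prime_five⟩
  rw [padicValNat.mul ha (pow_ne_zero _ hl.ne_zero), padicValNat.eq_zero_of_not_dvd (n := l ^ j)]
  · rw [add_zero]
  · intro h
    have h1 := Nat.prime_five.dvd_of_dvd_pow h
    exact hl5 ((Nat.prime_dvd_prime_iff_eq Nat.prime_five hl).1 h1).symm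

theorem five_pow_le {n : ℕ} (hn : 0 < n) : 5 ^ padicValNat 5 n ≤ n :=
  Nat.le_of_dvd hn pow_padicValNat_dvd

/-- the weight of the pull-backs by suitable monomials -/
theorem exists_W {l : ℕ} (hl : l.Prime) (hl3 : 3 ≤ l) (hl5 : l ≠ 5) (hd : l ∣ Nat.card k - 1) :
    ∃ c : k, c ≠ 0 ∧ ∀ j : ℕ, W k (A (C c * X ^ l ^ j)) ≤ 4 := by
  have hdeg : (X ^ 2 - 11 * X - 1 : k[X]).natDegree = 2 := by compute_degree!
  have h0 : (X ^ 2 - 11 * X - 1 : k[X]).coeff 0 ≠ 0 := by
    rw [coeff_zero_eq_eval_zero]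
    simp
  obtain ⟨c, hc, hirr⟩ := TH180.R4.exists_c h0 hl (by omega) (by rw [hdeg]; omega) hd
  refine ⟨c, hc, fun j => ?_⟩
  have hmd : (C c * X ^ l ^ j : k[X]).natDegree = l ^ j := natDegree_C_mul_X_pow _ _ hc
  have hne : (X ^ 2 - 11 * X - 1 : k[X]) ≠ 0 := by
    intro h
    rw [h, natDegree_zero] at hdeg
    omega
  have h3 := wSum_comp (k := k) (f2 (Nat.card k)) (m := C c * X ^ l ^ j)
    (by rw [hmd]; exact pow_pos hl.pos j) 1 _ hne (by
      intro π hπ hdv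
      refine ⟨hirr j π hπ hdv, ?_⟩
      rw [hmd, one_mul]
      unfold f2
      split_ifs
      · rw [padic_mul hπ.natDegree_pos.ne' hl hl5]
        exact five_pow_le hπ.natDegree_pos
      · exact Nat.zero_le _)
  rw [one_mul, hdeg, A_comp_quad] at h3
  unfold W
  have h1 := wSum_mono (k := k) f1 hc (l ^ j)
  have h2 := wSum_pole (k := k) f1 (C c * X ^ l ^ j)
  rw [f1_one] at h1 h2
  omega

end node

end Pool.Agent.R427.FT
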