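import Pool.Agent.R427.FT4

/-!
Curves with a point of order five: two families of positive rank.
-/

set_option autoImplicit false
set_option linter.all false
set_option maxHeartbeats 4000000

open Polynomial FF WeierstrassCurve WeierstrassCurve.Affine
open scoped Classical

namespace Pool.Agent.R427.FT

open Pool.Agent.W343.BSD Pool.Agent.H525R3.FFp Pool.Agent.H123R3.ZT
open Pool.Agent.W309.RF
open Pool.Agent.W313.Gr (curve rank rank_mono)
open Pool.Agent.TH639.B3 (sm_reg sm_pow)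
open Pool.Agent.R427.PC (indep_of_not_two no_two half_eq delta_ne)

section quartic

variable {k K : Type} [Field k] [Field K] [Algebra k K] {v : Place k K}

theorem dom {T R : K} (hT : T ≠ 0) (hR : Sm v (v.ord T + 1) R) : T + R ≠ 0 := by
  intro h
  have e : R = -T := by linear_combination h
  rcases hR with h1 | h1
  · apply hT
    rw [h1] at e
    exact neg_eq_zero.1 e.symm
  · rw [e, v.ord_neg] at h1
    omega

theorem smn {N : ℤ} {x : K} (n : ℕ) (h : Sm v N x) : Sm v N ((n : K) * x) := by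
  have := sm_mul v (sm_reg (v := v) (reg_nat n)) h
  rwa [zero_add] at this

/-- the quartic of a point which specializes to the node -/
theorem quart_A (h12 : v.ord (12 : K) = 0) (h120 : (12 : K) ≠ 0) {g ρ F : K} (hg : Sm v (-2) g)
    (hρ : ρ ≠ 0) (oρ : v.ord ρ = -4) (hF : F ≠ 0) (oF : v.ord F = -2) (h : K) :
    (h ^ 2 - g) ^ 2 - (8 * h + 12 * ρ) * F ≠ 0 := by
  have sρ : Sm v (-4) ρ := Or.inr oρ.ge
  have sF : Sm v (-2) F := Or.inr oF.ge
  by_cases hs : h = 0 ∨ -1 ≤ v.ord h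
  · have sh : Sm v (-1) h := hs
    have e : (h ^ 2 - g) ^ 2 - (8 * h + 12 * ρ) * F =
        -(12 * (ρ * F)) + (h ^ 4 + (-(((2 : ℕ) : K) * (g * h ^ 2)) + (g ^ 2 +
          -(((8 : ℕ) : K) * (h * F))))) := by
      push_cast; ring
    rw [e]
    have hT : -(12 * (ρ * F)) ≠ 0 := neg_ne_zero.2 (mul_ne_zero h120 (mul_ne_zero hρ hF))
    have oT : v.ord (-(12 * (ρ * F))) = -6 := by
      rw [v.ord_neg, v.ord_mul h120 (mul_ne_zero hρ hF), h12, v.ord_mul hρ hF, oρ, oF]
      norm_num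
    apply dom (v := v) hT
    rw [oT]
    have t1 : Sm v (-6 + 1) (h ^ 4) := sm_mono v (by norm_num) (sm_pow sh 4)
    have t2 : Sm v (-6 + 1) (-(((2 : ℕ) : K) * (g * h ^ 2))) :=
      sm_neg v (smn 2 (sm_mono v (by norm_num) (sm_mul v hg (sm_pow sh 2))))
    have t3 : Sm v (-6 + 1) (g ^ 2) := sm_mono v (by norm_num) (sm_pow hg 2)
    have t4 : Sm v (-6 + 1) (-(((8 : ℕ) : K) * (h * F))) :=
      sm_neg v (smn 8 (sm_mono v (by norm_num) (sm_mul v sh sF)))
    exact sm_add v t1 (sm_add v t2 (sm_add v t3 t4))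
  · push Not at hs
    obtain ⟨h0, hs⟩ := hs
    set s := v.ord h with hsd
    have sh : Sm v s h := Or.inr le_rfl
    have e : (h ^ 2 - g) ^ 2 - (8 * h + 12 * ρ) * F =
        h ^ 4 + (-(((12 : ℕ) : K) * (ρ * F)) + (-(((2 : ℕ) : K) * (g * h ^ 2)) + (g ^ 2 +
          -(((8 : ℕ) : K) * (h * F))))) := by
      push_cast; ring
    rw [e]
    have oT : v.ord (h ^ 4) = 4 * s := by rw [v.ord_pow, ← hsd]; norm_num
    apply dom (v := v) (pow_ne_zero 4 h0)
    rw [oT]
    have t1 : Sm v (4 * s + 1) (-(((12 : ℕ) : K) * (ρ * F))) :=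
      sm_neg v (smn 12 (sm_mono v (by omega) (sm_mul v sρ sF)))
    have t2 : Sm v (4 * s + 1) (-(((2 : ℕ) : K) * (g * h ^ 2))) :=
      sm_neg v (smn 2 (sm_mono v (by push_cast; omega) (sm_mul v hg (sm_pow sh 2))))
    have t3 : Sm v (4 * s + 1) (g ^ 2) := sm_mono v (by push_cast; omega) (sm_pow hg 2)
    have t4 : Sm v (4 * s + 1) (-(((8 : ℕ) : K) * (h * F))) :=
      sm_neg v (smn 8 (sm_mono v (by omega) (sm_mul v sh sF)))
    exact sm_add v t1 (sm_add v t2 (sm_add v t3 t4))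

theorem sm8 {N : ℤ} {a b c d e f g h : K} (ha : Sm v N a) (hb : Sm v N b) (hc : Sm v N c)
    (hd : Sm v N d) (he : Sm v N e) (hf : Sm v N f) (hg : Sm v N g) (hh : Sm v N h) :
    Sm v N (a + (b + (c + (d + (e + (f + (g + h))))))) :=
  sm_add v ha (sm_add v hb (sm_add v hc (sm_add v hd (sm_add v he (sm_add v hf (sm_add v hg hh))))))

/-- the quartic of a point on an odd component -/
theorem quart_B (h12 : v.ord (12 : K) = 0) (h120 : (12 : K) ≠ 0) {g ρ F ξ : K} (hg : Sm v (-2) g)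
    (hρ : ρ ≠ 0) (oρ : v.ord ρ = -4) (hF : F ≠ 0) (oF : v.ord F = -2) (hξ : ξ ≠ 0)
    (oξ : v.ord ξ = -1) (h : K) :
    (h ^ 2 - g) ^ 2 - (8 * h + 12 * ρ) * F - 4 * ξ * (F + g * h + 3 * ρ * h ^ 2 + h ^ 3) ≠ 0 := by
  have sρ : Sm v (-4) ρ := Or.inr oρ.ge
  have sF : Sm v (-2) F := Or.inr oF.ge
  have sξ : Sm v (-1) ξ := Or.inr oξ.ge
  by_cases hs : h = 0 ∨ 0 ≤ v.ord h
  · have sh : Sm v 0 h := hs
    have e : (h ^ 2 - g) ^ 2 - (8 * h + 12 * ρ) * F -
        4 * ξ * (F + g * h + 3 * ρ * h ^ 2 + h ^ 3) =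
        -(12 * (ρ * F)) + (h ^ 4 + (-(((2 : ℕ) : K) * (g * h ^ 2)) + (g ^ 2 +
          (-(((8 : ℕ) : K) * (h * F)) + (-(((4 : ℕ) : K) * (ξ * F)) +
          (-(((4 : ℕ) : K) * (ξ * (g * h))) + (-(((12 : ℕ) : K) * (ξ * (ρ * h ^ 2))) +
          -(((4 : ℕ) : K) * (ξ * h ^ 3)))))))) ) := by
      push_cast; ring
    rw [e]
    have hT : -(12 * (ρ * F)) ≠ 0 := neg_ne_zero.2 (mul_ne_zero h120 (mul_ne_zero hρ hF))
    have oT : v.ord (-(12 * (ρ * F))) = -6 := by
      rw [v.ord_neg, v.ord_mul h120 (mul_ne_zero hρ hF), h12, v.ord_mul hρ hF, oρ, oF]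
      norm_num
    apply dom (v := v) hT
    rw [oT]
    exact sm8 (sm_mono v (by norm_num) (sm_pow sh 4))
      (sm_neg v (smn 2 (sm_mono v (by norm_num) (sm_mul v hg (sm_pow sh 2)))))
      (sm_mono v (by norm_num) (sm_pow hg 2))
      (sm_neg v (smn 8 (sm_mono v (by norm_num) (sm_mul v sh sF))))
      (sm_neg v (smn 4 (sm_mono v (by norm_num) (sm_mul v sξ sF))))
      (sm_neg v (smn 4 (sm_mono v (by norm_num) (sm_mul v sξ (sm_mul v hg sh)))))
      (sm_neg v (smn 12 (sm_mono v (by norm_num) (sm_mul v sξ (sm_mul v sρ (sm_pow sh 2))))))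
      (sm_neg v (smn 4 (sm_mono v (by norm_num) (sm_mul v sξ (sm_pow sh 3)))))
  · push Not at hs
    obtain ⟨h0, hs⟩ := hs
    set s := v.ord h with hsd
    have sh : Sm v s h := Or.inr le_rfl
    by_cases h3 : s ≤ -3
    · have e : (h ^ 2 - g) ^ 2 - (8 * h + 12 * ρ) * F -
          4 * ξ * (F + g * h + 3 * ρ * h ^ 2 + h ^ 3) =
          h ^ 4 + (-(((12 : ℕ) : K) * (ρ * F)) + (-(((2 : ℕ) : K) * (g * h ^ 2)) + (g ^ 2 +
            (-(((8 : ℕ) : K) * (h * F)) + (-(((4 : ℕ) : K) * (ξ * F)) +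
            (-(((4 : ℕ) : K) * (ξ * (g * h))) + (-(((12 : ℕ) : K) * (ξ * (ρ * h ^ 2))) +
            -(((4 : ℕ) : K) * (ξ * h ^ 3)))))))) ) := by
        push_cast; ring
      rw [e]
      have oT : v.ord (h ^ 4) = 4 * s := by rw [v.ord_pow, ← hsd]; norm_num
      apply dom (v := v) (pow_ne_zero 4 h0)
      rw [oT]
      exact sm8 (sm_neg v (smn 12 (sm_mono v (by omega) (sm_mul v sρ sF))))
        (sm_neg v (smn 2 (sm_mono v (by push_cast; omega) (sm_mul v hg (sm_pow sh 2)))))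
        (sm_mono v (by push_cast; omega) (sm_pow hg 2))
        (sm_neg v (smn 8 (sm_mono v (by omega) (sm_mul v sh sF))))
        (sm_neg v (smn 4 (sm_mono v (by omega) (sm_mul v sξ sF))))
        (sm_neg v (smn 4 (sm_mono v (by omega) (sm_mul v sξ (sm_mul v hg sh)))))
        (sm_neg v (smn 12 (sm_mono v (by push_cast; omega)
          (sm_mul v sξ (sm_mul v sρ (sm_pow sh 2))))))
        (sm_neg v (smn 4 (sm_mono v (by push_cast; omega) (sm_mul v sξ (sm_pow sh 3)))))
    · have e : (h ^ 2 - g) ^ 2 - (8 * h + 12 * ρ) * F -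
          4 * ξ * (F + g * h + 3 * ρ * h ^ 2 + h ^ 3) =
          -(12 * (ξ * (ρ * h ^ 2))) + (h ^ 4 + (-(((2 : ℕ) : K) * (g * h ^ 2)) + (g ^ 2 +
            (-(((8 : ℕ) : K) * (h * F)) + (-(((4 : ℕ) : K) * (ξ * F)) +
            (-(((4 : ℕ) : K) * (ξ * (g * h))) + (-(((12 : ℕ) : K) * (ρ * F)) +
            -(((4 : ℕ) : K) * (ξ * h ^ 3)))))))) ) := by
        push_cast; ring
      rw [e]
      have hT' : ξ * (ρ * h ^ 2) ≠ 0 := mul_ne_zero hξ (mul_ne_zero hρ (pow_ne_zero 2 h0))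
      have hT : -(12 * (ξ * (ρ * h ^ 2))) ≠ 0 := neg_ne_zero.2 (mul_ne_zero h120 hT')
      have oT : v.ord (-(12 * (ξ * (ρ * h ^ 2)))) = -5 + 2 * s := by
        rw [v.ord_neg, v.ord_mul h120 hT', h12, v.ord_mul hξ (mul_ne_zero hρ (pow_ne_zero 2 h0)),
          v.ord_mul hρ (pow_ne_zero 2 h0), oρ, oξ, v.ord_pow, ← hsd]
        push_cast
        ring
      apply dom (v := v) hT
      rw [oT]
      exact sm8 (sm_mono v (by push_cast; omega) (sm_pow sh 4))
        (sm_neg v (smn 2 (sm_mono v (by push_cast; omega) (sm_mul v hg (sm_pow sh 2)))))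
        (sm_mono v (by push_cast; omega) (sm_pow hg 2))
        (sm_neg v (smn 8 (sm_mono v (by omega) (sm_mul v sh sF))))
        (sm_neg v (smn 4 (sm_mono v (by omega) (sm_mul v sξ sF))))
        (sm_neg v (smn 4 (sm_mono v (by omega) (sm_mul v sξ (sm_mul v hg sh)))))
        (sm_neg v (smn 12 (sm_mono v (by omega) (sm_mul v sρ sF))))
        (sm_neg v (smn 4 (sm_mono v (by push_cast; omega) (sm_mul v sξ (sm_pow sh 3)))))

end quartic

section two

/-- the equation of the parameter of a point of order two -/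
theorem two_param {F : Type} [Field F] (h2 : (2 : F) ≠ 0) (h3 : (3 : F) ≠ 0) {b e : F} (hb : b ≠ 0)
    (hb' : 4 * b + 3 ≠ 0) (he : e ^ 3 + fA b * e + fB b = 0) :
    ∃ w : F, b * (1 - w) ^ 2 = w ^ 2 * (2 * w - 1) := by
  have h36 : (36 : F) ≠ 0 := by
    have : (36 : F) = 2 ^ 2 * 3 ^ 2 := by norm_num
    rw [this]
    exact mul_ne_zero (pow_ne_zero _ h2) (pow_ne_zero _ h3)
  obtain ⟨x, hx⟩ : ∃ x : F, e = 36 * x + 3 * (b ^ 2 - 6 * b + 1) :=
    ⟨(e - 3 * (b ^ 2 - 6 * b + 1)) / 36, by field_simp; ring⟩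
  have hcub : 4 * x ^ 3 + (b ^ 2 - 6 * b + 1) * x ^ 2 - 2 * b * (1 - b) * x + b ^ 2 = 0 := by
    have h11664 : (11664 : F) ≠ 0 := by
      have : (11664 : F) = 36 ^ 2 * 3 ^ 2 := by norm_num
      rw [this]
      exact mul_ne_zero (pow_ne_zero _ h36) (pow_ne_zero _ h3)
    have h1 : 11664 * (4 * x ^ 3 + (b ^ 2 - 6 * b + 1) * x ^ 2 - 2 * b * (1 - b) * x + b ^ 2) = 0 := by
      rw [hx] at he
      unfold fA fB at he
      linear_combination he
    exact (mul_eq_zero.1 h1).resolve_left h11664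
  have hx0 : x ≠ 0 := by
    rintro rfl
    apply hb
    apply pow_eq_zero_iff (two_ne_zero) |>.1
    linear_combination hcub
  have hsq : (b * (x + 1) ^ 2 - (3 * x ^ 2 + x)) ^ 2 = -4 * x ^ 5 := by
    linear_combination (x + 1) ^ 2 * hcub
  obtain ⟨w, hw⟩ : ∃ w : F, b * (x + 1) ^ 2 - (3 * x ^ 2 + x) = 2 * x ^ 2 * w :=
    ⟨(b * (x + 1) ^ 2 - (3 * x ^ 2 + x)) / (2 * x ^ 2), by field_simp⟩
  have hw2 : w ^ 2 = -x := by
    rw [hw] at hsq
    have h4 : (4 : F) ≠ 0 := by
      have : (4 : F) = 2 ^ 2 := by norm_num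
      rw [this]; exact pow_ne_zero _ h2
    apply mul_left_cancel₀ (mul_ne_zero h4 (pow_ne_zero 4 hx0))
    linear_combination hsq
  have hxw : x = -w ^ 2 := by linear_combination hw2
  by_cases hw1 : w + 1 = 0
  · exfalso
    have hwm : w = -1 := by linear_combination hw1
    have hxm : x = -1 := by rw [hxw, hwm]; ring
    apply hb'
    rw [hxm] at hcub
    linear_combination -hcub
  · refine ⟨w, ?_⟩
    apply mul_left_cancel₀ (pow_ne_zero 2 hw1)
    rw [hxw] at hw
    linear_combination hw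

variable {k : Type} [Field k] [Finite k]

/-- no point of order two if there is a single pole -/
theorem no_root (h2 : (2 : k) ≠ 0) (h3 : (3 : k) ≠ 0) {b : k[X]} (hb : 0 < b.natDegree)
    (e : RatFunc k) : e ^ 3 + fA (A b) * e + fB (A b) ≠ 0 := by
  intro he
  have h2K : (2 : RatFunc k) ≠ 0 := by
    have : algebraMap k (RatFunc k) 2 ≠ 0 := by simpa using h2
    rwa [map_ofNat] at this
  have h3K : (3 : RatFunc k) ≠ 0 := by
    have : algebraMap k (RatFunc k) 3 ≠ 0 := by simpa using h3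
    rwa [map_ofNat] at this
  have hb0 : b ≠ 0 := by
    rintro rfl
    rw [natDegree_zero] at hb
    exact lt_irrefl _ hb
  have hinf : (infty k).ord (A b) < 0 := by
    rw [inf_ord' infty_X hb0]
    omega
  have hreg : ∀ v : Place k (RatFunc k), v.ord (A b) < 0 → v = infty k := by
    intro v hv
    by_contra h
    have := (v.reg_iff (A_ne hb0)).1 (fin_reg (fin_of_ne h) b)
    omega
  have hb3 : 4 * A b + 3 ≠ 0 := by
    intro h
    have h4 : A (4 * b + 3) = 0 := by
      show algebraMap k[X] (RatFunc k) (4 * b + 3) = 0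
      rw [map_add, map_mul, map_ofNat, map_ofNat]
      exact h
    have h5 : (4 * b + 3 : k[X]) = 0 := by
      by_contra h6
      exact A_ne h6 h4
    have h4k : (4 : k) ≠ 0 := by
      have : (4 : k) = 2 * 2 := by norm_num
      rw [this]; exact mul_ne_zero h2 h2
    have h6 : (4 * b + 3 : k[X]).natDegree = b.natDegree := by
      have e1 : (4 * b + 3 : k[X]) = C 4 * b + C 3 := by
        rw [map_ofNat, map_ofNat]
      rw [e1, natDegree_add_C, natDegree_C_mul h4k]
    rw [h5, natDegree_zero] at h6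
    omega
  obtain ⟨w, hw⟩ := two_param h2K h3K (A_ne hb0) hb3 he
  have hw1 : 1 - w ≠ 0 := by
    intro h
    have : w = 1 := by linear_combination -h
    rw [this] at hw
    apply one_ne_zero (α := RatFunc k)
    linear_combination -hw
  have hbne := A_ne hb0
  have hR0 : w ^ 2 * (2 * w - 1) ≠ 0 := by
    rw [← hw]
    exact mul_ne_zero hbne (pow_ne_zero 2 hw1)
  have hw0 : w ≠ 0 := by
    rintro rfl
    apply hR0
    ring
  have hw21 : 2 * w - 1 ≠ 0 := right_ne_zero_of_mul hR0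
  have hord : ∀ v : Place k (RatFunc k), v.ord (A b) + 2 * v.ord (1 - w) =
      2 * v.ord w + v.ord (2 * w - 1) := by
    intro v
    have := congrArg v.ord hw
    rw [v.ord_mul hbne (pow_ne_zero 2 hw1), v.ord_mul (pow_ne_zero 2 hw0) hw21, v.ord_pow,
      v.ord_pow] at this
    push_cast at this
    exact this
  have o2 : ∀ v : Place k (RatFunc k), v.ord (2 : RatFunc k) = 0 := by
    intro v
    have := v.ord_const h2
    rwa [map_ofNat] at this
  -- the orders at a pole of `w`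
  have hpole : ∀ v : Place k (RatFunc k), v.ord w < 0 → v.ord (1 - w) = v.ord w ∧
      v.ord (2 * w - 1) = v.ord w := by
    intro v hv
    have h2w : v.ord (2 * w) = v.ord w := by rw [v.ord_mul h2K hw0, o2, zero_add]
    constructor
    · exact (QC.ord_sub_right hw0 (Or.inr (by rw [v.ord_one]; exact hv))).2
    · rw [← h2w]
      exact (QC.ord_sub_left (mul_ne_zero h2K hw0) (Or.inr (by rw [v.ord_one, h2w]; exact hv))).2
  -- the orders at a zero of `1 - w`
  have hzero : ∀ v : Place k (RatFunc k), 0 < v.ord (1 - w) → v.ord w = 0 ∧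
      v.ord (2 * w - 1) = 0 := by
    intro v hv
    have e1 : w = 1 - (1 - w) := by ring
    have e2 : 2 * w - 1 = 1 - 2 * (1 - w) := by ring
    constructor
    · rw [e1]
      have := (QC.ord_sub_left (v := v) (f := 1) (g := 1 - w) one_ne_zero
        (Or.inr (by rw [v.ord_one]; exact hv))).2
      rw [this, v.ord_one]
    · rw [e2]
      have := (QC.ord_sub_left (v := v) (f := 1) (g := 2 * (1 - w)) one_ne_zero
        (Or.inr (by rw [v.ord_one, v.ord_mul h2K hw1, o2, zero_add]; exact hv))).2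
      rw [this, v.ord_one]
  have p1 : ∀ v : Place k (RatFunc k), v.ord w < 0 → v = infty k := by
    intro v hv
    apply hreg
    have h1 := hord v
    obtain ⟨h2, h3⟩ := hpole v hv
    omega
  have p2 : ∀ v : Place k (RatFunc k), 0 < v.ord (1 - w) → v = infty k := by
    intro v hv
    apply hreg
    have h1 := hord v
    obtain ⟨h2, h3⟩ := hzero v hv
    omega
  rcases lt_or_ge ((infty k).ord w) 0 with h | h
  · obtain ⟨z, hz⟩ := SC.exists_zero (k := k) (h := 1 - w) (v := infty k)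
      (by rw [(hpole _ h).1]; exact h)
    have e1 := p2 z hz
    rw [e1, (hpole _ h).1] at hz
    omega
  · have h1 : 0 < (infty k).ord (1 - w) := by
      have h1 := hord (infty k)
      have h5 : 0 ≤ (infty k).ord (2 * w - 1) := by
        refine ((infty k).reg_iff hw21).1 ?_
        have e1 : 2 * w - 1 = 2 * w + -1 := by ring
        rw [e1]
        exact (infty k).reg_add ((infty k).reg_mul (reg_nat 2) (Or.inr h))
          ((infty k).reg_neg (infty k).reg_one)
      omega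
    obtain ⟨z, hz⟩ := SC.exists_zero (k := k) (h := (1 - w)⁻¹) (v := infty k)
      (by rw [(infty k).ord_inv]; omega)
    rw [z.ord_inv] at hz
    have h6 : z.ord w < 0 := by
      by_contra h7
      push Not at h7
      have h8 : z.Reg (1 - w) := by
        have e1 : 1 - w = 1 + -w := by ring
        rw [e1]
        exact z.reg_add z.reg_one (z.reg_neg (Or.inr h7))
      have := (z.reg_iff hw1).1 h8
      omega
    have e1 := p1 z h6
    rw [e1] at hz
    omega

end two

end Pool.Agent.R427.FT
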