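import Pool.Agent.R427.FT5

/-!
Curves with a point of order five: the rank of the two families.
-/

set_option autoImplicit false
set_option linter.all false
set_option maxHeartbeats 4000000

open Polynomial FF WeierstrassCurve WeierstrassCurve.Affine
open scoped Classical

namespace Pool.Agent.R427.FT

open Pool.Agent.W343.BSD Pool.Agent.H525R3.FFp Pool.Agent.H123R3.ZT
open Pool.Agent.W309.RF
open Pool.Agent.W313.Gr (curve rank rank_mono)
open Pool.Agent.TH639.B3 (sm_reg sm_pow)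
open Pool.Agent.R427.PC (indep_of_not_two no_two half_eq delta_ne ord_add_left)
open Pool.Agent.TH180.R4 (exists_lift)

/-- the centre of the node at infinity -/
def rho {F : Type} [Field F] (b : F) : F := 3 * (b ^ 2 - 6 * b - 11)

section facts

variable {k K : Type} [Field k] [Field K] [Algebra k K] {v : Place k K}

theorem ord_int (h2 : (2 : k) ≠ 0) (h3 : (3 : k) ≠ 0) (a b : ℕ) :
    v.ord ((2 : K) ^ a * 3 ^ b) = 0 ∧ ((2 : K) ^ a * 3 ^ b) ≠ 0 := by
  have e : ((2 : K) ^ a * 3 ^ b) = algebraMap k K (2 ^ a * 3 ^ b) := by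
    rw [map_mul, map_pow, map_pow, map_ofNat, map_ofNat]
  have hne : ((2 : k) ^ a * 3 ^ b) ≠ 0 := mul_ne_zero (pow_ne_zero _ h2) (pow_ne_zero _ h3)
  rw [e]
  exact ⟨v.ord_const hne, (_root_.map_ne_zero _).2 hne⟩

theorem rho_facts (h2 : (2 : k) ≠ 0) (h3 : (3 : k) ≠ 0) {b : K} (hb : v.ord b = -2) :
    b ≠ 0 ∧ rho b ≠ 0 ∧ v.ord (rho b) = -4 ∧
      rho b ^ 3 + fA b * rho b + fB b ≠ 0 ∧ v.ord (rho b ^ 3 + fA b * rho b + fB b) = -2 ∧
      Sm v (-2) (3 * rho b ^ 2 + fA b) := by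
  have hb0 : b ≠ 0 := by
    rintro rfl
    rw [v.ord_zero] at hb
    norm_num at hb
  have sb : Sm v (-2) b := Or.inr hb.ge
  have sn : ∀ n : ℕ, Sm v 0 ((n : ℕ) : K) := fun n => sm_reg (reg_nat n)
  have o3 := ord_int (v := v) (K := K) h2 h3 0 1
  have o4 := ord_int (v := v) (K := K) h2 h3 2 0
  have oc := ord_int (v := v) (K := K) h2 h3 4 6
  rw [pow_zero, one_mul, pow_one] at o3
  rw [pow_zero, mul_one] at o4
  have e4 : (2 : K) ^ 2 = 4 := by norm_num
  have ec : (2 : K) ^ 4 * 3 ^ 6 = 11664 := by norm_num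
  rw [e4] at o4
  rw [ec] at oc
  -- rho
  have h1 := ord_add_left (v := v) (f := b ^ 2) (g := -(((6 : ℕ) : K) * b) + -((11 : ℕ) : K))
    (pow_ne_zero 2 hb0) (by
      have s1 : Sm v (-2) (-(((6 : ℕ) : K) * b) + -((11 : ℕ) : K)) :=
        sm_add v (sm_neg v (smn 6 sb)) (sm_neg v (sm_mono v (by norm_num) (sn 11)))
      rcases s1 with s1 | s1
      · exact Or.inl s1
      · right
        rw [v.ord_pow, hb]
        push_cast
        push_cast at s1
        omega)
  have er : rho b = 3 * (b ^ 2 + (-(((6 : ℕ) : K) * b) + -((11 : ℕ) : K))) := by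
    unfold rho
    push_cast
    ring
  have hr0 : rho b ≠ 0 := by
    rw [er]
    exact mul_ne_zero o3.2 h1.1
  have hro : v.ord (rho b) = -4 := by
    rw [er, v.ord_mul o3.2 h1.1, o3.1, h1.2, v.ord_pow, hb]
    norm_num
  -- F
  have h5 := ord_add_left (v := v) (f := 4 * b) (g := ((3 : ℕ) : K)) (mul_ne_zero o4.2 hb0) (by
    right
    rw [v.ord_mul o4.2 hb0, o4.1, hb]
    have : ((3 : ℕ) : K) = 3 := by norm_num
    rw [this, o3.1]
    norm_num)
  have eF : rho b ^ 3 + fA b * rho b + fB b = -(11664 * (4 * b + ((3 : ℕ) : K))) := by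
    unfold rho fA fB
    push_cast
    ring
  have eg : 3 * rho b ^ 2 + fA b = ((3240 : ℕ) : K) * b + ((3240 : ℕ) : K) := by
    unfold rho fA
    push_cast
    ring
  refine ⟨hb0, hr0, hro, ?_, ?_, ?_⟩
  · rw [eF]
    exact neg_ne_zero.2 (mul_ne_zero oc.2 h5.1)
  · rw [eF, v.ord_neg, v.ord_mul oc.2 h5.1, oc.1, h5.2, v.ord_mul o4.2 hb0, o4.1, hb]
    norm_num
  · rw [eg]
    exact sm_add v (smn _ sb) (sm_mono v (by norm_num) (sn _))

/-- the point is not twice a point -/
theorem not_half (h2 : (2 : k) ≠ 0) (h3 : (3 : k) ≠ 0) {b x₀ y₀ : K} (hb : v.ord b = -2)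
    (hx : x₀ - rho b = 0 ∨ v.ord (x₀ - rho b) = -1)
    (h₀ : (curve (fA b) (fB b)).toAffine.Nonsingular x₀ y₀)
    (Q : (curve (fA b) (fB b)).toAffine.Point) : Q + Q ≠ Point.some x₀ y₀ h₀ := by
  intro hQ
  have h2K : (2 : K) ≠ 0 := by
    have : algebraMap k K 2 ≠ 0 := by simpa using h2
    rwa [map_ofNat] at this
  obtain ⟨x, hx'⟩ := half_eq h2K h₀ Q hQ
  obtain ⟨hb0, hr0, hro, hF0, hFo, hg⟩ := rho_facts (v := v) h2 h3 hb
  have o12 := ord_int (v := v) (K := K) h2 h3 2 1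
  have e12 : (2 : K) ^ 2 * 3 ^ 1 = 12 := by norm_num
  rw [e12] at o12
  by_cases hx0 : x₀ - rho b = 0
  · apply quart_A o12.1 o12.2 hg hr0 hro hF0 hFo (x - rho b)
    have e : x₀ = rho b := sub_eq_zero.1 hx0
    rw [e] at hx'
    linear_combination hx'
  · have hx1 := hx.resolve_left hx0
    apply quart_B o12.1 o12.2 hg hr0 hro hF0 hFo hx0 hx1 (x - rho b)
    linear_combination hx'

end facts

section fam

variable {k : Type} [Field k] [Finite k]

theorem disc_ne (h2 : (2 : k) ≠ 0) (h3 : (3 : k) ≠ 0) {b : k[X]} (hb : 0 < b.natDegree) :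
    4 * fA (A b) ^ 3 + 27 * fB (A b) ^ 2 ≠ 0 := by
  have h2K : (2 : RatFunc k) ≠ 0 := by
    have : algebraMap k (RatFunc k) 2 ≠ 0 := by simpa using h2
    rwa [map_ofNat] at this
  have h3K : (3 : RatFunc k) ≠ 0 := by
    have : algebraMap k (RatFunc k) 3 ≠ 0 := by simpa using h3
    rwa [map_ofNat] at this
  have hb0 : b ≠ 0 := by
    rintro rfl
    rw [natDegree_zero] at hb
    exact lt_irrefl _ hb
  intro h
  rcases (disc_zero_iff h2K h3K (A b)).1 h with h | h
  · exact A_ne hb0 h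
  · rw [← A_comp_quad] at h
    have h1 : (X ^ 2 - 11 * X - 1 : k[X]).comp b = 0 := by
      by_contra h6
      exact A_ne h6 h
    have h4 := congrArg natDegree h1
    rw [natDegree_comp, natDegree_zero] at h4
    have h5 : (X ^ 2 - 11 * X - 1 : k[X]).natDegree = 2 := by compute_degree!
    rw [h5] at h4
    omega

/-- a point of infinite order -/
theorem rank_of (h2 : (2 : k) ≠ 0) (h3 : (3 : k) ≠ 0) {b : k[X]} (hb : b.natDegree = 2)
    {x₀ y₀ : RatFunc k} (hE : y₀ ^ 2 = x₀ ^ 3 + fA (A b) * x₀ + fB (A b))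
    (hx : x₀ - rho (A b) = 0 ∨ (infty k).ord (x₀ - rho (A b)) = -1) :
    1 ≤ rank (fA (A b)) (fB (A b)) := by
  have h2K : (2 : RatFunc k) ≠ 0 := by
    have : algebraMap k (RatFunc k) 2 ≠ 0 := by simpa using h2
    rwa [map_ofNat] at this
  have hpos : 0 < b.natDegree := by omega
  have hb0 : b ≠ 0 := by
    rintro rfl
    rw [natDegree_zero] at hb
    omega
  have ob : (infty k).ord (A b) = -2 := by
    rw [inf_ord' infty_X hb0, hb]
    norm_num
  have hΔ := disc_ne h2 h3 hpos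
  have hE' : (curve (fA (A b)) (fB (A b))).toAffine.Equation x₀ y₀ := (eqn _ _ _ _).2 hE
  have hn := (equation_iff_nonsingular_of_Δ_ne_zero (delta_ne h2K hΔ)).1 hE'
  have hlin := indep_of_not_two (no_two h2K (no_root h2 h3 hpos)) (P := Point.some _ _ hn)
    (fun Q => not_half h2 h3 ob hx hn Q)
  have := hlin.cardinal_le_rank
  rwa [Cardinal.mk_fin, Nat.cast_one] at this

/-- the first family -/
noncomputable def b1 (k : Type) [Field k] : k[X] := -(X ^ 2 + X + 1)

/-- the second family -/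
noncomputable def b2 (k : Type) [Field k] : k[X] := X * (2 - X)

theorem A_b1 : A (b1 k) = -(RatFunc.X ^ 2 + RatFunc.X + 1) := by
  show algebraMap k[X] (RatFunc k) _ = _
  unfold b1
  rw [map_neg, map_add, map_add, map_pow, map_one, RatFunc.algebraMap_X]

theorem A_b2 : A (b2 k) = RatFunc.X * (2 - RatFunc.X) := by
  show algebraMap k[X] (RatFunc k) _ = _
  unfold b2
  rw [map_mul, map_sub, map_ofNat, RatFunc.algebraMap_X]

theorem deg_b1 : (b1 k).natDegree = 2 := by
  unfold b1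
  rw [natDegree_neg]
  compute_degree!

theorem deg_b2 : (b2 k).natDegree = 2 := by
  have e : b2 k = -(X ^ 2 - 2 * X) := by unfold b2; ring
  rw [e, natDegree_neg]
  compute_degree!

theorem rank_b1 (h2 : (2 : k) ≠ 0) (h3 : (3 : k) ≠ 0) : 1 ≤ rank (fA (A (b1 k))) (fB (A (b1 k))) := by
  apply rank_of h2 h3 deg_b1 (x₀ := rho (A (b1 k))) (y₀ := 108 * (2 * RatFunc.X + 1))
  · rw [A_b1]
    unfold rho fA fB
    ring
  · left
    ring

theorem rank_b2 (h2 : (2 : k) ≠ 0) (h3 : (3 : k) ≠ 0) : 1 ≤ rank (fA (A (b2 k))) (fB (A (b2 k))) := by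
  apply rank_of h2 h3 deg_b2 (x₀ := rho (A (b2 k)) + 36 * (RatFunc.X + 1))
    (y₀ := 108 * (RatFunc.X * (RatFunc.X ^ 2 - RatFunc.X + 1)))
  · rw [A_b2]
    unfold rho fA fB
    ring
  · right
    rw [add_sub_cancel_left]
    have o36 := ord_int (v := infty k) (K := RatFunc k) h2 h3 2 2
    have e36 : (2 : RatFunc k) ^ 2 * 3 ^ 2 = 36 := by norm_num
    rw [e36] at o36
    have e : (RatFunc.X + 1 : RatFunc k) = A (X + 1) := by
      show _ = algebraMap k[X] (RatFunc k) _
      rw [map_add, map_one, RatFunc.algebraMap_X]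
    have hne : (X + 1 : k[X]) ≠ 0 := by
      have := (monic_X_add_C (1 : k)).ne_zero
      rwa [C_1] at this
    have hd : (X + 1 : k[X]).natDegree = 1 := by
      have := natDegree_X_add_C (1 : k)
      rwa [C_1] at this
    rw [e, (infty k).ord_mul o36.2 (A_ne hne), o36.1, inf_ord' infty_X hne, hd]
    norm_num

end fam

section pull

variable {k K : Type} [Field k] [Finite k] [Field K] [Algebra k K] [FF.IsFF k K]

/-- the rank of the pull-back -/
theorem rank_pull (b : k[X]) {f : K} (hf : Transcendental k f) :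
    rank (fA (A b)) (fB (A b)) ≤ rank (fA (aeval f b)) (fB (aeval f b)) := by
  obtain ⟨Φ, hX⟩ := exists_lift hf
  letI : Algebra (RatFunc k) K := Φ.toRingHom.toAlgebra
  have hΦa : ∀ x : RatFunc k, algebraMap (RatFunc k) K x = Φ x := fun _ => rfl
  have hp : ∀ p : k[X], Φ (A p) = aeval f p := by
    intro p
    rw [A_aeval, ← hX]
    exact (Polynomial.aeval_algHom_apply Φ RatFunc.X p).symm
  have h := rank_mono (K' := K) (fA (A b)) (fB (A b))
  rw [map_fA, map_fB, hΦa, hp] at h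
  exact h

end pull

end Pool.Agent.R427.FT
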