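import Pool.Agent.R427.FT6

/-!
Curves with a point of order five: the weights of the pull-backs of the two families.
-/

set_option autoImplicit false
set_option linter.all false
set_option maxHeartbeats 4000000

open Polynomial FF WeierstrassCurve WeierstrassCurve.Affine
open scoped Classical

namespace Pool.Agent.R427.FT

open Pool.Agent.W343.BSD Pool.Agent.H525R3.FFp Pool.Agent.H123R3.ZT
open Pool.Agent.W309.RF
open Pool.Agent.W313.Gr (curve rank rank_mono)

section tors

variable {F : Type} [Field F]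

/-- the point of order five -/
theorem five_tors (h2 : (2 : F) ≠ 0) (h3 : (3 : F) ≠ 0) {b : F} (hb : b ≠ 0) :
    letI := Classical.decEq F
    ∃ P : (curve (fA b) (fB b)).toAffine.Point, P ≠ 0 ∧ (5 : ℕ) • P = 0 := by
  classical
  have h108 : (108 : F) ≠ 0 := by
    have : (108 : F) = 2 ^ 2 * 3 ^ 3 := by norm_num
    rw [this]
    exact mul_ne_zero (pow_ne_zero _ h2) (pow_ne_zero _ h3)
  have hyP : -108 * b ≠ 0 := mul_ne_zero (neg_ne_zero.2 h108) hb
  have hyQ : 108 * b ^ 2 ≠ 0 := mul_ne_zero h108 (pow_ne_zero 2 hb)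
  have hyR : 108 * b ≠ 0 := mul_ne_zero h108 hb
  have hP : (curve (fA b) (fB b)).toAffine.Nonsingular (3 * (b ^ 2 - 6 * b + 1)) (-108 * b) := by
    rw [ns_iff]
    refine ⟨?_, Or.inr (mul_ne_zero h2 hyP)⟩
    unfold fA fB
    ring
  have hQ : (curve (fA b) (fB b)).toAffine.Nonsingular (3 * (b ^ 2 + 6 * b + 1)) (108 * b ^ 2) := by
    rw [ns_iff]
    refine ⟨?_, Or.inr (mul_ne_zero h2 hyQ)⟩
    unfold fA fB
    ring
  have hR : (curve (fA b) (fB b)).toAffine.Nonsingular (3 * (b ^ 2 - 6 * b + 1)) (108 * b) := by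
    rw [ns_iff]
    refine ⟨?_, Or.inr (mul_ne_zero h2 hyR)⟩
    unfold fA fB
    ring
  set P : (curve (fA b) (fB b)).toAffine.Point := Point.some _ _ hP with hPd
  set Q : (curve (fA b) (fB b)).toAffine.Point := Point.some _ _ hQ with hQd
  have h2P : P + P = Q := by
    have := dbl h2 hP hyP (l := 3 * (1 - b)) (by unfold fA; ring) (by ring) (by ring) hQ
    convert this
  have h4P : Q + Q = -P := by
    have h5 := dbl h2 hQ hyQ (l := 3 * (b + 1)) (by unfold fA; ring) (by ring) (by ring) hR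
    have e : -P = Point.some _ _ hR := by
      rw [hPd, Point.neg_some]
      have e2 : (curve (fA b) (fB b)).toAffine.negY (3 * (b ^ 2 - 6 * b + 1)) (-108 * b) =
          108 * b := by
        rw [negY_eq]; ring
      simp only [e2]
    rw [e]
    convert h5
  refine ⟨P, ?_, ?_⟩
  · rw [hPd]
    exact Point.some_ne_zero _
  · have e : (5 : ℕ) • P = (P + P) + (P + P) + P := by
      rw [show (5 : ℕ) = 1 + 1 + 1 + 1 + 1 from rfl]
      simp only [add_smul, one_smul]
      abel
    rw [e, h2P, h4P, neg_add_cancel]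

end tors

section arith

theorem four_dvd {q n : ℕ} (hq : q % 5 = 2 ∨ q % 5 = 3) (h : 5 ∣ q ^ n - 1) (hn : 0 < q) : 4 ∣ n := by
  have h1 : 1 ≤ q ^ n := Nat.one_le_pow _ _ hn
  have m1 : q ^ n ≡ 1 [MOD 5] := ((Nat.modEq_iff_dvd' h1).2 h).symm
  obtain ⟨a, r, hr, rfl⟩ : ∃ a r, r < 4 ∧ n = 4 * a + r := ⟨n / 4, n % 4, Nat.mod_lt _ (by norm_num),
    by omega⟩
  have m0 : q ≡ q % 5 [MOD 5] := (Nat.mod_modEq q 5).symm
  have m4 : q ^ 4 ≡ 1 [MOD 5] := by
    refine (m0.pow 4).trans ?_
    rcases hq with h | h <;> rw [h] <;> decide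
  have m5 : q ^ (4 * a + r) ≡ q ^ r [MOD 5] := by
    rw [pow_add, pow_mul]
    have := (m4.pow a).mul_right (q ^ r)
    rwa [one_pow, one_mul] at this
  have m6 : q ^ r ≡ 1 [MOD 5] := m5.symm.trans m1
  have m7 : (q % 5) ^ r ≡ 1 [MOD 5] := (m0.pow r).symm.trans m6
  have hr0 : r = 0 := by
    revert m7
    rcases hq with h | h <;> rw [h] <;> interval_cases r <;> decide
  rw [hr0, add_zero]
  exact dvd_mul_right _ _

end arith

section wts

variable {k : Type} [Field k] [Finite k]

/-- the characteristic is not eleven -/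
theorem eleven_ne (hq : Nat.card k % 5 = 2 ∨ Nat.card k % 5 = 3) : (11 : k) ≠ 0 := by
  intro h0
  obtain ⟨p, hp⟩ := CharP.exists k
  have hdvd : p ∣ 11 := (CharP.cast_eq_zero_iff k p 11).1 (by exact_mod_cast h0)
  have hpne : p ≠ 1 := fun h => by
    subst h
    have := (CharP.cast_eq_zero_iff k 1 1).2 (dvd_refl 1)
    rw [Nat.cast_one] at this
    exact one_ne_zero this
  have h11 : Nat.Prime 11 := by norm_num
  have hp11 : p = 11 := ((Nat.dvd_prime h11).1 hdvd).resolve_left hpne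
  subst hp11
  haveI : Fact (Nat.Prime 11) := ⟨h11⟩
  letI : Fintype k := Fintype.ofFinite k
  obtain ⟨n, -, hn⟩ := FiniteField.card k 11
  rw [Nat.card_eq_fintype_card, hn, Nat.pow_mod] at hq
  norm_num at hq

/-- `X ^ 2 + X + 1` is irreducible -/
theorem irr_b1 (h3 : (3 : k) ≠ 0) (hq : Nat.card k % 3 = 2) : Irreducible (b1 k) := by
  have hd : (b1 k).natDegree = 2 := deg_b1
  apply irreducible_of_degree_le_three_of_not_isRoot (by rw [hd]; decide)
  intro x hx
  rw [IsRoot.def] at hx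
  unfold b1 at hx
  simp only [eval_neg, eval_add, eval_pow, eval_X, eval_one] at hx
  have hx3 : x ^ 3 = 1 := by linear_combination -(x - 1) * hx
  have hx1 : x ≠ 1 := by
    rintro rfl
    apply h3
    linear_combination -hx
  have hx0 : x ≠ 0 := by
    rintro rfl
    norm_num at hx
  letI : Fintype k := Fintype.ofFinite k
  have hc : x ^ (Nat.card k - 1) = 1 := by
    rw [Nat.card_eq_fintype_card]
    exact FiniteField.pow_card_sub_one_eq_one x hx0
  obtain ⟨a, ha⟩ : ∃ a, Nat.card k - 1 = 3 * a + 1 := ⟨Nat.card k / 3, by omega⟩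
  rw [ha, pow_add, pow_mul, hx3, one_pow, one_mul, pow_one] at hc
  exact hx1 hc

local instance fact_five : Fact (Nat.Prime 5) := ⟨Nat.prime_five⟩

/-- `5` is not a square -/
theorem five_nonsquare (h2 : (2 : k) ≠ 0) (hq : Nat.card k % 5 = 2 ∨ Nat.card k % 5 = 3) :
    ¬ IsSquare (5 : k) := by
  letI : Fintype k := Fintype.ofFinite k
  have hF : ringChar k ≠ 2 := by
    intro h
    apply h2
    have : ((ringChar k : ℕ) : k) = 0 := ringChar.Nat.cast_ringChar
    rw [h] at this
    exact_mod_cast this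
  have h := FiniteField.isSquare_odd_prime_iff (F := k) hF (p := 5) (by norm_num)
  have e : ((5 : ℕ) : k) = 5 := by norm_num
  rw [e] at h
  rw [h]
  push Not
  rw [Nat.card_eq_fintype_card] at hq
  have hodd : Fintype.card k % 2 = 1 := FiniteField.odd_card_of_char_ne_two hF
  have hc : ((Fintype.card k : ℕ) : ZMod 5) = ((Fintype.card k % 5 : ℕ) : ZMod 5) := by
    rw [ZMod.natCast_mod]
  have h4 : ZMod.χ₄ (Fintype.card k) = 1 ∨ ZMod.χ₄ (Fintype.card k) = -1 := by
    rcases (show Fintype.card k % 4 = 1 ∨ Fintype.card k % 4 = 3 by omega) with h5 | h5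
    · left
      exact ZMod.χ₄_nat_one_mod_four h5
    · right
      exact ZMod.χ₄_nat_three_mod_four h5
  rw [hc]
  rcases h4 with h4 | h4 <;> rw [h4] <;> rcases hq with h5 | h5 <;> rw [h5] <;> decide

theorem f1_of {n : ℕ} (h : ¬ 5 ∣ n) : f1 n = 1 := by
  unfold f1
  rw [padicValNat.eq_zero_of_not_dvd h, pow_zero]

/-- the weight of the nodes, if they have degree at most four -/
theorem f2_le {q n d : ℕ} (hq : q % 5 = 2 ∨ q % 5 = 3) (hq0 : 0 < q) (hn : Odd n) (hn5 : ¬ 5 ∣ n)
    (hd : 0 < d) (hd4 : d ≤ 4) : 4 * f2 q (d * n) ≤ d := by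
  unfold f2
  split_ifs with h
  · have h1 := four_dvd hq h hq0
    have hc : Nat.Coprime 4 n := by
      have : Nat.Coprime 2 n := (Nat.coprime_two_left).2 hn
      exact Nat.Coprime.pow_left 2 this
    have h2 : 4 ∣ d := hc.dvd_of_dvd_mul_right h1
    have h3 : d = 4 := by
      obtain ⟨e, he⟩ := h2
      omega
    rw [h3, padicValNat.eq_zero_of_not_dvd, pow_zero, mul_one]
    intro h5
    exact hn5 ((by norm_num : Nat.Coprime 5 4).dvd_of_dvd_mul_left h5)
  · omega

theorem f2_zero {q n d : ℕ} (hq : q % 5 = 2 ∨ q % 5 = 3) (hq0 : 0 < q) (hn : Odd n)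
    (hd : 0 < d) (hd2 : d ≤ 2) : f2 q (d * n) = 0 := by
  unfold f2
  rw [if_neg]
  intro h
  have h1 := four_dvd hq h hq0
  have hc : Nat.Coprime 4 n := by
    have : Nat.Coprime 2 n := (Nat.coprime_two_left).2 hn
    exact Nat.Coprime.pow_left 2 this
  have h2 : 4 ∣ d := hc.dvd_of_dvd_mul_right h1
  obtain ⟨e, he⟩ := h2
  omega

/-- the polynomial of the nodes -/
noncomputable def nd (b : k[X]) : k[X] := (X ^ 2 - 11 * X - 1 : k[X]).comp b

theorem deg_nd {b : k[X]} (hb : b.natDegree = 2) : (nd b).natDegree = 4 := by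
  unfold nd
  have h5 : (X ^ 2 - 11 * X - 1 : k[X]).natDegree = 2 := by compute_degree!
  rw [natDegree_comp, h5, hb]

/-- the weight for the first family -/
theorem W_b1 (hq : Nat.card k % 5 = 2 ∨ Nat.card k % 5 = 3) {m : k[X]}
    (hm : Odd m.natDegree) (hm5 : ¬ 5 ∣ m.natDegree) (hirr : Irreducible ((b1 k).comp m))
    (hnd : ∀ π : k[X], Irreducible π → π ∣ nd (b1 k) → Irreducible (π.comp m)) :
    W k (A ((b1 k).comp m)) ≤ 3 := by
  have hq0 : 0 < Nat.card k := Nat.card_pos
  have h1 := wSum_irr f1 hirr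
  rw [natDegree_comp, deg_b1, f1_of (by omega)] at h1
  have h2 := wSum_pole (k := k) f1 ((b1 k).comp m)
  rw [f1_one] at h2
  have hne : nd (b1 k) ≠ 0 := by
    intro h
    have := deg_nd (k := k) deg_b1
    rw [h, natDegree_zero] at this
    omega
  have h3 := wSum_comp (f2 (Nat.card k)) (m := m) hm.pos 4 (nd (b1 k)) hne (by
    intro π hπ hdv
    refine ⟨hnd π hπ hdv, f2_le hq hq0 hm hm5 hπ.natDegree_pos ?_⟩
    rw [← deg_nd (k := k) deg_b1]
    exact natDegree_le_of_dvd hdv hne)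
  rw [deg_nd deg_b1] at h3
  have e : A ((nd (b1 k)).comp m) = A ((b1 k).comp m) ^ 2 - 11 * A ((b1 k).comp m) - 1 := by
    rw [← A_comp_quad]
    unfold nd
    rw [comp_assoc]
  rw [e] at h3
  unfold W
  omega

/-- the weight for the second family -/
theorem W_b2 (h2 : (2 : k) ≠ 0) (hq : Nat.card k % 5 = 2 ∨ Nat.card k % 5 = 3)
    (h11 : IsSquare (-11 : k)) {c : k} (hc : c ≠ 0) {n : ℕ} (hn : Odd n) (hn5 : ¬ 5 ∣ n)
    (hirr : Irreducible ((2 - X : k[X]).comp (C c * X ^ n)))
    (hnd : ∀ π : k[X], Irreducible π → π ∣ nd (b2 k) → Irreducible (π.comp (C c * X ^ n))) :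
    W k (A ((b2 k).comp (C c * X ^ n))) ≤ 3 := by
  have hq0 : 0 < Nat.card k := Nat.card_pos
  have hmd : (C c * X ^ n : k[X]).natDegree = n := natDegree_C_mul_X_pow _ _ hc
  have hd1 : (2 - X : k[X]).natDegree = 1 := by
    have e : (2 - X : k[X]) = -(X - C 2) := by rw [map_ofNat]; ring
    rw [e, natDegree_neg, natDegree_X_sub_C]
  have h1 := wSum_irr f1 hirr
  rw [natDegree_comp, hmd, hd1, one_mul, f1_of hn5] at h1
  have h1' := wSum_mono (k := k) f1 hc n
  rw [f1_one] at h1'
  have hmne : (C c * X ^ n : k[X]) ≠ 0 := mul_ne_zero (C_ne_zero.2 hc) (pow_ne_zero _ X_ne_zero)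
  have e0 : A ((b2 k).comp (C c * X ^ n)) = A (C c * X ^ n) * A ((2 - X : k[X]).comp (C c * X ^ n)) := by
    unfold b2
    rw [mul_comp, X_comp]
    exact map_mul _ _ _
  have h4 := wSum_mul_le (k := k) f1 (A_ne hmne) (A_ne hirr.ne_zero)
  rw [← e0] at h4
  have h5 := wSum_pole (k := k) f1 ((b2 k).comp (C c * X ^ n))
  rw [f1_one] at h5
  have hne : nd (b2 k) ≠ 0 := by
    intro h
    have := deg_nd (k := k) deg_b2
    rw [h, natDegree_zero] at this
    omega
  -- the two quadratic factors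
  have hfac : ∃ P Q : k[X], nd (b2 k) = P * Q ∧ P.natDegree ≤ 2 ∧ Q.natDegree ≤ 2 := by
    obtain ⟨δ, hδ⟩ := h11
    have key : ∀ δ ρ : k, -11 = δ * δ → 2 * δ - 9 = ρ * ρ → ∃ P Q : k[X], nd (b2 k) = P * Q ∧
        P.natDegree ≤ 2 ∧ Q.natDegree ≤ 2 := by
      intro δ ρ hδ hρ
      refine ⟨(X - 1) ^ 2 + C δ - C ρ * (X - 1), (X - 1) ^ 2 + C δ + C ρ * (X - 1), ?_, ?_, ?_⟩
      · have c1 : (C δ * C δ : k[X]) = -11 := by
          rw [← C_mul, ← hδ, map_neg, map_ofNat]
        have c2 : (C ρ * C ρ : k[X]) = 2 * C δ - 9 := by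
          rw [← C_mul, ← hρ, map_sub, map_mul, map_ofNat, map_ofNat]
        have e : nd (b2 k) = (X * (2 - X)) ^ 2 - 11 * (X * (2 - X)) - 1 := by
          unfold nd b2
          simp only [sub_comp, mul_comp, pow_comp, X_comp, one_comp, ofNat_comp]
          norm_num
        rw [e]
        linear_combination -c1 + (X - 1) ^ 2 * c2
      · compute_degree
      · compute_degree
    by_cases hs : IsSquare (2 * δ - 9)
    · obtain ⟨ρ, hρ⟩ := hs
      exact key δ ρ hδ hρ
    · have hs' : IsSquare (2 * (-δ) - 9) := by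
        by_contra hs'
        letI : Fintype k := Fintype.ofFinite k
        have hF : ringChar k ≠ 2 := by
          intro h
          apply h2
          have : ((ringChar k : ℕ) : k) = 0 := ringChar.Nat.cast_ringChar
          rw [h] at this
          exact_mod_cast this
        have ha : (2 * δ - 9 : k) ≠ 0 := fun h => hs (by rw [h]; exact IsSquare.zero)
        have hb : (2 * (-δ) - 9 : k) ≠ 0 := fun h => hs' (by rw [h]; exact IsSquare.zero)
        have q1 := quadraticChar_neg_one_iff_not_isSquare.2 hs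
        have q2 := quadraticChar_neg_one_iff_not_isSquare.2 hs'
        have q3 : quadraticChar k ((2 * δ - 9) * (2 * (-δ) - 9)) = 1 := by
          rw [map_mul, q1, q2]; norm_num
        have q4 := (quadraticChar_one_iff_isSquare (mul_ne_zero ha hb)).1 q3
        have e : (2 * δ - 9) * (2 * (-δ) - 9) = 5 * (5 * 5) := by
          linear_combination 4 * hδ
        rw [e] at q4
        apply five_nonsquare h2 hq
        obtain ⟨r, hr⟩ := q4
        have h5k : (5 : k) ≠ 0 := by
          intro h0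
          apply mul_ne_zero ha hb
          rw [e, h0]
          ring
        exact ⟨r / 5, by field_simp; linear_combination hr⟩
      obtain ⟨ρ, hρ⟩ := hs'
      exact key (-δ) ρ (by rw [hδ]; ring) hρ
  have h3 := wSum_comp (f2 (Nat.card k)) (m := C c * X ^ n) (by rw [hmd]; exact hn.pos) 5
    (nd (b2 k)) hne (by
    intro π hπ hdv
    refine ⟨hnd π hπ hdv, ?_⟩
    have hd2 : π.natDegree ≤ 2 := by
      obtain ⟨P, Q, e, hP, hQ⟩ := hfac
      rw [e] at hdv hne
      rcases hπ.prime.dvd_or_dvd hdv with h | h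
      · exact (natDegree_le_of_dvd h (left_ne_zero_of_mul hne)).trans hP
      · exact (natDegree_le_of_dvd h (right_ne_zero_of_mul hne)).trans hQ
    rw [hmd, f2_zero hq hq0 hn hπ.natDegree_pos hd2]
    omega)
  rw [deg_nd deg_b2] at h3
  have e : A ((nd (b2 k)).comp (C c * X ^ n)) = A ((b2 k).comp (C c * X ^ n)) ^ 2 -
      11 * A ((b2 k).comp (C c * X ^ n)) - 1 := by
    rw [← A_comp_quad]
    unfold nd
    rw [comp_assoc]
  rw [e] at h3
  unfold W
  omega

end wts

end Pool.Agent.R427.FT
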