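import Pool.Agent.R427.FT7

/-!
Curves with a point of order five: non-constant invariants and existence of substitutions.
-/

set_option autoImplicit false
set_option linter.all false
set_option maxHeartbeats 4000000

open Polynomial FF WeierstrassCurve WeierstrassCurve.Affine
open scoped Classical

namespace Pool.Agent.R427.FT

open Pool.Agent.W343.BSD Pool.Agent.H525R3.FFp Pool.Agent.H123R3.ZT
open Pool.Agent.W309.RF
open Pool.Agent.W313.Gr (curve rank rank_mono)
open Pool.Agent.TH180.R4 (aeval_ne)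

section gen

variable {k K : Type} [Field k] [Finite k] [Field K] [Algebra k K] [FF.IsFF k K]

theorem ne_facts (h2 : (2 : k) ≠ 0) (h3 : (3 : k) ≠ 0) {g : K} (hg : Transcendental k g) :
    g ≠ 0 ∧ g ^ 2 - 11 * g - 1 ≠ 0 ∧ 4 * fA g ^ 3 + 27 * fB g ^ 2 ≠ 0 := by
  have h2K : (2 : K) ≠ 0 := by
    have : algebraMap k K 2 ≠ 0 := by simpa using h2
    rwa [map_ofNat] at this
  have h3K : (3 : K) ≠ 0 := by
    have : algebraMap k K 3 ≠ 0 := by simpa using h3
    rwa [map_ofNat] at this
  have g0 : g ≠ 0 := by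
    rintro rfl
    exact hg isAlgebraic_zero
  have hq : (X ^ 2 - 11 * X - 1 : k[X]) ≠ 0 := by
    intro h
    have h5 : (X ^ 2 - 11 * X - 1 : k[X]).natDegree = 2 := by compute_degree!
    rw [h, natDegree_zero] at h5
    omega
  have g1 := aeval_ne hg hq
  rw [aeval_quad] at g1
  refine ⟨g0, g1, fun h => ?_⟩
  rcases (disc_zero_iff h2K h3K g).1 h with h | h
  · exact g0 h
  · exact g1 h

/-- the `j`-invariant is not constant -/
theorem noniso (h2 : (2 : k) ≠ 0) (h3 : (3 : k) ≠ 0) {g : K} (hg : Transcendental k g) (c : k) :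
    6912 * fA g ^ 3 ≠ algebraMap k K c * (4 * fA g ^ 3 + 27 * fB g ^ 2) := by
  intro h
  set p : k[X] := 6912 * fA (X : k[X]) ^ 3 - C c * (4 * fA (X : k[X]) ^ 3 + 27 * fB (X : k[X]) ^ 2)
    with hp
  have h1 : aeval g p = 0 := by
    rw [hp]
    simp only [map_add, map_mul, map_pow, map_sub, aeval_C, map_ofNat, aeval_fA, aeval_fB]
    rw [h, sub_self]
  have h0 : p.eval 0 ≠ 0 := by
    have e1 : eval 0 (fA (X : k[X])) = -27 := by
      unfold fA
      simp only [eval_mul, eval_add, eval_sub, eval_pow, eval_X, eval_one, eval_neg, eval_ofNat]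
      ring
    have e2 : eval 0 (fB (X : k[X])) = 54 := by
      unfold fB
      simp only [eval_mul, eval_add, eval_sub, eval_pow, eval_X, eval_one, eval_neg, eval_ofNat]
      ring
    have e3 : p.eval 0 = -(2 ^ 8 * 3 ^ 12) := by
      rw [hp]
      simp only [eval_mul, eval_add, eval_sub, eval_pow, eval_C, eval_ofNat, e1, e2]
      ring
    rw [e3]
    exact neg_ne_zero.2 (pow_ne' h2 h3)
  have hne : p ≠ 0 := by
    intro h5
    rw [h5, eval_zero] at h0
    exact h0 rfl
  exact aeval_ne hg hne h1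

end gen

section exi

variable {k : Type} [Field k] [Finite k]

theorem aeval_A (m p : k[X]) : aeval (A m) p = A (p.comp m) := by
  rw [A, aeval_algebraMap_apply, ← comp_eq_aeval]

/-- substitutions for the first family -/
theorem exists_b1 (h3 : (3 : k) ≠ 0) (hq3 : Nat.card k % 3 = 2)
    (hq : Nat.card k % 5 = 2 ∨ Nat.card k % 5 = 3) :
    W k (A (b1 k)) ≤ 3 ∧ ∀ l : ℕ, l.Prime → 7 ≤ l → l ∣ Nat.card k - 1 →
      ∃ c : k, c ≠ 0 ∧ ∀ j : ℕ, W k (A ((b1 k).comp (C c * X ^ l ^ j))) ≤ 3 := by
  have hirr := irr_b1 h3 hq3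
  constructor
  · have h := W_b1 hq (m := (X : k[X])) (by rw [natDegree_X]; exact odd_one)
      (by rw [natDegree_X]; norm_num) (by rw [comp_X]; exact hirr)
      (fun π hπ _ => by rw [comp_X]; exact hπ)
    rwa [comp_X] at h
  · intro l hl hl7 hd
    have hne : nd (b1 k) ≠ 0 := by
      intro h
      have := deg_nd (k := k) deg_b1
      rw [h, natDegree_zero] at this
      omega
    have h0 : (b1 k * nd (b1 k)).coeff 0 ≠ 0 := by
      have e1 : (b1 k).eval 0 = -1 := by
        unfold b1
        simp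
      have e2 : (nd (b1 k)).eval 0 = 11 := by
        unfold nd
        rw [eval_comp, e1]
        simp only [eval_sub, eval_mul, eval_pow, eval_X, eval_one, eval_ofNat]
        norm_num
      rw [coeff_zero_eq_eval_zero, eval_mul, e1, e2]
      exact mul_ne_zero (neg_ne_zero.2 one_ne_zero) (eleven_ne hq)
    have hdeg : (b1 k * nd (b1 k)).natDegree = 6 := by
      rw [natDegree_mul hirr.ne_zero hne, deg_b1, deg_nd deg_b1]
    obtain ⟨c, hc, hcirr⟩ := TH180.R4.exists_c h0 hl (by omega) (by rw [hdeg]; omega) hd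
    refine ⟨c, hc, fun j => ?_⟩
    have hmd : (C c * X ^ l ^ j : k[X]).natDegree = l ^ j := natDegree_C_mul_X_pow _ _ hc
    apply W_b1 hq
    · rw [hmd]
      exact Odd.pow (hl.odd_of_ne_two (by omega))
    · rw [hmd]
      intro h5
      have h6 := Nat.prime_five.dvd_of_dvd_pow h5
      have := (Nat.prime_dvd_prime_iff_eq Nat.prime_five hl).1 h6
      omega
    · exact hcirr j _ hirr (dvd_mul_right _ _)
    · exact fun π hπ hdv => hcirr j π hπ (hdv.mul_left _)

/-- substitutions for the second family -/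
theorem exists_b2 (h2 : (2 : k) ≠ 0) (hq : Nat.card k % 5 = 2 ∨ Nat.card k % 5 = 3)
    (h11 : IsSquare (-11 : k)) :
    W k (A (b2 k)) ≤ 3 ∧ ∀ l : ℕ, l.Prime → 7 ≤ l → l ∣ Nat.card k - 1 →
      ∃ c : k, c ≠ 0 ∧ ∀ j : ℕ, W k (A ((b2 k).comp (C c * X ^ l ^ j))) ≤ 3 := by
  have hlin : (2 - X : k[X]) = -(X - C 2) := by rw [map_ofNat]; ring
  have hirr : Irreducible (2 - X : k[X]) := by
    rw [hlin]
    exact (Associated.irreducible_iff (Associated.neg_left (Associated.refl _))).2
      (irreducible_X_sub_C (2 : k))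
  constructor
  · have e : (C (1 : k) * X ^ 1 : k[X]) = X := by rw [C_1, one_mul, pow_one]
    have h := W_b2 h2 hq h11 (c := 1) one_ne_zero (n := 1) odd_one (by norm_num)
      (by rw [e, comp_X]; exact hirr) (fun π hπ _ => by rw [e, comp_X]; exact hπ)
    rwa [e, comp_X] at h
  · intro l hl hl7 hd
    have hne : nd (b2 k) ≠ 0 := by
      intro h
      have := deg_nd (k := k) deg_b2
      rw [h, natDegree_zero] at this
      omega
    have h0 : ((2 - X : k[X]) * nd (b2 k)).coeff 0 ≠ 0 := by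
      have e1 : (b2 k).eval 0 = 0 := by
        unfold b2
        simp
      have e2 : (nd (b2 k)).eval 0 = -1 := by
        unfold nd
        rw [eval_comp, e1]
        simp
      rw [coeff_zero_eq_eval_zero, eval_mul, e2, eval_sub, eval_X, sub_zero, eval_ofNat]
      exact mul_ne_zero h2 (neg_ne_zero.2 one_ne_zero)
    have hd1 : (2 - X : k[X]).natDegree = 1 := by
      rw [hlin, natDegree_neg, natDegree_X_sub_C]
    have hdeg : ((2 - X : k[X]) * nd (b2 k)).natDegree = 5 := by
      rw [natDegree_mul hirr.ne_zero hne, hd1, deg_nd deg_b2]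
    obtain ⟨c, hc, hcirr⟩ := TH180.R4.exists_c h0 hl (by omega) (by rw [hdeg]; omega) hd
    refine ⟨c, hc, fun j => ?_⟩
    apply W_b2 h2 hq h11 hc
    · exact Odd.pow (hl.odd_of_ne_two (by omega))
    · intro h5
      have h6 := Nat.prime_five.dvd_of_dvd_pow h5
      have := (Nat.prime_dvd_prime_iff_eq Nat.prime_five hl).1 h6
      omega
    · exact hcirr j _ hirr (dvd_mul_right _ _)
    · exact fun π hπ hdv => hcirr j π hπ (hdv.mul_left _)

end exi

end Pool.Agent.R427.FT
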