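import Pool.Agent.R427.QR4
import Pool.Agent.R427.AQ4

/-!
The leading coefficient of the `L`-function modulo `l`.
-/

set_option autoImplicit false
set_option linter.all false
set_option maxHeartbeats 4000000

open FF Module

namespace Pool.Agent.R427.LC

open Pool.Agent.H123R3.ZT Pool.Agent.W343.BSD Pool.Agent.W313.Gr
open Pool.Agent.W309.T3 (rescale_eulerProd rescale_poly rm_comp binom_ne rm_binom card_char)
open Pool.Agent.TH639.B3 (den_rm)

section general

variable {k K : Type} [Field k] [Finite k] [Field K] [Algebra k K] [FF.IsFF k K] {l : ℕ}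
  [Fact l.Prime]

/-- the exact multiplicity -/
theorem exact (hlk : (l : k) ≠ 0) {a b : K}
    (hΔ : 4 * a ^ 3 + 27 * b ^ 2 ≠ 0) (hN : PointsDvd l k a b) {P : Polynomial ℤ}
    (hP : IsZetaNumRel k K P) (hr : constDeg k K = 1) {m : ℕ} {G : Polynomial ℤ}
    (hG : S.Lfun k a b = (((1 - Polynomial.C (Nat.card k : ℤ) * Polynomial.X) ^ m * G :
      Polynomial ℤ) : PowerSeries ℤ)) :
    G.map (Int.castRingHom (ZMod l)) ≠ 0 ∧
    m + (G.map (Int.castRingHom (ZMod l))).rootMultiplicity ((Nat.card k : ℕ) : ZMod l)⁻¹ +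
      (2 + 2 * (if ((Nat.card k : ℕ) : ZMod l) = 1 then 1 else 0)) =
      rootSum l k P + weightSum l k a b := by
  obtain ⟨A, R, hA, hR, hAR, hmu⟩ := exists_quotL hlk hΔ hN hP hr
  have hq := card_ne_zero_mod (k := k) hlk
  rw [den_rm hq] at hmu
  set x : ZMod l := ((Nat.card k : ℕ) : ZMod l)⁻¹ with hx
  set GG : Polynomial (ZMod l) := G.map (Int.castRingHom (ZMod l)) with hGG
  have hred : redL l (((1 - Polynomial.C (Nat.card k : ℤ) * Polynomial.X) ^ m * G :
      Polynomial ℤ) : PowerSeries ℤ) =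
      (((1 - Polynomial.C ((Nat.card k : ℕ) : ZMod l) * Polynomial.X) ^ m * GG :
        Polynomial (ZMod l)) : PowerSeries (ZMod l)) := by
    rw [redL_poly]
    congr 1
    rw [Polynomial.map_mul, Polynomial.map_pow, Polynomial.map_sub, Polynomial.map_one,
      Polynomial.map_mul, Polynomial.map_C, Polynomial.map_X]
    have h3 : (Int.castRingHom (ZMod l)) (Nat.card k : ℤ) = ((Nat.card k : ℕ) : ZMod l) := by
      rw [eq_intCast, Int.cast_natCast]
    rw [h3]
  rw [hG, hred] at hAR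
  have h3 : A * ((1 - Polynomial.C ((Nat.card k : ℕ) : ZMod l) * Polynomial.X) ^ m * GG) = R := by
    apply Polynomial.coe_injective
    rw [Polynomial.coe_mul, ← hAR]
  have h5 : (1 - Polynomial.C ((Nat.card k : ℕ) : ZMod l) * Polynomial.X) ^ m * GG ≠ 0 := by
    intro h
    rw [h, mul_zero] at h3
    exact hR h3.symm
  have hlin : (1 - Polynomial.C ((Nat.card k : ℕ) : ZMod l) * Polynomial.X :
      Polynomial (ZMod l)) ≠ 0 := by
    have := binom_ne (c := ((Nat.card k : ℕ) : ZMod l)) one_pos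
    rwa [pow_one] at this
  have h6 := congrArg (Polynomial.rootMultiplicity x) h3
  rw [rm_mul x hA h5, rm_mul x (left_ne_zero_of_mul h5)
    (right_ne_zero_of_mul h5), rm_pow x hlin, rm_linear hq] at h6
  exact ⟨right_ne_zero_of_mul h5, by omega⟩

/-- the value at `1 / q` as a rational number -/
theorem value_iff (hlk : (l : k) ≠ 0) {G : Polynomial ℤ} :
    (G.map (Int.castRingHom (ZMod l))).eval ((Nat.card k : ℕ) : ZMod l)⁻¹ ≠ 0 ↔
    ((G.map (Int.castRingHom ℚ)).eval ((Nat.card k : ℕ) : ℚ)⁻¹ ≠ 0 ∧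
      padicValRat l ((G.map (Int.castRingHom ℚ)).eval ((Nat.card k : ℕ) : ℚ)⁻¹) = 0) := by
  have hq := card_ne_zero_mod (k := k) hlk
  have hqn : Nat.card k ≠ 0 := Nat.card_pos.ne'
  have hqQ : ((Nat.card k : ℕ) : ℚ) ≠ 0 := by exact_mod_cast hqn
  set n := G.natDegree with hn
  set N : ℤ := ∑ i ∈ Finset.range (n + 1), G.coeff i * (Nat.card k : ℤ) ^ (n - i) with hN
  have gen : ∀ {R : Type} [Field R] (f : ℤ →+* R) (_ : ((Nat.card k : ℕ) : R) ≠ 0),
      ((Nat.card k : ℕ) : R) ^ n * (G.map f).eval ((Nat.card k : ℕ) : R)⁻¹ = f N := by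
    intro R _ f hqR
    have h2 : (G.map f).natDegree < n + 1 := lt_of_le_of_lt Polynomial.natDegree_map_le (by omega)
    rw [Polynomial.eval_eq_sum_range' h2, hN, map_sum, Finset.mul_sum]
    refine Finset.sum_congr rfl fun i hi => ?_
    have hi' := Finset.mem_range.1 hi
    have e : ((Nat.card k : ℕ) : R) ^ n = ((Nat.card k : ℕ) : R) ^ (n - i) *
        ((Nat.card k : ℕ) : R) ^ i := by
      rw [← pow_add]
      congr 1
      omega
    have e2 : ((Nat.card k : ℕ) : R) ^ i * ((Nat.card k : ℕ) : R)⁻¹ ^ i = 1 := by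
      rw [← mul_pow, mul_inv_cancel₀ hqR, one_pow]
    rw [Polynomial.coeff_map, e, map_mul, map_pow, map_natCast]
    linear_combination (f (G.coeff i) * ((Nat.card k : ℕ) : R) ^ (n - i)) * e2
  have h1 := gen (Int.castRingHom (ZMod l)) hq
  have h2 := gen (Int.castRingHom ℚ) hqQ
  rw [eq_intCast] at h1 h2
  have h5 : padicValRat l ((Nat.card k : ℕ) : ℚ) = 0 := by
    rw [padicValRat.of_nat]
    have : ¬ l ∣ Nat.card k := by
      intro hd
      exact hq ((ZMod.natCast_eq_zero_iff _ _).2 hd)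
    rw [padicValNat.eq_zero_of_not_dvd this, Nat.cast_zero]
  refine ⟨fun h => AQ.rat_value hlk h, ?_⟩
  rintro ⟨hxne, hv⟩ h0
  rw [h0, mul_zero] at h1
  have hNd : (l : ℤ) ∣ N := (ZMod.intCast_zmod_eq_zero_iff_dvd _ _).1 h1.symm
  have hNQ : (N : ℚ) ≠ 0 := by
    rw [← h2]
    exact mul_ne_zero (pow_ne_zero n hqQ) hxne
  have hN0 : N ≠ 0 := by exact_mod_cast hNQ
  have h3 := congrArg (padicValRat l) h2
  rw [padicValRat.mul (pow_ne_zero n hqQ) hxne, padicValRat.pow, h5, hv, mul_zero, zero_add,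
    padicValRat.of_int] at h3
  have h4 : padicValInt l N = 0 := by exact_mod_cast h3.symm
  unfold padicValInt at h4
  rcases padicValNat.eq_zero_iff.1 h4 with h6 | h6 | h6
  · exact (Fact.out : l.Prime).ne_one h6
  · exact hN0 (Int.natAbs_eq_zero.1 h6)
  · exact h6 (Int.natCast_dvd.1 hNd)

/-- **The leading coefficient is a unit if and only if the order is the bound.** -/
theorem main (hlk : (l : k) ≠ 0) {a b : K}
    (hΔ : 4 * a ^ 3 + 27 * b ^ 2 ≠ 0) (hN : PointsDvd l k a b) {P : Polynomial ℤ}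
    (hP : IsZetaNumRel k K P) (hr : constDeg k K = 1) {m : ℕ} {G : Polynomial ℤ}
    (hG : S.Lfun k a b = (((1 - Polynomial.C (Nat.card k : ℤ) * Polynomial.X) ^ m * G :
      Polynomial ℤ) : PowerSeries ℤ)) :
    m + (2 + 2 * (if ((Nat.card k : ℕ) : ZMod l) = 1 then 1 else 0)) ≤
      rootSum l k P + weightSum l k a b ∧
    (m + (2 + 2 * (if ((Nat.card k : ℕ) : ZMod l) = 1 then 1 else 0)) =
      rootSum l k P + weightSum l k a b ↔
        ((G.map (Int.castRingHom ℚ)).eval ((Nat.card k : ℕ) : ℚ)⁻¹ ≠ 0 ∧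
          padicValRat l ((G.map (Int.castRingHom ℚ)).eval ((Nat.card k : ℕ) : ℚ)⁻¹) = 0)) := by
  obtain ⟨h0, h1⟩ := exact hlk hΔ hN hP hr hG
  refine ⟨by omega, ?_⟩
  rw [← value_iff hlk]
  have h2 : (G.map (Int.castRingHom (ZMod l))).rootMultiplicity ((Nat.card k : ℕ) : ZMod l)⁻¹ = 0 ↔
      (G.map (Int.castRingHom (ZMod l))).eval ((Nat.card k : ℕ) : ZMod l)⁻¹ ≠ 0 := by
    constructor
    · intro h h3
      have h4 := (Polynomial.rootMultiplicity_pos h0).2 h3
      omega
    · exact Polynomial.rootMultiplicity_eq_zero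
  rw [← h2]
  omega

end general

end Pool.Agent.R427.LC
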