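import Pool.Agent.R427.SV2

/-!
Curves with a point of order seven: the parametrization.
-/

set_option autoImplicit false
set_option linter.all false
set_option maxHeartbeats 4000000

open WeierstrassCurve WeierstrassCurve.Affine

namespace Pool.Agent.R427.SV

open Pool.Agent.W343.BSD
open Pool.Agent.W313.Gr (curve)
open Pool.Agent.TH639.B3 (curve_eq)

section alg

variable {F : Type} [Field F]

theorem seven_alg (h2 : (2 : F) ≠ 0) (h3 : (3 : F) ≠ 0) {a b x y m D E : F} (hy : y ≠ 0)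
    (heq : y ^ 2 = x ^ 3 + a * x + b) (hm : m * (2 * y) = 3 * x ^ 2 + a)
    (hD : D = m ^ 2 - 3 * x) (hD0 : D ≠ 0) (hE0 : E ≠ 0)
    (h1 : E * D ^ 2 = (2 * y) * (2 * m * D + 2 * y))
    (h7 : E ^ 3 * D = (2 * y) ^ 2 * (D - E)) :
    a = ((2 * y) / (6 * D)) ^ 4 * sA (D / E) ∧ b = ((2 * y) / (6 * D)) ^ 6 * sB (D / E) := by
  obtain ⟨s, hs⟩ : ∃ s, s = 2 * y := ⟨_, rfl⟩
  have hs0 : s ≠ 0 := by rw [hs]; exact mul_ne_zero h2 hy
  rw [← hs] at hm h1 h7 ⊢
  obtain ⟨u, hu⟩ : ∃ u, u = s / D := ⟨_, rfl⟩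
  obtain ⟨d, hd⟩ : ∃ d, d = D / E := ⟨_, rfl⟩
  have hu0 : u ≠ 0 := by rw [hu]; exact div_ne_zero hs0 hD0
  have hd0 : d ≠ 0 := by rw [hd]; exact div_ne_zero hD0 hE0
  have esu : s = u * D := by rw [hu, div_mul_cancel₀ _ hD0]
  have eDd : D = d * E := by rw [hd, div_mul_cancel₀ _ hE0]
  have h6 : (6 : F) ≠ 0 := by
    have : (6 : F) = 2 * 3 := by norm_num
    rw [this]
    exact mul_ne_zero h2 h3
  -- `E = u ^ 2 d (d - 1)`
  have eE : E = u ^ 2 * (d ^ 2 - d) := by
    have e1 : (d * E ^ 3) * (E - u ^ 2 * (d ^ 2 - d)) = 0 := by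
      rw [esu, eDd] at h7
      linear_combination h7
    have e2 := (mul_eq_zero.1 e1).resolve_left (mul_ne_zero hd0 (pow_ne_zero 3 hE0))
    exact sub_eq_zero.1 e2
  have em : 2 * m = u * (d ^ 2 - d - 1) := by
    have e1 : (u * D ^ 2) * (2 * m - u * (d ^ 2 - d - 1)) = 0 := by
      rw [esu] at h1
      linear_combination -h1 + D ^ 2 * eE
    have e2 := (mul_eq_zero.1 e1).resolve_left (mul_ne_zero hu0 (pow_ne_zero 2 hD0))
    exact sub_eq_zero.1 e2
  have eD : D = u ^ 2 * (d ^ 3 - d ^ 2) := by rw [eDd, eE]; ring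
  have es : s = u ^ 3 * (d ^ 3 - d ^ 2) := by rw [esu, eD]; ring
  have em' : m = u * (d ^ 2 - d - 1) / 2 := by
    rw [eq_div_iff h2]; linear_combination em
  have ex : x = (m ^ 2 - D) / 3 := by
    rw [eq_div_iff h3]; linear_combination hD
  have ea : a = m * s - 3 * x ^ 2 := by linear_combination -hm
  have ey : y = s / 2 := by rw [eq_div_iff h2]; linear_combination -hs
  have eb : b = y ^ 2 - x ^ 3 - a * x := by linear_combination -heq
  have esD : s / (6 * D) = u / 6 := by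
    rw [hu]
    field_simp
  rw [esD, ← hd]
  constructor
  · rw [ea, ex, em', es, eD]
    unfold sA
    field_simp
    ring
  · rw [eb, ea, ex, ey, em', es, eD]
    unfold sB
    field_simp
    ring

end alg

section pts

variable {F : Type} [Field F] [DecidableEq F] {a b : F}

theorem neg_y (x y : F) : (curve a b).toAffine.negY x y = -y := by
  show -y - 0 * x - 0 = -y
  ring

/-- points with the same first coordinate -/
theorem eq_or_neg {x1 y1 x2 y2 : F} (h1 : (curve a b).toAffine.Nonsingular x1 y1)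
    (h2 : (curve a b).toAffine.Nonsingular x2 y2) (hx : x1 = x2) :
    (Point.some x1 y1 h1 : (curve a b).toAffine.Point) = Point.some x2 y2 h2 ∨
      (Point.some x1 y1 h1 : (curve a b).toAffine.Point) = -Point.some x2 y2 h2 := by
  subst hx
  have e1 := (curve_eq a b x1 y1).1 h1.1
  have e2 := (curve_eq a b x1 y2).1 h2.1
  have e3 : (y1 - y2) * (y1 + y2) = 0 := by linear_combination e1 - e2
  rcases mul_eq_zero.1 e3 with h | h
  · left
    have := sub_eq_zero.1 h
    subst this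
    rfl
  · right
    rw [Point.neg_some]
    have : y1 = -y2 := eq_neg_of_add_eq_zero_left h
    subst this
    congr 1
    rw [neg_y]

/-- addition of points with different first coordinates -/
theorem add_pt {x1 y1 x2 y2 : F} (h1 : (curve a b).toAffine.Nonsingular x1 y1)
    (h2 : (curve a b).toAffine.Nonsingular x2 y2) (hx : x1 ≠ x2) :
    ∃ (x3 y3 μ : F) (h3 : (curve a b).toAffine.Nonsingular x3 y3), μ * (x1 - x2) = y1 - y2 ∧
      x3 = μ ^ 2 - x1 - x2 ∧ y3 = -(y1 + μ * (x3 - x1)) ∧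
      (Point.some x1 y1 h1 + Point.some x2 y2 h2 : (curve a b).toAffine.Point) =
        Point.some x3 y3 h3 := by
  have h3 := Point.add_of_X_ne (h₁ := h1) (h₂ := h2) hx
  refine ⟨_, _, (curve a b).toAffine.slope x1 x2 y1 y2, _, ?_, ?_, ?_, h3⟩
  · rw [slope_of_X_ne hx]
    exact div_mul_cancel₀ _ (sub_ne_zero.2 hx)
  · show _ ^ 2 + 0 * _ - 0 - x1 - x2 = _
    ring
  · unfold addY negAddY
    rw [neg_y]
    ring

/-- doubling -/
theorem dbl_pt (h2 : (2 : F) ≠ 0) {x y : F} (h : (curve a b).toAffine.Nonsingular x y)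
    (hy : y ≠ 0) :
    ∃ (x3 y3 m : F) (h3 : (curve a b).toAffine.Nonsingular x3 y3), m * (2 * y) = 3 * x ^ 2 + a ∧
      x3 = m ^ 2 - 2 * x ∧ y3 = -(y + m * (x3 - x)) ∧
      (Point.some x y h + Point.some x y h : (curve a b).toAffine.Point) =
        Point.some x3 y3 h3 := by
  have h2y : y - -y ≠ 0 := by
    have : y - -y = 2 * y := by ring
    rw [this]
    exact mul_ne_zero h2 hy
  have hY : y ≠ (curve a b).toAffine.negY x y := by
    rw [neg_y]
    exact sub_ne_zero.1 h2y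
  have h3 := Point.add_self_of_Y_ne (h₁ := h) hY
  have hsl : (curve a b).toAffine.slope x x y y = (3 * x ^ 2 + a) / (2 * y) := by
    rw [slope_of_Y_ne rfl hY, neg_y]
    show (3 * x ^ 2 + 2 * 0 * x + a - 0 * y) / (y - -y) = _
    have e1 : 3 * x ^ 2 + 2 * 0 * x + a - 0 * y = 3 * x ^ 2 + a := by ring
    have e2 : y - -y = 2 * y := by ring
    rw [e1, e2]
  refine ⟨_, _, (curve a b).toAffine.slope x x y y, _, ?_, ?_, ?_, h3⟩
  · rw [hsl]
    exact div_mul_cancel₀ _ (mul_ne_zero h2 hy)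
  · show _ ^ 2 + 0 * _ - 0 - x - x = _
    ring
  · unfold addY negAddY
    rw [neg_y]
    ring

/-- curves with a point of order seven -/
theorem seven_param (h2 : (2 : F) ≠ 0) (h3 : (3 : F) ≠ 0)
    (P : (curve a b).toAffine.Point) (hP : addOrderOf P = 7) :
    ∃ lam d : F, lam ≠ 0 ∧ a = lam ^ 4 * sA d ∧ b = lam ^ 6 * sB d := by
  have h7P : (7 : ℕ) • P = 0 := by
    rw [← hP]
    exact addOrderOf_nsmul_eq_zero P
  have hn : ∀ n : ℕ, n • P = 0 → 7 ∣ n := fun n h => by
    rw [← hP]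
    exact addOrderOf_dvd_of_nsmul_eq_zero h
  have hne : P ≠ 0 := by
    intro h
    have := hn 1 (by rw [one_smul]; exact h)
    omega
  rcases P with _ | ⟨x, y, hns⟩
  · exact absurd rfl hne
  have heq := (curve_eq a b x y).1 hns.1
  have hy0 : y ≠ 0 := by
    intro hy
    have hY : y = (curve a b).toAffine.negY x y := by rw [neg_y, hy, neg_zero]
    have h1 := Point.add_self_of_Y_eq (h₁ := hns) hY
    have := hn 2 (by rw [two_smul]; exact h1)
    omega
  set P : (curve a b).toAffine.Point := Point.some x y hns with hPdef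
  obtain ⟨x2, y2, m, hns2, hm, hx2, hy2, h2P⟩ := dbl_pt h2 hns hy0
  rw [← hPdef] at h2P
  have hx12 : x2 ≠ x := by
    intro h
    rcases eq_or_neg hns2 hns h with e | e
    · rw [← h2P, ← hPdef] at e
      have := congrArg (fun Q => Q - P) e
      simp only [add_sub_cancel_right, sub_self] at this
      exact hne this
    · rw [← h2P, ← hPdef] at e
      have h3P : (3 : ℕ) • P = (P + P) + P := by
        rw [show (3 : ℕ) = 2 + 1 from rfl, add_smul, two_smul, one_smul]
      have := hn 3 (by rw [h3P, e, neg_add_cancel])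
      omega
  obtain ⟨x3, y3, μ, hns3, hμ, hx3, hy3, h3P⟩ := add_pt hns2 hns hx12
  rw [← hPdef, ← h2P] at h3P
  have hx13 : x3 ≠ x := by
    intro h
    rcases eq_or_neg hns3 hns h with e | e
    · rw [← h3P, ← hPdef] at e
      have := congrArg (fun Q => Q - P) e
      simp only [add_sub_cancel_right, sub_self] at this
      have := hn 2 (by rw [two_smul]; exact this)
      omega
    · rw [← h3P, ← hPdef] at e
      have h4P : (4 : ℕ) • P = ((P + P) + P) + P := by
        rw [show (4 : ℕ) = 2 + 1 + 1 from rfl, add_smul, add_smul, two_smul, one_smul]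
      have := hn 4 (by rw [h4P, e, neg_add_cancel])
      omega
  obtain ⟨x4, y4, ν, hns4, hν, hx4, hy4, h4P⟩ := add_pt hns3 hns hx13
  rw [← hPdef, ← h3P] at h4P
  have hneg : ((P + P) + P) + P = -((P + P) + P) := by
    have e1 : (7 : ℕ) • P = (((P + P) + P) + P) + ((P + P) + P) := by
      rw [show (7 : ℕ) = 2 + 1 + 1 + 2 + 1 from rfl]
      simp only [add_smul, two_smul, one_smul]
      abel
    rw [h7P] at e1
    exact eq_neg_of_add_eq_zero_left e1.symm
  rw [h4P, h3P, Point.neg_some] at hneg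
  have hx43 : x4 = x3 := (Point.some.inj hneg).1
  -- the algebra
  obtain ⟨D, hD⟩ : ∃ D, D = x2 - x := ⟨_, rfl⟩
  obtain ⟨E, hE⟩ : ∃ E, E = x3 - x := ⟨_, rfl⟩
  obtain ⟨s, hs⟩ : ∃ s, s = 2 * y := ⟨_, rfl⟩
  have hD0 : D ≠ 0 := by rw [hD]; exact sub_ne_zero.2 hx12
  have hE0 : E ≠ 0 := by rw [hE]; exact sub_ne_zero.2 hx13
  have hDm : D = m ^ 2 - 3 * x := by rw [hD, hx2]; ring
  have e1 : μ * D = -(s + m * D) := by
    rw [hD, hμ, hy2, hs]; ring
  have e2 : E = μ ^ 2 - D - 3 * x := by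
    rw [hE, hx3, hD]; ring
  have e3 : ν * E = -(s + μ * E) := by
    have t1 : y3 = -(y + μ * (x3 - x)) := by
      rw [hy3]
      linear_combination hμ
    rw [hE, hν, t1, hs]; ring
  have e4 : ν ^ 2 = 3 * x + 2 * E := by
    have t1 := hx4
    rw [hx43] at t1
    rw [hE]
    linear_combination -t1
  have k1 : E * D ^ 2 = s * (2 * m * D + s) := by
    have t1 : (μ * D) ^ 2 = (s + m * D) ^ 2 := by rw [e1]; ring
    linear_combination D ^ 2 * e2 + t1 - D ^ 2 * hDm
  have k2 : E ^ 3 * D = s ^ 2 * (D - E) := by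
    -- `ν D E = (s + m D) E - s D`
    have t1 : ν * (D * E) = (s + m * D) * E - s * D := by
      linear_combination D * e3 - E * e1
    have t2 : ((s + m * D) * E - s * D) ^ 2 = (D * E) ^ 2 * (3 * x + 2 * E) := by
      rw [← t1, ← e4]; ring
    have t3 : D * (E ^ 3 * D - s ^ 2 * (D - E)) = 0 := by
      linear_combination -t2 - (E ^ 2 * D ^ 2) * hDm - (E ^ 2 - E * D) * k1
    exact sub_eq_zero.1 ((mul_eq_zero.1 t3).resolve_left hD0)
  rw [hs] at k1 k2
  obtain ⟨r1, r2⟩ := seven_alg h2 h3 hy0 heq hm hDm hD0 hE0 k1 k2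
  have h6 : (6 : F) ≠ 0 := by
    have : (6 : F) = 2 * 3 := by norm_num
    rw [this]
    exact mul_ne_zero h2 h3
  exact ⟨_, _, div_ne_zero (mul_ne_zero h2 hy0) (mul_ne_zero h6 hD0), r1, r2⟩

end pts

section all

open FF
open Pool.Agent.W313.Gr (PointsDvd)
open Pool.Agent.R427.TW (SemiAt semiAt_of scale_min scale_all trace_data trace_data' five_param)
open Pool.Agent.R427.AQ (NodeAt)
open Pool.Agent.R427.FT (fA fB)

variable {k K : Type} [Field k] [Finite k] [Field K] [Algebra k K] [FF.IsFF k K]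

theorem char_up (n : ℕ) (h : ((n : ℕ) : k) ≠ 0) : ((n : ℕ) : K) ≠ 0 := by
  rw [← map_natCast (algebraMap k K) n]
  exact (_root_.map_ne_zero _).2 h

/-- curves with a point of order seven -/
theorem of_seven [DecidableEq K] (h2 : (2 : k) ≠ 0) (h3 : (3 : k) ≠ 0) (h7 : (7 : k) ≠ 0)
    {a b : K} (hΔ : 4 * a ^ 3 + 27 * b ^ 2 ≠ 0) (P : (curve a b).toAffine.Point)
    (hP : addOrderOf P = 7) : PointsDvd 7 k a b ∧ (∀ v : Place k K, SemiAt v a b) ∧
      ∀ v : Place k K, NodeAt 7 v a b := by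
  have h2K : (2 : K) ≠ 0 := by exact_mod_cast char_up (K := K) 2 (by exact_mod_cast h2)
  have h3K : (3 : K) ≠ 0 := by exact_mod_cast char_up (K := K) 3 (by exact_mod_cast h3)
  obtain ⟨lam, g, hl, rfl, rfl⟩ := seven_param h2K h3K P hP
  have hΔg : 4 * sA g ^ 3 + 27 * sB g ^ 2 ≠ 0 := by
    intro h
    apply hΔ
    have e : 4 * (lam ^ 4 * sA g) ^ 3 + 27 * (lam ^ 6 * sB g) ^ 2 =
      lam ^ 12 * (4 * sA g ^ 3 + 27 * sB g ^ 2) := by ring
    rw [e, h, mul_zero]
  refine ⟨?_, ?_, ?_⟩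
  · intro v hv
    obtain ⟨s1, s2⟩ := scale_all (v := v) hl hΔg
    rw [s1]
    exact dvd_good7 h2 h3 h7 hΔg v (s2.1 hv)
  · intro v
    obtain ⟨c, hc, h0⟩ := semi7 h2 h3 h7 hΔg v
    refine semiAt_of h3 hΔ (scale_min hl hc) ?_
    have e1 : (c / lam) ^ 4 * (lam ^ 4 * sA g) = c ^ 4 * sA g := by field_simp
    have e2 : (c / lam) ^ 6 * (lam ^ 6 * sB g) = c ^ 6 * sB g := by field_simp
    rw [e1, e2]
    exact h0
  · intro v hv
    obtain ⟨s1, s2⟩ := scale_all (v := v) hl hΔg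
    rw [s1]
    exact node7 h2 h3 h7 hΔg v fun h => hv (s2.2 h)

/-- the condition at the bad places for curves with a point of order five -/
theorem node_five [DecidableEq K] (h2 : (2 : k) ≠ 0) (h3 : (3 : k) ≠ 0) (h5 : (5 : k) ≠ 0)
    {a b : K} (hΔ : 4 * a ^ 3 + 27 * b ^ 2 ≠ 0) (P : (curve a b).toAffine.Point)
    (hP : addOrderOf P = 5) (v : Place k K) : NodeAt 5 v a b := by
  have h2K : (2 : K) ≠ 0 := by exact_mod_cast char_up (K := K) 2 (by exact_mod_cast h2)
  have h3K : (3 : K) ≠ 0 := by exact_mod_cast char_up (K := K) 3 (by exact_mod_cast h3)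
  obtain ⟨lam, g, hl, hg, rfl, rfl⟩ := five_param h2K h3K P hP
  have hΔg : 4 * fA g ^ 3 + 27 * fB g ^ 2 ≠ 0 := by
    intro h
    apply hΔ
    have e : 4 * (lam ^ 4 * fA g) ^ 3 + 27 * (lam ^ 6 * fB g) ^ 2 =
      lam ^ 12 * (4 * fA g ^ 3 + 27 * fB g ^ 2) := by ring
    rw [e, h, mul_zero]
  intro hv
  obtain ⟨s1, s2⟩ := scale_all (v := v) hl hΔg
  rw [s1]
  have hv' : v.red (minDisc v (fA g) (fB g)) = 0 := by
    by_contra h
    exact hv (s2.2 ((S.ord_disc_iff v hΔg).2 h))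
  rcases (trace_data h2 h3 h5 hg hΔg v).2 hv' with h | ⟨h, hd⟩
  · exact Or.inl h
  · rcases h with h | h
    · right
      rw [h, sub_neg_eq_add] at hd
      exact_mod_cast hd
    · exact Or.inl h

end all

end Pool.Agent.R427.SV
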