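import Pool.Agent.R427.TW20

/-!
Curves with a point of order five: the conditions.
-/

set_option autoImplicit false
set_option linter.all false
set_option maxHeartbeats 4000000

open FF Module

namespace Pool.Agent.R427.TW

open Pool.Agent.W343.BSD Pool.Agent.H123R3.ZT Pool.Agent.H525R3.FFp
open Pool.Agent.W313.Gr (PointsDvd curve)
open Pool.Agent.R427.FT (fA fB)

section scale

variable {k K : Type} [Field k] [Finite k] [Field K] [Algebra k K] [FF.IsFF k K]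

theorem scale_min {v : Place k K} {a b c lam : K} (hl : lam ≠ 0) (hc : IsMinScale v a b c) :
    IsMinScale v (lam ^ 4 * a) (lam ^ 6 * b) (c / lam) := by
  have e1 : (c / lam) ^ 4 * (lam ^ 4 * a) = c ^ 4 * a := by field_simp
  have e2 : (c / lam) ^ 6 * (lam ^ 6 * b) = c ^ 6 * b := by field_simp
  have h4 : ∀ x : K, lam ^ 4 * x = 0 ↔ x = 0 := fun x => by
    rw [mul_eq_zero]
    exact ⟨fun h => h.resolve_left (pow_ne_zero 4 hl), Or.inr⟩
  have h6 : ∀ x : K, lam ^ 6 * x = 0 ↔ x = 0 := fun x => by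
    rw [mul_eq_zero]
    exact ⟨fun h => h.resolve_left (pow_ne_zero 6 hl), Or.inr⟩
  refine ⟨div_ne_zero hc.1 hl, ?_, ?_, ?_⟩
  · rw [e1]; exact hc.2.1
  · rw [e2]; exact hc.2.2.1
  · rw [e1, e2, h4, h6]
    exact hc.2.2.2

theorem scale_all {v : Place k K} {a b lam : K} (hl : lam ≠ 0)
    (hΔ : 4 * a ^ 3 + 27 * b ^ 2 ≠ 0) :
    S.trace v (lam ^ 4 * a) (lam ^ 6 * b) = S.trace v a b ∧
      (v.ord (minDisc v (lam ^ 4 * a) (lam ^ 6 * b)) = 0 ↔ v.ord (minDisc v a b) = 0) := by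
  have hc := minScale_spec v (ab_of_disc hΔ)
  have hc' := scale_min hl hc
  have eD : 4 * (lam ^ 4 * a) ^ 3 + 27 * (lam ^ 6 * b) ^ 2 =
      lam ^ 12 * (4 * a ^ 3 + 27 * b ^ 2) := by ring
  have hΔ' : 4 * (lam ^ 4 * a) ^ 3 + 27 * (lam ^ 6 * b) ^ 2 ≠ 0 := by
    rw [eD]
    exact mul_ne_zero (pow_ne_zero 12 hl) hΔ
  have e1 : (minScale v a b / lam) ^ 4 * (lam ^ 4 * a) = minScale v a b ^ 4 * a := by field_simp
  have e2 : (minScale v a b / lam) ^ 6 * (lam ^ 6 * b) = minScale v a b ^ 6 * b := by field_simp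
  constructor
  · rw [S.trace_eq, S.trace_eq, trace_of_min v (ab_of_disc hΔ') hc',
      trace_of_min v (ab_of_disc hΔ) hc, e1, e2]
  · rw [ord_minDisc_of_min v hΔ' hc', ord_minDisc_of_min v hΔ hc, eD,
      v.ord_mul (pow_ne_zero 12 hl) hΔ, v.ord_pow, v.ord_div hc.1 hl]
    push_cast
    constructor
    · intro h; linear_combination h
    · intro h; linear_combination h

/-- curves with a point of order five -/
theorem of_five [DecidableEq K] (h2 : (2 : k) ≠ 0) (h3 : (3 : k) ≠ 0) (h5 : (5 : k) ≠ 0)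
    {a b : K} (hΔ : 4 * a ^ 3 + 27 * b ^ 2 ≠ 0) (P : (curve a b).toAffine.Point)
    (hP : addOrderOf P = 5) : PointsDvd 5 k a b ∧ ∀ v : Place k K, SemiAt v a b := by
  have h2K : (2 : K) ≠ 0 := by
    have : algebraMap k K 2 ≠ 0 := by simpa using h2
    rwa [map_ofNat] at this
  have h3K : (3 : K) ≠ 0 := by
    have : algebraMap k K 3 ≠ 0 := by simpa using h3
    rwa [map_ofNat] at this
  obtain ⟨lam, g, hl, hg, rfl, rfl⟩ := five_param h2K h3K P hP
  have hΔg : 4 * fA g ^ 3 + 27 * fB g ^ 2 ≠ 0 := by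
    intro h
    apply hΔ
    have e : 4 * (lam ^ 4 * fA g) ^ 3 + 27 * (lam ^ 6 * fB g) ^ 2 =
      lam ^ 12 * (4 * fA g ^ 3 + 27 * fB g ^ 2) := by ring
    rw [e, h, mul_zero]
  constructor
  · intro v hv
    obtain ⟨s1, s2⟩ := scale_all (v := v) hl hΔg
    rw [s1]
    exact Pool.Agent.R427.FT.dvd_good h2 h3 h5 hg hΔg v (s2.1 hv)
  · intro v
    obtain ⟨⟨c, hc, h0⟩, -⟩ := trace_data' h2 h3 h5 hg hΔg v
    refine semiAt_of h3 hΔ (scale_min hl hc) ?_
    have e1 : (c / lam) ^ 4 * (lam ^ 4 * fA g) = c ^ 4 * fA g := by field_simp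
    have e2 : (c / lam) ^ 6 * (lam ^ 6 * fB g) = c ^ 6 * fB g := by field_simp
    rw [e1, e2]
    exact h0

end scale

end Pool.Agent.R427.TW
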