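import Pool.Agent.R427.LC1
import Pool.Agent.R427.TW21
import Pool.Agent.R427.SV3

/-!
The leading coefficient of the `L`-function modulo `l`: the families.
-/

set_option autoImplicit false
set_option linter.all false
set_option maxHeartbeats 4000000

open FF Module WeierstrassCurve WeierstrassCurve.Affine
open scoped Classical

namespace Pool.Agent.R427.LC

open Pool.Agent.H123R3.ZT Pool.Agent.W343.BSD Pool.Agent.W313.Gr
open Pool.Agent.TH180.R2 (zero_finite supp_finite)
open Pool.Agent.H525R3.FFp (finite_support)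

section sums

variable {k K : Type} [Field k] [Finite k] [Field K] [Algebra k K] [FF.IsFF k K]

theorem sum_seven (h2 : (2 : k) ≠ 0) (h3 : (3 : k) ≠ 0) (h7 : (7 : k) ≠ 0) {g : K}
    (hΔ : 4 * SV.sA g ^ 3 + 27 * SV.sB g ^ 2 ≠ 0) (hc : QR.cub g ≠ 0) :
    weightSum 7 k (SV.sA g) (SV.sB g) ≤ QR.W k g := by
  rw [← QR.wt_sum]
  unfold weightSum
  have hs1 : (Function.support fun v : Place k K => weight 7 v (SV.sA g) (SV.sB g)).Finite := by
    refine (QR.supp4 (k := k) g).subset ?_
    intro v hv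
    rw [Function.mem_support] at hv ⊢
    have := QR.weight_le h2 h3 h7 hΔ hc v
    omega
  exact finsum_le_finsum' hs1 (QR.supp4 g) (QR.weight_le h2 h3 h7 hΔ hc)

theorem sum_five (h2 : (2 : k) ≠ 0) (h3 : (3 : k) ≠ 0) (h5 : (5 : k) ≠ 0) {g : K} (hg : g ≠ 0)
    (hg2 : g ^ 2 - 11 * g - 1 ≠ 0) (hΔ : 4 * FT.fA g ^ 3 + 27 * FT.fB g ^ 2 ≠ 0) :
    weightSum 5 k (FT.fA g) (FT.fB g) ≤ FT.W k g := by
  refine le_trans ?_ (FT.wtSum_le (k := k) hg)
  unfold weightSum
  have hs2 : (Function.support fun v : Place k K => FT.wt v g).Finite := by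
    refine ((finite_support (k := k) g).union (zero_finite (k := k) (g ^ 2 - 11 * g - 1))).subset ?_
    intro v hv
    rw [Function.mem_support] at hv
    by_contra h
    rw [Set.mem_union, not_or] at h
    apply hv
    have e1 : ¬ v.ord g ≠ 0 := h.1
    have e2 : ¬ 0 < v.ord (g ^ 2 - 11 * g - 1) := h.2
    unfold FT.wt
    rw [if_neg e1, if_neg (fun h => e2 h.1), zero_mul]
  have hs1 : (Function.support fun v : Place k K => weight 5 v (FT.fA g) (FT.fB g)).Finite := by
    refine hs2.subset ?_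
    intro v hv
    rw [Function.mem_support] at hv ⊢
    have := FT.weight_le h2 h3 h5 hg hg2 hΔ v
    omega
  exact finsum_le_finsum' hs1 hs2 (FT.weight_le h2 h3 h5 hg hg2 hΔ)

/-- the points of order two -/
theorem points_two (h6 : (6 : k) ≠ 0) {a b : K} (hΔ : 4 * a ^ 3 + 27 * b ^ 2 ≠ 0)
    (P : (curve a b).toAffine.Point) (hP : addOrderOf P = 2) : PointsDvd 2 k a b := by
  have h2 : (2 : K) ≠ 0 := by
    have h2k : (2 : k) ≠ 0 := fun e => h6 (by linear_combination 3 * e)
    have : algebraMap k K 2 ≠ 0 := by simpa using h2k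
    rwa [map_ofNat] at this
  have h2P : (2 : ℕ) • P = 0 := by
    rw [← hP]
    exact addOrderOf_nsmul_eq_zero P
  have hne : P ≠ 0 := by
    rintro rfl
    rw [addOrderOf_zero] at hP
    norm_num at hP
  rcases P with _ | ⟨x, y, h⟩
  · exact absurd rfl hne
  · have hy : y = 0 := by
      rw [two_nsmul] at h2P
      have h3 := eq_neg_of_add_eq_zero_left h2P
      rw [Point.neg_some] at h3
      have h4 := (Point.some.injEq _ _ _ _ _ _).mp h3
      have h5 : y = (curve a b).toAffine.negY x y := h4.2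
      unfold negY curve at h5
      simp only [zero_mul, sub_zero] at h5
      have h6 : 2 * y = 0 := by linear_combination h5
      exact (mul_eq_zero.1 h6).resolve_left h2
    have he := (equation_iff _ _).1 h.1
    unfold curve at he
    simp only at he
    refine pointsDvd_two h6 hΔ (t := x) ?_
    rw [hy] at he
    linear_combination -he

end sums

section fam

variable {k K : Type} [Field k] [Finite k] [Field K] [Algebra k K] [FF.IsFF k K] {l : ℕ}
  [Fact l.Prime]

theorem fam (hlk : (l : k) ≠ 0) {a b : K}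
    (hΔ : 4 * a ^ 3 + 27 * b ^ 2 ≠ 0) (hN : PointsDvd l k a b) {P : Polynomial ℤ}
    (hP : IsZetaNumRel k K P) (hr : constDeg k K = 1) {R : ℕ}
    (hR : rootSum l k P + weightSum l k a b ≤
      R + (2 + 2 * (if ((Nat.card k : ℕ) : ZMod l) = 1 then 1 else 0))) {m : ℕ} {G : Polynomial ℤ}
    (hG : S.Lfun k a b = (((1 - Polynomial.C (Nat.card k : ℤ) * Polynomial.X) ^ m * G :
      Polynomial ℤ) : PowerSeries ℤ)) :
    m ≤ R ∧ (m = R → (G.map (Int.castRingHom ℚ)).eval ((Nat.card k : ℕ) : ℚ)⁻¹ ≠ 0 ∧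
      padicValRat l ((G.map (Int.castRingHom ℚ)).eval ((Nat.card k : ℕ) : ℚ)⁻¹) = 0) := by
  obtain ⟨h1, h2⟩ := main hlk hΔ hN hP hr hG
  refine ⟨by omega, fun h => h2.1 (by omega)⟩

end fam

end Pool.Agent.R427.LC
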