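import Pool.Agent.R427.SC2
import Pool.Agent.W343.BSD.Final
import Pool.Agent.W313.Gr.Fin

/-!
The curve `y ^ 2 = x ^ 3 - 3 μ x + μ (μ + 1)`: the local terms.
-/

set_option autoImplicit false
set_option linter.all false
set_option maxHeartbeats 4000000

open Polynomial FF
open scoped Classical

namespace Pool.Agent.R427.PC

open Pool.Agent.W343.BSD

/-- the first coefficient -/
def aP {K : Type} [Field K] (μ : K) : K := -(3 * μ)

/-- the second coefficient -/
def bP {K : Type} [Field K] (μ : K) : K := μ * (μ + 1)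

theorem disc_eq {K : Type} [Field K] (μ : K) :
    4 * aP μ ^ 3 + 27 * bP μ ^ 2 = 27 * (μ ^ 2 * (μ - 1) ^ 2) := by
  unfold aP bP
  ring

section loc

variable {k K : Type} [Field k] [Field K] [Algebra k K] {v : Place k K}

theorem ord_add_left {f g : K} (hf : f ≠ 0) (h : g = 0 ∨ v.ord f < v.ord g) :
    f + g ≠ 0 ∧ v.ord (f + g) = v.ord f := by
  by_cases hg : g = 0
  · rw [hg, add_zero]
    exact ⟨hf, rfl⟩
  · exact v.ord_add_eq hf hg (h.resolve_left hg)

/-- if the Newton polygon has one segment of slope not an integer then the cubic has no root in the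
completion -/
theorem no_localRoot {A B : K} (hA : A ≠ 0) (hB : B ≠ 0) (h3 : ¬ (3 : ℤ) ∣ v.ord B)
    (hAB : 2 * v.ord B < 3 * v.ord A) : ¬ LocalRoot v A B := by
  have key : ∀ x : K, x ^ 3 + A * x + B ≠ 0 ∧ v.ord (x ^ 3 + A * x + B) ≤ v.ord B := by
    intro x
    by_cases hx : x = 0
    · rw [hx, mul_zero, zero_pow three_ne_zero, add_zero, zero_add]
      exact ⟨hB, le_rfl⟩
    · have e1 : v.ord (x ^ 3) = 3 * v.ord x := by rw [v.ord_pow]; norm_num
      have e2 : v.ord (A * x) = v.ord A + v.ord x := v.ord_mul hA hx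
      have hx3 : x ^ 3 ≠ 0 := pow_ne_zero 3 hx
      have hne : 3 * v.ord x ≠ v.ord B := fun h => h3 ⟨v.ord x, h.symm⟩
      rcases lt_or_gt_of_ne hne with h | h
      · have h5 := ord_add_left (v := v) hx3 (g := A * x) (Or.inr (by rw [e1, e2]; omega))
        have h7 := ord_add_left (v := v) h5.1 (g := B) (Or.inr (by rw [h5.2, e1]; exact h))
        refine ⟨h7.1, ?_⟩
        rw [h7.2, h5.2, e1]
        exact h.le
      · have h5 := ord_add_left (v := v) hB (g := A * x) (Or.inr (by rw [e2]; omega))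
        have h7 := ord_add_left (v := v) h5.1 (g := x ^ 3) (Or.inr (by rw [h5.2, e1]; exact h))
        have e : B + A * x + x ^ 3 = x ^ 3 + A * x + B := by ring
        rw [e] at h7
        refine ⟨h7.1, ?_⟩
        rw [h7.2, h5.2]
  intro h
  obtain ⟨x, hx⟩ := h ((v.ord B).toNat + 1)
  obtain ⟨g1, g2⟩ := key x
  rcases hx with hx | hx
  · exact g1 hx
  · push_cast at hx
    have := Int.self_le_toNat (v.ord B)
    omega

end loc

section term

variable {k K : Type} [Field k] [Finite k] [Field K] [Algebra k K] [FF.IsFF k K] {v : Place k K}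

theorem ord_nat_zero {n : ℕ} (hn : (n : k) ≠ 0) : v.ord (n : K) = 0 := by
  have := v.ord_const hn
  rwa [map_natCast] at this

/-- The local terms of the curve. -/
theorem localTerm_le (h6 : (6 : k) ≠ 0) {μ : K} (hμ0 : μ ≠ 0) (hμ1 : μ - 1 ≠ 0) (hμ2 : μ + 1 ≠ 0)
    (h36 : ∀ n : ℤ, 0 ≤ n → v.ord μ ≠ 6 * n + 3) :
    localTerm v (aP μ) (bP μ) ≤ if 0 < v.ord (μ - 1) then 1 else 0 := by
  have h3 : (3 : k) ≠ 0 := fun e => h6 (by linear_combination 2 * e)
  have h27 : (27 : k) ≠ 0 := by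
    have : (27 : k) = 3 ^ 3 := by norm_num
    rw [this]
    exact pow_ne_zero 3 h3
  have h3K : (3 : K) ≠ 0 := by
    have : algebraMap k K 3 ≠ 0 := by simpa using h3
    rwa [map_ofNat] at this
  have h27K : (27 : K) ≠ 0 := by
    have : algebraMap k K 27 ≠ 0 := by simpa using h27
    rwa [map_ofNat] at this
  have o3 : v.ord (3 : K) = 0 := by
    have := v.ord_const h3
    rwa [map_ofNat] at this
  have o27 : v.ord (27 : K) = 0 := by
    have := v.ord_const h27
    rwa [map_ofNat] at this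
  have ha0 : aP μ ≠ 0 := neg_ne_zero.2 (mul_ne_zero h3K hμ0)
  have hb0 : bP μ ≠ 0 := mul_ne_zero hμ0 hμ2
  have oa : v.ord (aP μ) = v.ord μ := by
    unfold aP
    rw [v.ord_neg, v.ord_mul h3K hμ0, o3, zero_add]
  have ob : v.ord (bP μ) = v.ord μ + v.ord (μ + 1) := by
    unfold bP
    rw [v.ord_mul hμ0 hμ2]
  have hΔ : 4 * aP μ ^ 3 + 27 * bP μ ^ 2 ≠ 0 := by
    rw [disc_eq]
    exact mul_ne_zero h27K (mul_ne_zero (pow_ne_zero 2 hμ0) (pow_ne_zero 2 hμ1))
  have oΔ : v.ord (4 * aP μ ^ 3 + 27 * bP μ ^ 2) = 2 * v.ord μ + 2 * v.ord (μ - 1) := by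
    rw [disc_eq, v.ord_mul h27K (mul_ne_zero (pow_ne_zero 2 hμ0) (pow_ne_zero 2 hμ1)), o27,
      v.ord_mul (pow_ne_zero 2 hμ0) (pow_ne_zero 2 hμ1), v.ord_pow, v.ord_pow]
    push_cast
    ring
  have hs := minScale_spec v (Or.inl ha0 : aP μ ≠ 0 ∨ bP μ ≠ 0)
  obtain ⟨hc0, hrA, hrB, hmin⟩ := hs
  set c := minScale v (aP μ) (bP μ) with hc
  have oA : v.ord (minA v (aP μ) (bP μ)) = 4 * v.ord c + v.ord μ := by
    show v.ord (c ^ 4 * aP μ) = _
    rw [v.ord_mul (pow_ne_zero 4 hc0) ha0, v.ord_pow, oa]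
    push_cast
    ring
  have oB : v.ord (minB v (aP μ) (bP μ)) = 6 * v.ord c + v.ord μ + v.ord (μ + 1) := by
    show v.ord (c ^ 6 * bP μ) = _
    rw [v.ord_mul (pow_ne_zero 6 hc0) hb0, v.ord_pow, ob]
    push_cast
    ring
  have hA0 : minA v (aP μ) (bP μ) ≠ 0 := mul_ne_zero (pow_ne_zero 4 hc0) ha0
  have hB0 : minB v (aP μ) (bP μ) ≠ 0 := mul_ne_zero (pow_ne_zero 6 hc0) hb0
  have oD : v.ord (minDisc v (aP μ) (bP μ)) = 12 * v.ord c + 2 * v.ord μ + 2 * v.ord (μ - 1) := by
    rw [minDisc_eq, v.ord_mul (pow_ne_zero 12 hc0) hΔ, v.ord_pow, oΔ]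
    push_cast
    ring
  have nA : 0 ≤ 4 * v.ord c + v.ord μ := by
    rw [← oA]
    exact (v.reg_iff hA0).1 hrA
  have nB : 0 ≤ 6 * v.ord c + v.ord μ + v.ord (μ + 1) := by
    rw [← oB]
    exact (v.reg_iff hB0).1 hrB
  have hmin' : ¬ (4 ≤ 4 * v.ord c + v.ord μ ∧ 6 ≤ 6 * v.ord c + v.ord μ + v.ord (μ + 1)) := by
    rintro ⟨g1, g2⟩
    apply hmin
    refine ⟨Or.inr ?_, Or.inr ?_⟩
    · have : v.ord (c ^ 4 * aP μ) = 4 * v.ord c + v.ord μ := oA
      rw [this]
      exact g1
    · have : v.ord (c ^ 6 * bP μ) = 6 * v.ord c + v.ord μ + v.ord (μ + 1) := oB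
      rw [this]
      exact g2
  have hDreg : v.Reg (minDisc v (aP μ) (bP μ)) :=
    Or.inr ((v.reg_iff (minDisc_ne v hΔ)).1 (by
      unfold minDisc
      have r4 : v.Reg ((4 : ℕ) : K) := reg_nat 4
      have r27 : v.Reg ((27 : ℕ) : K) := reg_nat 27
      push_cast at r4 r27
      exact v.reg_add (v.reg_mul r4 (reg_pow hrA 3)) (v.reg_mul r27 (reg_pow hrB 2))))
  have hgood : v.ord (minDisc v (aP μ) (bP μ)) = 0 → localTerm v (aP μ) (bP μ) = 0 := by
    intro h0
    exact localTerm_good (v.red_ne_zero (minDisc_ne v hΔ) h0)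
  have hmult : v.ord (minA v (aP μ) (bP μ)) = 0 → localTerm v (aP μ) (bP μ) ≤ 1 := by
    intro h0
    unfold localTerm
    rw [if_pos (v.red_ne_zero hA0 h0)]
    split_ifs <;> omega
  have hadd : v.ord (minA v (aP μ) (bP μ)) ≠ 0 →
      ¬ LocalRoot v (minA v (aP μ) (bP μ)) (minB v (aP μ) (bP μ)) →
      localTerm v (aP μ) (bP μ) = 0 := by
    intro h0 h1
    have hAz : ¬ v.red (minA v (aP μ) (bP μ)) ≠ 0 := by
      intro h5
      apply h5
      rw [v.red_eq_zero_iff (show v.Reg (minA v (aP μ) (bP μ)) from hrA)]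
      right
      omega
    have hodd : ¬ Odd (v.ord (minDisc v (aP μ) (bP μ))) := by
      rw [oD]
      rintro ⟨z, hz⟩
      omega
    unfold localTerm
    by_cases c1 : v.red (minDisc v (aP μ) (bP μ)) ≠ 0
    · rw [if_pos c1]
    · rw [if_neg c1, if_neg hAz, if_neg hodd, if_neg h1]
  rcases lt_trichotomy (v.ord μ) 0 with hneg | hzero | hpos
  · -- poles of `μ`
    have e1 : v.ord (μ - 1) = v.ord μ := by
      have h5 : (-1 : K) ≠ 0 := neg_ne_zero.2 one_ne_zero
      have := (ord_add_left (v := v) hμ0 (g := -1) (Or.inr (by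
        rw [v.ord_neg, v.ord_one]; exact hneg))).2
      rwa [← sub_eq_add_neg] at this
    have e2 : v.ord (μ + 1) = v.ord μ :=
      (ord_add_left (v := v) hμ0 (g := 1) (Or.inr (by rw [v.ord_one]; exact hneg))).2
    rw [if_neg (by omega), Nat.le_zero]
    by_cases h5 : (3 : ℤ) ∣ v.ord μ
    · obtain ⟨i, hi⟩ := h5
      apply hgood
      rw [oD, e1]
      rw [e2] at nB hmin'
      have g1 : v.ord c = -i := by
        by_contra hne
        apply hmin'
        constructor <;> omega
      omega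
    · apply hadd
      · rw [oA]
        rw [e2] at nB
        omega
      · apply no_localRoot hA0 hB0
        · rw [oB, e2]
          omega
        · rw [oA, oB, e2]
          omega
  · -- `μ` is a unit
    have hn0 : 0 ≤ v.ord (μ + 1) := by
      have h5 : v.Reg (μ + 1) := v.reg_add (Or.inr hzero.ge) (Or.inr v.ord_one.ge)
      exact (v.reg_iff hμ2).1 h5
    have hn1 : 0 ≤ v.ord (μ - 1) := by
      have h5 : v.Reg (μ - 1) := by
        rw [sub_eq_add_neg]
        exact v.reg_add (Or.inr hzero.ge) (v.reg_neg (Or.inr v.ord_one.ge))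
      exact (v.reg_iff hμ1).1 h5
    have hc1 : v.ord c = 0 := by
      by_contra hne
      apply hmin'
      constructor <;> omega
    split_ifs with h5
    · apply hmult
      rw [oA]
      omega
    · rw [Nat.le_zero]
      apply hgood
      rw [oD]
      omega
  · -- zeros of `μ`
    have e1 : v.ord (μ - 1) = 0 := by
      have h5 : (-1 : K) ≠ 0 := neg_ne_zero.2 one_ne_zero
      have := (ord_add_left (v := v) h5 (g := μ) (Or.inr (by
        rw [v.ord_neg, v.ord_one]; exact hpos))).2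
      rw [v.ord_neg, v.ord_one] at this
      have e : -1 + μ = μ - 1 := by ring
      rwa [e] at this
    have e2 : v.ord (μ + 1) = 0 := by
      have := (ord_add_left (v := v) one_ne_zero (g := μ) (Or.inr (by
        rw [v.ord_one]; exact hpos))).2
      rw [v.ord_one] at this
      rwa [add_comm] at this
    rw [if_neg (by omega), Nat.le_zero]
    by_cases h5 : (3 : ℤ) ∣ v.ord μ
    · obtain ⟨i, hi⟩ := h5
      obtain ⟨j, hj⟩ : ∃ j, i = 2 * j := by
        by_contra hcon
        push Not at hcon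
        have h7 := h36 (i / 2) (by omega)
        have h9 := hcon (i / 2)
        omega
      apply hgood
      rw [oD, e1]
      rw [e2] at nB hmin'
      have g1 : v.ord c = -j := by
        by_contra hne
        apply hmin'
        constructor <;> omega
      omega
    · apply hadd
      · rw [oA]
        rw [e2] at nB
        omega
      · apply no_localRoot hA0 hB0
        · rw [oB, e2]
          omega
        · rw [oA, oB, e2]
          omega

end term

end Pool.Agent.R427.PC
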