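import Pool.Agent.R427.PC1

/-!
The curve `y ^ 2 = x ^ 3 - 3 μ x + μ (μ + 1)`: the bound for the order of vanishing.
-/

set_option autoImplicit false
set_option linter.all false
set_option maxHeartbeats 4000000

open Polynomial FF
open scoped Classical IntermediateField

namespace Pool.Agent.R427.PC

open Pool.Agent.W343.BSD Pool.Agent.H525R3.FFp
open Pool.Agent.W313.Gr (muTwo muTwo_odd)

section fam

variable {K L : Type} [Field K] [Field L] [Algebra K L]

theorem gen_of_not_mem [FiniteDimensional K L] (hdeg : Module.finrank K L = 3) {θ : L}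
    (h : θ ∉ (algebraMap K L).range) : K⟮θ⟯ = ⊤ := by
  have h1 : Module.finrank K K⟮θ⟯ ∣ 3 := by
    rw [← hdeg]
    exact ⟨_, (Module.finrank_mul_finrank K K⟮θ⟯ L).symm⟩
  rcases (Nat.dvd_prime Nat.prime_three).1 h1 with h3 | h3
  · exfalso
    rw [IntermediateField.finrank_adjoin_simple_eq_one_iff, IntermediateField.mem_bot] at h3
    exact h h3
  · apply IntermediateField.eq_of_le_of_finrank_eq le_top
    rw [h3, IntermediateField.finrank_top', hdeg]

/-- `1, s, s ^ 2` are independent -/
theorem quad_ne {s : L} (hi : IsIntegral K s) (hgen : K⟮s⟯ = ⊤) (hdeg : Module.finrank K L = 3)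
    {a b c : K} (h : algebraMap K L a * s ^ 2 + algebraMap K L b * s + algebraMap K L c = 0) :
    a = 0 ∧ b = 0 ∧ c = 0 := by
  have hd := natDegree_of_gen hi hgen
  rw [hdeg] at hd
  have h1 : aeval s (C a * X ^ 2 + C b * X + C c) = 0 := by
    rw [map_add, map_add, map_mul, map_mul, map_pow, aeval_C, aeval_C, aeval_C, aeval_X]
    exact h
  have h2 : C a * X ^ 2 + C b * X + C c = (0 : K[X]) := by
    by_contra hne
    have h3 := natDegree_le_of_dvd (minpoly.dvd K s h1) hne
    have h4 : (C a * X ^ 2 + C b * X + C c : K[X]).natDegree ≤ 2 := natDegree_quadratic_le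
    omega
  have e0 := congrArg (fun p : K[X] => p.coeff 0) h2
  have e1 := congrArg (fun p : K[X] => p.coeff 1) h2
  have e2 := congrArg (fun p : K[X] => p.coeff 2) h2
  simp [coeff_X, coeff_C] at e0 e1 e2
  exact ⟨e2, e1, e0⟩

/-- The roots of the two-division polynomial. -/
theorem family {μ : K} (hΔ : 4 * aP μ ^ 3 + 27 * bP μ ^ 2 ≠ 0) {s : L}
    (hs : s ^ 3 = algebraMap K L μ) (hgen : K⟮s⟯ = ⊤) (hdeg : Module.finrank K L = 3) :
    IsFamily (L := fun _ : Unit => L) (aP μ) (bP μ) (fun _ => -(s + s ^ 2)) := by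
  have hi : IsIntegral K s := ⟨X ^ 3 - C μ, monic_X_pow_sub_C μ three_ne_zero, by
    rw [eval₂_sub, eval₂_pow, eval₂_X, eval₂_C, hs, sub_self]⟩
  have hfd : FiniteDimensional K L := fd_of_gen hi hgen
  have hnot : -(s + s ^ 2) ∉ (algebraMap K L).range := by
    rintro ⟨c, hc⟩
    have h1 : algebraMap K L 1 * s ^ 2 + algebraMap K L 1 * s + algebraMap K L c = 0 := by
      rw [map_one, hc]
      ring
    exact one_ne_zero (quad_ne hi hgen hdeg h1).1
  have hg := gen_of_not_mem hdeg hnot
  have hroot : aeval (-(s + s ^ 2)) (X ^ 3 + C (aP μ) * X + C (bP μ)) = 0 := by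
    rw [map_add, map_add, map_mul, map_pow, aeval_X, aeval_C, aeval_C]
    have e1 : algebraMap K L (aP μ) = -(3 * s ^ 3) := by
      unfold aP
      rw [map_neg, map_mul, map_ofNat, hs]
    have e2 : algebraMap K L (bP μ) = s ^ 3 * (s ^ 3 + 1) := by
      unfold bP
      rw [map_mul, map_add, map_one, hs]
    rw [e1, e2]
    ring
  have hmon : (X ^ 3 + C (aP μ) * X + C (bP μ) : K[X]).Monic := by monicity!
  have hdeg3 : (X ^ 3 + C (aP μ) * X + C (bP μ) : K[X]).natDegree = 3 := by compute_degree!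
  have hiθ : IsIntegral K (-(s + s ^ 2)) := IsIntegral.of_finite K _
  have hmd : (minpoly K (-(s + s ^ 2))).natDegree = 3 := by
    rw [natDegree_of_gen hiθ hg, hdeg]
  have hmin : minpoly K (-(s + s ^ 2)) = X ^ 3 + C (aP μ) * X + C (bP μ) := by
    have hdvd := minpoly.dvd K _ hroot
    exact (eq_of_monic_of_dvd_of_natDegree_le (minpoly.monic hiθ) hmon hdvd (by rw [hmd, hdeg3])).symm
  refine isFamily_of_prod hΔ (fun _ => hg) ?_
  rw [Fintype.prod_unique]
  exact hmin

end fam

section upper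

variable {k K L : Type} [Field k] [Finite k] [Field K] [Algebra k K] [FF.IsFF k K] [Field L]
  [Algebra k L] [Algebra K L] [IsScalarTower k K L]

/-- The bound: the sum of the two-parts of the degrees of the zeros of `μ - 1`. -/
noncomputable def zeroSum (k : Type) {K : Type} [Field k] [Field K] [Algebra k K] (x : K) : ℕ :=
  ∑ᶠ v : Place k K, if 0 < v.ord x then twoPart (S.deg v) else 0

theorem upper (h6 : (6 : k) ≠ 0) (hcK : constDeg k K = 1) (hcL : constDeg k L = 1)
    (hcl : Odd (S.classNumber k L)) {μ : K} (hμ : ∀ c : k, μ ≠ algebraMap k K c) {s : L}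
    (hs : s ^ 3 = algebraMap K L μ) (hgen : K⟮s⟯ = ⊤) (hdeg : Module.finrank K L = 3)
    (h36 : ∀ (v : Place k K) (n : ℤ), 0 ≤ n → v.ord μ ≠ 6 * n + 3) (M : ℕ)
    (hM : S.VanishesTo k (aP μ) (bP μ) M) : M ≤ zeroSum k (μ - 1) := by
  have hμ0 : μ ≠ 0 := by
    have := hμ 0
    rwa [map_zero] at this
  have hμ1 : μ - 1 ≠ 0 := by
    have := hμ 1
    rw [map_one] at this
    exact sub_ne_zero.2 this
  have hμ2 : μ + 1 ≠ 0 := by
    have := hμ (-1)
    rw [map_neg, map_one] at this
    intro h
    exact this (eq_neg_of_add_eq_zero_left h)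
  have h3 : (3 : k) ≠ 0 := fun e => h6 (by linear_combination 2 * e)
  have h27K : (27 : K) ≠ 0 := by
    have h27 : (27 : k) ≠ 0 := by
      have : (27 : k) = 3 ^ 3 := by norm_num
      rw [this]
      exact pow_ne_zero 3 h3
    have : algebraMap k K 27 ≠ 0 := by simpa using h27
    rwa [map_ofNat] at this
  have hΔ : 4 * aP μ ^ 3 + 27 * bP μ ^ 2 ≠ 0 := by
    rw [disc_eq]
    exact mul_ne_zero h27K (mul_ne_zero (pow_ne_zero 2 hμ0) (pow_ne_zero 2 hμ1))
  have hF := family hΔ hs hgen hdeg
  have hfd : FiniteDimensional K L := hF.fd ()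
  haveI : FF.IsFF k L := isFF_of_finite (K := K)
  obtain ⟨PK, hPK, -⟩ := exists_num_rel k K
  obtain ⟨PL, hPL, hPL1⟩ := exists_num_rel k L
  obtain ⟨G, hG⟩ := hM
  rw [S.lfun_eq hΔ] at hG
  have hb := main_bound h6 hΔ hF hPK hcK (PL := fun _ => PL) (fun _ => hPL) M G hG
  have hmu : mu (PL.map (Int.castRingHom (ZMod 2))) = 0 := by
    have := hcl
    rw [S.classNumber_eq] at this
    exact muTwo_odd hPL1 this
  simp only [Finset.univ_unique, Finset.sum_singleton, hcL, hmu] at hb
  have h1 : twoPart 1 = 1 := by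
    unfold twoPart
    rw [padicValNat.one, pow_zero]
  rw [h1] at hb
  have hle : ∑ᶠ v : Place k K, localTerm v (aP μ) (bP μ) * twoPart v.deg ≤
      zeroSum k (μ - 1) := by
    unfold zeroSum
    set Z : Finset (Place k K) := (finite_support (k := k) (μ - 1)).toFinset with hZ
    have hZm : ∀ v : Place k K, v ∈ Z ↔ v.ord (μ - 1) ≠ 0 := by
      intro v
      rw [hZ, Set.Finite.mem_toFinset]
      rfl
    have hl := fun v : Place k K => localTerm_le (v := v) h6 hμ0 hμ1 hμ2 (h36 v)
    rw [finsum_eq_sum_of_support_subset (s := Z), finsum_eq_sum_of_support_subset (s := Z)]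
    · refine Finset.sum_le_sum fun v _ => ?_
      have h5 := hl v
      rw [S.deg_eq]
      split_ifs at h5 ⊢ with h7
      · calc localTerm v (aP μ) (bP μ) * twoPart v.deg ≤ 1 * twoPart v.deg :=
              Nat.mul_le_mul_right _ h5
          _ = twoPart v.deg := one_mul _
      · rw [Nat.le_zero.1 h5, zero_mul]
    · intro v hv
      rw [Function.mem_support] at hv
      rw [Finset.mem_coe, hZm]
      intro h0
      apply hv
      rw [if_neg (by omega)]
    · intro v hv
      rw [Function.mem_support] at hv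
      rw [Finset.mem_coe, hZm]
      intro h0
      apply hv
      have h5 := hl v
      rw [if_neg (by omega), Nat.le_zero] at h5
      rw [h5, zero_mul]
  omega

theorem zeroSum_one {x : K} {v : Place k K} (hv : 0 < v.ord x) (hd : Odd (S.deg v))
    (hu : ∀ w : Place k K, 0 < w.ord x → w = v) : zeroSum k x = 1 := by
  unfold zeroSum
  rw [finsum_eq_single _ v]
  · rw [if_pos hv]
    unfold twoPart
    rw [padicValNat.eq_zero_of_not_dvd (fun h => (Nat.not_even_iff_odd.2 hd) (even_iff_two_dvd.2 h)),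
      pow_zero]
  · intro w hw
    rw [if_neg fun h => hw (hu w h)]

end upper

end Pool.Agent.R427.PC
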