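import Pool.Agent.R427.PC2
import Pool.Agent.TH958.T5.Fin

/-!
The curve `y ^ 2 = x ^ 3 - 3 μ x + μ (μ + 1)`: the point `(1, μ - 1)` of infinite order.
-/

set_option autoImplicit false
set_option linter.all false
set_option maxHeartbeats 4000000

open Polynomial FF WeierstrassCurve WeierstrassCurve.Affine
open scoped Classical IntermediateField

namespace Pool.Agent.R427.PC

open Pool.Agent.W343.BSD Pool.Agent.H525R3.FFp
open Pool.Agent.W313.Gr (curve)

/-- in a group without elements of order two an element which is not twice another has infinite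
order -/
theorem indep_of_not_two {G : Type} [AddCommGroup G] (h2 : ∀ Q : G, Q + Q = 0 → Q = 0) {P : G}
    (hP : ∀ Q : G, Q + Q ≠ P) : LinearIndependent ℤ (fun _ : Fin 1 => P) := by
  have key : ∀ m : ℕ, 0 < m → m • P ≠ 0 := by
    intro m
    induction m using Nat.strong_induction_on with
    | _ m ih =>
      intro hm h0
      rcases Nat.even_or_odd m with he | ho
      · obtain ⟨l, hl⟩ := he
        have h1 : l • P + l • P = 0 := by rw [← add_smul, ← hl, h0]
        exact ih l (by omega) (by omega) (h2 _ h1)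
      · obtain ⟨l, hl⟩ := ho
        apply hP ((l + 1) • P)
        have e : (l + 1) • P + (l + 1) • P = m • P + P := by
          rw [hl]
          module
        rw [e, h0, zero_add]
  rw [Fintype.linearIndependent_iff]
  intro g hg i
  have hi : i = 0 := Subsingleton.elim _ _
  subst hi
  rw [Fin.sum_univ_one] at hg
  by_contra hne
  have h3 : 0 < (g 0).natAbs := Int.natAbs_pos.2 hne
  apply key _ h3
  rcases Int.natAbs_eq (g 0) with h5 | h5
  · rw [h5, natCast_zsmul] at hg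
    exact hg
  · rw [h5, neg_smul, natCast_zsmul, neg_eq_zero] at hg
    exact hg

section crv

variable {F : Type} [Field F]

theorem eqn (a b x y : F) : (curve a b).toAffine.Equation x y ↔ y ^ 2 = x ^ 3 + a * x + b := by
  rw [equation_iff]
  show y ^ 2 + 0 * x * y + 0 * y = x ^ 3 + 0 * x ^ 2 + a * x + b ↔ _
  constructor <;> intro h <;> linear_combination h

theorem negY_eq (a b x y : F) : (curve a b).toAffine.negY x y = -y := by
  show -y - 0 * x - 0 = -y
  ring

theorem addX_eq (a b x₁ x₂ l : F) : (curve a b).toAffine.addX x₁ x₂ l = l ^ 2 - x₁ - x₂ := by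
  show l ^ 2 + 0 * l - 0 - x₁ - x₂ = _
  ring

theorem delta_ne (h2 : (2 : F) ≠ 0) {a b : F} (hΔ : 4 * a ^ 3 + 27 * b ^ 2 ≠ 0) :
    (curve a b).Δ ≠ 0 := by
  have e : (curve a b).Δ = -(2 ^ 4 * (4 * a ^ 3 + 27 * b ^ 2)) := by
    simp only [curve, WeierstrassCurve.Δ, WeierstrassCurve.b₂, WeierstrassCurve.b₄,
      WeierstrassCurve.b₆, WeierstrassCurve.b₈]
    ring
  rw [e]
  exact neg_ne_zero.2 (mul_ne_zero (pow_ne_zero _ h2) hΔ)

/-- no points of order two if the cubic has no root -/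
theorem no_two (h2 : (2 : F) ≠ 0) {a b : F} (hr : ∀ x : F, x ^ 3 + a * x + b ≠ 0)
    (Q : (curve a b).toAffine.Point) (hQ : Q + Q = 0) : Q = 0 := by
  rcases Q with _ | ⟨x, y, hxy⟩
  · rfl
  exfalso
  by_cases hy : y = 0
  · subst hy
    have := (eqn a b x 0).1 hxy.1
    exact hr x (by linear_combination -this)
  · have hne : y ≠ (curve a b).toAffine.negY x y := by
      rw [negY_eq]
      intro h1
      have : (2 : F) * y = 0 := by linear_combination h1
      exact (mul_ne_zero h2 hy) this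
    rw [Point.add_self_of_Y_ne hne] at hQ
    exact Point.some_ne_zero _ hQ

/-- the abscissa of a half of a point -/
theorem half_eq (h2 : (2 : F) ≠ 0) {a b x₀ y₀ : F} (h₀ : (curve a b).toAffine.Nonsingular x₀ y₀)
    (Q : (curve a b).toAffine.Point) (hQ : Q + Q = Point.some x₀ y₀ h₀) :
    ∃ x : F, (3 * x ^ 2 + a) ^ 2 = 4 * (2 * x + x₀) * (x ^ 3 + a * x + b) := by
  rcases Q with _ | ⟨x, y, hxy⟩
  · exfalso
    have h5 : (0 : (curve a b).toAffine.Point) + 0 = Point.some x₀ y₀ h₀ := hQ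
    rw [add_zero] at h5
    exact Point.some_ne_zero _ h5.symm
  refine ⟨x, ?_⟩
  have heq := (eqn a b x y).1 hxy.1
  have hY : y ≠ (curve a b).toAffine.negY x y := by
    intro h
    rw [Point.add_self_of_Y_eq h] at hQ
    exact Point.some_ne_zero _ hQ.symm
  rw [Point.add_self_of_Y_ne hY] at hQ
  have hx := (Point.some.inj hQ).1
  have hy0 : y ≠ 0 := by
    rintro rfl
    apply hY
    rw [negY_eq, neg_zero]
  have hsl : (curve a b).toAffine.slope x x y y = (3 * x ^ 2 + a) / (2 * y) := by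
    rw [slope_of_Y_ne rfl hY, negY_eq]
    show (3 * x ^ 2 + 2 * 0 * x + a - 0 * y) / (y - -y) = _
    have e1 : 3 * x ^ 2 + 2 * 0 * x + a - 0 * y = 3 * x ^ 2 + a := by ring
    have e2 : y - -y = 2 * y := by ring
    rw [e1, e2]
  rw [addX_eq] at hx
  set l := (curve a b).toAffine.slope x x y y with hl
  have h5 : l * (2 * y) = 3 * x ^ 2 + a := by
    rw [hsl]
    exact div_mul_cancel₀ _ (mul_ne_zero h2 hy0)
  have h6 : (l * (2 * y)) ^ 2 = 4 * (2 * x + x₀) * y ^ 2 := by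
    linear_combination 4 * y ^ 2 * hx
  rw [h5, heq] at h6
  exact h6

end crv

section low

variable {k K : Type} [Field k] [Field K] [Algebra k K]

/-- the quartic has no root -/
theorem quartic_ne (h6 : (6 : k) ≠ 0) {ε : K} (v : Place k K) (hv : 0 < v.ord ε)
    (hodd : Odd (v.ord ε)) (X : K) : X ^ 4 + 6 * ε * X ^ 2 - 8 * ε ^ 2 * X - 3 * ε ^ 2 ≠ 0 := by
  have h2 : (2 : k) ≠ 0 := fun e => h6 (by linear_combination 3 * e)
  have h3 : (3 : k) ≠ 0 := fun e => h6 (by linear_combination 2 * e)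
  have h8 : (-8 : k) ≠ 0 := by
    have : (-8 : k) = -(2 ^ 3) := by norm_num
    rw [this]
    exact neg_ne_zero.2 (pow_ne_zero 3 h2)
  have key : ∀ {c : k}, c ≠ 0 → algebraMap k K c ≠ 0 ∧ v.ord (algebraMap k K c) = 0 :=
    fun {c} hc => ⟨(_root_.map_ne_zero _).2 hc, v.ord_const hc⟩
  have hε : ε ≠ 0 := by
    rintro rfl
    rw [v.ord_zero] at hv
    exact lt_irrefl _ hv
  obtain ⟨k6, o6⟩ := key h6
  obtain ⟨k8, o8⟩ := key h8
  obtain ⟨k3, o3⟩ := key (neg_ne_zero.2 h3)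
  have e6 : algebraMap k K 6 = 6 := map_ofNat _ 6
  have e8 : algebraMap k K (-8) = -8 := by rw [map_neg, map_ofNat]
  have e3 : algebraMap k K (-3) = -3 := by rw [map_neg, map_ofNat]
  rw [e6] at k6 o6
  rw [e8] at k8 o8
  rw [e3] at k3 o3
  by_cases hX : X = 0
  · subst hX
    have e : (0 : K) ^ 4 + 6 * ε * 0 ^ 2 - 8 * ε ^ 2 * 0 - 3 * ε ^ 2 = -3 * ε ^ 2 := by ring
    rw [e]
    exact mul_ne_zero k3 (pow_ne_zero 2 hε)
  have n1 : X ^ 4 ≠ 0 := pow_ne_zero 4 hX
  have n2 : 6 * ε * X ^ 2 ≠ 0 := mul_ne_zero (mul_ne_zero k6 hε) (pow_ne_zero 2 hX)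
  have n3 : -8 * ε ^ 2 * X ≠ 0 := mul_ne_zero (mul_ne_zero k8 (pow_ne_zero 2 hε)) hX
  have n4 : -3 * ε ^ 2 ≠ 0 := mul_ne_zero k3 (pow_ne_zero 2 hε)
  have v1 : v.ord (X ^ 4) = 4 * v.ord X := by rw [v.ord_pow]; norm_num
  have v2 : v.ord (6 * ε * X ^ 2) = v.ord ε + 2 * v.ord X := by
    rw [v.ord_mul (mul_ne_zero k6 hε) (pow_ne_zero 2 hX), v.ord_mul k6 hε, o6, v.ord_pow]
    push_cast
    ring
  have v3 : v.ord (-8 * ε ^ 2 * X) = 2 * v.ord ε + v.ord X := by
    rw [v.ord_mul (mul_ne_zero k8 (pow_ne_zero 2 hε)) hX, v.ord_mul k8 (pow_ne_zero 2 hε), o8,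
      v.ord_pow]
    push_cast
    ring
  have v4 : v.ord (-3 * ε ^ 2) = 2 * v.ord ε := by
    rw [v.ord_mul k3 (pow_ne_zero 2 hε), o3, v.ord_pow]
    push_cast
    ring
  obtain ⟨z, hz⟩ := hodd
  rcases lt_or_gt_of_ne (show 2 * v.ord X ≠ v.ord ε by omega) with h | h
  · have s1 := ord_add_left (v := v) n1 (g := 6 * ε * X ^ 2) (Or.inr (by rw [v1, v2]; omega))
    have s2 := ord_add_left (v := v) s1.1 (g := -8 * ε ^ 2 * X)
      (Or.inr (by rw [s1.2, v1, v3]; omega))
    have s3 := ord_add_left (v := v) s2.1 (g := -3 * ε ^ 2)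
      (Or.inr (by rw [s2.2, s1.2, v1, v4]; omega))
    intro h0
    apply s3.1
    linear_combination h0
  · have s1 := ord_add_left (v := v) n4 (g := -8 * ε ^ 2 * X) (Or.inr (by rw [v4, v3]; omega))
    have s2 := ord_add_left (v := v) s1.1 (g := 6 * ε * X ^ 2)
      (Or.inr (by rw [s1.2, v4, v2]; omega))
    have s3 := ord_add_left (v := v) s2.1 (g := X ^ 4)
      (Or.inr (by rw [s2.2, s1.2, v4, v1]; omega))
    intro h0
    apply s3.1
    linear_combination h0

theorem lower (h6 : (6 : k) ≠ 0) {μ : K} (hΔ : 4 * aP μ ^ 3 + 27 * bP μ ^ 2 ≠ 0)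
    (hr : ∀ x : K, x ^ 3 + aP μ * x + bP μ ≠ 0) {v : Place k K} (hv : 0 < v.ord (μ - 1))
    (hodd : Odd (v.ord (μ - 1))) :
    (∀ Q : (curve (aP μ) (bP μ)).toAffine.Point, Q + Q = 0 → Q = 0) ∧
    ∃ P : Fin 1 → (curve (aP μ) (bP μ)).toAffine.Point, LinearIndependent ℤ P := by
  have h2 : (2 : k) ≠ 0 := fun e => h6 (by linear_combination 3 * e)
  have h2K : (2 : K) ≠ 0 := by
    have : algebraMap k K 2 ≠ 0 := by simpa using h2
    rwa [map_ofNat] at this
  have hE : (curve (aP μ) (bP μ)).toAffine.Equation 1 (μ - 1) := by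
    rw [eqn]
    unfold aP bP
    ring
  have hn := (equation_iff_nonsingular_of_Δ_ne_zero (delta_ne h2K hΔ)).1 hE
  refine ⟨no_two h2K hr, _, indep_of_not_two (no_two h2K hr) (P := Point.some _ _ hn) ?_⟩
  intro Q hQ
  obtain ⟨x, hx⟩ := half_eq h2K hn Q hQ
  apply quartic_ne h6 v hv hodd (x - 1)
  unfold aP bP at hx
  linear_combination hx

end low

section main

variable {k K L : Type} [Field k] [Finite k] [Field K] [Algebra k K] [FF.IsFF k K] [Field L]
  [Algebra k L] [Algebra K L] [IsScalarTower k K L]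

theorem facts (h6 : (6 : k) ≠ 0) {μ : K} (hμ : ∀ c : k, μ ≠ algebraMap k K c) :
    μ ≠ 0 ∧ μ - 1 ≠ 0 ∧ 4 * aP μ ^ 3 + 27 * bP μ ^ 2 ≠ 0 := by
  have hμ0 : μ ≠ 0 := by
    have := hμ 0
    rwa [map_zero] at this
  have hμ1 : μ - 1 ≠ 0 := by
    have := hμ 1
    rw [map_one] at this
    exact sub_ne_zero.2 this
  have h3 : (3 : k) ≠ 0 := fun e => h6 (by linear_combination 2 * e)
  have h27K : (27 : K) ≠ 0 := by
    have h27 : (27 : k) ≠ 0 := by
      have : (27 : k) = 3 ^ 3 := by norm_num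
      rw [this]
      exact pow_ne_zero 3 h3
    have : algebraMap k K 27 ≠ 0 := by simpa using h27
    rwa [map_ofNat] at this
  refine ⟨hμ0, hμ1, ?_⟩
  rw [disc_eq]
  exact mul_ne_zero h27K (mul_ne_zero (pow_ne_zero 2 hμ0) (pow_ne_zero 2 hμ1))

/-- the two-division polynomial has no root -/
theorem no_root {μ : K} (hμ : 4 * aP μ ^ 3 + 27 * bP μ ^ 2 ≠ 0) {s : L}
    (hs : s ^ 3 = algebraMap K L μ) (hgen : K⟮s⟯ = ⊤) (hdeg : Module.finrank K L = 3) (x : K) :
    x ^ 3 + aP μ * x + bP μ ≠ 0 := by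
  intro hx
  have hi : _root_.IsIntegral K s := ⟨X ^ 3 - C μ, monic_X_pow_sub_C μ three_ne_zero, by
    rw [eval₂_sub, eval₂_pow, eval₂_X, eval₂_C, hs, sub_self]⟩
  have hfd : FiniteDimensional K L := fd_of_gen hi hgen
  -- the minimal polynomial of `-(s + s ^ 2)`
  have hF := family hμ hs hgen hdeg
  have hθ : K⟮-(s + s ^ 2)⟯ = ⊤ := hF.gen ()
  have hroot : aeval (-(s + s ^ 2)) (X ^ 3 + C (aP μ) * X + C (bP μ)) = 0 := by
    rw [map_add, map_add, map_mul, map_pow, aeval_X, aeval_C, aeval_C]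
    have e1 : algebraMap K L (aP μ) = -(3 * s ^ 3) := by
      unfold aP
      rw [map_neg, map_mul, map_ofNat, hs]
    have e2 : algebraMap K L (bP μ) = s ^ 3 * (s ^ 3 + 1) := by
      unfold bP
      rw [map_mul, map_add, map_one, hs]
    rw [e1, e2]
    ring
  have hmon : (X ^ 3 + C (aP μ) * X + C (bP μ) : K[X]).Monic := by monicity!
  have hdeg3 : (X ^ 3 + C (aP μ) * X + C (bP μ) : K[X]).natDegree = 3 := by compute_degree!
  have hiθ : _root_.IsIntegral K (-(s + s ^ 2)) := _root_.IsIntegral.of_finite K _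
  have hmd : (minpoly K (-(s + s ^ 2))).natDegree = 3 := by
    rw [natDegree_of_gen hiθ hθ, hdeg]
  have hmin : X ^ 3 + C (aP μ) * X + C (bP μ) = minpoly K (-(s + s ^ 2)) :=
    eq_of_monic_of_dvd_of_natDegree_le (minpoly.monic hiθ) hmon (minpoly.dvd K _ hroot)
      (by rw [hmd, hdeg3])
  have hirr := minpoly.irreducible hiθ
  rw [← hmin] at hirr
  have h1 : (X ^ 3 + C (aP μ) * X + C (bP μ) : K[X]).IsRoot x := by
    rw [IsRoot.def, eval_add, eval_add, eval_mul, eval_pow, eval_X, eval_C, eval_C]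
    exact hx
  have h2 := degree_eq_one_of_irreducible_of_root hirr h1
  have h5 := (degree_eq_iff_natDegree_eq_of_pos one_pos).1 h2
  rw [hdeg3] at h5
  omega

end main

end Pool.Agent.R427.PC
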