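import Pool.Agent.R427.PC3

/-!
The curves `y ^ 2 = x ^ 3 - 3 α β μ x - μ (α ^ 3 + β ^ 3 μ)`, whose two-division field is generated
by a cube root of `μ`: the local terms.
-/

set_option autoImplicit false
set_option linter.all false
set_option maxHeartbeats 4000000

open Polynomial FF
open scoped Classical

namespace Pool.Agent.R427.QC

open Pool.Agent.W343.BSD
open Pool.Agent.R427.PC (ord_add_left no_localRoot)

/-- the first coefficient -/
def qA {K : Type} [Field K] (α β μ : K) : K := -(3 * α * β * μ)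

/-- the second coefficient -/
def qB {K : Type} [Field K] (α β μ : K) : K := -(μ * (α ^ 3 + β ^ 3 * μ))

theorem disc_eq {K : Type} [Field K] (α β μ : K) :
    4 * qA α β μ ^ 3 + 27 * qB α β μ ^ 2 = 27 * (μ ^ 2 * (α ^ 3 - β ^ 3 * μ) ^ 2) := by
  unfold qA qB
  ring

section loc

variable {k K : Type} [Field k] [Field K] [Algebra k K] {v : Place k K}

theorem ord_add_ge {f g : K} {n : ℤ} (hfg : f + g ≠ 0) (hf : f = 0 ∨ n ≤ v.ord f)
    (hg : g = 0 ∨ n ≤ v.ord g) : n ≤ v.ord (f + g) := by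
  by_cases h1 : f = 0
  · subst h1
    rw [zero_add] at hfg ⊢
    exact hg.resolve_left hfg
  by_cases h2 : g = 0
  · subst h2
    rw [add_zero]
    exact hf.resolve_left h1
  · exact (le_min (hf.resolve_left h1) (hg.resolve_left h2)).trans (v.ord_add h1 h2 hfg)

theorem ord_sub_left {f g : K} (hf : f ≠ 0) (h : g = 0 ∨ v.ord f < v.ord g) :
    f - g ≠ 0 ∧ v.ord (f - g) = v.ord f := by
  rw [sub_eq_add_neg]
  apply ord_add_left hf
  rcases h with rfl | h
  · left; rw [neg_zero]
  · right; rw [v.ord_neg]; exact h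

theorem ord_sub_right {f g : K} (hf : f ≠ 0) (h : g = 0 ∨ v.ord f < v.ord g) :
    g - f ≠ 0 ∧ v.ord (g - f) = v.ord f := by
  have e : g - f = -(f - g) := by ring
  rw [e, v.ord_neg]
  exact ⟨neg_ne_zero.2 (ord_sub_left hf h).1, (ord_sub_left hf h).2⟩

end loc

section term

variable {k K : Type} [Field k] [Finite k] [Field K] [Algebra k K] [FF.IsFF k K] {v : Place k K}

/-- The local terms of the curve. -/
theorem localTerm_le (h6 : (6 : k) ≠ 0) {α β μ : K} (hα : α ≠ 0) (hβ : β ≠ 0) (hμ : μ ≠ 0)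
    (hδ : α ^ 3 - β ^ 3 * μ ≠ 0) (hγ : α ^ 3 + β ^ 3 * μ ≠ 0)
    (hev : ∀ i : ℤ, v.ord μ = 3 * i → Even (min (v.ord α + i) (v.ord β + 2 * i))) :
    localTerm v (qA α β μ) (qB α β μ) ≤
      if min (3 * v.ord α) (3 * v.ord β + v.ord μ) < v.ord (α ^ 3 - β ^ 3 * μ) then 1 else 0 := by
  have h3 : (3 : k) ≠ 0 := fun e => h6 (by linear_combination 2 * e)
  have h27 : (27 : k) ≠ 0 := by
    have : (27 : k) = 3 ^ 3 := by norm_num
    rw [this]
    exact pow_ne_zero 3 h3
  have h3K : (3 : K) ≠ 0 := by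
    have : algebraMap k K 3 ≠ 0 := by simpa using h3
    rwa [map_ofNat] at this
  have h27K : (27 : K) ≠ 0 := by
    have : algebraMap k K 27 ≠ 0 := by simpa using h27
    rwa [map_ofNat] at this
  have o3 : v.ord (3 : K) = 0 := by
    have := v.ord_const h3
    rwa [map_ofNat] at this
  have o27 : v.ord (27 : K) = 0 := by
    have := v.ord_const h27
    rwa [map_ofNat] at this
  set A : ℤ := v.ord α with hAd
  set B : ℤ := v.ord β with hBd
  set m : ℤ := v.ord μ with hmd
  have ha0 : qA α β μ ≠ 0 := neg_ne_zero.2 (mul_ne_zero (mul_ne_zero (mul_ne_zero h3K hα) hβ) hμ)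
  have hb0 : qB α β μ ≠ 0 := neg_ne_zero.2 (mul_ne_zero hμ hγ)
  have oa : v.ord (qA α β μ) = A + B + m := by
    unfold qA
    rw [v.ord_neg, v.ord_mul (mul_ne_zero (mul_ne_zero h3K hα) hβ) hμ,
      v.ord_mul (mul_ne_zero h3K hα) hβ, v.ord_mul h3K hα, o3]
    ring
  have ob : v.ord (qB α β μ) = m + v.ord (α ^ 3 + β ^ 3 * μ) := by
    unfold qB
    rw [v.ord_neg, v.ord_mul hμ hγ]
  have oα3 : v.ord (α ^ 3) = 3 * A := by rw [v.ord_pow, ← hAd]; norm_num
  have oβ3 : v.ord (β ^ 3 * μ) = 3 * B + m := by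
    rw [v.ord_mul (pow_ne_zero 3 hβ) hμ, v.ord_pow, ← hBd, ← hmd]
    norm_num
  have hα3 : α ^ 3 ≠ 0 := pow_ne_zero 3 hα
  have hβ3 : β ^ 3 * μ ≠ 0 := mul_ne_zero (pow_ne_zero 3 hβ) hμ
  have hΔ : 4 * qA α β μ ^ 3 + 27 * qB α β μ ^ 2 ≠ 0 := by
    rw [disc_eq]
    exact mul_ne_zero h27K (mul_ne_zero (pow_ne_zero 2 hμ) (pow_ne_zero 2 hδ))
  have oΔ : v.ord (4 * qA α β μ ^ 3 + 27 * qB α β μ ^ 2) =
      2 * m + 2 * v.ord (α ^ 3 - β ^ 3 * μ) := by
    rw [disc_eq, v.ord_mul h27K (mul_ne_zero (pow_ne_zero 2 hμ) (pow_ne_zero 2 hδ)), o27,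
      v.ord_mul (pow_ne_zero 2 hμ) (pow_ne_zero 2 hδ), v.ord_pow, v.ord_pow]
    push_cast
    ring
  set D : ℤ := v.ord (α ^ 3 - β ^ 3 * μ) with hDd
  set G : ℤ := v.ord (α ^ 3 + β ^ 3 * μ) with hGd
  have hG : min (3 * A) (3 * B + m) ≤ G := by
    apply ord_add_ge hγ
    · right; rw [oα3]; exact min_le_left _ _
    · right; rw [oβ3]; exact min_le_right _ _
  have hD : min (3 * A) (3 * B + m) ≤ D := by
    rw [hDd]
    have e : α ^ 3 - β ^ 3 * μ = α ^ 3 + -(β ^ 3 * μ) := by ring
    rw [e]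
    apply ord_add_ge (by rw [← e]; exact hδ)
    · right; rw [oα3]; exact min_le_left _ _
    · right; rw [v.ord_neg, oβ3]; exact min_le_right _ _
  have hGD : 3 * A ≠ 3 * B + m → G = min (3 * A) (3 * B + m) ∧ D = min (3 * A) (3 * B + m) := by
    intro hne
    rcases lt_or_gt_of_ne hne with h | h
    · rw [min_eq_left h.le, ← oα3]
      exact ⟨(ord_add_left (v := v) hα3 (Or.inr (by rw [oα3, oβ3]; exact h))).2,
        (ord_sub_left (v := v) hα3 (Or.inr (by rw [oα3, oβ3]; exact h))).2⟩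
    · rw [min_eq_right h.le, ← oβ3]
      have h5 := (ord_add_left (v := v) hβ3 (g := α ^ 3) (Or.inr (by rw [oα3, oβ3]; exact h))).2
      rw [add_comm] at h5
      exact ⟨h5, (ord_sub_right (v := v) hβ3 (Or.inr (by rw [oα3, oβ3]; exact h))).2⟩
  have hs := minScale_spec v (Or.inl ha0 : qA α β μ ≠ 0 ∨ qB α β μ ≠ 0)
  obtain ⟨hc0, hrA, hrB, hmin⟩ := hs
  set c := minScale v (qA α β μ) (qB α β μ) with hc
  set z : ℤ := v.ord c with hz
  have oA : v.ord (minA v (qA α β μ) (qB α β μ)) = 4 * z + (A + B + m) := by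
    show v.ord (c ^ 4 * qA α β μ) = _
    rw [v.ord_mul (pow_ne_zero 4 hc0) ha0, v.ord_pow, oa]
    push_cast
    ring
  have oB : v.ord (minB v (qA α β μ) (qB α β μ)) = 6 * z + (m + G) := by
    show v.ord (c ^ 6 * qB α β μ) = _
    rw [v.ord_mul (pow_ne_zero 6 hc0) hb0, v.ord_pow, ob]
    push_cast
    ring
  have hA0 : minA v (qA α β μ) (qB α β μ) ≠ 0 := mul_ne_zero (pow_ne_zero 4 hc0) ha0
  have hB0 : minB v (qA α β μ) (qB α β μ) ≠ 0 := mul_ne_zero (pow_ne_zero 6 hc0) hb0
  have oD : v.ord (minDisc v (qA α β μ) (qB α β μ)) = 12 * z + (2 * m + 2 * D) := by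
    rw [minDisc_eq, v.ord_mul (pow_ne_zero 12 hc0) hΔ, v.ord_pow, oΔ]
    push_cast
    ring
  have nA : 0 ≤ 4 * z + (A + B + m) := by
    rw [← oA]
    exact (v.reg_iff hA0).1 hrA
  have nB : 0 ≤ 6 * z + (m + G) := by
    rw [← oB]
    exact (v.reg_iff hB0).1 hrB
  have hmin' : ¬ (4 ≤ 4 * z + (A + B + m) ∧ 6 ≤ 6 * z + (m + G)) := by
    rintro ⟨g1, g2⟩
    apply hmin
    refine ⟨Or.inr ?_, Or.inr ?_⟩
    · have : v.ord (c ^ 4 * qA α β μ) = 4 * z + (A + B + m) := oA
      rw [this]
      exact g1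
    · have : v.ord (c ^ 6 * qB α β μ) = 6 * z + (m + G) := oB
      rw [this]
      exact g2
  have hDreg : 0 ≤ 12 * z + (2 * m + 2 * D) := by
    rw [← oD]
    refine (v.reg_iff (minDisc_ne v hΔ)).1 ?_
    unfold minDisc
    have r4 : v.Reg ((4 : ℕ) : K) := reg_nat 4
    have r27 : v.Reg ((27 : ℕ) : K) := reg_nat 27
    push_cast at r4 r27
    exact v.reg_add (v.reg_mul r4 (reg_pow hrA 3)) (v.reg_mul r27 (reg_pow hrB 2))
  have hgood : 12 * z + (2 * m + 2 * D) = 0 → localTerm v (qA α β μ) (qB α β μ) = 0 := by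
    intro h0
    exact localTerm_good (v.red_ne_zero (minDisc_ne v hΔ) (by rw [oD]; exact h0))
  have hmult : 4 * z + (A + B + m) = 0 → localTerm v (qA α β μ) (qB α β μ) ≤ 1 := by
    intro h0
    unfold localTerm
    rw [if_pos (v.red_ne_zero hA0 (by rw [oA]; exact h0))]
    split_ifs <;> omega
  by_cases h3m : (3 : ℤ) ∣ m
  · -- the cube root is unramified
    obtain ⟨i, hi⟩ := h3m
    obtain ⟨n, hn⟩ := hev i hi
    have hzn : z = -n := by
      rcases min_choice (A + i) (B + 2 * i) with hh | hh <;> rw [hh] at hn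
      · have g1 : A + i ≤ B + 2 * i := by rw [← hh]; exact min_le_right _ _
        have g2 : min (3 * A) (3 * B + m) = 3 * A := min_eq_left (by omega)
        rw [g2] at hG hD hGD
        by_contra hne
        apply hmin'
        by_cases hAB : 3 * A = 3 * B + m
        · constructor <;> omega
        · obtain ⟨g3, g4⟩ := hGD hAB
          constructor <;> omega
      · have g1 : B + 2 * i ≤ A + i := by rw [← hh]; exact min_le_left _ _
        have g2 : min (3 * A) (3 * B + m) = 3 * B + m := min_eq_right (by omega)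
        rw [g2] at hG hD hGD
        by_contra hne
        apply hmin'
        by_cases hAB : 3 * A = 3 * B + m
        · constructor <;> omega
        · obtain ⟨g3, g4⟩ := hGD hAB
          constructor <;> omega
    split_ifs with hlt
    · have hAB : 3 * A = 3 * B + m := by
        by_contra hne
        have := (hGD hne).2
        omega
      apply hmult
      have : A + i = B + 2 * i := by omega
      rw [this, min_self] at hn
      omega
    · have hDe : D = min (3 * A) (3 * B + m) := by omega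
      rw [Nat.le_zero]
      apply hgood
      rcases min_choice (A + i) (B + 2 * i) with hh | hh <;> rw [hh] at hn
      · have g1 : A + i ≤ B + 2 * i := by rw [← hh]; exact min_le_right _ _
        have g2 : min (3 * A) (3 * B + m) = 3 * A := min_eq_left (by omega)
        rw [g2] at hDe
        omega
      · have g1 : B + 2 * i ≤ A + i := by rw [← hh]; exact min_le_left _ _
        have g2 : min (3 * A) (3 * B + m) = 3 * B + m := min_eq_right (by omega)
        rw [g2] at hDe
        omega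
  · -- the cube root is ramified
    have hne : 3 * A ≠ 3 * B + m := fun h => h3m ⟨A - B, by omega⟩
    obtain ⟨g3, g4⟩ := hGD hne
    have hAz : ¬ v.red (minA v (qA α β μ) (qB α β μ)) ≠ 0 := by
      intro h5
      apply h5
      rw [v.red_eq_zero_iff (show v.Reg (minA v (qA α β μ) (qB α β μ)) from hrA)]
      right
      rw [oA]
      rcases lt_or_gt_of_ne hne with h | h
      · rw [min_eq_left h.le] at g3; omega
      · rw [min_eq_right h.le] at g3; omega
    have hodd : ¬ Odd (v.ord (minDisc v (qA α β μ) (qB α β μ))) := by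
      rw [oD]
      rintro ⟨y, hy⟩
      omega
    have hroot : ¬ LocalRoot v (minA v (qA α β μ) (qB α β μ)) (minB v (qA α β μ) (qB α β μ)) := by
      apply no_localRoot hA0 hB0
      · rw [oB, g3]
        rcases lt_or_gt_of_ne hne with h | h
        · rw [min_eq_left h.le]; omega
        · rw [min_eq_right h.le]; omega
      · rw [oA, oB, g3]
        rcases lt_or_gt_of_ne hne with h | h
        · rw [min_eq_left h.le]; omega
        · rw [min_eq_right h.le]; omega
    have h0 : localTerm v (qA α β μ) (qB α β μ) = 0 := by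
      unfold localTerm
      by_cases c1 : v.red (minDisc v (qA α β μ) (qB α β μ)) ≠ 0
      · rw [if_pos c1]
      · rw [if_neg c1, if_neg hAz, if_neg hodd, if_neg hroot]
    rw [h0]
    exact Nat.zero_le _

end term

end Pool.Agent.R427.QC
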