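import Pool.Agent.R427.QC1
import Pool.Agent.TH180.R4.Exi

/-!
The curves `y ^ 2 = x ^ 3 - 3 α β μ x - μ (α ^ 3 + β ^ 3 μ)`: the two-division field and the bound.
-/

set_option autoImplicit false
set_option linter.all false
set_option maxHeartbeats 4000000

open Polynomial FF
open scoped Classical IntermediateField

namespace Pool.Agent.R427.QC

open Pool.Agent.W343.BSD Pool.Agent.H525R3.FFp
open Pool.Agent.W313.Gr (muTwo muTwo_odd)
open Pool.Agent.R427.PC (gen_of_not_mem quad_ne)
open Pool.Agent.TH180.R4 (zSum aeval_ne reg_aeval red_aeval_small aeval_pole)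

section fam

variable {K L : Type} [Field K] [Field L] [Algebra K L]

/-- the root -/
def th (α β : K) (s : L) : L := algebraMap K L α * s + algebraMap K L β * s ^ 2

theorem root_th {α β μ : K} {s : L} (hs : s ^ 3 = algebraMap K L μ) :
    aeval (th α β s) (X ^ 3 + C (qA α β μ) * X + C (qB α β μ)) = 0 := by
  rw [map_add, map_add, map_mul, map_pow, aeval_X, aeval_C, aeval_C]
  have e1 : algebraMap K L (qA α β μ) = -(3 * algebraMap K L α * algebraMap K L β * s ^ 3) := by
    unfold qA
    rw [map_neg, map_mul, map_mul, map_mul, map_ofNat, hs]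
  have e2 : algebraMap K L (qB α β μ) =
      -(s ^ 3 * (algebraMap K L α ^ 3 + algebraMap K L β ^ 3 * s ^ 3)) := by
    unfold qB
    rw [map_neg, map_mul, map_add, map_mul, map_pow, map_pow, hs]
  rw [e1, e2]
  unfold th
  ring

theorem isIntegral_s {μ : K} {s : L} (hs : s ^ 3 = algebraMap K L μ) : IsIntegral K s :=
  ⟨X ^ 3 - C μ, monic_X_pow_sub_C μ three_ne_zero, by
    rw [eval₂_sub, eval₂_pow, eval₂_X, eval₂_C, hs, sub_self]⟩

theorem minpoly_th {α β μ : K} (hβ : β ≠ 0) {s : L} (hs : s ^ 3 = algebraMap K L μ)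
    (hgen : K⟮s⟯ = ⊤) (hdeg : Module.finrank K L = 3) :
    K⟮th α β s⟯ = ⊤ ∧ minpoly K (th α β s) = X ^ 3 + C (qA α β μ) * X + C (qB α β μ) := by
  have hi := isIntegral_s hs
  have hfd : FiniteDimensional K L := fd_of_gen hi hgen
  have hnot : th α β s ∉ (algebraMap K L).range := by
    rintro ⟨c, hc⟩
    have h1 : algebraMap K L β * s ^ 2 + algebraMap K L α * s + algebraMap K L (-c) = 0 := by
      rw [map_neg, hc]
      unfold th
      ring
    exact hβ (quad_ne hi hgen hdeg h1).1
  have hg := gen_of_not_mem hdeg hnot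
  refine ⟨hg, ?_⟩
  have hmon : (X ^ 3 + C (qA α β μ) * X + C (qB α β μ) : K[X]).Monic := by monicity!
  have hdeg3 : (X ^ 3 + C (qA α β μ) * X + C (qB α β μ) : K[X]).natDegree = 3 := by
    compute_degree!
  have hiθ : IsIntegral K (th α β s) := IsIntegral.of_finite K _
  have hmd : (minpoly K (th α β s)).natDegree = 3 := by
    rw [natDegree_of_gen hiθ hg, hdeg]
  have hdvd := minpoly.dvd K _ (root_th (α := α) (β := β) hs)
  exact (eq_of_monic_of_dvd_of_natDegree_le (minpoly.monic hiθ) hmon hdvd
    (by rw [hmd, hdeg3])).symm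

/-- The roots of the two-division polynomial. -/
theorem family {α β μ : K} (hβ : β ≠ 0) (hΔ : 4 * qA α β μ ^ 3 + 27 * qB α β μ ^ 2 ≠ 0) {s : L}
    (hs : s ^ 3 = algebraMap K L μ) (hgen : K⟮s⟯ = ⊤) (hdeg : Module.finrank K L = 3) :
    IsFamily (L := fun _ : Unit => L) (qA α β μ) (qB α β μ) (fun _ => th α β s) := by
  obtain ⟨hg, hmin⟩ := minpoly_th (α := α) hβ hs hgen hdeg
  refine isFamily_of_prod hΔ (fun _ => hg) ?_
  rw [Fintype.prod_unique]
  exact hmin

/-- the two-division polynomial has no root -/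
theorem no_root {α β μ : K} (hβ : β ≠ 0) {s : L}
    (hs : s ^ 3 = algebraMap K L μ) (hgen : K⟮s⟯ = ⊤) (hdeg : Module.finrank K L = 3) (x : K) :
    x ^ 3 + qA α β μ * x + qB α β μ ≠ 0 := by
  intro hx
  have hi := isIntegral_s hs
  have hfd : FiniteDimensional K L := fd_of_gen hi hgen
  obtain ⟨hg, hmin⟩ := minpoly_th (α := α) hβ hs hgen hdeg
  have hdeg3 : (X ^ 3 + C (qA α β μ) * X + C (qB α β μ) : K[X]).natDegree = 3 := by
    compute_degree!
  have hiθ : IsIntegral K (th α β s) := IsIntegral.of_finite K _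
  have hirr := minpoly.irreducible hiθ
  rw [hmin] at hirr
  have h1 : (X ^ 3 + C (qA α β μ) * X + C (qB α β μ) : K[X]).IsRoot x := by
    rw [IsRoot.def, eval_add, eval_add, eval_mul, eval_pow, eval_X, eval_C, eval_C]
    exact hx
  have h2 := degree_eq_one_of_irreducible_of_root hirr h1
  have h5 := (degree_eq_iff_natDegree_eq_of_pos one_pos).1 h2
  rw [hdeg3] at h5
  omega

end fam

/-- the conditions for the coefficients of the surface -/
structure Nice {k : Type} [Field k] (α β : k[X]) : Prop where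
  cop : IsCoprime α β
  a0 : α.coeff 0 ≠ 0
  b0 : β ≠ 0

section nice

variable {k : Type} [Field k] {α β : k[X]}

theorem Nice.alpha (h : Nice α β) : α ≠ 0 := by
  rintro rfl
  exact h.a0 (coeff_zero _)

theorem Nice.disc (h : Nice α β) : α ^ 3 - X * β ^ 3 ≠ 0 := by
  intro h0
  have h1 : α ^ 3 = X * β ^ 3 := sub_eq_zero.1 h0
  have h2 := congrArg natDegree h1
  rw [natDegree_pow, natDegree_X_mul (pow_ne_zero 3 h.b0), natDegree_pow] at h2
  omega

theorem Nice.conj (h : Nice α β) : α ^ 3 + X * β ^ 3 ≠ 0 := by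
  intro h0
  have h1 : α ^ 3 = -(X * β ^ 3) := eq_neg_of_add_eq_zero_left h0
  have h2 := congrArg natDegree h1
  rw [natDegree_pow, natDegree_neg, natDegree_X_mul (pow_ne_zero 3 h.b0), natDegree_pow] at h2
  omega

end nice

section pull

variable {k K : Type} [Field k] [Finite k] [Field K] [Algebra k K] [FF.IsFF k K]

/-- the order at a pole -/
theorem ord_pole {f : K} {v : Place k K} (hv : v.ord f < 0) {p : k[X]} (hp : p ≠ 0) :
    v.ord (aeval f p) = p.natDegree * v.ord f := by
  have hf0 : f ≠ 0 := by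
    rintro rfl
    rw [v.ord_zero] at hv
    exact lt_irrefl _ hv
  have hsm : TH180.R2.Small v f⁻¹ := Or.inr (by rw [v.ord_inv]; omega)
  have rw' : v.Reg f⁻¹ := Or.inr (by rw [v.ord_inv]; omega)
  have e := aeval_pole hf0 (le_refl p.natDegree)
  have hr := red_aeval_small hsm (reflect p.natDegree p)
  have hcf : (reflect p.natDegree p).coeff 0 = p.leadingCoeff := by
    rw [coeff_reflect, revAt_le (Nat.zero_le _), Nat.sub_zero]
    rfl
  rw [hcf] at hr
  have hne : v.red (aeval f⁻¹ (reflect p.natDegree p)) ≠ 0 := by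
    rw [hr]
    exact (_root_.map_ne_zero _).2 (leadingCoeff_ne_zero.2 hp)
  have hne0 : aeval f⁻¹ (reflect p.natDegree p) ≠ 0 := by
    intro h0
    rw [h0, v.red_zero] at hne
    exact hne rfl
  have h0 : v.ord (aeval f⁻¹ (reflect p.natDegree p)) = 0 := by
    have h1 := (v.reg_iff hne0).1 (reg_aeval rw' _)
    by_contra h2
    apply hne
    rw [v.red_eq_zero_iff (reg_aeval rw' _)]
    right
    omega
  rw [← e] at h0 hne0
  have hpf : aeval f p ≠ 0 := right_ne_zero_of_mul hne0
  rw [v.ord_mul (pow_ne_zero _ (inv_ne_zero hf0)) hpf, v.ord_pow, v.ord_inv] at h0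
  linarith

theorem pull_term (h6 : (6 : k) ≠ 0) {α β : k[X]} (h : Nice α β) {f : K}
    (hf : Transcendental k f) {v : Place k K} (ho : (3 : ℤ) ∣ v.ord f → (6 : ℤ) ∣ v.ord f) :
    localTerm v (qA (aeval f α) (aeval f β) f) (qB (aeval f α) (aeval f β) f) ≤
      if 0 < v.ord (aeval f (α ^ 3 - X * β ^ 3)) then 1 else 0 := by
  have hf0 : f ≠ 0 := by
    rintro rfl
    exact hf isAlgebraic_zero
  have ha := aeval_ne hf h.alpha
  have hb := aeval_ne hf h.b0
  have hd := aeval_ne hf h.disc
  have hc := aeval_ne hf h.conj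
  have ed : aeval f (α ^ 3 - X * β ^ 3) = aeval f α ^ 3 - aeval f β ^ 3 * f := by
    rw [map_sub, map_pow, map_mul, map_pow, aeval_X]
    ring
  have ec : aeval f (α ^ 3 + X * β ^ 3) = aeval f α ^ 3 + aeval f β ^ 3 * f := by
    rw [map_add, map_pow, map_mul, map_pow, aeval_X]
    ring
  rw [ed] at hd ⊢
  rw [ec] at hc
  have hmain := localTerm_le (v := v) h6 ha hb hf0 hd hc
  -- the three cases
  rcases lt_or_ge (v.ord f) 0 with hv | hv
  · -- a pole
    have oa := ord_pole hv h.alpha
    have ob := ord_pole hv h.b0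
    have hev : ∀ i : ℤ, v.ord f = 3 * i →
        Even (min (v.ord (aeval f α) + i) (v.ord (aeval f β) + 2 * i)) := by
      intro i hi
      obtain ⟨j, hj⟩ := ho ⟨i, hi⟩
      have hi2 : i = 2 * j := by omega
      rw [oa, ob, hj, hi2]
      rcases min_choice (↑α.natDegree * (6 * j) + 2 * j) (↑β.natDegree * (6 * j) + 2 * (2 * j))
        with hh | hh <;> rw [hh]
      · exact ⟨α.natDegree * (3 * j) + j, by ring⟩
      · exact ⟨β.natDegree * (3 * j) + 2 * j, by ring⟩
    have h1 := hmain hev
    -- there is no cancellation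
    have hne : 3 * v.ord (aeval f α) ≠ 3 * v.ord (aeval f β) + v.ord f := by
      rw [oa, ob]
      intro h2
      have h3 : (3 * (α.natDegree : ℤ) - 3 * β.natDegree - 1) * v.ord f = 0 := by
        linear_combination h2
      rcases mul_eq_zero.1 h3 with h5 | h5 <;> omega
    have o1 : v.ord (aeval f α ^ 3) = 3 * v.ord (aeval f α) := by rw [v.ord_pow]; norm_num
    have o2 : v.ord (aeval f β ^ 3 * f) = 3 * v.ord (aeval f β) + v.ord f := by
      rw [v.ord_mul (pow_ne_zero 3 hb) hf0, v.ord_pow]; norm_num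
    have hD : v.ord (aeval f α ^ 3 - aeval f β ^ 3 * f) =
        min (3 * v.ord (aeval f α)) (3 * v.ord (aeval f β) + v.ord f) := by
      rcases lt_or_gt_of_ne hne with h2 | h2
      · rw [min_eq_left h2.le, ← o1]
        exact (ord_sub_left (pow_ne_zero 3 ha) (Or.inr (by rw [o1, o2]; exact h2))).2
      · rw [min_eq_right h2.le, ← o2]
        exact (ord_sub_right (mul_ne_zero (pow_ne_zero 3 hb) hf0)
          (Or.inr (by rw [o1, o2]; exact h2))).2
    rw [if_neg (by rw [hD]; exact lt_irrefl _)] at h1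
    rw [Nat.le_zero.1 h1]
    exact Nat.zero_le _
  · have hr : v.Reg f := Or.inr hv
    have ra := reg_aeval hr α
    have rb := reg_aeval hr β
    have na : 0 ≤ v.ord (aeval f α) := (v.reg_iff ha).1 ra
    have nb : 0 ≤ v.ord (aeval f β) := (v.reg_iff hb).1 rb
    have hmin : v.ord (aeval f α) = 0 ∨ v.ord (aeval f β) = 0 := by
      by_contra hcon
      push Not at hcon
      obtain ⟨u, w, huw⟩ := h.cop
      have h1 : v.red (aeval f u) * v.red (aeval f α) + v.red (aeval f w) * v.red (aeval f β) = 1 := by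
        rw [← v.red_mul (reg_aeval hr _) ra, ← v.red_mul (reg_aeval hr _) rb,
          ← v.red_add (v.reg_mul (reg_aeval hr _) ra) (v.reg_mul (reg_aeval hr _) rb),
          ← map_mul, ← map_mul, ← map_add, huw, map_one, v.red_one]
      rw [(v.red_eq_zero_iff ra).2 (Or.inr (by omega)), (v.red_eq_zero_iff rb).2 (Or.inr (by omega)),
        mul_zero, mul_zero, add_zero] at h1
      exact zero_ne_one h1
    rcases hv.eq_or_lt with hv0 | hv0
    · -- a unit
      have hm : min (v.ord (aeval f α)) (v.ord (aeval f β)) = 0 := by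
        rcases hmin with h1 | h1
        · rw [h1]; exact min_eq_left nb
        · rw [h1]; exact min_eq_right na
      have h1 := hmain (by
        intro i hi
        have hi0 : i = 0 := by omega
        rw [hi0, mul_zero, add_zero, add_zero, hm]
        exact Even.zero)
      have h2 : min (3 * v.ord (aeval f α)) (3 * v.ord (aeval f β) + v.ord f) = 0 := by
        rw [← hv0, add_zero]
        rcases hmin with h1 | h1
        · rw [h1, mul_zero]; exact min_eq_left (by omega)
        · rw [h1, mul_zero]; exact min_eq_right (by omega)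
      rwa [h2] at h1
    · -- a zero
      have hsm : TH180.R2.Small v f := Or.inr hv0
      have hra : v.red (aeval f α) ≠ 0 := by
        rw [red_aeval_small hsm]
        exact (_root_.map_ne_zero _).2 h.a0
      have oa : v.ord (aeval f α) = 0 := by
        by_contra h2
        apply hra
        rw [v.red_eq_zero_iff ra]
        right
        omega
      have h1 := hmain (by
        intro i hi
        obtain ⟨j, hj⟩ := ho ⟨i, hi⟩
        have hi2 : i = 2 * j := by omega
        rw [oa, hi2, min_eq_left (by omega)]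
        exact ⟨j, by ring⟩)
      have h2 : min (3 * v.ord (aeval f α)) (3 * v.ord (aeval f β) + v.ord f) = 0 := by
        rw [oa, mul_zero]
        exact min_eq_left (by omega)
      rwa [h2] at h1

theorem disc_ne (h6 : (6 : k) ≠ 0) {α β : k[X]} (h : Nice α β) {f : K}
    (hf : Transcendental k f) :
    4 * qA (aeval f α) (aeval f β) f ^ 3 + 27 * qB (aeval f α) (aeval f β) f ^ 2 ≠ 0 := by
  have h3 : (3 : k) ≠ 0 := fun e => h6 (by linear_combination 2 * e)
  have h27K : (27 : K) ≠ 0 := by
    have h27 : (27 : k) ≠ 0 := by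
      have : (27 : k) = 3 ^ 3 := by norm_num
      rw [this]
      exact pow_ne_zero 3 h3
    have : algebraMap k K 27 ≠ 0 := by simpa using h27
    rwa [map_ofNat] at this
  have hf0 : f ≠ 0 := by
    rintro rfl
    exact hf isAlgebraic_zero
  have hd := aeval_ne hf h.disc
  have ed : aeval f (α ^ 3 - X * β ^ 3) = aeval f α ^ 3 - aeval f β ^ 3 * f := by
    rw [map_sub, map_pow, map_mul, map_pow, aeval_X]
    ring
  rw [ed] at hd
  rw [disc_eq]
  exact mul_ne_zero h27K (mul_ne_zero (pow_ne_zero 2 hf0) (pow_ne_zero 2 hd))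

variable {L : Type} [Field L] [Algebra k L] [Algebra K L] [IsScalarTower k K L]

/-- the bound for the order of vanishing -/
theorem upper (h6 : (6 : k) ≠ 0) (hcK : constDeg k K = 1) (hcL : constDeg k L = 1)
    (hcl : Odd (S.classNumber k L)) {α β : k[X]} (h : Nice α β) {f : K}
    (hf : Transcendental k f) (ho : ∀ v : Place k K, (3 : ℤ) ∣ v.ord f → (6 : ℤ) ∣ v.ord f) {s : L}
    (hs : s ^ 3 = algebraMap K L f) (hgen : K⟮s⟯ = ⊤) (hdeg : Module.finrank K L = 3) (M : ℕ)
    (hM : S.VanishesTo k (qA (aeval f α) (aeval f β) f) (qB (aeval f α) (aeval f β) f) M) :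
    M ≤ zSum k (aeval f (α ^ 3 - X * β ^ 3)) := by
  have hb := aeval_ne hf h.b0
  have hΔ := disc_ne h6 h hf
  have hF := family (α := aeval f α) hb hΔ hs hgen hdeg
  have hfd : FiniteDimensional K L := hF.fd ()
  haveI : FF.IsFF k L := isFF_of_finite (K := K)
  obtain ⟨PK, hPK, -⟩ := exists_num_rel k K
  obtain ⟨PL, hPL, hPL1⟩ := exists_num_rel k L
  obtain ⟨G, hG⟩ := hM
  rw [S.lfun_eq hΔ] at hG
  have hbd := main_bound h6 hΔ hF hPK hcK (PL := fun _ => PL) (fun _ => hPL) M G hG
  have hmu : mu (PL.map (Int.castRingHom (ZMod 2))) = 0 := by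
    have := hcl
    rw [S.classNumber_eq] at this
    exact muTwo_odd hPL1 this
  simp only [Finset.univ_unique, Finset.sum_singleton, hcL, hmu] at hbd
  have h1 : twoPart 1 = 1 := by
    unfold twoPart
    rw [padicValNat.one, pow_zero]
  rw [h1] at hbd
  have hle : ∑ᶠ v : Place k K, localTerm v (qA (aeval f α) (aeval f β) f)
      (qB (aeval f α) (aeval f β) f) * twoPart v.deg ≤ zSum k (aeval f (α ^ 3 - X * β ^ 3)) := by
    unfold zSum
    set g := aeval f (α ^ 3 - X * β ^ 3) with hg
    set Z : Finset (Place k K) := (finite_support (k := k) g).toFinset with hZ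
    have hZm : ∀ v : Place k K, v ∈ Z ↔ v.ord g ≠ 0 := by
      intro v
      rw [hZ, Set.Finite.mem_toFinset]
      rfl
    have hl := fun v : Place k K => pull_term (v := v) h6 h hf (ho v)
    rw [← hg] at hl
    rw [finsum_eq_sum_of_support_subset (s := Z), finsum_eq_sum_of_support_subset (s := Z)]
    · refine Finset.sum_le_sum fun v _ => ?_
      have h5 := hl v
      rw [S.deg_eq]
      by_cases h7 : 0 < v.ord g
      · rw [if_pos h7] at h5 ⊢
        calc localTerm v (qA (aeval f α) (aeval f β) f)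
              (qB (aeval f α) (aeval f β) f) * twoPart v.deg ≤ 1 * twoPart v.deg :=
              Nat.mul_le_mul_right _ h5
          _ = twoPart v.deg := one_mul _
      · rw [if_neg h7] at h5 ⊢
        rw [Nat.le_zero.1 h5, zero_mul]
    · intro v hv
      rw [Function.mem_support] at hv
      rw [Finset.mem_coe, hZm]
      intro h0
      apply hv
      rw [if_neg (by omega)]
    · intro v hv
      rw [Function.mem_support] at hv
      rw [Finset.mem_coe, hZm]
      intro h0
      apply hv
      have h5 := hl v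
      rw [if_neg (by omega), Nat.le_zero] at h5
      rw [h5, zero_mul]
  omega

end pull

end Pool.Agent.R427.QC
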