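import Pool.Agent.R427.QC2
import Pool.Agent.TH180.R4.Par

/-!
Independent points over `k(T)`.
-/

set_option autoImplicit false
set_option linter.all false
set_option maxHeartbeats 4000000

open WeierstrassCurve WeierstrassCurve.Affine FF Polynomial
open scoped Classical

namespace Pool.Agent.R427.QC

open Pool.Agent.W343.BSD Pool.Agent.H525R3.FFp Pool.Agent.W309.RF Pool.Agent.W309.RK
open Pool.Agent.W313.Gr (curve rank)
open Pool.Agent.R427.PC (no_localRoot eqn no_two delta_ne)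
open Pool.Agent.TH180.R4 (transc_X exists_lift one_zero' gmap)

/-- independence from parities -/
theorem indep_matrix {G : Type} [AddCommGroup G] (h2 : ∀ Q : G, Q + Q = 0 → Q = 0) {n : ℕ}
    (P : Fin n → G) (ψ : Fin n → (G →+ ZMod 2))
    (hM : ∀ g : Fin n → ZMod 2, (∀ j, ∑ i, g i * ψ j (P i) = 0) → g = 0) :
    LinearIndependent ℤ P := by
  have key : ∀ (N : ℕ) (m : Fin n → ℤ), ∑ i, m i • P i = 0 → ∀ i, (2 : ℤ) ^ N ∣ m i := by
    intro N
    induction N with
    | zero => intro m _ i; rw [pow_zero]; exact one_dvd _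
    | succ N ih =>
      intro m hm
      have h1 : (fun i => ((m i : ℤ) : ZMod 2)) = 0 := by
        apply hM
        intro j
        have := congrArg (ψ j) hm
        rw [map_sum, map_zero] at this
        rw [← this]
        refine Finset.sum_congr rfl fun i _ => ?_
        rw [map_zsmul, zsmul_eq_mul]
      have h3 : ∀ i, (2 : ℤ) ∣ m i := fun i =>
        (ZMod.intCast_zmod_eq_zero_iff_dvd (m i) 2).1 (congrFun h1 i)
      choose m' hm' using h3
      have h4 : ∑ i, m' i • P i = 0 := by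
        apply h2
        rw [← Finset.sum_add_distrib, ← hm]
        refine Finset.sum_congr rfl fun i _ => ?_
        rw [hm' i, ← add_smul, two_mul]
      intro i
      rw [hm' i, pow_succ, mul_comm ((2 : ℤ) ^ N) 2]
      exact mul_dvd_mul_left 2 (ih m' h4 i)
  rw [Fintype.linearIndependent_iff]
  intro g hg i
  have h5 := key (g i).natAbs g hg i
  by_contra hne
  have h6 := Int.natAbs_dvd_natAbs.2 h5
  rw [Int.natAbs_pow] at h6
  have h7 := Nat.le_of_dvd (Int.natAbs_pos.2 hne) h6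
  have h8 : (g i).natAbs < 2 ^ (g i).natAbs := Nat.lt_two_pow_self
  have h9 : (2 : ℤ).natAbs = 2 := rfl
  rw [h9] at h7
  omega

section place

variable {k : Type} [Field k] [Finite k]

/-- the polynomial `X ^ 2 + s X + s ^ 2` -/
noncomputable def qd (s : k) : k[X] := X ^ 2 + C s * X + C (s ^ 2)

theorem qd_mul (s : k) : (X - C s) * qd s = X ^ 3 - C (s ^ 3) := by
  unfold qd
  simp only [C_pow]
  ring

theorem qd_natDegree (s : k) : (qd s).natDegree = 2 := by
  unfold qd
  compute_degree!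

theorem qd_ne (s : k) : qd s ≠ 0 := by
  intro h
  have := qd_natDegree s
  rw [h, natDegree_zero] at this
  omega

theorem exists_place (h3 : (3 : k) ≠ 0) {s : k} (hs : s ≠ 0) :
    ∃ v : Place k (RatFunc k), v.ord (A (qd s)) = 1 ∧
      ∀ r : k, r ^ 3 ≠ s ^ 3 → v.ord (A (qd r)) = 0 := by
  obtain ⟨π, hπ, hdvd⟩ := exists_irreducible_of_natDegree_ne_zero (f := qd s)
    (by rw [qd_natDegree]; norm_num)
  obtain ⟨v, hv, -, -⟩ := one_zero' hπ
  have hX : 0 ≤ v.ord (RatFunc.X : RatFunc k) := by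
    by_contra h
    push Not at h
    rw [inf_ord' h hπ.ne_zero] at hv
    omega
  obtain ⟨ρ, hm, hρ, hord, hnn, hiff, -⟩ := fin_exists hX
  have h1 : ρ ∣ qd s := ((hiff π hπ.ne_zero).1 hv).trans hdvd
  have hunit : ∀ c : k, c ≠ 0 → ¬ ρ ∣ C c := fun c hc hd =>
    hρ.not_isUnit (isUnit_of_dvd_unit hd (isUnit_C.2 hc.isUnit))
  obtain ⟨g, hg⟩ := h1
  have hg0 : g ≠ 0 := by
    rintro rfl
    rw [mul_zero] at hg
    exact qd_ne s hg
  have hng : ¬ ρ ∣ g := by
    rintro ⟨g', hg'⟩
    have hd : ρ ∣ derivative (qd s) := by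
      rw [hg, hg', derivative_mul, derivative_mul]
      refine dvd_add ((dvd_mul_right ρ g').mul_left _) (dvd_mul_right _ _)
    have hder : derivative (qd s) = 2 * X + C s := by
      unfold qd
      simp only [derivative_add, derivative_mul, derivative_C, derivative_X, derivative_X_pow]
      simp
      rw [map_ofNat]
    apply hunit (3 * s ^ 2) (mul_ne_zero h3 (pow_ne_zero 2 hs))
    have e : C (3 * s ^ 2) = 4 * qd s - (2 * X + C s) * derivative (qd s) := by
      rw [hder]
      unfold qd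
      simp only [C_mul, C_pow]
      rw [map_ofNat]
      ring
    rw [e]
    exact dvd_sub ((Dvd.intro g hg.symm).mul_left _) (hd.mul_left _)
  refine ⟨v, ?_, ?_⟩
  · have e : A (qd s) = A ρ * A g := by
      rw [hg]
      exact map_mul _ _ _
    have h5 := hnn g hg0
    have h7 : ¬ 0 < v.ord (A g) := fun h => hng ((hiff g hg0).1 h)
    rw [e, v.ord_mul (A_ne hρ.ne_zero) (A_ne hg0), hord]
    omega
  · intro r hr
    have h5 := hnn (qd r) (qd_ne r)
    have h7 : ¬ 0 < v.ord (A (qd r)) := by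
      intro h
      have h8 := (hiff (qd r) (qd_ne r)).1 h
      apply hunit (s ^ 3 - r ^ 3) (sub_ne_zero.2 hr.symm)
      have e : C (s ^ 3 - r ^ 3) = (X - C r) * qd r - (X - C s) * qd s := by
        rw [qd_mul, qd_mul, C_sub]
        ring
      rw [e]
      exact dvd_sub (h8.mul_left _) ((Dvd.intro g hg.symm).mul_left _)
    omega

/-- no points of order two -/
theorem no_root_rat (h6 : (6 : k) ≠ 0) {α β : k[X]} (h : Nice α β) (x : RatFunc k) :
    x ^ 3 + qA (A α) (A β) RatFunc.X * x + qB (A α) (A β) RatFunc.X ≠ 0 := by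
  have h3 : (3 : k) ≠ 0 := fun e => h6 (by linear_combination 2 * e)
  have h3K : (3 : RatFunc k) ≠ 0 := by
    have : algebraMap k (RatFunc k) 3 ≠ 0 := by simpa using h3
    rwa [map_ofNat] at this
  obtain ⟨v, hv⟩ := TH180.R4.exists_at (0 : k)
  rw [map_zero, sub_zero] at hv
  have o3 : v.ord (3 : RatFunc k) = 0 := by
    have := v.ord_const h3
    rwa [map_ofNat] at this
  have eA : ∀ p : k[X], A p = aeval (RatFunc.X : RatFunc k) p := A_aeval
  have hX0 : (RatFunc.X : RatFunc k) ≠ 0 := RatFunc.X_ne_zero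
  have hreg : v.Reg (RatFunc.X : RatFunc k) := Or.inr (by rw [hv]; norm_num)
  have hsm : TH180.R2.Small v (RatFunc.X : RatFunc k) := Or.inr (by rw [hv]; norm_num)
  have ha0 := A_ne h.alpha
  have hb0 := A_ne h.b0
  have oa : v.ord (A α) = 0 := by
    have hra : v.red (A α) ≠ 0 := by
      rw [eA, TH180.R4.red_aeval_small hsm]
      exact (_root_.map_ne_zero _).2 h.a0
    have hr : v.Reg (A α) := by
      rw [eA]
      exact TH180.R4.reg_aeval hreg α
    have h1 := (v.reg_iff ha0).1 hr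
    by_contra h2
    apply hra
    rw [v.red_eq_zero_iff hr]
    right
    omega
  have ob : 0 ≤ v.ord (A β) := by
    apply (v.reg_iff hb0).1
    rw [eA]
    exact TH180.R4.reg_aeval hreg β
  have o1 : v.ord (A α ^ 3) = 0 := by rw [v.ord_pow, oa]; norm_num
  have o2 : v.ord (A β ^ 3 * RatFunc.X) = 3 * v.ord (A β) + 1 := by
    rw [v.ord_mul (pow_ne_zero 3 hb0) hX0, v.ord_pow, hv]
    norm_num
  have h5 := PC.ord_add_left (v := v) (pow_ne_zero 3 ha0) (g := A β ^ 3 * RatFunc.X)
    (Or.inr (by rw [o1, o2]; omega))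
  have hqA0 : qA (A α) (A β) (RatFunc.X : RatFunc k) ≠ 0 :=
    neg_ne_zero.2 (mul_ne_zero (mul_ne_zero (mul_ne_zero h3K ha0) hb0) hX0)
  have hqB0 : qB (A α) (A β) (RatFunc.X : RatFunc k) ≠ 0 :=
    neg_ne_zero.2 (mul_ne_zero hX0 h5.1)
  have oqA : v.ord (qA (A α) (A β) (RatFunc.X : RatFunc k)) = v.ord (A β) + 1 := by
    unfold qA
    rw [v.ord_neg, v.ord_mul (mul_ne_zero (mul_ne_zero h3K ha0) hb0) hX0,
      v.ord_mul (mul_ne_zero h3K ha0) hb0, v.ord_mul h3K ha0, o3, oa, hv]
    ring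
  have oqB : v.ord (qB (A α) (A β) (RatFunc.X : RatFunc k)) = 1 := by
    unfold qB
    rw [v.ord_neg, v.ord_mul hX0 h5.1, h5.2, o1, hv]
    norm_num
  have hno := no_localRoot (v := v) hqA0 hqB0 (by rw [oqB]; norm_num) (by rw [oqA, oqB]; omega)
  intro hx
  exact hno fun n => ⟨x, Or.inl hx⟩

/-- The rank over `k(T)`. -/
theorem rank_of_points (h6 : (6 : k) ≠ 0) {α β : k[X]} (h : Nice α β) {n : ℕ} (s : Fin n → k)
    (hs0 : ∀ i, s i ≠ 0) (hs : ∀ i j, i ≠ j → s i ^ 3 ≠ s j ^ 3) (x y : Fin n → RatFunc k)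
    (hxy : ∀ i, y i ^ 2 = x i ^ 3 + qA (A α) (A β) RatFunc.X * x i + qB (A α) (A β) RatFunc.X)
    (S : Fin n → Finset (Fin n)) (c : Fin n → k) (hc : ∀ i, c i ≠ 0)
    (hF : ∀ Φ : RatFunc k →ₐ[k] RatFunc k, Φ RatFunc.X = RatFunc.X ^ 3 → ∀ i,
      Φ (x i) - (Φ (A α) * RatFunc.X + Φ (A β) * RatFunc.X ^ 2) =
        algebraMap k (RatFunc k) (c i) * ∏ j ∈ S i, A (qd (s j)))
    (hM : ∀ g : Fin n → ZMod 2, (∀ j, ∑ i, (if j ∈ S i then g i else 0) = 0) → g = 0) :
    (n : Cardinal) ≤ rank (qA (A α) (A β) (RatFunc.X : RatFunc k))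
      (qB (A α) (A β) (RatFunc.X : RatFunc k)) := by
  have h2 : (2 : k) ≠ 0 := fun e => h6 (by linear_combination 3 * e)
  have h3 : (3 : k) ≠ 0 := fun e => h6 (by linear_combination 2 * e)
  have h2K : (2 : RatFunc k) ≠ 0 := by
    have : algebraMap k (RatFunc k) 2 ≠ 0 := by simpa using h2
    rwa [map_ofNat] at this
  have hX0 : (RatFunc.X : RatFunc k) ≠ 0 := RatFunc.X_ne_zero
  have hX3 : Transcendental k ((RatFunc.X : RatFunc k) ^ 3) := transc_X.pow (by norm_num)
  obtain ⟨Φ, hΦ⟩ := exists_lift hX3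
  have hΔ1 : 4 * qA (A α) (A β) (RatFunc.X : RatFunc k) ^ 3 +
      27 * qB (A α) (A β) (RatFunc.X : RatFunc k) ^ 2 ≠ 0 := by
    have := disc_ne h6 h (transc_X (k := k))
    rwa [← A_aeval, ← A_aeval] at this
  have hmA : Φ (qA (A α) (A β) RatFunc.X) = qA (Φ (A α)) (Φ (A β)) (RatFunc.X ^ 3) := by
    unfold qA
    rw [map_neg, map_mul, map_mul, map_mul, map_ofNat, hΦ]
  have hmB : Φ (qB (A α) (A β) RatFunc.X) = qB (Φ (A α)) (Φ (A β)) (RatFunc.X ^ 3) := by
    unfold qB
    rw [map_neg, map_mul, map_add, map_mul, map_pow, map_pow, hΦ]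
  set A' := qA (Φ (A α)) (Φ (A β)) ((RatFunc.X : RatFunc k) ^ 3) with hA'
  set B' := qB (Φ (A α)) (Φ (A β)) ((RatFunc.X : RatFunc k) ^ 3) with hB'
  set e : RatFunc k := Φ (A α) * RatFunc.X + Φ (A β) * RatFunc.X ^ 2 with he
  have hΔ2 : 4 * A' ^ 3 + 27 * B' ^ 2 ≠ 0 := by
    rw [← hmA, ← hmB]
    have : Φ (4 * qA (A α) (A β) (RatFunc.X : RatFunc k) ^ 3 +
      27 * qB (A α) (A β) (RatFunc.X : RatFunc k) ^ 2) ≠ 0 := (_root_.map_ne_zero Φ).2 hΔ1
    rwa [map_add, map_mul, map_mul, map_pow, map_pow, map_ofNat, map_ofNat] at this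
  have hroot : HasRoot (curve A' B').toAffine e := by
    refine ⟨rfl, rfl, ?_⟩
    show e ^ 3 + 0 * e ^ 2 + A' * e + B' = 0
    rw [hA', hB', he]
    unfold qA qB
    ring
  -- the homomorphisms
  choose v hv1 hv2 using fun i : Fin n => exists_place h3 (hs0 i)
  let γ := gmap (A := qA (A α) (A β) (RatFunc.X : RatFunc k))
    (B := qB (A α) (A β) (RatFunc.X : RatFunc k)) (A' := A') (B' := B') (Φ : RatFunc k →+* RatFunc k)
    (one_ne_zero : (1 : RatFunc k) ≠ 0)
    (by rw [one_pow, one_mul]; exact hmA.symm) (by rw [one_pow, one_mul]; exact hmB.symm) h2K hΔ2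
  let ψ : Fin n → ((curve (qA (A α) (A β) (RatFunc.X : RatFunc k))
      (qB (A α) (A β) (RatFunc.X : RatFunc k))).toAffine.Point →+ ZMod 2) := fun j =>
    (parHom hroot (v j).ord (fun f g hf hg => (v j).ord_mul hf hg)).comp γ
  have hE : ∀ i, (curve (qA (A α) (A β) (RatFunc.X : RatFunc k))
      (qB (A α) (A β) (RatFunc.X : RatFunc k))).toAffine.Equation (x i) (y i) := fun i =>
    (eqn _ _ _ _).2 (hxy i)
  have hn := fun i => (equation_iff_nonsingular_of_Δ_ne_zero (delta_ne h2K hΔ1)).1 (hE i)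
  let P : Fin n → (curve (qA (A α) (A β) (RatFunc.X : RatFunc k))
      (qB (A α) (A β) (RatFunc.X : RatFunc k))).toAffine.Point := fun i => Point.some _ _ (hn i)
  have hval : ∀ i j, ψ j (P i) = if j ∈ S i then 1 else 0 := by
    intro i j
    have hprod : ∏ l ∈ S i, A (qd (s l)) ≠ 0 := Finset.prod_ne_zero_iff.2 fun l _ => A_ne (qd_ne _)
    have hcK : algebraMap k (RatFunc k) (c i) ≠ 0 := (_root_.map_ne_zero _).2 (hc i)
    have hFi := hF Φ hΦ i
    rw [← he] at hFi
    have hne : Φ (x i) - e ≠ 0 := by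
      rw [hFi]
      exact mul_ne_zero hcK hprod
    have hdel : del (curve A' B').toAffine e (γ (P i)) = Φ (x i) - e := by
      show del (curve A' B').toAffine e (Point.some (Φ (x i) * 1 ^ 2) (Φ (y i) * 1 ^ 3) _) = _
      simp only [del]
      rw [if_neg (by
        rw [one_pow, mul_one]
        exact fun h => hne (sub_eq_zero.2 h)), one_pow, mul_one]
    show (((v j).ord (del (curve A' B').toAffine e (γ (P i))) : ℤ) : ZMod 2) = _
    rw [hdel, hFi, (v j).ord_mul hcK hprod, (v j).ord_const (hc i), zero_add]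
    have hsum : (v j).ord (∏ l ∈ S i, A (qd (s l))) = ∑ l ∈ S i, (v j).ord (A (qd (s l))) := by
      clear hprod hFi
      induction S i using Finset.induction_on with
      | empty => rw [Finset.prod_empty, Finset.sum_empty, (v j).ord_one]
      | insert a t ha ih =>
        rw [Finset.prod_insert ha, Finset.sum_insert ha, (v j).ord_mul (A_ne (qd_ne _))
          (Finset.prod_ne_zero_iff.2 fun l _ => A_ne (qd_ne _)), ih]
    have hterm : ∀ l, (v j).ord (A (qd (s l))) = if l = j then 1 else 0 := by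
      intro l
      split_ifs with hlj
      · rw [hlj]; exact hv1 j
      · exact hv2 j _ (hs l j hlj)
    rw [hsum, Finset.sum_congr rfl (fun l _ => hterm l), Finset.sum_ite_eq']
    split_ifs <;> simp
  have hlin : LinearIndependent ℤ P := by
    apply indep_matrix (no_two h2K (no_root_rat h6 h)) P ψ
    intro g hg
    apply hM g
    intro j
    refine Eq.trans ?_ (hg j)
    refine Finset.sum_congr rfl fun i _ => ?_
    rw [hval i j]
    split_ifs
    · rw [mul_one]
    · rw [mul_zero]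
  have := hlin.cardinal_le_rank
  rwa [Cardinal.mk_fin] at this

end place

end Pool.Agent.R427.QC
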