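import Pool.Agent.R427.QC3

/-!
Families of surfaces of ranks one, three and four.
-/

set_option autoImplicit false
set_option linter.all false
set_option maxHeartbeats 4000000

open FF Polynomial

namespace Pool.Agent.R427.QC

open Pool.Agent.W343.BSD Pool.Agent.W309.RF
open Pool.Agent.W313.Gr (rank)

section ids

variable {F : Type} [Field F]

/-- the point on the surface of rank one -/
theorem pt_one (T : F) : (T - 1) ^ 2 = (1 : F) ^ 3 + qA (-1) (-1) T * 1 + qB (-1) (-1) T := by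
  unfold qA qB
  ring

/-- points on the surfaces of rank three -/
theorem pt_two (p q c T : F) (hc : c ^ 2 = p ^ 2 + p * q + q ^ 2) :
    ((T - q ^ 3) * (T + (p + q) ^ 3)) ^ 2 = (-(p * T) + q ^ 2 * (p + q) ^ 2) ^ 3 +
      qA (-(p * q * (p + q)) - T) (-c ^ 2) T * (-(p * T) + q ^ 2 * (p + q) ^ 2) +
      qB (-(p * q * (p + q)) - T) (-c ^ 2) T := by
  rw [hc]
  unfold qA qB
  ring

theorem pt_three (p q c T : F) (hc0 : c ≠ 0) (hc : c ^ 2 = p ^ 2 + p * q + q ^ 2) :
    ((T - p ^ 3) * (T - q ^ 3) * (T + (p + q) ^ 3) / c ^ 3) ^ 2 =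
      ((T + p * q * (p + q)) ^ 2 / c ^ 2) ^ 3 +
      qA (-(p * q * (p + q)) - T) (-c ^ 2) T * ((T + p * q * (p + q)) ^ 2 / c ^ 2) +
      qB (-(p * q * (p + q)) - T) (-c ^ 2) T := by
  have key : ((T - p ^ 3) * (T - q ^ 3) * (T + (p + q) ^ 3)) ^ 2 =
      ((T + p * q * (p + q)) ^ 2) ^ 3 - 3 * (c ^ 2 * (-(p * q * (p + q)) - T)) * (c ^ 2 * (-c ^ 2)) *
        T * (T + p * q * (p + q)) ^ 2 - T * ((c ^ 2 * (-(p * q * (p + q)) - T)) ^ 3 +
        (c ^ 2 * (-c ^ 2)) ^ 3 * T) := by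
    rw [hc]
    ring
  unfold qA qB
  field_simp
  linear_combination key

/-- points on the surfaces of rank four -/
theorem pt_four (a b c w ρ T : F) (hρ : ρ ≠ 0) (h : ρ ^ 2 = a + b + c)
    (he : a * b + b * c + c * a + (a + b + c) * w = 0) :
    ((T - a ^ 3) * (T - b ^ 3) * (T - c ^ 3) / ρ ^ 3) ^ 2 =
      ((T ^ 2 + ((a + b + c) * (a * b + b * c + c * a) - 2 * (a * b * c)) * T + (a * b * c) ^ 2) /
        ρ ^ 2) ^ 3 +
      qA (a * b * c * w - (a + b + c + w) * T) (a * b * c + (a * b + b * c + c * a) * w - T) T *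
      ((T ^ 2 + ((a + b + c) * (a * b + b * c + c * a) - 2 * (a * b * c)) * T + (a * b * c) ^ 2) /
        ρ ^ 2) +
      qB (a * b * c * w - (a + b + c + w) * T) (a * b * c + (a * b + b * c + c * a) * w - T) T := by
  set α := a * b * c * w - (a + b + c + w) * T with hα
  set β := a * b * c + (a * b + b * c + c * a) * w - T with hβ
  have h1 : ρ ^ 2 * α = -(a * b * c * (a * b + b * c + c * a)) -
      ((a + b + c) ^ 2 - (a * b + b * c + c * a)) * T := by
    rw [h, hα]
    linear_combination (a * b * c - T) * he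
  have h2 : ρ ^ 2 * β = a * b * c * (a + b + c) - (a * b + b * c + c * a) ^ 2 -
      (a + b + c) * T := by
    rw [h, hβ]
    linear_combination (a * b + b * c + c * a) * he
  have key : ((T - a ^ 3) * (T - b ^ 3) * (T - c ^ 3)) ^ 2 =
      (T ^ 2 + ((a + b + c) * (a * b + b * c + c * a) - 2 * (a * b * c)) * T +
        (a * b * c) ^ 2) ^ 3 - 3 * (ρ ^ 2 * α) * (ρ ^ 2 * β) * T *
      (T ^ 2 + ((a + b + c) * (a * b + b * c + c * a) - 2 * (a * b * c)) * T + (a * b * c) ^ 2) -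
      T * ((ρ ^ 2 * α) ^ 3 + (ρ ^ 2 * β) ^ 3 * T) := by
    rw [h1, h2]
    ring
  unfold qA qB
  field_simp
  linear_combination key

theorem fac_four (a b c w ρ s : F) (hρ : ρ ≠ 0) (h : ρ ^ 2 = a + b + c)
    (he : a * b + b * c + c * a + (a + b + c) * w = 0) :
    ((s ^ 3) ^ 2 + ((a + b + c) * (a * b + b * c + c * a) - 2 * (a * b * c)) * s ^ 3 +
        (a * b * c) ^ 2) / ρ ^ 2 -
      ((a * b * c * w - (a + b + c + w) * s ^ 3) * s +
        (a * b * c + (a * b + b * c + c * a) * w - s ^ 3) * s ^ 2) =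
      1 / ρ ^ 2 * ((s ^ 2 + a * s + a ^ 2) * ((s ^ 2 + b * s + b ^ 2) * (s ^ 2 + c * s + c ^ 2))) := by
  field_simp
  rw [h]
  linear_combination (-(a * b * c * s) + s ^ 4 - (a * b + b * c + c * a) * s ^ 2) * he

end ids

section fams

variable {k : Type} [Field k] [Finite k]

theorem A_qd (s : k) : A (qd s) = RatFunc.X ^ 2 + algebraMap k (RatFunc k) s * RatFunc.X +
    algebraMap k (RatFunc k) s ^ 2 := by
  unfold qd
  show algebraMap k[X] (RatFunc k) _ = _
  rw [map_add, map_add, map_mul, map_pow, RatFunc.algebraMap_X, C_pow, map_pow]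
  rfl

/-- the surface of rank one -/
theorem rank_one (h6 : (6 : k) ≠ 0) : Nice (-1 : k[X]) (-1) ∧
    ((1 : ℕ) : Cardinal) ≤ rank (qA (A (-1 : k[X])) (A (-1 : k[X])) (RatFunc.X : RatFunc k))
      (qB (A (-1 : k[X])) (A (-1 : k[X])) (RatFunc.X : RatFunc k)) := by
  have hn : Nice (-1 : k[X]) (-1) := by
    refine ⟨⟨-1, 0, by ring⟩, ?_, neg_ne_zero.2 one_ne_zero⟩
    rw [coeff_neg, coeff_one_zero]
    exact neg_ne_zero.2 one_ne_zero
  refine ⟨hn, ?_⟩
  have e : A (-1 : k[X]) = -1 := by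
    show algebraMap k[X] (RatFunc k) _ = _
    rw [map_neg, map_one]
  refine rank_of_points h6 hn (n := 1) (fun _ => 1) (fun _ => one_ne_zero) ?_
    (fun _ => 1) (fun _ => RatFunc.X - 1) ?_ (fun _ => {0}) (fun _ => 1) (fun _ => one_ne_zero) ?_ ?_
  · intro i j hij
    exact absurd (Subsingleton.elim i j) hij
  · intro _
    rw [e]
    exact pt_one _
  · intro Φ hΦ _
    rw [Finset.prod_singleton, A_qd, e]
    simp only [map_neg, map_one]
    ring
  · decide

/-- the surfaces of rank three -/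
theorem rank_three (h6 : (6 : k) ≠ 0) {p q c : k} (hc : c ^ 2 = p ^ 2 + p * q + q ^ 2)
    (hne : p * q * (p + q) * (p - q) * (2 * p + q) * (p + 2 * q) * c ≠ 0) :
    Nice (-C (p * q * (p + q)) - X : k[X]) (-C (c ^ 2)) ∧
    ((3 : ℕ) : Cardinal) ≤ rank (qA (A (-C (p * q * (p + q)) - X : k[X])) (A (-C (c ^ 2) : k[X]))
        (RatFunc.X : RatFunc k))
      (qB (A (-C (p * q * (p + q)) - X : k[X])) (A (-C (c ^ 2) : k[X])) (RatFunc.X : RatFunc k)) := by
  have hp : p ≠ 0 := by rintro rfl; apply hne; ring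
  have hq : q ≠ 0 := by rintro rfl; apply hne; ring
  have hpq : p + q ≠ 0 := by intro h; apply hne; rw [h]; ring
  have h1 : p - q ≠ 0 := by intro h; apply hne; rw [h]; ring
  have h2 : 2 * p + q ≠ 0 := by intro h; apply hne; rw [h]; ring
  have h3 : p + 2 * q ≠ 0 := by intro h; apply hne; rw [h]; ring
  have hc0 : c ≠ 0 := by rintro rfl; apply hne; ring
  have hn : Nice (-C (p * q * (p + q)) - X : k[X]) (-C (c ^ 2)) := by
    refine ⟨⟨0, -C ((c ^ 2)⁻¹), ?_⟩, ?_, ?_⟩
    · rw [zero_mul, zero_add, neg_mul_neg, ← C_mul, inv_mul_cancel₀ (pow_ne_zero 2 hc0), C_1]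
    · rw [coeff_sub, coeff_neg, coeff_C_zero, coeff_X_zero, sub_zero]
      exact neg_ne_zero.2 (mul_ne_zero (mul_ne_zero hp hq) hpq)
    · exact neg_ne_zero.2 (C_ne_zero.2 (pow_ne_zero 2 hc0))
  refine ⟨hn, ?_⟩
  set κ := algebraMap k (RatFunc k) with hκ
  have e1 : A (-C (p * q * (p + q)) - X : k[X]) = -(κ p * κ q * (κ p + κ q)) - RatFunc.X := by
    show algebraMap k[X] (RatFunc k) _ = _
    rw [map_sub, map_neg, RatFunc.algebraMap_X, ← map_mul, ← map_add, ← map_mul]
    rfl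
  have e2 : A (-C (c ^ 2) : k[X]) = -κ c ^ 2 := by
    show algebraMap k[X] (RatFunc k) _ = _
    rw [map_neg, ← map_pow]
    rfl
  have hcK : κ c ^ 2 = κ p ^ 2 + κ p * κ q + κ q ^ 2 := by
    rw [← map_pow, hc, map_add, map_add, map_mul, map_pow, map_pow]
  have hcK' : κ c ^ 2 = κ q ^ 2 + κ q * κ p + κ p ^ 2 := by rw [hcK]; ring
  have hc0K : κ c ≠ 0 := (_root_.map_ne_zero _).2 hc0
  have hcub : ∀ x y : k, x - y ≠ 0 → x ^ 2 + x * y + y ^ 2 = c ^ 2 → x ^ 3 ≠ y ^ 3 := by
    intro x y h4 h5 h7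
    have : (x - y) * c ^ 2 = 0 := by rw [← h5]; linear_combination h7
    exact (mul_ne_zero h4 (pow_ne_zero 2 hc0)) this
  have d01 : p ^ 3 ≠ q ^ 3 := hcub _ _ h1 hc.symm
  have d02 : p ^ 3 ≠ (-(p + q)) ^ 3 := hcub _ _ (by
    intro h; apply h2; linear_combination h) (by rw [hc]; ring)
  have d12 : q ^ 3 ≠ (-(p + q)) ^ 3 := hcub _ _ (by
    intro h; apply h3; linear_combination h) (by rw [hc]; ring)
  refine rank_of_points h6 hn (n := 3) ![p, q, -(p + q)] ?_ ?_
    ![-(κ p * RatFunc.X) + κ q ^ 2 * (κ p + κ q) ^ 2, -(κ q * RatFunc.X) + κ p ^ 2 * (κ q + κ p) ^ 2,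
      (RatFunc.X + κ p * κ q * (κ p + κ q)) ^ 2 / κ c ^ 2]
    ![(RatFunc.X - κ q ^ 3) * (RatFunc.X + (κ p + κ q) ^ 3),
      (RatFunc.X - κ p ^ 3) * (RatFunc.X + (κ q + κ p) ^ 3),
      (RatFunc.X - κ p ^ 3) * (RatFunc.X - κ q ^ 3) * (RatFunc.X + (κ p + κ q) ^ 3) / κ c ^ 3]
    ?_ ![{1, 2}, {0, 2}, {0, 1, 2}] ![1, 1, 1 / c ^ 2] ?_ ?_ ?_
  · intro i
    fin_cases i
    · exact hp
    · exact hq
    · exact neg_ne_zero.2 hpq
  · intro i j hij
    fin_cases i <;> fin_cases j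
    · exact absurd rfl hij
    · exact d01
    · exact d02
    · exact d01.symm
    · exact absurd rfl hij
    · exact d12
    · exact d02.symm
    · exact d12.symm
    · exact absurd rfl hij
  · intro i
    rw [e1, e2]
    fin_cases i
    · exact pt_two (κ p) (κ q) (κ c) RatFunc.X hcK
    · have := pt_two (κ q) (κ p) (κ c) RatFunc.X hcK'
      have e3 : -(κ q * κ p * (κ q + κ p)) - RatFunc.X = -(κ p * κ q * (κ p + κ q)) - RatFunc.X := by
        ring
      rw [e3] at this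
      exact this
    · exact pt_three (κ p) (κ q) (κ c) RatFunc.X hc0K hcK
  · intro i
    fin_cases i
    · exact one_ne_zero
    · exact one_ne_zero
    · exact div_ne_zero one_ne_zero (pow_ne_zero 2 hc0)
  · intro Φ hΦ i
    have hκΦ : ∀ z : k, Φ (κ z) = κ z := fun z => Φ.commutes z
    rw [e1, e2]
    simp only [map_sub, map_neg, map_mul, map_add, map_pow, hΦ, hκΦ]
    fin_cases i
    · show Φ (-(κ p * RatFunc.X) + κ q ^ 2 * (κ p + κ q) ^ 2) - _ =
        κ 1 * ∏ j ∈ ({1, 2} : Finset (Fin 3)), A (qd ((![p, q, -(p + q)] : Fin 3 → k) j))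
      rw [Finset.prod_insert (by decide), Finset.prod_singleton]
      show _ = κ 1 * (A (qd q) * A (qd (-(p + q))))
      rw [A_qd, A_qd]
      simp only [map_sub, map_neg, map_mul, map_add, map_pow, hΦ, hκΦ, map_one]
      rw [hcK]
      ring
    · show Φ (-(κ q * RatFunc.X) + κ p ^ 2 * (κ q + κ p) ^ 2) - _ =
        κ 1 * ∏ j ∈ ({0, 2} : Finset (Fin 3)), A (qd ((![p, q, -(p + q)] : Fin 3 → k) j))
      rw [Finset.prod_insert (by decide), Finset.prod_singleton]
      show _ = κ 1 * (A (qd p) * A (qd (-(p + q))))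
      rw [A_qd, A_qd]
      simp only [map_sub, map_neg, map_mul, map_add, map_pow, hΦ, hκΦ, map_one]
      rw [hcK]
      ring
    · show Φ ((RatFunc.X + κ p * κ q * (κ p + κ q)) ^ 2 / κ c ^ 2) - _ =
        κ (1 / c ^ 2) * ∏ j ∈ ({0, 1, 2} : Finset (Fin 3)),
          A (qd ((![p, q, -(p + q)] : Fin 3 → k) j))
      rw [Finset.prod_insert (by decide), Finset.prod_insert (by decide), Finset.prod_singleton]
      show _ = κ (1 / c ^ 2) * (A (qd p) * (A (qd q) * A (qd (-(p + q)))))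
      rw [A_qd, A_qd, A_qd]
      simp only [map_sub, map_neg, map_mul, map_add, map_pow, map_div₀, hΦ, hκΦ, map_one]
      rw [div_sub' (pow_ne_zero 2 hc0K), div_mul_eq_mul_div, one_mul,
        div_eq_div_iff (pow_ne_zero 2 hc0K) (pow_ne_zero 2 hc0K), hcK]
      ring
  · decide

/-- the parameters of the surfaces of rank four -/
structure Par4 (p q r s : k) : Prop where
  e2 : p * q + p * r + p * s + q * r + q * s + r * s = 0
  p0 : p ≠ 0
  q0 : q ≠ 0
  r0 : r ≠ 0
  s0 : s ≠ 0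
  pq : p ^ 3 ≠ q ^ 3
  pr : p ^ 3 ≠ r ^ 3
  ps : p ^ 3 ≠ s ^ 3
  qr : q ^ 3 ≠ r ^ 3
  qs : q ^ 3 ≠ s ^ 3
  rs : r ^ 3 ≠ s ^ 3
  sp : IsSquare (q + r + s)
  sq : IsSquare (p + r + s)
  sr : IsSquare (p + q + s)
  ss : IsSquare (p + q + r)

theorem sqrt_ne {a b c w : k} (he : a * b + b * c + c * a + (a + b + c) * w = 0)
    (hab : a ^ 3 ≠ b ^ 3) (h : IsSquare (a + b + c)) : ∃ ρ : k, ρ ≠ 0 ∧ ρ ^ 2 = a + b + c := by
  obtain ⟨ρ, hρ⟩ := h
  refine ⟨ρ, ?_, by rw [hρ]; ring⟩
  rintro rfl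
  rw [mul_zero] at hρ
  rw [hρ, zero_mul, add_zero] at he
  apply hab
  have hc : c = -a - b := by linear_combination hρ
  rw [hc] at he
  linear_combination (b - a) * he

theorem nice_four {p q r s : k} (h : Par4 p q r s) :
    Nice (C (p * q * r * s) - C (p + q + r + s) * X : k[X])
      (C (p * q * r + p * q * s + p * r * s + q * r * s) - X) := by
  set e1 := p + q + r + s with he1
  set e3 := p * q * r + p * q * s + p * r * s + q * r * s with he3
  set e4 := p * q * r * s with he4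
  have hroot : ∀ x : k, (x = p ∨ x = q ∨ x = r ∨ x = s) →
      x ^ 4 - e1 * x ^ 3 - e3 * x + e4 = 0 := by
    intro x hx
    have e : x ^ 4 - e1 * x ^ 3 - e3 * x + e4 = (x - p) * (x - q) * (x - r) * (x - s) := by
      rw [he1, he3, he4]
      linear_combination (-x ^ 2) * h.e2
    rw [e]
    rcases hx with rfl | rfl | rfl | rfl <;> ring
  have hne : e1 * e3 ≠ e4 := by
    intro h0
    have hor : ∀ x : k, (x = p ∨ x = q ∨ x = r ∨ x = s) → x = e1 ∨ x ^ 3 = e3 := by
      intro x hx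
      have h1 := hroot x hx
      rw [← h0] at h1
      have h2 : (x - e1) * (x ^ 3 - e3) = 0 := by linear_combination h1
      rcases mul_eq_zero.1 h2 with h3 | h3
      · exact Or.inl (sub_eq_zero.1 h3)
      · exact Or.inr (sub_eq_zero.1 h3)
    have hp := hor p (Or.inl rfl)
    have hq := hor q (Or.inr (Or.inl rfl))
    have hr := hor r (Or.inr (Or.inr (Or.inl rfl)))
    rcases hp with hp | hp <;> rcases hq with hq | hq
    · exact h.pq (by rw [hp, hq])
    · rcases hr with hr | hr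
      · exact h.pr (by rw [hp, hr])
      · exact h.qr (by rw [hq, hr])
    · rcases hr with hr | hr
      · exact h.qr (by rw [hq, hr])
      · exact h.pr (by rw [hp, hr])
    · exact h.pq (by rw [hp, hq])
  have hsub : e1 * e3 - e4 ≠ 0 := sub_ne_zero.2 hne
  refine ⟨⟨-C ((e1 * e3 - e4)⁻¹), C (e1 * (e1 * e3 - e4)⁻¹), ?_⟩, ?_, ?_⟩
  · have e : C ((e1 * e3 - e4)⁻¹) * C (e1 * e3 - e4) = (1 : k[X]) := by
      rw [← C_mul, inv_mul_cancel₀ hsub, C_1]
    have h1 : C (e1 * e3 - e4) = C e1 * C e3 - (C e4 : k[X]) := by rw [C_sub, ← C_mul]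
    have h2 : (C (e1 * (e1 * e3 - e4)⁻¹) : k[X]) = C e1 * C ((e1 * e3 - e4)⁻¹) := C_mul
    rw [h1] at e
    rw [h2]
    linear_combination e
  · rw [coeff_sub, coeff_C_zero, coeff_C_mul, coeff_X_zero, mul_zero, sub_zero]
    exact mul_ne_zero (mul_ne_zero (mul_ne_zero h.p0 h.q0) h.r0) h.s0
  · intro h0
    have := congrArg (fun g : k[X] => g.coeff 1) h0
    simp [coeff_C] at this

/-- the surfaces of rank four -/
theorem rank_four (h6 : (6 : k) ≠ 0) {p q r s : k} (h : Par4 p q r s) :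
    ((4 : ℕ) : Cardinal) ≤ rank
      (qA (A (C (p * q * r * s) - C (p + q + r + s) * X : k[X]))
        (A (C (p * q * r + p * q * s + p * r * s + q * r * s) - X : k[X])) (RatFunc.X : RatFunc k))
      (qB (A (C (p * q * r * s) - C (p + q + r + s) * X : k[X]))
        (A (C (p * q * r + p * q * s + p * r * s + q * r * s) - X : k[X]))
        (RatFunc.X : RatFunc k)) := by
  have hn := nice_four h
  set κ := algebraMap k (RatFunc k) with hκ
  have e1 : A (C (p * q * r * s) - C (p + q + r + s) * X : k[X]) =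
      κ p * κ q * κ r * κ s - (κ p + κ q + κ r + κ s) * RatFunc.X := by
    show algebraMap k[X] (RatFunc k) _ = _
    rw [map_sub]
    have h1 : algebraMap k[X] (RatFunc k) (C (p * q * r * s)) = κ (p * q * r * s) := rfl
    have h2 : algebraMap k[X] (RatFunc k) (C (p + q + r + s) * X) =
        κ (p + q + r + s) * RatFunc.X := by
      rw [map_mul, RatFunc.algebraMap_X]
      rfl
    rw [h1, h2]
    simp only [map_mul, map_add]
  have e2 : A (C (p * q * r + p * q * s + p * r * s + q * r * s) - X : k[X]) =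
      κ p * κ q * κ r + κ p * κ q * κ s + κ p * κ r * κ s + κ q * κ r * κ s - RatFunc.X := by
    show algebraMap k[X] (RatFunc k) _ = _
    rw [map_sub, RatFunc.algebraMap_X]
    have : algebraMap k[X] (RatFunc k) (C (p * q * r + p * q * s + p * r * s + q * r * s)) =
      κ (p * q * r + p * q * s + p * r * s + q * r * s) := rfl
    rw [this]
    simp only [map_mul, map_add]
  have hκe : κ p * κ q + κ p * κ r + κ p * κ s + κ q * κ r + κ q * κ s + κ r * κ s = 0 := by
    have := congrArg κ h.e2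
    simpa only [map_add, map_mul, map_zero] using this
  obtain ⟨a, ha0, ha⟩ := sqrt_ne (a := q) (b := r) (c := s) (w := p)
    (by linear_combination h.e2) h.qr h.sp
  obtain ⟨b, hb0, hb⟩ := sqrt_ne (a := p) (b := r) (c := s) (w := q)
    (by linear_combination h.e2) h.pr h.sq
  obtain ⟨c, hc0, hc⟩ := sqrt_ne (a := p) (b := q) (c := s) (w := r)
    (by linear_combination h.e2) h.pq h.sr
  obtain ⟨d, hd0, hd⟩ := sqrt_ne (a := p) (b := q) (c := r) (w := s)
    (by linear_combination h.e2) h.pq h.ss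
  have ka0 : κ a ≠ 0 := (_root_.map_ne_zero _).2 ha0
  have kb0 : κ b ≠ 0 := (_root_.map_ne_zero _).2 hb0
  have kc0 : κ c ≠ 0 := (_root_.map_ne_zero _).2 hc0
  have kd0 : κ d ≠ 0 := (_root_.map_ne_zero _).2 hd0
  have ka : κ a ^ 2 = κ q + κ r + κ s := by rw [← map_pow, ha, map_add, map_add]
  have kb : κ b ^ 2 = κ p + κ r + κ s := by rw [← map_pow, hb, map_add, map_add]
  have kc : κ c ^ 2 = κ p + κ q + κ s := by rw [← map_pow, hc, map_add, map_add]
  have kd : κ d ^ 2 = κ p + κ q + κ r := by rw [← map_pow, hd, map_add, map_add]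
  let xx : RatFunc k → RatFunc k → RatFunc k → RatFunc k → RatFunc k → RatFunc k :=
    fun T a b c ρ => (T ^ 2 + ((a + b + c) * (a * b + b * c + c * a) - 2 * (a * b * c)) * T +
      (a * b * c) ^ 2) / ρ ^ 2
  let yy : RatFunc k → RatFunc k → RatFunc k → RatFunc k → RatFunc k :=
    fun a b c ρ => (RatFunc.X - a ^ 3) * (RatFunc.X - b ^ 3) * (RatFunc.X - c ^ 3) / ρ ^ 3
  refine rank_of_points h6 hn (n := 4) ![p, q, r, s] ?_ ?_
    ![xx RatFunc.X (κ q) (κ r) (κ s) (κ a), xx RatFunc.X (κ p) (κ r) (κ s) (κ b),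
      xx RatFunc.X (κ p) (κ q) (κ s) (κ c), xx RatFunc.X (κ p) (κ q) (κ r) (κ d)]
    ![yy (κ q) (κ r) (κ s) (κ a), yy (κ p) (κ r) (κ s) (κ b), yy (κ p) (κ q) (κ s) (κ c),
      yy (κ p) (κ q) (κ r) (κ d)]
    ?_ ![{1, 2, 3}, {0, 2, 3}, {0, 1, 3}, {0, 1, 2}] ![1 / a ^ 2, 1 / b ^ 2, 1 / c ^ 2, 1 / d ^ 2]
    ?_ ?_ ?_
  · intro i
    fin_cases i
    · exact h.p0
    · exact h.q0
    · exact h.r0
    · exact h.s0
  · intro i j hij
    fin_cases i <;> fin_cases j
    · exact absurd rfl hij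
    · exact h.pq
    · exact h.pr
    · exact h.ps
    · exact h.pq.symm
    · exact absurd rfl hij
    · exact h.qr
    · exact h.qs
    · exact h.pr.symm
    · exact h.qr.symm
    · exact absurd rfl hij
    · exact h.rs
    · exact h.ps.symm
    · exact h.qs.symm
    · exact h.rs.symm
    · exact absurd rfl hij
  · intro i
    rw [e1, e2]
    have hh : ∀ a b c w ρ T α β : RatFunc k, ρ ≠ 0 → ρ ^ 2 = a + b + c →
        a * b + b * c + c * a + (a + b + c) * w = 0 →
        a * b * c * w - (a + b + c + w) * T = α →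
        a * b * c + (a * b + b * c + c * a) * w - T = β →
        ((T - a ^ 3) * (T - b ^ 3) * (T - c ^ 3) / ρ ^ 3) ^ 2 =
          xx T a b c ρ ^ 3 + qA α β T * xx T a b c ρ + qB α β T := by
      intro a b c w ρ T α β h1 h2 h3 h4 h5
      subst h4 h5
      exact pt_four a b c w ρ T h1 h2 h3
    fin_cases i
    · exact hh (κ q) (κ r) (κ s) (κ p) (κ a) RatFunc.X _ _ ka0 ka (by linear_combination hκe)
        (by ring) (by ring)
    · exact hh (κ p) (κ r) (κ s) (κ q) (κ b) RatFunc.X _ _ kb0 kb (by linear_combination hκe)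
        (by ring) (by ring)
    · exact hh (κ p) (κ q) (κ s) (κ r) (κ c) RatFunc.X _ _ kc0 kc (by linear_combination hκe)
        (by ring) (by ring)
    · exact hh (κ p) (κ q) (κ r) (κ s) (κ d) RatFunc.X _ _ kd0 kd (by linear_combination hκe)
        (by ring) (by ring)
  · intro i
    fin_cases i
    · exact div_ne_zero one_ne_zero (pow_ne_zero 2 ha0)
    · exact div_ne_zero one_ne_zero (pow_ne_zero 2 hb0)
    · exact div_ne_zero one_ne_zero (pow_ne_zero 2 hc0)
    · exact div_ne_zero one_ne_zero (pow_ne_zero 2 hd0)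
  · intro Φ hΦ i
    have hκΦ : ∀ z : k, Φ (κ z) = κ z := fun z => Φ.commutes z
    rw [e1, e2]
    simp only [map_sub, map_neg, map_mul, map_add, map_pow, hΦ, hκΦ]
    have hxx : ∀ a b c ρ : k, Φ (xx RatFunc.X (κ a) (κ b) (κ c) (κ ρ)) =
        xx (RatFunc.X ^ 3) (κ a) (κ b) (κ c) (κ ρ) := by
      intro a b c ρ
      show Φ (_ / _) = _ / _
      simp only [map_sub, map_mul, map_add, map_pow, map_div₀, map_ofNat, hΦ, hκΦ]
    fin_cases i
    · show Φ (xx RatFunc.X (κ q) (κ r) (κ s) (κ a)) - _ =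
        κ (1 / a ^ 2) * ∏ j ∈ ({1, 2, 3} : Finset (Fin 4)), A (qd ((![p, q, r, s] : Fin 4 → k) j))
      rw [Finset.prod_insert (by decide), Finset.prod_insert (by decide), Finset.prod_singleton]
      show _ = κ (1 / a ^ 2) * (A (qd q) * (A (qd r) * A (qd s)))
      rw [A_qd, A_qd, A_qd, hxx, map_div₀, map_one, map_pow]
      have := fac_four (κ q) (κ r) (κ s) (κ p) (κ a) RatFunc.X ka0 ka (by linear_combination hκe)
      refine Eq.trans ?_ this
      ring
    · show Φ (xx RatFunc.X (κ p) (κ r) (κ s) (κ b)) - _ =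
        κ (1 / b ^ 2) * ∏ j ∈ ({0, 2, 3} : Finset (Fin 4)), A (qd ((![p, q, r, s] : Fin 4 → k) j))
      rw [Finset.prod_insert (by decide), Finset.prod_insert (by decide), Finset.prod_singleton]
      show _ = κ (1 / b ^ 2) * (A (qd p) * (A (qd r) * A (qd s)))
      rw [A_qd, A_qd, A_qd, hxx, map_div₀, map_one, map_pow]
      have := fac_four (κ p) (κ r) (κ s) (κ q) (κ b) RatFunc.X kb0 kb (by linear_combination hκe)
      refine Eq.trans ?_ this
      ring
    · show Φ (xx RatFunc.X (κ p) (κ q) (κ s) (κ c)) - _ =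
        κ (1 / c ^ 2) * ∏ j ∈ ({0, 1, 3} : Finset (Fin 4)), A (qd ((![p, q, r, s] : Fin 4 → k) j))
      rw [Finset.prod_insert (by decide), Finset.prod_insert (by decide), Finset.prod_singleton]
      show _ = κ (1 / c ^ 2) * (A (qd p) * (A (qd q) * A (qd s)))
      rw [A_qd, A_qd, A_qd, hxx, map_div₀, map_one, map_pow]
      have := fac_four (κ p) (κ q) (κ s) (κ r) (κ c) RatFunc.X kc0 kc (by linear_combination hκe)
      refine Eq.trans ?_ this
      ring
    · show Φ (xx RatFunc.X (κ p) (κ q) (κ r) (κ d)) - _ =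
        κ (1 / d ^ 2) * ∏ j ∈ ({0, 1, 2} : Finset (Fin 4)), A (qd ((![p, q, r, s] : Fin 4 → k) j))
      rw [Finset.prod_insert (by decide), Finset.prod_insert (by decide), Finset.prod_singleton]
      show _ = κ (1 / d ^ 2) * (A (qd p) * (A (qd q) * A (qd r)))
      rw [A_qd, A_qd, A_qd, hxx, map_div₀, map_one, map_pow]
      have := fac_four (κ p) (κ q) (κ r) (κ s) (κ d) RatFunc.X kd0 kd (by linear_combination hκe)
      refine Eq.trans ?_ this
      ring
  · decide

end fams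

end Pool.Agent.R427.QC
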