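import Pool.Agent.R427.SV3

/-!
Doubling and degrees: points of infinite order on curves over a rational function field.
-/

set_option autoImplicit false
set_option linter.all false
set_option maxHeartbeats 4000000

open Polynomial WeierstrassCurve WeierstrassCurve.Affine

namespace Pool.Agent.R427.QR

open Pool.Agent.W313.Gr (curve)
open Pool.Agent.R427.SV (dbl_pt neg_y)
open Pool.Agent.TH639.B3 (curve_eq)

section poly

variable {k : Type} [Field k]

theorem nd_add {p q : k[X]} {n : ℕ} (hp : p.natDegree ≤ n) (hq : q.natDegree ≤ n) :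
    (p + q).natDegree ≤ n := (natDegree_add_le p q).trans (max_le hp hq)

theorem nd_sub {p q : k[X]} {n : ℕ} (hp : p.natDegree ≤ n) (hq : q.natDegree ≤ n) :
    (p - q).natDegree ≤ n := (natDegree_sub_le p q).trans (max_le hp hq)

theorem nd_mul {p q : k[X]} {m n N : ℕ} (hp : p.natDegree ≤ m) (hq : q.natDegree ≤ n)
    (h : m + n ≤ N) : (p * q).natDegree ≤ N := natDegree_mul_le.trans (by omega)

theorem nd_pow {p : k[X]} {m N : ℕ} (e : ℕ) (hp : p.natDegree ≤ m) (h : e * m ≤ N) :
    (p ^ e).natDegree ≤ N :=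
  natDegree_pow_le.trans ((Nat.mul_le_mul_left e hp).trans h)

theorem nd_num {p : k[X]} {m : ℕ} (c : ℕ) (hp : p.natDegree ≤ m) :
    (((c : ℕ) : k[X]) * p).natDegree ≤ m := by
  have h1 : ((c : ℕ) : k[X]) = C (c : k) := by simp
  rw [h1]
  exact (natDegree_C_mul_le _ _).trans hp

/-- the numerator of the doubling formula -/
noncomputable def dN (A B u z : k[X]) : k[X] :=
  u ^ 4 - (2 : ℕ) * (A * u ^ 2 * z ^ 2) - (8 : ℕ) * (B * u * z ^ 3) + A ^ 2 * z ^ 4

/-- the value of the cubic -/
noncomputable def dF (A B u z : k[X]) : k[X] := u ^ 3 + A * u * z ^ 2 + B * z ^ 3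

theorem dbl_id (A B u z : k[X]) :
    ((3 : ℕ) * u ^ 2 + (4 : ℕ) * (A * z ^ 2)) * dN A B u z -
      ((3 : ℕ) * u ^ 3 - (5 : ℕ) * (A * u * z ^ 2) - (27 : ℕ) * (B * z ^ 3)) * dF A B u z =
      (4 * A ^ 3 + 27 * B ^ 2) * z ^ 6 := by
  unfold dN dF
  push_cast
  ring

theorem cop_N {A B u z : k[X]} (h : IsCoprime u z) : IsCoprime (dN A B u z) z := by
  have h1 : IsCoprime (u ^ 4) z := h.pow_left
  have e : dN A B u z = u ^ 4 + z * (A ^ 2 * z ^ 3 - (2 : ℕ) * (A * u ^ 2 * z) -
      (8 : ℕ) * (B * u * z ^ 2)) := by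
    unfold dN
    ring
  rw [e]
  exact h1.add_mul_left_left _

/-- **The degrees in the doubling formula.** -/
theorem ht_ineq (h2 : (2 : k) ≠ 0) {A B u z g n d : k[X]} (hA : A.natDegree ≤ 8)
    (hB : B.natDegree ≤ 12) (hδ : (4 * A ^ 3 + 27 * B ^ 2).natDegree = 17) (hz : z ≠ 0)
    (huz : IsCoprime u z) (hn : n * g = dN A B u z) (hd : d * g = 4 * (z * dF A B u z)) :
    4 * max u.natDegree (z.natDegree + 4) ≤ max n.natDegree (d.natDegree + 4) + 24 := by
  set h := max u.natDegree (z.natDegree + 4) with hh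
  have hu : u.natDegree ≤ h := le_max_left _ _
  have hz4 : z.natDegree + 4 ≤ h := le_max_right _ _
  have h4 : (4 : k) ≠ 0 := by
    have : (4 : k) = 2 * 2 := by norm_num
    rw [this]
    exact mul_ne_zero h2 h2
  have h4C : (4 : k[X]) = C 4 := by rw [map_ofNat]
  have hΔ0 : 4 * A ^ 3 + 27 * B ^ 2 ≠ 0 := by
    intro h0
    rw [h0, natDegree_zero] at hδ
    omega
  have hzz : z.natDegree ≤ h - 4 := by omega
  -- `g` divides the discriminant
  have hgz : IsCoprime g z := (cop_N huz).of_isCoprime_of_dvd_left ⟨n, by rw [← hn]; ring⟩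
  have hg4 : g ∣ dF A B u z := by
    have h1 : g ∣ 4 * (z * dF A B u z) := ⟨d, by rw [← hd]; ring⟩
    have h3 : g ∣ z * dF A B u z := by
      rw [h4C] at h1
      have hunit : IsUnit (C (4 : k)) := isUnit_C.2 h4.isUnit
      exact (hunit.dvd_mul_left).1 h1
    exact hgz.dvd_of_dvd_mul_left h3
  have hgΔ : g ∣ 4 * A ^ 3 + 27 * B ^ 2 := by
    have h1 : g ∣ (4 * A ^ 3 + 27 * B ^ 2) * z ^ 6 := by
      rw [← dbl_id]
      exact dvd_sub (Dvd.dvd.mul_left ⟨n, by rw [← hn]; ring⟩ _) (hg4.mul_left _)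
    exact (hgz.pow_right).dvd_of_dvd_mul_right h1
  have hgd : g.natDegree ≤ 17 := by
    rw [← hδ]
    exact natDegree_le_of_dvd hgΔ hΔ0
  have eN : (dN A B u z).natDegree ≤ n.natDegree + g.natDegree := by
    rw [← hn]
    exact natDegree_mul_le
  have eF : (4 * (z * dF A B u z)).natDegree ≤ d.natDegree + g.natDegree := by
    rw [← hd]
    exact natDegree_mul_le
  by_cases hc : u.natDegree ≤ z.natDegree + 4
  · have hhz : h = z.natDegree + 4 := by rw [hh, max_eq_right hc]
    have e1 : ((4 * A ^ 3 + 27 * B ^ 2) * z ^ 6).natDegree = 17 + 6 * z.natDegree := by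
      rw [natDegree_mul hΔ0 (pow_ne_zero 6 hz), hδ, natDegree_pow]
    have b1 : ((3 : ℕ) * u ^ 2 + (4 : ℕ) * (A * z ^ 2)).natDegree ≤ 2 * h := by
      refine nd_add (nd_num 3 (nd_pow 2 hu le_rfl)) (nd_num 4 (nd_mul hA (nd_pow 2 hzz le_rfl) ?_))
      omega
    have b2 : ((3 : ℕ) * u ^ 3 - (5 : ℕ) * (A * u * z ^ 2) - (27 : ℕ) * (B * z ^ 3)).natDegree ≤
        3 * h := by
      refine nd_sub (nd_sub (nd_num 3 (nd_pow 3 hu le_rfl)) (nd_num 5 (nd_mul
        (nd_mul hA hu le_rfl) (nd_pow 2 hzz le_rfl) ?_))) (nd_num 27 (nd_mul hB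
        (nd_pow 3 hzz le_rfl) ?_))
      · omega
      · omega
    have e2 : 17 + 6 * z.natDegree ≤ max (2 * h + (dN A B u z).natDegree)
        (3 * h + (dF A B u z).natDegree) := by
      rw [← e1, ← dbl_id A B u z]
      refine (natDegree_sub_le _ _).trans (max_le_max ?_ ?_)
      · exact natDegree_mul_le.trans (by omega)
      · exact natDegree_mul_le.trans (by omega)
    rcases le_max_iff.1 e2 with h5 | h5
    · have := le_max_left n.natDegree (d.natDegree + 4)
      omega
    · have hF0 : dF A B u z ≠ 0 := by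
        intro h0
        rw [h0, natDegree_zero] at h5
        omega
      have e3 : (4 * (z * dF A B u z)).natDegree = z.natDegree + (dF A B u z).natDegree := by
        rw [h4C, natDegree_C_mul h4, natDegree_mul hz hF0]
      have := le_max_right n.natDegree (d.natDegree + 4)
      omega
  · have hhu : h = u.natDegree := by rw [hh, max_eq_left (by omega)]
    have e1 : u ^ 4 = dN A B u z + ((2 : ℕ) * (A * u ^ 2 * z ^ 2) + (8 : ℕ) * (B * u * z ^ 3) -
        A ^ 2 * z ^ 4) := by
      unfold dN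
      ring
    have hz5 : z.natDegree ≤ h - 5 := by omega
    have b1 : ((2 : ℕ) * (A * u ^ 2 * z ^ 2) + (8 : ℕ) * (B * u * z ^ 3) -
        A ^ 2 * z ^ 4 : k[X]).natDegree ≤ 4 * h - 2 := by
      refine nd_sub (nd_add (nd_num 2 (nd_mul (nd_mul hA (nd_pow 2 hu le_rfl) le_rfl)
        (nd_pow 2 hz5 le_rfl) ?_)) (nd_num 8 (nd_mul (nd_mul hB hu le_rfl)
        (nd_pow 3 hz5 le_rfl) ?_))) (nd_mul (nd_pow 2 hA le_rfl) (nd_pow 4 hz5 le_rfl) ?_)
      · omega
      · omega
      · omega
    have e2 : 4 * u.natDegree ≤ max (dN A B u z).natDegree (4 * h - 2) := by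
      rw [← natDegree_pow, e1]
      exact (natDegree_add_le _ _).trans (max_le_max le_rfl b1)
    have := le_max_left n.natDegree (d.natDegree + 4)
    rcases le_max_iff.1 e2 with h5 | h5
    · omega
    · omega

end poly

section rat

variable {k : Type} [Field k]

/-- the height of an element of `k(t)` -/
noncomputable def ht (x : RatFunc k) : ℕ := max x.num.natDegree (x.denom.natDegree + 4)

/-- the value of the cubic is not zero at elements of large height -/
theorem F_ne {A B : k[X]} (hA : A.natDegree ≤ 8) (hB : B.natDegree ≤ 12) {x : RatFunc k}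
    (hx : 9 ≤ ht x) :
    x ^ 3 + algebraMap k[X] (RatFunc k) A * x + algebraMap k[X] (RatFunc k) B ≠ 0 := by
  intro h0
  set u := x.num with hu
  set z := x.denom with hz
  have hz0 : z ≠ 0 := x.denom_ne_zero
  have hza : algebraMap k[X] (RatFunc k) z ≠ 0 := RatFunc.algebraMap_ne_zero hz0
  have hxe : algebraMap k[X] (RatFunc k) u = x * algebraMap k[X] (RatFunc k) z := by
    have := RatFunc.num_div_denom x
    rw [div_eq_iff hza] at this
    exact this
  have h1 : dF A B u z = 0 := by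
    apply RatFunc.algebraMap_injective k
    unfold dF
    simp only [map_add, map_mul, map_pow, map_zero]
    rw [hxe]
    linear_combination algebraMap k[X] (RatFunc k) z ^ 3 * h0
  have hcop : IsCoprime u z := RatFunc.isCoprime_num_denom x
  have hzu : IsUnit z := by
    have h3 : z ∣ u ^ 3 := ⟨-(A * u * z + B * z ^ 2), by
      unfold dF at h1
      linear_combination h1⟩
    exact (hcop.symm.pow_right).isUnit_of_dvd' dvd_rfl h3
  have hzd : z.natDegree = 0 := natDegree_eq_zero_of_isUnit hzu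
  have hud : 9 ≤ u.natDegree := by
    have h5 : 9 ≤ max u.natDegree (z.natDegree + 4) := hx
    rcases le_max_iff.1 h5 with h6 | h6
    · exact h6
    · omega
  have e1 : u ^ 3 = -(A * u * z ^ 2 + B * z ^ 3) := by
    unfold dF at h1
    linear_combination h1
  have e2 : 3 * u.natDegree ≤ u.natDegree + 12 := by
    rw [← natDegree_pow, e1, natDegree_neg]
    refine nd_add (nd_mul (nd_mul hA le_rfl le_rfl) (nd_pow 2 hzd.le le_rfl) ?_)
      (nd_mul hB (nd_pow 3 hzd.le le_rfl) ?_)
    · omega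
    · omega
  omega

/-- **The height of the double of a point.** -/
theorem ht_dbl (h2 : (2 : k) ≠ 0) {A B : k[X]} (hA : A.natDegree ≤ 8) (hB : B.natDegree ≤ 12)
    (hδ : (4 * A ^ 3 + 27 * B ^ 2).natDegree = 17) {x x' : RatFunc k}
    (h : x' * (4 * (x ^ 3 + algebraMap k[X] (RatFunc k) A * x + algebraMap k[X] (RatFunc k) B)) =
      x ^ 4 - 2 * algebraMap k[X] (RatFunc k) A * x ^ 2 - 8 * algebraMap k[X] (RatFunc k) B * x +
        algebraMap k[X] (RatFunc k) A ^ 2) : 4 * ht x ≤ ht x' + 24 := by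
  obtain ⟨u, hu⟩ : ∃ u, u = x.num := ⟨_, rfl⟩
  obtain ⟨z, hz⟩ : ∃ z, z = x.denom := ⟨_, rfl⟩
  obtain ⟨n, hn⟩ : ∃ n, n = x'.num := ⟨_, rfl⟩
  obtain ⟨d, hd⟩ : ∃ d, d = x'.denom := ⟨_, rfl⟩
  have hz0 : z ≠ 0 := by rw [hz]; exact x.denom_ne_zero
  have hd0 : d ≠ 0 := by rw [hd]; exact x'.denom_ne_zero
  have hza : algebraMap k[X] (RatFunc k) z ≠ 0 := RatFunc.algebraMap_ne_zero hz0
  have hda : algebraMap k[X] (RatFunc k) d ≠ 0 := RatFunc.algebraMap_ne_zero hd0
  have hxe : algebraMap k[X] (RatFunc k) u = x * algebraMap k[X] (RatFunc k) z := by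
    have := RatFunc.num_div_denom x
    rw [← hu, ← hz, div_eq_iff hza] at this
    exact this
  have hxe' : algebraMap k[X] (RatFunc k) n = x' * algebraMap k[X] (RatFunc k) d := by
    have := RatFunc.num_div_denom x'
    rw [← hn, ← hd, div_eq_iff hda] at this
    exact this
  have hcop : IsCoprime u z := by rw [hu, hz]; exact RatFunc.isCoprime_num_denom x
  have hcop' : IsCoprime n d := by rw [hn, hd]; exact RatFunc.isCoprime_num_denom x'
  have key : n * (4 * (z * dF A B u z)) = dN A B u z * d := by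
    apply RatFunc.algebraMap_injective k
    unfold dN dF
    simp only [map_add, map_sub, map_mul, map_pow, map_natCast, map_ofNat]
    rw [hxe, hxe']
    push_cast
    linear_combination (algebraMap k[X] (RatFunc k) z ^ 4 * algebraMap k[X] (RatFunc k) d) * h
  obtain ⟨g, hg⟩ : d ∣ 4 * (z * dF A B u z) := by
    have h3 : d ∣ n * (4 * (z * dF A B u z)) := ⟨dN A B u z, by rw [key]; ring⟩
    exact hcop'.symm.dvd_of_dvd_mul_left h3
  have hg' : n * g = dN A B u z := by
    rw [hg] at key
    have h3 : d * (n * g - dN A B u z) = 0 := by linear_combination key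
    exact sub_eq_zero.1 ((mul_eq_zero.1 h3).resolve_left hd0)
  have h5 := ht_ineq h2 hA hB hδ hz0 hcop hg' hg.symm
  unfold ht
  rw [← hu, ← hz, ← hn, ← hd]
  exact h5

end rat

section pts

variable {k : Type} [Field k]

open Classical in
/-- the height of a point -/
noncomputable def htP {a b : RatFunc k} : (curve a b).toAffine.Point → ℕ
  | Point.zero => 0
  | Point.some x _ _ => ht x

open Classical in
theorem htP_dbl (h2 : (2 : k) ≠ 0) {A B : k[X]} (hA : A.natDegree ≤ 8) (hB : B.natDegree ≤ 12)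
    (hδ : (4 * A ^ 3 + 27 * B ^ 2).natDegree = 17)
    (P : (curve (algebraMap k[X] (RatFunc k) A) (algebraMap k[X] (RatFunc k) B)).toAffine.Point)
    (hP : 9 ≤ htP P) : htP P + 1 ≤ htP (P + P) := by
  have h2' : (2 : RatFunc k) ≠ 0 := by
    have := (_root_.map_ne_zero (algebraMap k (RatFunc k))).2 h2
    rwa [map_ofNat] at this
  rcases P with _ | ⟨x, y, hns⟩
  · have : htP (Point.zero : (curve (algebraMap k[X] (RatFunc k) A)
      (algebraMap k[X] (RatFunc k) B)).toAffine.Point) = 0 := rfl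
    omega
  · have hx : 9 ≤ ht x := hP
    have heq := (curve_eq _ _ x y).1 hns.1
    have hF := F_ne hA hB hx
    have hy : y ≠ 0 := by
      rintro rfl
      apply hF
      rw [← heq]
      ring
    obtain ⟨x3, y3, m, hns3, hm, hx3, hy3, h2P⟩ := dbl_pt h2' hns hy
    have h5 : 4 * ht x ≤ ht x3 + 24 := by
      apply ht_dbl h2 hA hB hδ
      rw [← heq, hx3]
      have e1 : m ^ 2 * (4 * y ^ 2) = (3 * x ^ 2 + algebraMap k[X] (RatFunc k) A) ^ 2 := by
        rw [← hm]; ring
      linear_combination e1 - 8 * x * heq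
    have h6 : htP (Point.some x y hns + Point.some x y hns : (curve (algebraMap k[X] (RatFunc k) A)
        (algebraMap k[X] (RatFunc k) B)).toAffine.Point) = ht x3 := by
      rw [h2P]
      rfl
    rw [h6]
    show ht x + 1 ≤ ht x3
    omega

open Classical in
/-- **A point of large height has infinite order.** -/
theorem infinite_order (h2 : (2 : k) ≠ 0) {A B : k[X]} (hA : A.natDegree ≤ 8)
    (hB : B.natDegree ≤ 12) (hδ : (4 * A ^ 3 + 27 * B ^ 2).natDegree = 17)
    (P : (curve (algebraMap k[X] (RatFunc k) A) (algebraMap k[X] (RatFunc k) B)).toAffine.Point)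
    (hP : 9 ≤ htP P) : ¬ IsOfFinAddOrder P := by
  intro hfin
  have h1 : ∀ j : ℕ, 9 + j ≤ htP ((2 ^ j) • P) := by
    intro j
    induction j with
    | zero => simpa using hP
    | succ j ih =>
      have e : (2 ^ (j + 1)) • P = (2 ^ j) • P + (2 ^ j) • P := by
        rw [pow_succ, mul_two, add_smul]
      rw [e]
      have := htP_dbl h2 hA hB hδ ((2 ^ j) • P) (by omega)
      omega
  have h3 : (Set.range fun j : ℕ => j • P).Finite := finite_multiples.2 hfin
  have h5 : BddAbove (htP '' (Set.range fun j : ℕ => j • P)) := (h3.image _).bddAbove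
  obtain ⟨M, hM⟩ := h5
  have h6 := h1 M
  have h7 := hM ⟨(2 ^ M) • P, ⟨2 ^ M, rfl⟩, rfl⟩
  omega

open Classical in
theorem one_le_rank {K : Type} [Field K] {a b : K} {P : (curve a b).toAffine.Point}
    (h : ¬ IsOfFinAddOrder P) : 1 ≤ Pool.Agent.W313.Gr.rank a b := by
  have hli : LinearIndependent ℤ (fun _ : Fin 1 => P) := by
    rw [Fintype.linearIndependent_iff]
    intro g hg i
    rw [Fin.sum_univ_one] at hg
    have hi : i = 0 := Subsingleton.elim _ _
    rw [hi]
    by_contra h0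
    exact h (isOfFinAddOrder_iff_zsmul_eq_zero.2 ⟨g 0, h0, hg⟩)
  have := hli.cardinal_le_rank
  unfold Pool.Agent.W313.Gr.rank
  simpa using this

end pts

end Pool.Agent.R427.QR
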