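import Pool.Agent.R427.QR1
import Pool.Agent.R427.FT8

/-!
Curves with a point of order seven: the bound for the order of vanishing.
-/

set_option autoImplicit false
set_option linter.all false
set_option maxHeartbeats 4000000

open Polynomial FF
open scoped Classical

namespace Pool.Agent.R427.QR

open Pool.Agent.W343.BSD Pool.Agent.H525R3.FFp
open Pool.Agent.W313.Gr (curve PointsDvd weight weightSum rootSum rank rank_mono)
open Pool.Agent.TH639.B3 (ord_disc_zero_iff den_rm)
open Pool.Agent.TH180.R2 (zero_finite supp_finite)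
open Pool.Agent.TH180.R4 (one_zero' aeval_ne exists_lift)
open Pool.Agent.W309.RF
open Pool.Agent.R427.SV
open Pool.Agent.R427.FT (wSum wSum_irr wSum_comp wSum_pole wSum_mono wSum_mul_le card_sol_node)
open Pool.Agent.R427.AQ (NodeAt semi_pm)
open Pool.Agent.R427.TW (SemiAt semiAt_of)

/-- the polynomial of the three fibres with one component -/
def cub {R : Type} [CommRing R] (d : R) : R := d ^ 3 - 8 * d ^ 2 + 5 * d + 1

theorem map_cub {R S : Type} [CommRing R] [CommRing S] (φ : R →+* S) (b : R) :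
    φ (cub b) = cub (φ b) := by
  unfold cub
  simp only [map_mul, map_add, map_sub, map_pow, map_one, map_ofNat]

theorem aeval_cub {k F : Type} [Field k] [Field F] [Algebra k F] (b : F) :
    aeval b (cub (X : k[X])) = cub b := by
  have := map_cub (aeval b : k[X] →ₐ[k] F).toRingHom X
  simpa using this

theorem disc_cub {R : Type} [CommRing R] (d : R) : 4 * sA d ^ 3 + 27 * sB d ^ 2 =
    -(2 ^ 8 * 3 ^ 12 * (d ^ 7 * (d - 1) ^ 7 * cub d)) := s_disc d

/-- the weight of the fibres with seven components -/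
noncomputable def f1 (n : ℕ) : ℕ := 7 ^ padicValNat 7 n

/-- the weight of the nodes -/
noncomputable def f2 (q n : ℕ) : ℕ := if 7 ∣ q ^ n - 1 then 7 ^ padicValNat 7 n else 0

section sum

variable {k K : Type} [Field k] [Field K] [Algebra k K]

/-- the total weight -/
noncomputable def W (k : Type) {K : Type} [Field k] [Field K] [Algebra k K] (g : K) : ℕ :=
  wSum k f1 g + wSum k f1 g⁻¹ + wSum k f1 (g - 1) + wSum k (f2 (Nat.card k)) (cub g)

/-- the bound for the weights -/
noncomputable def wt (v : Place k K) (g : K) : ℕ :=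
  (if 0 < v.ord g then f1 (S.deg v) else 0) + (if 0 < v.ord g⁻¹ then f1 (S.deg v) else 0) +
    (if 0 < v.ord (g - 1) then f1 (S.deg v) else 0) +
      (if 0 < v.ord (cub g) then f2 (Nat.card k) (S.deg v) else 0)

variable [Finite k] [FF.IsFF k K]

theorem supp4 (g : K) : (Function.support fun v : Place k K => wt v g).Finite := by
  have s1 := supp_finite (k := k) g (fun v => f1 (S.deg v))
  have s2 := supp_finite (k := k) g⁻¹ (fun v => f1 (S.deg v))
  have s3 := supp_finite (k := k) (g - 1) (fun v => f1 (S.deg v))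
  have s4 := supp_finite (k := k) (cub g) (fun v => f2 (Nat.card k) (S.deg v))
  refine (((s1.union s2).union s3).union s4).subset ?_
  intro v hv
  rw [Function.mem_support] at hv
  by_contra h
  rw [Set.mem_union, not_or, Set.mem_union, not_or, Set.mem_union, not_or, Function.notMem_support,
    Function.notMem_support, Function.notMem_support, Function.notMem_support] at h
  apply hv
  unfold wt
  rw [h.1.1.1, h.1.1.2, h.1.2, h.2]
  rfl

theorem wt_sum (g : K) : ∑ᶠ v : Place k K, wt v g = W k g := by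
  have s1 := supp_finite (k := k) g (fun v => f1 (S.deg v))
  have s2 := supp_finite (k := k) g⁻¹ (fun v => f1 (S.deg v))
  have s3 := supp_finite (k := k) (g - 1) (fun v => f1 (S.deg v))
  have s4 := supp_finite (k := k) (cub g) (fun v => f2 (Nat.card k) (S.deg v))
  have s12 : (Function.support fun v : Place k K => (if 0 < v.ord g then f1 (S.deg v) else 0) +
      (if 0 < v.ord g⁻¹ then f1 (S.deg v) else 0)).Finite := by
    refine (s1.union s2).subset ?_
    intro v hv
    rw [Function.mem_support] at hv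
    by_contra h
    rw [Set.mem_union, not_or, Function.notMem_support, Function.notMem_support] at h
    exact hv (by rw [h.1, h.2, add_zero])
  have s123 : (Function.support fun v : Place k K => (if 0 < v.ord g then f1 (S.deg v) else 0) +
      (if 0 < v.ord g⁻¹ then f1 (S.deg v) else 0) +
      (if 0 < v.ord (g - 1) then f1 (S.deg v) else 0)).Finite := by
    refine (s12.union s3).subset ?_
    intro v hv
    rw [Function.mem_support] at hv
    by_contra h
    rw [Set.mem_union, not_or, Function.notMem_support, Function.notMem_support] at h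
    exact hv (by rw [h.1, h.2, add_zero])
  unfold W wSum
  rw [← finsum_add_distrib s1 s2, ← finsum_add_distrib s12 s3, ← finsum_add_distrib s123 s4]
  rfl

/-- the fibres over the zeros of the cubic polynomial -/
theorem node_dvd (h2 : (2 : k) ≠ 0) (h3 : (3 : k) ≠ 0) (h7 : (7 : k) ≠ 0) {g : K}
    (hΔ : 4 * sA g ^ 3 + 27 * sB g ^ 2 ≠ 0) (hc : cub g ≠ 0) (v : Place k K)
    (hbad : v.ord (minDisc v (sA g) (sB g)) ≠ 0) (h0 : v.ord g = 0) (h1 : ¬ 0 < v.ord (g - 1)) :
    0 < v.ord (cub g) ∧
      (7 : ℤ) ∣ (Nat.card (S.Res v) : ℤ) - S.trace v (sA g) (sB g) := by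
  obtain ⟨n2, n3, n7⟩ := nRF7 h2 h3 h7 v
  have hab := ab_of_disc hΔ
  have hg0 : g ≠ 0 := by
    rintro rfl
    apply hΔ
    rw [disc_cub]
    ring
  have hg1 : g - 1 ≠ 0 := by
    intro h
    apply hΔ
    rw [disc_cub, h]
    ring
  have hrz : v.Reg g := Or.inr h0.ge
  have hn : Norm v g 1 g := ⟨one_ne_zero, hrz, by ring, by ring⟩
  have hm := hn.min h2 h3 h7
  have hdz := ord_disc_zero_iff hΔ hm
  rw [hn.eA, hn.eB, (red_sA hn.rz).2, (red_sB hn.rz).2] at hdz
  have htr : S.trace v (sA g) (sB g) = _ := trace_of_min v hab hm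
  rw [hn.eA, hn.eB, (red_sA hn.rz).2, (red_sB hn.rz).2] at htr
  have hbad' : 4 * sA (v.red g) ^ 3 + 27 * sB (v.red g) ^ 2 = 0 := by
    by_contra h
    exact hbad (hdz.2 h)
  have hz0 : v.red g ≠ 0 := v.red_ne_zero hg0 h0
  have hr1 : v.Reg (g - 1) := by
    rw [sub_eq_add_neg]
    exact v.reg_add hrz (v.reg_neg (Or.inr (by rw [v.ord_one])))
  have hz1 : v.red g - 1 ≠ 0 := by
    have e : v.red (g - 1) = v.red g - 1 := by
      have := Pool.Agent.H675R3.ZT.red_aeval v hrz (X - 1 : k[X])
      simpa using this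
    rw [← e]
    intro h
    have := ((v.red_eq_zero_iff hr1).1 h).resolve_left hg1
    exact h1 this
  constructor
  · have hreg : v.Reg (cub g) := by
      rw [← aeval_cub (k := k) g]
      exact Pool.Agent.H675R3.ZT.reg_aeval v hrz _
    have e : v.red (cub g) = 0 := by
      rw [← aeval_cub (k := k) g, Pool.Agent.H675R3.ZT.red_aeval v hrz, aeval_cub]
      rw [disc_cub] at hbad'
      have h6 : (2 ^ 8 * 3 ^ 12 : v.RF) ≠ 0 := mul_ne_zero (pow_ne_zero _ n2) (pow_ne_zero _ n3)
      have h8 := (mul_eq_zero.1 (neg_eq_zero.1 hbad')).resolve_left h6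
      exact (mul_eq_zero.1 h8).resolve_left
        (mul_ne_zero (pow_ne_zero 7 hz0) (pow_ne_zero 7 hz1))
    exact ((v.red_eq_zero_iff hreg).1 e).resolve_left hc
  · have hA0 : sA (v.red g) ≠ 0 := by
      intro h
      rw [h, zero_pow (by norm_num), mul_zero, zero_add] at hbad'
      have h27 : (27 : v.RF) ≠ 0 := by
        have : (27 : v.RF) = 3 ^ 3 := by norm_num
        rw [this]
        exact pow_ne_zero 3 n3
      have h5 := pow_eq_zero_iff (by norm_num) |>.1 ((mul_eq_zero.1 hbad').resolve_left h27)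
      rcases ne_or n2 n3 n7 (v.red g) with h8 | h8
      · exact h8 h
      · exact h8 h5
    have h8 := seven_dvd n2 n3 hz0 hz1
    rw [← card_sol_node n2 n3 hbad' hA0] at h8
    have e : (Nat.card (S.Res v) : ℤ) - S.trace v (sA g) (sB g) =
        ((Nat.card (Sol v.RF (sA (v.red g)) (sB (v.red g))) : ℕ) : ℤ) := by
      have h9 : Nat.card (S.Res v) = Nat.card v.RF := rfl
      rw [h9, htr]
      ring
    rw [e]
    exact_mod_cast h8

theorem weight_le (h2 : (2 : k) ≠ 0) (h3 : (3 : k) ≠ 0) (h7 : (7 : k) ≠ 0) {g : K}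
    (hΔ : 4 * sA g ^ 3 + 27 * sB g ^ 2 ≠ 0) (hc : cub g ≠ 0) (v : Place k K) :
    weight 7 v (sA g) (sB g) ≤ wt v g := by
  have h6 : (6 : k) ≠ 0 := by
    have : (6 : k) = 2 * 3 := by norm_num
    rw [this]
    exact mul_ne_zero h2 h3
  have hcast : (((7 : ℕ) : ℤ) ∣ (Nat.card (S.Res v) : ℤ) - 1) ↔
      7 ∣ Nat.card k ^ S.deg v - 1 := by
    rw [SC.card_Res v]
    have hpos : 1 ≤ Nat.card k ^ S.deg v := Nat.one_le_pow _ _ Nat.card_pos
    rw [← Int.natCast_dvd_natCast, Nat.cast_sub hpos]
    push_cast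
    rfl
  by_cases hbad : v.ord (minDisc v (sA g) (sB g)) = 0
  · unfold weight
    rw [if_pos hbad]
    exact Nat.zero_le _
  have hS : SemiAt v (sA g) (sB g) := by
    obtain ⟨c', hc', h0⟩ := semi7 h2 h3 h7 hΔ v
    exact semiAt_of h3 hΔ hc' h0
  have hpm := semi_pm h6 hΔ hS hbad
  have hnode := node7 h2 h3 h7 hΔ v hbad
  -- the weight is zero or the trace is one
  have hw : weight 7 v (sA g) (sB g) = 0 ∨ (S.trace v (sA g) (sB g) = 1 ∧
      weight 7 v (sA g) (sB g) = f1 (S.deg v)) := by
    unfold weight f1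
    rw [if_neg hbad]
    rcases hpm with ht | ht
    · right
      refine ⟨ht, ?_⟩
      rw [ht]
      split_ifs <;> omega
    · left
      rw [ht]
      have h9 : ((7 : ℕ) : ℤ) ∣ (Nat.card (S.Res v) : ℤ) + 1 := by
        rcases hnode with h | h
        · omega
        · exact_mod_cast h
      rw [if_neg (by omega), if_pos (by simpa using h9)]
      simp
  rcases hw with hw | ⟨ht, hw⟩
  · rw [hw]
    exact Nat.zero_le _
  rw [hw]
  unfold wt
  rw [v.ord_inv]
  rcases lt_trichotomy (v.ord g) 0 with ho | ho | ho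
  · rw [if_pos (show 0 < -v.ord g by omega)]
    omega
  · by_cases h1 : 0 < v.ord (g - 1)
    · rw [if_pos h1]
      omega
    · obtain ⟨h5, h8⟩ := node_dvd h2 h3 h7 hΔ hc v hbad ho h1
      rw [ht] at h8
      rw [if_pos h5]
      unfold f2
      rw [if_pos (hcast.1 (by exact_mod_cast h8))]
      unfold f1
      omega
  · rw [if_pos ho]
    omega

/-- **The bound for the order of vanishing.** -/
theorem bound (h2 : (2 : k) ≠ 0) (h3 : (3 : k) ≠ 0) (h7 : (7 : k) ≠ 0) {g : K}
    (hΔ : 4 * sA g ^ 3 + 27 * sB g ^ 2 ≠ 0) (hc : cub g ≠ 0) {P : Polynomial ℤ}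
    (hP : IsZetaNumRel k K P) (hr : constDeg k K = 1) {m : ℕ}
    (hm : S.VanishesTo k (sA g) (sB g) m) :
    m + (if 7 ∣ Nat.card k - 1 then 4 else 2) ≤ rootSum 7 k P + W k g := by
  have : Fact (Nat.Prime 7) := ⟨by norm_num⟩
  have h7' : ((7 : ℕ) : k) ≠ 0 := by exact_mod_cast h7
  have h1 := TH943.TT.vanish_le (l := 7) h7' hΔ (dvd_good7 h2 h3 h7 hΔ) hP hr hm
  have hq := card_ne_zero_mod (k := k) h7'
  rw [den_rm hq] at h1
  have h4 : (((Nat.card k : ℕ) : ZMod 7) = 1) ↔ 7 ∣ Nat.card k - 1 := by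
    have hpos : 1 ≤ Nat.card k := Nat.card_pos
    rw [← ZMod.natCast_eq_zero_iff, Nat.cast_sub hpos, Nat.cast_one, sub_eq_zero]
  have h6 : weightSum 7 k (sA g) (sB g) ≤ W k g := by
    rw [← wt_sum]
    unfold weightSum
    have hs1 : (Function.support fun v : Place k K => weight 7 v (sA g) (sB g)).Finite := by
      refine (supp4 (k := k) g).subset ?_
      intro v hv
      rw [Function.mem_support] at hv ⊢
      have := weight_le h2 h3 h7 hΔ hc v
      omega
    exact finsum_le_finsum' hs1 (supp4 g) (weight_le h2 h3 h7 hΔ hc)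
  simp only [h4] at h1
  split_ifs at h1 ⊢ <;> omega

/-- the facts for non-constant `g` -/
theorem ne_facts (h2 : (2 : k) ≠ 0) (h3 : (3 : k) ≠ 0) {g : K} (hg : Transcendental k g) :
    g ≠ 0 ∧ g - 1 ≠ 0 ∧ cub g ≠ 0 ∧ 4 * sA g ^ 3 + 27 * sB g ^ 2 ≠ 0 := by
  have h2K : (2 : K) ≠ 0 := by
    have : algebraMap k K 2 ≠ 0 := by simpa using h2
    rwa [map_ofNat] at this
  have h3K : (3 : K) ≠ 0 := by
    have : algebraMap k K 3 ≠ 0 := by simpa using h3
    rwa [map_ofNat] at this
  have g0 : g ≠ 0 := by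
    rintro rfl
    exact hg isAlgebraic_zero
  have g1 : g - 1 ≠ 0 := by
    intro h
    rw [sub_eq_zero] at h
    rw [h] at hg
    exact hg isAlgebraic_one
  have hq : (cub (X : k[X])) ≠ 0 := by
    intro h
    have h5 : (cub (X : k[X])).natDegree = 3 := by
      unfold cub
      compute_degree!
    rw [h, natDegree_zero] at h5
    omega
  have g2 := aeval_ne hg hq
  rw [aeval_cub] at g2
  refine ⟨g0, g1, g2, ?_⟩
  rw [disc_cub]
  exact neg_ne_zero.2 (mul_ne_zero (mul_ne_zero (pow_ne_zero _ h2K) (pow_ne_zero _ h3K))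
    (mul_ne_zero (mul_ne_zero (pow_ne_zero 7 g0) (pow_ne_zero 7 g1)) g2))

/-- the `j`-invariant is not constant -/
theorem noniso (h2 : (2 : k) ≠ 0) (h3 : (3 : k) ≠ 0) {g : K} (hg : Transcendental k g) (c : k) :
    6912 * sA g ^ 3 ≠ algebraMap k K c * (4 * sA g ^ 3 + 27 * sB g ^ 2) := by
  intro h
  set p : k[X] := 6912 * sA (X : k[X]) ^ 3 - C c * (4 * sA (X : k[X]) ^ 3 + 27 * sB (X : k[X]) ^ 2)
    with hp
  have h1 : aeval g p = 0 := by
    rw [hp]
    simp only [map_add, map_mul, map_pow, map_sub, aeval_C, map_ofNat, aeval_sA, aeval_sB]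
    rw [h, sub_self]
  have h0 : p.eval 0 ≠ 0 := by
    have e1 : eval 0 (sA (X : k[X])) = -27 := by
      unfold sA
      simp only [eval_mul, eval_add, eval_sub, eval_pow, eval_X, eval_one, eval_neg, eval_ofNat]
      ring
    have e2 : eval 0 (sB (X : k[X])) = 54 := by
      unfold sB
      simp only [eval_mul, eval_add, eval_sub, eval_pow, eval_X, eval_one, eval_neg, eval_ofNat]
      ring
    have e3 : p.eval 0 = -(2 ^ 8 * 3 ^ 12) := by
      rw [hp]
      simp only [eval_mul, eval_add, eval_sub, eval_pow, eval_C, eval_ofNat, e1, e2]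
      ring
    rw [e3]
    exact neg_ne_zero.2 (Pool.Agent.R427.FT.pow_ne' h2 h3)
  have hne : p ≠ 0 := by
    intro h5
    rw [h5, eval_zero] at h0
    exact h0 rfl
  exact aeval_ne hg hne h1

/-- the rank of the pull-back -/
theorem rank_pull {f : K} (hf : Transcendental k f) :
    rank (sA (RatFunc.X : RatFunc k)) (sB (RatFunc.X : RatFunc k)) ≤ rank (sA f) (sB f) := by
  obtain ⟨Φ, hX⟩ := exists_lift hf
  letI : Algebra (RatFunc k) K := Φ.toRingHom.toAlgebra
  have hΦa : ∀ x : RatFunc k, algebraMap (RatFunc k) K x = Φ x := fun _ => rfl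
  have h := rank_mono (K' := K) (sA (RatFunc.X : RatFunc k)) (sB (RatFunc.X : RatFunc k))
  rw [map_sA, map_sB, hΦa, hX] at h
  exact h

end sum

end Pool.Agent.R427.QR
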