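import Pool.Agent.R427.QR2

/-!
Curves with a point of order seven in characteristic five: points of infinite order.
-/

set_option autoImplicit false
set_option linter.all false
set_option maxHeartbeats 4000000

open Polynomial WeierstrassCurve WeierstrassCurve.Affine

namespace Pool.Agent.R427.QR

open Pool.Agent.W313.Gr (curve rank)
open Pool.Agent.W309.RF
open Pool.Agent.R427.SV
open Pool.Agent.TH639.B3 (curve_eq)
open Pool.Agent.R427.FT (ns_iff)

section forms

variable {R : Type} [CommRing R]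

/-- the numerator of the first coordinate -/
def U1 (t : R) : R :=
  -2 * t ^ 10 - t ^ 9 - 2 * t ^ 8 - 2 * t ^ 7 + 2 * t ^ 5 + t ^ 4 - t ^ 3 - t ^ 2 + t - 2

/-- the root of the denominator -/
def V1 (t : R) : R :=
  t ^ 3 + 2 * t ^ 2 + 1

/-- the numerator of the second coordinate -/
def S1 (t : R) : R :=
  2 * t ^ 13 + 2 * t ^ 12 + t ^ 11 - 2 * t ^ 10 - 2 * t ^ 9 + 2 * t ^ 8 + 2 * t ^ 7 - 2 * t ^ 6
  + 2 * t ^ 5 + t ^ 4 + 2 * t ^ 3 + 2 * t ^ 2

/-- the numerator of the first coordinate -/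
def U2 (t : R) : R :=
  -t ^ 10 - t ^ 8 - t ^ 7 + 2 * t ^ 6 + t ^ 5 + 2 * t ^ 4 - t ^ 3 - t ^ 2 - 1

/-- the root of the denominator -/
def V2 (t : R) : R :=
  t ^ 3 - 2 * t ^ 2 - t + 1

/-- the numerator of the second coordinate -/
def S2 (t : R) : R :=
  2 * t ^ 14 + 2 * t ^ 13 + 2 * t ^ 12 - t ^ 11 + 2 * t ^ 9 + t ^ 8 + t ^ 7 + t ^ 6 + 2 * t ^ 4
  - 2 * t

theorem pt1 (h5 : (5 : R) = 0) (t : R) :
    S1 t ^ 2 = U1 t ^ 3 + sA t * U1 t * V1 t ^ 4 + sB t * V1 t ^ 6 := by
  unfold S1 U1 V1 sA sB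
  linear_combination (
    -20 * t ^ 30 + 105 * t ^ 29 + 762 * t ^ 28 - 1567 * t ^ 27 - 9028 * t ^ 26 + 3439 * t ^ 25
    + 22097 * t ^ 24 - 44495 * t ^ 23 - 68955 * t ^ 22 + 28955 * t ^ 21 - 83848 * t ^ 20 -
    39090 * t ^ 19 + 165411 * t ^ 18 - 136885 * t ^ 17 + 124747 * t ^ 16 + 66012 * t ^ 15 -
    203045 * t ^ 14 + 311243 * t ^ 13 - 368036 * t ^ 12 + 337909 * t ^ 11 - 278005 * t ^ 10 +
    192130 * t ^ 9 - 111256 * t ^ 8 + 54189 * t ^ 7 - 19809 * t ^ 6 + 4381 * t ^ 5 - 364 * t ^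
    4 - 794 * t ^ 3 + 117 * t ^ 2 - 105 * t - 20) * h5

theorem bez1 (h5 : (5 : R) = 0) (t : R) :
    (
    -t ^ 5 - 2 * t ^ 4 - 2 * t ^ 3 + 2 * t) * U1 t +
    (
    -2 * t ^ 9 - 2 * t ^ 8 - 2 * t ^ 7 + 2 * t ^ 6 - 2 * t ^ 5 + 2 * t ^ 4 - t ^ 2 - t + 1) * V1 t ^ 2 = 1 := by
  unfold U1 V1
  linear_combination (
    -t ^ 14 - 2 * t ^ 13 - 2 * t ^ 12 - 2 * t ^ 11 - 2 * t ^ 10 - 3 * t ^ 9 - 2 * t ^ 7 + 2 * t
    ^ 6 + t ^ 2 - t) * h5

theorem pt2 (h5 : (5 : R) = 0) (t : R) :
    2 * S2 t ^ 2 = U2 t ^ 3 + sA t * U2 t * V2 t ^ 4 + sB t * V2 t ^ 6 := by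
  unfold S2 U2 V2 sA sB
  linear_combination (
    -16 * t ^ 30 + 432 * t ^ 29 - 5036 * t ^ 28 + 34040 * t ^ 27 - 145920 * t ^ 26 + 398884 * t
    ^ 25 - 617185 * t ^ 24 + 166384 * t ^ 23 + 1358779 * t ^ 22 - 2563035 * t ^ 21 + 936689 * t
    ^ 20 + 2733459 * t ^ 19 - 3501299 * t ^ 18 - 136214 * t ^ 17 + 2674264 * t ^ 16 - 870359 *
    t ^ 15 - 1049729 * t ^ 14 + 153104 * t ^ 13 + 756734 * t ^ 12 + 12976 * t ^ 11 - 615805 * t
    ^ 10 + 194548 * t ^ 9 + 213531 * t ^ 8 - 142915 * t ^ 7 - 10252 * t ^ 6 + 32014 * t ^ 5 -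
    7161 * t ^ 4 - 1560 * t ^ 3 + 688 * t ^ 2 - 16) * h5

theorem bez2 (h5 : (5 : R) = 0) (t : R) :
    (
    2 * t ^ 5 - t ^ 4 - t ^ 3 - 2 * t ^ 2 - t - 2) * U2 t +
    (
    2 * t ^ 9 + 2 * t ^ 8 - 2 * t ^ 6 - t ^ 5 + 2 * t ^ 3 + 2 * t ^ 2 + 2 * t - 1) * V2 t ^ 2 = 1 := by
  unfold U2 V2
  linear_combination (
    -t ^ 14 - t ^ 13 + 3 * t ^ 12 + 4 * t ^ 11 - t ^ 10 - 2 * t ^ 9 - 2 * t ^ 8 + 2 * t ^ 5 - 2
    * t ^ 3 + t ^ 2 + t) * h5

end forms

section maps

theorem map_U1 {R S : Type} [CommRing R] [CommRing S] (φ : R →+* S) (t : R) :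
    φ (U1 t) = U1 (φ t) := by
  unfold U1
  simp only [map_mul, map_add, map_sub, map_pow, map_neg, map_one, map_ofNat]

theorem map_V1 {R S : Type} [CommRing R] [CommRing S] (φ : R →+* S) (t : R) :
    φ (V1 t) = V1 (φ t) := by
  unfold V1
  simp only [map_mul, map_add, map_sub, map_pow, map_neg, map_one, map_ofNat]

theorem map_S1 {R S : Type} [CommRing R] [CommRing S] (φ : R →+* S) (t : R) :
    φ (S1 t) = S1 (φ t) := by
  unfold S1
  simp only [map_mul, map_add, map_sub, map_pow, map_neg, map_one, map_ofNat]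

theorem map_U2 {R S : Type} [CommRing R] [CommRing S] (φ : R →+* S) (t : R) :
    φ (U2 t) = U2 (φ t) := by
  unfold U2
  simp only [map_mul, map_add, map_sub, map_pow, map_neg, map_one, map_ofNat]

theorem map_V2 {R S : Type} [CommRing R] [CommRing S] (φ : R →+* S) (t : R) :
    φ (V2 t) = V2 (φ t) := by
  unfold V2
  simp only [map_mul, map_add, map_sub, map_pow, map_neg, map_one, map_ofNat]

theorem map_S2 {R S : Type} [CommRing R] [CommRing S] (φ : R →+* S) (t : R) :
    φ (S2 t) = S2 (φ t) := by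
  unfold S2
  simp only [map_mul, map_add, map_sub, map_pow, map_neg, map_one, map_ofNat]

end maps

section gen

variable {k : Type} [Field k]

theorem two_ne (h5 : (5 : k) = 0) : (2 : k) ≠ 0 := by
  intro h
  apply one_ne_zero (α := k)
  linear_combination h5 - 2 * h

theorem three_ne (h5 : (5 : k) = 0) : (3 : k) ≠ 0 := by
  intro h
  apply one_ne_zero (α := k)
  linear_combination 2 * h - h5

theorem seven_ne (h5 : (5 : k) = 0) : (7 : k) ≠ 0 := by
  intro h
  apply one_ne_zero (α := k)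
  linear_combination 3 * h - 4 * h5

theorem ns_of (h2 : (2 : k) ≠ 0) {a b x y : k} (hΔ : 4 * a ^ 3 + 27 * b ^ 2 ≠ 0)
    (h : y ^ 2 = x ^ 3 + a * x + b) : (curve a b).toAffine.Nonsingular x y := by
  rw [ns_iff]
  refine ⟨h, ?_⟩
  by_contra hcon
  push Not at hcon
  obtain ⟨h4, h5⟩ := hcon
  apply hΔ
  have hy : y = 0 := (mul_eq_zero.1 h5).resolve_left h2
  rw [hy] at h
  have hA : a = -3 * x ^ 2 := by linear_combination h4
  have hB : b = 2 * x ^ 3 := by linear_combination -h - x * h4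
  rw [hA, hB]
  ring

theorem nd_U1 (h5 : (5 : k) = 0) : (U1 (X : k[X])).natDegree = 10 := by
  have h2 := two_ne h5
  unfold U1
  compute_degree!

theorem nd_U2 : (U2 (X : k[X])).natDegree = 10 := by
  unfold U2
  compute_degree!

theorem nd_V1 : (V1 (X : k[X])).natDegree = 3 := by
  unfold V1
  compute_degree!

theorem nd_V2 : (V2 (X : k[X])).natDegree = 3 := by
  unfold V2
  compute_degree!

theorem nd_sA : (sA (X : k[X])).natDegree ≤ 8 := by
  unfold sA
  compute_degree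

theorem nd_sB : (sB (X : k[X])).natDegree ≤ 12 := by
  unfold sB
  compute_degree

theorem nd_disc (h2 : (2 : k) ≠ 0) (h3 : (3 : k) ≠ 0) :
    (4 * sA (X : k[X]) ^ 3 + 27 * sB (X : k[X]) ^ 2).natDegree = 17 := by
  rw [disc_cub, natDegree_neg]
  have e : (2 ^ 8 * 3 ^ 12 : k[X]) = C (2 ^ 8 * 3 ^ 12) := by
    rw [map_mul, map_pow, map_pow, map_ofNat, map_ofNat]
  have hc : (cub (X : k[X])).natDegree = 3 := by
    unfold cub
    compute_degree!
  have hc0 : cub (X : k[X]) ≠ 0 := by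
    intro h
    rw [h, natDegree_zero] at hc
    omega
  have h1 : (X - 1 : k[X]).natDegree = 1 := by
    have := natDegree_X_sub_C (1 : k)
    rwa [C_1] at this
  have h10 : (X - 1 : k[X]) ≠ 0 := by
    intro h
    rw [h, natDegree_zero] at h1
    omega
  rw [e, natDegree_C_mul (mul_ne_zero (pow_ne_zero _ h2) (pow_ne_zero _ h3)),
    natDegree_mul (mul_ne_zero (pow_ne_zero _ X_ne_zero) (pow_ne_zero _ h10)) hc0,
    natDegree_mul (pow_ne_zero _ X_ne_zero) (pow_ne_zero _ h10), natDegree_pow, natDegree_pow,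
    natDegree_X, h1, hc]

/-- the height of a reduced fraction -/
theorem ht_ge {x : RatFunc k} {n d : k[X]} (hd : d ≠ 0) (hn : n ≠ 0) (hc : IsCoprime n d)
    (hx : x * algebraMap k[X] (RatFunc k) d = algebraMap k[X] (RatFunc k) n) :
    n.natDegree ≤ ht x := by
  have hza : algebraMap k[X] (RatFunc k) x.denom ≠ 0 := RatFunc.algebraMap_ne_zero x.denom_ne_zero
  have hxe : algebraMap k[X] (RatFunc k) x.num = x * algebraMap k[X] (RatFunc k) x.denom := by
    have := RatFunc.num_div_denom x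
    rw [div_eq_iff hza] at this
    exact this
  have h1 : x.num * d = n * x.denom := by
    apply RatFunc.algebraMap_injective k
    rw [map_mul, map_mul, hxe, ← hx]
    ring
  have h2 : n ∣ x.num * d := ⟨x.denom, h1⟩
  have h3 : n ∣ x.num := hc.dvd_of_dvd_mul_right h2
  have h4 : x.num ≠ 0 := by
    intro h
    rw [h, zero_mul] at h1
    exact mul_ne_zero hn x.denom_ne_zero h1.symm
  exact (natDegree_le_of_dvd h3 h4).trans (le_max_left _ _)

theorem disc_rat (h2 : (2 : k) ≠ 0) (h3 : (3 : k) ≠ 0) :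
    4 * sA (RatFunc.X : RatFunc k) ^ 3 + 27 * sB (RatFunc.X : RatFunc k) ^ 2 ≠ 0 := by
  have h := nd_disc h2 h3
  have e : 4 * sA (RatFunc.X : RatFunc k) ^ 3 + 27 * sB (RatFunc.X : RatFunc k) ^ 2 =
      algebraMap k[X] (RatFunc k) (4 * sA (X : k[X]) ^ 3 + 27 * sB (X : k[X]) ^ 2) := by
    rw [map_add, map_mul, map_mul, map_pow, map_pow, map_sA, map_sB, map_ofNat, map_ofNat,
      RatFunc.algebraMap_X]
  rw [e]
  apply RatFunc.algebraMap_ne_zero
  intro h0
  rw [h0, natDegree_zero] at h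
  omega

theorem V1_ne : V1 (RatFunc.X : RatFunc k) ≠ 0 := by
  have e : V1 (RatFunc.X : RatFunc k) = algebraMap k[X] (RatFunc k) (V1 X) := by
    rw [map_V1, RatFunc.algebraMap_X]
  rw [e]
  apply RatFunc.algebraMap_ne_zero
  intro h0
  have h := nd_V1 (k := k)
  rw [h0, natDegree_zero] at h
  omega

theorem V2_ne : V2 (RatFunc.X : RatFunc k) ≠ 0 := by
  have e : V2 (RatFunc.X : RatFunc k) = algebraMap k[X] (RatFunc k) (V2 X) := by
    rw [map_V2, RatFunc.algebraMap_X]
  rw [e]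
  apply RatFunc.algebraMap_ne_zero
  intro h0
  have h := nd_V2 (k := k)
  rw [h0, natDegree_zero] at h
  omega

theorem five_up {F : Type} [Field F] [Algebra k F] (h5 : (5 : k) = 0) : (5 : F) = 0 := by
  rw [← map_ofNat (algebraMap k F) 5, h5, map_zero]

theorem five_up' {F : Type} [CommRing F] [Algebra k F] (h5 : (5 : k) = 0) : (5 : F) = 0 := by
  rw [← map_ofNat (algebraMap k F) 5, h5, map_zero]

/-- the first point -/
theorem ex_pt1 (h5 : (5 : k) = 0) :
    ∃ (h : (curve (sA (RatFunc.X : RatFunc k)) (sB RatFunc.X)).toAffine.Nonsingular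
      (U1 RatFunc.X / V1 RatFunc.X ^ 2) (S1 RatFunc.X / V1 RatFunc.X ^ 3)),
      9 ≤ ht (U1 (RatFunc.X : RatFunc k) / V1 RatFunc.X ^ 2) := by
  have h2 := two_ne h5
  have h3 := three_ne h5
  have h2' : (2 : RatFunc k) ≠ 0 := two_ne (five_up h5)
  have hV := V1_ne (k := k)
  refine ⟨ns_of h2' (disc_rat h2 h3) ?_, ?_⟩
  · have := pt1 (five_up (F := RatFunc k) h5) RatFunc.X
    field_simp
    linear_combination this
  · have hc : IsCoprime (U1 (X : k[X])) (V1 (X : k[X]) ^ 2) :=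
      ⟨_, _, bez1 (five_up' (F := k[X]) h5) X⟩
    have hn := nd_U1 h5
    have h := ht_ge (x := U1 (RatFunc.X : RatFunc k) / V1 RatFunc.X ^ 2) (n := U1 (X : k[X]))
      (d := V1 (X : k[X]) ^ 2) (by
        apply pow_ne_zero
        intro h0
        have h := nd_V1 (k := k)
        rw [h0, natDegree_zero] at h
        omega) (by
        intro h0
        rw [h0, natDegree_zero] at hn
        omega) hc (by
        rw [map_pow, map_V1, map_U1, RatFunc.algebraMap_X]
        field_simp)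
    omega

/-- the second point -/
theorem ex_pt2 (h5 : (5 : k) = 0) {ρ : k} (hρ : ρ ^ 2 = 2) :
    ∃ (h : (curve (sA (RatFunc.X : RatFunc k)) (sB RatFunc.X)).toAffine.Nonsingular
      (U2 RatFunc.X / V2 RatFunc.X ^ 2)
      (algebraMap k (RatFunc k) ρ * S2 RatFunc.X / V2 RatFunc.X ^ 3)),
      9 ≤ ht (U2 (RatFunc.X : RatFunc k) / V2 RatFunc.X ^ 2) := by
  have h2 := two_ne h5
  have h3 := three_ne h5
  have h2' : (2 : RatFunc k) ≠ 0 := two_ne (five_up h5)
  have hV := V2_ne (k := k)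
  have hr : algebraMap k (RatFunc k) ρ ^ 2 = 2 := by rw [← map_pow, hρ, map_ofNat]
  refine ⟨ns_of h2' (disc_rat h2 h3) ?_, ?_⟩
  · have := pt2 (five_up (F := RatFunc k) h5) RatFunc.X
    field_simp
    linear_combination this + S2 RatFunc.X ^ 2 * hr
  · have hc : IsCoprime (U2 (X : k[X])) (V2 (X : k[X]) ^ 2) :=
      ⟨_, _, bez2 (five_up' (F := k[X]) h5) X⟩
    have hn := nd_U2 (k := k)
    have h := ht_ge (x := U2 (RatFunc.X : RatFunc k) / V2 RatFunc.X ^ 2) (n := U2 (X : k[X]))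
      (d := V2 (X : k[X]) ^ 2) (by
        apply pow_ne_zero
        intro h0
        have h := nd_V2 (k := k)
        rw [h0, natDegree_zero] at h
        omega) (by
        intro h0
        rw [h0, natDegree_zero] at hn
        omega) hc (by
        rw [map_pow, map_V2, map_U2, RatFunc.algebraMap_X]
        field_simp)
    omega

open Classical in
theorem inf_of (h5 : (5 : k) = 0) {x y : RatFunc k}
    (h : (curve (sA (RatFunc.X : RatFunc k)) (sB RatFunc.X)).toAffine.Nonsingular x y)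
    (hx : 9 ≤ ht x) : ¬ IsOfFinAddOrder
      (Point.some x y h : (curve (sA (RatFunc.X : RatFunc k)) (sB RatFunc.X)).toAffine.Point) := by
  have h2 := two_ne h5
  have h3 := three_ne h5
  have ea : sA (RatFunc.X : RatFunc k) = algebraMap k[X] (RatFunc k) (sA X) := by
    rw [map_sA, RatFunc.algebraMap_X]
  have eb : sB (RatFunc.X : RatFunc k) = algebraMap k[X] (RatFunc k) (sB X) := by
    rw [map_sB, RatFunc.algebraMap_X]
  revert h
  rw [ea, eb]
  intro h
  exact infinite_order h2 nd_sA nd_sB (nd_disc h2 h3) (Point.some x y h) hx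

/-- **The rank over the rational function field in characteristic five.** -/
theorem rank_one (h5 : (5 : k) = 0) :
    1 ≤ rank (sA (RatFunc.X : RatFunc k)) (sB (RatFunc.X : RatFunc k)) := by
  obtain ⟨h, hx⟩ := ex_pt1 h5
  exact one_le_rank (inf_of h5 h hx)

end gen

section two

open Classical in
theorem exists_hom {F F' : Type} [Field F] [Field F'] (φ : F →+* F') (a b : F)
    (W' : WeierstrassCurve F') (hW : (curve a b).map φ = W') :
    ∃ f : (curve a b).toAffine.Point →+ W'.toAffine.Point, Function.Injective f ∧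
      ∀ (x y : F) (h : (curve a b).toAffine.Nonsingular x y),
        ∃ h' : W'.toAffine.Nonsingular (φ x) (φ y), f (Point.some x y h) = Point.some _ _ h' := by
  subst hW
  letI : Algebra F F' := φ.toAlgebra
  refine ⟨Point.map (R := F) (S := F) (F := F) (K := F') (W' := (curve a b).toAffine)
    (Algebra.ofId F F'), Point.map_injective (R := F) (S := F) (F := F) (K := F')
    (W' := (curve a b).toAffine) (Algebra.ofId F F'), fun x y h => ⟨_, rfl⟩⟩

variable {k : Type} [Field k]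

theorem exists_frob (h5 : (5 : k) = 0) : ∃ σ : RatFunc k →+* RatFunc k,
    σ RatFunc.X = RatFunc.X ∧ ∀ c : k, σ (algebraMap k (RatFunc k) c) =
      algebraMap k (RatFunc k) (c ^ 5) := by
  have hch : CharP k 5 := by
    obtain ⟨p, hp⟩ := CharP.exists k
    have h1 : p ∣ 5 := (CharP.cast_eq_zero_iff k p 5).1 (by exact_mod_cast h5)
    rcases (Nat.dvd_prime Nat.prime_five).1 h1 with h | h
    · exact absurd h (CharP.char_ne_one k p)
    · rw [← h]
      exact hp
  have : Fact (Nat.Prime 5) := ⟨Nat.prime_five⟩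
  have hj : Function.Injective (Polynomial.mapRingHom (frobenius k 5)) :=
    Polynomial.map_injective _ (frobenius k 5).injective
  refine ⟨IsFractionRing.map (K := RatFunc k) (L := RatFunc k) hj, ?_, ?_⟩
  · rw [← RatFunc.algebraMap_X]
    unfold IsFractionRing.map
    rw [IsLocalization.map_eq]
    simp
  · intro c
    have e : ∀ c : k, algebraMap k (RatFunc k) c = algebraMap k[X] (RatFunc k) (C c) := fun _ => rfl
    rw [e, e]
    unfold IsFractionRing.map
    rw [IsLocalization.map_eq]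
    simp [frobenius_def]

open Classical in
/-- **The rank over the rational function field in characteristic five, if two is a square.** -/
theorem rank_two (h5 : (5 : k) = 0) {ρ : k} (hρ : ρ ^ 2 = 2) :
    2 ≤ rank (sA (RatFunc.X : RatFunc k)) (sB (RatFunc.X : RatFunc k)) := by
  obtain ⟨h1, hx1⟩ := ex_pt1 h5
  obtain ⟨h2, hx2⟩ := ex_pt2 h5 hρ
  have i1 := inf_of h5 h1 hx1
  have i2 := inf_of h5 h2 hx2
  obtain ⟨σ, hX, hC⟩ := exists_frob h5
  have hW : (curve (sA (RatFunc.X : RatFunc k)) (sB RatFunc.X)).map σ =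
      curve (sA (RatFunc.X : RatFunc k)) (sB RatFunc.X) := by
    ext <;> simp [curve, WeierstrassCurve.map, map_sA, map_sB, hX]
  obtain ⟨f, -, hf⟩ := exists_hom σ _ _ _ hW
  obtain ⟨g1, hg1⟩ := hf _ _ h1
  obtain ⟨g2, hg2⟩ := hf _ _ h2
  set P1 : (curve (sA (RatFunc.X : RatFunc k)) (sB RatFunc.X)).toAffine.Point :=
    Point.some _ _ h1 with hP1
  set P2 : (curve (sA (RatFunc.X : RatFunc k)) (sB RatFunc.X)).toAffine.Point :=
    Point.some _ _ h2 with hP2
  have e1 : f P1 = P1 := by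
    rw [hg1, hP1]
    congr 1
    · rw [map_div₀, map_pow, map_U1, map_V1, hX]
    · rw [map_div₀, map_pow, map_S1, map_V1, hX]
  have hρ5 : ρ ^ 5 = -ρ := by
    linear_combination (ρ ^ 3 + 2 * ρ) * hρ + ρ * h5
  have e2 : f P2 = -P2 := by
    rw [hg2, hP2, Point.neg_some]
    congr 1
    · rw [map_div₀, map_pow, map_U2, map_V2, hX]
    · rw [map_div₀, map_mul, map_pow, map_S2, map_V2, hX, hC, hρ5, map_neg, neg_y]
      ring
  have hli : LinearIndependent ℤ ![P1, P2] := by
    rw [LinearIndependent.pair_iff]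
    intro s t hst
    have h4 : s • P1 - t • P2 = 0 := by
      have := congrArg f hst
      rw [map_add, map_zsmul, map_zsmul, e1, e2, map_zero, smul_neg] at this
      rw [sub_eq_add_neg]
      exact this
    have h5' : (2 * s) • P1 = 0 := by
      have e : (2 * s) • P1 = (s • P1 + t • P2) + (s • P1 - t • P2) := by
        rw [two_mul, add_zsmul]
        abel
      rw [e, hst, h4, add_zero]
    have h6 : (2 * t) • P2 = 0 := by
      have e : (2 * t) • P2 = (s • P1 + t • P2) - (s • P1 - t • P2) := by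
        rw [two_mul, add_zsmul]
        abel
      rw [e, hst, h4, sub_zero]
    constructor
    · by_contra hs
      exact i1 (isOfFinAddOrder_iff_zsmul_eq_zero.2 ⟨2 * s, by omega, h5'⟩)
    · by_contra ht
      exact i2 (isOfFinAddOrder_iff_zsmul_eq_zero.2 ⟨2 * t, by omega, h6⟩)
  have := hli.cardinal_le_rank
  unfold Pool.Agent.W313.Gr.rank
  simpa using this

end two

end Pool.Agent.R427.QR
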