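import Pool.Agent.R427.QR3

/-!
Curves with a point of order seven in characteristic five: the families.
-/

set_option autoImplicit false
set_option linter.all false
set_option maxHeartbeats 4000000

open Polynomial FF WeierstrassCurve WeierstrassCurve.Affine
open scoped Classical

namespace Pool.Agent.R427.QR

open Pool.Agent.W343.BSD Pool.Agent.H525R3.FFp
open Pool.Agent.W313.Gr (curve rank)
open Pool.Agent.W309.RF
open Pool.Agent.R427.SV
open Pool.Agent.R427.FT (wSum wSum_irr wSum_comp wSum_pole wSum_mono wSum_mul_le ns_iff dbl)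

section tors

variable {F : Type} [Field F]

/-- the point of order seven -/
theorem seven_tors (h2 : (2 : F) ≠ 0) (h3 : (3 : F) ≠ 0) {d : F} (hd : d ≠ 0) (hd1 : d - 1 ≠ 0) :
    ∃ P : (curve (sA d) (sB d)).toAffine.Point, P ≠ 0 ∧ (7 : ℕ) • P = 0 := by
  have h108 : (108 : F) ≠ 0 := by
    have : (108 : F) = 2 ^ 2 * 3 ^ 3 := by norm_num
    rw [this]
    exact mul_ne_zero (pow_ne_zero _ h2) (pow_ne_zero _ h3)
  have hyP : 108 * (d ^ 2 - d ^ 3) ≠ 0 := by
    have e : 108 * (d ^ 2 - d ^ 3) = -(108 * (d ^ 2 * (d - 1))) := by ring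
    rw [e]
    exact neg_ne_zero.2 (mul_ne_zero h108 (mul_ne_zero (pow_ne_zero 2 hd) hd1))
  have hyQ : 108 * (d ^ 3 * (d - 1) ^ 2) ≠ 0 :=
    mul_ne_zero h108 (mul_ne_zero (pow_ne_zero 3 hd) (pow_ne_zero 2 hd1))
  have hyR : 108 * (d * (d - 1) ^ 3) ≠ 0 :=
    mul_ne_zero h108 (mul_ne_zero hd (pow_ne_zero 3 hd1))
  have hP : (curve (sA d) (sB d)).toAffine.Nonsingular (3 * b2 d) (108 * (d ^ 2 - d ^ 3)) := by
    rw [ns_iff]
    refine ⟨?_, Or.inr (mul_ne_zero h2 hyP)⟩
    unfold sA sB b2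
    ring
  have hQ : (curve (sA d) (sB d)).toAffine.Nonsingular (36 * (d ^ 3 - d ^ 2) + 3 * b2 d)
      (108 * (d ^ 3 * (d - 1) ^ 2)) := by
    rw [ns_iff]
    refine ⟨?_, Or.inr (mul_ne_zero h2 hyQ)⟩
    unfold sA sB b2
    ring
  have hR : (curve (sA d) (sB d)).toAffine.Nonsingular (36 * (d ^ 2 - d) + 3 * b2 d)
      (108 * (d * (d - 1) ^ 3)) := by
    rw [ns_iff]
    refine ⟨?_, Or.inr (mul_ne_zero h2 hyR)⟩
    unfold sA sB b2
    ring
  set P : (curve (sA d) (sB d)).toAffine.Point := Point.some _ _ hP with hPd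
  set Q : (curve (sA d) (sB d)).toAffine.Point := Point.some _ _ hQ with hQd
  set R : (curve (sA d) (sB d)).toAffine.Point := Point.some _ _ hR with hRd
  have h2P : P + P = Q := by
    have := dbl h2 hP hyP (l := 3 * (1 + d - d ^ 2)) (by unfold sA b2; ring)
      (by unfold b2; ring) (by unfold b2; ring) hQ
    convert this
  have h4P : Q + Q = R := by
    have := dbl h2 hQ hyQ (l := 6 * (d ^ 2 - 1) + 3 * (1 + d - d ^ 2)) (by unfold sA b2; ring)
      (by unfold b2; ring) (by unfold b2; ring) hR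
    convert this
  have h8P : R + R = P := by
    have := dbl h2 hR hyR (l := 6 * (d * (d - 2)) + 3 * (1 + d - d ^ 2)) (by unfold sA b2; ring)
      (by unfold b2; ring) (by unfold b2; ring) hP
    convert this
  have h7P : (7 : ℕ) • P = 0 := by
    have e : (8 : ℕ) • P = ((P + P) + (P + P)) + ((P + P) + (P + P)) := by
      rw [show (8 : ℕ) = 1 + 1 + 1 + 1 + 1 + 1 + 1 + 1 from rfl]
      simp only [add_smul, one_smul]
      abel
    rw [h2P, h4P, h8P, show (8 : ℕ) = 7 + 1 from rfl, add_smul, one_smul] at e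
    exact left_eq_add.1 (by rw [add_comm]; exact e.symm)
  refine ⟨P, ?_, h7P⟩
  rw [hPd]
  exact Point.some_ne_zero _

end tors

section cubic

variable {k : Type} [Field k]

/-- the irreducible factors of the cubic polynomial do not have degree two -/
theorem cub_deg (h7 : (7 : k) ≠ 0) {π : k[X]} (hπ : Irreducible π) (hd : π ∣ cub (X : k[X])) :
    π.natDegree = 1 ∨ π.natDegree = 3 := by
  have hc : (cub (X : k[X])).natDegree = 3 := by
    unfold cub
    compute_degree!
  have hc0 : cub (X : k[X]) ≠ 0 := by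
    intro h
    rw [h, natDegree_zero] at hc
    omega
  have hpos := hπ.natDegree_pos
  have hle : π.natDegree ≤ 3 := by
    rw [← hc]
    exact natDegree_le_of_dvd hd hc0
  by_contra hcon
  have h2 : π.natDegree = 2 := by omega
  obtain ⟨t, ht⟩ := hd
  have ht0 : t ≠ 0 := by
    rintro rfl
    rw [mul_zero] at ht
    exact hc0 ht
  have ht1 : t.natDegree = 1 := by
    have := natDegree_mul hπ.ne_zero ht0
    rw [← ht, hc, h2] at this
    omega
  have hte := eq_X_add_C_of_natDegree_le_one ht1.le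
  have ha : t.coeff 1 ≠ 0 := by
    have : t.leadingCoeff ≠ 0 := leadingCoeff_ne_zero.2 ht0
    rwa [leadingCoeff, ht1] at this
  have hval : ∀ r : k, cub r = π.eval r * t.eval r := by
    intro r
    rw [← eval_mul, ← ht]
    unfold cub
    simp
  have htv : ∀ r : k, t.eval r = t.coeff 1 * r + t.coeff 0 := by
    intro r
    conv_lhs => rw [hte]
    simp
  obtain ⟨r, hr⟩ : ∃ r : k, t.eval r = 0 := ⟨-t.coeff 0 / t.coeff 1, by
    rw [htv]
    field_simp
    ring⟩
  have hcr : cub r = 0 := by rw [hval, hr, mul_zero]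
  have h1r : 1 - r ≠ 0 := by
    intro h
    have hr1 : r = 1 := (sub_eq_zero.1 h).symm
    rw [hr1] at hcr
    unfold cub at hcr
    norm_num at hcr
  have hs : cub (1 / (1 - r)) = 0 := by
    have e : (1 - r) ^ 3 * cub (1 / (1 - r)) = -cub r := by
      unfold cub
      field_simp
      ring
    rw [hcr, neg_zero] at e
    exact (mul_eq_zero.1 e).resolve_left (pow_ne_zero 3 h1r)
  have hne : (1 / (1 - r)) ≠ r := by
    intro h
    rw [div_eq_iff h1r] at h
    have h3 : r ^ 2 - r + 1 = 0 := by linear_combination h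
    have h49 : (49 : k) = 0 := by
      unfold cub at hcr
      linear_combination (-3 * r ^ 2 + 16 * r + 44) * h3 + (3 * r + 5) * hcr
    have : (49 : k) = 7 ^ 2 := by norm_num
    rw [this] at h49
    exact pow_ne_zero 2 h7 h49
  rw [hval] at hs
  rcases mul_eq_zero.1 hs with h | h
  · have h3 : (X - C (1 / (1 - r))) ∣ π := dvd_iff_isRoot.2 h
    obtain ⟨u, hu⟩ := h3
    rcases hπ.isUnit_or_isUnit hu with h4 | h4
    · exact (not_isUnit_X_sub_C _) h4
    · have := natDegree_eq_zero_of_isUnit h4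
      have h5 : π.natDegree = 1 := by
        rw [hu, natDegree_mul (X_sub_C_ne_zero _) h4.ne_zero, natDegree_X_sub_C, this]
      omega
  · have e : t.coeff 1 * (1 / (1 - r) - r) = 0 := by
      have h5 := htv (1 / (1 - r))
      rw [h] at h5
      have h6 := htv r
      rw [hr] at h6
      linear_combination h6 - h5
    exact hne (sub_eq_zero.1 ((mul_eq_zero.1 e).resolve_left ha))

end cubic

section card

variable {k : Type} [Field k] [Finite k]

/-- the number of elements and the square root of two -/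
theorem card_mod (h5 : (5 : k) = 0) :
    (¬ IsSquare (2 : k) → Nat.card k ^ 3 % 7 = 6) ∧ (IsSquare (2 : k) → Nat.card k ^ 3 % 7 = 1) := by
  have hch : CharP k 5 := by
    obtain ⟨p, hp⟩ := CharP.exists k
    have h1 : p ∣ 5 := (CharP.cast_eq_zero_iff k p 5).1 (by exact_mod_cast h5)
    rcases (Nat.dvd_prime Nat.prime_five).1 h1 with h | h
    · exact absurd h (CharP.char_ne_one k p)
    · rw [← h]
      exact hp
  let _ : Fintype k := Fintype.ofFinite k
  obtain ⟨f, -, hf⟩ := FiniteField.card k 5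
  have hr : ringChar k ≠ 2 := by
    intro h
    have h1 := ringChar.spec k 5
    rw [h] at h1
    have := h1.1 (by exact_mod_cast h5)
    omega
  have h2 := two_ne h5
  have hsq := FiniteField.isSquare_iff hr h2
  have h4 : (2 : k) ^ 4 = 1 := by linear_combination 3 * h5
  have h22 : (2 : k) ^ 2 = -1 := by linear_combination h5
  have hcard : Nat.card k = 5 ^ (f : ℕ) := by rw [Nat.card_eq_fintype_card, hf]
  have h125 : Nat.card k ^ 3 = 125 ^ (f : ℕ) := by
    rw [hcard, ← pow_mul, mul_comm, pow_mul]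
    norm_num
  have hm8 : ∀ n : ℕ, 5 ^ (2 * n) % 8 = 1 ∧ 5 ^ (2 * n + 1) % 8 = 5 := by
    intro n
    have h1 : 5 ^ (2 * n) % 8 = 1 := by
      rw [pow_mul, Nat.pow_mod]
      norm_num
    refine ⟨h1, ?_⟩
    rw [pow_succ, Nat.mul_mod, h1]
  have hm7 : ∀ n : ℕ, 125 ^ (2 * n) % 7 = 1 ∧ 125 ^ (2 * n + 1) % 7 = 6 := by
    intro n
    have h1 : 125 ^ (2 * n) % 7 = 1 := by
      rw [pow_mul, Nat.pow_mod]
      norm_num
    refine ⟨h1, ?_⟩
    rw [pow_succ, Nat.mul_mod, h1]
  rcases Nat.even_or_odd' (f : ℕ) with ⟨n, hn | hn⟩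
  · have hS : IsSquare (2 : k) := by
      rw [hsq, hf, hn]
      have h8 := (hm8 n).1
      obtain ⟨e, he⟩ : ∃ e, 5 ^ (2 * n) / 2 = 4 * e := ⟨5 ^ (2 * n) / 8, by omega⟩
      rw [he, pow_mul, h4, one_pow]
    refine ⟨fun h => absurd hS h, fun _ => ?_⟩
    rw [h125, hn]
    exact (hm7 n).1
  · have hS : ¬ IsSquare (2 : k) := by
      rw [hsq, hf, hn]
      have h8 := (hm8 n).2
      obtain ⟨e, he⟩ : ∃ e, 5 ^ (2 * n + 1) / 2 = 4 * e + 2 := ⟨5 ^ (2 * n + 1) / 8, by omega⟩
      rw [he, pow_add, pow_mul, h4, one_pow, one_mul, h22]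
      intro h
      apply h2
      linear_combination -h
    refine ⟨fun _ => ?_, fun h => absurd h hS⟩
    rw [h125, hn]
    exact (hm7 n).2

theorem f1_one : f1 1 = 1 := by
  unfold f1
  rw [padicValNat_one_right, pow_zero]

theorem f1_of {n : ℕ} (h : ¬ 7 ∣ n) : f1 n = 1 := by
  unfold f1
  rw [padicValNat.eq_zero_of_not_dvd h, pow_zero]

theorem f2_le_one (q : ℕ) {n : ℕ} (h : ¬ 7 ∣ n) : f2 q n ≤ 1 := by
  unfold f2
  split_ifs
  · rw [padicValNat.eq_zero_of_not_dvd h, pow_zero]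
  · omega

/-- no nodes for an odd degree -/
theorem f2_odd {q n : ℕ} (hq : q ^ 3 % 7 = 6) (hn : Odd n) : f2 q n = 0 := by
  unfold f2
  rw [if_neg]
  intro h
  obtain ⟨m, rfl⟩ := hn
  have h1 : (q ^ (2 * m + 1)) ^ 3 % 7 = 6 := by
    have e : (q ^ (2 * m + 1)) ^ 3 = (q ^ 3) ^ (2 * m + 1) := by
      rw [← pow_mul, ← pow_mul, mul_comm]
    rw [e, Nat.pow_mod, hq, pow_succ, pow_mul, Nat.mul_mod, Nat.pow_mod]
    norm_num
  have h2 : q ^ (2 * m + 1) % 7 = 1 ∨ q ^ (2 * m + 1) = 0 := by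
    rcases Nat.eq_zero_or_pos (q ^ (2 * m + 1)) with h3 | h3
    · exact Or.inr h3
    · left
      omega
  rcases h2 with h2 | h2
  · rw [Nat.pow_mod, h2] at h1
    norm_num at h1
  · rw [h2] at h1
    norm_num at h1

/-- the degrees of the nodes if the number of elements has order three modulo seven -/
theorem f2_three {q n : ℕ} (hq : q ^ 3 % 7 = 1) (hq1 : ¬ 7 ∣ q - 1) (h : f2 q n ≠ 0) : 3 ∣ n := by
  by_contra h3
  apply h
  unfold f2
  rw [if_neg]
  intro h7
  have hq0 : 0 < q := by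
    rcases Nat.eq_zero_or_pos q with h4 | h4
    · rw [h4] at hq
      norm_num at hq
    · exact h4
  have hq7 : q % 7 = 2 ∨ q % 7 = 4 := by
    have h4 : q % 7 < 7 := Nat.mod_lt _ (by norm_num)
    have h5 : (q % 7) ^ 3 % 7 = 1 := by rw [← Nat.pow_mod]; exact hq
    have h6 : q % 7 ≠ 1 := by omega
    interval_cases (q % 7) <;> simp_all
  have hpos : 0 < q ^ n := pow_pos hq0 n
  have h1 : q ^ n % 7 = 1 := by omega
  obtain ⟨m, hm⟩ : ∃ m, n = 3 * m + n % 3 := ⟨n / 3, by omega⟩
  have h2 : q ^ n % 7 = q ^ (n % 3) % 7 := by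
    conv_lhs => rw [hm, pow_add, pow_mul, Nat.mul_mod, Nat.pow_mod, hq, one_pow]
    norm_num
  have h4 : n % 3 = 1 ∨ n % 3 = 2 := by omega
  rw [h2] at h1
  rcases h4 with h4 | h4 <;> rw [h4] at h1 <;> rcases hq7 with h5 | h5 <;>
    rw [Nat.pow_mod, h5] at h1 <;> norm_num at h1

end card

section fam

variable {k : Type} [Field k] [Finite k]

/-- the rank of the family -/
noncomputable def rr (k : Type) [Field k] : ℕ := if IsSquare (2 : k) then 2 else 1

theorem A_cub (m : k[X]) : A ((cub (X : k[X])).comp m) = cub (A m) := by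
  rw [← Pool.Agent.R427.FT.aeval_A, aeval_cub]

theorem A_sub_one (m : k[X]) : A ((X - 1 : k[X]).comp m) = A m - 1 := by
  rw [← Pool.Agent.R427.FT.aeval_A]
  simp

theorem W_le (h5 : (5 : k) = 0) {c : k} (hc : c ≠ 0) {n : ℕ} (hn : Odd n) (hn3 : ¬ 3 ∣ n)
    (hn7 : ¬ 7 ∣ n) (hirr : Irreducible ((X - 1 : k[X]).comp (C c * X ^ n)))
    (hnd : ∀ π : k[X], Irreducible π → π ∣ cub (X : k[X]) → Irreducible (π.comp (C c * X ^ n))) :
    W k (A (C c * X ^ n)) ≤ rr k + (if 7 ∣ Nat.card k - 1 then 4 else 2) := by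
  have h7 := seven_ne h5
  obtain ⟨q1, q2⟩ := card_mod h5
  have hmd : (C c * X ^ n : k[X]).natDegree = n := natDegree_C_mul_X_pow _ _ hc
  have hmpos : 0 < (C c * X ^ n : k[X]).natDegree := by rw [hmd]; exact hn.pos
  have hcd : (cub (X : k[X])).natDegree = 3 := by
    unfold cub
    compute_degree!
  have hc0 : cub (X : k[X]) ≠ 0 := by
    intro h
    rw [h, natDegree_zero] at hcd
    omega
  have hd1 : (X - 1 : k[X]).natDegree = 1 := by
    have := natDegree_X_sub_C (1 : k)
    rwa [C_1] at this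
  have w1 := wSum_mono (k := k) f1 hc n
  have w2 := wSum_pole (k := k) f1 (C c * X ^ n)
  have w3 := wSum_irr f1 hirr
  rw [A_sub_one, natDegree_comp, hmd, hd1, one_mul, f1_of hn7] at w3
  rw [f1_one] at w1 w2
  have w4 : ∀ N : ℕ, (∀ π : k[X], Irreducible π → π ∣ cub (X : k[X]) →
      N * f2 (Nat.card k) (π.natDegree * n) ≤ π.natDegree) →
      N * wSum k (f2 (Nat.card k)) (cub (A (C c * X ^ n))) ≤ 3 := by
    intro N hN
    have h := wSum_comp (f2 (Nat.card k)) hmpos N (cub (X : k[X])) hc0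
      (fun π hπ hdv => ⟨hnd π hπ hdv, by rw [hmd]; exact hN π hπ hdv⟩)
    rwa [hcd, A_cub] at h
  have c7 : ∀ d : ℕ, d = 1 ∨ d = 3 → ¬ 7 ∣ d * n := by
    intro d hd h
    rcases (Nat.Prime.dvd_mul (by norm_num)).1 h with h' | h'
    · rcases hd with rfl | rfl <;> omega
    · exact hn7 h'
  unfold W rr
  by_cases hsq : IsSquare (2 : k)
  · rw [if_pos hsq]
    by_cases hq1 : 7 ∣ Nat.card k - 1
    · rw [if_pos hq1]
      have := w4 1 (fun π hπ hdv => by
        have h := cub_deg h7 hπ hdv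
        have h' := f2_le_one (Nat.card k) (c7 _ h)
        omega)
      omega
    · rw [if_neg hq1]
      have := w4 3 (fun π hπ hdv => by
        have h := cub_deg h7 hπ hdv
        have h' := f2_le_one (Nat.card k) (c7 _ h)
        by_cases h0 : f2 (Nat.card k) (π.natDegree * n) = 0
        · omega
        · have h3 := f2_three (q2 hsq) hq1 h0
          rcases h with h | h
          · rw [h, one_mul] at h3
            exact absurd h3 hn3
          · omega)
      omega
  · rw [if_neg hsq]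
    have := w4 4 (fun π hπ hdv => by
      have h := cub_deg h7 hπ hdv
      have hodd : Odd (π.natDegree * n) := by
        refine Odd.mul ?_ hn
        rcases h with h | h <;> rw [h] <;> decide
      rw [f2_odd (q1 hsq) hodd]
      omega)
    split_ifs <;> omega

theorem W_X (h5 : (5 : k) = 0) :
    W k (RatFunc.X : RatFunc k) ≤ rr k + (if 7 ∣ Nat.card k - 1 then 4 else 2) := by
  have e : (C (1 : k) * X ^ 1 : k[X]) = X := by rw [C_1, one_mul, pow_one]
  have hi : Irreducible (X - 1 : k[X]) := by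
    have := irreducible_X_sub_C (1 : k)
    rwa [C_1] at this
  have h := W_le h5 (c := 1) one_ne_zero (n := 1) odd_one (by norm_num) (by norm_num)
    (by rw [e, comp_X]; exact hi) (fun π hπ _ => by rw [e, comp_X]; exact hπ)
  rw [e] at h
  rw [← RatFunc.algebraMap_X]
  exact h

theorem exists_W (h5 : (5 : k) = 0) {l : ℕ} (hl : l.Prime) (hl11 : 11 ≤ l)
    (hd : l ∣ Nat.card k - 1) : ∃ c : k, c ≠ 0 ∧ ∀ j : ℕ,
      W k (A (C c * X ^ l ^ j)) ≤ rr k + (if 7 ∣ Nat.card k - 1 then 4 else 2) := by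
  have hcd : (cub (X : k[X])).natDegree = 3 := by
    unfold cub
    compute_degree!
  have hi : Irreducible (X - 1 : k[X]) := by
    have := irreducible_X_sub_C (1 : k)
    rwa [C_1] at this
  have hd1 : (X - 1 : k[X]).natDegree = 1 := by
    have := natDegree_X_sub_C (1 : k)
    rwa [C_1] at this
  have hdeg : ((X - 1 : k[X]) * cub X).natDegree ≤ 4 := by
    refine natDegree_mul_le.trans ?_
    rw [hd1, hcd]
  have h0 : ((X - 1 : k[X]) * cub X).coeff 0 ≠ 0 := by
    have e2 : (cub (X : k[X])).eval 0 = 1 := by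
      unfold cub
      simp
    rw [coeff_zero_eq_eval_zero, eval_mul, e2, eval_sub, eval_X, eval_one]
    norm_num
  obtain ⟨c, hc, hcirr⟩ := TH180.R4.exists_c h0 hl (by omega) (by omega) hd
  refine ⟨c, hc, fun j => ?_⟩
  have hne : ∀ p : ℕ, p.Prime → p < 11 → ¬ p ∣ l ^ j := by
    intro p hp hp11 h
    have h6 := hp.dvd_of_dvd_pow h
    have := (Nat.prime_dvd_prime_iff_eq hp hl).1 h6
    omega
  apply W_le h5 hc
  · exact Odd.pow (hl.odd_of_ne_two (by omega))
  · exact hne 3 (by norm_num) (by norm_num)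
  · exact hne 7 (by norm_num) (by norm_num)
  · exact hcirr j _ hi (dvd_mul_right _ _)
  · exact fun π hπ hdv => hcirr j π hπ (hdv.mul_left _)

/-- the rank over the rational function field -/
theorem rank_rr (h5 : (5 : k) = 0) :
    (rr k : Cardinal) ≤ rank (sA (RatFunc.X : RatFunc k)) (sB (RatFunc.X : RatFunc k)) := by
  unfold rr
  split_ifs with h
  · obtain ⟨ρ, hρ⟩ := h
    exact_mod_cast rank_two h5 (ρ := ρ) (by rw [hρ, sq])
  · exact_mod_cast rank_one h5

end fam

end Pool.Agent.R427.QR
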