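import Pool.Agent.TH958.T7.Fin

/-!
Points over small constant fields: descent along the constant field extension given by roots of
unity.
-/

set_option autoImplicit false
set_option linter.all false
set_option maxHeartbeats 4000000

open WeierstrassCurve WeierstrassCurve.Affine Polynomial FF
open scoped Classical IntermediateField

namespace Pool.Agent.R427.SC

open Pool.Agent.W343.BSD Pool.Agent.W309.RK
open Pool.Agent.W313.Gr (curve)
open Pool.Agent.TH958.T3 (TD IsMul val val_zero val_ne)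
open Pool.Agent.TH958.T6
open Pool.Agent.TH958.T7 (Lm Lm_add lmHom ext3 ext3_mul isMul_pow ext3_alg val_alg points)
open Pool.Agent.TH115.GD (Pt act incl rs act_some fixed_point act_act rs_mul)

section alg

variable {k K L : Type} [Field k] [Field K] [Field L] [Algebra k K] [Algebra K L] [Algebra k L]
  [IsScalarTower k K L]

/-- Minimal polynomials do not change under extension of the base field in which the base field
is algebraically closed. -/
theorem minpoly_map (hk : ∀ x : K, IsAlgebraic k x → x ∈ (algebraMap k K).range) {θ : L}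
    (hθ : IsIntegral k θ) : minpoly K θ = (minpoly k θ).map (algebraMap k K) := by
  have hE : IsIntegral K θ := hθ.tower_top
  set h := minpoly K θ with hh
  have hdvd : h ∣ (minpoly k θ).map (algebraMap k K) := by
    apply minpoly.dvd
    rw [aeval_map_algebraMap]
    exact minpoly.aeval k θ
  have hm : h.Monic := minpoly.monic hE
  have hcoef : ∀ i, h.coeff i ∈ (algebraMap k K).range := fun i =>
    hk _ (Polynomial.isIntegral_coeff_of_dvd _ _ (minpoly.monic hθ) hm hdvd i).isAlgebraic
  obtain ⟨h0, hh0, hd0, hm0⟩ := lifts_and_natDegree_eq_and_monic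
    ((lifts_iff_coeff_lifts h).2 fun i => by
      obtain ⟨y, hy⟩ := hcoef i
      exact ⟨y, hy⟩) hm
  have h1 : aeval θ h0 = 0 := by
    rw [← aeval_map_algebraMap K θ h0, hh0]
    exact minpoly.aeval K θ
  have h2 : minpoly k θ ∣ h0 := minpoly.dvd k θ h1
  have h3 : (minpoly k θ).map (algebraMap k K) ∣ h := by
    rw [← hh0]
    exact Polynomial.map_dvd _ h2
  exact eq_of_monic_of_associated hm ((minpoly.monic hθ).map _) (associated_of_dvd_dvd hdvd h3)

/-- The norm of `θ - h`. -/
theorem norm_sub [FiniteDimensional K L] [Algebra.IsSeparable K L]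
    (hk : ∀ x : K, IsAlgebraic k x → x ∈ (algebraMap k K).range) (h : K) {θ : L}
    (hθ : IsIntegral k θ) :
    ∃ n m : ℕ, m ∣ Module.finrank K L ∧
      Algebra.norm K (algebraMap K L h - θ) = (-1) ^ n * (aeval h (minpoly k θ)) ^ m := by
  have hx : IsIntegral K (θ - algebraMap K L h) := IsIntegral.of_finite K _
  have e0 : algebraMap K L h - θ = algebraMap K L (-1) * (θ - algebraMap K L h) := by
    rw [map_neg, map_one]
    ring
  have e1 := Algebra.norm_eq_norm_adjoin K (θ - algebraMap K L h)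
  have e2 : Algebra.norm K (IntermediateField.AdjoinSimple.gen K (θ - algebraMap K L h)) =
      (-1) ^ (minpoly K (θ - algebraMap K L h)).natDegree *
        (minpoly K (θ - algebraMap K L h)).coeff 0 := by
    have h1 := Algebra.PowerBasis.norm_gen_eq_coeff_zero_minpoly
      (IntermediateField.adjoin.powerBasis hx)
    rw [IntermediateField.adjoin.powerBasis_gen, IntermediateField.adjoin.powerBasis_dim,
      IntermediateField.minpoly_gen] at h1
    exact h1
  have e3 : minpoly K (θ - algebraMap K L h) = (minpoly K θ).comp (X + C h) :=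
    minpoly.sub_algebraMap θ h
  have e4 : (minpoly K (θ - algebraMap K L h)).coeff 0 = aeval h (minpoly k θ) := by
    rw [e3, coeff_zero_eq_eval_zero, eval_comp, eval_add, eval_X, eval_C, zero_add,
      minpoly_map hk hθ, eval_map_algebraMap]
  refine ⟨Module.finrank K L + (minpoly K (θ - algebraMap K L h)).natDegree *
    Module.finrank K⟮θ - algebraMap K L h⟯ L, Module.finrank K⟮θ - algebraMap K L h⟯ L, ?_, ?_⟩
  · exact Dvd.intro_left _ (Module.finrank_mul_finrank K K⟮θ - algebraMap K L h⟯ L)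
  · rw [e0, map_mul, Algebra.norm_algebraMap, e1, e2, e4, mul_pow, ← pow_mul, pow_add]
    ring

end alg

section psi

variable {k K L : Type} [Field k] [Field K] [Field L] [Algebra k K] [Algebra K L] [Algebra k L]
  [IsScalarTower k K L]

theorem ext3_gal (ψ : K → ZMod 3) (σ : L ≃ₐ[K] L) (x : L) : ext3 L ψ (σ x) = ext3 L ψ x := by
  unfold ext3
  rw [Algebra.norm_eq_of_algEquiv]

theorem ext3_const [FiniteDimensional K L]
    (hk : ∀ x : K, IsAlgebraic k x → x ∈ (algebraMap k K).range) {ψ : K → ZMod 3}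
    (hψ : ∀ c : k, c ≠ 0 → ψ (algebraMap k K c) = 0) {x : L} (hx : IsIntegral k x) (h0 : x ≠ 0) :
    ext3 L ψ x = 0 := by
  have h1 : IsIntegral k (Algebra.norm K x) := Algebra.isIntegral_norm K hx
  obtain ⟨c, hc⟩ := hk _ h1.isAlgebraic
  have hc0 : c ≠ 0 := by
    rintro rfl
    rw [map_zero] at hc
    exact h0 (Algebra.norm_eq_zero_iff.1 hc.symm)
  unfold ext3
  rw [← hc, hψ c hc0, mul_zero]

theorem psi_neg_one_pow {ψ : K → ZMod 3} (hψ : ∀ c : k, c ≠ 0 → ψ (algebraMap k K c) = 0) (n : ℕ) :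
    ψ ((-1) ^ n) = 0 := by
  have h := hψ ((-1) ^ n) (pow_ne_zero n (neg_ne_zero.2 one_ne_zero))
  rwa [map_pow, map_neg, map_one] at h

/-- the value on the norm -/
theorem ext3_sub [FiniteDimensional K L] [Algebra.IsSeparable K L]
    (hL : ¬ 3 ∣ Module.finrank K L)
    (hk : ∀ x : K, IsAlgebraic k x → x ∈ (algebraMap k K).range) {h : K} (hh : Transcendental k h)
    {θ : L} (hθ : IsIntegral k θ) :
    ∃ r : ℕ, ¬ 3 ∣ r ∧ ∀ ψ : K → ZMod 3, IsMul ψ →
      (∀ c : k, c ≠ 0 → ψ (algebraMap k K c) = 0) →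
      (Module.finrank K L : ZMod 3) * ext3 L ψ (algebraMap K L h - θ) =
        r * ψ (aeval h (minpoly k θ)) := by
  haveI : Fact (Nat.Prime 3) := ⟨Nat.prime_three⟩
  obtain ⟨n, m, hm, e⟩ := norm_sub hk h hθ
  refine ⟨m, fun h3 => hL (h3.trans hm), fun ψ hψ hψc => ?_⟩
  have hne : aeval h (minpoly k θ) ≠ 0 := fun h0 => hh ⟨_, minpoly.ne_zero hθ, h0⟩
  have h3 : ((Module.finrank K L : ℕ) : ZMod 3) ≠ 0 := fun h0 =>
    hL ((ZMod.natCast_eq_zero_iff _ _).1 h0)
  unfold ext3
  rw [← mul_assoc, mul_inv_cancel₀ h3, one_mul, e,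
    hψ _ _ (pow_ne_zero n (neg_ne_zero.2 one_ne_zero)) (pow_ne_zero m hne),
    psi_neg_one_pow hψc, zero_add, isMul_pow hψ hne]

end psi

section ext

variable {K : Type} [Field K]

/-- The field generated by the roots of unity. -/
theorem cyc_ext {N : ℕ} (hN0 : N ≠ 0) (hN : ((N : ℕ) : K) ≠ 0) :
    ∃ (L : Type) (_ : Field L) (_ : Algebra K L) (ω : L), FiniteDimensional K L ∧ IsGalois K L ∧
      IsPrimitiveRoot ω N ∧ (minpoly K ω).natDegree = Module.finrank K L := by
  haveI : NeZero N := ⟨hN0⟩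
  haveI : NeZero ((N : ℕ) : K) := ⟨hN⟩
  have hz := IsCyclotomicExtension.zeta_spec N K (CyclotomicField N K)
  refine ⟨CyclotomicField N K, inferInstance, inferInstance,
    IsCyclotomicExtension.zeta N K (CyclotomicField N K),
    IsCyclotomicExtension.finiteDimensional {N} K _, IsCyclotomicExtension.isGalois {N} K _, hz, ?_⟩
  have h1 := (hz.powerBasis K).natDegree_minpoly
  rw [IsPrimitiveRoot.powerBasis_gen] at h1
  rw [h1, (hz.powerBasis K).finrank]

end ext

section trace

variable {k K : Type} [Field k] [Field K] [Algebra k K]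

theorem prim_deg [Finite k] {L : Type} [Field L] [Algebra k L] {N n : ℕ} {ω : L}
    (hω : IsPrimitiveRoot ω N) (hi : IsIntegral k ω) (hN : N ∣ Nat.card k ^ n - 1) :
    (minpoly k ω).natDegree ∣ n := by
  apply (minpoly.irreducible hi).natDegree_dvd_of_dvd_X_pow_card_pow_sub_X
  apply minpoly.dvd
  have hc : 1 ≤ Nat.card k ^ n := Nat.one_le_pow _ _ Nat.card_pos
  have h1 : ω ^ (Nat.card k ^ n - 1) = 1 := (hω.pow_eq_one_iff_dvd _).2 hN
  have h3 : ω ^ (Nat.card k ^ n) = ω := by
    calc ω ^ (Nat.card k ^ n) = ω ^ (Nat.card k ^ n - 1 + 1) := by rw [Nat.sub_add_cancel hc]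
      _ = ω := by rw [pow_succ, h1, one_mul]
  rw [map_sub, map_pow, aeval_X, h3, sub_self]

theorem trace_point [Finite k] (h6 : (6 : k) ≠ 0)
    (hk : ∀ x : K, IsAlgebraic k x → x ∈ (algebraMap k K).range) {p : ℕ} [Fact p.Prime]
    [CharP k p] {ν m e d n : ℕ} (hm0 : 0 < m) (hm : p ^ ν = 3 * m + 1) (hed : p ^ ν + 1 = d * e)
    (hn : ¬ 3 ∣ n) (hN : p ^ ν + 1 ∣ Nat.card k ^ n - 1) {h : K} (hh : Transcendental k h)
    (hΔ : 4 * aS d h ^ 3 + 27 * bS d h ^ 2 ≠ 0) (hβ : bet d h ≠ 0) {Φ : k[X]} (hΦm : Φ.Monic)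
    (hΦ : Irreducible Φ) (hΦd : Φ ∣ X ^ d - 1) :
    ∃ (T : Pt (curve (aS d h) (bS d h)) K) (r : ℕ), ¬ 3 ∣ r ∧ ∀ ψ : K → ZMod 3, IsMul ψ →
      (∀ c : k, c ≠ 0 → ψ (algebraMap k K c) = 0) →
      Lm ((curve (aS d h) (bS d h)).baseChange K) ψ 3 (bet d h) 3 T = r * ψ (aeval h Φ) := by
  have h2 : (2 : k) ≠ 0 := fun e => h6 (by linear_combination 3 * e)
  have hprod : 0 < d * e := by omega
  have hd : 0 < d := Nat.pos_of_mul_pos_right hprod
  have hν : ν ≠ 0 := by
    rintro rfl
    rw [pow_zero] at hm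
    omega
  haveI : CharP K p := charP_of_injective_ringHom (algebraMap k K).injective p
  have hNK : ((p ^ ν + 1 : ℕ) : K) ≠ 0 := by
    rw [Ne, CharP.cast_eq_zero_iff K p]
    intro h1
    have h3 : p ∣ 1 := (Nat.dvd_add_right (dvd_pow_self p hν)).1 h1
    exact (Fact.out : p.Prime).one_lt.ne' (Nat.dvd_one.1 h3)
  obtain ⟨L, iF, iA, ω, iFD, iG, hω, hdeg⟩ := cyc_ext (K := K) (N := p ^ ν + 1) (by omega) hNK
  letI : Algebra k L := ((algebraMap K L).comp (algebraMap k K)).toAlgebra
  haveI : IsScalarTower k K L := IsScalarTower.of_algebraMap_eq' rfl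
  haveI : CharP L p := charP_of_injective_ringHom (algebraMap k L).injective p
  have hωi : IsIntegral k ω := ⟨X ^ (p ^ ν + 1) - C 1, monic_X_pow_sub_C 1 (by omega), by
    rw [eval₂_sub, eval₂_pow, eval₂_X, eval₂_C, hω.pow_eq_one, map_one, sub_self]⟩
  have hL3 : ¬ 3 ∣ Module.finrank K L := by
    intro h3
    apply hn
    refine h3.trans ?_
    rw [← hdeg, minpoly_map hk hωi, (minpoly.monic hωi).natDegree_map]
    exact prim_deg hω hωi hN
  -- the constants
  let k' : IntermediateField k L := k⟮ω⟯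
  haveI : CharP k' p := charP_of_injective_ringHom (algebraMap k k').injective p
  have hωm : ω ∈ k' := IntermediateField.mem_adjoin_simple_self k ω
  have hω' : IsPrimitiveRoot (⟨ω, hωm⟩ : k') (p ^ ν + 1) := by
    refine IsPrimitiveRoot.of_map_of_injective (f := algebraMap k' L) ?_
      (algebraMap k' L).injective
    exact hω
  have h6' : (6 : k') ≠ 0 := by
    have : algebraMap k k' 6 ≠ 0 := (_root_.map_ne_zero _).2 h6
    rwa [map_ofNat] at this
  haveI : FiniteDimensional k k' := IntermediateField.adjoin.finiteDimensional hωi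
  have hal : ∀ c : k', IsIntegral k (algebraMap k' L c) := fun c =>
    (IsIntegral.of_finite k c).map (IsScalarTower.toAlgHom k k' L)
  have hh' : Transcendental k' (algebraMap K L h) := by
    intro hal'
    apply hh
    have h5 : IsAlgebraic k (algebraMap K L h) := by
      haveI : Algebra.IsAlgebraic k k' := inferInstance
      exact IsAlgebraic.restrictScalars (R := k) (S := k') hal'
    exact (isAlgebraic_algebraMap_iff (algebraMap K L).injective).1 h5
  have hAm : algebraMap K L (aS d h) = aS d (algebraMap K L h) := by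
    unfold aS
    rw [map_neg, map_add, map_mul, map_pow, map_ofNat, map_ofNat]
  have hBm : algebraMap K L (bS d h) = bS d (algebraMap K L h) := by
    unfold bS
    rw [map_sub, map_add, map_mul, map_mul, map_pow, map_pow, map_ofNat, map_ofNat, map_ofNat]
  have hβm : algebraMap K L (bet d h) = bet d (algebraMap K L h) := by
    unfold bet
    rw [map_mul, map_sub, map_pow, map_one, map_ofNat]
  have hΔ' : 4 * aS d (algebraMap K L h) ^ 3 + 27 * bS d (algebraMap K L h) ^ 2 ≠ 0 := by
    have h5 := (_root_.map_ne_zero (algebraMap K L)).2 hΔ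
    rwa [map_add, map_mul, map_mul, map_pow, map_pow, map_ofNat, map_ofNat, hAm, hBm] at h5
  have hβ' : bet d (algebraMap K L h) ≠ 0 := by
    rw [← hβm]
    exact (_root_.map_ne_zero _).2 hβ
  -- a root
  obtain ⟨z, hzΦ, hzd⟩ : ∃ z : k', aeval (algebraMap k' L z) Φ = 0 ∧ z ^ d = 1 := by
    have hδ : IsPrimitiveRoot ((⟨ω, hωm⟩ : k') ^ e) d :=
      hω'.pow (by omega) (by rw [hed, mul_comm])
    have hs : ((X : k'[X]) ^ d - C 1).Splits := X_pow_sub_one_splits hδ
    have hne : ((X : k'[X]) ^ d - C 1) ≠ 0 := (monic_X_pow_sub_C 1 hd.ne').ne_zero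
    have hdv : Φ.map (algebraMap k k') ∣ (X : k'[X]) ^ d - C 1 := by
      have := Polynomial.map_dvd (algebraMap k k') hΦd
      rwa [Polynomial.map_sub, Polynomial.map_pow, map_X, Polynomial.map_one, ← C_1] at this
    have hs2 := hs.of_dvd hne hdv
    have hdeg2 : (Φ.map (algebraMap k k')).degree ≠ 0 := by
      rw [degree_map]
      exact hΦ.degree_pos.ne'
    obtain ⟨z, hz⟩ := hs2.exists_eval_eq_zero hdeg2
    refine ⟨z, ?_, ?_⟩
    · rw [eval_map_algebraMap] at hz
      rw [aeval_algebraMap_apply, hz, map_zero]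
    · have h5 : eval z ((X : k'[X]) ^ d - C 1) = 0 := by
        obtain ⟨g, hg⟩ := hdv
        rw [hg, eval_mul, hz, zero_mul]
      rw [eval_sub, eval_pow, eval_X, eval_C] at h5
      exact sub_eq_zero.1 h5
  obtain ⟨R, hR⟩ := points h6' hm0 hm hed hω' hh' hΔ' hβ' hzd
  set W := curve (aS d h) (bS d h) with hWdef
  have hWe : (curve (aS d (algebraMap K L h)) (bS d (algebraMap K L h))).baseChange L =
      W.baseChange L := by
    ext
    · exact (map_zero (algebraMap K L)).symm
    · exact (map_zero (algebraMap K L)).symm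
    · exact (map_zero (algebraMap K L)).symm
    · exact hAm.symm
    · exact hBm.symm
  have hWL : W.baseChange L = curve (aS d (algebraMap K L h)) (bS d (algebraMap K L h)) := by
    rw [← hWe]
    ext
    · rfl
    · rfl
    · rfl
    · rfl
    · rfl
  obtain ⟨R', hR'⟩ : ∃ R' : Pt W L, ∀ ψ : L → ZMod 3, IsMul ψ →
      (∀ c : k', c ≠ 0 → ψ (algebraMap k' L c) = 0) →
      Lm (W.baseChange L) ψ 3 (bet d (algebraMap K L h)) 3 R' =
        ψ (algebraMap K L h - algebraMap k' L z) := by
    have hex : ∃ R' : ((curve (aS d (algebraMap K L h)) (bS d (algebraMap K L h))).baseChange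
        L).toAffine.Point, ∀ ψ : L → ZMod 3, IsMul ψ →
      (∀ c : k', c ≠ 0 → ψ (algebraMap k' L c) = 0) →
      Lm ((curve (aS d (algebraMap K L h)) (bS d (algebraMap K L h))).baseChange L) ψ 3
        (bet d (algebraMap K L h)) 3 R' = ψ (algebraMap K L h - algebraMap k' L z) := ⟨R, hR⟩
    rw [hWe] at hex
    exact hex
  -- the trace
  set T : Pt W L := ∑ σ : L ≃ₐ[K] L, act W (rs K σ) R' with hT
  have hinv : ∀ τ : L ≃ₐ[K] L, act W (rs K τ) T = T := by
    intro τ
    rw [hT, map_sum]
    refine (Finset.sum_congr rfl fun σ _ => ?_).trans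
      (Equiv.sum_comp (Equiv.mulLeft τ) fun σ => act W (rs K σ) R')
    rw [act_act, ← rs_mul]
    rfl
  obtain ⟨T0, hT0⟩ := fixed_point (F := K) W T hinv
  have hzi : IsIntegral k (algebraMap k' L z) := hal z
  obtain ⟨r, hr, hval⟩ := ext3_sub (L := L) hL3 hk hh hzi
  have hmin : minpoly k (algebraMap k' L z) = Φ :=
    (minpoly.eq_of_irreducible_of_monic hΦ hzΦ hΦm).symm
  rw [hmin] at hval
  refine ⟨T0, r, hr, fun ψ hψ hψc => ?_⟩
  rw [← hval ψ hψ hψc]
  have hψL := ext3_mul (L := L) hψ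
  have h2K : (2 : K) ≠ 0 := by
    have : algebraMap k K 2 ≠ 0 := by simpa using h2
    rwa [map_ofNat] at this
  have h2L : (2 : L) ≠ 0 := by
    have : algebraMap k L 2 ≠ 0 := by simpa using h2
    rwa [map_ofNat] at this
  have hcomp : ∀ S : Pt W K, Lm (W.baseChange L) (ext3 L ψ) 3 (bet d (algebraMap K L h)) 3
      (act W (incl K K L) S) = Lm (W.baseChange K) ψ 3 (bet d h) 3 S := by
    intro S
    rcases S with _ | ⟨x, y, hxy⟩
    · rfl
    · obtain ⟨h7, h9⟩ := act_some W (incl K K L) hxy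
      rw [h9]
      show val (ext3 L ψ) 3 (bet d (algebraMap K L h)) (algebraMap K L x - 3) (algebraMap K L y) =
        val ψ 3 (bet d h) (x - 3) y
      have := val_alg (L := L) hL3 hψ h2K (α := 3) (β := bet d h) (x := x - 3) (y := y) hβ
      rw [map_sub, map_ofNat, hβm] at this
      exact this
  have hgal : ∀ (σ : L ≃ₐ[K] L) (S : Pt W L),
      Lm (W.baseChange L) (ext3 L ψ) 3 (bet d (algebraMap K L h)) 3 (act W (rs K σ) S) =
        Lm (W.baseChange L) (ext3 L ψ) 3 (bet d (algebraMap K L h)) 3 S := by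
    intro σ S
    rcases S with _ | ⟨x, y, hxy⟩
    · rfl
    · obtain ⟨h7, h9⟩ := act_some W (rs K σ) hxy
      rw [h9]
      show val (ext3 L ψ) 3 (bet d (algebraMap K L h)) (σ x - 3) (σ y) =
        val (ext3 L ψ) 3 (bet d (algebraMap K L h)) (x - 3) y
      have e1 : σ y - (3 * (σ x - 3) + bet d (algebraMap K L h)) =
          σ (y - (3 * (x - 3) + bet d (algebraMap K L h))) := by
        rw [← hβm]
        simp only [map_sub, map_add, map_mul, map_ofNat, AlgEquiv.commutes]
      by_cases h0 : y - (3 * (x - 3) + bet d (algebraMap K L h)) = 0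
      · rw [val_zero h0, val_zero (by rw [e1, h0, map_zero])]
      · rw [val_ne h0, val_ne (by rw [e1]; exact (_root_.map_ne_zero _).2 h0), e1, ext3_gal]
  have hcardG : Fintype.card (L ≃ₐ[K] L) = Module.finrank K L := by
    rw [← Nat.card_eq_fintype_card]
    exact IsGalois.card_aut_eq_finrank K L
  rw [← hcomp, hT0, hT]
  have h5 := map_sum (lmHom hWL hψL h2L hβ' (td d (algebraMap K L h)))
    (fun σ : L ≃ₐ[K] L => act W (rs K σ) R') Finset.univ
  refine h5.trans ?_
  have h7 : ∀ σ ∈ (Finset.univ : Finset (L ≃ₐ[K] L)),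
      (lmHom hWL hψL h2L hβ' (td d (algebraMap K L h))) (act W (rs K σ) R') =
        ext3 L ψ (algebraMap K L h - algebraMap k' L z) := by
    intro σ _
    refine (hgal σ R').trans ?_
    exact hR' (ext3 L ψ) hψL fun c hc => ext3_const hk hψc (hal c) ((_root_.map_ne_zero _).2 hc)
  rw [Finset.sum_congr rfl h7, Finset.sum_const, Finset.card_univ, hcardG, nsmul_eq_mul]

end trace

end Pool.Agent.R427.SC
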