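import Pool.Agent.R427.SC1
import Pool.Agent.H107R3.ZT.Up

/-!
The order of vanishing and the rank for `y ^ 2 = x ^ 3 + (3 x + 4 (1 - h ^ d)) ^ 2` over function
fields with arbitrary field of constants of characteristic at least five.
-/

set_option autoImplicit false
set_option linter.all false
set_option maxHeartbeats 4000000

open WeierstrassCurve WeierstrassCurve.Affine Polynomial FF
open scoped Classical

namespace Pool.Agent.R427.SC

open Pool.Agent.W343.BSD Pool.Agent.W309.RK Pool.Agent.TH639.B3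
open Pool.Agent.W313.Gr (curve)
open Pool.Agent.TH958.T3 (TD IsMul)
open Pool.Agent.TH958.T4 (ord_shift ne_of_pos ord_nonneg_sub ord_one_sub ord_one_sub' six_ne)
open Pool.Agent.TH958.T6 (OneZero bet aS bS isT3 td disc_eq rootSum_zero reg_of locTerm_node
  locTerm_two cop3 term_pole sum_insert_le psi psi_mul psi_const psi_zero)
open Pool.Agent.TH958.T7 (Lm lmHom isMul_prod tors_val')
open Pool.Agent.TH115.GD (Pt)

section fac

variable (k : Type) [Field k]

/-- The monic irreducible factors of `X ^ d - 1`. -/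
def Fac (d : ℕ) : Set k[X] := {Φ | Φ.Monic ∧ Irreducible Φ ∧ Φ ∣ X ^ d - 1}

/-- The number of monic irreducible factors of `X ^ d - 1`. -/
noncomputable def numFac (d : ℕ) : ℕ := (Fac k d).ncard

variable {k}

/-- the factors as a finite set -/
noncomputable def fac (k : Type) [Field k] (d : ℕ) : Finset k[X] :=
  (UniqueFactorizationMonoid.normalizedFactors (X ^ d - 1 : k[X])).toFinset

theorem pow_ne {d : ℕ} (hd : 0 < d) : (X ^ d - 1 : k[X]) ≠ 0 := by
  have := (monic_X_pow_sub_C (1 : k) hd.ne').ne_zero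
  rwa [C_1] at this

theorem mem_fac {d : ℕ} (hd : 0 < d) (Φ : k[X]) :
    Φ ∈ fac k d ↔ Φ.Monic ∧ Irreducible Φ ∧ Φ ∣ X ^ d - 1 := by
  unfold fac
  rw [Multiset.mem_toFinset, Polynomial.mem_normalizedFactors_iff (pow_ne hd)]
  tauto

theorem fac_eq {d : ℕ} (hd : 0 < d) : ((fac k d : Finset k[X]) : Set k[X]) = Fac k d := by
  ext Φ
  rw [Finset.mem_coe, mem_fac hd]
  rfl

theorem numFac_eq {d : ℕ} (hd : 0 < d) : numFac k d = (fac k d).card := by
  unfold numFac
  rw [← fac_eq hd, Set.ncard_coe_finset]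

theorem prod_fac {d : ℕ} (hd : (d : k) ≠ 0) : ∏ Φ ∈ fac k d, Φ = X ^ d - 1 := by
  have hd0 : 0 < d := by
    rcases Nat.eq_zero_or_pos d with h | h
    · rw [h, Nat.cast_zero] at hd
      exact absurd rfl hd
    · exact h
  have hsep : (X ^ d - 1 : k[X]).Separable := by
    have := separable_X_pow_sub_C (1 : k) hd one_ne_zero
    rwa [C_1] at this
  have hnd : (UniqueFactorizationMonoid.normalizedFactors (X ^ d - 1 : k[X])).Nodup :=
    (UniqueFactorizationMonoid.squarefree_iff_nodup_normalizedFactors (pow_ne hd0)).1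
      hsep.squarefree
  have h1 : ∏ Φ ∈ fac k d, Φ =
      (UniqueFactorizationMonoid.normalizedFactors (X ^ d - 1 : k[X])).prod := by
    unfold fac
    rw [Finset.prod_eq_multiset_prod, Multiset.toFinset_val, Multiset.dedup_eq_self.2 hnd,
      Multiset.map_id']
  have h2 := UniqueFactorizationMonoid.prod_normalizedFactors (pow_ne (k := k) hd0)
  rw [← h1] at h2
  refine eq_of_monic_of_associated (monic_prod_of_monic _ _ fun Φ hΦ => ((mem_fac hd0 Φ).1 hΦ).1)
    ?_ h2
  have := monic_X_pow_sub_C (1 : k) hd0.ne'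
  rwa [C_1] at this

theorem X_sub_one_mem {d : ℕ} (hd : 0 < d) : (X - 1 : k[X]) ∈ fac k d := by
  rw [mem_fac hd]
  refine ⟨?_, ?_, ?_⟩
  · rw [← C_1]; exact monic_X_sub_C 1
  · rw [← C_1]; exact irreducible_X_sub_C 1
  · exact sub_one_dvd_pow_sub_one X d

end fac

section defs

variable (k : Type) {K : Type} [Field k] [Field K] [Algebra k K]

/-- The conditions on the function `h`: it has exactly one zero, of degree prime to three, if `3`
divides `q - 1`, and all its zeros have odd degree if not; for every monic irreducible factor `Φ` of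
`X ^ d - 1` the function `Φ(h)` has exactly one zero, its order and its degree being prime to three;
and exactly one pole of `h` has order prime to three, its degree being prime to three, and odd if
`3` does not divide `q - 1`. -/
structure Adm (d : ℕ) (h : K) : Prop where
  zero_one : 3 ∣ Nat.card k - 1 → ∃ v : Place k K, ¬ 3 ∣ S.deg v ∧
    ∀ w : Place k K, 0 < w.ord h → w = v
  zero_odd : ¬ 3 ∣ Nat.card k - 1 → ∀ w : Place k K, 0 < w.ord h → Odd (S.deg w)
  factor : ∀ Φ : k[X], Φ.Monic → Irreducible Φ → Φ ∣ X ^ d - 1 → OneZero k (aeval h Φ)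
  pole : ∃ v : Place k K, v.ord h < 0 ∧ ¬ (3 : ℤ) ∣ v.ord h ∧ ¬ 3 ∣ S.deg v ∧
    (¬ 3 ∣ Nat.card k - 1 → Odd (S.deg v)) ∧
    ∀ w : Place k K, w.ord h < 0 → ¬ (3 : ℤ) ∣ w.ord h → w = v

end defs

section basics

variable {k K : Type} [Field k] [Finite k] [Field K] [Algebra k K] [FF.IsFF k K]

theorem exists_zero {h : K} {v : Place k K} (hv : v.ord h < 0) :
    ∃ w : Place k K, 0 < w.ord h := by
  by_contra hcon
  push Not at hcon
  have h0 := Pool.Agent.H525R3.FFp.ddeg_divisor (k := k) h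
  have hle : Pool.Agent.H525R3.FFp.divisor k h ≤ Finsupp.single v (v.ord h) := by
    intro w
    rw [Pool.Agent.H525R3.FFp.divisor_apply, Finsupp.single_apply]
    split_ifs with hw
    · subst hw
      exact le_rfl
    · exact hcon w
  have h2 := Pool.Agent.H525R3.FFp.ddeg_mono hle
  rw [Pool.Agent.H525R3.FFp.ddeg_single, h0] at h2
  have h3 : (0 : ℤ) < v.deg := by exact_mod_cast Pool.Agent.H525R3.FFp.deg_pos v
  nlinarith

theorem reg_aeval (v : Place k K) {h : K} (hh : v.Reg h) (Φ : k[X]) : v.Reg (aeval h Φ) := by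
  induction Φ using Polynomial.induction_on' with
  | add p q hp hq =>
    rw [map_add]
    exact v.reg_add hp hq
  | monomial n a =>
    rw [aeval_monomial]
    exact v.reg_mul (v.reg_const a) (reg_pow hh n)

theorem ord_nonneg (v : Place k K) {h : K} (hh : 0 ≤ v.ord h) (Φ : k[X]) :
    0 ≤ v.ord (aeval h Φ) := by
  by_cases h0 : aeval h Φ = 0
  · rw [h0, v.ord_zero]
  · exact (v.reg_iff h0).1 (reg_aeval v (Or.inr hh) Φ)

/-- two coprime polynomials have no common zero -/
theorem ord_coprime (v : Place k K) {h : K} (hh : 0 ≤ v.ord h) {Φ Ψ : k[X]} (hc : IsCoprime Φ Ψ)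
    (h1 : 0 < v.ord (aeval h Ψ)) : v.ord (aeval h Φ) = 0 := by
  have h0 := ord_nonneg v hh Φ
  by_contra hne
  have h2 : 0 < v.ord (aeval h Φ) := lt_of_le_of_ne h0 (Ne.symm hne)
  obtain ⟨a, b, hab⟩ := hc
  have hr := fun p : k[X] => reg_aeval v (Or.inr hh : v.Reg h) p
  have e : v.red (aeval h Φ) = 0 := by
    rw [v.red_eq_zero_iff (hr _)]
    exact Or.inr h2
  have e' : v.red (aeval h Ψ) = 0 := by
    rw [v.red_eq_zero_iff (hr _)]
    exact Or.inr h1
  have h5 := congrArg (fun p : k[X] => v.red (aeval h p)) hab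
  simp only [map_add, map_mul, map_one] at h5
  rw [v.red_add (v.reg_mul (hr _) (hr _)) (v.reg_mul (hr _) (hr _)), v.red_mul (hr _) (hr _),
    v.red_mul (hr _) (hr _), e, e', mul_zero, mul_zero, add_zero] at h5
  have h7 : v.red (1 : K) ≠ 0 := v.red_ne_zero one_ne_zero v.ord_one
  exact h7 h5.symm

/-- the order of a monic polynomial at a pole -/
theorem ord_at_pole (v : Place k K) {h : K} (hneg : v.ord h < 0) {Φ : k[X]} (hm : Φ.Monic) :
    aeval h Φ ≠ 0 ∧ v.ord (aeval h Φ) = Φ.natDegree * v.ord h := by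
  have hh0 : h ≠ 0 := by
    rintro rfl
    rw [v.ord_zero] at hneg
    exact lt_irrefl _ hneg
  letI : Invertible h := invertibleOfNonzero hh0
  have key : aeval h⁻¹ Φ.reverse * h ^ Φ.natDegree = aeval h Φ := by
    have := eval₂_reverse_mul_pow (algebraMap k K) h Φ
    rwa [invOf_eq_inv] at this
  have hx : 0 < v.ord h⁻¹ := by rw [v.ord_inv]; omega
  have hxr : v.Reg h⁻¹ := Or.inr hx.le
  have hx0 : v.red h⁻¹ = 0 := by
    rw [v.red_eq_zero_iff hxr]
    exact Or.inr hx
  have e1 : aeval h⁻¹ Φ.reverse = aeval h⁻¹ Φ.reverse.divX * h⁻¹ + algebraMap k K 1 := by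
    have h5 := congrArg (aeval h⁻¹) (divX_mul_X_add Φ.reverse)
    rw [map_add, map_mul, aeval_X, aeval_C, coeff_zero_reverse, hm.leadingCoeff] at h5
    exact h5.symm
  have hr := reg_aeval v hxr Φ.reverse.divX
  have e2 : v.red (aeval h⁻¹ Φ.reverse) ≠ 0 := by
    rw [e1, v.red_add (v.reg_mul hr hxr) (v.reg_const 1), v.red_mul hr hxr, hx0, mul_zero,
      zero_add, map_one]
    exact v.red_ne_zero one_ne_zero v.ord_one
  have hr2 := reg_aeval v hxr Φ.reverse
  rw [Ne, v.red_eq_zero_iff hr2] at e2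
  push Not at e2
  have e3 : v.ord (aeval h⁻¹ Φ.reverse) = 0 := by
    have := (v.reg_iff e2.1).1 hr2
    omega
  rw [← key]
  refine ⟨mul_ne_zero e2.1 (pow_ne_zero _ hh0), ?_⟩
  rw [v.ord_mul e2.1 (pow_ne_zero _ hh0), e3, v.ord_pow, zero_add]

/-- at a zero of `Φ(h)` the function `h` is regular -/
theorem nonneg_of_zero (v : Place k K) {h : K} {Φ : k[X]} (hm : Φ.Monic)
    (h1 : 0 < v.ord (aeval h Φ)) : 0 ≤ v.ord h := by
  by_contra hneg
  push Not at hneg
  have h2 := (ord_at_pole v hneg hm).2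
  rw [h2] at h1
  have h3 : (Φ.natDegree : ℤ) * v.ord h ≤ 0 :=
    mul_nonpos_of_nonneg_of_nonpos (Int.natCast_nonneg _) hneg.le
  omega

end basics

end Pool.Agent.R427.SC
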