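import Pool.Agent.R427.TW21

/-!
Curves with a point of order seven over a finite field.
-/

set_option autoImplicit false
set_option linter.all false
set_option maxHeartbeats 4000000

open WeierstrassCurve WeierstrassCurve.Affine

namespace Pool.Agent.R427.SV

open Pool.Agent.W343.BSD
open Pool.Agent.W313.Gr (curve)
open Pool.Agent.R427.FT (eqn negY_eq addX_eq addY_eq ns_iff dbl)

/-- `b₂` -/
def b2 {R : Type} [CommRing R] (d : R) : R := d ^ 4 - 6 * d ^ 3 + 3 * d ^ 2 + 2 * d + 1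

/-- the first coefficient of the short form of the curve with a point of order seven -/
def sA {R : Type} [CommRing R] (d : R) : R :=
  -27 * (d ^ 8 - 12 * d ^ 7 + 42 * d ^ 6 - 56 * d ^ 5 + 35 * d ^ 4 - 14 * d ^ 2 + 4 * d + 1)

/-- the second coefficient -/
def sB {R : Type} [CommRing R] (d : R) : R :=
  54 * (d ^ 12 - 18 * d ^ 11 + 117 * d ^ 10 - 354 * d ^ 9 + 570 * d ^ 8 - 486 * d ^ 7 +
    273 * d ^ 6 - 222 * d ^ 5 + 174 * d ^ 4 - 46 * d ^ 3 - 15 * d ^ 2 + 6 * d + 1)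

theorem s_disc {R : Type} [CommRing R] (d : R) : 4 * sA d ^ 3 + 27 * sB d ^ 2 =
    -(2 ^ 8 * 3 ^ 12 * (d ^ 7 * (d - 1) ^ 7 * (d ^ 3 - 8 * d ^ 2 + 5 * d + 1))) := by
  unfold sA sB
  ring

section pts

variable {F : Type} [Field F]

/-- the order of the group of non-singular points is divisible by seven -/
theorem seven_dvd [Finite F] (h2 : (2 : F) ≠ 0) (h3 : (3 : F) ≠ 0) {d : F} (hd : d ≠ 0)
    (hd1 : d - 1 ≠ 0) :
    7 ∣ Nat.card {P : F × F // (curve (sA d) (sB d)).toAffine.Nonsingular P.1 P.2} + 1 := by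
  classical
  have h108 : (108 : F) ≠ 0 := by
    have : (108 : F) = 2 ^ 2 * 3 ^ 3 := by norm_num
    rw [this]
    exact mul_ne_zero (pow_ne_zero _ h2) (pow_ne_zero _ h3)
  have hyP : 108 * (d ^ 2 - d ^ 3) ≠ 0 := by
    have e : 108 * (d ^ 2 - d ^ 3) = -(108 * (d ^ 2 * (d - 1))) := by ring
    rw [e]
    exact neg_ne_zero.2 (mul_ne_zero h108 (mul_ne_zero (pow_ne_zero 2 hd) hd1))
  have hyQ : 108 * (d ^ 3 * (d - 1) ^ 2) ≠ 0 :=
    mul_ne_zero h108 (mul_ne_zero (pow_ne_zero 3 hd) (pow_ne_zero 2 hd1))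
  have hyR : 108 * (d * (d - 1) ^ 3) ≠ 0 :=
    mul_ne_zero h108 (mul_ne_zero hd (pow_ne_zero 3 hd1))
  have hP : (curve (sA d) (sB d)).toAffine.Nonsingular (3 * b2 d) (108 * (d ^ 2 - d ^ 3)) := by
    rw [ns_iff]
    refine ⟨?_, Or.inr (mul_ne_zero h2 hyP)⟩
    unfold sA sB b2
    ring
  have hQ : (curve (sA d) (sB d)).toAffine.Nonsingular (36 * (d ^ 3 - d ^ 2) + 3 * b2 d)
      (108 * (d ^ 3 * (d - 1) ^ 2)) := by
    rw [ns_iff]
    refine ⟨?_, Or.inr (mul_ne_zero h2 hyQ)⟩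
    unfold sA sB b2
    ring
  have hR : (curve (sA d) (sB d)).toAffine.Nonsingular (36 * (d ^ 2 - d) + 3 * b2 d)
      (108 * (d * (d - 1) ^ 3)) := by
    rw [ns_iff]
    refine ⟨?_, Or.inr (mul_ne_zero h2 hyR)⟩
    unfold sA sB b2
    ring
  have hcard : Nat.card (curve (sA d) (sB d)).toAffine.Point =
      Nat.card {P : F × F // (curve (sA d) (sB d)).toAffine.Nonsingular P.1 P.2} + 1 := by
    have e := (curve (sA d) (sB d)).toAffine.nonsingularPointEquiv
    rw [Nat.card_congr e]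
    exact Finite.card_option
  rw [← hcard]
  set P : (curve (sA d) (sB d)).toAffine.Point := Point.some _ _ hP with hPd
  set Q : (curve (sA d) (sB d)).toAffine.Point := Point.some _ _ hQ with hQd
  set R : (curve (sA d) (sB d)).toAffine.Point := Point.some _ _ hR with hRd
  have h2P : P + P = Q := by
    have := dbl h2 hP hyP (l := 3 * (1 + d - d ^ 2)) (by unfold sA b2; ring)
      (by unfold b2; ring) (by unfold b2; ring) hQ
    convert this
  have h4P : Q + Q = R := by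
    have := dbl h2 hQ hyQ (l := 6 * (d ^ 2 - 1) + 3 * (1 + d - d ^ 2)) (by unfold sA b2; ring)
      (by unfold b2; ring) (by unfold b2; ring) hR
    convert this
  have h8P : R + R = P := by
    have := dbl h2 hR hyR (l := 6 * (d * (d - 2)) + 3 * (1 + d - d ^ 2)) (by unfold sA b2; ring)
      (by unfold b2; ring) (by unfold b2; ring) hP
    convert this
  have h7P : (7 : ℕ) • P = 0 := by
    have e : (8 : ℕ) • P = ((P + P) + (P + P)) + ((P + P) + (P + P)) := by
      rw [show (8 : ℕ) = 1 + 1 + 1 + 1 + 1 + 1 + 1 + 1 from rfl]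
      simp only [add_smul, one_smul]
      abel
    rw [h2P, h4P, h8P, show (8 : ℕ) = 7 + 1 from rfl, add_smul, one_smul] at e
    exact left_eq_add.1 (by rw [add_comm]; exact e.symm)
  have hP0 : P ≠ 0 := by
    rw [hPd]
    exact Point.some_ne_zero _
  have ho : addOrderOf P = 7 := by
    have : Fact (Nat.Prime 7) := ⟨by norm_num⟩
    exact addOrderOf_eq_prime h7P hP0
  have hfin : Finite (curve (sA d) (sB d)).toAffine.Point := by
    have e := (curve (sA d) (sB d)).toAffine.nonsingularPointEquiv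
    have : Finite (WithZero {xy : F × F //
        (curve (sA d) (sB d)).toAffine.Nonsingular xy.1 xy.2}) :=
      inferInstanceAs (Finite (Option {xy : F × F //
        (curve (sA d) (sB d)).toAffine.Nonsingular xy.1 xy.2}))
    exact Finite.of_equiv _ e.symm
  rw [← ho]
  exact addOrderOf_dvd_natCard P

/-- good reduction -/
theorem count_good [Finite F] (h2 : (2 : F) ≠ 0) (h3 : (3 : F) ≠ 0) {d : F}
    (hΔ : 4 * sA d ^ 3 + 27 * sB d ^ 2 ≠ 0) : 7 ∣ Nat.card (Sol F (sA d) (sB d)) + 1 := by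
  have hd : d ≠ 0 := by
    rintro rfl
    apply hΔ
    rw [s_disc]
    ring
  have hd1 : d - 1 ≠ 0 := by
    intro h
    apply hΔ
    rw [s_disc, h]
    ring
  have h := seven_dvd h2 h3 hd hd1
  have e : Nat.card (Sol F (sA d) (sB d)) =
      Nat.card {P : F × F // (curve (sA d) (sB d)).toAffine.Nonsingular P.1 P.2} := by
    refine Nat.card_congr (Equiv.subtypeEquivRight fun P => ?_)
    rw [ns_iff]
    refine ⟨fun h1 => ⟨h1, ?_⟩, fun h1 => h1.1⟩
    by_contra h4
    push Not at h4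
    obtain ⟨h4, h5⟩ := h4
    apply hΔ
    have hy : P.2 = 0 := (mul_eq_zero.1 h5).resolve_left h2
    have h1' : P.2 ^ 2 = P.1 ^ 3 + sA d * P.1 + sB d := h1
    rw [hy] at h1'
    have hA : sA d = -3 * P.1 ^ 2 := by linear_combination h4
    have hB : sB d = 2 * P.1 ^ 3 := by linear_combination -h1' - P.1 * h4
    rw [hA, hB]
    ring
  rw [e]
  exact h

/-- the coefficients have no common zero -/
theorem ne_or (h2 : (2 : F) ≠ 0) (h3 : (3 : F) ≠ 0) (h7 : (7 : F) ≠ 0) (z : F) :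
    sA z ≠ 0 ∨ sB z ≠ 0 := by
  by_contra hcon
  push Not at hcon
  obtain ⟨hA, hB⟩ := hcon
  have h1 := s_disc z
  rw [hA, hB] at h1
  have h27 : (-27 : F) ≠ 0 := by
    have : (-27 : F) = -(3 ^ 3) := by norm_num
    rw [this]
    exact neg_ne_zero.2 (pow_ne_zero 3 h3)
  have h5 : z ^ 7 * (z - 1) ^ 7 * (z ^ 3 - 8 * z ^ 2 + 5 * z + 1) = 0 := by
    have h6 : (2 ^ 8 * 3 ^ 12 : F) ≠ 0 := mul_ne_zero (pow_ne_zero _ h2) (pow_ne_zero _ h3)
    have h8 : (2 ^ 8 * 3 ^ 12 : F) *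
      (z ^ 7 * (z - 1) ^ 7 * (z ^ 3 - 8 * z ^ 2 + 5 * z + 1)) = 0 := by linear_combination h1
    exact (mul_eq_zero.1 h8).resolve_left h6
  have hc : (z ^ 8 - 12 * z ^ 7 + 42 * z ^ 6 - 56 * z ^ 5 + 35 * z ^ 4 - 14 * z ^ 2 + 4 * z + 1) =
      0 := by
    unfold sA at hA
    exact (mul_eq_zero.1 hA).resolve_left h27
  rcases mul_eq_zero.1 h5 with h6 | h6
  · rcases mul_eq_zero.1 h6 with h8 | h8
    · have h9 := pow_eq_zero_iff (by norm_num) |>.1 h8
      rw [h9] at hc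
      norm_num at hc
    · have h9 : z = 1 := sub_eq_zero.1 (pow_eq_zero_iff (by norm_num) |>.1 h8)
      rw [h9] at hc
      norm_num at hc
  · have h49 : (49 : F) = 0 := by
      linear_combination (-444 * z ^ 2 + 3005 * z + 1710) * hc +
        (444 * z ^ 7 - 4781 * z ^ 6 + 12530 * z ^ 5 - 6853 * z ^ 4 - 693 * z ^ 3 + 6776 * z ^ 2 -
          1540 * z - 1661) * h6
    have : (49 : F) = 7 ^ 2 := by norm_num
    rw [this] at h49
    exact pow_ne_zero 2 h7 h49

theorem sA_inv {d : F} (hd : 1 - d ≠ 0) : ((1 - d)⁻¹ ^ 2) ^ 4 * sA d = sA (1 - d)⁻¹ := by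
  unfold sA
  field_simp
  ring

theorem sB_inv {d : F} (hd : 1 - d ≠ 0) : ((1 - d)⁻¹ ^ 2) ^ 6 * sB d = sB (1 - d)⁻¹ := by
  unfold sB
  field_simp
  ring

end pts

end Pool.Agent.R427.SV
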