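import Pool.Agent.R427.SV1
import Pool.Agent.R427.AQ3

/-!
Curves with a point of order seven: the places.
-/

set_option autoImplicit false
set_option linter.all false
set_option maxHeartbeats 4000000

open Polynomial FF
open scoped Classical

namespace Pool.Agent.R427.SV

open Pool.Agent.W343.BSD
open Pool.Agent.W313.Gr (curve PointsDvd)
open Pool.Agent.TH639.B3 (ord_disc_zero_iff)
open Pool.Agent.R427.FT (card_sol_node count_cusp)
open Pool.Agent.R427.TW (SemiAt semiAt_of scale_min scale_all)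
open Pool.Agent.R427.AQ (NodeAt)

section maps

theorem map_sA {R S : Type} [CommRing R] [CommRing S] (φ : R →+* S) (b : R) :
    φ (sA b) = sA (φ b) := by
  unfold sA
  simp only [map_mul, map_add, map_sub, map_pow, map_neg, map_one, map_ofNat]

theorem map_sB {R S : Type} [CommRing R] [CommRing S] (φ : R →+* S) (b : R) :
    φ (sB b) = sB (φ b) := by
  unfold sB
  simp only [map_mul, map_add, map_sub, map_pow, map_neg, map_one, map_ofNat]

theorem aeval_sA {k F : Type} [Field k] [Field F] [Algebra k F] (b : F) :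
    aeval b (sA (X : k[X])) = sA b := by
  have := map_sA (aeval b : k[X] →ₐ[k] F).toRingHom X
  simpa using this

theorem aeval_sB {k F : Type} [Field k] [Field F] [Algebra k F] (b : F) :
    aeval b (sB (X : k[X])) = sB b := by
  have := map_sB (aeval b : k[X] →ₐ[k] F).toRingHom X
  simpa using this

end maps

section loc

variable {k K : Type} [Field k] [Finite k] [Field K] [Algebra k K] [FF.IsFF k K] {v : Place k K}

theorem red_sA {z : K} (hz : v.Reg z) : v.Reg (sA z) ∧ v.red (sA z) = sA (v.red z) := by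
  have e := aeval_sA (k := k) z
  rw [← e]
  refine ⟨Pool.Agent.H675R3.ZT.reg_aeval v hz _, ?_⟩
  rw [Pool.Agent.H675R3.ZT.red_aeval v hz, aeval_sA]

theorem red_sB {z : K} (hz : v.Reg z) : v.Reg (sB z) ∧ v.red (sB z) = sB (v.red z) := by
  have e := aeval_sB (k := k) z
  rw [← e]
  refine ⟨Pool.Agent.H675R3.ZT.reg_aeval v hz _, ?_⟩
  rw [Pool.Agent.H675R3.ZT.red_aeval v hz, aeval_sB]

/-- the residue characteristic -/
theorem nRF7 (h2 : (2 : k) ≠ 0) (h3 : (3 : k) ≠ 0) (h7 : (7 : k) ≠ 0) (v : Place k K) :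
    (2 : v.RF) ≠ 0 ∧ (3 : v.RF) ≠ 0 ∧ (7 : v.RF) ≠ 0 := by
  refine ⟨?_, ?_, ?_⟩
  · have := ne_RF v (n := 2) (by exact_mod_cast h2)
    exact_mod_cast this
  · have := ne_RF v (n := 3) (by exact_mod_cast h3)
    exact_mod_cast this
  · have := ne_RF v (n := 7) (by exact_mod_cast h7)
    exact_mod_cast this

/-- `c` scales the curve of parameter `g` to that of the regular parameter `z` -/
structure Norm (v : Place k K) (g c z : K) : Prop where
  c0 : c ≠ 0
  rz : v.Reg z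
  eA : c ^ 4 * sA g = sA z
  eB : c ^ 6 * sB g = sB z

theorem Norm.min (h2 : (2 : k) ≠ 0) (h3 : (3 : k) ≠ 0) (h7 : (7 : k) ≠ 0) {g c z : K}
    (h : Norm v g c z) : IsMinScale v (sA g) (sB g) c := by
  obtain ⟨n2, n3, n7⟩ := nRF7 h2 h3 h7 v
  obtain ⟨rA, eA⟩ := red_sA h.rz
  obtain ⟨rB, eB⟩ := red_sB h.rz
  refine ⟨h.c0, by rw [h.eA]; exact rA, by rw [h.eB]; exact rB, ?_⟩
  rintro ⟨h4, h6⟩
  rcases ne_or n2 n3 n7 (v.red z) with h7 | h7
  · rw [← eA, Ne, v.red_eq_zero_iff rA] at h7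
    push Not at h7
    rcases h4 with h4 | h4
    · apply h7.1
      rw [← h.eA, h4, mul_zero]
    · rw [h.eA] at h4
      omega
  · rw [← eB, Ne, v.red_eq_zero_iff rB] at h7
    push Not at h7
    rcases h6 with h6 | h6
    · apply h7.1
      rw [← h.eB, h6, mul_zero]
    · rw [h.eB] at h6
      omega

/-- every parameter has a normalization -/
theorem exists_norm (v : Place k K) (g : K) : ∃ c z : K, Norm v g c z := by
  by_cases hr : v.Reg g
  · exact ⟨1, g, ⟨one_ne_zero, hr, by ring, by ring⟩⟩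
  · have h : v.ord g < 0 := by
      by_contra h
      exact hr (Or.inr (not_lt.1 h))
    have hg : g ≠ 0 := by
      rintro rfl
      exact hr (Or.inl rfl)
    have h1 : 1 - g ≠ 0 := by
      intro h1
      have : g = 1 := (sub_eq_zero.1 h1).symm
      rw [this, v.ord_one] at h
      omega
    have h2 : v.ord (1 - g) ≤ 0 := by
      by_contra h3
      push Not at h3
      apply hr
      have e : g = 1 - (1 - g) := by ring
      rw [e, sub_eq_add_neg]
      exact v.reg_add (Or.inr (by rw [v.ord_one])) (v.reg_neg (Or.inr h3.le))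
    refine ⟨(1 - g)⁻¹ ^ 2, (1 - g)⁻¹, ⟨pow_ne_zero 2 (inv_ne_zero h1), Or.inr ?_, sA_inv h1,
      sB_inv h1⟩⟩
    rw [v.ord_inv]
    omega

theorem dvd_good7 (h2 : (2 : k) ≠ 0) (h3 : (3 : k) ≠ 0) (h7 : (7 : k) ≠ 0) {g : K}
    (hΔ : 4 * sA g ^ 3 + 27 * sB g ^ 2 ≠ 0) : PointsDvd 7 k (sA g) (sB g) := by
  intro v hv
  obtain ⟨n2, n3, n7⟩ := nRF7 h2 h3 h7 v
  have hab := ab_of_disc hΔ
  obtain ⟨c, z, hn⟩ := exists_norm v g
  have hm := hn.min h2 h3 h7
  rw [ord_disc_zero_iff hΔ hm, hn.eA, hn.eB, (red_sA hn.rz).2, (red_sB hn.rz).2] at hv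
  rw [S.trace_eq, trace_of_min v hab hm, hn.eA, hn.eB, (red_sA hn.rz).2, (red_sB hn.rz).2]
  have h := count_good n2 n3 hv
  have e : (Nat.card (S.Res v) : ℤ) + 1 - ((Nat.card v.RF : ℤ) -
      Nat.card (Sol v.RF (sA (v.red z)) (sB (v.red z)))) =
      ((Nat.card (Sol v.RF (sA (v.red z)) (sB (v.red z))) + 1 : ℕ) : ℤ) := by
    have : Nat.card (S.Res v) = Nat.card v.RF := rfl
    rw [this]
    push_cast
    ring
  rw [e]
  exact_mod_cast h

theorem semi7 (h2 : (2 : k) ≠ 0) (h3 : (3 : k) ≠ 0) (h7 : (7 : k) ≠ 0) {g : K}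
    (hΔ : 4 * sA g ^ 3 + 27 * sB g ^ 2 ≠ 0) (v : Place k K) :
    ∃ c, IsMinScale v (sA g) (sB g) c ∧
      (v.red (c ^ 4 * sA g) ≠ 0 ∨ v.red (c ^ 6 * sB g) ≠ 0) := by
  obtain ⟨n2, n3, n7⟩ := nRF7 h2 h3 h7 v
  obtain ⟨c, z, hn⟩ := exists_norm v g
  refine ⟨c, hn.min h2 h3 h7, ?_⟩
  rw [hn.eA, hn.eB, (red_sA hn.rz).2, (red_sB hn.rz).2]
  exact ne_or n2 n3 n7 _

theorem node7 (h2 : (2 : k) ≠ 0) (h3 : (3 : k) ≠ 0) (h7 : (7 : k) ≠ 0) {g : K}
    (hΔ : 4 * sA g ^ 3 + 27 * sB g ^ 2 ≠ 0) (v : Place k K) : NodeAt 7 v (sA g) (sB g) := by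
  have h6 : (6 : k) ≠ 0 := by
    have : (6 : k) = 2 * 3 := by norm_num
    rw [this]
    exact mul_ne_zero h2 h3
  intro hbad
  obtain ⟨n2, n3, n7⟩ := nRF7 h2 h3 h7 v
  have hab := ab_of_disc hΔ
  obtain ⟨c, z, hn⟩ := exists_norm v g
  have hm := hn.min h2 h3 h7
  have hdz := ord_disc_zero_iff hΔ hm
  rw [hn.eA, hn.eB, (red_sA hn.rz).2, (red_sB hn.rz).2] at hdz
  have hS : SemiAt v (sA g) (sB g) := by
    obtain ⟨c', hc', h0⟩ := semi7 h2 h3 h7 hΔ v
    exact semiAt_of h3 hΔ hc' h0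
  have hpm := Pool.Agent.R427.AQ.semi_pm h6 hΔ hS hbad
  have htr : S.trace v (sA g) (sB g) = _ := trace_of_min v hab hm
  rw [hn.eA, hn.eB, (red_sA hn.rz).2, (red_sB hn.rz).2] at htr
  have hbad' : 4 * sA (v.red z) ^ 3 + 27 * sB (v.red z) ^ 2 = 0 := by
    by_contra h
    exact hbad (hdz.2 h)
  by_cases hz0 : v.red z = 0
  · left
    have hA0 : sA (v.red z) = -27 := by rw [hz0]; unfold sA; ring
    have hB0 : sB (v.red z) = 54 := by rw [hz0]; unfold sB; ring
    rw [htr, hA0, hB0]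
    exact count_cusp n2 n3
  by_cases hz1 : v.red z - 1 = 0
  · left
    have hz1' : v.red z = 1 := sub_eq_zero.1 hz1
    have hA0 : sA (v.red z) = -27 := by rw [hz1']; unfold sA; ring
    have hB0 : sB (v.red z) = 54 := by rw [hz1']; unfold sB; ring
    rw [htr, hA0, hB0]
    exact count_cusp n2 n3
  have hA0 : sA (v.red z) ≠ 0 := by
    intro h
    rw [h, zero_pow (by norm_num), mul_zero, zero_add] at hbad'
    have h27 : (27 : v.RF) ≠ 0 := by
      have : (27 : v.RF) = 3 ^ 3 := by norm_num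
      rw [this]
      exact pow_ne_zero 3 n3
    have h5 := pow_eq_zero_iff (by norm_num) |>.1 ((mul_eq_zero.1 hbad').resolve_left h27)
    rcases ne_or n2 n3 n7 (v.red z) with h8 | h8
    · exact h8 h
    · exact h8 h5
  have h8 := seven_dvd n2 n3 hz0 hz1
  rw [← card_sol_node n2 n3 hbad' hA0] at h8
  rcases hpm with h | h
  · exact Or.inl h
  · right
    have e : (Nat.card (S.Res v) : ℤ) + 1 =
        ((Nat.card (Sol v.RF (sA (v.red z)) (sB (v.red z))) : ℕ) : ℤ) := by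
      have h9 : Nat.card (S.Res v) = Nat.card v.RF := rfl
      rw [htr] at h
      rw [h9]
      linear_combination h
    rw [e]
    exact_mod_cast h8

end loc

end Pool.Agent.R427.SV
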