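import Pool.Agent.R427.TS6

/-!
The curves `y ^ 2 + e x y + f y = x ^ 3`: extensions of the field of constants.
-/

set_option autoImplicit false
set_option linter.all false
set_option maxHeartbeats 4000000

open Polynomial FF
open scoped Classical

namespace Pool.Agent.R427.TS

section irr

variable {k k' : Type} [Field k] [Field k'] [Algebra k k'] [FiniteDimensional k k']

/-- irreducible polynomials over an extension of coprime degree -/
theorem irr_coprime {p : k[X]} (hp : Irreducible p)
    (hcop : Nat.Coprime p.natDegree (Module.finrank k k')) :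
    Irreducible (p.map (algebraMap k k')) := by
  have hpos := hp.natDegree_pos
  have hmd : (p.map (algebraMap k k')).natDegree = p.natDegree := natDegree_map _
  have hmne : p.map (algebraMap k k') ≠ 0 := (Polynomial.map_ne_zero_iff (algebraMap k k').injective).2 hp.ne_zero
  have hnu : ¬ IsUnit (p.map (algebraMap k k')) := by
    intro h
    have := natDegree_eq_zero_of_isUnit h
    omega
  obtain ⟨q, hq, hqd⟩ := WfDvdMonoid.exists_irreducible_factor hnu hmne
  haveI : Fact (Irreducible q) := ⟨hq⟩
  let E := AdjoinRoot q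
  haveI : IsScalarTower k k' E := inferInstance
  haveI : FiniteDimensional k' E := (AdjoinRoot.powerBasis hq.ne_zero).finite
  haveI : FiniteDimensional k E := FiniteDimensional.trans k k' E
  set α : E := AdjoinRoot.root q with hα
  have h1 : aeval α p = 0 := by
    have h2 : aeval α (p.map (algebraMap k k')) = 0 := by
      obtain ⟨t, ht⟩ := hqd
      rw [ht, map_mul]
      have h3 : aeval α q = 0 := by
        rw [hα, AdjoinRoot.aeval_eq, AdjoinRoot.mk_self]
      rw [h3, zero_mul]
    rwa [aeval_map_algebraMap] at h2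
  have hint : IsIntegral k α := Algebra.IsIntegral.isIntegral α
  have hmin : (minpoly k α).natDegree = p.natDegree := by
    have h2 := minpoly.dvd k α h1
    have h3 := (minpoly.irreducible hint).associated_of_dvd hp h2
    exact natDegree_eq_of_degree_eq (degree_eq_degree_of_associated h3)
  have h4 : Module.finrank k (IntermediateField.adjoin k {α}) = p.natDegree := by
    rw [IntermediateField.adjoin.finrank hint, hmin]
  have h5 : p.natDegree ∣ Module.finrank k E := by
    rw [← h4, ← Module.finrank_mul_finrank k (IntermediateField.adjoin k {α}) E]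
    exact dvd_mul_right _ _
  have h6 : Module.finrank k' E = q.natDegree := by
    rw [(AdjoinRoot.powerBasis hq.ne_zero).finrank, AdjoinRoot.powerBasis_dim]
  rw [← Module.finrank_mul_finrank k k' E, h6] at h5
  have h7 : p.natDegree ∣ q.natDegree := hcop.dvd_of_dvd_mul_left h5
  have h8 := natDegree_le_of_dvd hqd hmne
  have h9 := Nat.le_of_dvd hq.natDegree_pos h7
  rw [hmd] at h8
  have h10 : q.natDegree = (p.map (algebraMap k k')).natDegree := by rw [hmd]; omega
  exact (associated_of_dvd_of_natDegree_le hqd hmne (by rw [h10])).irreducible hq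

theorem map_fac (g : k[X]) : g ≠ 0 →
    (∀ π : k[X], Irreducible π → π ∣ g → Irreducible (π.map (algebraMap k k'))) →
    ∀ ρ : k'[X], Irreducible ρ → ρ ∣ g.map (algebraMap k k') →
      ∃ π : k[X], Irreducible π ∧ π ∣ g ∧ Associated ρ (π.map (algebraMap k k')) := by
  induction g using UniqueFactorizationMonoid.induction_on_prime with
  | h₁ => exact fun h => absurd rfl h
  | h₂ x hx =>
    intro _ _ ρ hρ hd
    exact absurd (isUnit_of_dvd_unit hd (hx.map (mapRingHom (algebraMap k k')))) hρ.not_isUnit
  | h₃ a p ha hp ih =>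
    intro h0 h ρ hρ hd
    rw [Polynomial.map_mul] at hd
    have hi := h p hp.irreducible (dvd_mul_right _ _)
    rcases hρ.prime.dvd_or_dvd hd with h1 | h1
    · exact ⟨p, hp.irreducible, dvd_mul_right _ _, hρ.associated_of_dvd hi h1⟩
    · obtain ⟨π, h2, h3, h4⟩ := ih ha (fun π h1 h2 => h π h1 (h2.mul_left p)) ρ hρ h1
      exact ⟨π, h2, h3.mul_left p, h4⟩

/-- triples over the extension -/
theorem Tri.mapK {p q r : k[X]} (h : Tri p q r) (h3 : (3 : k) ≠ 0)
    (hcop : ∀ π : k[X], Irreducible π →
      π ∣ p * q * r * ((p - q - r) ^ 3 - 27 * (p * q * r)) →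
        Nat.Coprime π.natDegree (Module.finrank k k')) :
    Tri (p.map (algebraMap k k')) (q.map (algebraMap k k')) (r.map (algebraMap k k')) := by
  set φ := algebraMap k k' with hφ
  have hirr : ∀ π : k[X], Irreducible π →
      π ∣ p * q * r * ((p - q - r) ^ 3 - 27 * (p * q * r)) → Irreducible (π.map φ) :=
    fun π h1 h2 => irr_coprime h1 (hcop π h1 h2)
  have hf : p.map φ * q.map φ * r.map φ = (p * q * r).map φ := by
    rw [Polynomial.map_mul, Polynomial.map_mul]
  have he : p.map φ - q.map φ - r.map φ = (p - q - r).map φ := by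
    rw [Polynomial.map_sub, Polynomial.map_sub]
  have dvp : p ∣ p * q * r * ((p - q - r) ^ 3 - 27 * (p * q * r)) :=
    dvd_mul_of_dvd_left (dvd_mul_of_dvd_left (dvd_mul_right p q) r) _
  have dvq : q ∣ p * q * r * ((p - q - r) ^ 3 - 27 * (p * q * r)) :=
    dvd_mul_of_dvd_left (dvd_mul_of_dvd_left (dvd_mul_left q p) r) _
  have dvr : r ∣ p * q * r * ((p - q - r) ^ 3 - 27 * (p * q * r)) :=
    dvd_mul_of_dvd_left (dvd_mul_left r _) _
  have hna : ∀ {a b : k[X]}, Irreducible a → Irreducible b → ¬ Associated a b →
      ¬ Associated (a.map φ) (b.map φ) := by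
    intro a b ha hb hab hh
    exact hab (ha.associated_of_dvd hb ((Polynomial.map_dvd_map' φ).1 hh.dvd))
  refine ⟨hirr p h.ip dvp, hirr q h.iq dvq, hirr r h.ir dvr, hna h.ip h.iq h.npq,
    hna h.ip h.ir h.npr, hna h.iq h.ir h.nqr, ?_, ?_, ?_, ?_, ?_, ?_⟩
  · rw [natDegree_map]
    exact h.dp
  · rw [natDegree_map]
    exact h.dq
  · rw [natDegree_map]
    exact h.dr
  · rw [hf, natDegree_map]
    exact h.d3
  · rw [hf, he, natDegree_map, natDegree_map]
    exact h.de
  · intro ρ hρ hd
    have e1 : (p.map φ - q.map φ - r.map φ) ^ 3 - 27 * (p.map φ * q.map φ * r.map φ) =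
        ((p - q - r) ^ 3 - 27 * (p * q * r)).map φ := by
      simp only [Polynomial.map_sub, Polynomial.map_pow, Polynomial.map_mul, Polynomial.map_ofNat]
    rw [e1] at hd
    obtain ⟨π, h1, h2, h4⟩ := map_fac _ (h.node_ne h3)
      (fun π h5 h6 => hirr π h5 (h6.mul_left _)) ρ hρ hd
    rw [natDegree_eq_of_degree_eq (degree_eq_degree_of_associated h4), natDegree_map]
    exact h.odd π h1 h2

end irr

end Pool.Agent.R427.TS
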