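import Pool.Agent.R427.TS9
import Pool.Agent.R427.TS7

/-!
The curves `y ^ 2 + e x y + f y = x ^ 3` with two independent points: polynomials.
-/

set_option autoImplicit false
set_option linter.all false
set_option maxHeartbeats 4000000

open Polynomial FF
open scoped Classical

namespace Pool.Agent.R427.TS

open Pool.Agent.W343.BSD Pool.Agent.H525R3.FFp
open Pool.Agent.W313.Gr (curve PointsDvd weight weightSum rootSum rank rank_mono)
open Pool.Agent.TH639.B3 (IsT3 Sc)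
open Pool.Agent.W309.RF
open Pool.Agent.R427.FT (wSum wSum_irr wSum_comp wSum_pole wSum_mono wSum_mul_le)

/-- two decompositions -/
structure Quad {k : Type} [Field k] (p q r s : k[X]) (a b c : k) : Prop where
  ip : Irreducible p
  iq : Irreducible q
  ir : Irreducible r
  is : Irreducible s
  npq : ¬ Associated p q
  npr : ¬ Associated p r
  nqr : ¬ Associated q r
  nsp : ¬ Associated s p
  nsq : ¬ Associated s q
  nsr : ¬ Associated s r
  habc : a * b * c = 1
  hrel : C (1 - a) * s = p * q + r ^ 2 - C b * (p * r) - C c * (q * r)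

/-- the conditions for the degrees -/
structure QuadD {k : Type} [Field k] (p q r s : k[X]) (a b c : k) : Prop where
  h : Quad p q r s a b c
  dp : ¬ 3 ∣ p.natDegree
  dq : ¬ 3 ∣ q.natDegree
  dr : ¬ 3 ∣ r.natDegree
  ds : ¬ 3 ∣ s.natDegree
  d3 : 3 ∣ (s * (p * q) * r ^ 2).natDegree
  de : 3 * (s - p * q - r ^ 2).natDegree ≤ (s * (p * q) * r ^ 2).natDegree
  odd : ∀ π : k[X], Irreducible π → π ∣ (s - p * q - r ^ 2) ^ 3 - 27 * (s * (p * q) * r ^ 2) →
    Odd π.natDegree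

section poly

variable {k : Type} [Field k] {p q r s : k[X]} {a b c : k}

theorem Quad.a_ne (h : Quad p q r s a b c) : a ≠ 0 := by
  rintro rfl
  have := h.habc
  rw [zero_mul, zero_mul] at this
  exact zero_ne_one this

theorem Quad.f_ne (h : Quad p q r s a b c) : s * (p * q) * r ^ 2 ≠ 0 :=
  mul_ne_zero (mul_ne_zero h.is.ne_zero (mul_ne_zero h.ip.ne_zero h.iq.ne_zero))
    (pow_ne_zero 2 h.ir.ne_zero)

theorem Quad.not_cube (h : Quad p q r s a b c) {z : k} (hz : z ≠ 0) (e : k[X]) :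
    e ^ 3 ≠ C z * (s * (p * q) * r ^ 2) := by
  intro h0
  have h1 : s ∣ e ^ 3 := by
    rw [h0]
    exact dvd_mul_of_dvd_right (dvd_mul_of_dvd_left (dvd_mul_right s _) _) _
  obtain ⟨t, ht⟩ := h.is.prime.dvd_of_dvd_pow h1
  have h3 : s ^ 2 * t ^ 3 = C z * ((p * q) * r ^ 2) := by
    have : s * (s ^ 2 * t ^ 3) = s * (C z * ((p * q) * r ^ 2)) := by
      rw [ht] at h0
      linear_combination h0
    exact mul_left_cancel₀ h.is.ne_zero this
  have h4 : s ∣ C z * ((p * q) * r ^ 2) := by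
    rw [← h3]
    exact dvd_mul_of_dvd_left (dvd_pow_self s two_ne_zero) _
  rcases h.is.prime.dvd_or_dvd h4 with h5 | h5
  · exact h.is.not_isUnit (isUnit_of_dvd_unit h5 (isUnit_C.2 (isUnit_iff_ne_zero.2 hz)))
  · rcases h.is.prime.dvd_or_dvd h5 with h6 | h6
    · rcases h.is.prime.dvd_or_dvd h6 with h7 | h7
      · exact h.nsp (h.is.associated_of_dvd h.ip h7)
      · exact h.nsq (h.is.associated_of_dvd h.iq h7)
    · exact h.nsr (h.is.associated_of_dvd h.ir (h.is.prime.dvd_of_dvd_pow h6))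

theorem Quad.node_ne (h3 : (3 : k) ≠ 0) (h : Quad p q r s a b c) :
    (s - p * q - r ^ 2) ^ 3 - 27 * (s * (p * q) * r ^ 2) ≠ 0 := by
  intro h0
  have h27 : (27 : k) ≠ 0 := by
    have : (27 : k) = 3 ^ 3 := by norm_num
    rw [this]
    exact pow_ne_zero 3 h3
  apply h.not_cube h27 (s - p * q - r ^ 2)
  rw [show (C 27 : k[X]) = 27 from rfl]
  linear_combination h0

theorem Quad.r_ndvd (h : Quad p q r s a b c) : ¬ r ∣ s - p * q - r ^ 2 := by
  rintro ⟨t, ht⟩
  have e2 : (C (1 - a) : k[X]) = 1 - C a := by rw [C_sub, C_1]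
  have h1 : r ∣ C a * (p * q) := by
    refine ⟨-(r - C b * p - C c * q) + C (1 - a) * (r + t), ?_⟩
    linear_combination (-1 : k[X]) * h.hrel + C (1 - a) * ht + (p * q) * e2
  rcases h.ir.prime.dvd_or_dvd h1 with h4 | h4
  · exact h.ir.not_isUnit (isUnit_of_dvd_unit h4 (isUnit_C.2 (isUnit_iff_ne_zero.2 h.a_ne)))
  · rcases h.ir.prime.dvd_or_dvd h4 with h5 | h5
    · exact h.npr (h.ir.associated_of_dvd h.ip h5).symm
    · exact h.nqr (h.ir.associated_of_dvd h.iq h5).symm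

/-- the `j`-invariant is not constant -/
theorem Quad.noniso (h2 : (2 : k) ≠ 0) (h3 : (3 : k) ≠ 0) (h : Quad p q r s a b c) (z : k) :
    6912 * sA (s - p * q - r ^ 2) (s * (p * q) * r ^ 2) ^ 3 ≠
      C z * (4 * sA (s - p * q - r ^ 2) (s * (p * q) * r ^ 2) ^ 3 +
        27 * sB (s - p * q - r ^ 2) (s * (p * q) * r ^ 2) ^ 2) := by
  intro h0
  have hnd := h.r_ndvd
  set e := s - p * q - r ^ 2 with he
  set f := s * (p * q) * r ^ 2 with hf
  have hbig : (2 ^ 8 * 3 ^ 12 : k[X]) ≠ 0 := by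
    have e1 : (2 ^ 8 * 3 ^ 12 : k[X]) = C (2 ^ 8 * 3 ^ 12) := by
      rw [C_mul, C_pow, C_pow]
      rfl
    rw [e1, Ne, C_eq_zero]
    exact mul_ne_zero (pow_ne_zero _ h2) (pow_ne_zero _ h3)
  have h1 : e ^ 3 * (e ^ 3 - 24 * f) ^ 3 = C z * (f ^ 3 * (e ^ 3 - 27 * f)) := by
    rw [s_disc] at h0
    unfold sA at h0
    have e1 : (2 ^ 8 * 3 ^ 12 : k[X]) * (e ^ 3 * (e ^ 3 - 24 * f) ^ 3) =
        2 ^ 8 * 3 ^ 12 * (C z * (f ^ 3 * (e ^ 3 - 27 * f))) := by
      linear_combination -h0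
    exact mul_left_cancel₀ hbig e1
  have hpf : r ∣ f := by rw [hf]; exact dvd_mul_of_dvd_right (dvd_pow_self r two_ne_zero) _
  apply hnd
  have h5 : r ∣ e ^ 3 * (e ^ 3 - 24 * f) ^ 3 := by
    rw [h1]
    exact dvd_mul_of_dvd_right (dvd_mul_of_dvd_left (dvd_pow hpf (by norm_num)) _) _
  rcases h.ir.prime.dvd_or_dvd h5 with h6 | h6
  · exact h.ir.prime.dvd_of_dvd_pow h6
  · have h7 := h.ir.prime.dvd_of_dvd_pow h6
    have h8 : r ∣ e ^ 3 := by
      have e1 : e ^ 3 = (e ^ 3 - 24 * f) + 24 * f := by ring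
      rw [e1]
      exact dvd_add h7 (hpf.mul_left 24)
    exact h.ir.prime.dvd_of_dvd_pow h8

theorem fg_comp (p q r s m : k[X]) :
    (s.comp m) * (p.comp m * q.comp m) * (r.comp m) ^ 2 = (s * (p * q) * r ^ 2).comp m ∧
    s.comp m - p.comp m * q.comp m - (r.comp m) ^ 2 = (s - p * q - r ^ 2).comp m := by
  constructor
  · rw [mul_comp, mul_comp, mul_comp, pow_comp]
  · rw [sub_comp, sub_comp, mul_comp, pow_comp]

/-- substitution -/
theorem QuadD.comp (h : QuadD p q r s a b c) {m : k[X]} (hm : Odd m.natDegree)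
    (hm3 : ¬ 3 ∣ m.natDegree) (h3 : (3 : k) ≠ 0)
    (hirr : ∀ π : k[X], Irreducible π →
      π ∣ s * (p * q) * r ^ 2 * ((s - p * q - r ^ 2) ^ 3 - 27 * (s * (p * q) * r ^ 2)) →
        Irreducible (π.comp m)) :
    QuadD (p.comp m) (q.comp m) (r.comp m) (s.comp m) a b c := by
  have hmp : 0 < m.natDegree := hm.pos
  obtain ⟨hf, he⟩ := fg_comp p q r s m
  have c3 : ∀ n : ℕ, ¬ 3 ∣ n → ¬ 3 ∣ n * m.natDegree := fun n hn hd =>
    ((Nat.Prime.dvd_mul Nat.prime_three).1 hd).elim hn hm3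
  have H := h.h
  refine ⟨⟨hirr p H.ip ?_, hirr q H.iq ?_, hirr r H.ir ?_, hirr s H.is ?_,
    fun ha => H.npq (assoc_comp hmp ha), fun ha => H.npr (assoc_comp hmp ha),
    fun ha => H.nqr (assoc_comp hmp ha), fun ha => H.nsp (assoc_comp hmp ha),
    fun ha => H.nsq (assoc_comp hmp ha), fun ha => H.nsr (assoc_comp hmp ha), H.habc, ?_⟩,
    ?_, ?_, ?_, ?_, ?_, ?_, ?_⟩
  · exact dvd_mul_of_dvd_left (dvd_mul_of_dvd_left (dvd_mul_of_dvd_right (dvd_mul_right p q) s) _) _
  · exact dvd_mul_of_dvd_left (dvd_mul_of_dvd_left (dvd_mul_of_dvd_right (dvd_mul_left q p) s) _) _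
  · exact dvd_mul_of_dvd_left (dvd_mul_of_dvd_right (dvd_pow_self r two_ne_zero) _) _
  · exact dvd_mul_of_dvd_left (dvd_mul_of_dvd_left (dvd_mul_right s _) _) _
  · have h5 := congrArg (fun g : k[X] => g.comp m) H.hrel
    simpa only [mul_comp, C_comp, sub_comp, add_comp, pow_comp] using h5
  · rw [natDegree_comp]
    exact c3 _ h.dp
  · rw [natDegree_comp]
    exact c3 _ h.dq
  · rw [natDegree_comp]
    exact c3 _ h.dr
  · rw [natDegree_comp]
    exact c3 _ h.ds
  · rw [hf, natDegree_comp]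
    exact dvd_mul_of_dvd_left h.d3 _
  · rw [hf, he, natDegree_comp, natDegree_comp, ← mul_assoc]
    exact Nat.mul_le_mul_right _ h.de
  · intro π hπ hd
    rw [hf, he] at hd
    have e1 : ((s - p * q - r ^ 2).comp m) ^ 3 - 27 * (s * (p * q) * r ^ 2).comp m =
        ((s - p * q - r ^ 2) ^ 3 - 27 * (s * (p * q) * r ^ 2)).comp m := by
      simp only [sub_comp, pow_comp, mul_comp, ofNat_comp, Nat.cast_ofNat]
    rw [e1] at hd
    obtain ⟨ρ, h1, h2, h4⟩ := comp_fac hmp _ (H.node_ne h3)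
      (fun π h5 h6 => hirr π h5 (h6.mul_left _)) π hπ hd
    rw [natDegree_eq_of_degree_eq (degree_eq_degree_of_associated h4), natDegree_comp]
    exact (h.odd ρ h1 h2).mul hm

theorem QuadD.deg_ge (h : QuadD p q r s a b c) : 5 ≤ (s * (p * q) * r ^ 2).natDegree := by
  have H := h.h
  rw [natDegree_mul (mul_ne_zero H.is.ne_zero (mul_ne_zero H.ip.ne_zero H.iq.ne_zero))
    (pow_ne_zero 2 H.ir.ne_zero), natDegree_mul H.is.ne_zero (mul_ne_zero H.ip.ne_zero H.iq.ne_zero),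
    natDegree_mul H.ip.ne_zero H.iq.ne_zero, natDegree_pow]
  have := H.ip.natDegree_pos
  have := H.iq.natDegree_pos
  have := H.ir.natDegree_pos
  have := H.is.natDegree_pos
  omega

theorem irr_trans {π : k[X]} (hπ : Irreducible π) (t : k) : Irreducible (π.comp (X + C t)) := by
  have h1 : Irreducible (algEquivAevalXAddC t π) := (MulEquiv.irreducible_iff _).2 hπ
  rwa [algEquivAevalXAddC_apply, ← comp_eq_aeval] at h1

/-- infinitely many substitutions -/
theorem QuadD.tower [Finite k] (h : QuadD p q r s a b c) (h3 : (3 : k) ≠ 0) {l : ℕ} (hl : l.Prime)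
    (hl3 : 2 * (s * (p * q) * r ^ 2).natDegree < l) (hd : l ∣ Nat.card k - 1) :
    ∃ t z : k, z ≠ 0 ∧ ∀ j : ℕ, QuadD (p.comp (C t + C z * X ^ l ^ j)) (q.comp (C t + C z * X ^ l ^ j))
      (r.comp (C t + C z * X ^ l ^ j)) (s.comp (C t + C z * X ^ l ^ j)) a b c := by
  have H := h.h
  have h5 := h.deg_ge
  set G : k[X] := s * (p * q) * r ^ 2 *
    ((s - p * q - r ^ 2) ^ 3 - 27 * (s * (p * q) * r ^ 2)) with hG
  have hG0 : G ≠ 0 := mul_ne_zero H.f_ne (H.node_ne h3)
  have hGd : G.natDegree ≤ 2 * (s * (p * q) * r ^ 2).natDegree := by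
    have h5 := natDegree_mul_le (p := s * (p * q) * r ^ 2)
      (q := (s - p * q - r ^ 2) ^ 3 - 27 * (s * (p * q) * r ^ 2))
    have h6 := natDegree_sub_le ((s - p * q - r ^ 2) ^ 3) (27 * (s * (p * q) * r ^ 2))
    have h7 : ((s - p * q - r ^ 2) ^ 3).natDegree = 3 * (s - p * q - r ^ 2).natDegree :=
      natDegree_pow _ _
    have h8 : (27 * (s * (p * q) * r ^ 2) : k[X]).natDegree ≤ (s * (p * q) * r ^ 2).natDegree :=
      natDegree_C_mul_le (27 : k) _
    have h9 := h.de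
    rw [hG]
    rw [le_max_iff] at h6
    omega
  obtain ⟨t, ht⟩ : ∃ t : k, G.eval t ≠ 0 := by
    by_contra hcon
    push Not at hcon
    let _ : Fintype k := Fintype.ofFinite k
    have h6 : (Finset.univ : Finset k).card ≤ G.roots.toFinset.card := by
      apply Finset.card_le_card
      intro x _
      rw [Multiset.mem_toFinset, mem_roots hG0]
      exact hcon x
    have h7 := Multiset.toFinset_card_le G.roots
    have h8 := G.card_roots'
    rw [Finset.card_univ, ← Nat.card_eq_fintype_card] at h6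
    have h9 : 1 < Nat.card k := Finite.one_lt_card
    have h10 := Nat.le_of_dvd (by omega) hd
    omega
  set G' : k[X] := G.comp (X + C t) with hG'
  have hG'0 : G'.coeff 0 ≠ 0 := by
    rw [hG', coeff_zero_eq_eval_zero, eval_comp, eval_add, eval_X, eval_C, zero_add]
    exact ht
  have hG'd : G'.natDegree = G.natDegree := by
    rw [hG', natDegree_comp, natDegree_X_add_C, mul_one]
  obtain ⟨z, hz, hirr⟩ := TH180.R4.exists_c hG'0 hl (by omega) (by omega) hd
  refine ⟨t, z, hz, fun j => ?_⟩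
  have hcc : ∀ π : k[X], π.comp (C t + C z * X ^ l ^ j) = (π.comp (X + C t)).comp (C z * X ^ l ^ j) := by
    intro π
    rw [comp_assoc, add_comp, X_comp, C_comp, add_comm]
  have hmd : (C t + C z * X ^ l ^ j : k[X]).natDegree = l ^ j := by
    rw [natDegree_C_add]
    exact natDegree_C_mul_X_pow _ _ hz
  refine h.comp ?_ ?_ h3 fun π h6 h7 => ?_
  · rw [hmd]
    exact (hl.odd_of_ne_two (by omega)).pow
  · rw [hmd]
    intro hd3
    have h5 := (Nat.prime_dvd_prime_iff_eq Nat.prime_three hl).1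
      (Nat.prime_three.dvd_of_dvd_pow hd3)
    omega
  · rw [hcc]
    apply hirr j _ (irr_trans h6 t)
    obtain ⟨u, hu⟩ := h7
    refine ⟨u.comp (X + C t), ?_⟩
    rw [hG', ← mul_comp]
    congr 1

end poly

section gen

variable {k K : Type} [Field k] [Finite k] [Field K] [Algebra k K] [FF.IsFF k K]
  {p q r s : k[X]} {a b c : k}

theorem Quad.noniso_K (h2 : (2 : k) ≠ 0) (h3 : (3 : k) ≠ 0) (h : Quad p q r s a b c) {x : K}
    (hx : Transcendental k x) (z : k) :
    6912 * sA (aeval x (s - p * q - r ^ 2)) (aeval x (s * (p * q) * r ^ 2)) ^ 3 ≠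
      algebraMap k K z *
        (4 * sA (aeval x (s - p * q - r ^ 2)) (aeval x (s * (p * q) * r ^ 2)) ^ 3 +
        27 * sB (aeval x (s - p * q - r ^ 2)) (aeval x (s * (p * q) * r ^ 2)) ^ 2) := by
  intro h0
  set e := s - p * q - r ^ 2 with he
  set f := s * (p * q) * r ^ 2 with hf
  set P : k[X] := 6912 * sA e f ^ 3 - C z * (4 * sA e f ^ 3 + 27 * sB e f ^ 2) with hP
  have hA : aeval x (sA e f) = sA (aeval x e) (aeval x f) :=
    map_sA (aeval x : k[X] →ₐ[k] K).toRingHom _ _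
  have hB : aeval x (sB e f) = sB (aeval x e) (aeval x f) :=
    map_sB (aeval x : k[X] →ₐ[k] K).toRingHom _ _
  have h1 : aeval x P = 0 := by
    have e1 : aeval x P = 6912 * aeval x (sA e f) ^ 3 -
        algebraMap k K z * (4 * aeval x (sA e f) ^ 3 + 27 * aeval x (sB e f) ^ 2) := by
      rw [hP]
      simp only [map_add, map_mul, map_pow, map_sub, aeval_C, map_ofNat]
    rw [e1, hA, hB, h0, sub_self]
  have h2' : P ≠ 0 := sub_ne_zero.2 (h.noniso h2 h3 z)
  exact TH180.R4.aeval_ne hx h2' h1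

theorem Quad.rank_pull (h2 : (2 : k) ≠ 0) (h3 : (3 : k) ≠ 0) (h : Quad p q r s a b c)
    (hns : (∀ z : RatFunc k, z ^ 2 ≠ -3) ∨
      ∀ z : k[X], z ^ 3 ≠ (s - p * q - r ^ 2) ^ 3 - 27 * (s * (p * q) * r ^ 2)) {x : K}
    (hx : Transcendental k x) :
    2 ≤ rank (sA (aeval x (s - p * q - r ^ 2)) (aeval x (s * (p * q) * r ^ 2)))
      (sB (aeval x (s - p * q - r ^ 2)) (aeval x (s * (p * q) * r ^ 2))) := by
  obtain ⟨Φ, hX⟩ := TH180.R4.exists_lift hx
  letI : Algebra (RatFunc k) K := Φ.toRingHom.toAlgebra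
  have hΦa : ∀ x : RatFunc k, algebraMap (RatFunc k) K x = Φ x := fun _ => rfl
  have hΦp : ∀ g : k[X], Φ (algebraMap k[X] (RatFunc k) g) = aeval x g := by
    intro g
    have e1 : algebraMap k[X] (RatFunc k) g = aeval (RatFunc.X : RatFunc k) g := by
      rw [← RatFunc.algebraMap_X, aeval_algebraMap_apply, aeval_X_left_apply]
    rw [e1, ← hX]
    exact (aeval_algHom_apply Φ RatFunc.X g).symm
  have h1 := rank_mono (K' := K) (sA (algebraMap k[X] (RatFunc k) (s - p * q - r ^ 2))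
        (algebraMap k[X] (RatFunc k) (s * (p * q) * r ^ 2)))
      (sB (algebraMap k[X] (RatFunc k) (s - p * q - r ^ 2))
        (algebraMap k[X] (RatFunc k) (s * (p * q) * r ^ 2)))
  rw [map_sA, map_sB, hΦa, hΦa, hΦp, hΦp] at h1
  exact (rank_two_base h2 h3 hns h.ip h.iq h.ir h.is h.npq h.npr h.nqr h.nsp h.nsq h.nsr h.habc
    h.hrel).trans h1

theorem wSum_pow_le (φ : ℕ → ℕ) {g : K} (hg : g ≠ 0) (n : ℕ) :
    wSum k φ (g ^ n) ≤ wSum k φ g := by
  unfold wSum
  refine finsum_le_finsum' (TH180.R2.supp_finite (k := k) _ _) (TH180.R2.supp_finite (k := k) _ _) ?_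
  intro v
  dsimp only
  rw [v.ord_pow]
  generalize φ (S.deg v) = w
  by_cases h : 0 < v.ord g
  · rw [if_pos h]
    split_ifs <;> omega
  · rw [if_neg h, if_neg]
    intro h5
    apply h
    by_contra h6
    have h7 : v.ord g ≤ 0 := not_lt.1 h6
    have h8 : (n : ℤ) * v.ord g ≤ 0 := mul_nonpos_of_nonneg_of_nonpos (by positivity) h7
    omega

end gen

section rat

variable {k : Type} [Field k] [Finite k] {p q r s : k[X]} {a b c : k}

theorem QuadD.sum (h : QuadD p q r s a b c) : wSum k f3 (A (s * (p * q) * r ^ 2)) ≤ 4 := by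
  have hK : IsCurveField k (RatFunc k) := Pool.Agent.TH958.T4.isCurveField_rat
  haveI : FF.IsFF k (RatFunc k) := ⟨hK.essFiniteType, hK.trdeg_eq_one⟩
  have H := h.h
  have one : ∀ π : k[X], Irreducible π → ¬ 3 ∣ π.natDegree → wSum k f3 (A π) ≤ 1 := by
    intro π hπ hd
    have h1 := wSum_irr f3 hπ
    have h2 : f3 π.natDegree = 1 := by
      unfold f3
      rw [padicValNat.eq_zero_of_not_dvd hd, pow_zero]
    omega
  have e1 : A (s * (p * q) * r ^ 2) = A s * (A p * A q) * A r ^ 2 := by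
    show algebraMap _ _ _ = _
    rw [map_mul, map_mul, map_mul, map_pow]
  rw [e1]
  have h1 := wSum_mul_le (k := k) f3
    (mul_ne_zero (A_ne H.is.ne_zero) (mul_ne_zero (A_ne H.ip.ne_zero) (A_ne H.iq.ne_zero)))
    (pow_ne_zero 2 (A_ne H.ir.ne_zero))
  have h2 := wSum_mul_le (k := k) f3 (A_ne H.is.ne_zero)
    (mul_ne_zero (A_ne H.ip.ne_zero) (A_ne H.iq.ne_zero))
  have h2' := wSum_mul_le (k := k) f3 (A_ne H.ip.ne_zero) (A_ne H.iq.ne_zero)
  have h3 := one p H.ip h.dp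
  have h4 := one q H.iq h.dq
  have h5 := one r H.ir h.dr
  have h6 := one s H.is h.ds
  have h7 := wSum_pow_le (k := k) f3 (A_ne H.ir.ne_zero) 2
  omega

end rat

end Pool.Agent.R427.TS
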