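import Pool.Agent.R427.TS10

/-!
The curves `y ^ 2 + e x y + f y = x ^ 3` with two independent points: an example.
-/

set_option autoImplicit false
set_option linter.all false
set_option maxHeartbeats 4000000

open Polynomial FF
open scoped Classical

namespace Pool.Agent.R427.TS

section explicit

variable {k : Type} [Field k] [Finite k]

theorem M_e : (C (-64) * X ^ 2 + C 70 * X + C (-1) : k[X]) - (1 + C 64 * X) * (1 + C 1 * X) -
    (1 + C (-8) * X) ^ 2 = C (-192) * X ^ 2 + C 21 * X + C (-3) := by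
  simp only [C_neg, C_1, map_ofNat]
  ring

theorem M_g : ((C (-64) * X ^ 2 + C 70 * X + C (-1) : k[X]) - (1 + C 64 * X) * (1 + C 1 * X) -
    (1 + C (-8) * X) ^ 2) ^ 3 - 27 * ((C (-64) * X ^ 2 + C 70 * X + C (-1) : k[X]) *
      ((1 + C 64 * X) * (1 + C 1 * X)) * (1 + C (-8) * X) ^ 2) =
    C (-3 ^ 8) * (X ^ 2 * (1216 * X ^ 2 - 301 * X + 19)) := by
  simp only [C_neg, C_1, map_ofNat, C_pow]
  ring

theorem QuadD.explicit (h2 : (2 : k) ≠ 0) (h3 : (3 : k) ≠ 0) (h7 : (7 : k) ≠ 0) (h19 : (19 : k) ≠ 0)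
    {w : k} (hw : w ^ 2 = -15) (h129 : ∀ z : k, z ^ 2 ≠ 129) :
    QuadD (1 + C 64 * X) (1 + C 1 * X) (1 + C (-8) * X)
      (C (-64) * X ^ 2 + C 70 * X + C (-1) : k[X]) (-(2⁻¹)) (-(2⁻¹)) 4 := by
  have h64 : (64 : k) ≠ 0 := by
    have : (64 : k) = 2 ^ 6 := by norm_num
    rw [this]
    exact pow_ne_zero _ h2
  have hn64 : (-64 : k) ≠ 0 := neg_ne_zero.2 h64
  have h8 : (-8 : k) ≠ 0 := by
    have : (-8 : k) = -(2 ^ 3) := by norm_num
    rw [this]
    exact neg_ne_zero.2 (pow_ne_zero _ h2)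
  have h6 : (6 : k) ≠ 0 := by
    have : (6 : k) = 2 * 3 := by norm_num
    rw [this]
    exact mul_ne_zero h2 h3
  obtain ⟨i1, d1⟩ := lin_facts h64
  obtain ⟨i2, d2⟩ := lin_facts (one_ne_zero (α := k))
  obtain ⟨i3, d3⟩ := lin_facts h8
  have ds : (C (-64) * X ^ 2 + C 70 * X + C (-1) : k[X]).natDegree = 2 := natDegree_quadratic hn64
  have is : Irreducible (C (-64) * X ^ 2 + C 70 * X + C (-1) : k[X]) := by
    apply irreducible_of_degree_le_three_of_not_isRoot
    · rw [ds]
      decide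
    · intro x hx
      rw [IsRoot.def] at hx
      simp only [eval_add, eval_mul, eval_C, eval_pow, eval_X] at hx
      apply h129 ((128 * x - 70) / 6)
      rw [div_pow, div_eq_iff (pow_ne_zero 2 h6)]
      linear_combination (-256 : k) * hx
  have hXd : 0 < (X : k[X]).natDegree := by rw [natDegree_X]; exact one_pos
  have hdeg : ∀ {u v : k[X]}, u.natDegree = 2 → v.natDegree = 1 → ¬ Associated u v := by
    intro u v hu hv ha
    have := natDegree_eq_of_degree_eq (degree_eq_degree_of_associated ha)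
    omega
  have hF : ((C (-64) * X ^ 2 + C 70 * X + C (-1) : k[X]) *
      ((1 + C 64 * X) * (1 + C 1 * X)) * (1 + C (-8) * X) ^ 2).natDegree = 6 := by
    rw [natDegree_mul (mul_ne_zero is.ne_zero (mul_ne_zero i1.ne_zero i2.ne_zero))
      (pow_ne_zero 2 i3.ne_zero), natDegree_mul is.ne_zero (mul_ne_zero i1.ne_zero i2.ne_zero),
      natDegree_mul i1.ne_zero i2.ne_zero, natDegree_pow, ds, d1, d2, d3]
  refine ⟨⟨i1, i2, i3, is, ?_, ?_, ?_, hdeg ds d1, hdeg ds d2, hdeg ds d3, ?_, ?_⟩,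
    ?_, ?_, ?_, ?_, ?_, ?_, ?_⟩
  · intro ha
    have h5 := lin_assoc hXd coeff_X_zero ha
    have h9 : (7 : k) * 3 ^ 2 = 0 := by linear_combination h5
    exact (mul_ne_zero h7 (pow_ne_zero 2 h3)) h9
  · intro ha
    have h5 := lin_assoc hXd coeff_X_zero ha
    have h9 : (2 : k) ^ 3 * 3 ^ 2 = 0 := by linear_combination h5
    exact (mul_ne_zero (pow_ne_zero 3 h2) (pow_ne_zero 2 h3)) h9
  · intro ha
    have h5 := lin_assoc hXd coeff_X_zero ha
    have h9 : (3 : k) ^ 2 = 0 := by linear_combination h5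
    exact (pow_ne_zero 2 h3) h9
  · field_simp
    norm_num
  · have e1 : (C (2⁻¹ : k) : k[X]) * 2 = 1 := by
      rw [show (2 : k[X]) = C 2 from rfl, ← C_mul, inv_mul_cancel₀ h2, C_1]
    simp only [C_neg, C_1, map_ofNat, C_sub]
    linear_combination (-((-64 * X ^ 2 + 70 * X + -1) - (1 + 64 * X) * (1 + X) - (1 + -8 * X) ^ 2 +
      4 * ((1 + X) * (1 + -8 * X)) : k[X])) * e1
  · rw [d1]; decide
  · rw [d2]; decide
  · rw [d3]; decide
  · rw [ds]; decide
  · rw [hF]; decide
  · rw [hF, M_e]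
    have := natDegree_quadratic_le (a := (-192 : k)) (b := 21) (c := -3)
    omega
  · intro π hπ hd
    rw [M_g] at hd
    have h38 : (-3 ^ 8 : k) ≠ 0 := neg_ne_zero.2 (pow_ne_zero 8 h3)
    rcases hπ.prime.dvd_or_dvd hd with h5 | h5
    · exact absurd (isUnit_of_dvd_unit h5 (isUnit_C.2 (isUnit_iff_ne_zero.2 h38))) hπ.not_isUnit
    rcases hπ.prime.dvd_or_dvd h5 with h5 | h5
    · have h6 := hπ.prime.dvd_of_dvd_pow h5
      have h7 := hπ.associated_of_dvd irreducible_X h6
      rw [natDegree_eq_of_degree_eq (degree_eq_degree_of_associated h7), natDegree_X]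
      exact odd_one
    · have h2432 : (2432 : k) ≠ 0 := by
        have : (2432 : k) = 2 ^ 7 * 19 := by norm_num
        rw [this]
        exact mul_ne_zero (pow_ne_zero 7 h2) h19
      have hlin : ∀ z : k, (C 2432 * X + C z : k[X]).natDegree = 1 ∧
          Irreducible (C 2432 * X + C z : k[X]) := by
        intro z
        have h1 : (C 2432 * X + C z : k[X]).natDegree = 1 := natDegree_linear h2432
        exact ⟨h1, irreducible_of_degree_eq_one (degree_eq_iff_natDegree_eq_of_pos one_pos |>.2 h1)⟩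
      have h6 : π ∣ (C 2432 * X + C (-301 - 11 * w)) * (C 2432 * X + C (-301 + 11 * w)) := by
        have e1 : (C 2432 * X + C (-301 - 11 * w)) * (C 2432 * X + C (-301 + 11 * w)) =
            (C 4864 * (1216 * X ^ 2 - 301 * X + 19) : k[X]) := by
          have e2 : (C w : k[X]) ^ 2 = -15 := by
            rw [← C_pow, hw, C_neg, map_ofNat]
          simp only [C_neg, C_sub, C_add, C_mul, map_ofNat]
          linear_combination (-121 : k[X]) * e2
        rw [e1]
        exact h5.mul_left _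
      rcases hπ.prime.dvd_or_dvd h6 with h7 | h7
      · have h8 := hπ.associated_of_dvd (hlin _).2 h7
        rw [natDegree_eq_of_degree_eq (degree_eq_degree_of_associated h8), (hlin _).1]
        exact odd_one
      · have h8 := hπ.associated_of_dvd (hlin _).2 h7
        rw [natDegree_eq_of_degree_eq (degree_eq_degree_of_associated h8), (hlin _).1]
        exact odd_one

end explicit

end Pool.Agent.R427.TS
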