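import Pool.Agent.R427.TS1
import Pool.Agent.R427.QR2

/-!
The curves `y ^ 2 + e x y + f y = x ^ 3`: the weights.
-/

set_option autoImplicit false
set_option linter.all false
set_option maxHeartbeats 4000000

open Polynomial FF
open scoped Classical

namespace Pool.Agent.R427.TS

open Pool.Agent.W343.BSD Pool.Agent.H525R3.FFp
open Pool.Agent.W313.Gr (curve PointsDvd weight weightSum rootSum rank)
open Pool.Agent.TH639.B3 (Sc IsT3 trace_cases)
open Pool.Agent.W309.RF
open Pool.Agent.R427.FT (wSum wSum_irr wSum_comp wSum_pole wSum_mono wSum_mul_le)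

/-- the weight -/
noncomputable def f3 (n : ℕ) : ℕ := 3 ^ padicValNat 3 n

section loc

variable {k K : Type} [Field k] [Finite k] [Field K] [Algebra k K] [FF.IsFF k K] {v : Place k K}

theorem sc {e f c : K} (hc : c ≠ 0) (he : v.Reg (c * e)) (hf : v.Reg (c ^ 3 * f)) :
    Sc v (sA e f) (sB e f) (3 * e) (108 * f) c := by
  refine ⟨isT3 e f, hc, ?_, ?_⟩
  · have e1 : c * (3 * e) = ((3 : ℕ) : K) * (c * e) := by push_cast; ring
    rw [e1]
    exact v.reg_mul (reg_nat 3) he
  · have e1 : c ^ 3 * (108 * f) = ((108 : ℕ) : K) * (c ^ 3 * f) := by push_cast; ring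
    rw [e1]
    exact v.reg_mul (reg_nat 108) hf

theorem red3 {e c : K} (he : v.Reg (c * e)) : v.red (c * (3 * e)) = 3 * v.red (c * e) := by
  have e1 : c * (3 * e) = ((3 : ℕ) : K) * (c * e) := by push_cast; ring
  rw [e1, v.red_mul (reg_nat 3) he, red_nat]
  push_cast
  rfl

theorem red108 {f c : K} (hf : v.Reg (c ^ 3 * f)) :
    v.red (c ^ 3 * (108 * f)) = 108 * v.red (c ^ 3 * f) := by
  have e1 : c ^ 3 * (108 * f) = ((108 : ℕ) : K) * (c ^ 3 * f) := by push_cast; ring
  rw [e1, v.red_mul (reg_nat 108) hf, red_nat]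
  push_cast
  rfl

theorem card_odd3 (hq : Nat.card k % 3 = 2) (hv : Odd (S.deg v)) :
    ¬ ((3 : ℕ) : ℤ) ∣ (Nat.card (S.Res v) : ℤ) - 1 := by
  rw [SC.card_Res v]
  obtain ⟨n, hn⟩ := hv
  have h1 : Nat.card k ^ S.deg v % 3 = 2 := by
    rw [hn, pow_succ, pow_mul, Nat.mul_mod, Nat.pow_mod, Nat.pow_mod (Nat.card k) 2 3, hq]
    norm_num
  omega

/-- the weight is at most `3 ^ v₃(deg)` at the places of odd degree -/
theorem weight_odd (hq : Nat.card k % 3 = 2) (hv : Odd (S.deg v)) (a b : K) :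
    weight 3 v a b ≤ f3 (S.deg v) := by
  unfold weight
  rw [if_neg (card_odd3 hq hv)]
  split_ifs
  · exact Nat.zero_le _
  · simp
  · unfold f3
    simp

/-- the fibres with a split node -/
theorem weight_split (h6 : (6 : k) ≠ 0) {e f c : K}
    (hΔ : 4 * sA e f ^ 3 + 27 * sB e f ^ 2 ≠ 0) (hc : c ≠ 0) (he : v.Reg (c * e))
    (hf : v.Reg (c ^ 3 * f)) (h1 : v.red (c ^ 3 * f) = 0) (h2 : v.red (c * e) ≠ 0) :
    weight 3 v (sA e f) (sB e f) ≤ f3 (S.deg v) := by
  have hs := sc hc he hf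
  have h3 : (3 : v.RF) ≠ 0 := TH639.B3.n3 (TH639.B3.h3_of h6) v
  have ht := hs.split h6 (ab_of_disc hΔ) (by rw [red108 hf, h1, mul_zero])
    (by rw [red3 he]; exact mul_ne_zero h3 h2)
  unfold weight f3
  rw [ht]
  split_ifs <;> simp

/-- the other fibres -/
theorem weight_zero (h6 : (6 : k) ≠ 0) (hq : Nat.card k % 3 = 2) {e f c : K}
    (hΔ : 4 * sA e f ^ 3 + 27 * sB e f ^ 2 ≠ 0) (hc : c ≠ 0) (he : v.Reg (c * e))
    (hf : v.Reg (c ^ 3 * f)) (h1 : v.red (c ^ 3 * f) ≠ 0)
    (h2 : Odd (S.deg v) ∨ v.red (c * e) ^ 3 ≠ 27 * v.red (c ^ 3 * f)) :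
    weight 3 v (sA e f) (sB e f) = 0 := by
  have hs := sc hc he hf
  have h3k := TH639.B3.h3_of h6
  have h3 : (3 : v.RF) ≠ 0 := TH639.B3.n3 h3k v
  have h2' : (2 : v.RF) ≠ 0 := TH639.B3.n2' h6 v
  have h108 : (108 : v.RF) ≠ 0 := by
    have : (108 : v.RF) = 2 ^ 2 * 3 ^ 3 := by norm_num
    rw [this]
    exact mul_ne_zero (pow_ne_zero _ h2') (pow_ne_zero _ h3)
  have hb0 : v.red (c ^ 3 * (108 * f)) ≠ 0 := by
    rw [red108 hf]
    exact mul_ne_zero h108 h1
  have hmin := hs.isMin h3k (Or.inr hb0)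
  have hab := ab_of_disc hΔ
  unfold weight
  by_cases hg : v.ord (minDisc v (sA e f) (sB e f)) = 0
  · rw [if_pos hg]
  rw [if_neg hg]
  have h5 : 4 * v.red (c * (3 * e)) ^ 3 = 27 * v.red (c ^ 3 * (108 * f)) := by
    by_contra h
    exact hg ((hs.disc h3k hΔ hmin).2 ⟨hb0, h⟩)
  have hodd : Odd (S.deg v) := by
    rcases h2 with h | h
    · exact h
    · exfalso
      apply h
      rw [red3 he, red108 hf] at h5
      have e1 : (108 : v.RF) * (v.red (c * e) ^ 3 - 27 * v.red (c ^ 3 * f)) = 0 := by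
        linear_combination h5
      exact sub_eq_zero.1 ((mul_eq_zero.1 e1).resolve_left h108)
  have hc3 := card_odd3 hq hodd
  have hn := hs.node h6 hab hmin hb0 h5
  rw [if_neg hc3, if_pos (by exact_mod_cast hn)]
  simp

end loc

section rat

variable {k : Type} [Field k] [Finite k]

theorem disc_ne (h6 : (6 : k) ≠ 0) {e f : k[X]} (hf : f ≠ 0) (hg : e ^ 3 - 27 * f ≠ 0) :
    4 * sA (A e) (A f) ^ 3 + 27 * sB (A e) (A f) ^ 2 ≠ 0 := by
  have h2 : (2 : RatFunc k) ≠ 0 := by
    have h2k : (2 : k) ≠ 0 := fun e => h6 (by linear_combination 3 * e)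
    have : algebraMap k (RatFunc k) 2 ≠ 0 := by simpa using h2k
    rwa [map_ofNat] at this
  have h3 : (3 : RatFunc k) ≠ 0 := by
    have h2k : (3 : k) ≠ 0 := fun e => h6 (by linear_combination 2 * e)
    have : algebraMap k (RatFunc k) 3 ≠ 0 := by simpa using h2k
    rwa [map_ofNat] at this
  rw [s_disc]
  have e1 : A (e ^ 3 - 27 * f) = A e ^ 3 - 27 * A f := by
    show algebraMap _ _ _ = _
    rw [map_sub, map_pow, map_mul, map_ofNat]
  rw [← e1]
  exact neg_ne_zero.2 (mul_ne_zero (mul_ne_zero (pow_ne_zero _ h2) (pow_ne_zero _ h3))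
    (mul_ne_zero (pow_ne_zero 3 (A_ne hf)) (A_ne hg)))

theorem weight_rat (h6 : (6 : k) ≠ 0) (hq : Nat.card k % 3 = 2) {e f : k[X]} {m : ℕ}
    (he : e.natDegree ≤ m) (hf : f.natDegree = 3 * m) (hf0 : f ≠ 0) (hg0 : e ^ 3 - 27 * f ≠ 0)
    (hH : ∀ π : k[X], Irreducible π → π ∣ e ^ 3 - 27 * f → Odd π.natDegree)
    (v : Place k (RatFunc k)) : weight 3 v (sA (A e) (A f)) (sB (A e) (A f)) ≤
      if 0 < v.ord (A f) then f3 (S.deg v) else 0 := by
  have hΔ := disc_ne h6 hf0 hg0
  rcases lt_or_ge (v.ord RatFunc.X) 0 with hi | hfin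
  · -- the infinite place
    have hdeg : S.deg v = 1 := by rw [S.deg_eq, inf_deg hi]
    set c : RatFunc k := (A (X ^ m))⁻¹ with hc
    have hXm : A (X ^ m : k[X]) ≠ 0 := A_ne (pow_ne_zero m X_ne_zero)
    have hc0 : c ≠ 0 := inv_ne_zero hXm
    have hco : v.ord c = m := by
      rw [hc, v.ord_inv, inf_ord' hi (pow_ne_zero m X_ne_zero), natDegree_X_pow]
      ring
    have hre : v.Reg (c * A e) := by
      by_cases h0 : e = 0
      · left
        rw [h0]
        show c * algebraMap _ _ 0 = 0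
        rw [map_zero, mul_zero]
      · right
        rw [v.ord_mul hc0 (A_ne h0), hco, inf_ord' hi h0]
        omega
    have hof : v.ord (c ^ 3 * A f) = 0 := by
      rw [v.ord_mul (pow_ne_zero 3 hc0) (A_ne hf0), v.ord_pow, hco, inf_ord' hi hf0, hf]
      push_cast
      ring
    have hrf : v.Reg (c ^ 3 * A f) := Or.inr hof.ge
    have hrn : v.red (c ^ 3 * A f) ≠ 0 :=
      v.red_ne_zero (mul_ne_zero (pow_ne_zero 3 hc0) (A_ne hf0)) hof
    rw [weight_zero h6 hq hΔ hc0 hre hrf hrn (Or.inl (by rw [hdeg]; exact odd_one))]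
    exact Nat.zero_le _
  · obtain ⟨π, hm, hirr, hord, hnn, hdvd, hdeg⟩ := fin_exists hfin
    have hdeg' : S.deg v = π.natDegree := by rw [S.deg_eq, hdeg]
    have hre : v.Reg (1 * A e) := by rw [one_mul]; exact fin_reg hfin e
    have hrf : v.Reg (1 ^ 3 * A f) := by rw [one_pow, one_mul]; exact fin_reg hfin f
    have hz : ∀ p : k[X], v.red (A p) = 0 ↔ π ∣ p := by
      intro p
      by_cases hp : p = 0
      · rw [hp]
        refine ⟨fun _ => dvd_zero _, fun _ => ?_⟩
        show v.red (algebraMap _ _ 0) = 0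
        rw [map_zero, v.red_zero]
      · rw [v.red_eq_zero_iff (fin_reg hfin p), ← hdvd p hp]
        exact ⟨fun h => h.resolve_left (A_ne hp), Or.inr⟩
    by_cases hπf : π ∣ f
    · rw [if_pos ((hdvd f hf0).2 hπf)]
      by_cases hπe : π ∣ e
      · refine weight_odd hq ?_ _ _
        rw [hdeg']
        refine hH π hirr (dvd_sub (dvd_pow hπe (by norm_num)) (hπf.mul_left 27))
      · refine weight_split h6 hΔ one_ne_zero hre hrf ?_ ?_
        · rw [one_pow, one_mul]
          exact (hz f).2 hπf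
        · rw [one_mul]
          exact fun h => hπe ((hz e).1 h)
    · rw [weight_zero h6 hq hΔ one_ne_zero hre hrf]
      · exact Nat.zero_le _
      · rw [one_pow, one_mul]
        exact fun h => hπf ((hz f).1 h)
      · by_cases hπg : π ∣ e ^ 3 - 27 * f
        · left
          rw [hdeg']
          exact hH π hirr hπg
        · right
          rw [one_mul, one_pow, one_mul]
          intro h
          apply hπg
          rw [← hz]
          have h27 : v.Reg (A (27 : k[X])) := fin_reg hfin 27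
          have e1 : A (e ^ 3 - 27 * f) = A e ^ 3 + -(A (27 : k[X]) * A f) := by
            show algebraMap _ _ _ = _
            rw [map_sub, map_pow, map_mul, sub_eq_add_neg]
          have e27 : v.red (A (27 : k[X])) = 27 := by
            have h8 : A (27 : k[X]) = ((27 : ℕ) : RatFunc k) := by
              show algebraMap _ _ _ = _
              rw [map_ofNat]
              push_cast
              rfl
            rw [h8, red_nat]
            push_cast
            rfl
          rw [e1, v.red_add (reg_pow (fin_reg hfin e) 3)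
            (v.reg_neg (v.reg_mul h27 (fin_reg hfin f))), v.red_neg (v.reg_mul h27 (fin_reg hfin f)),
            v.red_mul h27 (fin_reg hfin f), v.red_pow (fin_reg hfin e), e27, h]
          ring

theorem sum_rat (h6 : (6 : k) ≠ 0) (hq : Nat.card k % 3 = 2) {e f : k[X]} {m : ℕ}
    (he : e.natDegree ≤ m) (hf : f.natDegree = 3 * m) (hf0 : f ≠ 0) (hg0 : e ^ 3 - 27 * f ≠ 0)
    (hH : ∀ π : k[X], Irreducible π → π ∣ e ^ 3 - 27 * f → Odd π.natDegree) :
    weightSum 3 k (sA (A e) (A f)) (sB (A e) (A f)) ≤ wSum k f3 (A f) := by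
  have hK : IsCurveField k (RatFunc k) := Pool.Agent.TH958.T4.isCurveField_rat
  haveI : FF.IsFF k (RatFunc k) := ⟨hK.essFiniteType, hK.trdeg_eq_one⟩
  unfold weightSum wSum
  have hs2 := TH180.R2.supp_finite (k := k) (A f) (fun v => f3 (S.deg v))
  have hs1 : (Function.support fun v : Place k (RatFunc k) =>
      weight 3 v (sA (A e) (A f)) (sB (A e) (A f))).Finite := by
    refine hs2.subset ?_
    intro v hv
    rw [Function.mem_support] at hv ⊢
    have := weight_rat h6 hq he hf hf0 hg0 hH v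
    intro h0
    rw [h0] at this
    omega
  exact finsum_le_finsum' hs1 hs2 (weight_rat h6 hq he hf hf0 hg0 hH)

theorem sum_three {p q r : k[X]} (hp : Irreducible p) (hq : Irreducible q) (hr : Irreducible r)
    (dp : ¬ 3 ∣ p.natDegree) (dq : ¬ 3 ∣ q.natDegree) (dr : ¬ 3 ∣ r.natDegree) :
    wSum k f3 (A (p * q * r)) ≤ 3 := by
  have hK : IsCurveField k (RatFunc k) := Pool.Agent.TH958.T4.isCurveField_rat
  haveI : FF.IsFF k (RatFunc k) := ⟨hK.essFiniteType, hK.trdeg_eq_one⟩
  have one : ∀ π : k[X], Irreducible π → ¬ 3 ∣ π.natDegree → wSum k f3 (A π) ≤ 1 := by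
    intro π hπ hd
    have h1 := wSum_irr f3 hπ
    have h2 : f3 π.natDegree = 1 := by
      unfold f3
      rw [padicValNat.eq_zero_of_not_dvd hd, pow_zero]
    omega
  have e1 : A (p * q * r) = A p * A q * A r := by
    show algebraMap _ _ _ = _
    rw [map_mul, map_mul]
  rw [e1]
  have h1 := wSum_mul_le (k := k) f3 (mul_ne_zero (A_ne hp.ne_zero) (A_ne hq.ne_zero))
    (A_ne hr.ne_zero)
  have h2 := wSum_mul_le (k := k) f3 (A_ne hp.ne_zero) (A_ne hq.ne_zero)
  have h3 := one p hp dp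
  have h4 := one q hq dq
  have h5 := one r hr dr
  omega

/-- `-3` is not a square -/
theorem neg_three (h6 : (6 : k) ≠ 0) (hq : Nat.card k % 3 = 2) (z : RatFunc k) : z ^ 2 ≠ -3 := by
  intro hz
  have hK : IsCurveField k (RatFunc k) := Pool.Agent.TH958.T4.isCurveField_rat
  have halg : IsAlgebraic k z := by
    refine ⟨X ^ 2 + C 3, ?_, ?_⟩
    · intro h
      have h1 : (X ^ 2 + C 3 : k[X]).natDegree = 2 := natDegree_X_pow_add_C
      rw [h, natDegree_zero] at h1
      norm_num at h1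
    · simp only [map_add, map_pow, aeval_X, aeval_C, map_ofNat]
      rw [hz]
      ring
  obtain ⟨s, hs⟩ := hK.algClosed z halg
  have hs2 : s ^ 2 = -3 := by
    apply (algebraMap k (RatFunc k)).injective
    rw [map_pow, hs, hz, map_neg, map_ofNat]
  have h2 : (2 : k) ≠ 0 := fun e => h6 (by linear_combination 3 * e)
  have h3 : (3 : k) ≠ 0 := fun e => h6 (by linear_combination 2 * e)
  set ω : k := (-1 + s) / 2 with hω
  have hω2 : ω ^ 2 + ω + 1 = 0 := by
    rw [hω]
    field_simp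
    linear_combination hs2
  have hω3 : ω ^ 3 = 1 := by linear_combination (ω - 1) * hω2
  have hω1 : ω ≠ 1 := by
    intro h
    rw [h] at hω2
    apply h3
    linear_combination hω2
  have hω0 : ω ≠ 0 := by
    intro h
    rw [h] at hω3
    norm_num at hω3
  let _ : Fintype k := Fintype.ofFinite k
  have h4 := FiniteField.pow_card_sub_one_eq_one ω hω0
  rw [← Nat.card_eq_fintype_card] at h4
  obtain ⟨n, hn⟩ : ∃ n, Nat.card k - 1 = 3 * n + 1 := ⟨Nat.card k / 3, by omega⟩
  rw [hn, pow_succ, pow_mul, hω3, one_pow, one_mul] at h4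
  exact hω1 h4

end rat

end Pool.Agent.R427.TS
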