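import Pool.Agent.R427.TS2

/-!
The curves `y ^ 2 + e x y + f y = x ^ 3`: triples of irreducible polynomials.
-/

set_option autoImplicit false
set_option linter.all false
set_option maxHeartbeats 4000000

open Polynomial FF
open scoped Classical

namespace Pool.Agent.R427.TS

variable {k : Type} [Field k]

/-- the conditions for the three polynomials -/
structure Tri (p q r : k[X]) : Prop where
  ip : Irreducible p
  iq : Irreducible q
  ir : Irreducible r
  npq : ¬ Associated p q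
  npr : ¬ Associated p r
  nqr : ¬ Associated q r
  dp : ¬ 3 ∣ p.natDegree
  dq : ¬ 3 ∣ q.natDegree
  dr : ¬ 3 ∣ r.natDegree
  d3 : 3 ∣ (p * q * r).natDegree
  de : 3 * (p - q - r).natDegree ≤ (p * q * r).natDegree
  odd : ∀ π : k[X], Irreducible π → π ∣ (p - q - r) ^ 3 - 27 * (p * q * r) → Odd π.natDegree

theorem not_cube {p q r : k[X]} (hp : Irreducible p) (hq : Irreducible q)
    (hr : Irreducible r) (hpq : ¬ Associated p q) (hpr : ¬ Associated p r) {c : k} (hc : c ≠ 0)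
    (e : k[X]) : e ^ 3 ≠ C c * (p * q * r) := by
  intro h
  have h1 : p ∣ e ^ 3 := by
    rw [h]
    exact dvd_mul_of_dvd_right (dvd_mul_of_dvd_left (dvd_mul_right p q) r) _
  have h2 : p ∣ e := hp.prime.dvd_of_dvd_pow h1
  obtain ⟨t, ht⟩ := h2
  have h3 : p ^ 2 * t ^ 3 = C c * (q * r) := by
    have : p * (p ^ 2 * t ^ 3) = p * (C c * (q * r)) := by
      rw [ht] at h
      linear_combination h
    exact mul_left_cancel₀ hp.ne_zero this
  have h4 : p ∣ C c * (q * r) := by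
    rw [← h3]
    exact dvd_mul_of_dvd_left (dvd_pow_self p two_ne_zero) _
  rcases hp.prime.dvd_or_dvd h4 with h5 | h5
  · exact hp.not_isUnit (isUnit_of_dvd_unit h5 (isUnit_C.2 (isUnit_iff_ne_zero.2 hc)))
  · rcases hp.prime.dvd_or_dvd h5 with h6 | h6
    · exact hpq (hp.associated_of_dvd hq h6)
    · exact hpr (hp.associated_of_dvd hr h6)

theorem Tri.node_ne (h3 : (3 : k) ≠ 0) {p q r : k[X]} (h : Tri p q r) :
    (p - q - r) ^ 3 - 27 * (p * q * r) ≠ 0 := by
  intro h0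
  have h27 : (27 : k) ≠ 0 := by
    have : (27 : k) = 3 ^ 3 := by norm_num
    rw [this]
    exact pow_ne_zero 3 h3
  apply not_cube h.ip h.iq h.ir h.npq h.npr h27 (p - q - r)
  rw [show (C 27 : k[X]) = 27 from rfl]
  linear_combination h0

/-- the `j`-invariant is not constant -/
theorem Tri.noniso (h2 : (2 : k) ≠ 0) (h3 : (3 : k) ≠ 0) {p q r : k[X]} (h : Tri p q r)
    (hne : p ≠ q + r) (c : k) :
    6912 * sA (p - q - r) (p * q * r) ^ 3 ≠
      C c * (4 * sA (p - q - r) (p * q * r) ^ 3 + 27 * sB (p - q - r) (p * q * r) ^ 2) := by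
  intro h0
  set e := p - q - r with he
  set f := p * q * r with hf
  have he0 : e ≠ 0 := by
    intro h1
    apply hne
    linear_combination h1
  have h24 : (24 : k) ≠ 0 := by
    have : (24 : k) = 2 ^ 3 * 3 := by norm_num
    rw [this]
    exact mul_ne_zero (pow_ne_zero _ h2) h3
  have hbig : (2 ^ 8 * 3 ^ 12 : k[X]) ≠ 0 := by
    have e1 : (2 ^ 8 * 3 ^ 12 : k[X]) = C (2 ^ 8 * 3 ^ 12) := by
      rw [C_mul, C_pow, C_pow]
      rfl
    rw [e1, Ne, C_eq_zero]
    exact mul_ne_zero (pow_ne_zero _ h2) (pow_ne_zero _ h3)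
  have h1 : e ^ 3 * (e ^ 3 - 24 * f) ^ 3 = C c * (f ^ 3 * (e ^ 3 - 27 * f)) := by
    rw [s_disc] at h0
    unfold sA at h0
    have e1 : (2 ^ 8 * 3 ^ 12 : k[X]) * (e ^ 3 * (e ^ 3 - 24 * f) ^ 3) =
        2 ^ 8 * 3 ^ 12 * (C c * (f ^ 3 * (e ^ 3 - 27 * f))) := by
      linear_combination -h0
    exact mul_left_cancel₀ hbig e1
  have hnc : e ^ 3 - 24 * f ≠ 0 := by
    intro h5
    apply not_cube h.ip h.iq h.ir h.npq h.npr h24 e
    rw [show (C 24 : k[X]) = 24 from rfl]
    linear_combination h5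
  have hdiv : ∀ π : k[X], Irreducible π → π ∣ f → π ∣ e := by
    intro π hπ hd
    have h5 : π ∣ e ^ 3 * (e ^ 3 - 24 * f) ^ 3 := by
      rw [h1]
      exact dvd_mul_of_dvd_right (dvd_mul_of_dvd_left (dvd_pow hd (by norm_num)) _) _
    rcases hπ.prime.dvd_or_dvd h5 with h6 | h6
    · exact hπ.prime.dvd_of_dvd_pow h6
    · have h7 := hπ.prime.dvd_of_dvd_pow h6
      have h8 : π ∣ e ^ 3 := by
        have e1 : e ^ 3 = (e ^ 3 - 24 * f) + 24 * f := by ring
        rw [e1]
        exact dvd_add h7 (hd.mul_left 24)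
      exact hπ.prime.dvd_of_dvd_pow h8
  have hpe := hdiv p h.ip (by rw [hf]; exact dvd_mul_of_dvd_left (dvd_mul_right p q) r)
  have hqe := hdiv q h.iq (by rw [hf]; exact dvd_mul_of_dvd_left (dvd_mul_left q p) r)
  have hre := hdiv r h.ir (by rw [hf]; exact dvd_mul_left r _)
  have hcop : IsCoprime p q := (h.ip.coprime_iff_not_dvd).2 fun hd =>
    h.npq (h.ip.associated_of_dvd h.iq hd)
  have hcop2 : IsCoprime (p * q) r := by
    apply IsCoprime.mul_left
    · exact (h.ip.coprime_iff_not_dvd).2 fun hd => h.npr (h.ip.associated_of_dvd h.ir hd)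
    · exact (h.iq.coprime_iff_not_dvd).2 fun hd => h.nqr (h.iq.associated_of_dvd h.ir hd)
  have hfe : f ∣ e := by
    rw [hf]
    exact hcop2.mul_dvd (hcop.mul_dvd hpe hqe) hre
  have hle := natDegree_le_of_dvd hfe he0
  have hde := h.de
  rw [← he, ← hf] at hde
  have hpf : p.natDegree ≤ f.natDegree := natDegree_le_of_dvd
    (by rw [hf]; exact dvd_mul_of_dvd_left (dvd_mul_right p q) r)
    (by rw [hf]; exact mul_ne_zero (mul_ne_zero h.ip.ne_zero h.iq.ne_zero) h.ir.ne_zero)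
  have := h.ip.natDegree_pos
  omega

/-- the irreducible factors after a substitution -/
theorem comp_fac {m : k[X]} (hm : 0 < m.natDegree) (g : k[X]) : g ≠ 0 →
    (∀ π : k[X], Irreducible π → π ∣ g → Irreducible (π.comp m)) →
    ∀ ρ : k[X], Irreducible ρ → ρ ∣ g.comp m →
      ∃ π : k[X], Irreducible π ∧ π ∣ g ∧ Associated ρ (π.comp m) := by
  induction g using UniqueFactorizationMonoid.induction_on_prime with
  | h₁ => exact fun h => absurd rfl h
  | h₂ x hx =>
    intro _ _ ρ hρ hd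
    obtain ⟨c, hc, rfl⟩ := Polynomial.isUnit_iff.1 hx
    rw [C_comp] at hd
    exact absurd (isUnit_of_dvd_unit hd (isUnit_C.2 hc)) hρ.not_isUnit
  | h₃ a p ha hp ih =>
    intro h0 h ρ hρ hd
    rw [mul_comp] at hd
    have hi := h p hp.irreducible (dvd_mul_right _ _)
    rcases hρ.prime.dvd_or_dvd hd with h1 | h1
    · exact ⟨p, hp.irreducible, dvd_mul_right _ _, hρ.associated_of_dvd hi h1⟩
    · obtain ⟨π, h2, h3, h4⟩ := ih ha (fun π h1 h2 => h π h1 (h2.mul_left p)) ρ hρ h1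
      exact ⟨π, h2, h3.mul_left p, h4⟩

theorem assoc_comp {m : k[X]} (hm : 0 < m.natDegree) {p q : k[X]}
    (h : Associated (p.comp m) (q.comp m)) : Associated p q := by
  obtain ⟨u, hu⟩ := h
  obtain ⟨c, hc, hcu⟩ := Polynomial.isUnit_iff.1 u.isUnit
  refine ⟨Units.map (C : k →+* k[X]).toMonoidHom hc.unit, ?_⟩
  have h1 : (p * C c - q).comp m = 0 := by
    rw [sub_comp, mul_comp, C_comp, hcu, hu, sub_self]
  have h2 : p * C c - q = 0 := by
    rcases comp_eq_zero_iff.1 h1 with h | ⟨-, h⟩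
    · exact h
    · rw [h, natDegree_C] at hm
      exact absurd hm (lt_irrefl 0)
  show p * C (hc.unit : k) = q
  rw [IsUnit.unit_spec]
  exact sub_eq_zero.1 h2

/-- substitution -/
theorem Tri.comp {p q r : k[X]} (h : Tri p q r) {m : k[X]} (hm : Odd m.natDegree)
    (hm3 : ¬ 3 ∣ m.natDegree) (h3 : (3 : k) ≠ 0)
    (hirr : ∀ π : k[X], Irreducible π →
      π ∣ p * q * r * ((p - q - r) ^ 3 - 27 * (p * q * r)) → Irreducible (π.comp m)) :
    Tri (p.comp m) (q.comp m) (r.comp m) := by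
  have hmp : 0 < m.natDegree := hm.pos
  have hf : p.comp m * q.comp m * r.comp m = (p * q * r).comp m := by rw [mul_comp, mul_comp]
  have he : p.comp m - q.comp m - r.comp m = (p - q - r).comp m := by rw [sub_comp, sub_comp]
  have c3 : ∀ n : ℕ, ¬ 3 ∣ n → ¬ 3 ∣ n * m.natDegree := fun n hn hd =>
    ((Nat.Prime.dvd_mul Nat.prime_three).1 hd).elim hn hm3
  refine ⟨hirr p h.ip ?_, hirr q h.iq ?_, hirr r h.ir ?_, fun ha => h.npq (assoc_comp hmp ha),
    fun ha => h.npr (assoc_comp hmp ha), fun ha => h.nqr (assoc_comp hmp ha), ?_, ?_, ?_, ?_, ?_, ?_⟩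
  · exact dvd_mul_of_dvd_left (dvd_mul_of_dvd_left (dvd_mul_right p q) r) _
  · exact dvd_mul_of_dvd_left (dvd_mul_of_dvd_left (dvd_mul_left q p) r) _
  · exact dvd_mul_of_dvd_left (dvd_mul_left r _) _
  · rw [natDegree_comp]
    exact c3 _ h.dp
  · rw [natDegree_comp]
    exact c3 _ h.dq
  · rw [natDegree_comp]
    exact c3 _ h.dr
  · rw [hf, natDegree_comp]
    exact dvd_mul_of_dvd_left h.d3 _
  · rw [hf, he, natDegree_comp, natDegree_comp, ← mul_assoc]
    exact Nat.mul_le_mul_right _ h.de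
  · intro π hπ hd
    have e1 : (p.comp m - q.comp m - r.comp m) ^ 3 - 27 * (p.comp m * q.comp m * r.comp m) =
        ((p - q - r) ^ 3 - 27 * (p * q * r)).comp m := by
      simp only [sub_comp, pow_comp, mul_comp, ofNat_comp, Nat.cast_ofNat]
    rw [e1] at hd
    obtain ⟨ρ, h1, h2, h4⟩ := comp_fac hmp _ (h.node_ne h3)
      (fun π h5 h6 => hirr π h5 (h6.mul_left _)) π hπ hd
    rw [natDegree_eq_of_degree_eq (degree_eq_degree_of_associated h4), natDegree_comp]
    exact (h.odd ρ h1 h2).mul hm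

section finite

variable [Finite k]

/-- infinitely many substitutions -/
theorem Tri.tower {p q r : k[X]} (h : Tri p q r) (h3 : (3 : k) ≠ 0)
    (h0 : p.coeff 0 * q.coeff 0 * r.coeff 0 ≠ 0)
    (h1 : (p.coeff 0 - q.coeff 0 - r.coeff 0) ^ 3 ≠ 27 * (p.coeff 0 * q.coeff 0 * r.coeff 0))
    {l : ℕ} (hl : l.Prime) (hl2 : l ≠ 2) (hl3 : 2 * (p * q * r).natDegree < l)
    (hd : l ∣ Nat.card k - 1) : ∃ c : k, c ≠ 0 ∧ ∀ j : ℕ,
      Tri (p.comp (C c * X ^ l ^ j)) (q.comp (C c * X ^ l ^ j)) (r.comp (C c * X ^ l ^ j)) := by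
  set g : k[X] := p * q * r * ((p - q - r) ^ 3 - 27 * (p * q * r)) with hg
  have hg0 : g.coeff 0 ≠ 0 := by
    rw [hg, coeff_zero_eq_eval_zero]
    rw [coeff_zero_eq_eval_zero, coeff_zero_eq_eval_zero, coeff_zero_eq_eval_zero] at h0 h1
    simp only [eval_mul, eval_sub, eval_pow, eval_ofNat]
    refine mul_ne_zero h0 fun h5 => h1 ?_
    linear_combination h5
  have hf3 : 3 ≤ (p * q * r).natDegree := by
    rw [natDegree_mul (mul_ne_zero h.ip.ne_zero h.iq.ne_zero) h.ir.ne_zero,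
      natDegree_mul h.ip.ne_zero h.iq.ne_zero]
    have := h.ip.natDegree_pos
    have := h.iq.natDegree_pos
    have := h.ir.natDegree_pos
    omega
  have hgd : g.natDegree ≤ 2 * (p * q * r).natDegree := by
    have h5 := natDegree_mul_le (p := p * q * r) (q := (p - q - r) ^ 3 - 27 * (p * q * r))
    have h6 := natDegree_sub_le ((p - q - r) ^ 3) (27 * (p * q * r))
    have h7 : ((p - q - r) ^ 3).natDegree = 3 * (p - q - r).natDegree := natDegree_pow _ _
    have h8 : (27 * (p * q * r) : k[X]).natDegree ≤ (p * q * r).natDegree :=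
      natDegree_C_mul_le (27 : k) (p * q * r)
    have h9 := h.de
    rw [hg]
    rw [le_max_iff] at h6
    omega
  obtain ⟨c, hc, hirr⟩ := TH180.R4.exists_c hg0 hl hl2 (by omega) hd
  refine ⟨c, hc, fun j => ?_⟩
  have hmd : (C c * X ^ l ^ j : k[X]).natDegree = l ^ j := natDegree_C_mul_X_pow _ _ hc
  refine h.comp ?_ ?_ h3 fun π h5 h6 => hirr j π h5 h6
  · rw [hmd]
    exact (hl.odd_of_ne_two hl2).pow
  · rw [hmd]
    intro hd3
    have h5 := (Nat.prime_dvd_prime_iff_eq Nat.prime_three hl).1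
      (Nat.prime_three.dvd_of_dvd_pow hd3)
    omega

theorem lin_assoc {a b : k} {m : k[X]} (hm : 0 < m.natDegree) (hm0 : m.coeff 0 = 0)
    (h : Associated (1 + C a * m) (1 + C b * m)) : a = b := by
  obtain ⟨u, hu⟩ := h
  obtain ⟨c, hc, hcu⟩ := Polynomial.isUnit_iff.1 u.isUnit
  rw [← hcu] at hu
  have h1 := congrArg (fun p : k[X] => p.coeff 0) hu
  simp only [coeff_mul_C, coeff_add, coeff_one_zero, coeff_C_mul, hm0, mul_zero, add_zero,
    one_mul] at h1
  rw [h1, C_1, mul_one] at hu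
  have h2 : C (a - b) * m = 0 := by
    rw [C_sub]
    linear_combination hu
  have hm1 : m ≠ 0 := by
    rintro rfl
    rw [natDegree_zero] at hm
    exact lt_irrefl _ hm
  have h3 := (mul_eq_zero.1 h2).resolve_right hm1
  exact sub_eq_zero.1 (C_eq_zero.1 h3)

/-- explicit triples -/
theorem explicit (h3 : (3 : k) ≠ 0) (hcard : Nat.card k % 3 = 2) {u : k}
    (hu : u * (u + 1) * (u - 1) * (u + 2) * (2 * u + 1) ≠ 0) (hom : u ^ 2 + u + 1 ≠ 0)
    {l : ℕ} (hl : l.Prime) (hl5 : 5 ≤ l) (hd : l ∣ Nat.card k - 1) : ∃ c : k, c ≠ 0 ∧ ∀ j : ℕ,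
      Tri (1 + C (u ^ 3 * c) * X ^ l ^ j) (-(1 + C c * X ^ l ^ j))
        (-(1 - C ((u + 1) ^ 3 * c) * X ^ l ^ j)) := by
  have u5 : 2 * u + 1 ≠ 0 := right_ne_zero_of_mul hu
  have hu' := left_ne_zero_of_mul hu
  have u4 : u + 2 ≠ 0 := right_ne_zero_of_mul hu'
  have hu'' := left_ne_zero_of_mul hu'
  have u3 : u - 1 ≠ 0 := right_ne_zero_of_mul hu''
  have hu3 := left_ne_zero_of_mul hu''
  have u2 : u + 1 ≠ 0 := right_ne_zero_of_mul hu3
  have u1 : u ≠ 0 := left_ne_zero_of_mul hu3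
  -- the three linear polynomials
  have hlin : ∀ a : k, a ≠ 0 → Irreducible (1 + C a * X : k[X]) ∧ (1 + C a * X : k[X]).natDegree = 1 := by
    intro a ha
    have h1 : (1 + C a * X : k[X]).natDegree = 1 := by
      rw [add_comm, ← C_1]
      exact natDegree_linear ha
    exact ⟨irreducible_of_degree_eq_one (degree_eq_iff_natDegree_eq_of_pos one_pos |>.2 h1), h1⟩
  set g : k[X] := (1 + C (u ^ 3) * X) * (1 + C 1 * X) * (1 + C (-(u + 1) ^ 3) * X) with hg
  have a1 : u ^ 3 ≠ 0 := pow_ne_zero 3 u1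
  have a2 : -(u + 1) ^ 3 ≠ 0 := neg_ne_zero.2 (pow_ne_zero 3 u2)
  obtain ⟨i1, d1⟩ := hlin _ a1
  obtain ⟨i2, d2⟩ := hlin _ (one_ne_zero (α := k))
  obtain ⟨i3, d3⟩ := hlin _ a2
  have hgd : g.natDegree = 3 := by
    rw [hg, natDegree_mul (mul_ne_zero i1.ne_zero i2.ne_zero) i3.ne_zero,
      natDegree_mul i1.ne_zero i2.ne_zero, d1, d2, d3]
  have hg0 : g.coeff 0 ≠ 0 := by
    rw [hg, coeff_zero_eq_eval_zero]
    simp
  obtain ⟨c, hc, hirr⟩ := TH180.R4.exists_c hg0 hl (by omega) (by omega) hd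
  refine ⟨c, hc, fun j => ?_⟩
  set n := l ^ j with hn
  have hnpos : 0 < n := pow_pos hl.pos j
  set m : k[X] := C c * X ^ n with hm
  have hmd : m.natDegree = n := natDegree_C_mul_X_pow _ _ hc
  have hm0 : m.coeff 0 = 0 := by
    rw [hm, coeff_C_mul, coeff_X_pow, if_neg (by omega), mul_zero]
  have hmp : 0 < m.natDegree := by rw [hmd]; exact hnpos
  have hcomp : ∀ a : k, (1 + C a * X : k[X]).comp m = 1 + C a * m := by
    intro a
    simp
  have j1 : Irreducible (1 + C (u ^ 3) * m) := by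
    rw [← hcomp]
    exact hirr j _ i1 (by rw [hg]; exact dvd_mul_of_dvd_left (dvd_mul_right _ _) _)
  have j2 : Irreducible (1 + C 1 * m) := by
    rw [← hcomp]
    exact hirr j _ i2 (by rw [hg]; exact dvd_mul_of_dvd_left (dvd_mul_left _ _) _)
  have j3 : Irreducible (1 + C (-(u + 1) ^ 3) * m) := by
    rw [← hcomp]
    exact hirr j _ i3 (by rw [hg]; exact dvd_mul_left _ _)
  have hdeg : ∀ a : k, a ≠ 0 → (1 + C a * m).natDegree = n := by
    intro a ha
    rw [add_comm, ← C_1, natDegree_add_C, natDegree_C_mul ha, hmd]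
  have f1 : (1 + C (u ^ 3 * c) * X ^ n : k[X]) = 1 + C (u ^ 3) * m := by
    rw [hm, C_mul]; ring
  have f2 : (-(1 + C c * X ^ n) : k[X]) = -(1 + C 1 * m) := by
    rw [hm, C_1, one_mul]
  have f3 : (-(1 - C ((u + 1) ^ 3 * c) * X ^ n) : k[X]) = -(1 + C (-(u + 1) ^ 3) * m) := by
    rw [hm, C_mul, C_neg]; ring
  rw [f1, f2, f3]
  have hneg : ∀ {P : k[X]}, Irreducible P → Irreducible (-P) := fun hP =>
    (Associated.irreducible_iff (Associated.neg_left (Associated.refl _))).2 hP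
  have k1 := hdeg _ a1
  have k2 := hdeg _ (one_ne_zero (α := k))
  have k3 := hdeg _ a2
  have hn3 : ¬ 3 ∣ n := by
    intro hd3
    have h5 := (Nat.prime_dvd_prime_iff_eq Nat.prime_three hl).1
      (Nat.prime_three.dvd_of_dvd_pow hd3)
    omega
  have hF : ((1 + C (u ^ 3) * m) * -(1 + C 1 * m) * -(1 + C (-(u + 1) ^ 3) * m)).natDegree =
      3 * n := by
    rw [natDegree_mul (mul_ne_zero j1.ne_zero (hneg j2).ne_zero) (hneg j3).ne_zero,
      natDegree_mul j1.ne_zero (hneg j2).ne_zero, natDegree_neg, natDegree_neg, k1, k2, k3]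
    ring
  have hE : (1 + C (u ^ 3) * m) - -(1 + C 1 * m) - -(1 + C (-(u + 1) ^ 3) * m) =
      3 * (1 - C (u * (u + 1)) * m) := by
    simp only [C_mul, C_add, C_pow, C_neg, C_1]
    ring
  have hN : ((1 + C (u ^ 3) * m) - -(1 + C 1 * m) - -(1 + C (-(u + 1) ^ 3) * m)) ^ 3 -
      27 * ((1 + C (u ^ 3) * m) * -(1 + C 1 * m) * -(1 + C (-(u + 1) ^ 3) * m)) =
      C (27 * (u ^ 2 + u + 1) ^ 3 * c ^ 2) * X ^ (2 * n) := by
    have e2 : (X ^ (2 * n) : k[X]) = X ^ n * X ^ n := by rw [two_mul, pow_add]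
    rw [e2, hm]
    simp only [C_mul, C_add, C_pow, C_neg, C_1]
    rw [show (C 27 : k[X]) = 27 from rfl]
    ring
  refine ⟨j1, hneg j2, hneg j3, ?_, ?_, ?_, ?_, ?_, ?_, ?_, ?_, ?_⟩
  · intro ha
    have h1 : Associated (1 + C (u ^ 3) * m) (1 + C 1 * m) :=
      ha.trans (Associated.neg_left (Associated.refl _))
    have h5 := lin_assoc hmp hm0 h1
    have h6 : (u - 1) * (u ^ 2 + u + 1) = 0 := by linear_combination h5
    exact (mul_ne_zero u3 hom) h6
  · intro ha
    have h1 : Associated (1 + C (u ^ 3) * m) (1 + C (-(u + 1) ^ 3) * m) :=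
      ha.trans (Associated.neg_left (Associated.refl _))
    have h5 := lin_assoc hmp hm0 h1
    have h6 : (2 * u + 1) * (u ^ 2 + u + 1) = 0 := by linear_combination h5
    exact (mul_ne_zero u5 hom) h6
  · intro ha
    have h1 : Associated (1 + C 1 * m) (1 + C (-(u + 1) ^ 3) * m) :=
      (Associated.neg_right (Associated.refl _)).trans
        (ha.trans (Associated.neg_left (Associated.refl _)))
    have h5 := lin_assoc hmp hm0 h1
    have h6 : (u + 2) * (u ^ 2 + u + 1) = 0 := by linear_combination h5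
    exact (mul_ne_zero u4 hom) h6
  · rw [k1]; exact hn3
  · rw [natDegree_neg, k2]; exact hn3
  · rw [natDegree_neg, k3]; exact hn3
  · rw [hF]; exact dvd_mul_right 3 n
  · rw [hF, hE]
    apply Nat.mul_le_mul_left
    have h5 : (3 * (1 - C (u * (u + 1)) * m) : k[X]).natDegree ≤
        (1 - C (u * (u + 1)) * m).natDegree := natDegree_C_mul_le (3 : k) _
    have h6 := natDegree_sub_le (1 : k[X]) (C (u * (u + 1)) * m)
    have h7 : (C (u * (u + 1)) * m).natDegree ≤ m.natDegree := natDegree_C_mul_le _ _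
    rw [natDegree_one] at h6
    rw [le_max_iff] at h6
    omega
  · intro π hπ hdv
    rw [hN] at hdv
    have hcc : (27 * (u ^ 2 + u + 1) ^ 3 * c ^ 2 : k) ≠ 0 := by
      have : (27 : k) = 3 ^ 3 := by norm_num
      rw [this]
      exact mul_ne_zero (mul_ne_zero (pow_ne_zero 3 h3) (pow_ne_zero 3 hom)) (pow_ne_zero 2 hc)
    rcases hπ.prime.dvd_or_dvd hdv with h5 | h5
    · exact absurd (isUnit_of_dvd_unit h5 (isUnit_C.2 (isUnit_iff_ne_zero.2 hcc))) hπ.not_isUnit
    · have h6 := hπ.prime.dvd_of_dvd_pow h5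
      have h7 := hπ.associated_of_dvd irreducible_X h6
      rw [natDegree_eq_of_degree_eq (degree_eq_degree_of_associated h7), natDegree_X]
      exact odd_one

end finite

end Pool.Agent.R427.TS
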