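import Pool.Agent.R427.TS3
import Pool.Agent.R427.LC2

/-!
The curves `y ^ 2 + e x y + f y = x ^ 3` over arbitrary function fields.
-/

set_option autoImplicit false
set_option linter.all false
set_option maxHeartbeats 4000000

open Polynomial FF WeierstrassCurve WeierstrassCurve.Affine
open scoped Classical

namespace Pool.Agent.R427.TS

open Pool.Agent.W343.BSD Pool.Agent.H525R3.FFp
open Pool.Agent.W313.Gr (curve PointsDvd weight weightSum rootSum rank rank_mono)
open Pool.Agent.W309.RK (ordAt ordAt_mul ordAt_self ordAt_of_not_dvd ratfunc_ne)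
open Pool.Agent.TH639.B3 (curve_eq IsT3 Sc)
open Pool.Agent.TH958.T3
open Pool.Agent.R427.FT (wSum wSum_irr wSum_comp wSum_pole wSum_mono wSum_mul_le)

section field

variable {F : Type} [Field F]

/-- there is a further point of order three only if `-3` is a square and `e ^ 3 - 27 f` a cube -/
theorem tors_cases' (h2 : (2 : F) ≠ 0) (h3 : (3 : F) ≠ 0) (e f : F)
    (hns : (∀ z : F, z ^ 2 ≠ -3) ∨ ∀ z : F, z ^ 3 ≠ e ^ 3 - 27 * f)
    (P : (curve (sA e f) (sB e f)).toAffine.Point) (hP0 : P ≠ 0) (hP : (3 : ℤ) • P = 0) :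
    ∃ y h, P = Point.some (3 * e ^ 2) y h ∧ (y = 108 * f ∨ y = -(108 * f)) := by
  rcases hns with hns | hns
  · exact tors_cases h2 h3 hns e f P hP0 hP
  obtain ⟨x, y, hns', rfl, hdiv⟩ := three_tors h2 hP0 hP
  have heq := (curve_eq _ _ x y).1 hns'.1
  set x' := x - 3 * e ^ 2 with hx'
  have hx : x = x' + 3 * e ^ 2 := by rw [hx']; ring
  have hfac : x' * (3 * x' ^ 3 + 4 * (3 * e) ^ 2 * x' ^ 2 + 12 * (3 * e) * (108 * f) * x' +
      12 * (108 * f) ^ 2) = 0 := by
    rw [hx] at hdiv
    unfold sA sB at hdiv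
    linear_combination hdiv
  have hsq : y ^ 2 = x' ^ 3 + (3 * e * x' + 108 * f) ^ 2 := by
    rw [heq, hx]
    unfold sA sB
    ring
  have hxz : x' = 0 := by
    by_contra hne
    have h := (mul_eq_zero.1 hfac).resolve_left hne
    have h5 : (e * x' + 108 * f) ^ 3 = (e ^ 3 - 27 * f) * x' ^ 3 := by
      have e1 : (3 : F) * ((e * x' + 108 * f) ^ 3 - (e ^ 3 - 27 * f) * x' ^ 3) =
          27 * f * (3 * x' ^ 3 + 4 * (3 * e) ^ 2 * x' ^ 2 + 12 * (3 * e) * (108 * f) * x' +
      12 * (108 * f) ^ 2) := by ring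
      rw [h, mul_zero] at e1
      exact sub_eq_zero.1 ((mul_eq_zero.1 e1).resolve_left h3)
    apply hns ((e * x' + 108 * f) / x')
    rw [div_pow, h5]
    field_simp
  have hy2 : (y - 108 * f) * (y + 108 * f) = 0 := by
    rw [hxz] at hsq
    linear_combination hsq
  refine ⟨y, ?_, ?_, ?_⟩
  · have : x = 3 * e ^ 2 := by rw [hx, hxz]; ring
    rw [← this]
    exact hns'
  · have : x = 3 * e ^ 2 := by rw [hx, hxz]; ring
    congr 1
  · rcases mul_eq_zero.1 hy2 with h | h
    · left
      linear_combination h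
    · right
      linear_combination h

end field

section rat0

variable {k : Type} [Field k]

/-- **The rank is positive.** -/
theorem rank_pos' (h2 : (2 : k) ≠ 0) (h3 : (3 : k) ≠ 0) {p q r : k[X]}
    (hns : (∀ z : RatFunc k, z ^ 2 ≠ -3) ∨ ∀ z : k[X], z ^ 3 ≠ (p - q - r) ^ 3 - 27 * (p * q * r))
    (hp : Irreducible p) (hq : Irreducible q) (hr : Irreducible r)
    (hpq : ¬ Associated p q) (hpr : ¬ Associated p r) (hqr : ¬ Associated q r) :
    1 ≤ Pool.Agent.W313.Gr.rank
      (sA (algebraMap k[X] (RatFunc k) (p - q - r)) (algebraMap k[X] (RatFunc k) (p * q * r)))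
      (sB (algebraMap k[X] (RatFunc k) (p - q - r)) (algebraMap k[X] (RatFunc k) (p * q * r))) := by
  have h2K : (2 : RatFunc k) ≠ 0 := by
    have := ratfunc_ne (k := k) (n := 2) (by exact_mod_cast h2)
    exact_mod_cast this
  have h3K : (3 : RatFunc k) ≠ 0 := by
    have := ratfunc_ne (k := k) (n := 3) (by exact_mod_cast h3)
    exact_mod_cast this
  have hinj : Function.Injective (algebraMap k[X] (RatFunc k)) := RatFunc.algebraMap_injective k
  have am_ne : ∀ {f : k[X]}, f ≠ 0 → algebraMap k[X] (RatFunc k) f ≠ 0 := fun hf => by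
    rw [Ne, map_eq_zero_iff _ hinj]; exact hf
  have h216 : (216 : k) ≠ 0 := by
    have : (216 : k) = 2 ^ 3 * 3 ^ 3 := by norm_num
    rw [this]
    exact mul_ne_zero (pow_ne_zero _ h2) (pow_ne_zero _ h3)
  set am := algebraMap k[X] (RatFunc k) with ham
  set e := am (p - q - r) with he
  set f := am (p * q * r) with hf
  have he' : e = am p - am q - am r := by rw [he, map_sub, map_sub]
  have hf' : f = am p * am q * am r := by rw [hf, map_mul, map_mul]
  have n1 : ¬ p ∣ q := fun h => hpq (hp.associated_of_dvd hq h)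
  have n2 : ¬ r ∣ p := fun h => hpr (hr.associated_of_dvd hp h).symm
  have n3 : ¬ r ∣ q := fun h => hqr (hr.associated_of_dvd hq h).symm
  have hsum : am p + am q ≠ 0 := by
    rw [← map_add]
    apply am_ne
    intro h
    apply n1
    exact ⟨-1, by linear_combination h⟩
  have hf0 : f ≠ 0 := by
    rw [hf']
    exact mul_ne_zero (mul_ne_zero (am_ne hp.ne_zero) (am_ne hq.ne_zero)) (am_ne hr.ne_zero)
  have hβ : (108 * f : RatFunc k) ≠ 0 := by
    have : (108 : RatFunc k) = 2 ^ 2 * 3 ^ 3 := by norm_num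
    rw [this]
    exact mul_ne_zero (mul_ne_zero (pow_ne_zero _ h2K) (pow_ne_zero _ h3K)) hf0
  have h108 : (108 : RatFunc k) ≠ 0 := left_ne_zero_of_mul hβ
  set xP : RatFunc k := 36 * (am p * am q) + 3 * e ^ 2 with hxP
  set yP : RatFunc k := 108 * (am p * am q) * (am p + am q) with hyP
  have hyP0 : yP ≠ 0 := mul_ne_zero (mul_ne_zero h108 (mul_ne_zero (am_ne hp.ne_zero)
    (am_ne hq.ne_zero))) hsum
  have hnonsing : (curve (sA e f) (sB e f)).toAffine.Nonsingular xP yP := by
    rw [nonsingular_iff]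
    constructor
    · rw [curve_eq, hxP, hyP, hf', he']
      unfold sA sB
      ring
    · right
      show _ ≠ -_ - 0 * _ - 0
      intro h8
      have h9 : (2 : RatFunc k) * yP = 0 := by linear_combination h8
      rcases mul_eq_zero.1 h9 with h10 | h10
      · exact h2K h10
      · exact hyP0 h10
  have T := td e f
  have hns' : (∀ z : RatFunc k, z ^ 2 ≠ -3) ∨ ∀ z : RatFunc k, z ^ 3 ≠ e ^ 3 - 27 * f := by
    refine hns.imp_right fun h z hz => ?_
    have e1 : e ^ 3 - 27 * f = am ((p - q - r) ^ 3 - 27 * (p * q * r)) := by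
      rw [map_sub, map_pow, map_mul, map_ofNat]
    have hint : IsIntegral k[X] z := by
      refine IsIntegral.of_pow (n := 3) (by norm_num) ?_
      rw [hz, e1]
      exact isIntegral_algebraMap
    obtain ⟨w, hw⟩ := IsIntegrallyClosed.algebraMap_eq_of_integral hint
    apply h w
    apply hinj
    rw [← e1, ← hz, ← hw, map_pow]
  have e216 : (216 : RatFunc k) = am (C 216) := by
    rw [show (C 216 : k[X]) = 216 from rfl, map_ofNat]
  have hval : yP - (3 * e * (xP - 3 * e ^ 2) + 108 * f) = am (C 216) * (am p * (am q * am q)) := by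
    rw [← e216, hxP, hyP, hf', he']
    ring
  have hvne : am (C 216) * (am p * (am q * am q)) ≠ 0 :=
    mul_ne_zero (am_ne (C_ne_zero.2 h216)) (mul_ne_zero (am_ne hp.ne_zero)
      (mul_ne_zero (am_ne hq.ne_zero) (am_ne hq.ne_zero)))
  have hψ : ∀ (π : k[X]) (hπ : Irreducible π), Lam (psi π hπ) (sA e f) (sB e f) (3 * e) (108 * f)
      (3 * e ^ 2) (Point.some xP yP hnonsing) = psi π hπ (am p) + (psi π hπ (am q) + psi π hπ (am q)) := by
    intro π hπ
    rw [Lam_some, val_ne (by rw [hval]; exact hvne), hval,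
      psi_mul _ _ _ _ (am_ne (C_ne_zero.2 h216)) (mul_ne_zero (am_ne hp.ne_zero)
        (mul_ne_zero (am_ne hq.ne_zero) (am_ne hq.ne_zero))), psi_C _ _ h216, zero_add,
      psi_mul _ _ _ _ (am_ne hp.ne_zero) (mul_ne_zero (am_ne hq.ne_zero) (am_ne hq.ne_zero)),
      psi_mul _ _ _ _ (am_ne hq.ne_zero) (am_ne hq.ne_zero)]
  have hψT : psi r hr (-(2 * (108 * f))) ≠ 0 := by
    have e1 : -(2 * (108 * f)) = -(am (C 216) * (am r * (am p * am q))) := by
      rw [← e216, hf']
      ring
    have hne : am (C 216) * (am r * (am p * am q)) ≠ 0 :=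
      mul_ne_zero (am_ne (C_ne_zero.2 h216)) (mul_ne_zero (am_ne hr.ne_zero)
        (mul_ne_zero (am_ne hp.ne_zero) (am_ne hq.ne_zero)))
    rw [e1, (psi_mul r hr).neg _ hne, psi_mul _ _ _ _ (am_ne (C_ne_zero.2 h216))
      (right_ne_zero_of_mul hne), psi_C _ _ h216, zero_add, psi_mul _ _ _ _ (am_ne hr.ne_zero)
      (mul_ne_zero (am_ne hp.ne_zero) (am_ne hq.ne_zero)), psi_mul _ _ _ _ (am_ne hp.ne_zero)
      (am_ne hq.ne_zero), psi_not _ _ n2, psi_not _ _ n3, psi_self]
    decide
  have hli : LinearIndependent ℤ (fun _ : Unit =>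
      (Point.some xP yP hnonsing : (curve (sA e f) (sB e f)).toAffine.Point)) := by
    refine indep (fun _ => lamHom (psi_mul p hp) h2K hβ T) (lamHom (psi_mul r hr) h2K hβ T) _
      ?_ ?_ ?_
    · intro i j
      rw [if_pos (Subsingleton.elim i j)]
      show Lam (psi p hp) (sA e f) (sB e f) (3 * e) (108 * f) (3 * e ^ 2)
        (Point.some xP yP hnonsing) = _
      rw [hψ, psi_self, psi_not _ _ n1]
      decide
    · intro i
      show Lam (psi r hr) (sA e f) (sB e f) (3 * e) (108 * f) (3 * e ^ 2)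
        (Point.some xP yP hnonsing) = _
      rw [hψ, psi_not _ _ n2, psi_not _ _ n3]
      decide
    · intro x hx hx0
      by_contra hne
      obtain ⟨y, h, rfl, hy⟩ := tors_cases' h2K h3K e f hns' x hne hx
      have h0 : Lam (psi r hr) (sA e f) (sB e f) (3 * e) (108 * f) (3 * e ^ 2)
          (Point.some (3 * e ^ 2) y h) = 0 := hx0
      rw [Lam_some] at h0
      rcases hy with hy | hy
      · rw [val_zero (by rw [hy]; ring)] at h0
        exact hψT (neg_eq_zero.1 h0)
      · have e2 : y - (3 * e * (3 * e ^ 2 - 3 * e ^ 2) + 108 * f) = -(2 * (108 * f)) := by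
          rw [hy]
          ring
        rw [val_ne (by rw [e2]; exact neg_ne_zero.2 (mul_ne_zero h2K hβ)), e2] at h0
        exact hψT h0
  have := hli.cardinal_le_rank
  unfold Pool.Agent.W313.Gr.rank
  simpa using this

end rat0

end Pool.Agent.R427.TS
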