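import Pool.Agent.R427.TS4

/-!
The curves `y ^ 2 + e x y + f y = x ^ 3` over arbitrary function fields: the weights.
-/

set_option autoImplicit false
set_option linter.all false
set_option maxHeartbeats 4000000

open Polynomial FF
open scoped Classical

namespace Pool.Agent.R427.TS

open Pool.Agent.W343.BSD Pool.Agent.H525R3.FFp
open Pool.Agent.W313.Gr (curve PointsDvd weight weightSum rootSum rank rank_mono)
open Pool.Agent.TH639.B3 (IsT3 Sc)
open Pool.Agent.W309.RF
open Pool.Agent.R427.FT (wSum wSum_irr wSum_comp wSum_pole wSum_mono wSum_mul_le)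

/-- the weight of the nodes -/
noncomputable def f3' (q n : ℕ) : ℕ := if 3 ∣ q ^ n - 1 then 3 ^ padicValNat 3 n else 0

section loc

variable {k K : Type} [Field k] [Finite k] [Field K] [Algebra k K] [FF.IsFF k K] {v : Place k K}

theorem cast3 : ((3 : ℕ) : ℤ) ∣ (Nat.card (S.Res v) : ℤ) - 1 ↔ 3 ∣ Nat.card k ^ S.deg v - 1 := by
  rw [SC.card_Res v]
  have hpos : 1 ≤ Nat.card k ^ S.deg v := Nat.one_le_pow _ _ Nat.card_pos
  rw [← Int.natCast_dvd_natCast, Nat.cast_sub hpos]
  push_cast
  rfl

/-- the fibres with `f` a unit -/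
theorem weight_unit (h6 : (6 : k) ≠ 0) {e f c : K}
    (hΔ : 4 * sA e f ^ 3 + 27 * sB e f ^ 2 ≠ 0) (hc : c ≠ 0) (he : v.Reg (c * e))
    (hf : v.Reg (c ^ 3 * f)) (h1 : v.red (c ^ 3 * f) ≠ 0) :
    weight 3 v (sA e f) (sB e f) = 0 ∨ (v.red (c * e) ^ 3 = 27 * v.red (c ^ 3 * f) ∧
      weight 3 v (sA e f) (sB e f) ≤ f3' (Nat.card k) (S.deg v)) := by
  have hs := sc hc he hf
  have h3k := TH639.B3.h3_of h6
  have h3 : (3 : v.RF) ≠ 0 := TH639.B3.n3 h3k v
  have h2' : (2 : v.RF) ≠ 0 := TH639.B3.n2' h6 v
  have h108 : (108 : v.RF) ≠ 0 := by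
    have : (108 : v.RF) = 2 ^ 2 * 3 ^ 3 := by norm_num
    rw [this]
    exact mul_ne_zero (pow_ne_zero _ h2') (pow_ne_zero _ h3)
  have hb0 : v.red (c ^ 3 * (108 * f)) ≠ 0 := by
    rw [red108 hf]
    exact mul_ne_zero h108 h1
  have hmin := hs.isMin h3k (Or.inr hb0)
  have hab := ab_of_disc hΔ
  by_cases hg : v.ord (minDisc v (sA e f) (sB e f)) = 0
  · left
    unfold weight
    rw [if_pos hg]
  have h5 : 4 * v.red (c * (3 * e)) ^ 3 = 27 * v.red (c ^ 3 * (108 * f)) := by
    by_contra h
    exact hg ((hs.disc h3k hΔ hmin).2 ⟨hb0, h⟩)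
  right
  constructor
  · rw [red3 he, red108 hf] at h5
    have e1 : (108 : v.RF) * (v.red (c * e) ^ 3 - 27 * v.red (c ^ 3 * f)) = 0 := by
      linear_combination h5
    exact sub_eq_zero.1 ((mul_eq_zero.1 e1).resolve_left h108)
  · have hn := hs.node h6 hab hmin hb0 h5
    unfold weight f3'
    rw [if_neg hg, if_pos (show ((3 : ℕ) : ℤ) ∣ (Nat.card (S.Res v) : ℤ) -
      S.trace v (sA e f) (sB e f) by exact_mod_cast hn)]
    by_cases h7 : ((3 : ℕ) : ℤ) ∣ (Nat.card (S.Res v) : ℤ) - 1
    · rw [if_pos h7, if_pos (cast3.1 h7)]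
      simp
    · rw [if_neg h7, if_neg (fun h => h7 (cast3.2 h))]
      simp

end loc

section gen

variable {k K : Type} [Field k] [Finite k] [Field K] [Algebra k K] [FF.IsFF k K]

/-- the polynomial of the nodes -/
noncomputable def gg (e f : k[X]) : k[X] := e ^ 3 - 27 * f

/-- the bound of the weight -/
noncomputable def wt3 (e f : k[X]) (x : K) (v : Place k K) : ℕ :=
  (if 0 < v.ord (aeval x f) then f3 (S.deg v) else 0) +
    (if 0 < v.ord (aeval x (gg e f)) then f3' (Nat.card k) (S.deg v) else 0) +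
      (if (gg e f).natDegree < f.natDegree then
        (if 0 < v.ord x⁻¹ then f3' (Nat.card k) (S.deg v) else 0) else 0)

/-- the bound of the sum of the weights -/
noncomputable def W3 (e f : k[X]) (x : K) : ℕ :=
  wSum k f3 (aeval x f) + wSum k (f3' (Nat.card k)) (aeval x (gg e f)) +
    (if (gg e f).natDegree < f.natDegree then wSum k (f3' (Nat.card k)) x⁻¹ else 0)

theorem disc_ne' (h6 : (6 : k) ≠ 0) {e f : k[X]} (hf : f ≠ 0) (hg : gg e f ≠ 0) {x : K}
    (hx : Transcendental k x) :
    4 * sA (aeval x e) (aeval x f) ^ 3 + 27 * sB (aeval x e) (aeval x f) ^ 2 ≠ 0 := by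
  have h2 : (2 : K) ≠ 0 := by
    have h2k : (2 : k) ≠ 0 := fun e => h6 (by linear_combination 3 * e)
    have : algebraMap k K 2 ≠ 0 := by simpa using h2k
    rwa [map_ofNat] at this
  have h3 : (3 : K) ≠ 0 := by
    have h2k : (3 : k) ≠ 0 := fun e => h6 (by linear_combination 2 * e)
    have : algebraMap k K 3 ≠ 0 := by simpa using h2k
    rwa [map_ofNat] at this
  rw [s_disc]
  have e1 : aeval x (gg e f) = aeval x e ^ 3 - 27 * aeval x f := by
    unfold gg
    rw [map_sub, map_pow, map_mul, map_ofNat]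
  rw [← e1]
  exact neg_ne_zero.2 (mul_ne_zero (mul_ne_zero (pow_ne_zero _ h2) (pow_ne_zero _ h3))
    (mul_ne_zero (pow_ne_zero 3 (TH180.R4.aeval_ne hx hf)) (TH180.R4.aeval_ne hx hg)))

theorem weight_gen (h6 : (6 : k) ≠ 0) {e f : k[X]} {m : ℕ} (he : e.natDegree ≤ m)
    (hf : f.natDegree = 3 * m) (hf0 : f ≠ 0) (hg0 : gg e f ≠ 0) (hm : 0 < m)
    (hcop : IsCoprime e f) {x : K} (hx : Transcendental k x) (v : Place k K) :
    weight 3 v (sA (aeval x e) (aeval x f)) (sB (aeval x e) (aeval x f)) ≤ wt3 e f x v := by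
  have hΔ := disc_ne' (K := K) h6 hf0 hg0 hx
  have hx0 : x ≠ 0 := by
    rintro rfl
    exact hx isAlgebraic_zero
  rcases lt_or_ge (v.ord x) 0 with hi | hfin
  · -- the poles
    set u : K := x⁻¹ with hu
    have hu0 : u ≠ 0 := inv_ne_zero hx0
    have huo : 0 < v.ord u := by rw [hu, v.ord_inv]; omega
    have hur : v.Reg u := Or.inr huo.le
    have hured : v.red u = 0 := (v.red_eq_zero_iff hur).2 (Or.inr huo)
    letI : Invertible x := invertibleOfNonzero hx0
    have hrefl : ∀ (N : ℕ) (P : k[X]), P.natDegree ≤ N → u ^ N * aeval x P = aeval u (reflect N P) := by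
      intro N P hP
      have h1 := eval₂_reflect_mul_pow (algebraMap k K) x N P hP
      rw [invOf_eq_inv] at h1
      rw [aeval_def, aeval_def, ← h1, hu, inv_pow]
      have hxN : x ^ N ≠ 0 := pow_ne_zero N hx0
      field_simp
    have hredr : ∀ (N : ℕ) (P : k[X]), P.natDegree ≤ N → v.Reg (u ^ N * aeval x P) ∧
        v.red (u ^ N * aeval x P) = algebraMap k v.RF (P.coeff N) := by
      intro N P hP
      rw [hrefl N P hP]
      refine ⟨H675R3.ZT.reg_aeval v hur _, ?_⟩
      rw [H675R3.ZT.red_aeval v hur, hured, ← coeff_zero_eq_aeval_zero', coeff_reflect]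
      congr 2
    have h3m : u ^ (3 * m) = (u ^ m) ^ 3 := by rw [← pow_mul, mul_comm]
    obtain ⟨r1, r2⟩ := hredr m e he
    obtain ⟨r3, r4⟩ := hredr (3 * m) f hf.le
    rw [h3m] at r3 r4
    have hlead : f.coeff (3 * m) ≠ 0 := by
      rw [← hf]
      exact leadingCoeff_ne_zero.2 hf0
    have hne : v.red ((u ^ m) ^ 3 * aeval x f) ≠ 0 := by
      rw [r4]
      exact (_root_.map_ne_zero _).2 hlead
    rcases weight_unit h6 hΔ (pow_ne_zero m hu0) r1 r3 hne with h | ⟨h7, h8⟩
    · rw [h]
      exact Nat.zero_le _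
    · refine h8.trans ?_
      have hgc : (gg e f).coeff (3 * m) = 0 := by
        have h9 : (e ^ 3).coeff (3 * m) = e.coeff m ^ 3 := by
          rw [← coeff_pow_of_natDegree_le he]
        have e27 : (27 * f : k[X]) = C 27 * f := rfl
        unfold gg
        rw [coeff_sub, h9, e27, coeff_C_mul]
        apply (algebraMap k v.RF).injective
        rw [r2, r4] at h7
        rw [map_sub, map_pow, map_mul, map_ofNat, h7, map_zero, sub_self]
      have hgd : (gg e f).natDegree < f.natDegree := by
        rw [hf]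
        have h10 : (gg e f).natDegree ≤ 3 * m := by
          unfold gg
          have h11 := natDegree_sub_le (e ^ 3) (27 * f)
          have h12 : (e ^ 3).natDegree = 3 * e.natDegree := natDegree_pow _ _
          have h13 : (27 * f : k[X]).natDegree ≤ f.natDegree := natDegree_C_mul_le (27 : k) f
          rw [le_max_iff] at h11
          omega
        rcases lt_or_eq_of_le h10 with h | h
        · exact h
        · exfalso
          rw [← h] at hgc
          exact (leadingCoeff_ne_zero.2 hg0) hgc
      unfold wt3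
      rw [if_pos hgd, if_pos huo]
      omega
  · have hxr : v.Reg x := Or.inr hfin
    have hre : v.Reg (1 * aeval x e) := by rw [one_mul]; exact H675R3.ZT.reg_aeval v hxr e
    have hrf : v.Reg (1 ^ 3 * aeval x f) := by
      rw [one_pow, one_mul]; exact H675R3.ZT.reg_aeval v hxr f
    have hz : ∀ P : k[X], P ≠ 0 → (v.red (aeval x P) = 0 ↔ 0 < v.ord (aeval x P)) := by
      intro P hP
      rw [v.red_eq_zero_iff (H675R3.ZT.reg_aeval v hxr P)]
      exact ⟨fun h => h.resolve_left (TH180.R4.aeval_ne hx hP), Or.inr⟩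
    by_cases h1 : v.red (aeval x f) = 0
    · have h2 : v.red (aeval x e) ≠ 0 := by
        intro h2
        obtain ⟨a, b, hab⟩ := hcop
        have h3 := congrArg (aeval (v.red x)) hab
        rw [map_add, map_mul, map_mul, map_one, ← H675R3.ZT.red_aeval v hxr e,
          ← H675R3.ZT.red_aeval v hxr f, h1, h2, mul_zero, mul_zero, add_zero] at h3
        exact zero_ne_one h3
      refine (weight_split h6 hΔ one_ne_zero hre hrf (by rw [one_pow, one_mul]; exact h1)
        (by rw [one_mul]; exact h2)).trans ?_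
      unfold wt3
      rw [if_pos ((hz f hf0).1 h1)]
      omega
    · rcases weight_unit h6 hΔ one_ne_zero hre hrf (by rw [one_pow, one_mul]; exact h1) with
        h | ⟨h7, h8⟩
      · rw [h]
        exact Nat.zero_le _
      · refine h8.trans ?_
        rw [one_mul, one_pow, one_mul] at h7
        have h9 : v.red (aeval x (gg e f)) = 0 := by
          rw [H675R3.ZT.red_aeval v hxr]
          unfold gg
          rw [map_sub, map_pow, map_mul, map_ofNat, ← H675R3.ZT.red_aeval v hxr,
            ← H675R3.ZT.red_aeval v hxr, h7, sub_self]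
        unfold wt3
        rw [if_pos ((hz _ hg0).1 h9)]
        omega

theorem wt3_sum (e f : k[X]) (x : K) :
    (Function.support fun v : Place k K => wt3 e f x v).Finite ∧
      ∑ᶠ v : Place k K, wt3 e f x v = W3 e f x := by
  have s1 := TH180.R2.supp_finite (k := k) (aeval x f) (fun v => f3 (S.deg v))
  have s2 := TH180.R2.supp_finite (k := k) (aeval x (gg e f)) (fun v => f3' (Nat.card k) (S.deg v))
  have s3' := TH180.R2.supp_finite (k := k) x⁻¹ (fun v => f3' (Nat.card k) (S.deg v))
  have s3 : (Function.support fun v : Place k K => if (gg e f).natDegree < f.natDegree then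
        (if 0 < v.ord x⁻¹ then f3' (Nat.card k) (S.deg v) else 0) else 0).Finite := by
    split_ifs
    · exact s3'
    · simp
  have s12 : (Function.support fun v : Place k K =>
      (if 0 < v.ord (aeval x f) then f3 (S.deg v) else 0) +
      (if 0 < v.ord (aeval x (gg e f)) then f3' (Nat.card k) (S.deg v) else 0)).Finite := by
    refine (s1.union s2).subset ?_
    intro v hv
    rw [Function.mem_support] at hv
    by_contra h
    rw [Set.mem_union, not_or, Function.notMem_support, Function.notMem_support] at h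
    exact hv (by rw [h.1, h.2, add_zero])
  constructor
  · refine (s12.union s3).subset ?_
    intro v hv
    rw [Function.mem_support] at hv
    by_contra h
    rw [Set.mem_union, not_or, Function.notMem_support, Function.notMem_support] at h
    apply hv
    unfold wt3
    rw [h.1, h.2, add_zero]
  · unfold W3 wSum
    have e3 : (if (gg e f).natDegree < f.natDegree then
        ∑ᶠ v : Place k K, (if 0 < v.ord x⁻¹ then f3' (Nat.card k) (S.deg v) else 0) else 0) =
        ∑ᶠ v : Place k K, (if (gg e f).natDegree < f.natDegree then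
        (if 0 < v.ord x⁻¹ then f3' (Nat.card k) (S.deg v) else 0) else 0) := by
      split_ifs
      · rfl
      · rw [finsum_zero]
    rw [e3, ← finsum_add_distrib s1 s2, ← finsum_add_distrib s12 s3]
    rfl

theorem sum_gen (h6 : (6 : k) ≠ 0) {e f : k[X]} {m : ℕ} (he : e.natDegree ≤ m)
    (hf : f.natDegree = 3 * m) (hf0 : f ≠ 0) (hg0 : gg e f ≠ 0) (hm : 0 < m)
    (hcop : IsCoprime e f) {x : K} (hx : Transcendental k x) :
    weightSum 3 k (sA (aeval x e) (aeval x f)) (sB (aeval x e) (aeval x f)) ≤ W3 e f x := by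
  obtain ⟨hs2, hsum⟩ := wt3_sum (K := K) e f x
  rw [← hsum]
  unfold weightSum
  have hw := weight_gen (K := K) h6 he hf hf0 hg0 hm hcop hx
  have hs1 : (Function.support fun v : Place k K =>
      weight 3 v (sA (aeval x e) (aeval x f)) (sB (aeval x e) (aeval x f))).Finite := by
    refine hs2.subset ?_
    intro v hv
    rw [Function.mem_support] at hv ⊢
    have := hw v
    intro h0
    rw [h0] at this
    omega
  exact finsum_le_finsum' hs1 hs2 hw

end gen

end Pool.Agent.R427.TS
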