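import Pool.Agent.R427.TS5

/-!
The curves `y ^ 2 + e x y + f y = x ^ 3` over arbitrary function fields: the rank and an explicit family.
-/

set_option autoImplicit false
set_option linter.all false
set_option maxHeartbeats 4000000

open Polynomial FF WeierstrassCurve WeierstrassCurve.Affine
open scoped Classical

namespace Pool.Agent.R427.TS

open Pool.Agent.W343.BSD Pool.Agent.H525R3.FFp
open Pool.Agent.W313.Gr (curve PointsDvd weight weightSum rootSum rank rank_mono)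
open Pool.Agent.TH639.B3 (IsT3 Sc)
open Pool.Agent.W309.RF
open Pool.Agent.R427.FT (wSum wSum_irr wSum_comp wSum_pole wSum_mono wSum_mul_le ns_iff dbl)

/-- the point of order three -/
theorem three_tors' {F : Type} [Field F] (h2 : (2 : F) ≠ 0) (h3 : (3 : F) ≠ 0) {e f : F}
    (hf : f ≠ 0) : ∃ P : (curve (sA e f) (sB e f)).toAffine.Point, P ≠ 0 ∧ (3 : ℕ) • P = 0 := by
  have h108 : (108 : F) ≠ 0 := by
    have : (108 : F) = 2 ^ 2 * 3 ^ 3 := by norm_num
    rw [this]
    exact mul_ne_zero (pow_ne_zero _ h2) (pow_ne_zero _ h3)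
  have hy : 108 * f ≠ 0 := mul_ne_zero h108 hf
  have hP : (curve (sA e f) (sB e f)).toAffine.Nonsingular (3 * e ^ 2) (108 * f) := by
    rw [ns_iff]
    refine ⟨?_, Or.inr (mul_ne_zero h2 hy)⟩
    unfold sA sB
    ring
  have hQ : (curve (sA e f) (sB e f)).toAffine.Nonsingular (3 * e ^ 2) (-(108 * f)) := by
    rw [ns_iff]
    refine ⟨?_, Or.inr (mul_ne_zero h2 (neg_ne_zero.2 hy))⟩
    unfold sA sB
    ring
  set P : (curve (sA e f) (sB e f)).toAffine.Point := Point.some _ _ hP with hPd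
  set Q : (curve (sA e f) (sB e f)).toAffine.Point := Point.some _ _ hQ with hQd
  have h2P : P + P = Q := by
    have := dbl h2 hP hy (l := 3 * e) (by unfold sA; ring) (by ring) (by ring) hQ
    convert this
  have hPQ : P + Q = 0 := by
    rw [hPd, hQd]
    apply Point.add_of_Y_eq rfl
    show 108 * f = -(-(108 * f)) - 0 * _ - 0
    ring
  refine ⟨P, by rw [hPd]; exact Point.some_ne_zero _, ?_⟩
  rw [show (3 : ℕ) = 2 + 1 from rfl, add_smul, two_nsmul, one_smul, h2P, add_comm, hPQ]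

section gen

variable {k K : Type} [Field k] [Finite k] [Field K] [Algebra k K] [FF.IsFF k K]

/-- the `j`-invariant is not constant -/
theorem noniso' (h2 : (2 : k) ≠ 0) (h3 : (3 : k) ≠ 0) {p q r : k[X]} (ip : Irreducible p)
    (iq : Irreducible q) (ir : Irreducible r) (npq : ¬ Associated p q) (npr : ¬ Associated p r)
    (hcop : IsCoprime (p - q - r) (p * q * r)) (c : k) :
    6912 * sA (p - q - r) (p * q * r) ^ 3 ≠
      C c * (4 * sA (p - q - r) (p * q * r) ^ 3 + 27 * sB (p - q - r) (p * q * r) ^ 2) := by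
  intro h0
  set e := p - q - r with he
  set f := p * q * r with hf
  have hbig : (2 ^ 8 * 3 ^ 12 : k[X]) ≠ 0 := by
    have e1 : (2 ^ 8 * 3 ^ 12 : k[X]) = C (2 ^ 8 * 3 ^ 12) := by
      rw [C_mul, C_pow, C_pow]
      rfl
    rw [e1, Ne, C_eq_zero]
    exact mul_ne_zero (pow_ne_zero _ h2) (pow_ne_zero _ h3)
  have h1 : e ^ 3 * (e ^ 3 - 24 * f) ^ 3 = C c * (f ^ 3 * (e ^ 3 - 27 * f)) := by
    rw [s_disc] at h0
    unfold sA at h0
    have e1 : (2 ^ 8 * 3 ^ 12 : k[X]) * (e ^ 3 * (e ^ 3 - 24 * f) ^ 3) =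
        2 ^ 8 * 3 ^ 12 * (C c * (f ^ 3 * (e ^ 3 - 27 * f))) := by
      linear_combination -h0
    exact mul_left_cancel₀ hbig e1
  have hpf : p ∣ f := by rw [hf]; exact dvd_mul_of_dvd_left (dvd_mul_right p q) r
  have hpe : p ∣ e := by
    have h5 : p ∣ e ^ 3 * (e ^ 3 - 24 * f) ^ 3 := by
      rw [h1]
      exact dvd_mul_of_dvd_right (dvd_mul_of_dvd_left (dvd_pow hpf (by norm_num)) _) _
    rcases ip.prime.dvd_or_dvd h5 with h6 | h6
    · exact ip.prime.dvd_of_dvd_pow h6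
    · have h7 := ip.prime.dvd_of_dvd_pow h6
      have h8 : p ∣ e ^ 3 := by
        have e1 : e ^ 3 = (e ^ 3 - 24 * f) + 24 * f := by ring
        rw [e1]
        exact dvd_add h7 (hpf.mul_left 24)
      exact ip.prime.dvd_of_dvd_pow h8
  exact ip.not_isUnit (hcop.isUnit_of_dvd' hpe hpf)

theorem noniso_K (h2 : (2 : k) ≠ 0) (h3 : (3 : k) ≠ 0) {p q r : k[X]} (ip : Irreducible p)
    (iq : Irreducible q) (ir : Irreducible r) (npq : ¬ Associated p q) (npr : ¬ Associated p r)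
    (hcop : IsCoprime (p - q - r) (p * q * r)) {x : K} (hx : Transcendental k x) (c : k) :
    6912 * sA (aeval x (p - q - r)) (aeval x (p * q * r)) ^ 3 ≠
      algebraMap k K c * (4 * sA (aeval x (p - q - r)) (aeval x (p * q * r)) ^ 3 +
        27 * sB (aeval x (p - q - r)) (aeval x (p * q * r)) ^ 2) := by
  intro h
  set P : k[X] := 6912 * sA (p - q - r) (p * q * r) ^ 3 -
      C c * (4 * sA (p - q - r) (p * q * r) ^ 3 + 27 * sB (p - q - r) (p * q * r) ^ 2) with hP
  have hA : aeval x (sA (p - q - r) (p * q * r)) =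
      sA (aeval x (p - q - r)) (aeval x (p * q * r)) :=
    map_sA (aeval x : k[X] →ₐ[k] K).toRingHom _ _
  have hB : aeval x (sB (p - q - r) (p * q * r)) =
      sB (aeval x (p - q - r)) (aeval x (p * q * r)) :=
    map_sB (aeval x : k[X] →ₐ[k] K).toRingHom _ _
  have h1 : aeval x P = 0 := by
    have e1 : aeval x P = 6912 * aeval x (sA (p - q - r) (p * q * r)) ^ 3 -
        algebraMap k K c * (4 * aeval x (sA (p - q - r) (p * q * r)) ^ 3 +
          27 * aeval x (sB (p - q - r) (p * q * r)) ^ 2) := by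
      rw [hP]
      simp only [map_add, map_mul, map_pow, map_sub, aeval_C, map_ofNat]
    rw [e1, hA, hB, h, sub_self]
  have h2' : P ≠ 0 := sub_ne_zero.2 (noniso' h2 h3 ip iq ir npq npr hcop c)
  exact TH180.R4.aeval_ne hx h2' h1

theorem rank_pull' (h2 : (2 : k) ≠ 0) (h3 : (3 : k) ≠ 0) {p q r : k[X]}
    (hns : (∀ z : RatFunc k, z ^ 2 ≠ -3) ∨ ∀ z : k[X], z ^ 3 ≠ (p - q - r) ^ 3 - 27 * (p * q * r))
    (hp : Irreducible p) (hq : Irreducible q) (hr : Irreducible r)
    (hpq : ¬ Associated p q) (hpr : ¬ Associated p r) (hqr : ¬ Associated q r) {x : K}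
    (hx : Transcendental k x) :
    1 ≤ rank (sA (aeval x (p - q - r)) (aeval x (p * q * r)))
      (sB (aeval x (p - q - r)) (aeval x (p * q * r))) := by
  obtain ⟨Φ, hX⟩ := TH180.R4.exists_lift hx
  letI : Algebra (RatFunc k) K := Φ.toRingHom.toAlgebra
  have hΦa : ∀ x : RatFunc k, algebraMap (RatFunc k) K x = Φ x := fun _ => rfl
  have hΦp : ∀ g : k[X], Φ (algebraMap k[X] (RatFunc k) g) = aeval x g := by
    intro g
    have e1 : algebraMap k[X] (RatFunc k) g = aeval (RatFunc.X : RatFunc k) g := by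
      rw [← RatFunc.algebraMap_X, aeval_algebraMap_apply, aeval_X_left_apply]
    rw [e1, ← hX]
    exact (aeval_algHom_apply Φ RatFunc.X g).symm
  have h1 := rank_mono (K' := K) (sA (algebraMap k[X] (RatFunc k) (p - q - r))
        (algebraMap k[X] (RatFunc k) (p * q * r)))
      (sB (algebraMap k[X] (RatFunc k) (p - q - r))
        (algebraMap k[X] (RatFunc k) (p * q * r)))
  rw [map_sA, map_sB, hΦa, hΦa, hΦp, hΦp] at h1
  exact (rank_pos' h2 h3 hns hp hq hr hpq hpr hqr).trans h1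

end gen

section explicit

variable {k : Type} [Field k]

/-- the three linear polynomials -/
noncomputable def L1 (u : k) : k[X] := 1 + C (u ^ 3) * X
noncomputable def L2 (k : Type) [Field k] : k[X] := -(1 + C 1 * X)
noncomputable def L3 (u : k) : k[X] := -(1 + C (-(u + 1) ^ 3) * X)

theorem L_e (u : k) : L1 u - L2 k - L3 u = 3 * (1 - C (u * (u + 1)) * X) := by
  unfold L1 L2 L3
  simp only [C_mul, C_add, C_pow, C_neg, C_1]
  ring

theorem L_g (u : k) : (L1 u - L2 k - L3 u) ^ 3 - 27 * (L1 u * L2 k * L3 u) =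
    C (27 * (u ^ 2 + u + 1) ^ 3) * X ^ 2 := by
  unfold L1 L2 L3
  simp only [C_mul, C_add, C_pow, C_neg, C_1]
  rw [show (C 27 : k[X]) = 27 from rfl]
  ring

theorem lin_facts {a : k} (ha : a ≠ 0) :
    Irreducible (1 + C a * X : k[X]) ∧ (1 + C a * X : k[X]).natDegree = 1 := by
  have h1 : (1 + C a * X : k[X]).natDegree = 1 := by
    rw [add_comm, ← C_1]
    exact natDegree_linear ha
  exact ⟨irreducible_of_degree_eq_one (degree_eq_iff_natDegree_eq_of_pos one_pos |>.2 h1), h1⟩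

theorem irr_neg {P : k[X]} (hP : Irreducible P) : Irreducible (-P) :=
  (Associated.irreducible_iff (Associated.neg_left (Associated.refl _))).2 hP

theorem L_facts [Finite k] (h3 : (3 : k) ≠ 0) {u : k}
    (hu : u * (u + 1) * (u - 1) * (u + 2) * (2 * u + 1) ≠ 0) (hom : u ^ 2 + u + 1 ≠ 0) :
    Irreducible (L1 u) ∧ Irreducible (L2 k) ∧ Irreducible (L3 u) ∧ ¬ Associated (L1 u) (L2 k) ∧
      ¬ Associated (L1 u) (L3 u) ∧ ¬ Associated (L2 k) (L3 u) ∧
      IsCoprime (L1 u - L2 k - L3 u) (L1 u * L2 k * L3 u) ∧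
      (L1 u * L2 k * L3 u).natDegree = 3 ∧ (L1 u - L2 k - L3 u).natDegree ≤ 1 ∧
      ∀ z : k[X], z ^ 3 ≠ (L1 u - L2 k - L3 u) ^ 3 - 27 * (L1 u * L2 k * L3 u) := by
  have u5 : 2 * u + 1 ≠ 0 := right_ne_zero_of_mul hu
  have hu' := left_ne_zero_of_mul hu
  have u4 : u + 2 ≠ 0 := right_ne_zero_of_mul hu'
  have hu'' := left_ne_zero_of_mul hu'
  have u3 : u - 1 ≠ 0 := right_ne_zero_of_mul hu''
  have hu3 := left_ne_zero_of_mul hu''
  have u2 : u + 1 ≠ 0 := right_ne_zero_of_mul hu3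
  have u1 : u ≠ 0 := left_ne_zero_of_mul hu3
  have a1 : u ^ 3 ≠ 0 := pow_ne_zero 3 u1
  have a2 : -(u + 1) ^ 3 ≠ 0 := neg_ne_zero.2 (pow_ne_zero 3 u2)
  obtain ⟨i1, d1⟩ := lin_facts a1
  obtain ⟨i2, d2⟩ := lin_facts (one_ne_zero (α := k))
  obtain ⟨i3, d3⟩ := lin_facts a2
  have hXd : 0 < (X : k[X]).natDegree := by rw [natDegree_X]; exact one_pos
  have hκ : (27 * (u ^ 2 + u + 1) ^ 3 : k) ≠ 0 := by
    have : (27 : k) = 3 ^ 3 := by norm_num
    rw [this]
    exact mul_ne_zero (pow_ne_zero 3 h3) (pow_ne_zero 3 hom)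
  refine ⟨i1, irr_neg i2, irr_neg i3, ?_, ?_, ?_, ?_, ?_, ?_, ?_⟩
  · intro ha
    have h1 : Associated (1 + C (u ^ 3) * X) (1 + C 1 * X) :=
      ha.trans (Associated.neg_left (Associated.refl _))
    have h5 := lin_assoc hXd coeff_X_zero h1
    have h6 : (u - 1) * (u ^ 2 + u + 1) = 0 := by linear_combination h5
    exact (mul_ne_zero u3 hom) h6
  · intro ha
    have h1 : Associated (1 + C (u ^ 3) * X) (1 + C (-(u + 1) ^ 3) * X) :=
      ha.trans (Associated.neg_left (Associated.refl _))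
    have h5 := lin_assoc hXd coeff_X_zero h1
    have h6 : (2 * u + 1) * (u ^ 2 + u + 1) = 0 := by linear_combination h5
    exact (mul_ne_zero u5 hom) h6
  · intro ha
    have h1 : Associated (1 + C 1 * X) (1 + C (-(u + 1) ^ 3) * X) :=
      (Associated.neg_right (Associated.refl _)).trans
        (ha.trans (Associated.neg_left (Associated.refl _)))
    have h5 := lin_assoc hXd coeff_X_zero h1
    have h6 : (u + 2) * (u ^ 2 + u + 1) = 0 := by linear_combination h5
    exact (mul_ne_zero u4 hom) h6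
  · -- coprime
    set e := L1 u - L2 k - L3 u with he
    set f := L1 u * L2 k * L3 u with hf
    have hg : e ^ 3 - 27 * f = C (27 * (u ^ 2 + u + 1) ^ 3) * X ^ 2 := L_g u
    have hee : e = 3 * (1 - C (u * (u + 1)) * X) := L_e u
    have h1 : IsCoprime e (X ^ 2 : k[X]) := by
      apply IsCoprime.pow_right
      refine ⟨C (3⁻¹), C (u * (u + 1)), ?_⟩
      rw [hee]
      have e3 : (C (3⁻¹) * 3 : k[X]) = 1 := by
        rw [show (3 : k[X]) = C 3 from rfl, ← C_mul, inv_mul_cancel₀ h3, C_1]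
      linear_combination (1 - C (u * (u + 1)) * X) * e3
    obtain ⟨a, b, hab⟩ := h1
    refine ⟨a + b * C (27 * (u ^ 2 + u + 1) ^ 3)⁻¹ * e ^ 2,
      -(27 * b * C (27 * (u ^ 2 + u + 1) ^ 3)⁻¹), ?_⟩
    have e5 : (C (27 * (u ^ 2 + u + 1) ^ 3)⁻¹ * C (27 * (u ^ 2 + u + 1) ^ 3) : k[X]) = 1 := by
      rw [← C_mul, inv_mul_cancel₀ hκ, C_1]
    linear_combination hab + b * C (27 * (u ^ 2 + u + 1) ^ 3)⁻¹ * hg + b * X ^ 2 * e5
  · unfold L1 L2 L3
    rw [natDegree_mul (mul_ne_zero i1.ne_zero (irr_neg i2).ne_zero) (irr_neg i3).ne_zero,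
      natDegree_mul i1.ne_zero (irr_neg i2).ne_zero, natDegree_neg, natDegree_neg, d1, d2, d3]
  · rw [L_e]
    have h5 : (3 * (1 - C (u * (u + 1)) * X) : k[X]).natDegree ≤
        (1 - C (u * (u + 1)) * X).natDegree := natDegree_C_mul_le (3 : k) _
    have h6 := natDegree_sub_le (1 : k[X]) (C (u * (u + 1)) * X)
    have h7 : (C (u * (u + 1)) * X).natDegree ≤ (X : k[X]).natDegree := natDegree_C_mul_le _ _
    rw [natDegree_one] at h6
    rw [natDegree_X] at h7
    rw [le_max_iff] at h6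
    omega
  · intro z hz
    rw [L_g] at hz
    have h5 := congrArg natDegree hz
    rw [natDegree_pow, natDegree_C_mul_X_pow _ _ hκ] at h5
    omega

variable [Finite k]

theorem f3'_le (q : ℕ) {n : ℕ} (h : ¬ 3 ∣ n) : f3' q n ≤ 1 := by
  unfold f3'
  split_ifs
  · rw [padicValNat.eq_zero_of_not_dvd h, pow_zero]
  · omega

/-- the weight for the explicit family -/
theorem exists_L (h3 : (3 : k) ≠ 0) {u : k}
    (hu : u * (u + 1) * (u - 1) * (u + 2) * (2 * u + 1) ≠ 0) (hom : u ^ 2 + u + 1 ≠ 0)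
    {l : ℕ} (hl : l.Prime) (hl5 : 5 ≤ l) (hd : l ∣ Nat.card k - 1) : ∃ c : k, c ≠ 0 ∧ ∀ j : ℕ,
      W3 (L1 u - L2 k - L3 u) (L1 u * L2 k * L3 u) (A (C c * X ^ l ^ j)) ≤
        1 + (if 3 ∣ Nat.card k - 1 then 4 else 2) := by
  obtain ⟨i1, i2, i3, n1, n2, n3, hcop, hd3, hd1, hnc⟩ := L_facts h3 hu hom
  set e := L1 u - L2 k - L3 u with he
  set f := L1 u * L2 k * L3 u with hf
  have hf0 : f.coeff 0 ≠ 0 := by
    rw [hf, coeff_zero_eq_eval_zero]
    unfold L1 L2 L3
    simp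
  obtain ⟨c, hc, hirr⟩ := TH180.R4.exists_c hf0 hl (by omega) (by omega) hd
  refine ⟨c, hc, fun j => ?_⟩
  set n := l ^ j with hn
  have hnpos : 0 < n := pow_pos hl.pos j
  set m : k[X] := C c * X ^ n with hm
  have hmd : m.natDegree = n := natDegree_C_mul_X_pow _ _ hc
  have hn3 : ¬ 3 ∣ n := by
    intro hd3
    have h5 := (Nat.prime_dvd_prime_iff_eq Nat.prime_three hl).1
      (Nat.prime_three.dvd_of_dvd_pow hd3)
    omega
  have hK : IsCurveField k (RatFunc k) := Pool.Agent.TH958.T4.isCurveField_rat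
  haveI : FF.IsFF k (RatFunc k) := ⟨hK.essFiniteType, hK.trdeg_eq_one⟩
  -- the zeros of `f`
  have w1 : wSum k f3 (aeval (A m) f) ≤ 3 := by
    have hw := sum_three (k := k) (p := (L1 u).comp m) (q := (L2 k).comp m) (r := (L3 u).comp m)
      (hirr j _ i1 (by rw [hf]; exact dvd_mul_of_dvd_left (dvd_mul_right _ _) _))
      (hirr j _ i2 (by rw [hf]; exact dvd_mul_of_dvd_left (dvd_mul_left _ _) _))
      (hirr j _ i3 (by rw [hf]; exact dvd_mul_left _ _))
    have hu' := left_ne_zero_of_mul hu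
    have hu'' := left_ne_zero_of_mul hu'
    have hu3 := left_ne_zero_of_mul hu''
    have a1 : u ^ 3 ≠ 0 := pow_ne_zero 3 (left_ne_zero_of_mul hu3)
    have a2 : -(u + 1) ^ 3 ≠ 0 := neg_ne_zero.2 (pow_ne_zero 3 (right_ne_zero_of_mul hu3))
    have g1 : (L1 u).natDegree = 1 := (lin_facts a1).2
    have g2 : (L2 k).natDegree = 1 := by
      unfold L2; rw [natDegree_neg]; exact (lin_facts one_ne_zero).2
    have g3 : (L3 u).natDegree = 1 := by
      unfold L3; rw [natDegree_neg]; exact (lin_facts a2).2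
    have hw' := hw (by rw [natDegree_comp, g1, hmd, one_mul]; exact hn3)
      (by rw [natDegree_comp, g2, hmd, one_mul]; exact hn3)
      (by rw [natDegree_comp, g3, hmd, one_mul]; exact hn3)
    have e1 : aeval (A m) f = A ((L1 u).comp m * (L2 k).comp m * (L3 u).comp m) := by
      rw [← mul_comp, ← mul_comp, ← hf, FT.aeval_A]
    rw [e1]
    exact hw'
  -- the zeros of `g`
  have e2 : aeval (A m) (gg e f) = A (C (27 * (u ^ 2 + u + 1) ^ 3 * c ^ 2) * X ^ (2 * n)) := by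
    have h5 : gg e f = C (27 * (u ^ 2 + u + 1) ^ 3) * X ^ 2 := L_g u
    rw [h5, FT.aeval_A]
    congr 1
    rw [mul_comp, C_comp, pow_comp, X_comp, hm, mul_pow, ← pow_mul, mul_comm n 2, ← mul_assoc,
      ← C_pow, ← C_mul]
  have hκ : (27 * (u ^ 2 + u + 1) ^ 3 : k) ≠ 0 := by
    have : (27 : k) = 3 ^ 3 := by norm_num
    rw [this]
    exact mul_ne_zero (pow_ne_zero 3 h3) (pow_ne_zero 3 hom)
  have w2 : wSum k (f3' (Nat.card k)) (aeval (A m) (gg e f)) ≤ f3' (Nat.card k) 1 := by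
    rw [e2]
    exact wSum_mono _ (mul_ne_zero hκ (pow_ne_zero 2 hc)) _
  have w3 : wSum k (f3' (Nat.card k)) (A m)⁻¹ ≤ f3' (Nat.card k) 1 := wSum_pole _ m
  have hf1 : f3' (Nat.card k) 1 = if 3 ∣ Nat.card k - 1 then 1 else 0 := by
    unfold f3'
    rw [pow_one, padicValNat_one_right, pow_zero]
  rw [hf1] at w2 w3
  unfold W3
  split_ifs at w2 w3 ⊢ <;> omega

end explicit

end Pool.Agent.R427.TS
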