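import Pool.Agent.R427.TS7

/-!
The curves `y ^ 2 + e x y + f y = x ^ 3`: extensions of the field of constants and roots of `t`.
-/

set_option autoImplicit false
set_option linter.all false
set_option maxHeartbeats 4000000

open Polynomial FF
open scoped Classical

namespace Pool.Agent.R427.TS

open Pool.Agent.W343.BSD
open Pool.Agent.W309.RF
open Pool.Agent.R427.FT (wSum wSum_irr wSum_comp wSum_pole wSum_mono wSum_mul_le)

section one

variable {k : Type} [Field k] [Finite k]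

/-- the weight for the explicit family -/
theorem W3_L (h3 : (3 : k) ≠ 0) {u : k}
    (hu : u * (u + 1) * (u - 1) * (u + 2) * (2 * u + 1) ≠ 0) (hom : u ^ 2 + u + 1 ≠ 0)
    {c : k} (hc : c ≠ 0) {n : ℕ} (hnpos : 0 < n) (hn3 : ¬ 3 ∣ n)
    (j1 : Irreducible ((L1 u).comp (C c * X ^ n))) (j2 : Irreducible ((L2 k).comp (C c * X ^ n)))
    (j3 : Irreducible ((L3 u).comp (C c * X ^ n))) :
    W3 (L1 u - L2 k - L3 u) (L1 u * L2 k * L3 u) (A (C c * X ^ n)) ≤
        1 + (if 3 ∣ Nat.card k - 1 then 4 else 2) := by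
  set e := L1 u - L2 k - L3 u with he
  set f := L1 u * L2 k * L3 u with hf
  set m : k[X] := C c * X ^ n with hm
  have hmd : m.natDegree = n := natDegree_C_mul_X_pow _ _ hc
  have hK : IsCurveField k (RatFunc k) := Pool.Agent.TH958.T4.isCurveField_rat
  haveI : FF.IsFF k (RatFunc k) := ⟨hK.essFiniteType, hK.trdeg_eq_one⟩
  have w1 : wSum k f3 (aeval (A m) f) ≤ 3 := by
    have hw := sum_three (k := k) j1 j2 j3
    have hu' := left_ne_zero_of_mul hu
    have hu'' := left_ne_zero_of_mul hu'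
    have hu3 := left_ne_zero_of_mul hu''
    have a1 : u ^ 3 ≠ 0 := pow_ne_zero 3 (left_ne_zero_of_mul hu3)
    have a2 : -(u + 1) ^ 3 ≠ 0 := neg_ne_zero.2 (pow_ne_zero 3 (right_ne_zero_of_mul hu3))
    have g1 : (L1 u).natDegree = 1 := (lin_facts a1).2
    have g2 : (L2 k).natDegree = 1 := by
      unfold L2; rw [natDegree_neg]; exact (lin_facts one_ne_zero).2
    have g3 : (L3 u).natDegree = 1 := by
      unfold L3; rw [natDegree_neg]; exact (lin_facts a2).2
    have hw' := hw (by rw [natDegree_comp, g1, hmd, one_mul]; exact hn3)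
      (by rw [natDegree_comp, g2, hmd, one_mul]; exact hn3)
      (by rw [natDegree_comp, g3, hmd, one_mul]; exact hn3)
    have e1 : aeval (A m) f = A ((L1 u).comp m * (L2 k).comp m * (L3 u).comp m) := by
      rw [← mul_comp, ← mul_comp, ← hf, FT.aeval_A]
    rw [e1]
    exact hw'
  have e2 : aeval (A m) (gg e f) = A (C (27 * (u ^ 2 + u + 1) ^ 3 * c ^ 2) * X ^ (2 * n)) := by
    have h5 : gg e f = C (27 * (u ^ 2 + u + 1) ^ 3) * X ^ 2 := L_g u
    rw [h5, FT.aeval_A]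
    congr 1
    rw [mul_comp, C_comp, pow_comp, X_comp, hm, mul_pow, ← pow_mul, mul_comm n 2, ← mul_assoc,
      ← C_pow, ← C_mul]
  have hκ : (27 * (u ^ 2 + u + 1) ^ 3 : k) ≠ 0 := by
    have : (27 : k) = 3 ^ 3 := by norm_num
    rw [this]
    exact mul_ne_zero (pow_ne_zero 3 h3) (pow_ne_zero 3 hom)
  have w2 : wSum k (f3' (Nat.card k)) (aeval (A m) (gg e f)) ≤ f3' (Nat.card k) 1 := by
    rw [e2]
    exact wSum_mono _ (mul_ne_zero hκ (pow_ne_zero 2 hc)) _
  have w3 : wSum k (f3' (Nat.card k)) (A m)⁻¹ ≤ f3' (Nat.card k) 1 := wSum_pole _ m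
  have hf1 : f3' (Nat.card k) 1 = if 3 ∣ Nat.card k - 1 then 1 else 0 := by
    unfold f3'
    rw [pow_one, padicValNat_one_right, pow_zero]
  rw [hf1] at w2 w3
  unfold W3
  split_ifs at w2 w3 ⊢ <;> omega

/-- the choice of the constant -/
theorem exists_irr {u : k}
    (hu : u * (u + 1) * (u - 1) * (u + 2) * (2 * u + 1) ≠ 0)
    {l : ℕ} (hl : l.Prime) (hl5 : 5 ≤ l) (hd : l ∣ Nat.card k - 1) : ∃ c : k, c ≠ 0 ∧ ∀ j : ℕ,
      Irreducible ((L1 u).comp (C c * X ^ l ^ j)) ∧ Irreducible ((L2 k).comp (C c * X ^ l ^ j)) ∧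
        Irreducible ((L3 u).comp (C c * X ^ l ^ j)) := by
  have hu' := left_ne_zero_of_mul hu
  have hu'' := left_ne_zero_of_mul hu'
  have hu3 := left_ne_zero_of_mul hu''
  have a1 : u ^ 3 ≠ 0 := pow_ne_zero 3 (left_ne_zero_of_mul hu3)
  have a2 : -(u + 1) ^ 3 ≠ 0 := neg_ne_zero.2 (pow_ne_zero 3 (right_ne_zero_of_mul hu3))
  obtain ⟨i1, d1⟩ := lin_facts a1
  obtain ⟨i2, d2⟩ := lin_facts (one_ne_zero (α := k))
  obtain ⟨i3, d3⟩ := lin_facts a2
  have hf0 : (L1 u * L2 k * L3 u).coeff 0 ≠ 0 := by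
    rw [coeff_zero_eq_eval_zero]
    unfold L1 L2 L3
    simp
  have hd3 : (L1 u * L2 k * L3 u).natDegree = 3 := by
    unfold L1 L2 L3
    rw [natDegree_mul (mul_ne_zero i1.ne_zero (irr_neg i2).ne_zero) (irr_neg i3).ne_zero,
      natDegree_mul i1.ne_zero (irr_neg i2).ne_zero, natDegree_neg, natDegree_neg, d1, d2, d3]
  obtain ⟨c, hc, hirr⟩ := TH180.R4.exists_c hf0 hl (by omega) (by omega) hd
  exact ⟨c, hc, fun j => ⟨hirr j _ i1 (dvd_mul_of_dvd_left (dvd_mul_right _ _) _),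
    hirr j _ (irr_neg i2) (dvd_mul_of_dvd_left (dvd_mul_left _ _) _),
    hirr j _ (irr_neg i3) (dvd_mul_left _ _)⟩⟩

end one

section ext

variable {k k' : Type} [Field k] [Finite k] [Field k'] [Algebra k k'] [FiniteDimensional k k']

theorem map_L1 (u : k) : (L1 u).map (algebraMap k k') = L1 (algebraMap k k' u) := by
  unfold L1
  simp

theorem map_L2 : (L2 k).map (algebraMap k k') = L2 k' := by
  unfold L2
  simp

theorem map_L3 (u : k) : (L3 u).map (algebraMap k k') = L3 (algebraMap k k' u) := by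
  unfold L3
  simp

/-- the bound over the extensions of the field of constants -/
theorem W3_ext [Finite k'] (h3 : (3 : k) ≠ 0) {u : k}
    (hu : u * (u + 1) * (u - 1) * (u + 2) * (2 * u + 1) ≠ 0) (hom : u ^ 2 + u + 1 ≠ 0)
    {l : ℕ} (hl : l.Prime) (hl5 : 5 ≤ l) {c : k} (hc : c ≠ 0) (j : ℕ)
    (hirr : Irreducible ((L1 u).comp (C c * X ^ l ^ j)) ∧
      Irreducible ((L2 k).comp (C c * X ^ l ^ j)) ∧ Irreducible ((L3 u).comp (C c * X ^ l ^ j)))
    (hn : ¬ l ∣ Module.finrank k k') :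
    (algebraMap k k' u) * (algebraMap k k' u + 1) * (algebraMap k k' u - 1) *
        (algebraMap k k' u + 2) * (2 * algebraMap k k' u + 1) ≠ 0 ∧
      algebraMap k k' u ^ 2 + algebraMap k k' u + 1 ≠ 0 ∧
      W3 (L1 (algebraMap k k' u) - L2 k' - L3 (algebraMap k k' u))
        (L1 (algebraMap k k' u) * L2 k' * L3 (algebraMap k k' u))
        (A (C (algebraMap k k' c) * X ^ l ^ j)) ≤ 1 + (if 3 ∣ Nat.card k' - 1 then 4 else 2) := by
  set φ := algebraMap k k' with hφ
  have hu1 : φ u * (φ u + 1) * (φ u - 1) * (φ u + 2) * (2 * φ u + 1) ≠ 0 := by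
    have e1 : φ u * (φ u + 1) * (φ u - 1) * (φ u + 2) * (2 * φ u + 1) =
        φ (u * (u + 1) * (u - 1) * (u + 2) * (2 * u + 1)) := by
      simp only [map_mul, map_add, map_sub, map_one, map_ofNat]
    rw [e1]
    exact (_root_.map_ne_zero _).2 hu
  have hom1 : φ u ^ 2 + φ u + 1 ≠ 0 := by
    have e1 : φ u ^ 2 + φ u + 1 = φ (u ^ 2 + u + 1) := by
      simp only [map_add, map_pow, map_one]
    rw [e1]
    exact (_root_.map_ne_zero _).2 hom
  have h3' : (3 : k') ≠ 0 := by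
    have : φ 3 ≠ 0 := (_root_.map_ne_zero _).2 h3
    rwa [map_ofNat] at this
  refine ⟨hu1, hom1, ?_⟩
  have hpos : 0 < l ^ j := pow_pos hl.pos j
  have hn3 : ¬ 3 ∣ l ^ j := by
    intro hd3
    have h5 := (Nat.prime_dvd_prime_iff_eq Nat.prime_three hl).1
      (Nat.prime_three.dvd_of_dvd_pow hd3)
    omega
  have hcopl : Nat.Coprime (l ^ j) (Module.finrank k k') :=
    Nat.Coprime.pow_left j ((Nat.Prime.coprime_iff_not_dvd hl).2 hn)
  have hmd : (C c * X ^ l ^ j : k[X]).natDegree = l ^ j := natDegree_C_mul_X_pow _ _ hc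
  have hmap : ∀ P : k[X], (P.comp (C c * X ^ l ^ j)).map φ = (P.map φ).comp (C (φ c) * X ^ l ^ j) := by
    intro P
    rw [Polynomial.map_comp, Polynomial.map_mul, Polynomial.map_pow, map_C, map_X]
  have one : ∀ P : k[X], P.natDegree = 1 → Irreducible (P.comp (C c * X ^ l ^ j)) →
      Irreducible ((P.map φ).comp (C (φ c) * X ^ l ^ j)) := by
    intro P hP hi
    rw [← hmap]
    apply irr_coprime hi
    rw [natDegree_comp, hP, hmd, one_mul]
    exact hcopl
  have hu' := left_ne_zero_of_mul hu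
  have hu'' := left_ne_zero_of_mul hu'
  have hu3 := left_ne_zero_of_mul hu''
  have a1 : u ^ 3 ≠ 0 := pow_ne_zero 3 (left_ne_zero_of_mul hu3)
  have a2 : -(u + 1) ^ 3 ≠ 0 := neg_ne_zero.2 (pow_ne_zero 3 (right_ne_zero_of_mul hu3))
  have g1 : (L1 u).natDegree = 1 := (lin_facts a1).2
  have g2 : (L2 k).natDegree = 1 := by
    unfold L2; rw [natDegree_neg]; exact (lin_facts one_ne_zero).2
  have g3 : (L3 u).natDegree = 1 := by
    unfold L3; rw [natDegree_neg]; exact (lin_facts a2).2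
  have k1 := one _ g1 hirr.1
  have k2 := one _ g2 hirr.2.1
  have k3 := one _ g3 hirr.2.2
  rw [hφ, map_L1] at k1
  rw [hφ, map_L2] at k2
  rw [hφ, map_L3] at k3
  exact W3_L h3' hu1 hom1 ((_root_.map_ne_zero _).2 hc) hpos hn3 k1 k2 k3

end ext

end Pool.Agent.R427.TS
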