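import Pool.Agent.R427.TS6

/-!
The curves `y ^ 2 + e x y + f y = x ^ 3` with two independent points.
-/

set_option autoImplicit false
set_option linter.all false
set_option maxHeartbeats 4000000

open Polynomial FF WeierstrassCurve WeierstrassCurve.Affine
open scoped Classical

namespace Pool.Agent.R427.TS

open Pool.Agent.W343.BSD Pool.Agent.H525R3.FFp
open Pool.Agent.W313.Gr (curve PointsDvd weight weightSum rootSum rank rank_mono)
open Pool.Agent.W309.RK (ordAt ordAt_mul ordAt_self ordAt_of_not_dvd ratfunc_ne)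
open Pool.Agent.TH639.B3 (curve_eq IsT3 Sc)
open Pool.Agent.TH958.T3
open Pool.Agent.W309.RF
open Pool.Agent.R427.FT (wSum wSum_irr wSum_comp wSum_pole wSum_mono wSum_mul_le)

section pt

variable {F : Type} [Field F]

/-- the point attached to a decomposition -/
theorem pt (h2 : (2 : F) ≠ 0) (h3 : (3 : F) ≠ 0) {a b c e f : F} (ha : a ≠ 0) (hb : b ≠ 0)
    (hab : a + b ≠ 0) (he : e = a - b - c) (hf : f = a * b * c) :
    ∃ P : (curve (sA e f) (sB e f)).toAffine.Point, ∀ ψ : F → ZMod 3, IsMul ψ → ψ 216 = 0 →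
      Lam ψ (sA e f) (sB e f) (3 * e) (108 * f) (3 * e ^ 2) P = ψ a + (ψ b + ψ b) := by
  have h108 : (108 : F) ≠ 0 := by
    have : (108 : F) = 2 ^ 2 * 3 ^ 3 := by norm_num
    rw [this]
    exact mul_ne_zero (pow_ne_zero _ h2) (pow_ne_zero _ h3)
  have h216 : (216 : F) ≠ 0 := by
    have : (216 : F) = 2 ^ 3 * 3 ^ 3 := by norm_num
    rw [this]
    exact mul_ne_zero (pow_ne_zero _ h2) (pow_ne_zero _ h3)
  set xP : F := 36 * (a * b) + 3 * e ^ 2 with hxP
  set yP : F := 108 * (a * b) * (a + b) with hyP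
  have hyP0 : yP ≠ 0 := mul_ne_zero (mul_ne_zero h108 (mul_ne_zero ha hb)) hab
  have hnonsing : (curve (sA e f) (sB e f)).toAffine.Nonsingular xP yP := by
    rw [nonsingular_iff]
    constructor
    · rw [curve_eq, hxP, hyP, hf, he]
      unfold sA sB
      ring
    · right
      show _ ≠ -_ - 0 * _ - 0
      intro h8
      have h9 : (2 : F) * yP = 0 := by linear_combination h8
      rcases mul_eq_zero.1 h9 with h10 | h10
      · exact h2 h10
      · exact hyP0 h10
  refine ⟨Point.some xP yP hnonsing, fun ψ hψ hψ0 => ?_⟩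
  have hval : yP - (3 * e * (xP - 3 * e ^ 2) + 108 * f) = 216 * (a * (b * b)) := by
    rw [hxP, hyP, hf, he]
    ring
  have hne : 216 * (a * (b * b)) ≠ 0 := mul_ne_zero h216 (mul_ne_zero ha (mul_ne_zero hb hb))
  rw [Lam_some, val_ne (by rw [hval]; exact hne), hval, hψ _ _ h216 (right_ne_zero_of_mul hne),
    hψ0, zero_add, hψ _ _ ha (mul_ne_zero hb hb), hψ _ _ hb hb]

end pt

section rat0

variable {k : Type} [Field k]

/-- **Two independent points.** -/
theorem rank_two_base (h2 : (2 : k) ≠ 0) (h3 : (3 : k) ≠ 0) {p q r s : k[X]} {a b c : k}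
    (hns : (∀ z : RatFunc k, z ^ 2 ≠ -3) ∨
      ∀ z : k[X], z ^ 3 ≠ (s - p * q - r ^ 2) ^ 3 - 27 * (s * (p * q) * r ^ 2))
    (hp : Irreducible p) (hq : Irreducible q) (hr : Irreducible r) (hs : Irreducible s)
    (hpq : ¬ Associated p q) (hpr : ¬ Associated p r) (hqr : ¬ Associated q r)
    (hsp : ¬ Associated s p) (hsq : ¬ Associated s q) (hsr : ¬ Associated s r)
    (habc : a * b * c = 1)
    (hrel : C (1 - a) * s = p * q + r ^ 2 - C b * (p * r) - C c * (q * r)) :
    2 ≤ rank
      (sA (algebraMap k[X] (RatFunc k) (s - p * q - r ^ 2))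
        (algebraMap k[X] (RatFunc k) (s * (p * q) * r ^ 2)))
      (sB (algebraMap k[X] (RatFunc k) (s - p * q - r ^ 2))
        (algebraMap k[X] (RatFunc k) (s * (p * q) * r ^ 2))) := by
  have h2K : (2 : RatFunc k) ≠ 0 := by
    have := ratfunc_ne (k := k) (n := 2) (by exact_mod_cast h2)
    exact_mod_cast this
  have h3K : (3 : RatFunc k) ≠ 0 := by
    have := ratfunc_ne (k := k) (n := 3) (by exact_mod_cast h3)
    exact_mod_cast this
  have hinj : Function.Injective (algebraMap k[X] (RatFunc k)) := RatFunc.algebraMap_injective k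
  have am_ne : ∀ {f : k[X]}, f ≠ 0 → algebraMap k[X] (RatFunc k) f ≠ 0 := fun hf => by
    rw [Ne, map_eq_zero_iff _ hinj]; exact hf
  have h216 : (216 : k) ≠ 0 := by
    have : (216 : k) = 2 ^ 3 * 3 ^ 3 := by norm_num
    rw [this]
    exact mul_ne_zero (pow_ne_zero _ h2) (pow_ne_zero _ h3)
  have ha0 : a ≠ 0 := by
    rintro rfl
    rw [zero_mul, zero_mul] at habc
    exact zero_ne_one habc
  have hb0 : b ≠ 0 := by
    rintro rfl
    rw [mul_zero, zero_mul] at habc
    exact zero_ne_one habc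
  have hc0 : c ≠ 0 := by
    rintro rfl
    rw [mul_zero] at habc
    exact zero_ne_one habc
  set am := algebraMap k[X] (RatFunc k) with ham
  set e := am (s - p * q - r ^ 2) with he
  set f := am (s * (p * q) * r ^ 2) with hf
  have nP := am_ne hp.ne_zero
  have nQ := am_ne hq.ne_zero
  have nR := am_ne hr.ne_zero
  have nS := am_ne hs.ne_zero
  have nA := am_ne (C_ne_zero.2 ha0)
  have nB := am_ne (C_ne_zero.2 hb0)
  have nC := am_ne (C_ne_zero.2 hc0)
  have dpq : ¬ p ∣ q := fun h => hpq (hp.associated_of_dvd hq h)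
  have dqp : ¬ q ∣ p := fun h => hpq (hq.associated_of_dvd hp h).symm
  have dpr : ¬ p ∣ r := fun h => hpr (hp.associated_of_dvd hr h)
  have drp : ¬ r ∣ p := fun h => hpr (hr.associated_of_dvd hp h).symm
  have dqr : ¬ q ∣ r := fun h => hqr (hq.associated_of_dvd hr h)
  have drq : ¬ r ∣ q := fun h => hqr (hr.associated_of_dvd hq h).symm
  have dsp : ¬ s ∣ p := fun h => hsp (hs.associated_of_dvd hp h)
  have dps : ¬ p ∣ s := fun h => hsp (hp.associated_of_dvd hs h).symm
  have dsq : ¬ s ∣ q := fun h => hsq (hs.associated_of_dvd hq h)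
  have dqs : ¬ q ∣ s := fun h => hsq (hq.associated_of_dvd hs h).symm
  have dsr : ¬ s ∣ r := fun h => hsr (hs.associated_of_dvd hr h)
  have drs : ¬ r ∣ s := fun h => hsr (hr.associated_of_dvd hs h).symm
  have hf' : f = am s * (am p * am q) * (am r * am r) := by
    rw [hf, map_mul, map_mul, map_mul, map_pow]
    ring
  have hf0 : f ≠ 0 := by
    rw [hf']
    exact mul_ne_zero (mul_ne_zero nS (mul_ne_zero nP nQ)) (mul_ne_zero nR nR)
  have hβ : (108 * f : RatFunc k) ≠ 0 := by
    have : (108 : RatFunc k) = 2 ^ 2 * 3 ^ 3 := by norm_num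
    rw [this]
    exact mul_ne_zero (mul_ne_zero (pow_ne_zero _ h2K) (pow_ne_zero _ h3K)) hf0
  have T := td e f
  have hns' : (∀ z : RatFunc k, z ^ 2 ≠ -3) ∨ ∀ z : RatFunc k, z ^ 3 ≠ e ^ 3 - 27 * f := by
    refine hns.imp_right fun h z hz => ?_
    have e1 : e ^ 3 - 27 * f =
        am ((s - p * q - r ^ 2) ^ 3 - 27 * (s * (p * q) * r ^ 2)) := by
      rw [map_sub, map_pow, map_mul, map_ofNat]
    have hint : IsIntegral k[X] z := by
      refine IsIntegral.of_pow (n := 3) (by norm_num) ?_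
      rw [hz, e1]
      exact isIntegral_algebraMap
    obtain ⟨w, hw⟩ := IsIntegrallyClosed.algebraMap_eq_of_integral hint
    apply h w
    apply hinj
    rw [← e1, ← hz, ← hw, map_pow]
  -- the two points
  obtain ⟨P₁, hP₁⟩ := pt (e := e) (f := f) (a := am s) (b := am p * am q) (c := am r * am r) h2K h3K
    nS (mul_ne_zero nP nQ) (by
      rw [← map_mul, ← map_add]
      apply am_ne
      intro h
      apply dps
      exact ⟨-q, by linear_combination h⟩) (by rw [he, map_sub, map_sub, map_mul, map_pow]; ring) hf'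
  obtain ⟨P₂, hP₂⟩ := pt (e := e) (f := f) (a := am (C a) * am s) (b := am (C b) * (am p * am r))
    (c := am (C c) * (am q * am r)) h2K h3K (mul_ne_zero nA nS)
    (mul_ne_zero nB (mul_ne_zero nP nR)) (by
      rw [← map_mul, ← map_mul, ← map_mul, ← map_add]
      apply am_ne
      intro h
      have h1 : p ∣ C a * s := ⟨-(C b * r), by linear_combination h⟩
      rcases hp.prime.dvd_or_dvd h1 with h4 | h4
      · exact hp.not_isUnit (isUnit_of_dvd_unit h4 (isUnit_C.2 (isUnit_iff_ne_zero.2 ha0)))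
      · exact dps h4) (by
      have h1 := congrArg am hrel
      simp only [C_sub, C_1, map_sub, map_add, map_mul, map_pow, map_one] at h1
      rw [he, map_sub, map_sub, map_mul, map_pow]
      linear_combination h1) (by
      have h1 : am (C a) * am (C b) * am (C c) = 1 := by
        rw [← map_mul, ← map_mul, ← C_mul, ← C_mul, habc, C_1, map_one]
      rw [hf']
      linear_combination (-(am s * (am p * am q) * (am r * am r))) * h1)
  -- the valuations
  have e216 : (216 : RatFunc k) = am (C 216) := by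
    rw [show (C 216 : k[X]) = 216 from rfl, map_ofNat]
  have z216 : ∀ (π : k[X]) (hπ : Irreducible π), psi π hπ 216 = 0 := fun π hπ => by
    rw [e216]
    exact psi_C _ _ h216
  have v1 : ∀ (π : k[X]) (hπ : Irreducible π),
      Lam (psi π hπ) (sA e f) (sB e f) (3 * e) (108 * f) (3 * e ^ 2) P₁ =
        psi π hπ (am s) + 2 * (psi π hπ (am p) + psi π hπ (am q)) := by
    intro π hπ
    rw [hP₁ _ (psi_mul π hπ) (z216 π hπ), psi_mul _ _ _ _ nP nQ]
    ring
  have v2 : ∀ (π : k[X]) (hπ : Irreducible π),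
      Lam (psi π hπ) (sA e f) (sB e f) (3 * e) (108 * f) (3 * e ^ 2) P₂ =
        psi π hπ (am s) + 2 * (psi π hπ (am p) + psi π hπ (am r)) := by
    intro π hπ
    rw [hP₂ _ (psi_mul π hπ) (z216 π hπ), psi_mul _ _ _ _ nA nS,
      psi_mul _ _ _ _ nB (mul_ne_zero nP nR), psi_mul _ _ _ _ nP nR, psi_C _ _ ha0, psi_C _ _ hb0]
    ring
  have vT : ∀ (π : k[X]) (hπ : Irreducible π), psi π hπ (-(2 * (108 * f))) =
      psi π hπ (am s) + psi π hπ (am p) + psi π hπ (am q) + 2 * psi π hπ (am r) := by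
    intro π hπ
    have e1 : -(2 * (108 * f)) = -(am (C 216) * f) := by
      rw [← e216]
      ring
    rw [e1, (psi_mul π hπ).neg _ (mul_ne_zero (am_ne (C_ne_zero.2 h216)) hf0),
      psi_mul _ _ _ _ (am_ne (C_ne_zero.2 h216)) hf0, psi_C _ _ h216, zero_add, hf',
      psi_mul _ _ _ _ (mul_ne_zero nS (mul_ne_zero nP nQ)) (mul_ne_zero nR nR),
      psi_mul _ _ _ _ nS (mul_ne_zero nP nQ), psi_mul _ _ _ _ nP nQ, psi_mul _ _ _ _ nR nR]
    ring
  -- the functionals
  have hmul2 : ∀ {ψ : RatFunc k → ZMod 3}, IsMul ψ → IsMul (fun x => 2 * ψ x) := by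
    intro ψ hψ x y hx hy
    show 2 * ψ (x * y) = 2 * ψ x + 2 * ψ y
    rw [hψ x y hx hy]
    ring
  have hadd : ∀ {ψ ψ' : RatFunc k → ZMod 3}, IsMul ψ → IsMul ψ' → IsMul (fun x => ψ x + ψ' x) := by
    intro ψ ψ' hψ hψ' x y hx hy
    show ψ (x * y) + ψ' (x * y) = (ψ x + ψ' x) + (ψ y + ψ' y)
    rw [hψ x y hx hy, hψ' x y hx hy]
    ring
  have m1 := hmul2 (psi_mul q hq)
  have m2 := hmul2 (psi_mul r hr)
  have m0 := hadd (psi_mul p hp) (psi_mul s hs)
  have l1 : ∀ (π : k[X]) (hπ : Irreducible π),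
      Lam (fun x => 2 * psi π hπ x) (sA e f) (sB e f) (3 * e) (108 * f) (3 * e ^ 2) P₁ =
        2 * (psi π hπ (am s) + 2 * (psi π hπ (am p) + psi π hπ (am q))) := by
    intro π hπ
    rw [hP₁ _ (hmul2 (psi_mul π hπ)) (by rw [z216 π hπ, mul_zero]), psi_mul _ _ _ _ nP nQ]
    ring
  have l2 : ∀ (π : k[X]) (hπ : Irreducible π),
      Lam (fun x => 2 * psi π hπ x) (sA e f) (sB e f) (3 * e) (108 * f) (3 * e ^ 2) P₂ =
        2 * (psi π hπ (am s) + 2 * (psi π hπ (am p) + psi π hπ (am r))) := by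
    intro π hπ
    rw [hP₂ _ (hmul2 (psi_mul π hπ)) (by rw [z216 π hπ, mul_zero]), psi_mul _ _ _ _ nA nS,
      psi_mul _ _ _ _ nB (mul_ne_zero nP nR), psi_mul _ _ _ _ nP nR, psi_C _ _ ha0, psi_C _ _ hb0]
    ring
  have k1 : Lam (fun x => psi p hp x + psi s hs x) (sA e f) (sB e f) (3 * e) (108 * f)
      (3 * e ^ 2) P₁ = 0 := by
    rw [hP₁ _ m0 (by rw [z216, z216, add_zero]), psi_mul _ _ _ _ nP nQ, psi_mul _ _ _ _ nP nQ,
      psi_not p hp dps, psi_self p hp, psi_not p hp dpq, psi_self s hs, psi_not s hs dsp,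
      psi_not s hs dsq]
    decide
  have k2 : Lam (fun x => psi p hp x + psi s hs x) (sA e f) (sB e f) (3 * e) (108 * f)
      (3 * e ^ 2) P₂ = 0 := by
    rw [hP₂ _ m0 (by rw [z216, z216, add_zero]), psi_mul _ _ _ _ nA nS, psi_mul _ _ _ _ nA nS,
      psi_mul _ _ _ _ nB (mul_ne_zero nP nR), psi_mul _ _ _ _ nB (mul_ne_zero nP nR),
      psi_mul _ _ _ _ nP nR, psi_mul _ _ _ _ nP nR, psi_C _ _ ha0, psi_C _ _ ha0, psi_C _ _ hb0,
      psi_C _ _ hb0, psi_not p hp dps, psi_self p hp, psi_not p hp dpr, psi_self s hs,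
      psi_not s hs dsp, psi_not s hs dsr]
    decide
  have kT : psi p hp (-(2 * (108 * f))) + psi s hs (-(2 * (108 * f))) ≠ 0 := by
    rw [vT, vT, psi_not p hp dps, psi_self p hp, psi_not p hp dpq, psi_not p hp dpr, psi_self s hs,
      psi_not s hs dsp, psi_not s hs dsq, psi_not s hs dsr]
    decide
  have hli : LinearIndependent ℤ (fun i : Fin 2 =>
      (if i = 0 then P₁ else P₂ : (curve (sA e f) (sB e f)).toAffine.Point)) := by
    refine indep (fun j => if j = 0 then lamHom m1 h2K hβ T else lamHom m2 h2K hβ T)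
      (lamHom m0 h2K hβ T) _ ?_ ?_ ?_
    · have q1 : lamHom m1 h2K hβ T P₁ = 1 := by
        show Lam (fun x => 2 * psi q hq x) (sA e f) (sB e f) (3 * e) (108 * f) (3 * e ^ 2) P₁ = 1
        rw [l1, psi_not q hq dqs, psi_not q hq dqp, psi_self]
        decide
      have q2 : lamHom m1 h2K hβ T P₂ = 0 := by
        show Lam (fun x => 2 * psi q hq x) (sA e f) (sB e f) (3 * e) (108 * f) (3 * e ^ 2) P₂ = 0
        rw [l2, psi_not q hq dqs, psi_not q hq dqp, psi_not q hq dqr]
        decide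
      have q3 : lamHom m2 h2K hβ T P₁ = 0 := by
        show Lam (fun x => 2 * psi r hr x) (sA e f) (sB e f) (3 * e) (108 * f) (3 * e ^ 2) P₁ = 0
        rw [l1, psi_not r hr drs, psi_not r hr drp, psi_not r hr drq]
        decide
      have q4 : lamHom m2 h2K hβ T P₂ = 1 := by
        show Lam (fun x => 2 * psi r hr x) (sA e f) (sB e f) (3 * e) (108 * f) (3 * e ^ 2) P₂ = 1
        rw [l2, psi_not r hr drs, psi_not r hr drp, psi_self]
        decide
      intro i j
      fin_cases i <;> fin_cases j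
      · exact q1
      · exact q3
      · exact q2
      · exact q4
    · intro i
      fin_cases i
      · exact k1
      · exact k2
    · intro x hx hx0
      by_contra hne
      obtain ⟨y, h, rfl, hy⟩ := tors_cases' h2K h3K e f hns' x hne hx
      have h0 : Lam (fun x => psi p hp x + psi s hs x) (sA e f) (sB e f) (3 * e) (108 * f)
          (3 * e ^ 2) (Point.some (3 * e ^ 2) y h) = 0 := hx0
      rw [Lam_some] at h0
      rcases hy with hy | hy
      · rw [val_zero (by rw [hy]; ring)] at h0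
        exact kT (neg_eq_zero.1 h0)
      · have e2 : y - (3 * e * (3 * e ^ 2 - 3 * e ^ 2) + 108 * f) = -(2 * (108 * f)) := by
          rw [hy]
          ring
        rw [val_ne (by rw [e2]; exact neg_ne_zero.2 (mul_ne_zero h2K hβ)), e2] at h0
        exact kT h0
  have := hli.cardinal_le_rank
  unfold rank
  simpa using this

end rat0

end Pool.Agent.R427.TS
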