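import Pool.Agent.TH639.B3.TwBd

/-!
The bound for the order of vanishing modulo a prime `l` from a quadratic character: the general form.
-/

set_option autoImplicit false
set_option linter.all false
set_option maxHeartbeats 4000000

open PowerSeries FF Module

namespace Pool.Agent.R427.TW

open Pool.Agent.W343.BSD Pool.Agent.H123R3.ZT Pool.Agent.W313.Gr Pool.Agent.W313.Hyp
open Pool.Agent.TH639.B3
open Pool.Agent.W309.T3 (rescale_eulerProd rescale_poly rm_comp binom_ne rm_binom card_char)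

section defs

variable {l : ℕ}

/-- the Euler factor of the pair of characters, modulo `l` -/
noncomputable def pairL (l : ℕ) (c : ZMod l) (x : ℤ) (d : ℕ) : Polynomial (ZMod l) :=
  (1 - Polynomial.C ((x : ℤ) : ZMod l) * Polynomial.X ^ d) *
    (1 - Polynomial.C (((x : ℤ) : ZMod l) * c ^ d) * Polynomial.X ^ d)

/-- the number of roots -/
noncomputable def rs (l : ℕ) (q : ℕ) (P : Polynomial (ZMod l)) : ℕ :=
  P.rootMultiplicity ((q : ℕ) : ZMod l)⁻¹ + P.rootMultiplicity 1

end defs

section alg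

variable {l : ℕ} [Fact l.Prime]

theorem pairL_ne (c : ZMod l) (x : ℤ) {d : ℕ} (hd : 0 < d) : pairL l c x d ≠ 0 :=
  mul_ne_zero (binom_ne hd) (binom_ne hd)

theorem pairL_mod (c : ZMod l) (x : ℤ) (d : ℕ) : (X : PowerSeries (ZMod l)) ^ d ∣
    (pairL l c x d : PowerSeries (ZMod l)) - 1 := by
  unfold pairL
  rw [Polynomial.coe_mul]
  exact one_mod_mul (key_mod _ _) (key_mod _ _)

variable {k K : Type} [Field k] [Finite k] [Field K] [Algebra k K] [FF.IsFF k K]

/-- the Euler factor of the character, modulo `l` -/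
noncomputable def chF (l : ℕ) (χ : Place k K → ℤ) (v : Place k K) : Polynomial (ZMod l) :=
  1 - Polynomial.C ((χ v : ℤ) : ZMod l) * Polynomial.X ^ v.deg

/-- the identity modulo `l` -/
theorem pairL_identity {χ : Place k K → ℤ} {P Q : Polynomial (ZMod l)}
    (hrel : (Q : PowerSeries (ZMod l)) * eulerProd (fun v : Place k K => v.deg)
      (fun v => (chF l χ v : PowerSeries (ZMod l))) = (P : PowerSeries (ZMod l))) :
    ((Q * Q.comp (Polynomial.C ((Nat.card k : ℕ) : ZMod l) * Polynomial.X) :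
      Polynomial (ZMod l)) : PowerSeries (ZMod l)) *
      eulerProd (fun v : Place k K => v.deg)
        (fun v => (pairL l ((Nat.card k : ℕ) : ZMod l) (χ v) v.deg : PowerSeries (ZMod l))) =
    ((P * P.comp (Polynomial.C ((Nat.card k : ℕ) : ZMod l) * Polynomial.X) :
      Polynomial (ZMod l)) : PowerSeries (ZMod l)) := by
  classical
  set q : ZMod l := ((Nat.card k : ℕ) : ZMod l) with hq
  have hfin := fun n => places_fin (k := k) (K := K) n
  have h2 := congrArg (rescale q) hrel
  rw [map_mul, rescale_poly, rescale_poly, rescale_eulerProd hfin] at h2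
  have e3 : (fun v : Place k K => rescale q ((chF l χ v : Polynomial (ZMod l)) :
      PowerSeries (ZMod l))) = fun v =>
      ((1 - Polynomial.C (((χ v : ℤ) : ZMod l) * q ^ v.deg) * Polynomial.X ^ v.deg :
        Polynomial (ZMod l)) : PowerSeries (ZMod l)) := by
    funext v
    rw [rescale_poly]
    congr 1
    unfold chF
    rw [Polynomial.sub_comp, Polynomial.one_comp, Polynomial.mul_comp, Polynomial.C_comp,
      Polynomial.pow_comp, Polynomial.X_comp, mul_pow, ← Polynomial.C_pow, ← mul_assoc,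
      ← Polynomial.C_mul]
  rw [e3] at h2
  have e4 : (fun v : Place k K => (pairL l q (χ v) v.deg : PowerSeries (ZMod l))) = fun v =>
      ((1 - Polynomial.C ((χ v : ℤ) : ZMod l) * Polynomial.X ^ v.deg : Polynomial (ZMod l)) :
        PowerSeries (ZMod l)) *
      ((1 - Polynomial.C (((χ v : ℤ) : ZMod l) * q ^ v.deg) * Polynomial.X ^ v.deg :
        Polynomial (ZMod l)) : PowerSeries (ZMod l)) := by
    funext v
    unfold pairL
    rw [Polynomial.coe_mul]
  rw [e4, eulerProd_mul hfin (fun v => key_mod _ _) (fun v => key_mod _ _), Polynomial.coe_mul,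
    Polynomial.coe_mul, ← h2, ← hrel]
  unfold chF
  ring

/-- the general bound -/
theorem bound_gen (hlk : ((l : ℕ) : k) ≠ 0) {a b : K} (hΔ : 4 * a ^ 3 + 27 * b ^ 2 ≠ 0)
    {χ : Place k K → ℤ} {P Q : Polynomial (ZMod l)} (hP : P ≠ 0) (hQ : Q ≠ 0)
    (hrel : (Q : PowerSeries (ZMod l)) * eulerProd (fun v : Place k K => v.deg)
      (fun v => (chF l χ v : PowerSeries (ZMod l))) = (P : PowerSeries (ZMod l)))
    (hgood : ∀ v : Place k K, v.red (minDisc v a b) ≠ 0 →
      locML l v a b = pairL l ((Nat.card k : ℕ) : ZMod l) (χ v) v.deg)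
    {wt : Place k K → ℕ}
    (hbad : ∀ v : Place k K, v.red (minDisc v a b) = 0 →
      (pairL l ((Nat.card k : ℕ) : ZMod l) (χ v) v.deg).rootMultiplicity
        ((Nat.card k : ℕ) : ZMod l)⁻¹ ≤
      (locML l v a b).rootMultiplicity ((Nat.card k : ℕ) : ZMod l)⁻¹ + wt v)
    (hwt : ∀ v : Place k K, v.red (minDisc v a b) ≠ 0 → wt v = 0) {m : ℕ}
    (hm : S.VanishesTo k a b m) :
    m + rs l (Nat.card k) P ≤ rs l (Nat.card k) Q + ∑ᶠ v : Place k K, wt v := by
  classical
  have hq := card_ne_zero_mod (k := k) hlk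
  have h2 := pairL_identity (k := k) (K := K) hrel
  set q : ZMod l := ((Nat.card k : ℕ) : ZMod l) with hqdef
  set x : ZMod l := q⁻¹ with hx
  have hfin := fun n => places_fin (k := k) (K := K) n
  set B : Finset (Place k K) := (bad_finite (k := k) hΔ).toFinset with hBdef
  have hB : ∀ v, v ∈ B ↔ v.red (minDisc v a b) = 0 := by
    intro v
    rw [hBdef, Set.Finite.mem_toFinset]
    rfl
  have hgood' : ∀ v, v ∉ B → (pairL l q (χ v) v.deg : PowerSeries (ZMod l)) =
      (locML l v a b : PowerSeries (ZMod l)) := by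
    intro v hv
    have h1 : v.red (minDisc v a b) ≠ 0 := fun h => hv ((hB v).2 h)
    rw [hgood v h1]
  have h1 := fin_factor' hfin (fun v => pairL_mod q (χ v) v.deg)
    (fun v => const_locML l v a b) B hgood'
  have h3 := lfun_modL (k := k) l a b
  have hPc0 := comp_ne hP hq
  have hQc0 := comp_ne hQ hq
  have hloc : ∀ v ∈ B, locML l v a b ≠ 0 := fun v _ => locML_ne l v a b
  have hpair : ∀ v ∈ B, pairL l q (χ v) v.deg ≠ 0 := fun v _ => pairL_ne _ _ (deg_pos' v)
  obtain ⟨G, hG⟩ := hm
  set GG : Polynomial (ZMod l) := G.map (Int.castRingHom (ZMod l)) with hGG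
  have hred : redL l (((1 - Polynomial.C (Nat.card k : ℤ) * Polynomial.X) ^ m * G :
      Polynomial ℤ) : PowerSeries ℤ) =
      (((1 - Polynomial.C q * Polynomial.X) ^ m * GG :
        Polynomial (ZMod l)) : PowerSeries (ZMod l)) := by
    rw [redL_poly]
    congr 1
    rw [Polynomial.map_mul, Polynomial.map_pow, Polynomial.map_sub, Polynomial.map_one,
      Polynomial.map_mul, Polynomial.map_C, Polynomial.map_X]
    have h3 : (Int.castRingHom (ZMod l)) (Nat.card k : ℤ) = ((Nat.card k : ℕ) : ZMod l) := by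
      rw [eq_intCast, Int.cast_natCast]
    rw [h3]
  rw [← S.lfun_eq hΔ, hG, hred] at h3
  -- the polynomial identity
  have h5 : (P * P.comp (Polynomial.C q * Polynomial.X)) *
      ((∏ v ∈ B, locML l v a b) * ((1 - Polynomial.C q * Polynomial.X) ^ m * GG)) =
      (Q * Q.comp (Polynomial.C q * Polynomial.X)) * ∏ v ∈ B, pairL l q (χ v) v.deg := by
    apply Polynomial.coe_injective
    rw [Polynomial.coe_mul, Polynomial.coe_mul (∏ v ∈ B, locML l v a b), Polynomial.coe_mul
      (Q * Q.comp (Polynomial.C q * Polynomial.X)), ← h2, coe_prod', coe_prod']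
    linear_combination ((Q * Q.comp (Polynomial.C q * Polynomial.X) : Polynomial (ZMod l)) :
      PowerSeries (ZMod l)) * (((1 - Polynomial.C q * Polynomial.X) ^ m * GG :
        Polynomial (ZMod l)) : PowerSeries (ZMod l)) * h1 +
      ((Q * Q.comp (Polynomial.C q * Polynomial.X) : Polynomial (ZMod l)) :
      PowerSeries (ZMod l)) * (∏ v ∈ B, (pairL l q (χ v) v.deg : PowerSeries (ZMod l))) * h3
  have hR0 : (Q * Q.comp (Polynomial.C q * Polynomial.X)) *
      ∏ v ∈ B, pairL l q (χ v) v.deg ≠ 0 :=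
    mul_ne_zero (mul_ne_zero hQ hQc0) (Finset.prod_ne_zero_iff.2 hpair)
  have hm0 : (1 - Polynomial.C q * Polynomial.X) ^ m * GG ≠ 0 := by
    intro h
    rw [h, mul_zero, mul_zero] at h5
    exact hR0 h5.symm
  have hlin : (1 - Polynomial.C q * Polynomial.X : Polynomial (ZMod l)) ≠ 0 := by
    have := binom_ne (c := q) one_pos
    rwa [pow_one] at this
  have hprodL := Finset.prod_ne_zero_iff.2 hloc
  have h7 := congrArg (Polynomial.rootMultiplicity x) h5
  rw [rm_mul x (mul_ne_zero hP hPc0) (mul_ne_zero hprodL hm0), rm_mul x hP hPc0,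
    rm_comp hq hP, rm_mul x hprodL hm0, rm_prod _ _ _ hloc,
    rm_mul x (left_ne_zero_of_mul hm0) (right_ne_zero_of_mul hm0), rm_pow x hlin, rm_linear hq,
    rm_mul x (mul_ne_zero hQ hQc0) (Finset.prod_ne_zero_iff.2 hpair), rm_mul x hQ hQc0,
    rm_comp hq hQ, rm_prod _ _ _ hpair, hx, mul_inv_cancel₀ hq] at h7
  have hsum : ∑ᶠ v : Place k K, wt v = ∑ v ∈ B, wt v := by
    apply finsum_eq_sum_of_support_subset
    intro v hv
    rw [Function.mem_support] at hv
    rw [Finset.mem_coe, hB]
    by_contra h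
    exact hv (hwt v h)
  have h8 : ∑ v ∈ B, (pairL l q (χ v) v.deg).rootMultiplicity q⁻¹ ≤
      ∑ v ∈ B, (locML l v a b).rootMultiplicity q⁻¹ + ∑ v ∈ B, wt v := by
    rw [← Finset.sum_add_distrib]
    exact Finset.sum_le_sum fun v hv => hbad v ((hB v).1 hv)
  rw [hsum]
  show m + (P.rootMultiplicity q⁻¹ + P.rootMultiplicity 1) ≤
    (Q.rootMultiplicity q⁻¹ + Q.rootMultiplicity 1) + ∑ v ∈ B, wt v
  omega

/-- the roots of an Euler factor -/
theorem rm_pairL {q : ZMod l} (hq : q ≠ 0) {x : ℤ} {d : ℕ} (hd : 0 < d) :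
    (pairL l q x d).rootMultiplicity q⁻¹ =
      (if ((x : ℤ) : ZMod l) = q ^ d then l ^ padicValNat l d else 0) +
      (if ((x : ℤ) : ZMod l) = 1 then l ^ padicValNat l d else 0) := by
  have hx : q⁻¹ ≠ 0 := inv_ne_zero hq
  have hqd : q ^ d * q⁻¹ ^ d = 1 := by
    rw [← mul_pow, mul_inv_cancel₀ hq, one_pow]
  have hiff : ∀ c : ZMod l, c * q⁻¹ ^ d = 1 ↔ c = q ^ d := by
    intro c
    constructor
    · intro h
      linear_combination q ^ d * h - c * hqd
    · intro h
      rw [h, hqd]
  unfold pairL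
  rw [rm_mul _ (binom_ne hd) (binom_ne hd), rm_binom l hx hd, rm_binom l hx hd]
  simp only [hiff]
  have e : (((x : ℤ) : ZMod l) * q ^ d = q ^ d) ↔ ((x : ℤ) : ZMod l) = 1 := by
    constructor
    · intro h1
      apply mul_right_cancel₀ (pow_ne_zero d hq)
      rw [h1, one_mul]
    · intro h1
      rw [h1, one_mul]
  simp only [e]

theorem rm_locML (hlk : ((l : ℕ) : k) ≠ 0) {a b : K} {v : Place k K}
    (hv : v.red (minDisc v a b) = 0) :
    (locML l v a b).rootMultiplicity ((Nat.card k : ℕ) : ZMod l)⁻¹ =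
      if ((S.trace v a b : ℤ) : ZMod l) = ((Nat.card k : ℕ) : ZMod l) ^ v.deg then
        l ^ padicValNat l v.deg else 0 := by
  have hq := card_ne_zero_mod (k := k) hlk
  set q : ZMod l := ((Nat.card k : ℕ) : ZMod l) with hqdef
  have hd := deg_pos' v
  have hx : q⁻¹ ≠ 0 := inv_ne_zero hq
  have hqd : q ^ v.deg * q⁻¹ ^ v.deg = 1 := by
    rw [← mul_pow, mul_inv_cancel₀ hq, one_pow]
  have hiff : ∀ c : ZMod l, c * q⁻¹ ^ v.deg = 1 ↔ c = q ^ v.deg := by
    intro c
    constructor
    · intro h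
      linear_combination q ^ v.deg * h - c * hqd
    · intro h
      rw [h, hqd]
  rw [locML_eq, if_neg (not_not.2 hv), add_zero, rm_binom l hx hd]
  simp only [hiff]
  rfl

/-- reduction of a relation modulo `l` -/
theorem rel_mod {χ : Place k K → ℤ} {P Q : Polynomial ℤ}
    (hrel : (Q : PowerSeries ℤ) * eulerProd (fun v : Place k K => v.deg)
      (fun v => 1 - C (χ v) * X ^ v.deg) = (P : PowerSeries ℤ)) :
    ((Q.map (Int.castRingHom (ZMod l)) : Polynomial (ZMod l)) : PowerSeries (ZMod l)) *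
      eulerProd (fun v : Place k K => v.deg) (fun v => (chF l χ v : PowerSeries (ZMod l))) =
      ((P.map (Int.castRingHom (ZMod l)) : Polynomial (ZMod l)) : PowerSeries (ZMod l)) := by
  have hfin := fun n => places_fin (k := k) (K := K) n
  have h1 := congrArg (redL l) hrel
  rw [map_mul, redL_poly, redL_poly, map_eulerProd hfin] at h1
  rw [← h1]
  congr 2
  funext v
  unfold chF
  rw [map_sub, map_one, map_mul, map_pow, PowerSeries.map_X, PowerSeries.map_C,
    Polynomial.coe_sub, Polynomial.coe_one, Polynomial.coe_mul, Polynomial.coe_pow,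
    Polynomial.coe_X, Polynomial.coe_C, eq_intCast]

end alg

end Pool.Agent.R427.TW
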