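import Pool.Agent.R427.TW9

/-!
The twists of `E_t` by the quadratic polynomials `D_c`: the bound.
-/

set_option autoImplicit false
set_option linter.all false
set_option maxHeartbeats 4000000

open FF Module Polynomial WeierstrassCurve WeierstrassCurve.Affine
open scoped Classical

namespace Pool.Agent.R427.TW

open Pool.Agent.W343.BSD Pool.Agent.H123R3.ZT Pool.Agent.W309.RF Pool.Agent.H525R3.FFp
open Pool.Agent.TH639.B3
open Pool.Agent.W313.Gr (curve rank rank_mono)
open Pool.Agent.R427.FT (fA fB)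

section genus

variable {k : Type} [Field k] [Finite k] {l : ℕ}

/-- the field `k(t, √D_c)` is rational -/
theorem rel_Dc [Fact l.Prime] (h2 : (2 : k) ≠ 0) (h3 : (3 : k) ≠ 0) {c : k} (hc : c ≠ 0)
    (h4 : 4 * c + 1 ≠ 0) (h7 : c ^ 2 + 7 * c + 1 ≠ 0) (h16 : 16 * c ^ 2 + 12 * c + 1 ≠ 0) :
    eulerProd (fun v : Place k (RatFunc k) => v.deg)
      (fun v => (chF l (fun v => chi v (A (Dc c))) v : PowerSeries (ZMod l))) = 1 := by
  have h6 : (6 : k) ≠ 0 := by
    have : (6 : k) = 2 * 3 := by norm_num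
    rw [this]
    exact mul_ne_zero h2 h3
  obtain ⟨hD0, -⟩ := Dc_ne h2 hc
  set κ : RatFunc k := algebraMap k (RatFunc k) c with hκ
  have hκ0 : κ ≠ 0 := (_root_.map_ne_zero _).2 hc
  have hAX : A (X : k[X]) = RatFunc.X := RatFunc.algebraMap_X
  have hAC : ∀ z : k, A (C z) = algebraMap k (RatFunc k) z := fun z => rfl
  have hden : (κ + 1) * RatFunc.X - κ ≠ 0 := by
    intro h
    have e : A (C (c + 1) * X - C c) = 0 := by
      rw [← h]
      show algebraMap k[X] (RatFunc k) _ = _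
      rw [map_sub, map_mul, RatFunc.algebraMap_X, hκ]
      have e1 : algebraMap k[X] (RatFunc k) (C (c + 1)) = algebraMap k (RatFunc k) (c + 1) := rfl
      have e2 : algebraMap k[X] (RatFunc k) (C c) = algebraMap k (RatFunc k) c := rfl
      rw [e1, e2, map_add, map_one]
    have h1 : (C (c + 1) * X - C c : k[X]) = 0 := by
      by_contra h5
      exact A_ne h5 e
    have h5 := congrArg (eval 0) h1
    simp at h5
    exact hc h5
  obtain ⟨b, hbE⟩ : ∃ b : RatFunc k,
      b * ((κ + 1) * RatFunc.X - κ) = κ * (RatFunc.X ^ 2 + RatFunc.X - κ) :=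
    ⟨κ * (RatFunc.X ^ 2 + RatFunc.X - κ) / ((κ + 1) * RatFunc.X - κ), div_mul_cancel₀ _ hden⟩
  have htr : Transcendental k b := by
    intro halg
    obtain ⟨z, hz⟩ := const_rat _ halg
    have h1 : A (C c * (X ^ 2 + X - C c) - C z * (C (c + 1) * X - C c)) = 0 := by
      show algebraMap k[X] (RatFunc k) _ = _
      have e1 : ∀ y : k, algebraMap k[X] (RatFunc k) (C y) = algebraMap k (RatFunc k) y :=
        fun y => rfl
      rw [map_sub, map_mul, map_mul, map_sub, map_sub, map_mul, map_add, map_pow,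
        RatFunc.algebraMap_X, e1, e1, e1, map_add, map_one, hz]
      linear_combination -hbE
    have h5 : (C c * (X ^ 2 + X - C c) - C z * (C (c + 1) * X - C c) : k[X]) = 0 := by
      by_contra h6
      exact A_ne h6 h1
    have h8 : (C c * X ^ 2 + C (c - z * (c + 1)) * X + C (-c ^ 2 + z * c) : k[X]) = 0 := by
      rw [← h5]
      simp only [C_add, C_sub, C_mul, C_neg, C_pow, C_1]
      ring
    have h9 := natDegree_quadratic (b := c - z * (c + 1)) (c := -c ^ 2 + z * c) hc
    rw [h8, natDegree_zero] at h9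
    norm_num at h9
  obtain ⟨Φ, hΦ⟩ := TH180.R4.exists_lift htr
  have hΦc : Φ κ = κ := Φ.commutes c
  have hΦD : Φ (A (Dc c)) = (κ + 1) ^ 2 * b ^ 2 - (6 * κ ^ 2 + 2 * κ) * b +
      (4 * κ ^ 3 + κ ^ 2) := by
    have e : A (Dc c) = aeval (RatFunc.X : RatFunc k) (Dc c) := A_aeval _
    rw [e, ← Polynomial.aeval_algHom_apply, hΦ, aeval_Dc]
  set θ : Cov Φ := (2 * κ * RatFunc.X + κ - (κ + 1) * b : RatFunc k) with hθd
  have hid : (2 * κ * RatFunc.X + κ - (κ + 1) * b : RatFunc k) ^ 2 =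
      (κ + 1) ^ 2 * b ^ 2 - (6 * κ ^ 2 + 2 * κ) * b + (4 * κ ^ 3 + κ ^ 2) := by
    linear_combination (-4 * κ) * hbE
  have hθ : θ ^ 2 = algebraMap (RatFunc k) (Cov Φ) (A (Dc c)) := by
    rw [cov_map, hΦD]
    exact hid
  have h2K : (2 : RatFunc k) ≠ 0 := by
    have : algebraMap k (RatFunc k) 2 ≠ 0 := by simpa using h2
    rwa [map_ofNat] at this
  have htop : IntermediateField.adjoin (RatFunc k) {θ} = ⊤ := by
    rw [eq_top_iff, ← adjoin_gn, IntermediateField.adjoin_le_iff]
    rintro x hx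
    rw [Set.mem_singleton_iff] at hx
    rw [hx]
    have hmem : ∀ z : RatFunc k, algebraMap (RatFunc k) (Cov Φ) z ∈
        IntermediateField.adjoin (RatFunc k) {θ} := fun z => IntermediateField.algebraMap_mem _ z
    have hθm : θ ∈ IntermediateField.adjoin (RatFunc k) {θ} :=
      IntermediateField.mem_adjoin_simple_self _ _
    have e : gn Φ = (θ - algebraMap (RatFunc k) (Cov Φ) κ +
        (algebraMap (RatFunc k) (Cov Φ) (κ + 1)) * algebraMap (RatFunc k) (Cov Φ) RatFunc.X) /
        algebraMap (RatFunc k) (Cov Φ) (2 * κ) := by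
      have e1 : algebraMap (RatFunc k) (Cov Φ) (2 * κ) = (2 * κ : RatFunc k) := by
        rw [cov_map, map_mul, map_ofNat, hΦc]
      have e2 : algebraMap (RatFunc k) (Cov Φ) (κ + 1) = (κ + 1 : RatFunc k) := by
        rw [cov_map, map_add, map_one, hΦc]
      have e3 : algebraMap (RatFunc k) (Cov Φ) κ = (κ : RatFunc k) := by rw [cov_map, hΦc]
      have e4 : algebraMap (RatFunc k) (Cov Φ) RatFunc.X = b := by rw [cov_map, hΦ]
      rw [e1, e2, e3, e4, hθd]
      have hid2 : (RatFunc.X : RatFunc k) =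
          (2 * κ * RatFunc.X + κ - (κ + 1) * b - κ + (κ + 1) * b) / (2 * κ) := by
        rw [eq_div_iff (mul_ne_zero h2K hκ0)]
        ring
      exact hid2
    rw [e]
    exact div_mem (add_mem (sub_mem hθm (hmem _)) (mul_mem (hmem _) (hmem _))) (hmem _)
  have hns : ∀ s : RatFunc k, A (Dc c) ≠ s ^ 2 := by
    intro s h
    obtain ⟨v, -, hord, -⟩ := exists_place h2 h3 hc h4 h7 h16
    rw [h, v.ord_pow] at hord
    push_cast at hord
    omega
  obtain ⟨q1, q2, q3⟩ := quad_data h2K hθ hns htop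
  have hz : IsZetaNumRel k (RatFunc k) 1 := (S.isZetaNum_iff 1).1 isZetaNum_rat
  have hz' : IsZetaNumRel k (Cov Φ) 1 := hz
  have hrel := zeta_rel h6 q3 (A_ne hD0) hθ hns hz hz' constDeg_rat constDeg_rat
  have h3 := rel_mod (l := l) hrel
  rw [Polynomial.map_one, Polynomial.coe_one, one_mul] at h3
  exact h3

end genus

end Pool.Agent.R427.TW
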