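import Pool.Agent.R427.TW1
import Pool.Agent.R427.FT3

/-!
Quadratic twists of the curves with a point of order five: the places.
-/

set_option autoImplicit false
set_option linter.all false
set_option maxHeartbeats 4000000

open FF Module
open scoped Classical

namespace Pool.Agent.R427.TW

open Pool.Agent.W343.BSD Pool.Agent.H123R3.ZT
open Pool.Agent.TH639.B3
open Pool.Agent.W313.Gr (PointsDvd)
open Pool.Agent.W313.Hyp Pool.Agent.W313.Gr
open Pool.Agent.R427.FT (fA fB Norm exists_norm nRF red_fA red_fB disc_zero_iff fA_ne_or dvd_good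
  count_node count_cusp aeval_quad)

section semi

variable {k K : Type} [Field k] [Finite k] [Field K] [Algebra k K] [FF.IsFF k K] {v : Place k K}

theorem ram_semi {A B w : K} (rA : v.Reg A) (rB : v.Reg B) (h0 : v.red A ≠ 0 ∨ v.red B ≠ 0)
    (hw0 : w ≠ 0) (hodd : Odd (v.ord w)) (hA : v.Reg (w ^ 2 * A)) (hB : v.Reg (w ^ 3 * B)) :
    Sm v 1 (w ^ 2 * A) ∧ Sm v 1 (w ^ 3 * B) := by
  obtain ⟨j, hj⟩ : ∃ j, j = v.ord w := ⟨_, rfl⟩
  rw [← hj] at hodd
  have pos : 1 ≤ j → Sm v 1 (w ^ 2 * A) ∧ Sm v 1 (w ^ 3 * B) := by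
    intro h1
    constructor
    · have h2 := sm_mul v (sm_pow (sm_ord v w) 2) (sm_reg rA)
      refine sm_mono v ?_ h2
      rw [← hj]
      push_cast
      omega
    · have h2 := sm_mul v (sm_pow (sm_ord v w) 3) (sm_reg rB)
      refine sm_mono v ?_ h2
      rw [← hj]
      push_cast
      omega
  apply pos
  rcases h0 with h4 | h4
  · obtain ⟨h5, h6⟩ := ord_of_red rA h4
    rw [v.reg_iff (mul_ne_zero (pow_ne_zero 2 hw0) h5), v.ord_mul (pow_ne_zero 2 hw0) h5,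
      v.ord_pow, h6, ← hj] at hA
    push_cast at hA
    obtain ⟨i, hi⟩ := hodd
    omega
  · obtain ⟨h5, h6⟩ := ord_of_red rB h4
    rw [v.reg_iff (mul_ne_zero (pow_ne_zero 3 hw0) h5), v.ord_mul (pow_ne_zero 3 hw0) h5,
      v.ord_pow, h6, ← hj] at hB
    push_cast at hB
    obtain ⟨i, hi⟩ := hodd
    omega

/-- the twist by an element of odd valuation of a semistable curve has additive reduction -/
theorem add_semi {a b u c : K} (hs : IsMinScale v a b c)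
    (h0 : v.red (c ^ 4 * a) ≠ 0 ∨ v.red (c ^ 6 * b) ≠ 0)
    (hΔ : 4 * a ^ 3 + 27 * b ^ 2 ≠ 0) (hu : u ≠ 0) (hodd : Odd (v.ord u)) :
    S.trace v (u ^ 2 * a) (u ^ 3 * b) = 0 ∧
      v.red (minDisc v (u ^ 2 * a) (u ^ 3 * b)) = 0 := by
  have hΔ' : 4 * (u ^ 2 * a) ^ 3 + 27 * (u ^ 3 * b) ^ 2 ≠ 0 := by
    rw [twist_disc]
    exact mul_ne_zero (pow_ne_zero 6 hu) hΔ
  have hab' := ab_of_disc hΔ'
  have hs' := minScale_spec v hab'
  set c' := minScale v (u ^ 2 * a) (u ^ 3 * b) with hc'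
  set w := (c' / c) ^ 2 * u with hw
  have hw0 : w ≠ 0 := mul_ne_zero (pow_ne_zero 2 (div_ne_zero hs'.1 hs.1)) hu
  have hwo : Odd (v.ord w) := by
    rw [hw, v.ord_mul (pow_ne_zero 2 (div_ne_zero hs'.1 hs.1)) hu, v.ord_pow]
    exact Even.add_odd ⟨v.ord (c' / c), by push_cast; ring⟩ hodd
  have hc0 : c ≠ 0 := hs.1
  have e1 : c' ^ 4 * (u ^ 2 * a) = w ^ 2 * (c ^ 4 * a) := by
    rw [hw]
    field_simp
  have e2 : c' ^ 6 * (u ^ 3 * b) = w ^ 3 * (c ^ 6 * b) := by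
    rw [hw]
    field_simp
  obtain ⟨s1, s2⟩ := ram_semi hs.2.1 hs.2.2.1 h0 hw0 hwo (by rw [← e1]; exact hs'.2.1)
    (by rw [← e2]; exact hs'.2.2.1)
  have r1 : v.red (c' ^ 4 * (u ^ 2 * a)) = 0 := by rw [e1]; exact red_of_sm zero_lt_one s1
  have r2 : v.red (c' ^ 6 * (u ^ 3 * b)) = 0 := by rw [e2]; exact red_of_sm zero_lt_one s2
  constructor
  · rw [S.trace_eq, trace_of_min v hab' hs', r1, r2, card_sol_cusp, sub_self]
  by_contra hne
  have h1 := (S.ord_disc_iff v hΔ').2 hne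
  apply (ord_disc_zero_iff hΔ' hs').1 h1
  rw [r1, r2]
  ring

end semi

section gen

variable {k K : Type} [Field k] [Finite k] [Field K] [Algebra k K] [FF.IsFF k K]

/-- the weight of the places of split multiplicative reduction -/
noncomputable def splitW (l : ℕ) {k K : Type} [Field k] [Field K] [Algebra k K] (v : Place k K)
    (a b : K) : ℕ :=
  if v.ord (minDisc v a b) ≠ 0 ∧ S.trace v a b = 1 then l ^ padicValNat l (S.deg v) else 0

/-- semistable reduction, with a condition modulo `l` at the places of bad reduction -/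
def Semi (l : ℕ) {k K : Type} [Field k] [Field K] [Algebra k K] (v : Place k K) (a b : K) : Prop :=
  (∃ c, IsMinScale v a b c ∧ (v.red (c ^ 4 * a) ≠ 0 ∨ v.red (c ^ 6 * b) ≠ 0)) ∧
    (v.red (minDisc v a b) = 0 → S.trace v a b = 1 ∨
      (S.trace v a b = -1 ∨ S.trace v a b = 1) ∧
        ((l : ℕ) : ℤ) ∣ (Nat.card (S.Res v) : ℤ) - S.trace v a b)

variable {l : ℕ} [Fact l.Prime]

theorem tw_ne {a b u : K} (hΔ : 4 * a ^ 3 + 27 * b ^ 2 ≠ 0) (hu : u ≠ 0) :
    4 * (u ^ 2 * a) ^ 3 + 27 * (u ^ 3 * b) ^ 2 ≠ 0 := by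
  rw [twist_disc]
  exact mul_ne_zero (pow_ne_zero 6 hu) hΔ

/-- the Euler factors at the places of good reduction -/
theorem tw_good (h6 : (6 : k) ≠ 0) {a b u : K} (hN : PointsDvd l k a b)
    (hΔ : 4 * a ^ 3 + 27 * b ^ 2 ≠ 0) (hu : u ≠ 0) {v : Place k K} (hS : Semi l v a b)
    (hv : v.red (minDisc v (u ^ 2 * a) (u ^ 3 * b)) ≠ 0) :
    locML l v (u ^ 2 * a) (u ^ 3 * b) = pairL l ((Nat.card k : ℕ) : ZMod l) (chi v u) v.deg := by
  have hΔ' := tw_ne hΔ hu
  have hv' := (S.ord_disc_iff v hΔ').2 hv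
  obtain ⟨⟨c, hc, h0⟩, -⟩ := hS
  have hev : ¬ Odd (v.ord u) := fun hodd => hv (add_semi hc h0 hΔ hu hodd).2
  have hg : v.ord (minDisc v a b) = 0 := by rw [← disc_twist hΔ hu hev]; exact hv'
  have hN := hN v hg
  have ht := trace_twist h6 (v := v) (ab_of_disc hΔ) hu hev
  have hqc : ((Nat.card (S.Res v) : ℕ) : ZMod l) = ((Nat.card k : ℕ) : ZMod l) ^ v.deg :=
    card_RFl v
  have h1 : ((S.trace v a b : ℤ) : ZMod l) = ((Nat.card k : ℕ) : ZMod l) ^ v.deg + 1 := by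
    have h2 := (ZMod.intCast_zmod_eq_zero_iff_dvd _ _).2 hN
    push_cast at h2
    rw [hqc] at h2
    linear_combination -h2
  have h2 : ((trace v (u ^ 2 * a) (u ^ 3 * b) : ℤ) : ZMod l) =
      ((chi v u : ℤ) : ZMod l) * (((Nat.card k : ℕ) : ZMod l) ^ v.deg + 1) := by
    rw [← h1, ← Int.cast_mul, ← ht]
    rfl
  have hx : ((chi v u : ℤ) : ZMod l) ^ 2 = 1 := by
    rcases chi_pm hev with ⟨h3, -⟩ | ⟨h3, -⟩
    · rw [h3]; norm_num
    · rw [h3]; norm_num
  rw [locML_eq, if_pos hv, h2, card_RFl]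
  unfold pairL
  set x : ZMod l := ((chi v u : ℤ) : ZMod l)
  set c : ZMod l := ((Nat.card k : ℕ) : ZMod l) ^ v.deg
  have e1 : Polynomial.C (x * (c + 1)) = Polynomial.C x * (Polynomial.C c + 1) := by
    rw [Polynomial.C_mul, Polynomial.C_add, Polynomial.C_1]
  have e2 : (Polynomial.C c : Polynomial (ZMod l)) = Polynomial.C x * Polynomial.C x *
      Polynomial.C c := by
    rw [← Polynomial.C_mul, ← Polynomial.C_mul, ← sq, hx, one_mul]
  rw [e1, Polynomial.C_mul]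
  linear_combination (Polynomial.X ^ (2 * v.deg)) * e2

/-- small integers modulo `l` -/
theorem pm_eq (hl : 2 < l) {x y : ℤ} (hx : x = 1 ∨ x = -1) (hy : y = 1 ∨ y = -1) :
    ((x : ℤ) : ZMod l) = ((y : ℤ) : ZMod l) ↔ x = y := by
  constructor
  · intro h
    rw [ZMod.intCast_eq_intCast_iff_dvd_sub] at h
    have h2l : (2 : ℤ) < l := by exact_mod_cast hl
    rcases hx with rfl | rfl <;> rcases hy with rfl | rfl
    · rfl
    · have := Int.le_of_dvd (by norm_num) ((dvd_neg).2 h)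
      omega
    · have := Int.le_of_dvd (by norm_num) h
      omega
    · rfl
  · rintro rfl
    rfl

/-- the Euler factors at the other places -/
theorem tw_bad (h6 : (6 : k) ≠ 0) (hlk : ((l : ℕ) : k) ≠ 0) (hl : 2 < l) {a b u : K}
    (hΔ : 4 * a ^ 3 + 27 * b ^ 2 ≠ 0) (hu : u ≠ 0) {v : Place k K} (hS : Semi l v a b)
    (hv : v.red (minDisc v (u ^ 2 * a) (u ^ 3 * b)) = 0) :
    (pairL l ((Nat.card k : ℕ) : ZMod l) (chi v u) v.deg).rootMultiplicity
      ((Nat.card k : ℕ) : ZMod l)⁻¹ ≤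
      (locML l v (u ^ 2 * a) (u ^ 3 * b)).rootMultiplicity ((Nat.card k : ℕ) : ZMod l)⁻¹ +
        splitW l v (u ^ 2 * a) (u ^ 3 * b) := by
  have hΔ' := tw_ne hΔ hu
  have hvn : v.ord (minDisc v (u ^ 2 * a) (u ^ 3 * b)) ≠ 0 := fun h1 =>
    (S.ord_disc_iff v hΔ').1 h1 hv
  have hq := card_ne_zero_mod (k := k) hlk
  rw [rm_pairL hq (deg_pos' v), rm_locML hlk hv]
  set q : ZMod l := ((Nat.card k : ℕ) : ZMod l) with hqdef
  have hZ0 : q ^ v.deg ≠ 0 := pow_ne_zero _ hq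
  have hqc : ((Nat.card (S.Res v) : ℕ) : ZMod l) = q ^ v.deg := card_RFl v
  unfold splitW
  rw [S.deg_eq]
  set N := l ^ padicValNat l v.deg with hN
  by_cases hodd : Odd (v.ord u)
  · have e0 : ((0 : ℤ) : ZMod l) = 0 := Int.cast_zero
    rw [chi_odd hodd, e0, if_neg hZ0.symm, if_neg zero_ne_one]
    exact Nat.zero_le _
  have hvn' : v.ord (minDisc v a b) ≠ 0 := by
    rw [← disc_twist hΔ hu hodd]; exact hvn
  have hbad : v.red (minDisc v a b) = 0 := by
    by_contra h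
    exact hvn' ((S.ord_disc_iff v hΔ).2 h)
  have ht := trace_twist h6 (v := v) (ab_of_disc hΔ) hu hodd
  have hχ : chi v u = 1 ∨ chi v u = -1 := by
    rcases chi_pm hodd with ⟨hc, -⟩ | ⟨hc, -⟩
    · exact Or.inl hc
    · exact Or.inr hc
  have one1 : ((1 : ℤ) : ZMod l) = 1 := Int.cast_one
  have hχ1 : (((chi v u : ℤ) : ZMod l) = 1) ↔ chi v u = 1 := by
    rw [← one1]
    exact pm_eq hl hχ (Or.inl rfl)
  simp only [hχ1]
  rw [ht]
  rcases hS.2 hbad with h | ⟨h, hd⟩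
  · rw [h, mul_one]
    by_cases h1 : chi v u = 1
    · have e1 : (if v.ord (minDisc v (u ^ 2 * a) (u ^ 3 * b)) ≠ 0 ∧ chi v u = 1 then N else 0) =
          N := if_pos ⟨hvn, h1⟩
      have e2 : (if chi v u = 1 then N else 0) = N := if_pos h1
      rw [e1, e2]
    · have e2 : (if chi v u = 1 then N else 0) = 0 := if_neg h1
      rw [e2, add_zero]
      exact Nat.le_add_right _ _
  · have hd' : q ^ v.deg = ((S.trace v a b : ℤ) : ZMod l) := by
      rw [← ZMod.intCast_zmod_eq_zero_iff_dvd] at hd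
      push_cast at hd
      rw [hqc] at hd
      linear_combination hd
    rw [hd']
    have ht' : S.trace v a b = 1 ∨ S.trace v a b = -1 := h.symm
    have hcm : chi v u * S.trace v a b = 1 ∨ chi v u * S.trace v a b = -1 := by
      rcases hχ with e1 | e1 <;> rcases ht' with e2 | e2 <;> rw [e1, e2] <;> norm_num
    simp only [pm_eq hl hχ ht', pm_eq hl hcm ht']
    rcases hχ with e1 | e1 <;> rcases ht' with e2 | e2 <;> rw [e1, e2] <;> simp [hvn]

/-- the bound for the twist -/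
theorem twist_le (h6 : (6 : k) ≠ 0) (hlk : ((l : ℕ) : k) ≠ 0) (hl : 2 < l) {a b u : K}
    (hN : PointsDvd l k a b) (hS : ∀ v : Place k K, Semi l v a b)
    (hΔ : 4 * a ^ 3 + 27 * b ^ 2 ≠ 0) (hu : u ≠ 0) {P Q : Polynomial (ZMod l)}
    (hP : P ≠ 0) (hQ : Q ≠ 0)
    (hrel : (Q : PowerSeries (ZMod l)) * eulerProd (fun v : Place k K => v.deg)
      (fun v => (chF l (fun v => chi v u) v : PowerSeries (ZMod l))) =
        (P : PowerSeries (ZMod l))) {m : ℕ}
    (hm : S.VanishesTo k (u ^ 2 * a) (u ^ 3 * b) m) :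
    m + rs l (Nat.card k) P ≤ rs l (Nat.card k) Q +
      ∑ᶠ v : Place k K, splitW l v (u ^ 2 * a) (u ^ 3 * b) := by
  have hΔ' := tw_ne hΔ hu
  refine bound_gen hlk hΔ' hP hQ hrel (fun v hv => tw_good h6 hN hΔ hu (hS v) hv)
    (fun v hv => tw_bad h6 hlk hl hΔ hu (hS v) hv) (fun v hv => ?_) hm
  unfold splitW
  rw [if_neg]
  rintro ⟨h1, -⟩
  exact h1 ((S.ord_disc_iff v hΔ').2 hv)

end gen

section loc

variable {k K : Type} [Field k] [Finite k] [Field K] [Algebra k K] [FF.IsFF k K] {v : Place k K}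

/-- the data of `E_g` at a place -/
theorem trace_data' (h2 : (2 : k) ≠ 0) (h3 : (3 : k) ≠ 0) (h5 : (5 : k) ≠ 0) {g : K} (hg : g ≠ 0)
    (hΔ : 4 * fA g ^ 3 + 27 * fB g ^ 2 ≠ 0) (v : Place k K) :
    (∃ c, IsMinScale v (fA g) (fB g) c ∧
      (v.red (c ^ 4 * fA g) ≠ 0 ∨ v.red (c ^ 6 * fB g) ≠ 0)) ∧
    (v.red (minDisc v (fA g) (fB g)) = 0 → (v.ord g ≠ 0 ∧ S.trace v (fA g) (fB g) = 1) ∨
      (v.ord g = 0 ∧ 0 < v.ord (g ^ 2 - 11 * g - 1) ∧
        (S.trace v (fA g) (fB g) = -1 ∨ S.trace v (fA g) (fB g) = 1) ∧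
        ((5 : ℕ) : ℤ) ∣ (Nat.card (S.Res v) : ℤ) - S.trace v (fA g) (fB g))) := by
  obtain ⟨n2, n3, n5⟩ := nRF h2 h3 h5 v
  have hab := ab_of_disc hΔ
  obtain ⟨c, z, hn, hz, hz'⟩ := exists_norm v hg
  have hm := hn.min h2 h3 h5
  have hdz := ord_disc_zero_iff hΔ hm
  rw [hn.eA, hn.eB, (red_fA hn.rz).2, (red_fB hn.rz).2] at hdz
  have htr : S.trace v (fA g) (fB g) = _ := trace_of_min v hab hm
  rw [hn.eA, hn.eB, (red_fA hn.rz).2, (red_fB hn.rz).2] at htr
  refine ⟨⟨c, hm, ?_⟩, ?_⟩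
  · rw [hn.eA, hn.eB, (red_fA hn.rz).2, (red_fB hn.rz).2]
    exact fA_ne_or n2 n3 n5 _
  intro hbad
  have hbad' : v.red z = 0 ∨ (v.red z) ^ 2 - 11 * v.red z - 1 = 0 := by
    rw [← disc_zero_iff n2 n3]
    by_contra h
    exact (S.ord_disc_iff v hΔ).1 (hdz.2 h) hbad
  by_cases hz0 : v.red z = 0
  · left
    refine ⟨hz.1 ((v.red_eq_zero_iff hn.rz).1 hz0), ?_⟩
    have hA0 : fA (v.red z) = -27 := by rw [hz0]; unfold fA; ring
    have hB0 : fB (v.red z) = 54 := by rw [hz0]; unfold fB; ring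
    rw [htr, hA0, hB0]
    exact count_cusp n2 n3
  · right
    have hnode := hbad'.resolve_left hz0
    have ho : v.ord g = 0 := by
      by_contra h
      exact hz0 ((v.red_eq_zero_iff hn.rz).2 (hz.2 h))
    have hzg := hz' ho
    have hg2 : g ^ 2 - 11 * g - 1 ≠ 0 := by
      have h2K : (2 : K) ≠ 0 := by
        have : algebraMap k K 2 ≠ 0 := by simpa using h2
        rwa [map_ofNat] at this
      have h3K : (3 : K) ≠ 0 := by
        have : algebraMap k K 3 ≠ 0 := by simpa using h3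
        rwa [map_ofNat] at this
      exact fun h => hΔ ((disc_zero_iff h2K h3K _).2 (Or.inr h))
    have hreg : v.Reg (g ^ 2 - 11 * g - 1) := by
      rw [hzg] at hn
      rw [← aeval_quad (k := k) g]
      exact Pool.Agent.H675R3.ZT.reg_aeval v hn.rz _
    have hord : 0 < v.ord (g ^ 2 - 11 * g - 1) := by
      have hrz : v.Reg g := Or.inr ho.ge
      have e : v.red (g ^ 2 - 11 * g - 1) = 0 := by
        rw [← aeval_quad (k := k) g, Pool.Agent.H675R3.ZT.red_aeval v hrz, aeval_quad]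
        rw [hzg] at hnode
        exact hnode
      exact ((v.red_eq_zero_iff hreg).1 e).resolve_left hg2
    refine ⟨ho, hord, ?_, ?_⟩
    · letI : Fintype v.RF := Fintype.ofFinite _
      rw [htr]
      have hA0 := (count_node n2 n3 n5 hz0 hnode).1
      have hd0 : 4 * fA (v.red z) ^ 3 + 27 * fB (v.red z) ^ 2 = 0 :=
        (disc_zero_iff n2 n3 _).2 (Or.inr hnode)
      have hB0 : fB (v.red z) ≠ 0 := by
        intro h
        rw [h] at hd0
        have n4 : (4 : v.RF) ≠ 0 := by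
          have : (4 : v.RF) = 2 * 2 := by norm_num
          rw [this]
          exact mul_ne_zero n2 n2
        apply mul_ne_zero n4 (pow_ne_zero 3 hA0)
        linear_combination hd0
      rw [Pool.Agent.W313.Gr.card_node n2 n3 hd0 hA0]
      have hne : -2 * fA (v.red z) * fB (v.red z) ≠ 0 :=
        mul_ne_zero (mul_ne_zero (neg_ne_zero.2 n2) hA0) hB0
      rcases quadraticChar_dichotomy hne with h | h
      · exact Or.inr h
      · exact Or.inl h
    · rw [htr]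
      have e : (Nat.card (S.Res v) : ℤ) - ((Nat.card v.RF : ℤ) -
          Nat.card (Sol v.RF (fA (v.red z)) (fB (v.red z)))) =
          ((Nat.card (Sol v.RF (fA (v.red z)) (fB (v.red z))) : ℕ) : ℤ) := by
        have : Nat.card (S.Res v) = Nat.card v.RF := rfl
        rw [this]
        ring
      rw [e]
      have := (count_node n2 n3 n5 hz0 hnode).2
      exact_mod_cast this

theorem trace_data (h2 : (2 : k) ≠ 0) (h3 : (3 : k) ≠ 0) (h5 : (5 : k) ≠ 0) {g : K} (hg : g ≠ 0)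
    (hΔ : 4 * fA g ^ 3 + 27 * fB g ^ 2 ≠ 0) (v : Place k K) : Semi 5 v (fA g) (fB g) := by
  obtain ⟨h1, h4⟩ := trace_data' h2 h3 h5 hg hΔ v
  refine ⟨h1, fun h => ?_⟩
  rcases h4 h with h | h
  · exact Or.inl h.2
  · exact Or.inr h.2.2

/-- the places of split multiplicative reduction of the twist -/
theorem split_iff (h2 : (2 : k) ≠ 0) (h3 : (3 : k) ≠ 0) (h5 : (5 : k) ≠ 0) {g u : K} (hg : g ≠ 0)
    (hu : u ≠ 0) (hΔ : 4 * fA g ^ 3 + 27 * fB g ^ 2 ≠ 0) {v : Place k K}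
    (h : v.ord (minDisc v (u ^ 2 * fA g) (u ^ 3 * fB g)) ≠ 0 ∧
      S.trace v (u ^ 2 * fA g) (u ^ 3 * fB g) = 1) :
    (v.ord g ≠ 0 ∧ chi v u = 1) ∨ (v.ord g = 0 ∧ 0 < v.ord (g ^ 2 - 11 * g - 1) ∧
      chi v u ≠ 0 ∧ ((5 : ℕ) : ℤ) ∣ (Nat.card (S.Res v) : ℤ) - chi v u) := by
  obtain ⟨hn, ht⟩ := h
  obtain ⟨⟨c, hc, h0⟩, h4⟩ := trace_data' h2 h3 h5 hg hΔ v
  have h6 : (6 : k) ≠ 0 := by
    have : (6 : k) = 2 * 3 := by norm_num
    rw [this]
    exact mul_ne_zero h2 h3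
  by_cases hodd : Odd (v.ord u)
  · exfalso
    rw [(add_semi hc h0 hΔ hu hodd).1] at ht
    norm_num at ht
  have hvn' : v.ord (minDisc v (fA g) (fB g)) ≠ 0 := by
    rw [← disc_twist hΔ hu hodd]; exact hn
  have hbad : v.red (minDisc v (fA g) (fB g)) = 0 := by
    by_contra h
    exact hvn' ((S.ord_disc_iff v hΔ).2 h)
  rw [trace_twist h6 (v := v) (ab_of_disc hΔ) hu hodd] at ht
  have hχ : chi v u = 1 ∨ chi v u = -1 := by
    rcases chi_pm hodd with ⟨hc, -⟩ | ⟨hc, -⟩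
    · exact Or.inl hc
    · exact Or.inr hc
  rcases h4 hbad with h | ⟨e1, e2, e3, e4⟩
  · left
    rw [h.2, mul_one] at ht
    exact ⟨h.1, ht⟩
  · right
    have e5 : chi v u = S.trace v (fA g) (fB g) := by
      rcases hχ with e | e <;> rcases e3 with e' | e' <;> rw [e, e'] at ht ⊢ <;> norm_num at ht
    refine ⟨e1, e2, ?_, ?_⟩
    · rcases hχ with e | e <;> rw [e] <;> norm_num
    · rw [e5]
      exact e4

/-- the bound for the twist of `E_g` -/
theorem twist_five (h2 : (2 : k) ≠ 0) (h3 : (3 : k) ≠ 0) (h5 : (5 : k) ≠ 0) {g u : K} (hg : g ≠ 0)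
    (hg2 : g ^ 2 - 11 * g - 1 ≠ 0) (hu : u ≠ 0) {P Q : Polynomial (ZMod 5)} (hP : P ≠ 0)
    (hQ : Q ≠ 0)
    (hrel : (Q : PowerSeries (ZMod 5)) * eulerProd (fun v : Place k K => v.deg)
      (fun v => (chF 5 (fun v => chi v u) v : PowerSeries (ZMod 5))) =
        (P : PowerSeries (ZMod 5))) {m : ℕ}
    (hm : S.VanishesTo k (u ^ 2 * fA g) (u ^ 3 * fB g) m) :
    m + rs 5 (Nat.card k) P ≤ rs 5 (Nat.card k) Q +
      ∑ᶠ v : Place k K, splitW 5 v (u ^ 2 * fA g) (u ^ 3 * fB g) := by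
  have : Fact (Nat.Prime 5) := ⟨Nat.prime_five⟩
  have h2K : (2 : K) ≠ 0 := by
    have : algebraMap k K 2 ≠ 0 := by simpa using h2
    rwa [map_ofNat] at this
  have h3K : (3 : K) ≠ 0 := by
    have : algebraMap k K 3 ≠ 0 := by simpa using h3
    rwa [map_ofNat] at this
  have h6 : (6 : k) ≠ 0 := by
    have : (6 : k) = 2 * 3 := by norm_num
    rw [this]
    exact mul_ne_zero h2 h3
  have hΔ : 4 * fA g ^ 3 + 27 * fB g ^ 2 ≠ 0 := by
    intro h
    rcases (disc_zero_iff h2K h3K g).1 h with h | h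
    · exact hg h
    · exact hg2 h
  have h5' : ((5 : ℕ) : k) ≠ 0 := by exact_mod_cast h5
  exact twist_le h6 h5' (by norm_num) (dvd_good h2 h3 h5 hg hΔ)
    (fun v => trace_data h2 h3 h5 hg hΔ v) hΔ hu hP hQ hrel hm

end loc

end Pool.Agent.R427.TW
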