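import Pool.Agent.R427.TW5
import Pool.Agent.R427.TW2

/-!
The towers: the final bounds.
-/

set_option autoImplicit false
set_option linter.all false
set_option maxHeartbeats 4000000

open FF Module Polynomial
open scoped Classical

namespace Pool.Agent.R427.TW

open Pool.Agent.W343.BSD Pool.Agent.H123R3.ZT Pool.Agent.W309.RF Pool.Agent.H525R3.FFp
open Pool.Agent.TH639.B3
open Pool.Agent.R427.FT (fA fB)

section prim

variable {k : Type} [Field k] [Finite k] {l : ℕ}

theorem exists_prim (hl : l.Prime) (hd : l ∣ Nat.card k - 1) : ∃ ζ : k, IsPrimitiveRoot ζ l := by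
  obtain ⟨g, hg⟩ := IsCyclic.exists_ofOrder_eq_natCard (α := kˣ)
  rw [Nat.card_units] at hg
  obtain ⟨m, hm⟩ := hd
  have hq : 1 < Nat.card k := Finite.one_lt_card
  have hm0 : m ≠ 0 := by
    rintro rfl
    rw [mul_zero] at hm
    omega
  have h1 : orderOf (g ^ m) = l := by
    rw [orderOf_pow_of_dvd hm0 (by rw [hg, hm]; exact dvd_mul_left _ _), hg, hm]
    exact Nat.mul_div_cancel _ (Nat.pos_of_ne_zero hm0)
  refine ⟨((g ^ m : kˣ) : k), ?_⟩
  rw [IsPrimitiveRoot.coe_units_iff, ← h1]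
  exact IsPrimitiveRoot.orderOf _

end prim

section places

variable {k : Type} [Field k] [Finite k]

/-- the quadratic character at a rational place -/
theorem chi_at {v : Place k (RatFunc k)} (hX : 0 ≤ v.ord RatFunc.X) {β : k}
    (hv : 0 < v.ord (A (X - C β))) {D : k[X]} (hD : ¬ IsSquare (D.eval β)) :
    chi v (A D) = -1 ∧ v.deg = 1 := by
  obtain ⟨π, hirr, -, -, hdvd, hdeg⟩ := exists_irr hX
  have h1 : π ∣ X - C β := (hdvd _ (X_sub_C_ne_zero β)).1 hv
  have h2 : π.natDegree = 1 := by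
    have h3 := Polynomial.natDegree_le_of_dvd h1 (X_sub_C_ne_zero β)
    rw [natDegree_X_sub_C] at h3
    have := hirr.natDegree_pos
    omega
  rw [h2] at hdeg
  refine ⟨?_, hdeg⟩
  have hrX : v.red RatFunc.X = algebraMap k v.RF β := by
    have e : A (X - C β) = RatFunc.X - algebraMap k (RatFunc k) β := by
      show algebraMap k[X] (RatFunc k) (X - C β) = _
      rw [map_sub, RatFunc.algebraMap_X, RatFunc.algebraMap_C]
      rfl
    have h3 : v.red (A (X - C β)) = 0 := (v.red_eq_zero_iff (fin_reg hX _)).2 (Or.inr hv)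
    rw [e, v.red_sub (Or.inr hX) (v.reg_const β), sub_eq_zero] at h3
    rw [h3, v.algebraMap_RF]
  have hred : v.red (A D) = algebraMap k v.RF (D.eval β) := by
    have e : A D = aeval (RatFunc.X : RatFunc k) D := A_aeval D
    rw [e, Pool.Agent.H675R3.ZT.red_aeval v (Or.inr hX), hrX, aeval_algebraMap_apply,
      coe_aeval_eq_eval]
  have hD0 : D.eval β ≠ 0 := by
    intro h
    apply hD
    rw [h]
    exact IsSquare.zero
  have hAD : v.red (A D) ≠ 0 := by
    rw [hred]
    exact (_root_.map_ne_zero _).2 hD0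
  obtain ⟨h4, h5⟩ := ord_of_red (fin_reg hX D) hAD
  have h6 : v.ord (A D) = 2 * v.ord (1 : RatFunc k) := by rw [h5, v.ord_one, mul_zero]
  unfold chi
  rw [if_neg (by rw [h5]; decide), if_neg]
  rw [locSq_iff h4 one_ne_zero h6, one_pow, div_one, hred]
  have h7 : finrank k v.RF = 1 := hdeg
  rw [sq_of_odd (by rw [h7]; exact odd_one)]
  exact hD

theorem chi_inf {v : Place k (RatFunc k)} (hX : v.ord RatFunc.X < 0) {D : k[X]}
    (hD : Odd D.natDegree) : chi v (A D) = 0 := by
  have hD0 : D ≠ 0 := by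
    rintro rfl
    rw [natDegree_zero] at hD
    exact absurd hD (by decide)
  apply chi_odd
  rw [inf_ord' hX hD0]
  exact Odd.neg (by exact_mod_cast hD)

theorem chi_zeroinf {D : k[X]} (hD : Odd D.natDegree) (h0 : ¬ IsSquare (D.eval 0))
    (v : Place k (RatFunc k)) (hv : v.ord RatFunc.X ≠ 0) : chi v (A D) ≠ 1 := by
  rcases lt_or_gt_of_ne hv with h | h
  · rw [chi_inf h hD]
    norm_num
  · have e : A (X - C (0 : k)) = RatFunc.X := by
      rw [C_0, sub_zero]
      exact RatFunc.algebraMap_X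
    rw [(chi_at h.le (β := 0) (by rw [e]; exact h) h0).1]
    norm_num

end places

section tower

variable {k : Type} [Field k] [Finite k] {l : ℕ}

theorem comp_odd (hl : Odd l) {D : k[X]} (hD : Odd D.natDegree) (n : ℕ) :
    Odd (D.comp (X ^ l ^ n)).natDegree := by
  rw [natDegree_comp, natDegree_X_pow]
  exact hD.mul hl.pow

theorem comp_zero (hl : 0 < l) (D : k[X]) (n : ℕ) : (D.comp (X ^ l ^ n)).eval 0 = D.eval 0 := by
  rw [eval_comp, eval_pow, eval_X, zero_pow (pow_pos hl n).ne']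

/-- the tower -/
theorem nr_tower [hlf : Fact l.Prime] (hlo : Odd l) (h6 : (6 : k) ≠ 0)
    (hd : l ∣ Nat.card k - 1) {D : k[X]} (hD : Odd D.natDegree) (h0 : ¬ IsSquare (D.eval 0))
    (h : NR l (A D)) (n : ℕ) : NR l (A (D.comp (X ^ l ^ n))) := by
  obtain ⟨ζ, hζ⟩ := exists_prim hlf.out hd
  have htr : Transcendental k (A (X ^ l : k[X])) := by
    intro halg
    obtain ⟨b, hb⟩ := const_rat _ halg
    have h1 : C b = (X ^ l : k[X]) := RatFunc.algebraMap_injective k hb
    have h2 := congrArg natDegree h1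
    rw [natDegree_C, natDegree_X_pow] at h2
    exact hlf.out.ne_zero h2.symm
  obtain ⟨Φ, hΦ⟩ := Pool.Agent.TH180.R4.exists_lift htr
  have hΦ' : Φ RatFunc.X = RatFunc.X ^ l := by
    rw [hΦ]
    show algebraMap k[X] (RatFunc k) (X ^ l) = _
    rw [map_pow, RatFunc.algebraMap_X]
  induction n with
  | zero =>
    rw [pow_zero, pow_one, comp_X]
    exact h
  | succ n ih =>
    have hDn := comp_odd hlo hD n
    have h0n : ¬ IsSquare ((D.comp (X ^ l ^ n)).eval 0) := by
      rw [comp_zero hlf.out.pos]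
      exact h0
    have hne : D.comp (X ^ l ^ n) ≠ 0 := by
      intro h
      rw [h, natDegree_zero] at hDn
      exact absurd hDn (by decide)
    have h1 := nr_step hlo h6 hζ hΦ' (A_ne hne) ih (chi_zeroinf hDn h0n)
    rw [lift_A hΦ, comp_assoc] at h1
    have e : (X ^ l ^ n : k[X]).comp (X ^ l) = X ^ l ^ (n + 1) := by
      rw [pow_comp, X_comp, ← pow_mul]
      congr 1
      ring
    rwa [e] at h1

/-- the relation from the zeta function -/
theorem nr_of_zeta [Fact l.Prime] (h6 : (6 : k) ≠ 0) {L : Type} [Field L] [Algebra k L]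
    [Algebra (RatFunc k) L] [IsScalarTower k (RatFunc k) L] [FF.IsFF k L] {D : RatFunc k}
    (hD : D ≠ 0) (hns : ∀ s : RatFunc k, D ≠ s ^ 2) {θ : L} (hθ : θ ^ 2 = algebraMap (RatFunc k) L D)
    (htop : IntermediateField.adjoin (RatFunc k) {θ} = ⊤) (hc : constDeg k L = 1) {Q : ℤ[X]}
    (hQ : IsZetaNumRel k L Q) :
    ((Q.map (Int.castRingHom (ZMod l)) : (ZMod l)[X]) : PowerSeries (ZMod l)) *
      eulerProd (fun v : Place k (RatFunc k) => v.deg)
      (fun v => (chF l (fun v => chi v D) v : PowerSeries (ZMod l))) = 1 := by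
  have h2 : (2 : k) ≠ 0 := by
    intro h; apply h6
    have : (6 : k) = 2 * 3 := by norm_num
    rw [this, h, zero_mul]
  have h2K : (2 : RatFunc k) ≠ 0 := by
    have : algebraMap k (RatFunc k) 2 ≠ 0 := by simpa using h2
    rwa [map_ofNat] at this
  obtain ⟨q1, q2, q3⟩ := quad_data h2K hθ hns htop
  have hz : IsZetaNumRel k (RatFunc k) 1 := (S.isZetaNum_iff 1).1 isZetaNum_rat
  have hrel := zeta_rel h6 q3 hD hθ hns hz hQ constDeg_rat hc
  have h3 := rel_mod (l := l) hrel
  rwa [Polynomial.map_one, Polynomial.coe_one] at h3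

theorem eval_map_one (Q : ℤ[X]) : (Q.map (Int.castRingHom (ZMod l))).eval 1 =
    ((Q.eval 1 : ℤ) : ZMod l) := by
  have h1 : (1 : ZMod l) = Int.castRingHom (ZMod l) 1 := by rw [map_one]
  rw [h1, eval_map_apply]
  rfl

/-- the class number from the relation -/
theorem nr_iff [Fact l.Prime] (h6 : (6 : k) ≠ 0) {L : Type} [Field L] [Algebra k L]
    [Algebra (RatFunc k) L] [IsScalarTower k (RatFunc k) L] [FF.IsFF k L] {D : RatFunc k}
    (hD : D ≠ 0) (hns : ∀ s : RatFunc k, D ≠ s ^ 2) {θ : L} (hθ : θ ^ 2 = algebraMap (RatFunc k) L D)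
    (htop : IntermediateField.adjoin (RatFunc k) {θ} = ⊤) (hc : constDeg k L = 1) {Q : ℤ[X]}
    (hQ : IsZetaNumRel k L Q) : NR l D ↔ ¬ (l : ℤ) ∣ Q.eval 1 := by
  have h1 := nr_of_zeta (l := l) h6 hD hns hθ htop hc hQ
  rw [← ZMod.intCast_zmod_eq_zero_iff_dvd, ← eval_map_one]
  constructor
  · rintro ⟨Q', -, h2, h3⟩
    have h4 : (Q.map (Int.castRingHom (ZMod l)) : (ZMod l)[X]) = Q' := by
      apply Polynomial.coe_injective
      have hne : eulerProd (fun v : Place k (RatFunc k) => v.deg)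
          (fun v => (chF l (fun v => chi v D) v : PowerSeries (ZMod l))) ≠ 0 := by
        intro h
        rw [h, mul_zero] at h3
        exact zero_ne_one h3
      exact mul_right_cancel₀ hne (h1.trans h3.symm)
    rw [h4]
    exact h2
  · intro h2
    refine ⟨_, ?_, h2, h1⟩
    intro h
    rw [h, eval_zero] at h2
    exact h2 rfl

end tower

section five

variable {k : Type} [Field k] [Finite k]

/-- the bound for the twists with class number prime to five -/
theorem twist_nr (h2 : (2 : k) ≠ 0) (h3 : (3 : k) ≠ 0) (h5 : (5 : k) ≠ 0)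
    (hq : 5 ∣ Nat.card k - 1) {g D : RatFunc k} (hg : g ≠ 0)
    (hg2 : g ^ 2 - 11 * g - 1 ≠ 0) (hD : D ≠ 0) (h : NR 5 D) {m : ℕ}
    (hm : S.VanishesTo k (D ^ 2 * fA g) (D ^ 3 * fB g) m) :
    m ≤ ∑ᶠ v : Place k (RatFunc k), splitW 5 v (D ^ 2 * fA g) (D ^ 3 * fB g) := by
  have : Fact (Nat.Prime 5) := ⟨Nat.prime_five⟩
  obtain ⟨Q, hQ0, hQ1, hQ⟩ := h
  have h1 := twist_five h2 h3 h5 hg hg2 hD (P := 1) one_ne_zero hQ0
    (by rw [hQ, Polynomial.coe_one]) hm
  have hqk : ((Nat.card k : ℕ) : ZMod 5)⁻¹ = 1 := by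
    have hpos : 1 ≤ Nat.card k := Nat.card_pos
    have e : ((Nat.card k : ℕ) : ZMod 5) = 1 := by
      rw [← sub_eq_zero, ← Nat.cast_one, ← Nat.cast_sub hpos, ZMod.natCast_eq_zero_iff]
      exact hq
    rw [e, inv_one]
  have h4 : rs 5 (Nat.card k) Q = 0 := by
    unfold rs
    rw [hqk, rootMultiplicity_eq_zero hQ1]
  rw [h4, zero_add] at h1
  exact le_trans (Nat.le_add_right _ _) h1

end five

end Pool.Agent.R427.TW
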