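import Pool.Agent.Y701.R2.Rami
import Pool.Agent.R427.TW6
import Pool.Agent.TH639.B3.Tors

/-!
Quadratic characters over Galois extensions of prime power degree.
-/

set_option autoImplicit false
set_option linter.all false
set_option maxHeartbeats 4000000

open PowerSeries FF Module

namespace Pool.Agent.R427.TW

open Pool.Agent.W343.BSD Pool.Agent.H123R3.ZT Pool.Agent.W313.Gr Pool.Agent.W313.Hyp
open Pool.Agent.TH639.B3 Pool.Agent.H525R3.FFp
open Pool.Agent.Y701.R2 (over_trans kummer_unram)

section defs

/-- the relation modulo `l` with a left factor which does not vanish at one -/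
def NRel (l : ℕ) (k : Type) {K : Type} [Field k] [Field K] [Algebra k K] (u : K) : Prop :=
  ∃ P Q : Polynomial (ZMod l), P ≠ 0 ∧ Q.eval 1 ≠ 0 ∧
    (Q : PowerSeries (ZMod l)) * eulerProd (fun v : Place k K => v.deg)
      (fun v => (chF l (fun v => chi v u) v : PowerSeries (ZMod l))) = (P : PowerSeries (ZMod l))

/-- `v` is ramified in `L` -/
def Ram {k K : Type} (L : Type) [Field k] [Field K] [Algebra k K] [Field L] [Algebra k L]
    [Algebra K L] (v : Place k K) : Prop :=
  ∃ (w : Place k L) (e : ℕ), Over w v e ∧ e ≠ 1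

end defs

section basic

variable {k K : Type} [Field k] [Finite k] [Field K] [Algebra k K] [FF.IsFF k K] {v : Place k K}

theorem even_of_locSq {u : K} (h : LocSq v u) : ¬ Odd (v.ord u) := by
  obtain ⟨s, h1 | h1⟩ := h
  · rw [h1, v.ord_pow]
    intro ho
    obtain ⟨i, hi⟩ := ho
    push_cast at hi
    omega
  · by_cases hs : s = 0
    · rw [hs] at h1
      norm_num at h1
    have hs2 : s ^ 2 ≠ 0 := pow_ne_zero 2 hs
    by_cases hu : u = 0
    · rw [hu, v.ord_zero]
      decide
    by_cases h0 : u - s ^ 2 = 0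
    · rw [sub_eq_zero.1 h0, v.ord_pow]
      intro ho
      obtain ⟨i, hi⟩ := ho
      push_cast at hi
      omega
    · have h2 := v.ord_add_eq (f := u) (g := -(u - s ^ 2)) hu (neg_ne_zero.2 h0)
        (by rw [v.ord_neg]; exact h1)
      have e : u + -(u - s ^ 2) = s ^ 2 := by ring
      rw [e, v.ord_pow] at h2
      rw [← h2.2]
      intro ho
      obtain ⟨i, hi⟩ := ho
      push_cast at hi
      omega

theorem chi_one_iff {u : K} : chi v u = 1 ↔ LocSq v u := by
  constructor
  · intro h
    unfold TH639.B3.chi at h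
    by_contra hl
    split_ifs at h
    norm_num at h
  · intro h
    unfold TH639.B3.chi
    rw [if_neg (even_of_locSq h), if_pos h]

end basic

section ext

variable {k K L : Type} [Field k] [Finite k] [Field K] [Algebra k K] [FF.IsFF k K] [Field L]
  [Algebra k L] [Algebra K L] [IsScalarTower k K L] [FF.IsFF k L] [FiniteDimensional K L]
  [IsGalois K L] {l : ℕ}

/-- finitely many places are ramified -/
theorem fin_ram [hlf : Fact l.Prime] (hlk : ((l : ℕ) : k) ≠ 0) {ζ : k} (hζ : IsPrimitiveRoot ζ l)
    (hn : finrank K L = l) : {v : Place k K | Ram L v}.Finite := by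
  have hl := hlf.out
  have hζK : IsPrimitiveRoot (algebraMap k K ζ) l :=
    hζ.map_of_injective (algebraMap k K).injective
  have hprim : (primitiveRoots (finrank K L) K).Nonempty := by
    rw [hn]
    exact ⟨_, (mem_primitiveRoots hl.pos).2 hζK⟩
  have hcard : Nat.card (L ≃ₐ[K] L) = l := by
    rw [IsGalois.card_aut_eq_finrank, hn]
  have hcyc : IsCyclic (L ≃ₐ[K] L) := isCyclic_of_prime_card hcard
  obtain ⟨α, ⟨h, hh⟩, htop⟩ := exists_root_adjoin_eq_top_of_isCyclic K L hprim
  rw [hn] at hh
  have hh0 : h ≠ 0 := by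
    rintro rfl
    rw [map_zero] at hh
    have hα : α = 0 := pow_eq_zero_iff hl.ne_zero |>.1 hh.symm
    rw [hα, IntermediateField.adjoin_zero] at htop
    have h1 := IntermediateField.finrank_bot (F := K) (E := L)
    rw [htop, IntermediateField.finrank_top', hn] at h1
    exact hl.one_lt.ne' h1
  refine (finite_support (k := k) h).subset ?_
  rintro v ⟨w, e, hov, he⟩
  show v.ord h ≠ 0
  intro h0
  exact he (kummer_unram htop hlk hh0 hh.symm h0 hov)

/-- one step -/
theorem rel_step [hlf : Fact l.Prime] (hlo : Odd l) (h6 : (6 : k) ≠ 0) (hlk : ((l : ℕ) : k) ≠ 0)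
    {ζ : k} (hζ : IsPrimitiveRoot ζ l) (hn : finrank K L = l) {u : K} (hu : u ≠ 0)
    (hr : ∀ v : Place k K, Ram L v → chi v u ≠ 1) (h : NRel l k u) :
    NRel l k (algebraMap K L u) := by
  classical
  have hl := hlf.out
  obtain ⟨P, Q, hP, hQ, hrel⟩ := h
  have hex := fun v : Place k K => exists_galoisFiber (L := L) v
  choose S e f G using hex
  have hram : ∀ v, e v ≠ 1 → Ram L v := by
    intro v hv
    obtain ⟨w, hw⟩ := (G v).nonempty
    exact ⟨w, e v, (G v).isOver w hw, hv⟩
  have hfin : {v : Place k K | e v ≠ 1}.Finite :=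
    (fin_ram hlk hζ hn).subset fun v hv => hram v hv
  set B : Finset (Place k K) := hfin.toFinset with hB
  have hBm : ∀ v, e v = 1 ↔ v ∉ B := by
    intro v
    rw [hB, Set.Finite.mem_toFinset, Set.mem_setOf_eq, not_not]
  have key := chi_tower (L := L) hlo h6 hn hu G B hBm hrel
  refine ⟨P ^ l, _, pow_ne_zero _ hP, ?_, key⟩
  rw [Polynomial.eval_mul, Polynomial.eval_pow, Polynomial.eval_prod]
  refine mul_ne_zero (pow_ne_zero _ hQ) (Finset.prod_ne_zero_iff.2 fun v hv => ?_)
  have h1 : e v ≠ 1 := fun h => (hBm v).1 h hv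
  have h2 := hr v (hram v h1)
  rw [Polynomial.eval_pow]
  apply pow_ne_zero
  unfold chF
  rw [Polynomial.eval_sub, Polynomial.eval_mul, Polynomial.eval_pow, Polynomial.eval_X,
    Polynomial.eval_one, Polynomial.eval_C, one_pow, mul_one]
  show 1 - ((chi v u : ℤ) : ZMod l) ≠ 0
  rcases chi_vals v u with h3 | h3 | h3
  · rw [h3, Int.cast_zero, sub_zero]; exact one_ne_zero
  · exact absurd h3 h2
  · rw [h3, Int.cast_neg, Int.cast_one, sub_neg_eq_add]
    intro h4
    have h5 : ((2 : ℕ) : ZMod l) = 0 := by
      push_cast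
      linear_combination h4
    rw [ZMod.natCast_eq_zero_iff] at h5
    have h6 := Nat.le_of_dvd (by norm_num) h5
    have h7 := hl.two_le
    have h8 : l = 2 := by omega
    rw [h8] at hlo
    exact absurd hlo (by decide)

/-- the quadratic character in Galois extensions of odd degree -/
theorem chi_galois (h6 : (6 : k) ≠ 0) (hodd : Odd (finrank K L)) {u : K} (hu : u ≠ 0)
    {w : Place k L} {v : Place k K} {e : ℕ} (hov : Over w v e) :
    chi w (algebraMap K L u) = chi v u := by
  obtain ⟨S, e', f, G⟩ := exists_galoisFiber (L := L) v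
  have hw := G.mem w e hov
  have h1 := odd_of_prod hodd G.mul
  exact chi_over h6 (G.isOver w hw) (G.deg w hw) h1.1 h1.2 hu

/-- extensions of degree one -/
theorem rel_one [hlf : Fact l.Prime] (h6 : (6 : k) ≠ 0) (hn : finrank K L = 1) {u : K}
    (hu : u ≠ 0) (h : NRel l k u) : NRel l k (algebraMap K L u) := by
  classical
  obtain ⟨P, Q, hP, hQ, hrel⟩ := h
  refine ⟨P, Q, hP, hQ, ?_⟩
  rw [← hrel]
  congr 1
  have hex := fun v : Place k K => exists_galoisFiber (L := L) v
  choose S e f G using hex
  have hFL : ∀ w : Place k L, (X : PowerSeries (ZMod l)) ^ w.deg ∣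
      (chF l (fun w => chi w (algebraMap K L u)) w : PowerSeries (ZMod l)) - 1 :=
    fun w => key_mod _ _
  rw [← euler_fiber G hFL]
  congr 1
  funext v
  have h1 := (G v).mul
  rw [hn] at h1
  have h2 := Nat.eq_one_of_mul_eq_one_right h1
  have h3 := Nat.eq_one_of_mul_eq_one_left h1
  have h4 := Nat.eq_one_of_mul_eq_one_left h3
  obtain ⟨w, hw⟩ := Finset.card_eq_one.1 h2
  have hwS : w ∈ S v := by rw [hw]; exact Finset.mem_singleton_self w
  rw [hw, Finset.prod_singleton]
  have h5 := chi_galois (L := L) h6 (by rw [hn]; exact odd_one) hu ((G v).isOver w hwS)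
  have h6 := (G v).deg w hwS
  rw [h4, mul_one] at h6
  unfold chF
  simp only
  rw [h5, h6]

end ext

section tower

variable {k : Type} [Field k] [Finite k] {l : ℕ}

/-- towers of Galois extensions of degree a power of `l` -/
theorem rel_tower [hlf : Fact l.Prime] (hlo : Odd l) (h6 : (6 : k) ≠ 0)
    (hlk : ((l : ℕ) : k) ≠ 0) {ζ : k} (hζ : IsPrimitiveRoot ζ l) (n : ℕ) :
    ∀ (K L : Type) [Field K] [Algebra k K] [FF.IsFF k K] [Field L] [Algebra k L] [Algebra K L]
      [IsScalarTower k K L] [FiniteDimensional K L] [IsGalois K L], finrank K L = l ^ n →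
      ∀ u : K, u ≠ 0 → (∀ v : Place k K, Ram L v → chi v u ≠ 1) → NRel l k u →
        NRel l k (algebraMap K L u) := by
  have hl := hlf.out
  induction n with
  | zero =>
    intro K L _ _ _ _ _ _ _ _ _ hn u hu _ h
    have hFF : FF.IsFF k L := isFF_of_finite (K := K)
    rw [pow_zero] at hn
    exact rel_one h6 hn hu h
  | succ n ih =>
    intro K L _ _ _ _ _ _ _ _ _ hn u hu hr h
    have hFF : FF.IsFF k L := isFF_of_finite (K := K)
    have hcard : Nat.card (L ≃ₐ[K] L) = l ^ (n + 1) := by
      rw [IsGalois.card_aut_eq_finrank, hn]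
    have hfinG : Finite (L ≃ₐ[K] L) := Nat.finite_of_card_ne_zero (by
      rw [hcard]; exact pow_ne_zero _ hl.ne_zero)
    obtain ⟨N, hN⟩ := Sylow.exists_subgroup_card_pow_prime (G := L ≃ₐ[K] L) l (n := n)
      (by rw [hcard]; exact pow_dvd_pow l (Nat.le_succ n))
    have hidx : N.index = l := by
      have h1 := N.card_mul_index
      rw [hN, hcard, pow_succ] at h1
      exact Nat.eq_of_mul_eq_mul_left (pow_pos hl.pos n) h1
    have hnorm : N.Normal := by
      apply Subgroup.normal_of_index_eq_minFac_card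
      rw [hidx, hcard, hl.pow_minFac (Nat.succ_ne_zero n)]
    set M : IntermediateField K L := IntermediateField.fixedField N with hM
    have hML : finrank M L = l ^ n := by
      rw [hM, IntermediateField.finrank_fixedField_eq_card, hN]
    have hKM : finrank K M = l := by
      have h1 := Module.finrank_mul_finrank K M L
      rw [hML, hn, pow_succ, mul_comm] at h1
      exact Nat.eq_of_mul_eq_mul_left (pow_pos hl.pos n) h1
    have hgal : IsGalois K M := IsGalois.of_fixedField_normal_subgroup N
    have hT : IsScalarTower k M L := by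
      refine IsScalarTower.of_algebraMap_eq fun c => ?_
      rw [IsScalarTower.algebraMap_apply k K L, IsScalarTower.algebraMap_apply k K M]
      rfl
    have hFFM : FF.IsFF k M := isFF_of_finite (K := K)
    have huM : algebraMap K M u ≠ 0 := (_root_.map_ne_zero _).2 hu
    have h1 : NRel l k (algebraMap K M u) := by
      refine rel_step hlo h6 hlk hζ hKM hu ?_ h
      rintro v ⟨z, e, hov, he⟩
      apply hr v
      obtain ⟨S, e', f, G⟩ := exists_galoisFiber (L := L) z
      obtain ⟨w, hw⟩ := G.nonempty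
      refine ⟨w, e' * e, over_trans (G.isOver w hw) hov, ?_⟩
      intro h2
      exact he (Nat.eq_one_of_mul_eq_one_left h2)
    have h2 := ih M L hML (algebraMap K M u) huM ?_ h1
    · rw [← IsScalarTower.algebraMap_apply K M L] at h2
      exact h2
    · rintro z ⟨w, e, hov, he⟩
      obtain ⟨e', v, hv⟩ := exists_below (K := K) z
      rw [chi_galois h6 (by rw [hKM]; exact hlo) hu hv]
      apply hr v
      exact ⟨w, e * e', over_trans hov hv, fun h2 => he (Nat.eq_one_of_mul_eq_one_right h2)⟩

end tower

end Pool.Agent.R427.TW
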