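import Pool.Agent.R427.TW12

/-!
Twists of curves with a point of order three: the bound.
-/

set_option autoImplicit false
set_option linter.all false
set_option maxHeartbeats 4000000

open PowerSeries FF Module

namespace Pool.Agent.R427.TW

open Pool.Agent.W343.BSD Pool.Agent.H123R3.ZT Pool.Agent.W313.Gr Pool.Agent.W313.Hyp
open Pool.Agent.TH639.B3 Pool.Agent.H525R3.FFp
open Pool.Agent.W309.T3 (binom_ne rm_binom)

section defs

variable {k K : Type} [Field k] [Field K] [Algebra k K]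

open Classical in
/-- the weight of a place -/
noncomputable def spW (v : Place k K) (a b u : K) : ℕ :=
  if v.ord (minDisc v a b) ≠ 0 ∧ LocSq v u then
    (if S.trace v a b = 0 then 2 else 1) * 3 ^ padicValNat 3 (S.deg v) else 0

end defs

section bd

variable {k K : Type} [Field k] [Finite k] [Field K] [Algebra k K] [FF.IsFF k K]

theorem card_one (hq : 3 ∣ Nat.card k - 1) : ((Nat.card k : ℕ) : ZMod 3) = 1 := by
  obtain ⟨m, hm⟩ := hq
  have hq1 : 1 < Nat.card k := Finite.one_lt_card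
  have h1 : Nat.card k = 3 * m + 1 := by omega
  rw [h1]
  push_cast
  have : (3 : ZMod 3) = 0 := by decide
  rw [this, zero_mul, zero_add]

theorem res_one (hq : 3 ∣ Nat.card k - 1) (v : Place k K) :
    (3 : ℤ) ∣ (Nat.card (S.Res v) : ℤ) - 1 := by
  have h1 : ((Nat.card (S.Res v) : ℕ) : ZMod 3) = ((Nat.card k : ℕ) : ZMod 3) ^ v.deg := card_RFl v
  rw [card_one hq, one_pow] at h1
  have h3 : ((3 : ℕ) : ℤ) ∣ (Nat.card (S.Res v) : ℤ) - 1 := by
    rw [← ZMod.intCast_zmod_eq_zero_iff_dvd]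
    push_cast
    rw [h1, sub_self]
  exact h3

theorem twTerm_le (h6 : (6 : k) ≠ 0) (hq : 3 ∣ Nat.card k - 1) {a b α β u : K}
    (h : IsT3 a b α β) (hβ : β ≠ 0) (hΔ : 4 * a ^ 3 + 27 * b ^ 2 ≠ 0) (hu : u ≠ 0)
    (v : Place k K) : twTerm v a b u * 3 ^ padicValNat 3 (S.deg v) ≤ spW v a b u := by
  classical
  by_cases hvn : v.ord (minDisc v (u ^ 2 * a) (u ^ 3 * b)) = 0
  · unfold twTerm
    rw [if_pos (Or.inl hvn), zero_mul]
    exact Nat.zero_le _
  by_cases hodd : Odd (v.ord u)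
  · have ht := (add_twist h6 h hβ hΔ hu hodd).1
    rw [twTerm_ram hvn ht hodd, zero_mul]
    exact Nat.zero_le _
  have hvn' : v.ord (minDisc v a b) ≠ 0 := by
    rw [← disc_twist hΔ hu hodd]; exact hvn
  have ht := trace_twist h6 (v := v) (ab_of_disc hΔ) hu hodd
  have hr := res_one hq v
  rcases trace_cases h6 h hΔ hvn' with hT | ⟨hT, hdv⟩ | hT
  · rw [hT, mul_one] at ht
    rcases chi_pm hodd with ⟨hc, hl⟩ | ⟨hc, hl⟩
    · rw [hc] at ht
      rw [twTerm_one hvn ht]
      unfold spW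
      rw [if_pos ⟨hvn', hl⟩, hT, if_neg (by norm_num)]
    · rw [hc] at ht
      rw [twTerm_neg ht, zero_mul]
      exact Nat.zero_le _
  · rw [hT] at hdv
    omega
  · rw [hT, mul_zero] at ht
    rw [twTerm_add hvn ht hodd, if_neg (not_not.2 hr)]
    rcases chi_pm hodd with ⟨hc, hl⟩ | ⟨hc, hl⟩
    · rw [if_pos hl]
      unfold spW
      rw [if_pos ⟨hvn', hl⟩, hT, if_pos rfl]
    · rw [if_neg hl, zero_mul]
      exact Nat.zero_le _

theorem spW_fin {a b u : K} (hΔ : 4 * a ^ 3 + 27 * b ^ 2 ≠ 0) :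
    (Function.support fun v : Place k K => spW v a b u).Finite := by
  refine (bad_finite (k := k) hΔ).subset ?_
  intro v hv
  rw [Function.mem_support] at hv
  show v.red (minDisc v a b) = 0
  by_contra h
  apply hv
  unfold spW
  rw [if_neg]
  rintro ⟨h1, -⟩
  exact h1 ((S.ord_disc_iff v hΔ).2 h)

/-- the bound for the twist of a curve with a point of order three -/
theorem twist_three (h6 : (6 : k) ≠ 0) (hq : 3 ∣ Nat.card k - 1) {a b α β u : K}
    (h : IsT3 a b α β) (hβ : β ≠ 0) (hΔ : 4 * a ^ 3 + 27 * b ^ 2 ≠ 0) (hu : u ≠ 0)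
    (hrel : NRel 3 k u) {m : ℕ} (hm : S.VanishesTo k (u ^ 2 * a) (u ^ 3 * b) m) :
    m ≤ ∑ᶠ v : Place k K, spW v a b u := by
  classical
  obtain ⟨P, Q, hP, hQ1, hr⟩ := hrel
  have hQ : Q ≠ 0 := by
    rintro rfl
    exact hQ1 (Polynomial.eval_zero)
  have hΔ' := tw_disc_ne hΔ hu
  have h1 := bound_gen (l := 3) (a := u ^ 2 * a) (b := u ^ 3 * b) (three_ne h6) hΔ' hP hQ hr
    (wt := fun v => twTerm v a b u * 3 ^ padicValNat 3 (S.deg v))
    (fun v hv => loc_good h6 h hβ hΔ hu hv)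
    (fun v hv => (loc_bad h6 h hβ hΔ hu hv).le)
    (fun v hv => by
      show twTerm v a b u * 3 ^ padicValNat 3 (S.deg v) = 0
      unfold twTerm
      rw [if_pos (Or.inl ((S.ord_disc_iff v hΔ').2 hv)), zero_mul]) hm
  have h2 : rs 3 (Nat.card k) Q = 0 := by
    unfold rs
    rw [card_one hq, inv_one, Polynomial.rootMultiplicity_eq_zero hQ1]
  rw [h2, zero_add] at h1
  refine le_trans (Nat.le_of_add_right_le h1) ?_
  have hfin : (Function.support fun v : Place k K =>
      twTerm v a b u * 3 ^ padicValNat 3 (S.deg v)).Finite := by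
    refine (spW_fin (u := u) hΔ).subset ?_
    intro v hv
    rw [Function.mem_support] at hv ⊢
    have := twTerm_le h6 hq h hβ hΔ hu v
    omega
  exact finsum_le_finsum' hfin (spW_fin hΔ) fun v => twTerm_le h6 hq h hβ hΔ hu v

end bd

section ovr

variable {k K L : Type} [Field k] [Finite k] [Field K] [Algebra k K] [FF.IsFF k K] [Field L]
  [Algebra k L] [Algebra K L] [IsScalarTower k K L] [FF.IsFF k L] [FiniteDimensional K L]
  [IsGalois K L]

theorem bad_over {w : Place k L} {v : Place k K} {e : ℕ} (h : Over w v e) {a b : K}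
    (hΔ : 4 * a ^ 3 + 27 * b ^ 2 ≠ 0)
    (hw : w.ord (minDisc w (algebraMap K L a) (algebraMap K L b)) ≠ 0) :
    v.ord (minDisc v a b) ≠ 0 := by
  intro hv
  have h1 := condExp_over h hΔ
  have h2 : condExp v a b = 0 := by
    unfold condExp
    rw [if_pos hv]
  rw [h2] at h1
  have h3 : condExp w (algebraMap K L a) (algebraMap K L b) ≠ 0 := by
    unfold condExp
    rw [if_neg hw]
    split_ifs <;> norm_num
  omega

/-- no place of bad reduction splits -/
theorem spW_zero (h6 : (6 : k) ≠ 0) (hodd : Odd (finrank K L)) {a b u : K}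
    (hΔ : 4 * a ^ 3 + 27 * b ^ 2 ≠ 0) (hu : u ≠ 0)
    (hns : ∀ v : Place k K, v.ord (minDisc v a b) ≠ 0 → ¬ LocSq v u) (w : Place k L) :
    spW w (algebraMap K L a) (algebraMap K L b) (algebraMap K L u) = 0 := by
  unfold spW
  rw [if_neg]
  rintro ⟨h1, h2⟩
  obtain ⟨e, v, hov⟩ := exists_below (K := K) w
  have h3 := chi_galois h6 hodd hu hov
  rw [chi_one_iff.2 h2] at h3
  exact hns v (bad_over hov hΔ h1) (chi_one_iff.1 h3.symm)

end ovr

end Pool.Agent.R427.TW
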