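import Pool.Agent.R427.TW13

/-!
Twists by constant multiples of functions over a subfield.
-/

set_option autoImplicit false
set_option linter.all false
set_option maxHeartbeats 4000000

open FF Module Polynomial

namespace Pool.Agent.R427.TW

open Pool.Agent.W343.BSD Pool.Agent.H123R3.ZT Pool.Agent.W309.RF Pool.Agent.H525R3.FFp
open Pool.Agent.TH639.B3

section const

variable {F k : Type} [Field F] [Finite F] [Field k] [Finite k] [Algebra F k]

/-- the elements of a subfield of even degree are squares -/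
theorem sq_const (h2 : (2 : k) ≠ 0) (hdeg : Even (finrank F k)) (x : F) :
    IsSquare (algebraMap F k x) := by
  classical
  by_cases hx : x = 0
  · rw [hx, map_zero]; exact IsSquare.zero
  let _ : Fintype F := Fintype.ofFinite F
  let _ : Fintype k := Fintype.ofFinite k
  have hxk : algebraMap F k x ≠ 0 := (_root_.map_ne_zero _).2 hx
  have hchar : ringChar k ≠ 2 := by
    intro h
    apply h2
    have := ringChar.Nat.cast_ringChar (R := k)
    rw [h] at this
    exact_mod_cast this
  have h2F : (2 : F) ≠ 0 := by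
    intro h
    apply h2
    have := congrArg (algebraMap F k) h
    rwa [map_ofNat, map_zero] at this
  have hcharF : ringChar F ≠ 2 := by
    intro h
    apply h2F
    have := ringChar.Nat.cast_ringChar (R := F)
    rw [h] at this
    exact_mod_cast this
  rw [FiniteField.isSquare_iff hchar hxk, ← map_pow]
  have hcard : Fintype.card k = Fintype.card F ^ finrank F k := Module.card_eq_pow_finrank
  have hoddF : Fintype.card F % 2 = 1 := FiniteField.odd_card_of_char_ne_two hcharF
  obtain ⟨m, hm⟩ := hdeg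
  have hx1 : x ^ (Fintype.card F - 1) = 1 := FiniteField.pow_card_sub_one_eq_one x hx
  set q := Fintype.card F with hq
  have hqpos : 0 < q := Fintype.card_pos
  have hdvd : q - 1 ∣ Fintype.card k / 2 := by
    have h3 : q ^ 2 - 1 ∣ (q ^ 2) ^ m - 1 := by
      have := Nat.sub_dvd_pow_sub_pow (q ^ 2) 1 m
      rwa [one_pow] at this
    have e1 : (q ^ 2) ^ m = Fintype.card k := by
      rw [hcard, hm, ← pow_mul]
      congr 1
      ring
    rw [e1] at h3
    obtain ⟨j, hj⟩ : ∃ j, q = 2 * j + 1 := ⟨q / 2, by omega⟩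
    have h4 : q ^ 2 - 1 = (q - 1) * (2 * (j + 1)) := by
      have e : q ^ 2 = (q - 1) * (2 * (j + 1)) + 1 := by
        rw [hj]
        have : 2 * j + 1 - 1 = 2 * j := by omega
        rw [this]
        ring
      rw [e]
      exact Nat.add_sub_cancel _ 1
    rw [h4] at h3
    obtain ⟨r, hr⟩ := h3
    refine ⟨(j + 1) * r, ?_⟩
    have hpos : 0 < Fintype.card k := Fintype.card_pos
    have e5 : Fintype.card k = 2 * ((q - 1) * ((j + 1) * r)) + 1 := by
      have : Fintype.card k = (q - 1) * (2 * (j + 1)) * r + 1 := by omega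
      rw [this]
      ring
    rw [e5]
    omega
  obtain ⟨r, hr⟩ := hdvd
  rw [hr, pow_mul, hx1, one_pow, map_one]

/-- products of a non-square and an element of the subfield -/
theorem not_sq_mul (h2 : (2 : k) ≠ 0) (hdeg : Even (finrank F k)) {c : k} (hc : ¬ IsSquare c)
    {x : F} (hx : x ≠ 0) : ¬ IsSquare (c * algebraMap F k x) := by
  rintro ⟨y, hy⟩
  obtain ⟨z, hz⟩ := sq_const h2 hdeg x
  have hz0 : z ≠ 0 := by
    rintro rfl
    rw [mul_zero] at hz
    exact hx ((_root_.map_eq_zero _).1 hz)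
  apply hc
  refine ⟨y / z, ?_⟩
  rw [div_mul_div_comm, ← hy, ← hz, mul_div_assoc, div_self ((_root_.map_ne_zero _).2 hx), mul_one]

end const

section sq

variable {k K : Type} [Field k] [Finite k] [Field K] [Algebra k K] [FF.IsFF k K] {v : Place k K}

theorem locSq_mul {u s : K} (hu : u ≠ 0) (hs : s ≠ 0) (h : LocSq v (u * s ^ 2)) : LocSq v u := by
  obtain ⟨r, hr⟩ := h
  have hs2 : s ^ 2 ≠ 0 := pow_ne_zero 2 hs
  refine ⟨r / s, ?_⟩
  have e : u * s ^ 2 - r ^ 2 = (u - (r / s) ^ 2) * s ^ 2 := by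
    field_simp
  rcases hr with hr | hr
  · left
    rw [div_pow, eq_div_iff hs2, hr]
  · by_cases h0 : u - (r / s) ^ 2 = 0
    · left
      exact sub_eq_zero.1 h0
    · right
      rw [e, v.ord_mul hu hs2, v.ord_mul h0 hs2] at hr
      omega

end sq

section places

variable {F k : Type} [Field F] [Finite F] [Field k] [Finite k] [Algebra F k]

/-- the place is a point of the projective line over the subfield -/
def OverF (F : Type) {k : Type} [Field F] [Field k] [Algebra F k] (v : Place k (RatFunc k)) : Prop :=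
  v.ord RatFunc.X < 0 ∨ ∃ γ : F,
    0 < v.ord (RatFunc.X - algebraMap k (RatFunc k) (algebraMap F k γ))

theorem A_lin (β : k) : A (X - C β) = RatFunc.X - algebraMap k (RatFunc k) β := by
  show algebraMap k[X] (RatFunc k) (X - C β) = _
  rw [map_sub, RatFunc.algebraMap_X, RatFunc.algebraMap_C]
  rfl

theorem A_mul' (p q : k[X]) : A (p * q) = A p * A q := map_mul _ _ _

theorem A_pow' (p : k[X]) (n : ℕ) : A (p ^ n) = A p ^ n := map_pow _ _ _

theorem A_sub' (p q : k[X]) : A (p - q) = A p - A q := map_sub _ _ _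

/-- finite places over the subfield -/
theorem nsq_fin (h2 : (2 : k) ≠ 0) (hdeg : Even (finrank F k)) {c : k} (hc : ¬ IsSquare c)
    {G : F[X]} (hG : G ≠ 0) {v : Place k (RatFunc k)} (hX : 0 ≤ v.ord RatFunc.X) {γ : F}
    (hγ : 0 < v.ord (RatFunc.X - algebraMap k (RatFunc k) (algebraMap F k γ))) :
    ¬ LocSq v (A (C c * G.map (algebraMap F k))) := by
  classical
  rw [← A_lin] at hγ
  have hc0 : c ≠ 0 := by
    rintro rfl
    exact hc IsSquare.zero
  obtain ⟨H, hH, hndvd⟩ := Polynomial.exists_eq_pow_rootMultiplicity_mul_and_not_dvd G hG γ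
  set m := G.rootMultiplicity γ with hm
  have hHγ : H.eval γ ≠ 0 := by
    intro h
    exact hndvd (dvd_iff_isRoot.2 h)
  have hH0 : H ≠ 0 := by
    rintro rfl
    rw [eval_zero] at hHγ
    exact hHγ rfl
  set β := algebraMap F k γ with hβ
  set D : k[X] := C c * H.map (algebraMap F k) with hD
  have hHk : H.map (algebraMap F k) ≠ 0 := (Polynomial.map_ne_zero_iff (algebraMap F k).injective).2 hH0
  have hD0 : D ≠ 0 := mul_ne_zero (C_ne_zero.2 hc0) hHk
  have hDβ : D.eval β = c * algebraMap F k (H.eval γ) := by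
    rw [hD, eval_mul, eval_C, hβ, eval_map_algebraMap, aeval_algebraMap_apply, coe_aeval_eq_eval]
  have hnsq : ¬ IsSquare (D.eval β) := by
    rw [hDβ]
    exact not_sq_mul h2 hdeg hc hHγ
  have hchi := chi_at hX hγ hnsq
  have hu : A (C c * G.map (algebraMap F k)) = A D * A (X - C β) ^ m := by
    rw [← A_pow', ← A_mul']
    congr 1
    conv_lhs => rw [hH]
    rw [Polynomial.map_mul, Polynomial.map_pow, Polynomial.map_sub, Polynomial.map_X,
      Polynomial.map_C, hD, hβ]
    ring
  have hord1 : v.ord (A (X - C β)) = 1 := by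
    obtain ⟨π, hm', hirr, hord, hnn, hdvd, hdg⟩ := fin_exists hX
    have h1 : π ∣ X - C β := (hdvd _ (X_sub_C_ne_zero β)).1 hγ
    have h3 : Associated π (X - C β) := hirr.associated_of_dvd (irreducible_X_sub_C β) h1
    rw [← eq_of_monic_of_associated hm' (monic_X_sub_C β) h3]
    exact hord
  have hAβ := A_ne (X_sub_C_ne_zero β)
  have hAD := A_ne hD0
  have hDchi : chi v (A D) ≠ 0 := by rw [hchi.1]; norm_num
  have hDev : ¬ Odd (v.ord (A D)) := fun ho => hDchi (chi_odd ho)
  rw [hu]
  intro hl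
  have hev := even_of_locSq hl
  rw [v.ord_mul hAD (pow_ne_zero m hAβ), v.ord_pow, hord1, mul_one] at hev
  rcases Nat.even_or_odd m with ⟨j, hj⟩ | ho
  · have e : A (X - C β) ^ m = (A (X - C β) ^ j) ^ 2 := by
      rw [← pow_mul, hj]
      congr 1
      ring
    rw [e] at hl
    have h1 := chi_one_iff.2 (locSq_mul hAD (pow_ne_zero j hAβ) hl)
    rw [hchi.1] at h1
    norm_num at h1
  · apply hev
    rw [Int.not_odd_iff_even] at hDev
    exact hDev.add_odd (by exact_mod_cast ho)

/-- the infinite place -/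
theorem nsq_inf (h2 : (2 : k) ≠ 0) (hdeg : Even (finrank F k)) {c : k} (hc : ¬ IsSquare c)
    {G : F[X]} (hG : G ≠ 0) {v : Place k (RatFunc k)} (hX : v.ord RatFunc.X < 0) :
    ¬ LocSq v (A (C c * G.map (algebraMap F k))) := by
  classical
  have hc0 : c ≠ 0 := by
    rintro rfl
    exact hc IsSquare.zero
  set D : k[X] := C c * G.map (algebraMap F k) with hD
  have hGk : G.map (algebraMap F k) ≠ 0 := (Polynomial.map_ne_zero_iff (algebraMap F k).injective).2 hG
  have hD0 : D ≠ 0 := mul_ne_zero (C_ne_zero.2 hc0) hGk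
  have hAD := A_ne hD0
  have hlc : D.leadingCoeff = c * algebraMap F k G.leadingCoeff := by
    rw [hD, leadingCoeff_mul, leadingCoeff_C, leadingCoeff_map]
  have hnsq : ¬ IsSquare D.leadingCoeff := by
    rw [hlc]
    exact not_sq_mul h2 hdeg hc (leadingCoeff_ne_zero.2 hG)
  intro hl
  have hev := even_of_locSq hl
  rw [inf_ord' hX hD0, Int.not_odd_iff_even, even_neg] at hev
  obtain ⟨m, hm⟩ : Even D.natDegree := by exact_mod_cast hev
  have hXm : A (X ^ m : k[X]) ≠ 0 := A_ne (pow_ne_zero m X_ne_zero)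
  have hXo : v.ord (A (X ^ m : k[X])) = -(m : ℤ) := by
    rw [inf_ord' hX (pow_ne_zero m X_ne_zero), natDegree_X_pow]
  have h1 : v.ord (A D) = 2 * v.ord (A (X ^ m : k[X])) := by
    rw [inf_ord' hX hD0, hXo, hm]
    push_cast
    ring
  rw [locSq_iff hAD hXm h1] at hl
  have hred : v.red (A D / A (X ^ m : k[X]) ^ 2) = algebraMap k v.RF D.leadingCoeff := by
    have hreg : v.Reg (A D / A (X ^ m : k[X]) ^ 2) := by
      right
      rw [v.ord_div hAD (pow_ne_zero 2 hXm), v.ord_pow, h1]
      push_cast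
      omega
    rw [v.algebraMap_RF, ← sub_eq_zero, ← v.red_sub hreg (v.reg_const _)]
    have hXn : A (X ^ m : k[X]) ^ 2 = A (X ^ D.natDegree) := by
      rw [← A_pow', ← pow_mul, hm]
      congr 2
      ring
    have e : A D / A (X ^ m : k[X]) ^ 2 - algebraMap k (RatFunc k) D.leadingCoeff =
        A (D - C D.leadingCoeff * X ^ D.natDegree) / A (X ^ D.natDegree) := by
      rw [A_sub', A_mul' (C D.leadingCoeff), A_C, hXn]
      have := A_ne (k := k) (p := X ^ D.natDegree) (pow_ne_zero _ X_ne_zero)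
      field_simp
    have hreg2 : v.Reg (A D / A (X ^ m : k[X]) ^ 2 - algebraMap k (RatFunc k) D.leadingCoeff) := by
      rw [sub_eq_add_neg]
      exact v.reg_add hreg (v.reg_neg (v.reg_const _))
    rw [v.red_eq_zero_iff hreg2, e]
    by_cases h0 : D - C D.leadingCoeff * X ^ D.natDegree = 0
    · left; rw [h0]; simp [A]
    · right
      rw [v.ord_div (A_ne h0) (A_ne (pow_ne_zero _ X_ne_zero)), inf_ord' hX h0,
        inf_ord' hX (pow_ne_zero _ X_ne_zero), natDegree_X_pow]
      have hlt : (D - C D.leadingCoeff * X ^ D.natDegree).degree < D.degree := by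
        apply degree_sub_lt
        · rw [degree_C_mul_X_pow _ (leadingCoeff_ne_zero.2 hD0), degree_eq_natDegree hD0]
        · exact hD0
        · rw [leadingCoeff_C_mul_X_pow]
      have := natDegree_lt_natDegree h0 hlt
      omega
  rw [hred, sq_of_odd (by
    have h7 : finrank k v.RF = 1 := inf_deg hX
    rw [h7]; exact odd_one)] at hl
  exact hnsq hl

/-- no place over the subfield splits -/
theorem nsq_over (h2 : (2 : k) ≠ 0) (hdeg : Even (finrank F k)) {c : k} (hc : ¬ IsSquare c)
    {G : F[X]} (hG : G ≠ 0) {v : Place k (RatFunc k)} (hv : OverF F v) :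
    ¬ LocSq v (A (C c * G.map (algebraMap F k))) := by
  rcases hv with hX | ⟨γ, hγ⟩
  · exact nsq_inf h2 hdeg hc hG hX
  · have hX : 0 ≤ v.ord RatFunc.X := by
      by_contra hlt
      push Not at hlt
      rw [← A_lin, inf_ord' hlt (X_sub_C_ne_zero _), natDegree_X_sub_C] at hγ
      norm_num at hγ
    exact nsq_fin h2 hdeg hc hG hX hγ

end places

section cls

variable {k K L : Type} [Field k] [Finite k] [Field K] [Algebra k K] [FF.IsFF k K] [Field L]
  [Algebra k L] [Algebra K L] [IsScalarTower k K L] [FF.IsFF k L] {l : ℕ}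

/-- the relation from the class number -/
theorem nrel_of_class [hlf : Fact l.Prime] (h6 : (6 : k) ≠ 0) {u : K} (hu : u ≠ 0)
    (hns : ∀ s : K, u ≠ s ^ 2) {θ : L} (hθ : θ ^ 2 = algebraMap K L u)
    (htop : IntermediateField.adjoin K {θ} = ⊤) (hcK : constDeg k K = 1)
    (hcL : constDeg k L = 1) (hcl : ¬ l ∣ S.classNumber k L) : NRel l k u := by
  have h2 : (2 : k) ≠ 0 := by
    intro h; apply h6
    have : (6 : k) = 2 * 3 := by norm_num
    rw [this, h, zero_mul]
  have h2K : (2 : K) ≠ 0 := by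
    have : algebraMap k K 2 ≠ 0 := by simpa using h2
    rwa [map_ofNat] at this
  obtain ⟨q1, q2, q3⟩ := quad_data h2K hθ hns htop
  obtain ⟨P, hP, -⟩ := exists_num_rel (k := k) (F := K)
  obtain ⟨Q, hQ, hQ1⟩ := exists_num_rel (k := k) (F := L)
  have hrel := zeta_rel h6 q3 hu hθ hns hP hQ hcK hcL
  have h3 := rel_mod (l := l) hrel
  refine ⟨_, _, ?_, ?_, h3⟩
  · intro h0
    have h4 := hP
    unfold IsZetaNumRel at h4
    have h5 := congrArg (redL l) h4
    rw [hcK, map_mul, redL_poly, h0, Polynomial.coe_zero, zero_mul] at h5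
    have h7 := congrArg (PowerSeries.constantCoeff (R := ZMod l)) h5
    simp [redL] at h7
  · rw [eval_map_one, hQ1, ← S.classNumber_eq]
    intro h0
    rw [ZMod.intCast_zmod_eq_zero_iff_dvd] at h0
    exact hcl (by exact_mod_cast h0)

end cls

section lin

variable {k : Type} [Field k] [Finite k] {l : ℕ}

theorem nrel_of_nr {D : RatFunc k} (h : NR l D) [Fact l.Prime] : NRel l k D := by
  obtain ⟨Q, -, hQ1, hQ⟩ := h
  exact ⟨1, Q, one_ne_zero, hQ1, by rw [hQ, Polynomial.coe_one]⟩

end lin

end Pool.Agent.R427.TW
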