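import Pool.Agent.R427.TW14
import Pool.Agent.TH639.B3.Fam

/-!
An example, and the assembly.
-/

set_option autoImplicit false
set_option linter.all false
set_option maxHeartbeats 4000000

open FF Module Polynomial

namespace Pool.Agent.R427.TW

open Pool.Agent.W343.BSD Pool.Agent.H123R3.ZT Pool.Agent.W309.RF Pool.Agent.H525R3.FFp
open Pool.Agent.TH639.B3

section example_

variable {k : Type} [Field k] [Finite k]

theorem facts3 (h6 : (6 : k) ≠ 0) : (2 : k) ≠ 0 ∧ (3 : k) ≠ 0 ∧ (2 : RatFunc k) ≠ 0 ∧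
    (3 : RatFunc k) ≠ 0 := by
  have h2 : (2 : k) ≠ 0 := by
    intro h; apply h6
    have : (6 : k) = 2 * 3 := by norm_num
    rw [this, h, zero_mul]
  have h3 : (3 : k) ≠ 0 := h3_of h6
  refine ⟨h2, h3, ?_, ?_⟩
  · have : algebraMap k (RatFunc k) 2 ≠ 0 := by simpa using h2
    rwa [map_ofNat] at this
  · have : algebraMap k (RatFunc k) 3 ≠ 0 := by simpa using h3
    rwa [map_ofNat] at this

theorem isT3_ex (h3 : (3 : RatFunc k) ≠ 0) : IsT3 (2 * RatFunc.X - 1 / 3 : RatFunc k)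
    (RatFunc.X ^ 2 - 2 * RatFunc.X / 3 + 2 / 27) 1 RatFunc.X := by
  have h27 : (27 : RatFunc k) ≠ 0 := by
    have : (27 : RatFunc k) = 3 ^ 3 := by norm_num
    rw [this]
    exact pow_ne_zero 3 h3
  constructor
  · field_simp
    ring
  · field_simp
    ring

theorem X_ne_const (c : k) : (RatFunc.X : RatFunc k) - algebraMap k (RatFunc k) c ≠ 0 := by
  rw [← A_lin]
  exact A_ne (X_sub_C_ne_zero c)

theorem disc_ex (h6 : (6 : k) ≠ 0) : 4 * (2 * RatFunc.X - 1 / 3 : RatFunc k) ^ 3 +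
    27 * (RatFunc.X ^ 2 - 2 * RatFunc.X / 3 + 2 / 27) ^ 2 ≠ 0 := by
  obtain ⟨h2, h3, h2K, h3K⟩ := facts3 h6
  rw [isT3_disc h3K (isT3_ex h3K)]
  have h27 : (27 : k) ≠ 0 := by
    have : (27 : k) = 3 ^ 3 := by norm_num
    rw [this]
    exact pow_ne_zero 3 h3
  have h27K : (27 : RatFunc k) ≠ 0 := by
    have : (27 : RatFunc k) = 3 ^ 3 := by norm_num
    rw [this]
    exact pow_ne_zero 3 h3K
  apply neg_ne_zero.2
  refine mul_ne_zero (pow_ne_zero 3 RatFunc.X_ne_zero) ?_
  intro h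
  apply X_ne_const (4 / 27 : k)
  rw [map_div₀, map_ofNat, map_ofNat]
  field_simp
  linear_combination -h

theorem over_ex {F : Type} [Field F] [Finite F] [Algebra F k] (h6 : (6 : k) ≠ 0)
    {v : Place k (RatFunc k)} (hv : v.ord (minDisc v (2 * RatFunc.X - 1 / 3 : RatFunc k)
      (RatFunc.X ^ 2 - 2 * RatFunc.X / 3 + 2 / 27)) ≠ 0) : OverF F v := by
  obtain ⟨h2, h3, h2K, h3K⟩ := facts3 h6
  by_cases hX : v.ord RatFunc.X < 0
  · exact Or.inl hX
  right
  have hX' : 0 ≤ v.ord RatFunc.X := not_lt.1 hX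
  have hsc : Sc v (2 * RatFunc.X - 1 / 3 : RatFunc k)
      (RatFunc.X ^ 2 - 2 * RatFunc.X / 3 + 2 / 27) 1 RatFunc.X 1 :=
    ⟨isT3_ex h3K, one_ne_zero, by rw [one_mul]; exact v.reg_one,
      by rw [one_pow, one_mul]; exact Or.inr hX'⟩
  have hmin := hsc.isMin h3 (Or.inl (by rw [one_mul, v.red_one]; exact one_ne_zero))
  have h1 := (hsc.disc h3 (disc_ex h6) hmin).not.1 hv
  rw [one_mul, one_pow, one_mul, v.red_one, one_pow, mul_one] at h1
  have h27 : (27 : k) ≠ 0 := by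
    have : (27 : k) = 3 ^ 3 := by norm_num
    rw [this]
    exact pow_ne_zero 3 h3
  have h27F : (27 : F) ≠ 0 := by
    intro h
    apply h27
    have := congrArg (algebraMap F k) h
    rwa [map_ofNat, map_zero] at this
  have key : ∀ γ : F, v.red RatFunc.X = algebraMap k v.RF (algebraMap F k γ) →
      0 < v.ord (RatFunc.X - algebraMap k (RatFunc k) (algebraMap F k γ)) := by
    intro γ hγ
    have hreg : v.Reg (RatFunc.X - algebraMap k (RatFunc k) (algebraMap F k γ)) := by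
      rw [sub_eq_add_neg]
      exact v.reg_add (Or.inr hX') (v.reg_neg (v.reg_const _))
    have h5 : v.red (RatFunc.X - algebraMap k (RatFunc k) (algebraMap F k γ)) = 0 := by
      rw [v.red_sub (Or.inr hX') (v.reg_const _), hγ, v.algebraMap_RF, sub_self]
    exact ((v.red_eq_zero_iff hreg).1 h5).resolve_left (X_ne_const _)
  by_cases h0 : v.red RatFunc.X = 0
  · exact ⟨0, key 0 (by rw [h0, map_zero, map_zero])⟩
  · have h4 : (4 : v.RF) = 27 * v.red RatFunc.X := by
      by_contra h5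
      exact h1 ⟨h0, h5⟩
    refine ⟨4 / 27, key _ ?_⟩
    have h27R : (27 : v.RF) ≠ 0 := by
      have := (_root_.map_ne_zero (algebraMap k v.RF)).2 h27
      rwa [map_ofNat] at this
    rw [map_div₀, map_div₀, map_ofNat, map_ofNat, map_ofNat, map_ofNat, eq_div_iff h27R, h4]
    ring

end example_

end Pool.Agent.R427.TW
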