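import Pool.Agent.R427.TW15

/-!
Towers inside Galois extensions of prime power degree.
-/

set_option autoImplicit false
set_option linter.all false
set_option maxHeartbeats 4000000

open FF Module

namespace Pool.Agent.R427.TW

open Pool.Agent.W343.BSD Pool.Agent.H123R3.ZT Pool.Agent.H525R3.FFp
open Pool.Agent.TH639.B3
open Pool.Agent.Y701.R2 (over_trans)

section one

variable {k : Type} [Field k] [Finite k] {l : ℕ}

theorem galois_one {K L : Type} [Field K] [Field L] [Algebra K L] [FiniteDimensional K L]
    (hn : finrank K L = 1) : IsGalois K L := by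
  apply IsGalois.of_card_aut_eq_finrank
  rw [hn]
  have h1 : Nat.card (L ≃ₐ[K] L) ≤ 1 := by
    rw [← hn, Nat.card_eq_fintype_card]
    exact AlgEquiv.card_le (F := K) (K := L)
  have h2 : 0 < Nat.card (L ≃ₐ[K] L) := Nat.card_pos
  omega

/-- subextensions of Galois extensions of degree a power of `l` -/
theorem rel_sub [hlf : Fact l.Prime] (hlo : Odd l) (h6 : (6 : k) ≠ 0)
    (hlk : ((l : ℕ) : k) ≠ 0) {ζ : k} (hζ : IsPrimitiveRoot ζ l) (n : ℕ) :
    ∀ (K L L' : Type) [Field K] [Algebra k K] [FF.IsFF k K] [Field L] [Algebra k L] [Algebra K L]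
      [IsScalarTower k K L] [Field L'] [Algebra k L'] [Algebra K L'] [Algebra L L']
      [IsScalarTower k K L'] [IsScalarTower K L L'] [FiniteDimensional K L'] [IsGalois K L'] (N : ℕ),
      finrank K L' = l ^ N → finrank K L = l ^ n →
      ∀ u : K, u ≠ 0 → (∀ v : Place k K, Ram L' v → chi v u ≠ 1) → NRel l k u →
        NRel l k (algebraMap K L u) := by
  have hl := hlf.out
  induction n with
  | zero =>
    intro K L L' _ _ _ _ _ _ _ _ _ _ _ _ _ _ _ N hN hn u hu _ h
    have hfd : FiniteDimensional K L := Module.finite_of_finrank_pos (by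
      rw [hn]; exact pow_pos hl.pos _)
    have hFF : FF.IsFF k L := isFF_of_finite (K := K)
    rw [pow_zero] at hn
    have hgal : IsGalois K L := galois_one hn
    exact rel_one h6 hn hu h
  | succ n ih =>
    intro K L L' _ _ _ _ _ _ _ _ _ _ _ _ _ _ _ N hN hn u hu hr h
    have hfd : FiniteDimensional K L := Module.finite_of_finrank_pos (by
      rw [hn]; exact pow_pos hl.pos _)
    have hfdL : FiniteDimensional L L' := Module.Finite.of_restrictScalars_finite K L L'
    have hFFL : FF.IsFF k L := isFF_of_finite (K := K)
    have hFFL' : FF.IsFF k L' := isFF_of_finite (K := K)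
    -- the degrees
    have hdeg : finrank K L * finrank L L' = l ^ N := by
      rw [Module.finrank_mul_finrank, hN]
    have hnN : n + 1 ≤ N := by
      have h1 : l ^ (n + 1) ∣ l ^ N := ⟨finrank L L', by rw [← hdeg, hn]⟩
      exact (Nat.pow_dvd_pow_iff_le_right hl.one_lt).1 h1
    have hLL' : finrank L L' = l ^ (N - (n + 1)) := by
      apply Nat.eq_of_mul_eq_mul_left (pow_pos hl.pos (n + 1))
      rw [← hn, hdeg, hn, ← pow_add, Nat.add_sub_cancel' hnN]
    have hcard : Nat.card (L' ≃ₐ[K] L') = l ^ N := by
      rw [IsGalois.card_aut_eq_finrank, hN]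
    have hfinG : Finite (L' ≃ₐ[K] L') := Nat.finite_of_card_ne_zero (by
      rw [hcard]; exact pow_ne_zero _ hl.ne_zero)
    -- the subgroup fixing `L`
    set φ : L →ₐ[K] L' := IsScalarTower.toAlgHom K L L' with hφ
    set R : IntermediateField K L' := φ.fieldRange with hR
    have hφinj : Function.Injective φ := φ.toRingHom.injective
    have hKR : finrank K R = l ^ (n + 1) := by
      rw [← hn]
      exact ((AlgEquiv.ofInjectiveField φ).toLinearEquiv.finrank_eq).symm
    have hRL : finrank R L' = l ^ (N - (n + 1)) := by
      have h1 := Module.finrank_mul_finrank K R L'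
      apply Nat.eq_of_mul_eq_mul_left (pow_pos hl.pos (n + 1))
      rw [← hKR, h1, hN, hKR, ← pow_add, Nat.add_sub_cancel' hnN]
    set H : Subgroup (L' ≃ₐ[K] L') := R.fixingSubgroup with hH
    have hHc : Nat.card H = l ^ (N - (n + 1)) := by
      rw [hH, IsGalois.card_fixingSubgroup_eq_finrank, hRL]
    obtain ⟨Q, hQ, hHQ⟩ := Sylow.exists_subgroup_card_pow_prime_le l (m := N - 1)
      (by rw [hcard]; exact pow_dvd_pow l (Nat.sub_le N 1)) H hHc (by omega)
    have hidx : Q.index = l := by
      have h1 := Q.card_mul_index
      rw [hQ, hcard] at h1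
      have e : l ^ N = l ^ (N - 1) * l := by
        rw [← pow_succ]
        congr 1
        omega
      rw [e] at h1
      exact Nat.eq_of_mul_eq_mul_left (pow_pos hl.pos _) h1
    have hnorm : Q.Normal := by
      apply Subgroup.normal_of_index_eq_minFac_card
      rw [hidx, hcard, hl.pow_minFac (by omega)]
    set M : IntermediateField K L' := IntermediateField.fixedField Q with hM
    have hML : finrank M L' = l ^ (N - 1) := by
      rw [hM, IntermediateField.finrank_fixedField_eq_card, hQ]
    have hKM : finrank K M = l := by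
      have h1 := Module.finrank_mul_finrank K M L'
      rw [hML, hN] at h1
      have e : l ^ N = l * l ^ (N - 1) := by
        rw [← pow_succ']
        congr 1
        omega
      rw [e] at h1
      exact Nat.eq_of_mul_eq_mul_right (pow_pos hl.pos _) h1
    have hgal : IsGalois K M := IsGalois.of_fixedField_normal_subgroup Q
    have hT : IsScalarTower k M L' := by
      refine IsScalarTower.of_algebraMap_eq fun c => ?_
      rw [IsScalarTower.algebraMap_apply k K L', IsScalarTower.algebraMap_apply k K M]
      rfl
    have hFFM : FF.IsFF k M := isFF_of_finite (K := K)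
    have huM : algebraMap K M u ≠ 0 := (_root_.map_ne_zero _).2 hu
    have h1 : NRel l k (algebraMap K M u) := by
      refine rel_step hlo h6 hlk hζ hKM hu ?_ h
      rintro v ⟨z, e, hov, he⟩
      apply hr v
      obtain ⟨S, e', f, G⟩ := exists_galoisFiber (L := L') z
      obtain ⟨w, hw⟩ := G.nonempty
      refine ⟨w, e' * e, over_trans (G.isOver w hw) hov, ?_⟩
      intro h2
      exact he (Nat.eq_one_of_mul_eq_one_left h2)
    -- the embedding of `M` in `L`
    have hMR : M ≤ R := by
      rw [hM, ← IsGalois.fixedField_fixingSubgroup R]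
      exact IntermediateField.fixedField_antitone hHQ
    have hmem : ∀ x : M, M.val x ∈ φ.range := fun x => by
      obtain ⟨y, hy⟩ := AlgHom.mem_fieldRange.1 (hMR x.2)
      exact ⟨y, hy⟩
    let ι : M →ₐ[K] L :=
      ((AlgEquiv.ofInjectiveField φ).symm : φ.range →ₐ[K] L).comp
        (M.val.codRestrict φ.range hmem)
    have hι : ∀ x : M, φ (ι x) = (x : L') := by
      intro x
      have h2 := AlgEquiv.apply_symm_apply (AlgEquiv.ofInjectiveField φ)
        (M.val.codRestrict φ.range hmem x)
      exact congrArg Subtype.val h2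
    let iA : Algebra M L := ι.toRingHom.toAlgebra
    have t1 : IsScalarTower K M L := IsScalarTower.of_algebraMap_eq fun c => (ι.commutes c).symm
    have t2 : IsScalarTower M L L' := IsScalarTower.of_algebraMap_eq fun x => (hι x).symm
    have t3 : IsScalarTower k M L := by
      refine IsScalarTower.of_algebraMap_eq fun c => ?_
      rw [IsScalarTower.algebraMap_apply k K L, IsScalarTower.algebraMap_apply K M L,
        IsScalarTower.algebraMap_apply k K M]
    have hMLd : finrank M L = l ^ n := by
      have h2 := Module.finrank_mul_finrank K M L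
      rw [hKM, hn, pow_succ'] at h2
      exact Nat.eq_of_mul_eq_mul_left hl.pos h2
    have h2 := ih M L L' (N - 1) hML hMLd (algebraMap K M u) huM ?_ h1
    · rw [← IsScalarTower.algebraMap_apply K M L] at h2
      exact h2
    · rintro z ⟨w, e, hov, he⟩
      obtain ⟨e', v, hv⟩ := exists_below (K := K) z
      rw [chi_galois h6 (by rw [hKM]; exact hlo) hu hv]
      apply hr v
      exact ⟨w, e * e', over_trans hov hv, fun h2 => he (Nat.eq_one_of_mul_eq_one_right h2)⟩

end one

end Pool.Agent.R427.TW
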