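import Pool.Agent.R427.TW16

/-!
Curves over subextensions.
-/

set_option autoImplicit false
set_option linter.all false
set_option maxHeartbeats 4000000

open FF Module

namespace Pool.Agent.R427.TW

open Pool.Agent.W343.BSD Pool.Agent.H123R3.ZT Pool.Agent.H525R3.FFp
open Pool.Agent.TH639.B3
open Pool.Agent.Y701.R2 (over_trans)

section sub

variable {k K L L' : Type} [Field k] [Finite k] [Field K] [Algebra k K] [FF.IsFF k K]
  [Field L] [Algebra k L] [Algebra K L] [IsScalarTower k K L]
  [Field L'] [Algebra k L'] [Algebra K L'] [Algebra L L'] [IsScalarTower k K L']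
  [IsScalarTower K L L'] [FiniteDimensional K L'] [IsGalois K L']

theorem chi_sub (h6 : (6 : k) ≠ 0) (hodd : Odd (finrank K L')) {u : K} (hu : u ≠ 0)
    {w : Place k L} {v : Place k K} {e : ℕ} (hov : Over w v e) :
    chi w (algebraMap K L u) = chi v u := by
  have hfdL : FiniteDimensional L L' := Module.Finite.of_restrictScalars_finite K L L'
  have hfd : FiniteDimensional K L := Module.Finite.left K L L'
  have hFFL : FF.IsFF k L := isFF_of_finite (K := K)
  have hFFL' : FF.IsFF k L' := isFF_of_finite (K := K)
  have hgal : IsGalois L L' := IsGalois.tower_top_of_isGalois K L L'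
  have hT : IsScalarTower k L L' := by
    refine IsScalarTower.of_algebraMap_eq fun c => ?_
    rw [IsScalarTower.algebraMap_apply k K L', IsScalarTower.algebraMap_apply K L L',
      IsScalarTower.algebraMap_apply k K L]
  have hodd' : Odd (finrank L L') := by
    rw [← Module.finrank_mul_finrank K L L'] at hodd
    exact (Nat.odd_mul.1 hodd).2
  obtain ⟨S, e', f, G⟩ := exists_galoisFiber (L := L') w
  obtain ⟨z, hz⟩ := G.nonempty
  have h1 := chi_galois (L := L') h6 hodd' ((_root_.map_ne_zero (algebraMap K L)).2 hu)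
    (G.isOver z hz)
  have h2 := chi_galois (L := L') h6 hodd hu (over_trans (G.isOver z hz) hov)
  rw [← IsScalarTower.algebraMap_apply K L L', h2] at h1
  exact h1.symm

/-- no place of bad reduction splits -/
theorem spW_zero_sub (L' : Type) [Field L'] [Algebra k L'] [Algebra K L'] [Algebra L L']
    [IsScalarTower k K L'] [IsScalarTower K L L'] [FiniteDimensional K L'] [IsGalois K L']
    (h6 : (6 : k) ≠ 0) (hodd : Odd (finrank K L')) {a b u : K}
    (hΔ : 4 * a ^ 3 + 27 * b ^ 2 ≠ 0) (hu : u ≠ 0)
    (hns : ∀ v : Place k K, v.ord (minDisc v a b) ≠ 0 → ¬ LocSq v u) (w : Place k L) :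
    spW w (algebraMap K L a) (algebraMap K L b) (algebraMap K L u) = 0 := by
  have hfdL : FiniteDimensional L L' := Module.Finite.of_restrictScalars_finite K L L'
  have hfd : FiniteDimensional K L := Module.Finite.left K L L'
  have hFFL : FF.IsFF k L := isFF_of_finite (K := K)
  have hsep : Algebra.IsSeparable K L := Algebra.isSeparable_tower_bot_of_isSeparable K L L'
  unfold spW
  rw [if_neg]
  rintro ⟨h1, h2⟩
  obtain ⟨e, v, hov⟩ := exists_below (K := K) w
  have h3 := chi_sub (L' := L') h6 hodd hu hov
  rw [chi_one_iff.2 h2] at h3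
  refine hns v ?_ (chi_one_iff.1 h3.symm)
  intro hv
  have h4 := Pool.Agent.W313.Gr.condExp_over hov hΔ
  have h5 : Pool.Agent.W313.Gr.condExp v a b = 0 := by
    unfold Pool.Agent.W313.Gr.condExp
    rw [if_pos hv]
  rw [h5] at h4
  have h6 : Pool.Agent.W313.Gr.condExp w (algebraMap K L a) (algebraMap K L b) ≠ 0 := by
    unfold Pool.Agent.W313.Gr.condExp
    rw [if_neg h1]
    split_ifs <;> norm_num
  omega

end sub

end Pool.Agent.R427.TW
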