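import Pool.Agent.R427.TW17

/-!
Twists of semistable curves congruent to the sum of the trivial and the cyclotomic character.
-/

set_option autoImplicit false
set_option linter.all false
set_option maxHeartbeats 4000000

open PowerSeries FF Module

namespace Pool.Agent.R427.TW

open Pool.Agent.W343.BSD Pool.Agent.H123R3.ZT Pool.Agent.W313.Gr Pool.Agent.W313.Hyp
open Pool.Agent.TH639.B3 Pool.Agent.H525R3.FFp
open Pool.Agent.Y701.R2 (over_trans)
open Pool.Agent.W309.T3 (binom_ne rm_binom)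

section defs

variable {k K : Type} [Field k] [Field K] [Algebra k K]

/-- semistable reduction -/
def SemiAt (v : Place k K) (a b : K) : Prop :=
  v.ord (minDisc v a b) = 0 ∨ (minA v a b ≠ 0 ∧ v.ord (minA v a b) = 0)

open Classical in
/-- the weight of a place -/
noncomputable def gW (l : ℕ) (v : Place k K) (a b u : K) : ℕ :=
  if v.ord (minDisc v a b) ≠ 0 ∧ LocSq v u then
    (if S.trace v a b = 1 then 1 else 2) * l ^ padicValNat l (S.deg v) else 0

end defs

section bd

variable {k K : Type} [Field k] [Finite k] [Field K] [Algebra k K] [FF.IsFF k K] {l : ℕ}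

theorem card_oneL [hl : Fact l.Prime] (hq : l ∣ Nat.card k - 1) :
    ((Nat.card k : ℕ) : ZMod l) = 1 := by
  obtain ⟨m, hm⟩ := hq
  have hq1 : 1 < Nat.card k := Finite.one_lt_card
  have h1 : Nat.card k = l * m + 1 := by omega
  rw [h1]
  push_cast
  rw [CharP.cast_eq_zero, zero_mul, zero_add]

theorem semi_red {v : Place k K} {a b : K} (hΔ : 4 * a ^ 3 + 27 * b ^ 2 ≠ 0)
    (h : SemiAt v a b) : v.red (minScale v a b ^ 4 * a) ≠ 0 ∨ v.red (minScale v a b ^ 6 * b) ≠ 0 := by
  have hs := minScale_spec v (ab_of_disc hΔ)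
  rcases h with h | ⟨h1, h2⟩
  · have h3 := (ord_disc_zero_iff hΔ hs).1 h
    by_contra hcon
    push Not at hcon
    apply h3
    rw [hcon.1, hcon.2]
    ring
  · left
    exact v.red_ne_zero h1 h2

theorem odd_bad {v : Place k K} {a b u : K} (hΔ : 4 * a ^ 3 + 27 * b ^ 2 ≠ 0) (hu : u ≠ 0)
    (h : SemiAt v a b) (hodd : Odd (v.ord u)) :
    v.red (minDisc v (u ^ 2 * a) (u ^ 3 * b)) = 0 :=
  (add_semi (minScale_spec v (ab_of_disc hΔ)) (semi_red hΔ h) hΔ hu hodd).2

variable [Fact l.Prime]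

/-- the Euler factors at the places of good reduction -/
theorem gen_good (h6 : (6 : k) ≠ 0) {a b u : K} (hN : PointsDvd l k a b)
    (hΔ : 4 * a ^ 3 + 27 * b ^ 2 ≠ 0) (hu : u ≠ 0) {v : Place k K} (hS : SemiAt v a b)
    (hv : v.red (minDisc v (u ^ 2 * a) (u ^ 3 * b)) ≠ 0) :
    locML l v (u ^ 2 * a) (u ^ 3 * b) = pairL l ((Nat.card k : ℕ) : ZMod l) (chi v u) v.deg := by
  have hΔ' := tw_ne hΔ hu
  have hv' := (S.ord_disc_iff v hΔ').2 hv
  have hev : ¬ Odd (v.ord u) := fun hodd => hv (odd_bad hΔ hu hS hodd)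
  have hg : v.ord (minDisc v a b) = 0 := by rw [← disc_twist hΔ hu hev]; exact hv'
  have hN := hN v hg
  have ht := trace_twist h6 (v := v) (ab_of_disc hΔ) hu hev
  have hqc : ((Nat.card (S.Res v) : ℕ) : ZMod l) = ((Nat.card k : ℕ) : ZMod l) ^ v.deg :=
    card_RFl v
  have h1 : ((S.trace v a b : ℤ) : ZMod l) = ((Nat.card k : ℕ) : ZMod l) ^ v.deg + 1 := by
    have h2 := (ZMod.intCast_zmod_eq_zero_iff_dvd _ _).2 hN
    push_cast at h2
    rw [hqc] at h2
    linear_combination -h2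
  have h2 : ((trace v (u ^ 2 * a) (u ^ 3 * b) : ℤ) : ZMod l) =
      ((chi v u : ℤ) : ZMod l) * (((Nat.card k : ℕ) : ZMod l) ^ v.deg + 1) := by
    rw [← h1, ← Int.cast_mul, ← ht]
    rfl
  have hx : ((chi v u : ℤ) : ZMod l) ^ 2 = 1 := by
    rcases chi_pm hev with ⟨h3, -⟩ | ⟨h3, -⟩
    · rw [h3]; norm_num
    · rw [h3]; norm_num
  rw [locML_eq, if_pos hv, h2, card_RFl]
  unfold pairL
  set x : ZMod l := ((chi v u : ℤ) : ZMod l)
  set c : ZMod l := ((Nat.card k : ℕ) : ZMod l) ^ v.deg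
  have e1 : Polynomial.C (x * (c + 1)) = Polynomial.C x * (Polynomial.C c + 1) := by
    rw [Polynomial.C_mul, Polynomial.C_add, Polynomial.C_1]
  have e2 : (Polynomial.C c : Polynomial (ZMod l)) = Polynomial.C x * Polynomial.C x *
      Polynomial.C c := by
    rw [← Polynomial.C_mul, ← Polynomial.C_mul, ← sq, hx, one_mul]
  rw [e1, Polynomial.C_mul]
  linear_combination (Polynomial.X ^ (2 * v.deg)) * e2

/-- the Euler factors at the places of bad reduction -/
theorem gen_bad (h6 : (6 : k) ≠ 0) (hlk : ((l : ℕ) : k) ≠ 0) (hl : 2 < l)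
    (hq1 : l ∣ Nat.card k - 1) {a b u : K}
    (hΔ : 4 * a ^ 3 + 27 * b ^ 2 ≠ 0) (hu : u ≠ 0) {v : Place k K}
    (hv : v.red (minDisc v (u ^ 2 * a) (u ^ 3 * b)) = 0) :
    (pairL l ((Nat.card k : ℕ) : ZMod l) (chi v u) v.deg).rootMultiplicity
      ((Nat.card k : ℕ) : ZMod l)⁻¹ ≤
      (locML l v (u ^ 2 * a) (u ^ 3 * b)).rootMultiplicity ((Nat.card k : ℕ) : ZMod l)⁻¹ +
        gW l v a b u := by
  have hΔ' := tw_ne hΔ hu
  have hvn : v.ord (minDisc v (u ^ 2 * a) (u ^ 3 * b)) ≠ 0 := fun h1 =>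
    (S.ord_disc_iff v hΔ').1 h1 hv
  have hq := card_ne_zero_mod (k := k) hlk
  rw [rm_pairL hq (deg_pos' v), rm_locML hlk hv]
  rw [card_oneL hq1, one_pow]
  unfold gW
  rw [S.deg_eq]
  set N := l ^ padicValNat l v.deg with hN
  have one1 : ((1 : ℤ) : ZMod l) = 1 := Int.cast_one
  by_cases hodd : Odd (v.ord u)
  · have e0 : ((0 : ℤ) : ZMod l) = 0 := Int.cast_zero
    rw [chi_odd hodd, e0, if_neg zero_ne_one]
    exact Nat.zero_le _
  have hvn' : v.ord (minDisc v a b) ≠ 0 := by
    rw [← disc_twist hΔ hu hodd]; exact hvn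
  have ht := trace_twist h6 (v := v) (ab_of_disc hΔ) hu hodd
  rcases chi_pm hodd with ⟨hc, hls⟩ | ⟨hc, hls⟩
  · have e1 : v.ord (minDisc v a b) ≠ 0 ∧ LocSq v u := ⟨hvn', hls⟩
    rw [if_pos e1, ht, hc, one_mul, one1, if_pos rfl]
    by_cases h1 : S.trace v a b = 1
    · rw [h1, one1, if_pos rfl, if_pos rfl]
      omega
    · rw [if_neg h1]
      omega
  · have h1 : ¬ ((-1 : ℤ) : ZMod l) = 1 := by
      rw [← one1]
      intro h
      have := (pm_eq hl (Or.inr rfl) (Or.inl rfl)).1 h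
      norm_num at this
    rw [hc, if_neg h1]
    exact Nat.zero_le _

theorem gW_fin {a b u : K} (hΔ : 4 * a ^ 3 + 27 * b ^ 2 ≠ 0) :
    (Function.support fun v : Place k K => gW l v a b u).Finite := by
  refine (bad_finite (k := k) hΔ).subset ?_
  intro v hv
  rw [Function.mem_support] at hv
  show v.red (minDisc v a b) = 0
  by_contra h
  apply hv
  unfold gW
  rw [if_neg]
  rintro ⟨h1, -⟩
  exact h1 ((S.ord_disc_iff v hΔ).2 h)

/-- the bound for the twist -/
theorem twist_gen (h6 : (6 : k) ≠ 0) (hlk : ((l : ℕ) : k) ≠ 0) (hl : 2 < l)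
    (hq : l ∣ Nat.card k - 1) {a b u : K} (hN : PointsDvd l k a b)
    (hS : ∀ v : Place k K, SemiAt v a b) (hΔ : 4 * a ^ 3 + 27 * b ^ 2 ≠ 0) (hu : u ≠ 0)
    (hrel : NRel l k u) {m : ℕ} (hm : S.VanishesTo k (u ^ 2 * a) (u ^ 3 * b) m) :
    m ≤ ∑ᶠ v : Place k K, gW l v a b u := by
  classical
  obtain ⟨P, Q, hP, hQ1, hr⟩ := hrel
  have hQ : Q ≠ 0 := by
    rintro rfl
    exact hQ1 (Polynomial.eval_zero)
  have hΔ' := tw_ne hΔ hu
  have h1 := bound_gen (l := l) (a := u ^ 2 * a) (b := u ^ 3 * b) hlk hΔ' hP hQ hr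
    (wt := fun v => if v.red (minDisc v (u ^ 2 * a) (u ^ 3 * b)) = 0 then gW l v a b u else 0)
    (fun v hv => gen_good h6 hN hΔ hu (hS v) hv)
    (fun v hv => by
      have h2 := gen_bad h6 hlk hl hq hΔ hu hv
      simp only [if_pos hv]
      exact h2)
    (fun v hv => if_neg hv) hm
  have h2 : rs l (Nat.card k) Q = 0 := by
    unfold rs
    rw [card_oneL hq, inv_one, Polynomial.rootMultiplicity_eq_zero hQ1]
  rw [h2, zero_add] at h1
  refine le_trans (Nat.le_of_add_right_le h1) ?_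
  have hle : ∀ v : Place k K, (if v.red (minDisc v (u ^ 2 * a) (u ^ 3 * b)) = 0 then
      gW l v a b u else 0) ≤ gW l v a b u := by
    intro v
    split_ifs
    · exact le_rfl
    · exact Nat.zero_le _
  have hfin : (Function.support fun v : Place k K =>
      if v.red (minDisc v (u ^ 2 * a) (u ^ 3 * b)) = 0 then gW l v a b u else 0).Finite := by
    refine (gW_fin (l := l) (u := u) hΔ).subset ?_
    intro v hv
    rw [Function.mem_support] at hv ⊢
    have := hle v
    omega
  exact finsum_le_finsum' hfin (gW_fin hΔ) hle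

end bd

section sub

variable {k K L L' : Type} [Field k] [Finite k] [Field K] [Algebra k K] [FF.IsFF k K]
  [Field L] [Algebra k L] [Algebra K L] [IsScalarTower k K L]
  [Field L'] [Algebra k L'] [Algebra K L'] [Algebra L L'] [IsScalarTower k K L']
  [IsScalarTower K L L'] [FiniteDimensional K L'] [IsGalois K L'] {l : ℕ} [Fact l.Prime]

theorem semi_case {v : Place k K} {a b : K} (hΔ : 4 * a ^ 3 + 27 * b ^ 2 ≠ 0)
    (h : SemiAt v a b) : v.red (minA v a b) ≠ 0 ∨ v.red (minDisc v a b) ≠ 0 := by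
  rcases h with h | ⟨h1, h2⟩
  · exact Or.inr ((S.ord_disc_iff v hΔ).1 h)
  · exact Or.inl (v.red_ne_zero h1 h2)

theorem disc_map' (a b : K) : 4 * algebraMap K L a ^ 3 + 27 * algebraMap K L b ^ 2 =
    algebraMap K L (4 * a ^ 3 + 27 * b ^ 2) := by
  rw [map_add, map_mul, map_mul, map_pow, map_pow, map_ofNat, map_ofNat]

/-- the residue degree over a place is a power of `l` -/
theorem deg_pow (L' : Type) [Field L'] [Algebra k L'] [Algebra K L'] [Algebra L L']
    [IsScalarTower k K L'] [IsScalarTower K L L'] [FiniteDimensional K L'] [IsGalois K L']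
    {N : ℕ} (hN : finrank K L' = l ^ N) {w : Place k L} {v : Place k K} {e : ℕ}
    (hov : Over w v e) : ∃ j : ℕ, w.deg = v.deg * l ^ j := by
  have hlp : l.Prime := Fact.out
  have hfdL : FiniteDimensional L L' := Module.Finite.of_restrictScalars_finite K L L'
  have hfd : FiniteDimensional K L := Module.Finite.left K L L'
  have hFFL : FF.IsFF k L := isFF_of_finite (K := K)
  have hFFL' : FF.IsFF k L' := isFF_of_finite (K := K)
  have hgal : IsGalois L L' := IsGalois.tower_top_of_isGalois K L L'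
  have hT : IsScalarTower k L L' := by
    refine IsScalarTower.of_algebraMap_eq fun c => ?_
    rw [IsScalarTower.algebraMap_apply k K L', IsScalarTower.algebraMap_apply K L L',
      IsScalarTower.algebraMap_apply k K L]
  obtain ⟨S1, e1, f1, G1⟩ := exists_galoisFiber (L := L') w
  obtain ⟨z, hz⟩ := G1.nonempty
  have h1 := G1.deg z hz
  obtain ⟨S2, e2, f2, G2⟩ := exists_galoisFiber (L := L') v
  have hz2 := G2.mem z _ (over_trans (G1.isOver z hz) hov)
  have h2 := G2.deg z hz2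
  have h3 := deg_over hov
  set f := @finrank v.RF w.RF _ _ hov.resMap.toRingHom.toAlgebra.toModule with hf
  have hf2 : f2 ∣ l ^ N := ⟨S2.card * e2, by rw [← hN, ← G2.mul]; ring⟩
  have h4 : f2 = f * f1 := by
    apply Nat.eq_of_mul_eq_mul_left (deg_pos' v)
    rw [← h2, h1, h3]
    ring
  have h5 : f ∣ l ^ N := (Dvd.intro _ h4.symm).trans hf2
  obtain ⟨j, -, hj⟩ := (Nat.dvd_prime_pow hlp).1 h5
  exact ⟨j, by rw [h3, hj]⟩

/-- the conditions over extensions -/
theorem gen_up (L' : Type) [Field L'] [Algebra k L'] [Algebra K L'] [Algebra L L']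
    [IsScalarTower k K L'] [IsScalarTower K L L'] [FiniteDimensional K L'] [IsGalois K L']
    {N : ℕ} (hN : finrank K L' = l ^ N) {a b : K} (hΔ : 4 * a ^ 3 + 27 * b ^ 2 ≠ 0)
    (hP : PointsDvd l k a b) (hS : ∀ v : Place k K, SemiAt v a b) :
    PointsDvd l k (algebraMap K L a) (algebraMap K L b) ∧
      ∀ w : Place k L, SemiAt w (algebraMap K L a) (algebraMap K L b) := by
  have hfdL : FiniteDimensional L L' := Module.Finite.of_restrictScalars_finite K L L'
  have hfd : FiniteDimensional K L := Module.Finite.left K L L'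
  have hFFL : FF.IsFF k L := isFF_of_finite (K := K)
  have hΔ' : 4 * algebraMap K L a ^ 3 + 27 * algebraMap K L b ^ 2 ≠ 0 := by
    rw [disc_map']
    exact (_root_.map_ne_zero _).2 hΔ
  constructor
  · intro w hw
    obtain ⟨e, v, hov⟩ := exists_below (K := K) w
    obtain ⟨j, hj⟩ := deg_pow (l := l) L' hN hov
    have hc := semi_case hΔ (hS v)
    have hv : v.red (minDisc v a b) ≠ 0 :=
      (disc_over hov hΔ (Or.inr hc)).1 ((S.ord_disc_iff w hΔ').1 hw)
    have h1 := hP v ((S.ord_disc_iff v hΔ).2 hv)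
    have h2 := trace_over hov hj rfl hΔ (Or.inr hc)
    have h3 := (ZMod.intCast_zmod_eq_zero_iff_dvd _ _).2 h1
    rw [← ZMod.intCast_zmod_eq_zero_iff_dvd]
    push_cast at h3 ⊢
    have h4 : ((Nat.card (S.Res w) : ℕ) : ZMod l) = ((Nat.card (S.Res v) : ℕ) : ZMod l) := by
      rw [show ((Nat.card (S.Res w) : ℕ) : ZMod l) = ((Nat.card k : ℕ) : ZMod l) ^ w.deg from
        card_RFl w, show ((Nat.card (S.Res v) : ℕ) : ZMod l) =
        ((Nat.card k : ℕ) : ZMod l) ^ v.deg from card_RFl v, hj, pow_mul, ZMod.pow_card_pow]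
    rw [h4]
    have h5 : ((S.trace w (algebraMap K L a) (algebraMap K L b) : ℤ) : ZMod l) =
      ((S.trace v a b : ℤ) : ZMod l) := h2
    rw [h5]
    exact h3
  · intro w
    obtain ⟨e, v, hov⟩ := exists_below (K := K) w
    have h1 := condExp_over hov hΔ
    have h2 : condExp v a b ≤ 1 := by
      unfold condExp
      rcases hS v with h | h
      · rw [if_pos h]; norm_num
      · split_ifs <;> norm_num
        all_goals first | exact absurd h ‹_› | skip
    have h3 := h1.trans h2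
    unfold condExp at h3
    unfold SemiAt
    by_contra hcon
    push Not at hcon
    rw [if_neg hcon.1, if_neg (fun h => hcon.2 h.1 h.2)] at h3
    norm_num at h3

/-- no place of bad reduction splits -/
theorem gW_zero_sub (L' : Type) [Field L'] [Algebra k L'] [Algebra K L'] [Algebra L L']
    [IsScalarTower k K L'] [IsScalarTower K L L'] [FiniteDimensional K L'] [IsGalois K L']
    (h6 : (6 : k) ≠ 0) (hodd : Odd (finrank K L')) {a b u : K}
    (hΔ : 4 * a ^ 3 + 27 * b ^ 2 ≠ 0) (hu : u ≠ 0)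
    (hns : ∀ v : Place k K, v.ord (minDisc v a b) ≠ 0 → ¬ LocSq v u) (w : Place k L) :
    gW l w (algebraMap K L a) (algebraMap K L b) (algebraMap K L u) = 0 := by
  have h1 := spW_zero_sub L' h6 hodd hΔ hu hns w
  unfold spW at h1
  unfold gW
  rw [if_neg]
  intro h2
  rw [if_pos h2] at h1
  have h3 : 0 < 3 ^ padicValNat 3 (S.deg w) := pow_pos (by norm_num) _
  split_ifs at h1 <;> omega

end sub

end Pool.Agent.R427.TW
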