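import Pool.Agent.R427.TW18
import Pool.Agent.R427.TW10

/-!
Curves with a point of order five: semistability.
-/

set_option autoImplicit false
set_option linter.all false
set_option maxHeartbeats 4000000

open FF Module Polynomial

namespace Pool.Agent.R427.TW

open Pool.Agent.W343.BSD Pool.Agent.H123R3.ZT Pool.Agent.H525R3.FFp
open Pool.Agent.TH639.B3
open Pool.Agent.R427.FT (fA fB)

section semi5

variable {k K : Type} [Field k] [Finite k] [Field K] [Algebra k K] [FF.IsFF k K]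

theorem semiAt_of {v : Place k K} (h3 : (3 : k) ≠ 0) {a b c : K}
    (hΔ : 4 * a ^ 3 + 27 * b ^ 2 ≠ 0) (hc : IsMinScale v a b c)
    (h0 : v.red (c ^ 4 * a) ≠ 0 ∨ v.red (c ^ 6 * b) ≠ 0) : SemiAt v a b := by
  by_cases hg : v.ord (minDisc v a b) = 0
  · exact Or.inl hg
  right
  have h1 := (ord_disc_zero_iff hΔ hc).not.1 hg
  rw [not_not] at h1
  have hA : v.red (c ^ 4 * a) ≠ 0 := by
    intro hA
    rw [hA, zero_pow (by norm_num), mul_zero, zero_add] at h1
    have h27 : (27 : v.RF) ≠ 0 := by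
      have : (27 : v.RF) = 3 ^ 3 := by norm_num
      rw [this]
      exact pow_ne_zero 3 (n3 h3 v)
    have h5 := (mul_eq_zero.1 h1).resolve_left h27
    exact h0.elim (fun h => h hA) (fun h => h (by simpa using h5))
  obtain ⟨h4, h5⟩ := ord_of_red hc.2.1 hA
  have hs := minScale_spec v (ab_of_disc hΔ)
  have h6 := Pool.Agent.W313.Gr.ord_scale_zero hc.1 hc.2.1 hc.2.2.1 hs (Or.inl ⟨h4, h5⟩)
  have ha : a ≠ 0 := right_ne_zero_of_mul h4
  have e : minA v a b = (minScale v a b / c) ^ 4 * (c ^ 4 * a) := by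
    unfold minA
    have := hc.1
    field_simp
  have h7 : minScale v a b / c ≠ 0 := div_ne_zero hs.1 hc.1
  rw [e]
  refine ⟨mul_ne_zero (pow_ne_zero 4 h7) h4, ?_⟩
  rw [v.ord_mul (pow_ne_zero 4 h7) h4, v.ord_pow, h6, h5]
  simp

theorem semi_five (h2 : (2 : k) ≠ 0) (h3 : (3 : k) ≠ 0) (h5 : (5 : k) ≠ 0) {g : K} (hg : g ≠ 0)
    (hΔ : 4 * fA g ^ 3 + 27 * fB g ^ 2 ≠ 0) (v : Place k K) : SemiAt v (fA g) (fB g) := by
  obtain ⟨⟨c, hc, h0⟩, -⟩ := trace_data' h2 h3 h5 hg hΔ v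
  exact semiAt_of h3 hΔ hc h0

end semi5

end Pool.Agent.R427.TW
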