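import Pool.Agent.R427.TW19

/-!
Points of order five.
-/

set_option autoImplicit false
set_option linter.all false
set_option maxHeartbeats 4000000

open WeierstrassCurve WeierstrassCurve.Affine

namespace Pool.Agent.R427.TW

open Pool.Agent.W343.BSD Pool.Agent.W313.Gr
open Pool.Agent.R427.FT (fA fB)
open Pool.Agent.TH639.B3 (curve_eq)

section alg

variable {F : Type} [Field F]

theorem five_alg (h2 : (2 : F) ≠ 0) (h3 : (3 : F) ≠ 0) {a b x y m d : F} (hy : y ≠ 0)
    (heq : y ^ 2 = x ^ 3 + a * x + b) (hm : m * (2 * y) = 3 * x ^ 2 + a)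
    (hd : d = m ^ 2 - 3 * x) (hd0 : d ≠ 0) (h5 : (2 * y) ^ 2 + 2 * (2 * y) * m * d = d ^ 3) :
    a = ((2 * y) / (6 * d)) ^ 4 * fA (d ^ 3 / (2 * y) ^ 2) ∧
      b = ((2 * y) / (6 * d)) ^ 6 * fB (d ^ 3 / (2 * y) ^ 2) := by
  obtain ⟨s, hs⟩ : ∃ s, s = 2 * y := ⟨_, rfl⟩
  have hs0 : s ≠ 0 := by rw [hs]; exact mul_ne_zero h2 hy
  rw [← hs] at hm h5 ⊢
  have hm' : m = (d ^ 3 - s ^ 2) / (2 * s * d) := by
    rw [eq_div_iff (mul_ne_zero (mul_ne_zero h2 hs0) hd0)]
    linear_combination h5
  have hx : x = (m ^ 2 - d) / 3 := by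
    rw [eq_div_iff h3]
    linear_combination hd
  have ha : a = m * s - 3 * x ^ 2 := by linear_combination -hm
  have hy' : y = s / 2 := by
    rw [eq_div_iff h2]
    linear_combination -hs
  have hb : b = (s / 2) ^ 2 - x ^ 3 - a * x := by
    rw [← hy']
    linear_combination -heq
  have h6 : (6 : F) ≠ 0 := by
    have : (6 : F) = 2 * 3 := by norm_num
    rw [this]
    exact mul_ne_zero h2 h3
  have hA : a = (s / (6 * d)) ^ 4 * fA (d ^ 3 / s ^ 2) := by
    rw [ha, hx, hm']
    unfold fA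
    have e6 : (6 : F) = 2 * 3 := by norm_num
    rw [e6]
    field_simp
    ring
  refine ⟨hA, ?_⟩
  rw [hb, ha, hx, hm']
  unfold fB
  have e6 : (6 : F) = 2 * 3 := by norm_num
  rw [e6]
  field_simp
  ring

theorem five_param [DecidableEq F] (h2 : (2 : F) ≠ 0) (h3 : (3 : F) ≠ 0) {a b : F}
    (P : (curve a b).toAffine.Point) (hP : addOrderOf P = 5) :
    ∃ lam g : F, lam ≠ 0 ∧ g ≠ 0 ∧ a = lam ^ 4 * fA g ∧ b = lam ^ 6 * fB g := by
  have h5P : (5 : ℕ) • P = 0 := by
    rw [← hP]
    exact addOrderOf_nsmul_eq_zero P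
  have hn : ∀ n : ℕ, n • P = 0 → 5 ∣ n := fun n h => by
    rw [← hP]
    exact addOrderOf_dvd_of_nsmul_eq_zero h
  have hne : P ≠ 0 := by
    intro h
    have := hn 1 (by rw [one_smul]; exact h)
    omega
  rcases P with _ | ⟨x, y, hns⟩
  · exact absurd rfl hne
  have heq := (curve_eq a b x y).1 hns.1
  have hY : y ≠ (curve a b).toAffine.negY x y := by
    intro h
    have h1 := Point.add_self_of_Y_eq (h₁ := hns) h
    have := hn 2 (by rw [two_smul]; exact h1)
    omega
  have hneg : ∀ x' y' : F, (curve a b).toAffine.negY x' y' = -y' := by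
    intro x' y'
    show -y' - 0 * x' - 0 = -y'
    ring
  have hy0 : y ≠ 0 := by
    rintro rfl
    apply hY
    rw [hneg, neg_zero]
  have h2y : y - -y ≠ 0 := by
    have : y - -y = 2 * y := by ring
    rw [this]
    exact mul_ne_zero h2 hy0
  have hsl : (curve a b).toAffine.slope x x y y = (3 * x ^ 2 + a) / (2 * y) := by
    rw [slope_of_Y_ne rfl hY, hneg]
    show (3 * x ^ 2 + 2 * 0 * x + a - 0 * y) / (y - -y) = _
    have e1 : 3 * x ^ 2 + 2 * 0 * x + a - 0 * y = 3 * x ^ 2 + a := by ring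
    have e2 : y - -y = 2 * y := by ring
    rw [e1, e2]
  set P : (curve a b).toAffine.Point := Point.some x y hns with hPdef
  set m := (curve a b).toAffine.slope x x y y with hm
  have h2P := Point.add_self_of_Y_ne (h₁ := hns) hY
  rw [← hPdef] at h2P
  obtain ⟨x2, hx2⟩ : ∃ x2, x2 = (curve a b).toAffine.addX x x m := ⟨_, rfl⟩
  obtain ⟨y2, hy2⟩ : ∃ y2, y2 = (curve a b).toAffine.addY x x y m := ⟨_, rfl⟩
  have hx2' : x2 = m ^ 2 - 2 * x := by
    rw [hx2]
    show m ^ 2 + 0 * m - 0 - x - x = _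
    ring
  have hy2' : y2 = -(y + m * (x2 - x)) := by
    rw [hy2]
    unfold addY negAddY
    rw [hneg, ← hx2]
    ring
  have hns2 : (curve a b).toAffine.Nonsingular x2 y2 := by
    rw [hx2, hy2]
    exact nonsingular_add hns hns fun hxy => hY hxy.right
  have h2P' : P + P = Point.some x2 y2 hns2 := by
    rw [h2P]
    subst hx2 hy2
    rfl
  -- the point of order three or one
  have hx12 : x2 ≠ x := by
    intro h
    have hy12 : y2 = -y ∨ y2 = y := by
      have e1 := (curve_eq a b x2 y2).1 hns2.1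
      rw [h, ← heq] at e1
      have e2 : (y2 + y) * (y2 - y) = 0 := by linear_combination e1
      rcases mul_eq_zero.1 e2 with e3 | e3
      · left; linear_combination e3
      · right; linear_combination e3
    have h3P : (3 : ℕ) • P = (P + P) + P := by
      rw [show (3 : ℕ) = 2 + 1 from rfl, add_smul, two_smul, one_smul]
    rcases hy12 with hy12 | hy12
    · -- `2 P = - P`
      have e3 : P + P = -P := by
        rw [h2P', hPdef, Point.neg_some]
        subst h
        congr 1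
        rw [hneg, hy12]
      have := hn 3 (by rw [h3P, e3, neg_add_cancel])
      omega
    · have e3 : P + P = P := by
        rw [h2P', hPdef]
        subst h hy12
        rfl
      have e4 : P = 0 := by
        have := congrArg (fun Q => Q - P) e3
        simpa using this
      exact hne e4
  have h3P := Point.add_of_X_ne (h₁ := hns2) (h₂ := hns) hx12
  rw [← h2P', ← hPdef] at h3P
  have hneg3 : (P + P) + P = -(P + P) := by
    have e1 : (5 : ℕ) • P = ((P + P) + P) + (P + P) := by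
      rw [show (5 : ℕ) = 2 + 1 + 2 from rfl, add_smul, add_smul, two_smul, one_smul]
    rw [h5P] at e1
    exact eq_neg_of_add_eq_zero_left e1.symm
  rw [h3P, h2P', Point.neg_some] at hneg3
  have hx3 := (Point.some.inj hneg3).1
  set m' := (curve a b).toAffine.slope x2 x y2 y with hm'
  have hm'' : m' = (y2 - y) / (x2 - x) := slope_of_X_ne hx12
  have hx3' : m' ^ 2 = x + 2 * x2 := by
    have e1 : m' ^ 2 + 0 * m' - 0 - x2 - x = x2 := hx3
    linear_combination e1
  set d := x2 - x with hd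
  have hd0 : d ≠ 0 := sub_ne_zero.2 hx12
  have hmy : m * (2 * y) = 3 * x ^ 2 + a := by
    rw [hsl]
    exact div_mul_cancel₀ _ (mul_ne_zero h2 hy0)
  have hdm : d = m ^ 2 - 3 * x := by rw [hd, hx2']; ring
  have h7 : m' * d = y2 - y := by
    rw [hm'']
    exact div_mul_cancel₀ _ hd0
  have h8 : (y2 - y) ^ 2 = d ^ 2 * (x + 2 * x2) := by
    rw [← h7, ← hx3']
    ring
  have hx2d : x2 = d + x := by rw [hd]; ring
  have h9 : (2 * y) ^ 2 + 2 * (2 * y) * m * d = d ^ 3 := by
    have e1 : y2 - y = -(2 * y + m * d) := by rw [hy2']; ring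
    rw [e1, hx2d] at h8
    linear_combination h8 + d ^ 2 * hdm
  obtain ⟨r1, r2⟩ := five_alg h2 h3 hy0 heq hmy hdm hd0 h9
  have h6 : (6 : F) ≠ 0 := by
    have : (6 : F) = 2 * 3 := by norm_num
    rw [this]
    exact mul_ne_zero h2 h3
  exact ⟨_, _, div_ne_zero (mul_ne_zero h2 hy0) (mul_ne_zero h6 hd0),
    div_ne_zero (pow_ne_zero 3 hd0) (pow_ne_zero 2 (mul_ne_zero h2 hy0)), r1, r2⟩

end alg

end Pool.Agent.R427.TW
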