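import Pool.Agent.R427.TW1

/-!
Quadratic characters in Galois extensions of odd prime degree.
-/

set_option autoImplicit false
set_option linter.all false
set_option maxHeartbeats 4000000

open PowerSeries FF Module

namespace Pool.Agent.R427.TW

open Pool.Agent.W343.BSD Pool.Agent.H123R3.ZT
open Pool.Agent.TH639.B3
open Pool.Agent.W313.Gr

section field

/-- squares in extensions of odd degree -/
theorem sq_of_odd {F F' : Type} [Field F] [Field F'] [Algebra F F'] (hodd : Odd (finrank F F'))
    (x : F) : IsSquare (algebraMap F F' x) ↔ IsSquare x := by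
  constructor
  · rintro ⟨y, hy⟩
    have h1 := Algebra.norm_algebraMap (R := F) (S := F') x
    rw [hy, map_mul] at h1
    obtain ⟨n, hn⟩ := hodd
    by_cases hx : x = 0
    · rw [hx]; exact IsSquare.zero
    refine ⟨Algebra.norm F y / x ^ n, ?_⟩
    rw [hn] at h1
    have h2 : x ^ n ≠ 0 := pow_ne_zero n hx
    rw [div_mul_div_comm, h1, eq_div_iff (mul_ne_zero h2 h2)]
    ring
  · rintro ⟨y, rfl⟩
    exact ⟨algebraMap F F' y, map_mul _ _ _⟩

end field

section ovr

variable {k K L : Type} [Field k] [Finite k] [Field K] [Algebra k K] [FF.IsFF k K] [Field L]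
  [Algebra k L] [Algebra K L] [IsScalarTower k K L] [FF.IsFF k L]

/-- the quadratic character over a place with odd local degree -/
theorem chi_over [FiniteDimensional K L] (h6 : (6 : k) ≠ 0) {w : Place k L} {v : Place k K}
    {e f : ℕ} (h : Over w v e) (hdeg : w.deg = v.deg * f) (he : Odd e) (hf : Odd f) {u : K}
    (hu : u ≠ 0) : chi w (algebraMap K L u) = chi v u := by
  have huL : algebraMap K L u ≠ 0 := (_root_.map_ne_zero _).2 hu
  have ho : Odd (w.ord (algebraMap K L u)) ↔ Odd (v.ord u) := by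
    rw [h.2, Int.odd_mul]
    constructor
    · exact fun h => h.2
    · exact fun h => ⟨by exact_mod_cast he, h⟩
  unfold chi
  by_cases hodd : Odd (v.ord u)
  · rw [if_pos hodd, if_pos (ho.2 hodd)]
  rw [if_neg hodd, if_neg (fun h => hodd (ho.1 h))]
  obtain ⟨t, ht0, ht⟩ := exists_half hodd
  have htL : algebraMap K L t ≠ 0 := (_root_.map_ne_zero _).2 ht0
  have htw : w.ord (algebraMap K L u) = 2 * w.ord (algebraMap K L t) := by
    rw [h.2, h.2, ht]; ring
  have key : LocSq w (algebraMap K L u) ↔ LocSq v u := by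
    rw [locSq_iff huL htL htw, locSq_iff hu ht0 ht, ← map_pow, ← map_div₀]
    have hreg : v.Reg (u / t ^ 2) := by
      right
      rw [v.ord_div hu (pow_ne_zero 2 ht0), v.ord_pow, ht]
      push_cast
      omega
    rw [← h.resMap_red hreg]
    let _ : Algebra v.RF w.RF := h.resMap.toRingHom.toAlgebra
    have hd := deg_over h
    rw [hdeg] at hd
    have hvp := deg_pos' v
    have hf' : f = finrank v.RF w.RF := Nat.eq_of_mul_eq_mul_left hvp hd
    rw [hf'] at hf
    exact sq_of_odd hf _
  by_cases hl : LocSq v u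
  · rw [if_pos hl, if_pos (key.2 hl)]
  · rw [if_neg hl, if_neg (fun h => hl (key.1 h))]

variable [FiniteDimensional K L] [IsGalois K L]

theorem odd_of_prod {l a b c : ℕ} (hl : Odd l) (h : a * (b * c) = l) : Odd b ∧ Odd c := by
  rw [← h] at hl
  have := (Nat.odd_mul.1 hl).2
  exact Nat.odd_mul.1 this

theorem chF_pow {l : ℕ} [Fact l.Prime] {x : ℤ} {d f : ℕ} (hx : x = 0 ∨ x = 1 ∨ x = -1)
    (hf : f = 1 ∨ f = l) (hl : Odd l) :
    (1 - Polynomial.C ((x : ℤ) : ZMod l) * Polynomial.X ^ (d * f) : Polynomial (ZMod l)) =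
      (1 - Polynomial.C ((x : ℤ) : ZMod l) * Polynomial.X ^ d) ^ f := by
  rcases hf with rfl | rfl
  · rw [mul_one, pow_one]
  · have : CharP (ZMod f) f := inferInstance
    have : CharP (Polynomial (ZMod f)) f := inferInstance
    rw [sub_pow_char, one_pow, mul_pow, ← pow_mul, ← Polynomial.C_pow]
    congr 3
    rcases hx with rfl | rfl | rfl
    · rw [Int.cast_zero, zero_pow hl.pos.ne']
    · rw [Int.cast_one, one_pow]
    · rw [Int.cast_neg, Int.cast_one, hl.neg_one_pow]

theorem chi_vals (v : Place k K) (u : K) : chi v u = 0 ∨ chi v u = 1 ∨ chi v u = -1 := by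
  unfold chi
  split_ifs
  · exact Or.inl rfl
  · exact Or.inr (Or.inl rfl)
  · exact Or.inr (Or.inr rfl)

/-- the comparison of the Euler products in an extension of degree `l` -/
theorem chi_tower {l : ℕ} [hl : Fact l.Prime] (hlo : Odd l) (h6 : (6 : k) ≠ 0)
    (hn : finrank K L = l) {u : K} (hu : u ≠ 0) {S : Place k K → Finset (Place k L)}
    {e f : Place k K → ℕ} (D : ∀ v, GaloisFiber v (S v) (e v) (f v)) (B : Finset (Place k K))
    (hB : ∀ v, e v = 1 ↔ v ∉ B) {P Q : Polynomial (ZMod l)}
    (hrel : (Q : PowerSeries (ZMod l)) * eulerProd (fun v : Place k K => v.deg)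
      (fun v => (chF l (fun v => chi v u) v : PowerSeries (ZMod l))) = (P : PowerSeries (ZMod l))) :
    ((Q ^ l * ∏ v ∈ B, (chF l (fun v => chi v u) v) ^ (l - 1) : Polynomial (ZMod l)) :
      PowerSeries (ZMod l)) * eulerProd (fun w : Place k L => w.deg)
      (fun w => (chF l (fun w => chi w (algebraMap K L u)) w : PowerSeries (ZMod l))) =
      ((P ^ l : Polynomial (ZMod l)) : PowerSeries (ZMod l)) := by
  classical
  have hlp := hl.out
  set FK : Place k K → PowerSeries (ZMod l) :=
    fun v => (chF l (fun v => chi v u) v : PowerSeries (ZMod l)) with hFK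
  set FL : Place k L → PowerSeries (ZMod l) :=
    fun w => (chF l (fun w => chi w (algebraMap K L u)) w : PowerSeries (ZMod l)) with hFL
  have hfin := fun n => places_fin (k := k) (K := K) n
  have hFK1 : ∀ v, (X : PowerSeries (ZMod l)) ^ v.deg ∣ FK v - 1 := fun v => key_mod _ _
  have hFL1 : ∀ w, (X : PowerSeries (ZMod l)) ^ w.deg ∣ FL w - 1 := fun w => key_mod _ _
  have hcards : ∀ v, (S v).card * (e v * f v) = l := fun v => by rw [← hn]; exact (D v).mul
  have hdiv : ∀ v, (f v = 1 ∨ f v = l) ∧ Odd (e v) ∧ Odd (f v) := by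
    intro v
    refine ⟨?_, odd_of_prod hlo (hcards v)⟩
    have h1 : f v ∣ l := ⟨(S v).card * e v, by rw [← hcards v]; ring⟩
    exact (Nat.dvd_prime hlp).1 h1
  -- the product over a fibre
  have hfib : ∀ v, ∏ w ∈ S v, FL w = FK v ^ ((S v).card * f v) := by
    intro v
    obtain ⟨hf, ho1, ho2⟩ := hdiv v
    have h1 : ∀ w ∈ S v, FL w = FK v ^ f v := by
      intro w hw
      have h2 := chi_over h6 ((D v).isOver w hw) ((D v).deg w hw) ho1 ho2 hu
      rw [hFL, hFK]
      simp only
      unfold chF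
      simp only
      rw [h2, (D v).deg w hw, chF_pow (chi_vals v u) hf hlo, Polynomial.coe_pow]
    rw [Finset.prod_congr rfl h1, Finset.prod_const, ← pow_mul, mul_comm]
  set Φ : Place k K → PowerSeries (ZMod l) := fun v => ∏ w ∈ S v, FL w with hΦ
  set W : Place k K → PowerSeries (ZMod l) := fun v => ∏ _i ∈ Finset.range l, FK v with hW
  have hfpos : ∀ v, 0 < f v := fun v => (hdiv v).2.2.pos
  have hΦ1 : ∀ v, (X : PowerSeries (ZMod l)) ^ v.deg ∣ Φ v - 1 := by
    intro v
    have h := prod_congr_mod (S v) FL (fun _ => 1) v.deg (fun w hw => (pow_dvd_pow _ (by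
        rw [(D v).deg w hw]
        exact Nat.le_mul_of_pos_right _ (hfpos v))).trans (hFL1 w))
    rwa [Finset.prod_const_one] at h
  have hW1 : ∀ v, (X : PowerSeries (ZMod l)) ^ v.deg ∣ W v - 1 := by
    intro v
    have h := prod_congr_mod (Finset.range l) (fun _ => FK v)
      (fun _ => 1) v.deg (fun w hw => hFK1 v)
    rwa [Finset.prod_const_one] at h
  have hgood : ∀ v, v ∉ B → Φ v = W v := by
    intro v hv
    have he := (hB v).2 hv
    have h1 := hcards v
    rw [he, one_mul] at h1
    show ∏ w ∈ S v, FL w = ∏ _i ∈ Finset.range l, FK v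
    rw [hfib v, h1, Finset.prod_const, Finset.card_range]
  have hbad : ∀ v ∈ B, Φ v = FK v := by
    intro v hv
    have he : e v ≠ 1 := fun h => (hB v).1 h hv
    have h1 : e v ∣ l := ⟨(S v).card * f v, by rw [← hcards v]; ring⟩
    have h2 : e v = l := ((Nat.dvd_prime hlp).1 h1).resolve_left he
    have h3 : (S v).card * f v = 1 := by
      have h4 := hcards v
      rw [h2] at h4
      have h5 : l * ((S v).card * f v) = l * 1 := by rw [mul_one]; nlinarith [h4]
      exact Nat.eq_of_mul_eq_mul_left hlp.pos h5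
    show ∏ w ∈ S v, FL w = FK v
    rw [hfib v, h3, pow_one]
  have key := fin_factor' hfin hΦ1 hW1 B hgood
  have hEL : eulerProd (fun v : Place k K => v.deg) Φ =
      eulerProd (fun w : Place k L => w.deg) FL := euler_fiber D hFL1
  have hEK : eulerProd (fun v : Place k K => v.deg) W =
      eulerProd (fun v : Place k K => v.deg) FK ^ l := by
    rw [hW, eulerProd_prod hfin (Finset.range l) (fun _ v => FK v) (fun _ v => hFK1 v),
      Finset.prod_const, Finset.card_range]
  rw [hEL, hEK, Finset.prod_congr rfl hbad] at key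
  set EK := eulerProd (fun v : Place k K => v.deg) FK with hEKd
  set EL := eulerProd (fun w : Place k L => w.deg) FL with hELd
  have hWB : ∏ v ∈ B, W v = (∏ v ∈ B, FK v) ^ (l - 1) * ∏ v ∈ B, FK v := by
    rw [← pow_succ, Nat.sub_add_cancel hlp.one_le, ← Finset.prod_pow]
    refine Finset.prod_congr rfl fun v _ => ?_
    show ∏ _i ∈ Finset.range l, FK v = _
    rw [Finset.prod_const, Finset.card_range]
  have hne : ∏ v ∈ B, FK v ≠ 0 := by
    rw [Finset.prod_ne_zero_iff]
    intro v _ h0
    have h1 := hFK1 v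
    rw [h0, zero_sub, dvd_neg] at h1
    have h2 := X_pow_dvd_iff.1 h1 0 (deg_pos' v)
    simp at h2
  rw [hWB, ← mul_assoc] at key
  have key2 := mul_right_cancel₀ hne key
  rw [Polynomial.coe_mul, Polynomial.coe_pow, coe_prod']
  simp only [Polynomial.coe_pow]
  have e1 : ∏ v ∈ B, (chF l (fun v => chi v u) v : PowerSeries (ZMod l)) ^ (l - 1) =
      (∏ v ∈ B, FK v) ^ (l - 1) := Finset.prod_pow _ _ _
  rw [e1, ← hrel, mul_pow, mul_assoc, mul_comm _ EL, key2]

end ovr

end Pool.Agent.R427.TW
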