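import Pool.Agent.R427.TW3
import Pool.Agent.TH639.B3.Quad
import Pool.Agent.W309.RF.ZetaR
import Pool.Agent.TH180.R4.Map

/-!
Kummer coverings of the projective line and quadratic characters.
-/

set_option autoImplicit false
set_option linter.all false
set_option maxHeartbeats 4000000

open FF Module Polynomial

namespace Pool.Agent.R427.TW

open Pool.Agent.W343.BSD Pool.Agent.H123R3.ZT Pool.Agent.W309.RF
open Pool.Agent.TH639.B3
open Pool.Agent.W313.Gr

section kum

variable {k K L : Type} [Field k] [Finite k] [Field K] [Algebra k K] [FF.IsFF k K] [Field L]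
  [Algebra k L] [Algebra K L] [IsScalarTower k K L] [FF.IsFF k L] [FiniteDimensional K L]
  [IsGalois K L]

/-- a Kummer extension of prime degree is unramified where the generator is a unit -/
theorem kum_unram {l : ℕ} (hl : l.Prime) {v : Place k K} {S : Finset (Place k L)} {e f : ℕ}
    (D : GaloisFiber v S e f) (hn : finrank K L = l) {t : K} {θ : L} (ht : t ≠ 0)
    (hθ : θ ^ l = algebraMap K L t) {σ : L ≃ₐ[K] L} {ζ : k} (hζ : ζ ≠ 1)
    (hσ : σ θ = algebraMap k L ζ * θ) (h0 : v.ord t = 0) : e = 1 := by
  by_contra he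
  obtain ⟨w, hw⟩ := D.nonempty
  have hov := D.isOver w hw
  have hmul := D.mul
  rw [hn] at hmul
  have h1 : e ∣ l := ⟨S.card * f, by rw [← hmul]; ring⟩
  have h2 : e = l := ((Nat.dvd_prime hl).1 h1).resolve_left he
  have h3 : S.card * f = 1 := by
    have h5 : l * (S.card * f) = l * 1 := by
      rw [mul_one]
      rw [h2] at hmul
      nlinarith [hmul]
    exact Nat.eq_of_mul_eq_mul_left hl.pos h5
  have hc : S.card = 1 := Nat.eq_one_of_mul_eq_one_right h3
  have hf : f = 1 := Nat.eq_one_of_mul_eq_one_left h3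
  have hcj : cj σ w = w := by
    obtain ⟨w', hw'⟩ := Finset.card_eq_one.1 hc
    have h2 := D.mem _ _ (over_cj hov σ)
    rw [hw', Finset.mem_singleton] at h2
    rw [hw', Finset.mem_singleton] at hw
    rw [h2, hw]
  have hθ0 : θ ≠ 0 := by
    rintro rfl
    rw [zero_pow hl.ne_zero] at hθ
    exact ht ((algebraMap K L).injective (by rw [← hθ, map_zero]))
  have hθo : w.ord θ = 0 := by
    have h4 := hov.2 t
    rw [← hθ, w.ord_pow, h0, mul_zero] at h4
    rcases mul_eq_zero.1 h4 with h5 | h5
    · exact absurd (by exact_mod_cast h5) hl.ne_zero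
    · exact h5
  have hdeg := D.deg w hw
  rw [hf, mul_one] at hdeg
  have hpos := deg_pos' v
  have hηr : w.Reg θ := Or.inr hθo.ge
  obtain ⟨r, hr⟩ := resMap_surj hov hdeg hpos (w.red θ)
  obtain ⟨s, hs, hsr⟩ := v.red_surjective r
  have hsL := hov.reg.2 hs
  have hreg : w.Reg (θ - algebraMap K L s) := by
    rw [sub_eq_add_neg]
    exact w.reg_add hηr (w.reg_neg hsL)
  have h5 : w.red (θ - algebraMap K L s) = 0 := by
    rw [w.red_sub hηr hsL, ← hr, ← hsr, hov.resMap_red hs, sub_self]
  have hsm := sm_of_red hreg h5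
  have hsm2 : Sm w 1 (σ θ - algebraMap K L s) := by
    have e1 : σ θ - algebraMap K L s = σ (θ - algebraMap K L s) := by
      rw [map_sub, AlgEquiv.commutes]
    rcases hsm with h6 | h6
    · left
      rw [e1, h6, map_zero]
    · right
      rw [e1, ← cj_ord, hcj]
      exact h6
  have hζr : w.Reg (algebraMap k L ζ) := w.reg_const ζ
  have h7 : w.red (σ θ - algebraMap K L s) = 0 := red_of_sm zero_lt_one hsm2
  rw [hσ, w.red_sub (w.reg_mul hζr hηr) hsL, w.red_mul hζr hηr] at h7
  have h8 : w.red (algebraMap K L s) = w.red θ := by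
    rw [w.red_sub hηr hsL] at h5
    exact (sub_eq_zero.1 h5).symm
  rw [h8, ← w.algebraMap_RF] at h7
  have h9 : (algebraMap k w.RF ζ - 1) * w.red θ = 0 := by linear_combination h7
  rcases mul_eq_zero.1 h9 with h10 | h10
  · apply hζ
    apply (algebraMap k w.RF).injective
    rw [map_one]
    exact sub_eq_zero.1 h10
  · exact w.red_ne_zero hθ0 hθo h10

end kum

section cov

variable {k : Type} [Field k]

/-- the field `k(t)` over `k(t)` by means of `Φ` -/
def Cov (Φ : RatFunc k →ₐ[k] RatFunc k) : Type := RatFunc k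

variable {Φ : RatFunc k →ₐ[k] RatFunc k}

noncomputable instance : Field (Cov Φ) := inferInstanceAs (Field (RatFunc k))
noncomputable instance : Algebra k (Cov Φ) := inferInstanceAs (Algebra k (RatFunc k))
noncomputable instance : Algebra (RatFunc k) (Cov Φ) :=
  (show RatFunc k →+* Cov Φ from Φ.toRingHom).toAlgebra
instance : IsScalarTower k (RatFunc k) (Cov Φ) :=
  IsScalarTower.of_algebraMap_eq fun c => (Φ.commutes c).symm

noncomputable instance [Finite k] : FF.IsFF k (Cov Φ) :=
  inferInstanceAs (FF.IsFF k (RatFunc k))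

theorem cov_map (x : RatFunc k) : algebraMap (RatFunc k) (Cov Φ) x = Φ x := rfl

/-- the generator -/
noncomputable def gn (Φ : RatFunc k →ₐ[k] RatFunc k) : Cov Φ := (RatFunc.X : RatFunc k)

theorem adjoin_gn : IntermediateField.adjoin (RatFunc k) {gn Φ} = ⊤ := by
  rw [eq_top_iff]
  rintro x -
  have hp : ∀ p : k[X], (show Cov Φ from (algebraMap k[X] (RatFunc k) p : RatFunc k)) ∈
      IntermediateField.adjoin (RatFunc k) {gn Φ} := by
    intro p
    have e : (show Cov Φ from (algebraMap k[X] (RatFunc k) p : RatFunc k)) =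
        aeval (gn Φ) p := by
      have e1 : algebraMap k[X] (RatFunc k) p = aeval (RatFunc.X : RatFunc k) p := by
        rw [← RatFunc.algebraMap_X, aeval_algebraMap_apply, aeval_X_left_apply]
      exact e1
    rw [e, Polynomial.aeval_def, Polynomial.eval₂_eq_sum, Polynomial.sum]
    apply sum_mem
    intro n _
    apply mul_mem
    · have e2 : algebraMap k (Cov Φ) (p.coeff n) =
          algebraMap (RatFunc k) (Cov Φ) (algebraMap k (RatFunc k) (p.coeff n)) :=
        IsScalarTower.algebraMap_apply _ _ _ _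
      rw [e2]
      exact IntermediateField.algebraMap_mem _ _
    · exact pow_mem (IntermediateField.mem_adjoin_simple_self _ _) n
  have hx : x = (show Cov Φ from (algebraMap k[X] (RatFunc k) (RatFunc.num (K := k) x) :
      RatFunc k)) / (show Cov Φ from (algebraMap k[X] (RatFunc k) (RatFunc.denom (K := k) x) :
      RatFunc k)) := (RatFunc.num_div_denom (K := k) x).symm
  rw [hx]
  exact div_mem (hp _) (hp _)

end cov

end Pool.Agent.R427.TW
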