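import Pool.Agent.R427.TW4

/-!
The tower `t ↦ t ^ l` and quadratic characters.
-/

set_option autoImplicit false
set_option linter.all false
set_option maxHeartbeats 4000000

open FF Module Polynomial

namespace Pool.Agent.R427.TW

open Pool.Agent.W343.BSD Pool.Agent.H123R3.ZT Pool.Agent.W309.RF Pool.Agent.H525R3.FFp
open Pool.Agent.TH639.B3
open Pool.Agent.W313.Gr

section gal

variable {k : Type} [Field k] [Finite k] {l : ℕ}

theorem X_ne' : (RatFunc.X : RatFunc k) ≠ 0 := RatFunc.X_ne_zero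

theorem not_pow (hl : 2 ≤ l) (b : RatFunc k) : (RatFunc.X : RatFunc k) ≠ b ^ l := by
  intro h
  have h1 := congrArg (infty k).ord h
  rw [Place.ord_pow, inf_X infty_X] at h1
  have h2 : (l : ℤ) ∣ 1 := ⟨-(infty k).ord b, by linear_combination -h1⟩
  have h3 := Int.le_of_dvd one_pos h2
  have : (2 : ℤ) ≤ l := by exact_mod_cast hl
  omega

/-- the Galois covering `t ↦ t ^ l` -/
theorem kum_data (hl : l.Prime) {ζ : k} (hζ : IsPrimitiveRoot ζ l)
    {Φ : RatFunc k →ₐ[k] RatFunc k} (hΦ : Φ RatFunc.X = RatFunc.X ^ l) :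
    FiniteDimensional (RatFunc k) (Cov Φ) ∧ IsGalois (RatFunc k) (Cov Φ) ∧
      finrank (RatFunc k) (Cov Φ) = l ∧
      ∃ (z : k) (σ : Cov Φ ≃ₐ[RatFunc k] Cov Φ), z ≠ 1 ∧ σ (gn Φ) = algebraMap k (Cov Φ) z * gn Φ := by
  have hθ : gn Φ ^ l = algebraMap (RatFunc k) (Cov Φ) RatFunc.X := by
    rw [cov_map, hΦ]; rfl
  have htop := adjoin_gn (Φ := Φ)
  have hirr : Irreducible (X ^ l - C (RatFunc.X : RatFunc k)) :=
    X_pow_sub_C_irreducible_of_prime hl fun b hb => not_pow hl.two_le b hb.symm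
  have hroot : aeval (gn Φ) (X ^ l - C (RatFunc.X : RatFunc k)) = 0 := by
    rw [map_sub, map_pow, aeval_X, aeval_C, hθ, sub_self]
  have hint : IsIntegral (RatFunc k) (gn Φ) :=
    ⟨X ^ l - C RatFunc.X, monic_X_pow_sub_C _ hl.ne_zero, hroot⟩
  have hmin : X ^ l - C RatFunc.X = minpoly (RatFunc k) (gn Φ) :=
    minpoly.eq_of_irreducible_of_monic hirr hroot (monic_X_pow_sub_C _ hl.ne_zero)
  have hfd1 := IntermediateField.adjoin.finiteDimensional hint
  have hfr1 := IntermediateField.adjoin.finrank hint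
  rw [← hmin, natDegree_X_pow_sub_C] at hfr1
  have hfr : finrank (RatFunc k) (Cov Φ) = l := by
    rw [← hfr1, htop]
    exact (IntermediateField.finrank_top').symm
  have hfd : FiniteDimensional (RatFunc k) (Cov Φ) :=
    Module.finite_of_finrank_pos (by rw [hfr]; exact hl.pos)
  have hζK : IsPrimitiveRoot (algebraMap k (RatFunc k) ζ) l :=
    hζ.map_of_injective (algebraMap k (RatFunc k)).injective
  have hprim : (primitiveRoots l (RatFunc k)).Nonempty :=
    ⟨_, (mem_primitiveRoots hl.pos).2 hζK⟩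
  have hprim' : (primitiveRoots (finrank (RatFunc k) (Cov Φ)) (RatFunc k)).Nonempty := by
    rw [hfr]; exact hprim
  have hsplit := isSplittingField_X_pow_sub_C_of_root_adjoin_eq_top hprim'
    (a := (RatFunc.X : RatFunc k)) (α := gn Φ) (by rw [hfr]; exact hθ) htop
  rw [hfr] at hsplit
  have hgal : IsGalois (RatFunc k) (Cov Φ) :=
    isGalois_of_isSplittingField_X_pow_sub_C hprim hirr (Cov Φ)
  refine ⟨hfd, hgal, hfr, ?_⟩
  have h1 : gn Φ ∉ (algebraMap (RatFunc k) (Cov Φ)).range := by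
    rintro ⟨s, hs⟩
    apply not_pow hl.two_le s
    apply (algebraMap (RatFunc k) (Cov Φ)).injective
    rw [map_pow, hs, hθ]
  have h2 : ∃ σ : Cov Φ ≃ₐ[RatFunc k] Cov Φ, σ (gn Φ) ≠ gn Φ := by
    by_contra h
    push Not at h
    exact h1 ((IsGalois.mem_range_algebraMap_iff_fixed _).2 h)
  obtain ⟨σ, hσ⟩ := h2
  have hg0 : gn Φ ≠ 0 := by
    intro h
    rw [h, zero_pow hl.ne_zero] at hθ
    exact X_ne' ((algebraMap (RatFunc k) (Cov Φ)).injective (by rw [← hθ, map_zero]))
  have h3 : (σ (gn Φ) / gn Φ) ^ l = 1 := by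
    rw [div_pow, ← map_pow, hθ, AlgEquiv.commutes, div_self]
    rw [← hθ]
    exact pow_ne_zero _ hg0
  have hζL : IsPrimitiveRoot (algebraMap k (Cov Φ) ζ) l :=
    hζ.map_of_injective (algebraMap k (Cov Φ)).injective
  haveI : NeZero l := ⟨hl.ne_zero⟩
  obtain ⟨i, -, hi⟩ := hζL.eq_pow_of_pow_eq_one h3
  refine ⟨ζ ^ i, σ, ?_, ?_⟩
  · intro h4
    apply hσ
    rw [← map_pow, h4, map_one] at hi
    have h5 := (div_eq_iff hg0).1 hi.symm
    rw [one_mul] at h5
    exact h5
  · rw [map_pow, hi, div_mul_cancel₀ _ hg0]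

/-- the numerator of the zeta function of `k(t, √D)`, modulo `l`, does not vanish at one -/
def NR (l : ℕ) (D : RatFunc k) : Prop :=
  ∃ Q : (ZMod l)[X], Q ≠ 0 ∧ Q.eval 1 ≠ 0 ∧
    (Q : PowerSeries (ZMod l)) * eulerProd (fun v : Place k (RatFunc k) => v.deg)
      (fun v => (chF l (fun v => chi v D) v : PowerSeries (ZMod l))) = 1

/-- one step in the tower -/
theorem nr_step [hlf : Fact l.Prime] (hlo : Odd l) (h6 : (6 : k) ≠ 0) {ζ : k}
    (hζ : IsPrimitiveRoot ζ l) {Φ : RatFunc k →ₐ[k] RatFunc k}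
    (hΦ : Φ RatFunc.X = RatFunc.X ^ l) {D : RatFunc k} (hD : D ≠ 0) (h : NR l D)
    (h0 : ∀ v : Place k (RatFunc k), v.ord RatFunc.X ≠ 0 → chi v D ≠ 1) : NR l (Φ D) := by
  classical
  have hl := hlf.out
  obtain ⟨Q, hQ0, hQ1, hQ⟩ := h
  obtain ⟨hfd, hgal, hfr, z, σ, hz, hσ⟩ := kum_data hl hζ hΦ
  have hex := fun v : Place k (RatFunc k) => exists_galoisFiber (L := Cov Φ) v
  choose S e f G using hex
  have hθ : gn Φ ^ l = algebraMap (RatFunc k) (Cov Φ) RatFunc.X := by
    rw [cov_map, hΦ]; rfl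
  have hfin : {v : Place k (RatFunc k) | e v ≠ 1}.Finite := by
    refine (finite_support (k := k) (RatFunc.X : RatFunc k)).subset ?_
    intro v hv
    show v.ord RatFunc.X ≠ 0
    intro h1
    exact hv (kum_unram hl (G v) hfr X_ne' hθ hz hσ h1)
  set B : Finset (Place k (RatFunc k)) := hfin.toFinset with hB
  have hBm : ∀ v, e v = 1 ↔ v ∉ B := by
    intro v
    rw [hB, Set.Finite.mem_toFinset, Set.mem_setOf_eq, not_not]
  have hrel : (Q : PowerSeries (ZMod l)) * eulerProd (fun v : Place k (RatFunc k) => v.deg)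
      (fun v => (chF l (fun v => chi v D) v : PowerSeries (ZMod l))) =
      ((1 : (ZMod l)[X]) : PowerSeries (ZMod l)) := by
    rw [hQ, Polynomial.coe_one]
  have key := chi_tower (L := Cov Φ) hlo h6 hfr hD G B hBm hrel
  rw [one_pow, Polynomial.coe_one] at key
  have hB1 : ∀ v ∈ B, (chF l (fun v => chi v D) v).eval 1 ≠ 0 := by
    intro v hv
    have h1 : v.ord RatFunc.X ≠ 0 := by
      intro h1
      exact (hBm v).1 (kum_unram hl (G v) hfr X_ne' hθ hz hσ h1) hv
    have h2 := h0 v h1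
    unfold chF
    rw [eval_sub, eval_mul, eval_pow, eval_X, eval_one, eval_C, one_pow, mul_one]
    show 1 - ((chi v D : ℤ) : ZMod l) ≠ 0
    rcases chi_vals v D with h3 | h3 | h3
    · rw [h3, Int.cast_zero, sub_zero]; exact one_ne_zero
    · exact absurd h3 h2
    · rw [h3, Int.cast_neg, Int.cast_one, sub_neg_eq_add]
      intro h4
      have h5 : ((2 : ℕ) : ZMod l) = 0 := by
        push_cast
        linear_combination h4
      rw [ZMod.natCast_eq_zero_iff] at h5
      have h6 := Nat.le_of_dvd (by norm_num) h5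
      have h7 := hl.two_le
      have h8 : l = 2 := by omega
      rw [h8] at hlo
      exact absurd hlo (by decide)
  have hQe : (Q ^ l * ∏ v ∈ B, (chF l (fun v => chi v D) v) ^ (l - 1)).eval 1 ≠ 0 := by
    rw [eval_mul, eval_pow, eval_prod]
    refine mul_ne_zero (pow_ne_zero _ hQ1) (Finset.prod_ne_zero_iff.2 fun v hv => ?_)
    rw [eval_pow]
    exact pow_ne_zero _ (hB1 v hv)
  refine ⟨_, ?_, hQe, key⟩
  intro h1
  rw [h1, eval_zero] at hQe
  exact hQe rfl

theorem lift_A {Φ : RatFunc k →ₐ[k] RatFunc k} {m : k[X]} (hΦ : Φ RatFunc.X = A m) (p : k[X]) :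
    Φ (A p) = A (p.comp m) := by
  have e : A p = aeval (RatFunc.X : RatFunc k) p := by
    show algebraMap k[X] (RatFunc k) p = _
    rw [← RatFunc.algebraMap_X, aeval_algebraMap_apply, aeval_X_left_apply]
  rw [e, ← Polynomial.aeval_algHom_apply, hΦ]
  show aeval (algebraMap k[X] (RatFunc k) m) p = algebraMap k[X] (RatFunc k) (p.comp m)
  rw [aeval_algebraMap_apply]
  rfl

/-- the base of the tower -/
theorem nr_base [Fact l.Prime] (h6 : (6 : k) ≠ 0) {c : k} (hc : c ≠ 0) (a : k) :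
    NR l (A (C c * X + C a)) := by
  have h2 : (2 : k) ≠ 0 := by
    intro h; apply h6
    have : (6 : k) = 2 * 3 := by norm_num
    rw [this, h, zero_mul]
  have hdeg : (C c⁻¹ * (X ^ 2 - C a) : k[X]).natDegree = 2 := by
    rw [natDegree_C_mul (inv_ne_zero hc), natDegree_X_pow_sub_C]
  have htr : Transcendental k (A (C c⁻¹ * (X ^ 2 - C a) : k[X])) := by
    intro halg
    obtain ⟨b, hb⟩ := const_rat _ halg
    have h1 : C b = (C c⁻¹ * (X ^ 2 - C a) : k[X]) := RatFunc.algebraMap_injective k hb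
    rw [← h1, natDegree_C] at hdeg
    norm_num at hdeg
  obtain ⟨Φ, hΦ⟩ := Pool.Agent.TH180.R4.exists_lift htr
  have hp := fun p => lift_A hΦ p
  set u : RatFunc k := A (C c * X + C a) with hu
  have hd1 : (C c * X + C a : k[X]).natDegree = 1 := natDegree_linear hc
  have hne : (C c * X + C a : k[X]) ≠ 0 := by
    intro h
    rw [h, natDegree_zero] at hd1
    norm_num at hd1
  have hu0 : u ≠ 0 := A_ne hne
  have hθ : gn Φ ^ 2 = algebraMap (RatFunc k) (Cov Φ) u := by
    rw [cov_map, hu, hp]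
    have e : (C c * X + C a : k[X]).comp (C c⁻¹ * (X ^ 2 - C a)) = X ^ 2 := by
      rw [add_comp, mul_comp, C_comp, C_comp, X_comp, ← mul_assoc, ← C_mul, mul_inv_cancel₀ hc,
        C_1, one_mul, sub_add_cancel]
    rw [e]
    show (RatFunc.X : RatFunc k) ^ 2 = algebraMap k[X] (RatFunc k) (X ^ 2)
    rw [map_pow, RatFunc.algebraMap_X]
    rfl
  have hns : ∀ s : RatFunc k, u ≠ s ^ 2 := by
    intro s h
    have h1 := congrArg (infty k).ord h
    rw [Place.ord_pow, hu, inf_ord' infty_X hne, hd1] at h1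
    push_cast at h1
    omega
  have h2K : (2 : RatFunc k) ≠ 0 := by
    have : algebraMap k (RatFunc k) 2 ≠ 0 := by simpa using h2
    rwa [map_ofNat] at this
  obtain ⟨q1, q2, q3⟩ := quad_data h2K hθ hns adjoin_gn
  have hz : IsZetaNumRel k (RatFunc k) 1 := (S.isZetaNum_iff 1).1 isZetaNum_rat
  have hz' : IsZetaNumRel k (Cov Φ) 1 := hz
  have hrel := zeta_rel h6 q3 hu0 hθ hns hz hz' constDeg_rat constDeg_rat
  have h3 := rel_mod (l := l) hrel
  rw [Polynomial.map_one, Polynomial.coe_one] at h3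
  refine ⟨1, one_ne_zero, by rw [eval_one]; exact one_ne_zero, ?_⟩
  rw [Polynomial.coe_one]
  exact h3

end gal

end Pool.Agent.R427.TW
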