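import Pool.Agent.R427.TW6
import Pool.Agent.R427.FT8

/-!
The towers: explicit families.
-/

set_option autoImplicit false
set_option linter.all false
set_option maxHeartbeats 4000000

open FF Module Polynomial
open scoped Classical

namespace Pool.Agent.R427.TW

open Pool.Agent.W343.BSD Pool.Agent.H123R3.ZT Pool.Agent.W309.RF Pool.Agent.H525R3.FFp
open Pool.Agent.TH639.B3
open Pool.Agent.R427.FT (fA fB)

section beta

variable {k : Type} [Field k] [Finite k]

/-- the two nodes -/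
theorem exists_beta (hd : 5 ∣ Nat.card k - 1) : ∃ β β' : k,
    (X ^ 2 - 11 * X - 1 : k[X]) = (X - C β) * (X - C β') ∧ β * β' = -1 := by
  obtain ⟨ζ, hζ⟩ := exists_prim Nat.prime_five hd
  have h0 : ζ ^ 4 + ζ ^ 3 + ζ ^ 2 + ζ + 1 = 0 := by
    have h1 : ζ ^ 5 = 1 := hζ.pow_eq_one
    have h2 : ζ ≠ 1 := hζ.ne_one (by norm_num)
    have h3 : (ζ - 1) * (ζ ^ 4 + ζ ^ 3 + ζ ^ 2 + ζ + 1) = 0 := by linear_combination h1
    exact (mul_eq_zero.1 h3).resolve_left (sub_ne_zero.2 h2)
  have h1 : ζ ^ 5 = 1 := hζ.pow_eq_one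
  set s : k := ζ + ζ ^ 4 with hs
  have hs2 : s ^ 2 + s - 1 = 0 := by
    rw [hs]
    linear_combination h0 + (ζ ^ 3 + 2) * h1
  have e1 : (8 + 5 * s) * (3 - 5 * s) = -1 := by linear_combination (-25) * hs2
  refine ⟨8 + 5 * s, 3 - 5 * s, ?_, e1⟩
  have e2 : (X - C (8 + 5 * s)) * (X - C (3 - 5 * s)) =
      X ^ 2 - 11 * X + C ((8 + 5 * s) * (3 - 5 * s)) := by
    simp only [C_mul, C_add, C_sub, map_ofNat]
    ring
  rw [e2, e1, C_neg, C_1]
  ring

/-- the curve `E_t` has no split place -/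
theorem no_split (h2 : (2 : k) ≠ 0) (h3 : (3 : k) ≠ 0) (h5 : (5 : k) ≠ 0)
    (hd : 5 ∣ Nat.card k - 1) {D : k[X]} (hD : Odd D.natDegree) (h0 : ¬ IsSquare (D.eval 0))
    (hβ : ∀ β : k, β ^ 2 - 11 * β - 1 = 0 → ¬ IsSquare (D.eval β)) (v : Place k (RatFunc k)) :
    splitW 5 v (A D ^ 2 * fA RatFunc.X) (A D ^ 3 * fB RatFunc.X) = 0 := by
  have hD0 : D ≠ 0 := by
    rintro rfl
    rw [natDegree_zero] at hD
    exact absurd hD (by decide)
  have htr : Transcendental k (RatFunc.X : RatFunc k) := RatFunc.transcendental_X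
  obtain ⟨g0, g1, hΔ⟩ := FT.ne_facts h2 h3 htr
  unfold splitW
  rw [if_neg]
  intro h
  rcases split_iff h2 h3 h5 g0 (A_ne hD0) hΔ h with ⟨e1, e2⟩ | ⟨e1, e2, e3, e4⟩
  · exact chi_zeroinf hD h0 v e1 e2
  · obtain ⟨β, β', hf, -⟩ := exists_beta hd
    have e5 : (RatFunc.X ^ 2 - 11 * RatFunc.X - 1 : RatFunc k) = A (X - C β) * A (X - C β') := by
      have : (RatFunc.X ^ 2 - 11 * RatFunc.X - 1 : RatFunc k) = A (X ^ 2 - 11 * X - 1) := by
        show _ = algebraMap k[X] (RatFunc k) (X ^ 2 - 11 * X - 1)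
        rw [map_sub, map_sub, map_mul, map_pow, map_one, map_ofNat, RatFunc.algebraMap_X]
      rw [this, hf]
      exact map_mul (algebraMap k[X] (RatFunc k)) _ _
    rw [e5, v.ord_mul (A_ne (X_sub_C_ne_zero β)) (A_ne (X_sub_C_ne_zero β'))] at e2
    have hX : 0 ≤ v.ord RatFunc.X := e1.ge
    have hroot : ∀ b : k, b = β ∨ b = β' → b ^ 2 - 11 * b - 1 = 0 := by
      intro b hb
      have h6 := congrArg (eval b) hf
      rw [eval_mul, eval_sub, eval_sub, eval_sub, eval_sub, eval_mul, eval_pow, eval_X, eval_one,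
        eval_C, eval_C, eval_ofNat] at h6
      rw [h6]
      rcases hb with rfl | rfl
      · rw [sub_self, zero_mul]
      · rw [sub_self, mul_zero]
    have hcase : ∃ b : k, (b = β ∨ b = β') ∧ 0 < v.ord (A (X - C b)) := by
      by_contra hcon
      push Not at hcon
      have h7 := hcon β (Or.inl rfl)
      have h8 := hcon β' (Or.inr rfl)
      omega
    obtain ⟨b, hb, hvb⟩ := hcase
    obtain ⟨h9, h10⟩ := chi_at hX hvb (hβ b (hroot b hb))
    rw [h9, SC.card_Res v, S.deg_eq, h10, pow_one] at e4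
    have hpos : 1 ≤ Nat.card k := Nat.card_pos
    obtain ⟨m, hm⟩ := hd
    have h11 : Nat.card k = 5 * m + 1 := by omega
    rw [h11] at e4
    push_cast at e4
    omega

/-- the parameters -/
theorem exists_par (h2 : (2 : k) ≠ 0) (hk : 10 ≤ Nat.card k) {ρ ρ' : k} (hρ : ρ ≠ 0) (hρ' : ρ' ≠ 0)
    {a : k} (ha : ¬ IsSquare a) :
    ∃ c : k, c ≠ 0 ∧ ¬ IsSquare (c * ρ + a) ∧ ¬ IsSquare (c * ρ' + a) := by
  set F1 : k[X] := C ρ * X + C (-ρ') with hF1
  set F2 : k[X] := X + C 0 with hF2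
  set F3 : k[X] := X + C (-1) with hF3
  set F4 : k[X] := C (-ρ) * X ^ 2 + C (2 * ρ) * X + C (-ρ') with hF4
  set F5 : k[X] := C ρ * X ^ 2 + C (-2 * ρ') * X + C ρ' with hF5
  set F6 : k[X] := C (-ρ) * X ^ 2 + C 0 * X + C ρ' with hF6
  have n1 : F1 ≠ 0 := by
    intro h
    have := congrArg (eval 0) h
    rw [hF1] at this
    simp at this
    exact hρ' this
  have n2 : F2 ≠ 0 := by
    rw [hF2]
    intro h
    have := congrArg (eval 1) h
    simp at this
  have n3 : F3 ≠ 0 := by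
    rw [hF3]
    intro h
    have := congrArg (eval 0) h
    simp at this
  have n4 : F4 ≠ 0 := by
    rw [hF4]
    intro h
    have := congrArg (eval 0) h
    simp at this
    exact hρ' this
  have n5 : F5 ≠ 0 := by
    rw [hF5]
    intro h
    have := congrArg (eval 0) h
    simp at this
    exact hρ' this
  have n6 : F6 ≠ 0 := by
    rw [hF6]
    intro h
    have := congrArg (eval 0) h
    simp at this
    exact hρ' this
  set F : k[X] := F1 * F2 * F3 * F4 * F5 * F6 with hF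
  have hF0 : F ≠ 0 := mul_ne_zero (mul_ne_zero (mul_ne_zero (mul_ne_zero (mul_ne_zero n1 n2) n3) n4)
    n5) n6
  have hdeg : F.natDegree ≤ 9 := by
    have d1 : F1.natDegree ≤ 1 := natDegree_linear_le
    have d2 : F2.natDegree ≤ 1 := by rw [hF2, natDegree_X_add_C]
    have d3 : F3.natDegree ≤ 1 := by rw [hF3, natDegree_X_add_C]
    have d4 : F4.natDegree ≤ 2 := natDegree_quadratic_le
    have d5 : F5.natDegree ≤ 2 := natDegree_quadratic_le
    have d6 : F6.natDegree ≤ 2 := natDegree_quadratic_le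
    calc F.natDegree ≤ 1 + 1 + 1 + 2 + 2 + 2 :=
      natDegree_mul_le_of_le (natDegree_mul_le_of_le (natDegree_mul_le_of_le
        (natDegree_mul_le_of_le (natDegree_mul_le_of_le d1 d2) d3) d4) d5) d6
    _ = 9 := by norm_num
  obtain ⟨m, hm⟩ : ∃ m : k, F.eval m ≠ 0 := by
    by_contra hcon
    push Not at hcon
    letI : Fintype k := Fintype.ofFinite k
    have h1 : (Finset.univ : Finset k).card ≤ F.natDegree :=
      Polynomial.card_le_degree_of_subset_roots (Z := Finset.univ) (by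
        intro z _
        exact (mem_roots hF0).2 (hcon z))
    rw [Finset.card_univ, ← Nat.card_eq_fintype_card] at h1
    omega
  rw [hF] at hm
  simp only [eval_mul] at hm
  have m6 := right_ne_zero_of_mul hm
  have m5 := right_ne_zero_of_mul (left_ne_zero_of_mul hm)
  have m4 := right_ne_zero_of_mul (left_ne_zero_of_mul (left_ne_zero_of_mul hm))
  have m3 := right_ne_zero_of_mul (left_ne_zero_of_mul (left_ne_zero_of_mul
    (left_ne_zero_of_mul hm)))
  have m2 := right_ne_zero_of_mul (left_ne_zero_of_mul (left_ne_zero_of_mul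
    (left_ne_zero_of_mul (left_ne_zero_of_mul hm))))
  have m1 := left_ne_zero_of_mul (left_ne_zero_of_mul (left_ne_zero_of_mul
    (left_ne_zero_of_mul (left_ne_zero_of_mul hm))))
  rw [hF1] at m1
  rw [hF2] at m2
  rw [hF3] at m3
  rw [hF4] at m4
  rw [hF5] at m5
  rw [hF6] at m6
  simp only [eval_add, eval_mul, eval_C, eval_X, eval_pow] at m1 m2 m3 m4 m5 m6
  set d : k := -ρ * m ^ 2 + 0 * m + ρ' with hd
  set x : k := (-ρ * m ^ 2 + 2 * ρ * m + -ρ') / d with hx
  set y : k := (ρ * m ^ 2 + -2 * ρ' * m + ρ') / d with hy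
  have hx0 : x ≠ 0 := div_ne_zero m4 m6
  have hy0 : y ≠ 0 := div_ne_zero m5 m6
  set r : k := 4 * (ρ * m + -ρ') * m * (1 - m) / d ^ 2 with hr
  have h4 : (4 : k) ≠ 0 := by
    have : (4 : k) = 2 * 2 := by norm_num
    rw [this]
    exact mul_ne_zero h2 h2
  have m2' : m ≠ 0 := by simpa using m2
  have m3' : (1 - m) ≠ 0 := by
    intro h
    apply m3
    linear_combination -h
  have hr0 : r ≠ 0 := div_ne_zero (mul_ne_zero (mul_ne_zero (mul_ne_zero h4 m1) m2') m3')
    (pow_ne_zero 2 m6)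
  have ex : 1 + r * ρ = x ^ 2 := by
    rw [hr, hx]
    field_simp
    rw [hd]
    ring
  have ey : 1 + r * ρ' = y ^ 2 := by
    rw [hr, hy]
    field_simp
    rw [hd]
    ring
  have ha0 : a ≠ 0 := by
    rintro rfl
    exact ha IsSquare.zero
  have hns : ∀ z : k, z ≠ 0 → ¬ IsSquare (a * z ^ 2) := by
    rintro z hz ⟨s, hs⟩
    apply ha
    refine ⟨s / z, ?_⟩
    field_simp
    linear_combination hs
  refine ⟨a * r, mul_ne_zero ha0 hr0, ?_, ?_⟩
  · have e : a * r * ρ + a = a * x ^ 2 := by rw [← ex]; ring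
    rw [e]
    exact hns x hx0
  · have e : a * r * ρ' + a = a * y ^ 2 := by rw [← ey]; ring
    rw [e]
    exact hns y hy0

theorem comp_lin (c a : k) (n : ℕ) : (C c * X + C a : k[X]).comp (X ^ 5 ^ n) =
    C c * X ^ 5 ^ n + C a := by
  rw [add_comp, mul_comp, C_comp, C_comp, X_comp]

theorem five_odd : Odd 5 := by decide

/-- the explicit tower -/
theorem exists_tower (h2 : (2 : k) ≠ 0) (h3 : (3 : k) ≠ 0) (h5 : (5 : k) ≠ 0)
    (hk : 10 ≤ Nat.card k) (hd : 5 ∣ Nat.card k - 1) {a : k} (ha : ¬ IsSquare a) (n : ℕ) :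
    ∃ c : k, c ≠ 0 ∧ ∀ m : ℕ,
      S.VanishesTo k (A (C c * X ^ 5 ^ n + C a) ^ 2 * fA (RatFunc.X : RatFunc k))
        (A (C c * X ^ 5 ^ n + C a) ^ 3 * fB RatFunc.X) m → m = 0 := by
  have : Fact (Nat.Prime 5) := ⟨Nat.prime_five⟩
  have h6 : (6 : k) ≠ 0 := by
    have : (6 : k) = 2 * 3 := by norm_num
    rw [this]
    exact mul_ne_zero h2 h3
  obtain ⟨β, β', hf, hββ⟩ := exists_beta hd
  have hb0 : β ≠ 0 := by
    rintro rfl
    rw [zero_mul] at hββ
    exact one_ne_zero (α := k) (by linear_combination hββ)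
  have hb0' : β' ≠ 0 := by
    rintro rfl
    rw [mul_zero] at hββ
    exact one_ne_zero (α := k) (by linear_combination hββ)
  obtain ⟨c, hc, hs, hs'⟩ := exists_par h2 hk (pow_ne_zero (5 ^ n) hb0)
    (pow_ne_zero (5 ^ n) hb0') ha
  refine ⟨c, hc, fun m hm => ?_⟩
  have hd1 : (C c * X + C a : k[X]).natDegree = 1 := natDegree_linear hc
  have h0 : ¬ IsSquare ((C c * X + C a : k[X]).eval 0) := by
    rw [eval_add, eval_mul, eval_C, eval_X, eval_C, mul_zero, zero_add]
    exact ha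
  have hnr := nr_tower five_odd h6 hd (D := C c * X + C a) (by rw [hd1]; exact odd_one) h0
    (nr_base h6 hc a) n
  have hodd := comp_odd five_odd (D := C c * X + C a) (by rw [hd1]; exact odd_one) n
  have h0' : ¬ IsSquare (((C c * X + C a : k[X]).comp (X ^ 5 ^ n)).eval 0) := by
    rw [comp_zero (by norm_num)]
    exact h0
  rw [comp_lin] at hnr hodd h0'
  have hD0 : (C c * X ^ 5 ^ n + C a : k[X]) ≠ 0 := by
    intro h
    rw [h, natDegree_zero] at hodd
    exact absurd hodd (by decide)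
  have htr : Transcendental k (RatFunc.X : RatFunc k) := RatFunc.transcendental_X
  obtain ⟨g0, g1, hΔ⟩ := FT.ne_facts h2 h3 htr
  have h7 := twist_nr h2 h3 h5 hd g0 g1 (A_ne hD0) hnr hm
  rw [finsum_eq_zero_of_forall_eq_zero] at h7
  · exact Nat.le_zero.1 h7
  intro v
  apply no_split h2 h3 h5 hd hodd h0'
  intro b hb
  have hev : (C c * X ^ 5 ^ n + C a : k[X]).eval b = c * b ^ 5 ^ n + a := by
    simp
  rw [hev]
  have h8 : (b - β) * (b - β') = 0 := by
    have h9 := congrArg (eval b) hf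
    rw [eval_mul, eval_sub, eval_sub, eval_sub, eval_sub, eval_mul, eval_pow, eval_X, eval_one,
      eval_C, eval_C, eval_ofNat] at h9
    rw [← h9]
    exact hb
  rcases mul_eq_zero.1 h8 with h9 | h9
  · rw [sub_eq_zero.1 h9]
    exact hs
  · rw [sub_eq_zero.1 h9]
    exact hs'

end beta

section num

/-- the numerator of the zeta function at one -/
theorem eval_one_class {k F : Type} [Field k] [Finite k] [Field F] [Algebra k F] [FF.IsFF k F]
    (hr : constDeg k F = 1) {P : ℤ[X]} (hP : IsZetaNumRel k F P) :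
    P.eval 1 = classNumber k F := by
  obtain ⟨P', h1, h2⟩ := exists_num_rel (k := k) (F := F)
  have h3 : (P : PowerSeries ℤ) = (P' : PowerSeries ℤ) := by
    unfold IsZetaNumRel at hP h1
    rw [hr] at hP h1
    have hE : eulerProd (fun v : Place k F => v.deg)
        (fun v => (1 - PowerSeries.X ^ v.deg : PowerSeries ℤ)) ≠ 0 := by
      intro h0
      rw [h0, mul_zero] at hP
      have h2 := congrArg (PowerSeries.constantCoeff (R := ℤ)) hP
      simp at h2
    exact mul_right_cancel₀ hE (hP.trans h1.symm)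
  rw [Polynomial.coe_injective ℤ h3]
  exact h2

end num

end Pool.Agent.R427.TW
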