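import Pool.Agent.R427.TW7
import Pool.Agent.R427.PC3

/-!
Points on quadratic twists.
-/

set_option autoImplicit false
set_option linter.all false
set_option maxHeartbeats 4000000

open FF Module Polynomial WeierstrassCurve WeierstrassCurve.Affine
open scoped Classical

namespace Pool.Agent.R427.TW

open Pool.Agent.W343.BSD Pool.Agent.H123R3.ZT Pool.Agent.W309.RF Pool.Agent.H525R3.FFp
open Pool.Agent.TH639.B3
open Pool.Agent.W313.Gr (curve rank rank_mono)
open Pool.Agent.R427.FT (fA fB smn no_root A_comp_quad map_fA map_fB disc_zero_iff fA_ne_or)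
open Pool.Agent.R427.PC (indep_of_not_two no_two half_eq delta_ne ord_add_left)

section half

variable {k K : Type} [Field k] [Finite k] [Field K] [Algebra k K] [FF.IsFF k K] {v : Place k K}

/-- the halves of the point on the twist -/
theorem no_half (h2 : (2 : k) ≠ 0) {a b x₀ z : K} (ra : v.Reg a) (rb : v.Reg b) (rx : v.Reg x₀)
    (hΔ : v.red (4 * a ^ 3 + 27 * b ^ 2) ≠ 0) (hodd : Odd (v.ord (x₀ ^ 3 + a * x₀ + b)))
    (hz : (3 * z ^ 2 + a) ^ 2 = 4 * (2 * z + x₀) * (z ^ 3 + a * z + b)) : False := by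
  have h2K : (2 : K) ≠ 0 := by
    have : algebraMap k K 2 ≠ 0 := by simpa using h2
    rwa [map_ofNat] at this
  have o2 : v.ord (2 : K) = 0 := by
    have : (2 : K) = algebraMap k K 2 := by rw [map_ofNat]
    rw [this]
    exact v.ord_const h2
  have h4K : (4 : K) ≠ 0 := by
    have : (4 : K) = 2 * 2 := by norm_num
    rw [this]
    exact mul_ne_zero h2K h2K
  have o4 : v.ord (4 : K) = 0 := by
    have : (4 : K) = 2 * 2 := by norm_num
    rw [this, v.ord_mul h2K h2K, o2]
    norm_num
  have sn : ∀ n : ℕ, Sm v 0 ((n : ℕ) : K) := fun n => sm_reg (reg_nat n)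
  have sa := sm_reg ra
  have sb := sm_reg rb
  have sx := sm_reg rx
  set u : K := x₀ ^ 3 + a * x₀ + b with hu
  have hu0 : u ≠ 0 := by
    intro h
    rw [h, v.ord_zero] at hodd
    exact absurd hodd (by decide)
  have su : Sm v 0 u := by
    have h1 := sm_add v (sm_add v (by
      have := sm_pow sx 3
      rwa [mul_zero] at this) (by
      have := sm_mul v sa sx
      rwa [zero_add] at this)) sb
    exact h1
  have ou : 0 < v.ord u := by
    have h1 := su.resolve_left hu0
    obtain ⟨j, hj⟩ := hodd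
    omega
  -- a contradiction at the place
  have fin : ∀ {f f' : K}, Sm v 0 z → f = z ^ 3 + a * z + b → f' = 3 * z ^ 2 + a → Sm v 1 f →
      Sm v 1 f' → False := by
    intro f f' sz hf hf' s1 s2
    apply hΔ
    apply red_of_sm zero_lt_one
    have e : 4 * a ^ 3 + 27 * b ^ 2 = (-(((18 : ℕ) : K) * (a * z)) + ((27 : ℕ) : K) * b) * f +
        (((6 : ℕ) : K) * (a * z ^ 2) + -(((9 : ℕ) : K) * (b * z)) + ((4 : ℕ) : K) * a ^ 2) * f' := by
      rw [hf, hf']
      push_cast
      ring
    have sp : ∀ {x : K} (n : ℕ), Sm v 0 x → Sm v 0 (x ^ n) := fun n h => by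
      have := sm_pow h n
      rwa [mul_zero] at this
    have sm0 : ∀ {x y : K}, Sm v 0 x → Sm v 0 y → Sm v 0 (x * y) := fun h h' => by
      have := sm_mul v h h'
      rwa [zero_add] at this
    have t1 : Sm v 0 (-(((18 : ℕ) : K) * (a * z)) + ((27 : ℕ) : K) * b) :=
      sm_add v (sm_neg v (smn 18 (sm0 sa sz))) (smn 27 sb)
    have t2 : Sm v 0 (((6 : ℕ) : K) * (a * z ^ 2) + -(((9 : ℕ) : K) * (b * z)) +
        ((4 : ℕ) : K) * a ^ 2) :=
      sm_add v (sm_add v (smn 6 (sm0 sa (sp 2 sz))) (sm_neg v (smn 9 (sm0 sb sz)))) (smn 4 (sp 2 sa))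
    have t3 := sm_mul v t1 s1
    have t4 := sm_mul v t2 s2
    rw [zero_add] at t3 t4
    rw [e]
    exact sm_add v t3 t4
  have hG : (z ^ 2 - 2 * x₀ * z - a - 2 * x₀ ^ 2) ^ 2 = 4 * u * (2 * z + x₀) := by
    rw [hu]
    linear_combination hz
  set w : K := 2 * z + x₀ with hw
  have half_reg : Sm v 0 w → Sm v 0 z := by
    intro sw
    have h1 : Sm v 0 (z * 2) := by
      have e : z * 2 = w + -x₀ := by rw [hw]; ring
      rw [e]
      exact sm_add v sw (sm_neg v sx)
    exact sm_of_mul_unit h1 h2K o2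
  by_cases hw0 : w = 0
  · have sz := half_reg (Or.inl hw0)
    have hf' : 3 * z ^ 2 + a = 0 := by
      rw [hw0, mul_zero, zero_mul] at hz
      exact pow_eq_zero_iff (two_ne_zero) |>.1 hz
    have hf : z ^ 3 + a * z + b = u := by
      have hx : x₀ = -(2 * z) := by
        rw [hw] at hw0
        linear_combination hw0
      rw [hu, hx]
      linear_combination (3 * z) * hf'
    refine fin sz rfl rfl ?_ (Or.inl hf')
    rw [hf]
    exact Or.inr (by omega)
  have hG0 : z ^ 2 - 2 * x₀ * z - a - 2 * x₀ ^ 2 ≠ 0 := by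
    intro h
    rw [h] at hG
    have : 4 * u * w = 0 := by rw [← hG]; ring
    exact mul_ne_zero (mul_ne_zero h4K hu0) hw0 this
  have hGo := congrArg v.ord hG
  rw [v.ord_pow, v.ord_mul (mul_ne_zero h4K hu0) hw0, v.ord_mul h4K hu0, o4, zero_add] at hGo
  push_cast at hGo
  rcases lt_or_ge (v.ord w) 0 with hneg | hpos
  · -- a pole
    have hz0 : z ≠ 0 := by
      intro h
      rw [h] at hw
      have hwx : w = x₀ := by rw [hw]; ring
      rw [hwx] at hneg
      rcases rx with h | h
      · exact hw0 (hwx.trans h)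
      · omega
    have hzo : v.ord z = v.ord w := by
      have e : 2 * z = w + -x₀ := by rw [hw]; ring
      have h1 := ord_add_left (v := v) (f := w) (g := -x₀) hw0 (by
        rcases rx with h | h
        · left; rw [h, neg_zero]
        · right
          rw [v.ord_neg]
          omega)
      have h3 := h1.2
      rw [← e, v.ord_mul h2K hz0, o2, zero_add] at h3
      exact h3
    have hsz : Sm v (v.ord z) z := sm_ord v z
    have hrest : Sm v (v.ord z) (-(((2 : ℕ) : K) * (x₀ * z)) + -a + -(((2 : ℕ) : K) * x₀ ^ 2)) := by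
      have t1 : Sm v (v.ord z) (x₀ * z) := by
        have := sm_mul v sx hsz
        rwa [zero_add] at this
      have t2 : Sm v (v.ord z) (x₀ ^ 2) := by
        have := sm_pow sx 2
        rw [mul_zero] at this
        exact sm_mono v (by omega) this
      exact sm_add v (sm_add v (sm_neg v (smn 2 t1)) (sm_neg v (sm_mono v (by omega) sa)))
        (sm_neg v (smn 2 t2))
    have h1 := ord_add_left (v := v) (f := z ^ 2)
      (g := -(((2 : ℕ) : K) * (x₀ * z)) + -a + -(((2 : ℕ) : K) * x₀ ^ 2)) (pow_ne_zero 2 hz0) (by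
        rcases hrest with h | h
        · exact Or.inl h
        · right
          rw [v.ord_pow]
          push_cast
          push_cast at h
          omega)
    have e : z ^ 2 - 2 * x₀ * z - a - 2 * x₀ ^ 2 =
        z ^ 2 + (-(((2 : ℕ) : K) * (x₀ * z)) + -a + -(((2 : ℕ) : K) * x₀ ^ 2)) := by
      push_cast
      ring
    rw [e, h1.2, v.ord_pow] at hGo
    push_cast at hGo
    omega
  · have sz := half_reg (Or.inr hpos)
    obtain ⟨j, hj⟩ := hodd
    have hw1 : 1 ≤ v.ord w := by omega
    have sf : Sm v 0 (z ^ 3 + a * z + b) := by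
      have h1 := sm_add v (sm_add v (by
        have := sm_pow sz 3
        rwa [mul_zero] at this) (by
        have := sm_mul v sa sz
        rwa [zero_add] at this)) sb
      exact h1
    by_cases hf0 : z ^ 3 + a * z + b = 0
    · have hf' : 3 * z ^ 2 + a = 0 := by
        rw [hf0, mul_zero] at hz
        exact pow_eq_zero_iff (two_ne_zero) |>.1 hz
      exact fin sz rfl rfl (Or.inl hf0) (Or.inl hf')
    have hf'0 : 3 * z ^ 2 + a ≠ 0 := by
      intro h
      rw [h] at hz
      have : 4 * w * (z ^ 3 + a * z + b) = 0 := by rw [← hz]; ring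
      exact mul_ne_zero (mul_ne_zero h4K hw0) hf0 this
    have ho := congrArg v.ord hz
    rw [v.ord_pow, v.ord_mul (mul_ne_zero h4K hw0) hf0, v.ord_mul h4K hw0, o4, zero_add] at ho
    push_cast at ho
    have hfo := sf.resolve_left hf0
    refine fin sz rfl rfl (Or.inr ?_) (Or.inr ?_) <;> omega

/-- a point of infinite order on the twist -/
theorem rank_twist (h2 : (2 : k) ≠ 0) {a b x₀ D r : K} (ra : v.Reg a) (rb : v.Reg b)
    (rx : v.Reg x₀) (hΔ : v.red (4 * a ^ 3 + 27 * b ^ 2) ≠ 0) (hD : D ≠ 0) (hr : r ≠ 0)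
    (hE : x₀ ^ 3 + a * x₀ + b = D * r ^ 2) (hodd : Odd (v.ord D))
    (hno : ∀ e : K, e ^ 3 + a * e + b ≠ 0) : 1 ≤ rank (D ^ 2 * a) (D ^ 3 * b) := by
  have h2K : (2 : K) ≠ 0 := by
    have : algebraMap k K 2 ≠ 0 := by simpa using h2
    rwa [map_ofNat] at this
  have hΔ0 : 4 * a ^ 3 + 27 * b ^ 2 ≠ 0 := by
    intro h
    rw [h, v.red_zero] at hΔ
    exact hΔ rfl
  have hΔ' : 4 * (D ^ 2 * a) ^ 3 + 27 * (D ^ 3 * b) ^ 2 ≠ 0 := by
    rw [twist_disc]
    exact mul_ne_zero (pow_ne_zero 6 hD) hΔ0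
  have hodd' : Odd (v.ord (x₀ ^ 3 + a * x₀ + b)) := by
    rw [hE, v.ord_mul hD (pow_ne_zero 2 hr), v.ord_pow]
    exact hodd.add_even ⟨v.ord r, by push_cast; ring⟩
  have hE' : (curve (D ^ 2 * a) (D ^ 3 * b)).toAffine.Equation (D * x₀) (D ^ 2 * r) := by
    rw [FT.eqn]
    linear_combination (-D ^ 3) * hE
  have hn := (equation_iff_nonsingular_of_Δ_ne_zero (delta_ne h2K hΔ')).1 hE'
  have hno' : ∀ e : K, e ^ 3 + D ^ 2 * a * e + D ^ 3 * b ≠ 0 := by
    intro e he
    apply hno (e / D)
    field_simp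
    linear_combination he
  have hlin := indep_of_not_two (no_two h2K hno') (P := Point.some _ _ hn) (fun Q hQ => by
    obtain ⟨x, hx⟩ := half_eq h2K hn Q hQ
    refine no_half h2 ra rb rx hΔ hodd' (z := x / D) ?_
    field_simp
    linear_combination hx)
  have := hlin.cardinal_le_rank
  rwa [Cardinal.mk_fin, Nat.cast_one] at this

end half

end Pool.Agent.R427.TW
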