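import Pool.Agent.R427.TW8

/-!
The twists of `E_t` by the quadratic polynomials `D_c`.
-/

set_option autoImplicit false
set_option linter.all false
set_option maxHeartbeats 4000000

open FF Module Polynomial WeierstrassCurve WeierstrassCurve.Affine
open scoped Classical

namespace Pool.Agent.R427.TW

open Pool.Agent.W343.BSD Pool.Agent.H123R3.ZT Pool.Agent.W309.RF Pool.Agent.H525R3.FFp
open Pool.Agent.TH639.B3
open Pool.Agent.W313.Gr (curve rank rank_mono)
open Pool.Agent.R427.FT (fA fB smn no_root A_comp_quad map_fA map_fB disc_zero_iff fA_ne_or nRF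
  red_fA red_fB f_disc)
open Pool.Agent.R427.PC (indep_of_not_two no_two half_eq delta_ne ord_add_left)

section defs

variable {k : Type} [Field k]

/-- the quadratic polynomial of the family -/
noncomputable def Dc (c : k) : k[X] :=
  C ((c + 1) ^ 2) * X ^ 2 + C (-(6 * c ^ 2 + 2 * c)) * X + C (4 * c ^ 3 + c ^ 2)

theorem eval_Dc (c b : k) : (Dc c).eval b = (c + 1) ^ 2 * b ^ 2 - (6 * c ^ 2 + 2 * c) * b +
    (4 * c ^ 3 + c ^ 2) := by
  unfold Dc
  simp only [eval_add, eval_mul, eval_C, eval_pow, eval_X]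
  ring

theorem aeval_Dc {K : Type} [Field K] [Algebra k K] (c : k) (b : K) :
    aeval b (Dc c) = (algebraMap k K c + 1) ^ 2 * b ^ 2 -
      (6 * algebraMap k K c ^ 2 + 2 * algebraMap k K c) * b +
      (4 * algebraMap k K c ^ 3 + algebraMap k K c ^ 2) := by
  unfold Dc
  simp only [map_add, map_mul, aeval_C, map_pow, aeval_X, map_neg, map_one, map_ofNat]
  ring

theorem Dc_ne (h2 : (2 : k) ≠ 0) {c : k} (hc : c ≠ 0) : Dc c ≠ 0 ∧ 0 < (Dc c).natDegree := by
  have key : 0 < (Dc c).natDegree := by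
    by_contra h
    push Not at h
    have h0 : (Dc c).natDegree = 0 := Nat.le_zero.1 h
    obtain ⟨e, he⟩ := natDegree_eq_zero.1 h0
    have hv : ∀ b : k, (Dc c).eval b = e := by
      intro b
      rw [← he, eval_C]
    have v0 := hv 0
    have v1 := hv 1
    have v2 := hv (-1)
    rw [eval_Dc] at v0 v1 v2
    have hs : (c + 1) ^ 2 = 0 := by
      have : (2 : k) * (c + 1) ^ 2 = 0 := by linear_combination v1 + v2 - 2 * v0
      exact (mul_eq_zero.1 this).resolve_left h2
    have hc1 : c = -1 := by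
      have := (pow_eq_zero_iff (two_ne_zero)).1 hs
      linear_combination this
    have h1 : (6 * c ^ 2 + 2 * c : k) = 0 := by linear_combination -v1 + v0 + hs
    rw [hc1] at h1
    have h4 : (2 : k) * 2 = 0 := by linear_combination h1
    exact mul_ne_zero h2 h2 h4
  refine ⟨?_, key⟩
  intro h
  rw [h, natDegree_zero] at key
  exact lt_irrefl _ key

end defs

section place

variable {k : Type} [Field k] [Finite k]

/-- a place at which `D_c` has valuation one and `E_t` has good reduction -/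
theorem exists_place (h2 : (2 : k) ≠ 0) (h3 : (3 : k) ≠ 0) {c : k} (hc : c ≠ 0)
    (h4 : 4 * c + 1 ≠ 0) (h7 : c ^ 2 + 7 * c + 1 ≠ 0) (h16 : 16 * c ^ 2 + 12 * c + 1 ≠ 0) :
    ∃ v : Place k (RatFunc k), 0 ≤ v.ord RatFunc.X ∧ v.ord (A (Dc c)) = 1 ∧
      v.red (4 * fA RatFunc.X ^ 3 + 27 * fB RatFunc.X ^ 2) ≠ 0 := by
  obtain ⟨hD0, hdeg⟩ := Dc_ne h2 hc
  have hnu : ¬ IsUnit (Dc c) := fun h => hdeg.ne' (natDegree_eq_zero_of_isUnit h)
  obtain ⟨π0, hπ0, hd0⟩ := WfDvdMonoid.exists_irreducible_factor hnu hD0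
  obtain ⟨v, hv, -, -⟩ := TH180.R4.one_zero' hπ0
  have hX : 0 ≤ v.ord RatFunc.X := by
    by_contra h
    push Not at h
    rw [inf_ord' h hπ0.ne_zero] at hv
    omega
  obtain ⟨π, hmon, hirr, hord, hnn, hdvd, hvdeg⟩ := fin_exists hX
  have hDo : 0 < v.ord (A (Dc c)) := by
    have h1 : π ∣ π0 := (hdvd _ hπ0.ne_zero).1 hv
    exact (hdvd _ hD0).2 (h1.trans hd0)
  have h4k : (4 : k) ≠ 0 := by
    have : (4 : k) = 2 * 2 := by norm_num
    rw [this]
    exact mul_ne_zero h2 h2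
  have h16k : (16 : k) ≠ 0 := by
    have : (16 : k) = 4 * 4 := by norm_num
    rw [this]
    exact mul_ne_zero h4k h4k
  have hrX : v.Reg (RatFunc.X : RatFunc k) := Or.inr hX
  have hredD : v.red (A (Dc c)) = 0 := (v.red_eq_zero_iff (fin_reg hX _)).2 (Or.inr hDo)
  have hAD : A (Dc c) = aeval (RatFunc.X : RatFunc k) (Dc c) := A_aeval _
  set t : v.RF := v.red RatFunc.X with ht
  set κ : v.RF := algebraMap k v.RF c with hκ
  have hD1 : (κ + 1) ^ 2 * t ^ 2 - (6 * κ ^ 2 + 2 * κ) * t + (4 * κ ^ 3 + κ ^ 2) = 0 := by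
    rw [hAD, Pool.Agent.H675R3.ZT.red_aeval v hrX, aeval_Dc] at hredD
    exact hredD
  refine ⟨v, hX, ?_, ?_⟩
  · by_contra hne
    have hge : 2 ≤ v.ord (A (Dc c)) := by omega
    obtain ⟨r, hr⟩ := (hdvd _ hD0).1 hDo
    have hr0 : r ≠ 0 := by
      rintro rfl
      rw [mul_zero] at hr
      exact hD0 hr
    have hAr : A (Dc c) = A π * A r := by
      rw [hr]
      exact map_mul (algebraMap k[X] (RatFunc k)) _ _
    have hro : 0 < v.ord (A r) := by
      rw [hAr, v.ord_mul (A_ne hirr.ne_zero) (A_ne hr0), hord] at hge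
      omega
    obtain ⟨s, hs⟩ := (hdvd _ hr0).1 hro
    have hder : π ∣ derivative (Dc c) := by
      rw [hr, hs, derivative_mul, derivative_mul]
      refine dvd_add ⟨derivative π * s, by ring⟩ (dvd_mul_right _ _)
    have hder' : derivative (Dc c) = C (2 * (c + 1) ^ 2) * X + C (-(6 * c ^ 2 + 2 * c)) := by
      unfold Dc
      simp only [derivative_add, derivative_mul, derivative_C, derivative_X, derivative_X_pow,
        zero_mul, zero_add, mul_one, add_zero, Nat.cast_ofNat]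
      rw [show (2 : ℕ) - 1 = 1 from rfl, pow_one, C_mul (a := 2)]
      ring
    have hred' : v.red (A (derivative (Dc c))) = 0 := by
      by_cases h0 : derivative (Dc c) = 0
      · rw [h0]
        have e : A (0 : k[X]) = 0 := map_zero _
        rw [e, v.red_zero]
      · exact (v.red_eq_zero_iff (fin_reg hX _)).2 (Or.inr ((hdvd _ h0).2 hder))
    have hder2 : 2 * (κ + 1) ^ 2 * t + -(6 * κ ^ 2 + 2 * κ) = 0 := by
      have e : A (derivative (Dc c)) = aeval (RatFunc.X : RatFunc k) (derivative (Dc c)) := A_aeval _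
      rw [e, Pool.Agent.H675R3.ZT.red_aeval v hrX, hder'] at hred'
      simp only [map_add, map_mul, aeval_C, map_pow, aeval_X, map_neg, map_one, map_ofNat] at hred'
      exact hred'
    have hz : (16 : v.RF) * κ ^ 5 = 0 := by
      linear_combination (-(2 * (κ + 1) ^ 2 * t + -(6 * κ ^ 2 + 2 * κ))) * hder2 +
        4 * (κ + 1) ^ 2 * hD1
    have hz' : algebraMap k v.RF (16 * c ^ 5) = 0 := by
      rw [map_mul, map_pow, map_ofNat]
      exact hz
    exact mul_ne_zero h16k (pow_ne_zero 5 hc) ((_root_.map_eq_zero _).1 hz')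
  · have n2 : (2 : v.RF) ≠ 0 := by
      have : algebraMap k v.RF 2 ≠ 0 := by simpa using h2
      rwa [map_ofNat] at this
    have n3 : (3 : v.RF) ≠ 0 := by
      have : algebraMap k v.RF 3 ≠ 0 := by simpa using h3
      rwa [map_ofNat] at this
    obtain ⟨rA, eA⟩ := red_fA (v := v) hrX
    obtain ⟨rB, eB⟩ := red_fB (v := v) hrX
    have e1 : (4 : RatFunc k) = ((4 : ℕ) : RatFunc k) := by norm_num
    have e2 : (27 : RatFunc k) = ((27 : ℕ) : RatFunc k) := by norm_num
    have e3 : v.red (4 * fA RatFunc.X ^ 3 + 27 * fB RatFunc.X ^ 2) =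
        4 * fA t ^ 3 + 27 * fB t ^ 2 := by
      rw [e1, e2, v.red_add (v.reg_mul (reg_nat 4) (reg_pow rA 3))
        (v.reg_mul (reg_nat 27) (reg_pow rB 2)), v.red_mul (reg_nat 4) (reg_pow rA 3),
        v.red_mul (reg_nat 27) (reg_pow rB 2), v.red_pow rA, v.red_pow rB, red_nat, red_nat, eA, eB]
      norm_num
      rw [ht]
    rw [e3]
    intro h
    rcases (disc_zero_iff n2 n3 t).1 h with h | h
    · rw [h] at hD1
      have hz : algebraMap k v.RF (c ^ 2 * (4 * c + 1)) = 0 := by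
        simp only [map_add, map_mul, map_pow, map_one, map_ofNat]
        rw [← hκ]
        linear_combination hD1
      exact mul_ne_zero (pow_ne_zero 2 hc) h4 ((_root_.map_eq_zero _).1 hz)
    · have hz : algebraMap k v.RF ((c ^ 2 + 7 * c + 1) ^ 2 * (16 * c ^ 2 + 12 * c + 1)) = 0 := by
        simp only [map_add, map_mul, map_pow, map_one, map_ofNat]
        rw [← hκ]
        linear_combination ((5 * κ ^ 2 + 20 * κ + 11) * (11 - t) +
          (4 * κ ^ 3 + 2 * κ ^ 2 + 2 * κ + 1)) * hD1 -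
          ((κ + 1) ^ 2 * ((5 * κ ^ 2 + 20 * κ + 11) * (11 - t) +
          (4 * κ ^ 3 + 2 * κ ^ 2 + 2 * κ + 1)) - (5 * κ ^ 2 + 20 * κ + 11) ^ 2) * h
      exact mul_ne_zero (pow_ne_zero 2 h7) h16 ((_root_.map_eq_zero _).1 hz)

/-- the rank of the twist -/
theorem rank_Dc (h2 : (2 : k) ≠ 0) (h3 : (3 : k) ≠ 0) {c : k} (hc : c ≠ 0)
    (h4 : 4 * c + 1 ≠ 0) (h7 : c ^ 2 + 7 * c + 1 ≠ 0) (h16 : 16 * c ^ 2 + 12 * c + 1 ≠ 0) :
    1 ≤ rank (A (Dc c) ^ 2 * fA RatFunc.X) (A (Dc c) ^ 3 * fB RatFunc.X) := by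
  obtain ⟨v, hX, hord, hred⟩ := exists_place h2 h3 hc h4 h7 h16
  obtain ⟨hD0, -⟩ := Dc_ne h2 hc
  have hrX : v.Reg (RatFunc.X : RatFunc k) := Or.inr hX
  have h108 : (108 : RatFunc k) ≠ 0 := by
    have : (108 : RatFunc k) = algebraMap k (RatFunc k) (2 ^ 2 * 3 ^ 3) := by
      rw [map_mul, map_pow, map_pow, map_ofNat, map_ofNat]
      norm_num
    rw [this]
    exact (_root_.map_ne_zero _).2 (mul_ne_zero (pow_ne_zero _ h2) (pow_ne_zero _ h3))
  have hAX : A (X : k[X]) = RatFunc.X := RatFunc.algebraMap_X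
  have hno := no_root (k := k) h2 h3 (b := X) (by rw [natDegree_X]; norm_num)
  rw [hAX] at hno
  set κ : RatFunc k := algebraMap k (RatFunc k) c with hκ
  have hAD : A (Dc c) = (κ + 1) ^ 2 * RatFunc.X ^ 2 - (6 * κ ^ 2 + 2 * κ) * RatFunc.X +
      (4 * κ ^ 3 + κ ^ 2) := by
    have e : A (Dc c) = aeval (RatFunc.X : RatFunc k) (Dc c) := A_aeval _
    rw [e, aeval_Dc]
  refine rank_twist (v := v) h2 (x₀ := 36 * κ + 3 * (RatFunc.X ^ 2 - 6 * RatFunc.X + 1)) (r := 108)
    (red_fA hrX).1 (red_fB hrX).1 ?_ hred (A_ne hD0) h108 ?_ (by rw [hord]; exact odd_one) hno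
  · have e : (36 * κ + 3 * (RatFunc.X ^ 2 - 6 * RatFunc.X + 1) : RatFunc k) =
        A (C (36 * c) + 3 * (X ^ 2 - 6 * X + 1)) := by
      show _ = algebraMap k[X] (RatFunc k) _
      simp only [map_add, map_mul, map_sub, map_pow, map_one, map_ofNat, RatFunc.algebraMap_X]
      rw [hκ]
      rfl
    rw [e]
    exact fin_reg hX _
  · rw [hAD]
    unfold fA fB
    ring

end place

end Pool.Agent.R427.TW
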